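import Pool.Agent.MP42.NE.FLay2

/-!
# Connected flows with two letters give edge unfoldings
-/

set_option autoImplicit false
set_option linter.unusedSectionVars false

namespace Pool.Agent.MP42.NE

open Pool.Agent.Helper55.UNF Pool.Agent.Helper55.UNF.GridSolid Pool.Agent.MP42H

variable {P : GridSolid}

section

variable {e : Dart P → ℕ} {v : Dart P → ℤ} (hF : (sysP P).Fl e v) {K k : ℕ}
  (he : ∀ d, e d ≤ k) (hv : ∀ d, v d ≤ k) (hv' : ∀ d, -(k : ℤ) ≤ v d) (hK : 3 * k ≤ K)

include hF in
lemma eE_pos (hpos : ∀ d, 0 < e d) {t : P.FSt} (h : t.1.n.1 = 2) : 0 < eE e t := by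
  have h1 : IsDart (retFun pE IsDart t).r2 := by
    have : IsDart (retFun pE IsDart t) := retFun_spec (ex_dart_E h)
    exact this
  rw [eE_wall h, xd_dart e h1]
  exact_mod_cast hpos _

include hF he hv hv' hK in
/-- every vertical line of a wall is crossed -/
lemma wall_cov' {t : P.FSt} (h : t.1.n.1 = 2) (h1 : 0 < eE e t) (h2 : 0 < eE e t.r2) (x : ℕ) :
    ∃ y < 2 * K + 1, hP (Hh K e v t) x y = true := by
  have hact : Act can t := wall_act h
  have hb := bd_act hF he hv hv' hK hact
  have h3 := sc_diff (K : ℤ) (nN v t) (nN v t.r2) x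
  have h4 := bal_act hF hact
  have h5 := hi_le hb (x : ℤ)
  have h6 : lo K (nN v t) x < hi K (eE e t.r2) (nN v t) (nN v t.r2) x := by
    unfold lo hi; omega
  set L := lo K (nN v t) x
  set M := hi K (eE e t.r2) (nN v t) (nN v t.r2) x
  obtain ⟨y, hy⟩ : ∃ y : ℕ, (y : ℤ) = K + (M - L) - 1 := ⟨(K + (M - L) - 1).toNat, by omega⟩
  refine ⟨y, by omega, ?_⟩
  apply hP_t
  obtain ⟨m1, m2⟩ := med_at (K := (K : ℤ)) (l := L) (m := M - L) (j := 0) le_rfl (by omega)
  rw [show (K : ℤ) + (M - L) - 1 - 2 * 0 = y by omega, show L + (M - L) = M by omega] at m1 m2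
  have e1 : Hh K e v t x (y + 1) = med K L M (y + 1) := by
    show med K L M ((y + 1 : ℕ) : ℤ) = _
    push_cast; rfl
  have e2 : Hh K e v t x y = med K L M y := rfl
  rw [e1, e2, m1, m2]
  omega

end

/-- the hypothesis of coverage: every wall is joined, by a vertical line, to a wall that is crossed
by a ring -/
def VCov (P : GridSolid) (e : Dart P → ℕ) : Prop :=
  ∀ t : P.FSt, t.1.n.1 = 2 → ∃ u, Ch can t u ∧ u.1.n.1 = 2 ∧ 0 < eE e u ∧ 0 < eE e u.r2

lemma vcov_of_pos {e : Dart P → ℕ} {v : Dart P → ℤ} (hF : (sysP P).Fl e v)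
    (hpos : ∀ d, 0 < e d) : VCov P e := fun t ht =>
  ⟨t, Ch.refl (wall_act ht), ht, eE_pos hF hpos ht, eE_pos hF hpos (r2_n2 ht)⟩

/-- **The layout theorem for flows**: a connected flow with two letters gives an edge unfolding of
a refinement if every wall is joined by a vertical line to a wall that is crossed by a ring. -/
theorem hasEdgeUnfolding_of_flow' {e : Dart P → ℕ} {v : Dart P → ℤ} (hF : (sysP P).Fl e v)
    (hC : (sysP P).FConn e v) (hcov : VCov P e) {K k : ℕ}
    (he : ∀ d, e d ≤ k) (hv : ∀ d, v d ≤ k) (hv' : ∀ d, -(k : ℤ) ≤ v d) (hK : 3 * k ≤ K)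
    (hne : Nonempty P.Facet) (h5 : 0 < 5 * (2 * K + 1)) :
    (P.refine (5 * (2 * K + 1)) h5).HasEdgeUnfolding := by
  refine (ftab e v hF K he hv hv' hK).hasEdgeUnfolding hne ?_ ?_ h5
  · -- coverage
    intro t ht x hx w
    by_cases h : t.1.d.1 = 2
    · have h1 := act_line ht (by rw [h]; decide)
      obtain ⟨j, hj⟩ := ex_dart_N h1
      obtain ⟨u, hu, hun, hu1, hu2⟩ := hcov _ (dart_n hj)
      obtain ⟨y, hy, h2⟩ := wall_cov' hF he hv hv' hK hun hu1 hu2 (if w then x else x + 1)
      have hc : Ch can t ((pN ^ j) t) := by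
        refine ⟨j, ?_, by simp⟩
        intro z hz
        apply line_act
        have key : ∀ n : ℕ, ((pN ^ n) t).1.e = t.1.e := by
          intro n
          induction n with
          | zero => rfl
          | succ n ih => rw [pow_succ', Equiv.Perm.mul_apply, stN_e', ih]
        have hz' : ∃ n : ℕ, z = n := by
          rw [Set.mem_uIcc] at hz
          exact ⟨z.toNat, by omega⟩
        obtain ⟨n, rfl⟩ := hz'
        show ((pN ^ (n : ℤ)) t).1.e.1 = 0
        rw [zpow_natCast, key, h1]
      exact ⟨u, hc.cat hu, y, hy, h2⟩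
    · obtain ⟨u, hu, hun, hu1, hu2⟩ := hcov t (act_wall ht h)
      obtain ⟨y, hy, h2⟩ := wall_cov' hF he hv hv' hK hun hu1 hu2 (if w then x else x + 1)
      exact ⟨u, hu, y, hy, h2⟩
  · -- connectivity
    intro ψ χ hR'
    have hR : ARel (2 * K + 1) can (fun t => hP (Hh K e v t)) (fun t => hL (Hh K e v t)) ψ χ :=
      hR'
    obtain ⟨c, hc⟩ := hC _ (GS_con hF he hv hv' hK hR)
    -- labels of darts
    have hlab : ∀ (d : Dart P) (l : ℤ), 0 ≤ l →
        l < eE e d.1.r2 + max 0 (-nN v d.1) + max 0 (nN v d.1.r2) →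
        (GS K e v ψ χ d.1 l ↔ c) := by
      intro d l h0 h1
      obtain ⟨a1, a2, a3, a4⟩ := par_dart hF d
      have hcnt := hF.cnt_in d
      have e3 : (sysP P).r d = r2D P d := rfl
      rw [e3] at hcnt
      have h2 := hc d l.toNat (by omega)
      rwa [show ((l.toNat : ℕ) : ℤ) = l by omega] at h2
    have hrange : ∀ (t : P.FSt), Act can t → ∀ x y, x ≤ 2 * K + 1 → y ≤ 2 * K + 1 →
        0 ≤ Hh K e v t x y ∧
        Hh K e v t x y ≤ eE e t.r2 + max 0 (-nN v t) + max 0 (nN v t.r2) := by
      intro t ht x y hx hy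
      have hb := bd_act hF he hv hv' hK ht
      have h1 := med_ge (K : ℤ) (lo K (nN v t) x) (hi K (eE e t.r2) (nN v t) (nN v t.r2) x) y
      have h2 := med_le (K := (K : ℤ)) (y := (y : ℤ)) (lo_le_hi hb (x : ℤ))
      have h3 := lo_nonneg (K : ℤ) (nN v t) x
      have h4 := hi_le' (K : ℤ) (eE e t.r2) (nN v t) (nN v t.r2) x
      have e1 : Hh K e v t x y =
        med K (lo K (nN v t) x) (hi K (eE e t.r2) (nN v t) (nN v t.r2) x) y := rfl
      rw [e1]
      omega
    have hdV : ∀ (d : Dart P) x y, x ≤ 2 * K + 1 → y < 2 * K + 1 →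
        Hh K e v d.1 x (y + 1) < Hh K e v d.1 x y → (ψ d.1 x y ↔ c) := by
      intro d x y hx hy h
      have hact : Act can d.1 := line_act d.2.2
      rw [(GS_track hF he hv hv' hK hR hact).1 x y hx hy h]
      have h1 := hrange d.1 hact x (y + 1) hx (by omega)
      have h2 := hrange d.1 hact x y hx hy.le
      exact hlab d _ h1.1 (by omega)
    have hdH : ∀ (d : Dart P) x y, x < 2 * K + 1 → y ≤ 2 * K + 1 →
        Hh K e v d.1 x y ≠ Hh K e v d.1 (x + 1) y → (χ d.1 x y ↔ c) := by
      intro d x y hx hy h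
      have hact : Act can d.1 := line_act d.2.2
      have h1 := hrange d.1 hact x y hx.le hy
      have h2 := hrange d.1 hact (x + 1) y (by omega) hy
      rcases lt_or_gt_of_ne h with h3 | h3
      · rw [(GS_track hF he hv hv' hK hR hact).2.1 x y hx hy h3]
        exact hlab d _ h1.1 (by omega)
      · rw [(GS_track hF he hv hv' hK hR hact).2.2 x y hx hy h3]
        exact hlab d _ h2.1 (by omega)
    refine ⟨c, ?_, ?_⟩
    · intro t ht x y hx hy hp
      have hp' : Hh K e v t x (y + 1) < Hh K e v t x y := hP_iff.1 hp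
      by_cases hd : IsDart t
      · exact hdV ⟨t, hd⟩ x y hx hy hp'
      · by_cases hd2 : t.1.d.1 = 2
        · exfalso
          have h1 := act_line ht (by rw [hd2]; decide)
          rw [Hh_z hF he hv hv' hK h1 hd, Hh_z hF he hv hv' hK h1 hd] at hp'
          omega
        · have hw := act_wall ht hd2
          have h2 := hp'
          rw [Hh_x hF he hv hv' hK hw hd, Hh_x hF he hv hv' hK hw hd] at h2
          have h3 : Hh K e v t (2 * K + 1) (y + 1) < Hh K e v t (2 * K + 1) y := by
            rw [Hh_x hF he hv hv' hK hw hd, Hh_x hF he hv hv' hK hw hd]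
            exact h2
          have h4 := (GS_track hF he hv hv' hK hR ht).1 x y hx hy hp'
          have h5 := (GS_track hF he hv hv' hK hR ht).1 (2 * K + 1) y le_rfl hy h3
          rw [Hh_x hF he hv hv' hK hw hd] at h4 h5
          rw [h4, ← h5]
          push_cast at h2
          obtain ⟨c1, c2⟩ := fwalk_E hF he hv hv' hK hR hw hy h2
          rw [c2]
          have hj : IsDart (retFun pE IsDart t) := retFun_spec (ex_dart_E hw)
          refine hdV ⟨_, hj⟩ 0 y (Nat.zero_le _) hy ?_
          have hact : Act can (retFun pE IsDart t) := line_act hj.2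
          show Hh K e v (retFun pE IsDart t) 0 (y + 1) < Hh K e v (retFun pE IsDart t) 0 y
          rw [Hh_W hF he hv hv' hK hact, Hh_W hF he hv hv' hK hact, c1]
          push_cast
          omega
    · intro t ht x y hx hy hp
      have hp' : Hh K e v t x y ≠ Hh K e v t (x + 1) y := fun h => hp (sg_z h)
      by_cases hd : IsDart t
      · exact hdH ⟨t, hd⟩ x y hx hy hp'
      · by_cases hd2 : t.1.d.1 = 0
        · exfalso
          have h1 := act_wall ht (by rw [hd2]; decide)
          rw [Hh_x hF he hv hv' hK h1 hd, Hh_x hF he hv hv' hK h1 hd] at hp'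
          exact hp' rfl
        · have hl := act_line ht hd2
          have h2 : ∀ y, Hh K e v t x y = lo K (nN v t) x := fun y =>
            Hh_z hF he hv hv' hK hl hd x y
          have h2' : ∀ y, Hh K e v t (x + 1) y = lo K (nN v t) (x + 1) := fun y => by
            rw [Hh_z hF he hv hv' hK hl hd]; push_cast; rfl
          have h3 : sc K (nN v t) x ≠ sc K (nN v t) (x + 1) := by
            rw [h2, h2'] at hp'
            unfold lo at hp'
            omega
          have h4 : χ t x y ↔ χ t x (2 * K + 1) := by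
            obtain ⟨-, c1, c2⟩ := GS_track hF he hv hv' hK hR ht
            rcases lt_or_gt_of_ne h3 with h5 | h5
            · have h6 : ∀ y, Hh K e v t x y < Hh K e v t (x + 1) y := by
                intro y
                rw [h2, h2']
                unfold lo
                omega
              have d1 := c1 x y hx hy (h6 _)
              have d2 := c1 x (2 * K + 1) hx le_rfl (h6 _)
              rw [h2] at d1 d2
              rw [d1, d2]
            · have h6 : ∀ y, Hh K e v t (x + 1) y < Hh K e v t x y := by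
                intro y
                rw [h2, h2']
                unfold lo
                omega
              have d1 := c2 x y hx hy (h6 _)
              have d2 := c2 x (2 * K + 1) hx le_rfl (h6 _)
              rw [h2'] at d1 d2
              rw [d1, d2]
          obtain ⟨c1, c2⟩ := fwalk_N hF he hv hv' hK hR hl hx h3
          rw [h4, c2]
          have hj : IsDart (retFun pN IsDart t) := retFun_spec (ex_dart_N hl)
          refine hdH ⟨_, hj⟩ x 0 hx (Nat.zero_le _) ?_
          have hact : Act can (retFun pN IsDart t) := line_act hj.2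
          show Hh K e v (retFun pN IsDart t) x 0 ≠ Hh K e v (retFun pN IsDart t) (x + 1) 0
          rw [Hh_bot hF he hv hv' hK hact, Hh_bot hF he hv hv' hK hact, c1]
          unfold hi
          push_cast
          omega

/-- **The layout theorem for flows**: a connected flow with two letters that uses every ring
gives an edge unfolding of a refinement. -/
theorem hasEdgeUnfolding_of_flow {e : Dart P → ℕ} {v : Dart P → ℤ} (hF : (sysP P).Fl e v)
    (hC : (sysP P).FConn e v) (hpos : ∀ d, 0 < e d) {K k : ℕ}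
    (he : ∀ d, e d ≤ k) (hv : ∀ d, v d ≤ k) (hv' : ∀ d, -(k : ℤ) ≤ v d) (hK : 3 * k ≤ K)
    (hne : Nonempty P.Facet) (h5 : 0 < 5 * (2 * K + 1)) :
    (P.refine (5 * (2 * K + 1)) h5).HasEdgeUnfolding :=
  hasEdgeUnfolding_of_flow' hF hC (vcov_of_pos hF hpos) he hv hv' hK hne h5

end Pool.Agent.MP42.NE
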