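import Pool.Agent.MP42.NE.Twist

/-!
# Connected families with positive weights exist
-/

set_option autoImplicit false

namespace Pool.Agent.MP42.NE

namespace Sys

variable {D : Type*} {S : Sys D}

/-- the complex is connected -/
def Trans (S : Sys D) : Prop := ∀ ψ : D → Prop, (∀ d, ψ (S.E d) ↔ ψ d) →
  (∀ d, ψ (S.N d) ↔ ψ d) → (∀ d, ψ (S.r d) ↔ ψ d) → ∀ d e, ψ d → ψ e

/-- one step along a vertical line -/
def vst (S : Sys D) (a b : D) : Prop := b = S.N a ∨ b = S.r a

open Classical in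
/-- the weights of one vertical line -/
noncomputable def one (S : Sys D) (d0 d : D) : ℕ := if Relation.EqvGen S.vst d0 d then 1 else 0

lemma one_congr {d0 a b : D} (h : S.vst a b) : S.one d0 b = S.one d0 a := by
  unfold one
  have h1 : Relation.EqvGen S.vst d0 b ↔ Relation.EqvGen S.vst d0 a :=
    ⟨fun h2 => h2.trans _ _ _ (Relation.EqvGen.symm _ _ (Relation.EqvGen.rel _ _ h)),
      fun h2 => h2.trans _ _ _ (Relation.EqvGen.rel _ _ h)⟩
  by_cases h2 : Relation.EqvGen S.vst d0 a
  · rw [if_pos (h1.2 h2), if_pos h2]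
  · rw [if_neg (fun h3 => h2 (h1.1 h3)), if_neg h2]

lemma wt_one (d0 : D) : S.Wt (fun _ => 0) (S.one d0) :=
  ⟨fun _ => rfl, fun _ => rfl, fun _ => one_congr (Or.inl rfl), fun _ => one_congr (Or.inr rfl)⟩

lemma one_pos_iff {d0 d : D} : 0 < S.one d0 d ↔ Relation.EqvGen S.vst d0 d := by
  unfold one; split_ifs with h <;> simp [h]

lemma one_le (d0 d : D) : S.one d0 d ≤ 1 := by
  unfold one; split_ifs <;> simp

lemma conn_one (d0 : D) : S.Conn (fun _ => 0) (S.one d0) := by
  intro g hg
  refine ⟨g d0 0, ?_⟩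
  have key : ∀ a b, Relation.EqvGen S.vst a b → Relation.EqvGen S.vst d0 a → (g a 0 ↔ g b 0) := by
    intro a b h
    induction h with
    | rel a b h =>
      intro h0
      have h1 : S.one d0 a = 1 := le_antisymm (one_le _ _) (one_pos_iff.2 h0)
      rcases h with h | h
      · have := hg.cN a 0 (by omega)
        subst h
        simpa using this
      · have := hg.cr a 0 (by show 0 < 0 + S.one d0 a; omega)
        subst h
        rw [this]
        show g a 0 ↔ g a (0 + S.one d0 a - 1 - 0)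
        rw [h1]
    | refl a => intro _; exact Iff.rfl
    | symm a b h ih =>
      intro h0
      exact (ih (h0.trans _ _ _ (Relation.EqvGen.symm _ _ h))).symm
    | trans a b c h1 h2 ih1 ih2 =>
      intro h0
      exact (ih1 h0).trans (ih2 (h0.trans _ _ _ h1))
  intro d t ht
  have h1 : t < 0 + S.one d0 d := ht
  have h2 := one_le (S := S) d0 d
  have h3 : t = 0 := by omega
  have h4 : 0 < S.one d0 d := by omega
  rw [h3]
  exact (key d0 d (one_pos_iff.1 h4) (Relation.EqvGen.refl _)).symm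

lemma le_tw [Finite D] (m : D → ℕ) (d : D) : m d ≤ S.tw m d := by
  unfold tw acc
  have hpos : 0 < orderOf S.E := orderOf_pos S.E
  have h1 : m ((S.E ^ 0) d) ≤ ∑ j ∈ Finset.range (orderOf S.E), m ((S.E ^ j) d) :=
    Finset.single_le_sum (f := fun j => m ((S.E ^ j) d)) (fun _ _ => Nat.zero_le _)
      (Finset.mem_range.2 hpos)
  exact h1

/-- good weights -/
def Good (S : Sys D) (s m : D → ℕ) : Prop := S.Wt s m ∧ S.Conn s m ∧ ∃ d, 0 < m d

lemma Good.step [Finite D] {s m : D → ℕ} (h : S.Good s m) : S.Good (fun d => s d + S.tw m d) m :=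
  ⟨h.1.tw, h.2.1.twist h.1, h.2.2⟩

lemma Good.step' [Finite D] {s m : D → ℕ} (h : S.Good s m) :
    S.Good s (fun d => m d + S.swap.tw s d) := by
  refine ⟨h.1.tw', h.2.1.twist' h.1, ?_⟩
  obtain ⟨d, hd⟩ := h.2.2
  exact ⟨d, by show 0 < m d + _; omega⟩

/-- **connected families that use every ring and every vertical line** -/
theorem exists_conn [Finite D] [Nonempty D] (htr : S.Trans) :
    ∃ s m : D → ℕ, S.Wt s m ∧ (∀ d, 0 < s d) ∧ (∀ d, 0 < m d) ∧ S.Conn s m := by
  classical
  have := Fintype.ofFinite D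
  obtain ⟨d0⟩ := ‹Nonempty D›
  let cnt : (D → ℕ) → ℕ := fun f => (Finset.univ.filter (fun d => 0 < f d)).card
  have hmono : ∀ f f' : D → ℕ, (∀ d, f d ≤ f' d) → cnt f ≤ cnt f' := by
    intro f f' hff
    apply Finset.card_le_card
    intro d hd
    rw [Finset.mem_filter] at hd ⊢
    exact ⟨hd.1, lt_of_lt_of_le hd.2 (hff d)⟩
  have hgrow : ∀ f f' : D → ℕ, (∀ d, f d ≤ f' d) → cnt f' ≤ cnt f → ∀ d, 0 < f' d → 0 < f d := by
    intro f f' hff hc d hd
    have h1 : (Finset.univ.filter (fun d => 0 < f d)) = (Finset.univ.filter (fun d => 0 < f' d)) := by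
      apply Finset.eq_of_subset_of_card_le
      · intro d hd
        rw [Finset.mem_filter] at hd ⊢
        exact ⟨hd.1, lt_of_lt_of_le hd.2 (hff d)⟩
      · exact hc
    have h2 : d ∈ (Finset.univ.filter (fun d => 0 < f d)) := by
      rw [h1, Finset.mem_filter]
      exact ⟨Finset.mem_univ _, hd⟩
    exact (Finset.mem_filter.1 h2).2
  have hbd : ∀ f : D → ℕ, cnt f ≤ Fintype.card D := fun f => Finset.card_le_univ _
  let p : ℕ → Prop := fun n => ∃ s m : D → ℕ, S.Good s m ∧ cnt s + cnt m = n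
  have hp0 : p (cnt (fun _ => 0) + cnt (S.one d0)) :=
    ⟨_, _, ⟨wt_one d0, conn_one d0, d0, one_pos_iff.2 (Relation.EqvGen.refl _)⟩, rfl⟩
  have hpb : ∀ n, p n → n ≤ 2 * Fintype.card D := by
    rintro n ⟨s, m, _, rfl⟩
    have := hbd s
    have := hbd m
    omega
  obtain ⟨s, m, hG, hn⟩ := Nat.findGreatest_spec (P := p) (hpb _ hp0) hp0
  have hmax : ∀ s' m' : D → ℕ, S.Good s' m' → cnt s' + cnt m' ≤ cnt s + cnt m := by
    intro s' m' hG'
    rw [hn]
    exact Nat.le_findGreatest (hpb _ ⟨s', m', hG', rfl⟩) ⟨s', m', hG', rfl⟩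
  -- the supports
  have h1 : ∀ d, 0 < m d → 0 < s d := by
    intro d hd
    have hle : ∀ d, s d ≤ s d + S.tw m d := fun d => Nat.le_add_right _ _
    have hm := hmax _ _ hG.step
    have := hgrow s (fun d => s d + S.tw m d) hle (by omega) d
    apply this
    have := le_tw (S := S) m d
    show 0 < s d + S.tw m d
    omega
  have h2 : ∀ d, 0 < s d → 0 < m d := by
    intro d hd
    have hle : ∀ d, m d ≤ m d + S.swap.tw s d := fun d => Nat.le_add_right _ _
    have hm := hmax _ _ hG.step'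
    have := hgrow m (fun d => m d + S.swap.tw s d) hle (by omega) d
    apply this
    have := le_tw (S := S.swap) s d
    show 0 < m d + S.swap.tw s d
    omega
  obtain ⟨d1, hd1⟩ := hG.2.2
  have hall := htr (fun d => 0 < m d) ?_ ?_ ?_ d1
  · exact ⟨s, m, hG.1, fun d => h1 d (hall d hd1), fun d => hall d hd1, hG.2.1⟩
  · intro d
    show 0 < m (S.E d) ↔ 0 < m d
    constructor
    · intro h
      have := h1 _ h
      rw [hG.1.sE] at this
      exact h2 _ this
    · intro h
      have := h1 _ h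
      rw [← hG.1.sE] at this
      exact h2 _ this
  · intro d
    show 0 < m (S.N d) ↔ 0 < m d
    rw [hG.1.mN]
  · intro d
    show 0 < m (S.r d) ↔ 0 < m d
    rw [hG.1.mr]

end Sys

end Pool.Agent.MP42.NE
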