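import Pool.Agent.MP42.A1
import Pool.Agent.MP42.NE.Ex

/-!
# The square complex of a solid
-/

set_option autoImplicit false

namespace Pool.Agent.MP42.NE

open Pool.Agent.Helper55.UNF Pool.Agent.Helper55.UNF.GridSolid

/-- The complex of the rings (curves through the `x`- and `y`-facets of one level) and the vertical
lines (curves through the `y`- and `z`-facets of one slab). -/
noncomputable def sysP (P : GridSolid) : Sys (Dart P) where
  E := phi P
  N := rN P
  r := fun d => r2D P d
  rr := fun d => Subtype.ext (FSt.r2_r2 d.1)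
  rE := fun d => by
    show r2D P (phi P (r2D P (phi P d))) = d
    rw [phi_r2]
    exact Subtype.ext (FSt.r2_r2 d.1)
  rN := fun d => theta_theta P d

theorem trans_sysP {P : GridSolid} (hM : P.IsManifold) (hP : P.surfaceGraph.Connected) :
    (sysP P).Trans := by
  intro ψ h1 h2 h3 d d' h
  refine (conn_darts P hM hP ψ h1 ?_ h3 d d').1 h
  intro d
  have h4 : ψ (theta P d) ↔ ψ (rN P d) := h3 (rN P d)
  rw [h4]
  exact h2 d

/-- there are families of monotone curves that use every ring and form one closed curve -/
theorem exists_conn_P {P : GridSolid} (hP : P.IsOrthogonalPolyhedron) [Nonempty (Dart P)] :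
    ∃ s m : Dart P → ℕ, (sysP P).Wt s m ∧ (∀ d, 0 < s d) ∧ (∀ d, 0 < m d) ∧ (sysP P).Conn s m :=
  Sys.exists_conn (trans_sysP hP.1 hP.2)

end Pool.Agent.MP42.NE
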