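import Pool.Agent.MP42.NE.Stk

/-!
# Infinite stacks, and the splitting of the ribbons

`TS E τ v T`: `T p j` is the value of the strand `j` (from the top) between the ribbons `p` and
`E p`; at the ribbon `E p` the stack loses (`v > 0`) or gains (`v < 0`) strands, which are joined
to the strands lost or gained at the other side `τ` of the ribbon.

If `v p = a p + a (τ p)`, then every ribbon can be split into two halves, the first one with
`a (τ p)`, the second one with `a p` strands.
-/

set_option autoImplicit false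

namespace Pool.Agent.MP42.NE

/-- infinite stacks -/
structure TS {P : Type*} (E : Equiv.Perm P) (τ : P → P) (v : P → ℤ) (T : P → ℕ → Prop) :
    Prop where
  tt : ∀ p, τ (τ p) = p
  vt : ∀ p, v (τ p) = v p
  st : ∀ (p : P) (j k : ℕ), (k : ℤ) = v (E p) + j → (T (E p) j ↔ T p k)
  pop : ∀ (p : P) (i j : ℕ), (i : ℤ) + j + 1 = v p → (T (E.symm p) i ↔ T (E.symm (τ p)) j)
  push : ∀ (p : P) (i j : ℕ), (i : ℤ) + j + 1 = - v p → (T p i ↔ T (τ p) j)

namespace TS

variable {P : Type*}

/-- the ring of the halves -/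
def spE (E : Equiv.Perm P) : Equiv.Perm (P × Bool) where
  toFun x := if x.2 then (E x.1, false) else (x.1, true)
  invFun x := if x.2 then (x.1, false) else (E.symm x.1, true)
  left_inv := by rintro ⟨p, b⟩; cases b <;> simp
  right_inv := by rintro ⟨p, b⟩; cases b <;> simp

@[simp] lemma spE_true (E : Equiv.Perm P) (p : P) : spE E (p, true) = (E p, false) := rfl
@[simp] lemma spE_false (E : Equiv.Perm P) (p : P) : spE E (p, false) = (p, true) := rfl
@[simp] lemma spE_symm_true (E : Equiv.Perm P) (p : P) : (spE E).symm (p, true) = (p, false) := rfl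
@[simp] lemma spE_symm_false (E : Equiv.Perm P) (p : P) :
    (spE E).symm (p, false) = (E.symm p, true) := rfl

/-- the other side -/
def spτ (τ : P → P) (x : P × Bool) : P × Bool := (τ x.1, !x.2)

@[simp] lemma spτ_true (τ : P → P) (p : P) : spτ τ (p, true) = (τ p, false) := rfl
@[simp] lemma spτ_false (τ : P → P) (p : P) : spτ τ (p, false) = (τ p, true) := rfl

/-- the strands of the halves -/
def spv (τ : P → P) (a : P → ℤ) (x : P × Bool) : ℤ := if x.2 then a x.1 else a (τ x.1)

@[simp] lemma spv_true (τ : P → P) (a : P → ℤ) (p : P) : spv τ a (p, true) = a p := rfl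
@[simp] lemma spv_false (τ : P → P) (a : P → ℤ) (p : P) : spv τ a (p, false) = a (τ p) := rfl

/-- the stack in the middle of the ribbon -/
def mid (E : Equiv.Perm P) (τ : P → P) (a : P → ℤ) (T : P → ℕ → Prop) (p : P) (j : ℕ) : Prop :=
  if (j : ℤ) < a p then T (E.symm (τ p)) (a p - 1 - j).toNat else T p ((j : ℤ) - a p).toNat

lemma mid_lt {E : Equiv.Perm P} {τ : P → P} {a : P → ℤ} {T : P → ℕ → Prop} {p : P} {j k : ℕ}
    (h : (k : ℤ) + j + 1 = a p) : mid E τ a T p j ↔ T (E.symm (τ p)) k := by
  unfold mid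
  rw [if_pos (by omega), show (a p - 1 - j).toNat = k by omega]

lemma mid_ge {E : Equiv.Perm P} {τ : P → P} {a : P → ℤ} {T : P → ℕ → Prop} {p : P} {j k : ℕ}
    (h : (k : ℤ) + a p = j) : mid E τ a T p j ↔ T p k := by
  unfold mid
  rw [if_neg (by omega), show ((j : ℤ) - a p).toNat = k by omega]

/-- the stacks of the halves -/
def spT (E : Equiv.Perm P) (τ : P → P) (a : P → ℤ) (T : P → ℕ → Prop) (x : P × Bool) (j : ℕ) :
    Prop := if x.2 then T x.1 j else mid E τ a T x.1 j

@[simp] lemma spT_true (E : Equiv.Perm P) (τ : P → P) (a : P → ℤ) (T : P → ℕ → Prop) (p : P)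
    (j : ℕ) : spT E τ a T (p, true) j = T p j := rfl
@[simp] lemma spT_false (E : Equiv.Perm P) (τ : P → P) (a : P → ℤ) (T : P → ℕ → Prop) (p : P)
    (j : ℕ) : spT E τ a T (p, false) j = mid E τ a T p j := rfl

/-- the middle and the beginning of the ribbon -/
lemma mid_first {E : Equiv.Perm P} {τ : P → P} {v a : P → ℤ} {T : P → ℕ → Prop}
    (h : TS E τ v T) (hv : ∀ p, v p = a p + a (τ p)) {p : P} {j k : ℕ}
    (hk : (k : ℤ) = a (τ p) + j) : mid E τ a T p j ↔ T (E.symm p) k := by
  by_cases h1 : (j : ℤ) < a p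
  · obtain ⟨i, hi⟩ : ∃ i : ℕ, (i : ℤ) + j + 1 = a p := ⟨(a p - 1 - j).toNat, by omega⟩
    rw [mid_lt hi]
    exact (h.pop p k i (by rw [hv]; omega)).symm
  · obtain ⟨i, hi⟩ : ∃ i : ℕ, (i : ℤ) + a p = j := ⟨((j : ℤ) - a p).toNat, by omega⟩
    rw [mid_ge hi]
    have := h.st (E.symm p) i k (by rw [Equiv.apply_symm_apply, hv]; omega)
    rwa [Equiv.apply_symm_apply] at this

/-- **splitting the ribbons** -/
theorem split {E : Equiv.Perm P} {τ : P → P} {v a : P → ℤ} {T : P → ℕ → Prop}
    (h : TS E τ v T) (hv : ∀ p, v p = a p + a (τ p)) :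
    TS (spE E) (spτ τ) (spv τ a) (spT E τ a T) where
  tt := by
    rintro ⟨p, b⟩
    cases b <;> simp [h.tt]
  vt := by
    rintro ⟨p, b⟩
    cases b <;> simp [h.tt]
  st := by
    rintro ⟨p, b⟩ j k hk
    cases b
    · simp only [spE_false, spv_true, spT_true, spT_false] at hk ⊢
      exact (mid_ge (k := j) (by omega)).symm
    · simp only [spE_true, spv_false, spT_true, spT_false] at hk ⊢
      have := mid_first h hv (p := E p) hk
      rwa [Equiv.symm_apply_apply] at this
  pop := by
    rintro ⟨p, b⟩ i j hij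
    cases b
    · simp only [spE_symm_false, spτ_false, spE_symm_true, spT_true, spT_false, spv_false] at hij ⊢
      rw [mid_lt (p := τ p) (j := j) (k := i) hij, h.tt]
    · simp only [spE_symm_false, spτ_true, spE_symm_true, spT_true, spT_false, spv_true] at hij ⊢
      exact mid_lt (by omega)
  push := by
    rintro ⟨p, b⟩ i j hij
    cases b
    · simp only [spτ_false, spT_true, spT_false, spv_false] at hij ⊢
      by_cases h1 : (i : ℤ) < a p
      · obtain ⟨k, hk⟩ : ∃ k : ℕ, (k : ℤ) + i + 1 = a p := ⟨(a p - 1 - i).toNat, by omega⟩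
        rw [mid_lt hk]
        have h2 := h.st (E.symm (τ p)) j k (by
          rw [Equiv.apply_symm_apply, h.vt, hv]; omega)
        rw [Equiv.apply_symm_apply] at h2
        exact h2.symm
      · obtain ⟨k, hk⟩ : ∃ k : ℕ, (k : ℤ) + a p = i := ⟨((i : ℤ) - a p).toNat, by omega⟩
        rw [mid_ge hk]
        exact h.push p k j (by rw [hv]; omega)
    · simp only [spτ_true, spT_true, spT_false, spv_true] at hij ⊢
      by_cases h1 : (j : ℤ) < a (τ p)
      · obtain ⟨k, hk⟩ : ∃ k : ℕ, (k : ℤ) + j + 1 = a (τ p) := ⟨(a (τ p) - 1 - j).toNat, by omega⟩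
        rw [mid_lt hk, h.tt]
        have h2 := h.st (E.symm p) i k (by rw [Equiv.apply_symm_apply, hv]; omega)
        rwa [Equiv.apply_symm_apply] at h2
      · obtain ⟨k, hk⟩ : ∃ k : ℕ, (k : ℤ) + a (τ p) = j := ⟨((j : ℤ) - a (τ p)).toNat, by omega⟩
        rw [mid_ge hk]
        exact h.push p i k (by rw [hv]; omega)

end TS

end Pool.Agent.MP42.NE
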