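import Pool.Agent.MP42.NE.F2c
import Pool.Agent.MP42.NE.TS
import Pool.Agent.MP42.A1

/-!
# From infinite stacks on the active positions to a connected flow

* `Sys.exists_e`: a signed function on the ribbons with sum `2` on every ring is the second part of
  a flow with bounded numbers of strands;
* `Sys.CC.of_TS`: connectedness of the infinite stacks gives `CC`;
* `Sys.fconn_of_TS`: the same with the stacks on the active positions `A` only.
-/

set_option autoImplicit false
set_option linter.unusedSectionVars false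

namespace Pool.Agent.MP42.NE

open Pool.Agent.Helper55.UNF Pool.Agent.MP42

namespace Sys

variable {D : Type*} {S : Sys D} {e : D → ℕ} {v : D → ℤ} {K : ℕ}

/-! ## Heights -/

lemma QS_add (m n : ℕ) (x : D) : S.QS v (m + n) x = S.QS v m x + S.QS v n ((S.E ^ m) x) := by
  induction n with
  | zero => rw [QS_zero]; simp
  | succ n ih =>
    rw [← Nat.add_assoc, QS_succ, QS_succ, ih]
    have : (S.E ^ (m + n)) x = (S.E ^ n) ((S.E ^ m) x) := by
      rw [← Equiv.Perm.mul_apply, ← pow_add]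
      congr 2; omega
    rw [this]; ring

/-- the change of the number of strands along `n` darts -/
def HS (S : Sys D) (v : D → ℤ) (n : ℕ) (x : D) : ℤ := S.QS v n x - S.PS v n x

lemma HS_zero (x : D) : S.HS v 0 x = 0 := by unfold HS; rw [QS_zero, PS_zero]; ring

lemma HS_add (m n : ℕ) (x : D) : S.HS v (m + n) x = S.HS v m x + S.HS v n ((S.E ^ m) x) := by
  unfold HS; rw [QS_add, PS_add]; ring

lemma HS_succ (n : ℕ) (x : D) : S.HS v (n + 1) x =
    S.HS v n x + (v (S.om ((S.E ^ n) x)) - v ((S.E ^ (n + 1)) x)) := by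
  unfold HS; rw [QS_succ, PS_succ]; ring

lemma HS_mul {n : ℕ} {x : D} (h : (S.E ^ n) x = x) (k : ℕ) :
    S.HS v (k * n) x = k * S.HS v n x := by
  induction k with
  | zero => rw [Nat.zero_mul, HS_zero]; simp
  | succ k ih =>
    have h1 : (S.E ^ (k * n)) x = x := by
      clear ih
      induction k with
      | zero => simp
      | succ k ih =>
        rw [Nat.succ_mul, pow_add, Equiv.Perm.mul_apply, h, ih]
    rw [Nat.succ_mul, HS_add, ih, h1]
    push_cast
    ring

lemma per2 [Fintype D] [DecidableEq D]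
    (hsum : ∀ d, ∑ x ∈ Finset.univ.filter (fun x => S.E.SameCycle d x), v x = 2) (x : D) :
    ∃ n, 0 < n ∧ (S.E ^ n) x = x ∧ S.PS v n x = 2 ∧ S.QS v n x = 2 := by
  obtain ⟨n, h1, h2⟩ := cyc_sum S.E x
  have h3 : S.PS v n x = 2 := by unfold PS; rw [h2 v, hsum]
  have h4 : S.QS v n x = 2 := by
    have e1 : S.QS v n x = ∑ i ∈ Finset.range n, v (S.om ((S.E ^ (i + 1)) x)) := by
      have e2 := Finset.sum_range_succ (fun i => v (S.om ((S.E ^ i) x))) n
      have e3 := Finset.sum_range_succ' (fun i => v (S.om ((S.E ^ i) x))) n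
      simp only [h1, pow_zero, Equiv.Perm.one_apply] at e2 e3
      unfold QS
      rw [e2] at e3
      exact add_right_cancel e3
    rw [e1, h2 (fun y => v (S.om y)), ← hsum (S.om x)]
    apply Finset.sum_nbij' (fun y => S.om y) (fun y => S.om y)
    · intro y hy
      have hy' : S.E.SameCycle x y := by simpa using hy
      simpa using same_om hy'
    · intro y hy
      have hy' : S.E.SameCycle (S.om x) y := by simpa using hy
      have h5 := same_om hy'
      rw [om_om] at h5
      simpa using h5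
    · intro y _; exact om_om y
    · intro y _; exact om_om y
    · intro y _; rfl
  refine ⟨n, ?_, h1, h3, h4⟩
  rcases Nat.eq_zero_or_pos n with h0 | h0
  · rw [h0, PS_zero] at h3
    omega
  · exact h0

lemma HS_cycle [Fintype D] [DecidableEq D]
    (hsum : ∀ d, ∑ x ∈ Finset.univ.filter (fun x => S.E.SameCycle d x), v x = 2) {x : D} {m : ℕ}
    (h : (S.E ^ m) x = x) : S.HS v m x = 0 := by
  obtain ⟨n, h0, h1, h2, h3⟩ := per2 hsum x
  have e1 := HS_mul (v := v) h1 m
  have e2 := HS_mul (v := v) h n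
  have e3 : S.HS v n x = 0 := by unfold HS; rw [h2, h3]; ring
  rw [e3, mul_zero, Nat.mul_comm] at e1
  rw [e1] at e2
  have : (n : ℤ) ≠ 0 := by omega
  rcases mul_eq_zero.1 e2.symm with h4 | h4
  · exact absurd h4 this
  · exact h4

lemma HS_congr [Fintype D] [DecidableEq D]
    (hsum : ∀ d, ∑ x ∈ Finset.univ.filter (fun x => S.E.SameCycle d x), v x = 2) {x : D} {a b : ℕ}
    (h : (S.E ^ a) x = (S.E ^ b) x) : S.HS v a x = S.HS v b x := by
  have key : ∀ a b : ℕ, a ≤ b → (S.E ^ a) x = (S.E ^ b) x → S.HS v a x = S.HS v b x := by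
    intro a b hab h
    obtain ⟨d, rfl⟩ := Nat.exists_eq_add_of_le hab
    have h1 : (S.E ^ d) ((S.E ^ a) x) = (S.E ^ a) x := by
      rw [← Equiv.Perm.mul_apply, ← pow_add, Nat.add_comm d a, ← h]
    rw [HS_add, HS_cycle hsum h1, add_zero]
  rcases le_total a b with h1 | h1
  · exact key a b h1 h
  · exact (key b a h1 h.symm).symm

/-- **the numbers of strands exist** -/
theorem exists_e [Fintype D] [DecidableEq D]
    (hr : ∀ x, S.r x ≠ x) (ho : ∀ x, S.r (S.E x) ≠ x) (hta : ∀ x, v (S.ta x) = v x)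
    (hsum : ∀ d, ∑ x ∈ Finset.univ.filter (fun x => S.E.SameCycle d x), v x = 2)
    (hps : ∀ d n, -(K : ℤ) ≤ ∑ i ∈ Finset.range n, v ((S.E ^ i) d)) :
    ∃ e : D → ℕ, S.Fl e v ∧ (∀ x, 4 * K + 4 ≤ e x) ∧ (∀ x, e x ≤ 8 * K + 8) := by
  classical
  obtain ⟨σ, hσE, hσr⟩ := exists_sigma hr ho
  have hT : S.Two v K := Two.of_sum hsum hps
  have hex : ∀ x, ∃ n, (S.E ^ n) (S.rep x) = x := fun x => (rep_same x).exists_nat_pow_eq
  set nn : D → ℕ := fun x => Nat.find (hex x) with hnn
  have hn : ∀ x, (S.E ^ (nn x)) (S.rep x) = x := fun x => Nat.find_spec (hex x)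
  have hbd : ∀ x, -(2 * K + 2 : ℤ) ≤ S.HS v (nn x) (S.rep x) ∧
      S.HS v (nn x) (S.rep x) ≤ 2 * K + 2 := by
    intro x
    obtain ⟨p, h0, h1, h2, h3⟩ := per2 hsum (S.rep x)
    have hlt : nn x < p := by
      by_contra hc
      have h4 : (S.E ^ (nn x - p)) (S.rep x) = x := by
        have h5 := hn x
        rw [show nn x = (nn x - p) + p by omega, pow_add, Equiv.Perm.mul_apply, h1] at h5
        exact h5
      have h6 : nn x ≤ nn x - p := Nat.find_min' (hex x) h4
      omega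
    have a1 := hT.lb (nn x) (S.rep x)
    have a2 := hT.ub h2 hlt.le
    have a3 := hT.qlb (nn x) (S.rep x)
    have a4 := hT.qlb (p - nn x) ((S.E ^ (nn x)) (S.rep x))
    have a5 := QS_add (S := S) (v := v) (nn x) (p - nn x) (S.rep x)
    rw [show nn x + (p - nn x) = p by omega, h3] at a5
    unfold HS
    constructor <;> omega
  set f : D → ℤ := fun x => 6 * K + 6 + S.HS v (nn x) (S.rep x) with hf
  have hfE : ∀ x, f (S.E x) = f x + (v (S.om x) - v (S.E x)) := by
    intro x
    have h1 : S.rep (S.E x) = S.rep x := rep_congr (same_E x)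
    have h2 : (S.E ^ (nn (S.E x))) (S.rep x) = (S.E ^ (nn x + 1)) (S.rep x) := by
      rw [pow_succ_E, hn x]
      have := hn (S.E x)
      rwa [h1] at this
    have h3 := HS_congr (v := v) hsum h2
    simp only [hf]
    rw [h1, h3, HS_succ, pow_succ_E, hn x]
    ring
  have hfb : ∀ x, (4 * K + 4 : ℤ) ≤ f x ∧ f x ≤ 8 * K + 8 := by
    intro x
    have := hbd x
    simp only [hf]
    constructor <;> omega
  set g : D → ℤ := fun x => if σ x then f x else f (S.om x) with hg
  have hgb : ∀ x, (4 * K + 4 : ℤ) ≤ g x ∧ g x ≤ 8 * K + 8 := by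
    intro x
    simp only [hg]
    split_ifs
    · exact hfb x
    · exact hfb _
  have hσo : ∀ x, σ (S.om x) ↔ ¬ σ x := fun x => by
    show σ (S.r (S.E x)) ↔ _
    rw [hσr, hσE]
  have hgo : ∀ x, g (S.om x) = g x := by
    intro x
    simp only [hg]
    by_cases h : σ x
    · have h1 : ¬ σ (S.om x) := fun h' => (hσo x).1 h' h
      rw [if_neg h1, if_pos h, om_om]
    · have h1 : σ (S.om x) := (hσo x).2 h
      rw [if_pos h1, if_neg h]
  have hgr : ∀ x, σ x → g (S.r x) + v (S.r x) = g x + v x := by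
    intro x hx
    obtain ⟨y, rfl⟩ := S.E.surjective x
    have h1 : σ y := (hσE y).1 hx
    have h2 : g (S.r (S.E y)) = g y := hgo y
    have h3 : g (S.E y) = f (S.E y) := by simp only [hg]; rw [if_pos hx]
    have h4 : g y = f y := by simp only [hg]; rw [if_pos h1]
    rw [h2, h3, h4, hfE y]
    show f y + v (S.om y) = _
    ring
  refine ⟨fun x => (g x).toNat, ⟨?_, ?_, ?_⟩, ?_, ?_⟩
  · intro x
    show (g (S.om x)).toNat = (g x).toNat
    rw [hgo]
  · intro x; exact hta x
  · intro x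
    have b1 := hgb x
    have b2 := hgb (S.r x)
    have key : g (S.r x) + v (S.r x) = g x + v x := by
      by_cases hx : σ x
      · exact hgr x hx
      · have h1 := hgr (S.r x) ((hσr x).2 hx)
        rw [S.rr] at h1
        exact h1.symm
    show (((g (S.r x)).toNat : ℕ) : ℤ) + v (S.r x) = (((g x).toNat : ℕ) : ℤ) + v x
    omega
  · intro x
    have := hgb x
    show 4 * K + 4 ≤ (g x).toNat
    omega
  · intro x
    have := hgb x
    show (g x).toNat ≤ 8 * K + 8
    omega

/-! ## Infinite stacks -/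

/-- connectedness of the infinite stacks -/
def TConn (S : Sys D) (v : D → ℤ) (K : ℕ) : Prop :=
  ∀ (T : D → ℕ → Prop) (ρ : D → Prop), TS S.E S.ta v T → (∀ x, ρ (S.E x) ↔ ρ x) →
    (∀ x, ρ (S.r x) ↔ ρ x) → (∀ x j, K ≤ j → (T x j ↔ ρ x)) → ∃ c : Prop, ∀ x j, T x j ↔ c

theorem CC.of_TConn (hF : S.Fl e v) (hv : ∀ x, -(K : ℤ) ≤ v x ∧ v x ≤ K + 2)
    (he : ∀ x, 4 * K + 4 ≤ e x) (h : S.TConn v K) : CC S e v K := by
  intro g ρ hg hρE hρr hK
  classical
  set T' : D → ℕ → Prop := fun x j => if j + K < e x then Sys.T v g x j else ρ x with hT'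
  have p1 : ∀ x j, j + K < e x → (T' x j ↔ Sys.T v g x j) := by
    intro x j hj
    simp only [hT']
    rw [if_pos hj]
  have p2 : ∀ x j, K ≤ j → (T' x j ↔ ρ x) := by
    intro x j hj
    simp only [hT']
    split_ifs with h1
    · exact hK x j hj h1
    · exact Iff.rfl
  have hTS : TS S.E S.ta v T' := by
    refine ⟨S.ta_ta, fun p => hF.v_ta p, ?_, ?_, ?_⟩
    · intro x j k hk
      have b1 := hv (S.E x)
      have b2 := he x
      have b3 := he (S.E x)
      by_cases h1 : j + K < e (S.E x) ∧ k + K < e x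
      · rw [p1 _ _ h1.1, p1 _ _ h1.2]
        rcases le_total 0 (v (S.E x)) with h2 | h2
        · exact T_pos hg hk h2 (by omega)
        · exact T_neg hg (by omega) h2 (by omega)
      · have c1 : K ≤ j ∧ K ≤ k := by
          by_contra hc
          apply h1
          constructor <;> omega
        rw [p2 _ _ c1.1, p2 _ _ c1.2, hρE]
    · intro x i j hij
      have b1 := hv x
      have b2 := he (S.E.symm x)
      have b3 := he (S.E.symm (S.ta x))
      rw [p1 _ _ (by omega), p1 _ _ (by omega)]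
      have c1 := T_pop hg (x := S.E.symm x) (j := i) (by rw [Equiv.apply_symm_apply]; omega)
        (by omega)
      have c2 := T_pop hg (x := S.E.symm (S.ta x)) (j := j)
        (by rw [Equiv.apply_symm_apply, hF.v_ta]; omega) (by omega)
      rw [Equiv.apply_symm_apply] at c1 c2
      rw [← c1, ← c2]
      exact ribbon hF hg (by omega)
    · intro x i j hij
      have b1 := hv x
      have b2 := he x
      have b3 := he (S.ta x)
      rw [p1 _ _ (by omega), p1 _ _ (by omega), T_push (by omega),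
        T_push (by rw [hF.v_ta]; omega)]
      exact ribbon hF hg (by omega)
  obtain ⟨c, hc⟩ := h T' ρ hTS hρE hρr p2
  refine ⟨c, hg.all ?_ ?_ ?_⟩
  · intro x
    have b1 := hv x
    have b2 := he (S.E.symm x)
    omega
  · intro x
    have b1 := hv x
    have b2 := he x
    omega
  · intro x j hj
    by_cases h1 : j + K < e x
    · rw [← p1 x j h1]; exact hc x j
    · have b2 := he x
      have h2 := hF.e_om x
      have h3 := T_bot hF hg (x := x) (j := e x - 1 - j) (k := j) (by omega)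
      rw [← h3, ← p1 _ _ (by show _ < e (S.om x); rw [h2]; omega)]
      exact hc _ _

/-- connected infinite stacks give a connected flow -/
theorem TConn.exists_fconn [Fintype D] [DecidableEq D]
    (hr : ∀ x, S.r x ≠ x) (ho : ∀ x, S.r (S.E x) ≠ x) (hτ : ∀ x, v x ≠ 0 → S.ta x ≠ x)
    (hta : ∀ x, v (S.ta x) = v x)
    (hsum : ∀ d, ∑ x ∈ Finset.univ.filter (fun x => S.E.SameCycle d x), v x = 2)
    (hps : ∀ d n, -(K : ℤ) ≤ ∑ i ∈ Finset.range n, v ((S.E ^ i) d))
    (h : S.TConn v K) :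
    ∃ e : D → ℕ, S.Fl e v ∧ S.FConn e v ∧ (∀ x, 2 * K + 4 ≤ e x) ∧ (∀ x, e x ≤ 10 * K + 11) := by
  obtain ⟨e, hF, h1, h2⟩ := exists_e hr ho hta hsum hps
  have hT : S.Two v K := Two.of_sum hsum hps
  have hCC := CC.of_TConn hF (fun x => ⟨hT.vge x, hT.vle x⟩) h1 h
  obtain ⟨t, t1, t2, t3, t4⟩ := hCC.exists_fconn' hr ho hτ hF (fun x => by have := h1 x; omega)
    hsum hps
  refine ⟨fun x => e x + t x, ⟨?_, hF.vr, ?_⟩, t4, ?_, ?_⟩
  · intro x
    show e (S.r (S.E x)) + t (S.r (S.E x)) = e x + t x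
    rw [hF.er, t2, t1]
  · intro x
    show ((e (S.r x) + t (S.r x) : ℕ) : ℤ) + v (S.r x) = ((e x + t x : ℕ) : ℤ) + v x
    have h3 := hF.bal x
    rw [t2]
    push_cast
    omega
  · intro x
    have := h1 x
    show 2 * K + 4 ≤ e x + t x
    omega
  · intro x
    have a1 := h2 x
    have a2 := t3 x
    show e x + t x ≤ 10 * K + 11
    omega

/-! ## Active positions -/

section Act

variable [Finite D] {A : D → Prop}

/-- the first active position -/
lemma ret_symm {A : D → Prop} (E : Equiv.Perm D) (x : {x // A x}) :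
    ∃ n : ℕ, (E ^ (n + 1)) ((ret E A).symm x).1 = x.1 ∧
      ∀ i < n, ¬ A ((E ^ (i + 1)) ((ret E A).symm x).1) := by
  have h1 : (ret E A ((ret E A).symm x)).1 = x.1 := by rw [Equiv.apply_symm_apply]
  rw [ret_val, retFun_eq] at h1
  exact ⟨_, h1, fun i hi => retN_not hi⟩

/-- **restriction to the active positions** -/
theorem TS.restrict {E : Equiv.Perm D} {τ : D → D} {v : D → ℤ} {T : D → ℕ → Prop}
    (h : TS E τ v T) (hA : ∀ x, A x → A (τ x)) (h0 : ∀ x, ¬ A x → v x = 0) :
    TS (ret E A) (fun x => ⟨τ x.1, hA x.1 x.2⟩) (fun x => v x.1) (fun x j => T x.1 j) := by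
  have step : ∀ (n : ℕ) (x : D), (∀ i < n, ¬ A ((E ^ (i + 1)) x)) →
      ∀ j, T ((E ^ n) x) j ↔ T x j := by
    intro n
    induction n with
    | zero => intro x _ j; rfl
    | succ n ih =>
      intro x hx j
      rw [← ih x (fun i hi => hx i (by omega)) j]
      have h1 := hx n (by omega)
      rw [pow_succ', Equiv.Perm.mul_apply] at h1 ⊢
      exact h.st ((E ^ n) x) j j (by rw [h0 _ h1]; ring)
  have back : ∀ (x : {x // A x}) (j : ℕ), T (E.symm x.1) j ↔ T ((ret E A).symm x).1 j := by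
    intro x j
    obtain ⟨n, h1, h2⟩ := ret_symm (A := A) E x
    have h3 : E.symm x.1 = (E ^ n) ((ret E A).symm x).1 := by
      rw [Equiv.symm_apply_eq, ← h1, pow_succ', Equiv.Perm.mul_apply]
    rw [h3]
    exact step n _ h2 j
  refine ⟨fun x => Subtype.ext (h.tt x.1), fun x => h.vt x.1, ?_, ?_, ?_⟩
  · intro x j k hk
    have h1 : (ret E A x).1 = (E ^ (retN E A x.1 + 1)) x.1 := by rw [ret_val, retFun_eq]
    have h2 : T ((E ^ (retN E A x.1)) x.1) k ↔ T x.1 k := step _ _ (fun i hi => retN_not hi) k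
    show T (ret E A x).1 j ↔ T x.1 k
    rw [← h2, h1, pow_succ', Equiv.Perm.mul_apply]
    apply h.st
    rw [← Equiv.Perm.mul_apply, ← pow_succ', ← h1]
    exact hk
  · intro x i j hij
    show T ((ret E A).symm x).1 i ↔ T ((ret E A).symm ⟨τ x.1, hA x.1 x.2⟩).1 j
    rw [← back, ← back]
    exact h.pop x.1 i j hij
  · intro x i j hij
    exact h.push x.1 i j hij

/-- the first active position at `x` or after it -/
noncomputable def nxt (E : Equiv.Perm D) (hex : ∀ x, ∃ y, A y ∧ E.SameCycle x y) (x : D) :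
    {x // A x} :=
  ⟨(E ^ (srch E A x)) x, srch_spec (by
    obtain ⟨y, h1, h2⟩ := hex x
    obtain ⟨n, hn⟩ := h2.exists_nat_pow_eq
    exact ⟨n, by rw [hn]; exact h1⟩)⟩

lemma nxt_act {E : Equiv.Perm D} (hex : ∀ x, ∃ y, A y ∧ E.SameCycle x y) {x : D} (h : A x) :
    nxt E hex x = ⟨x, h⟩ := by
  apply Subtype.ext
  show (E ^ (srch E A x)) x = x
  rw [srch_zero h]; rfl

lemma nxt_not {E : Equiv.Perm D} (hex : ∀ x, ∃ y, A y ∧ E.SameCycle x y) {x : D} (h : ¬ A x) :
    nxt E hex (E x) = nxt E hex x := by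
  apply Subtype.ext
  show (E ^ (srch E A (E x))) (E x) = (E ^ (srch E A x)) x
  rw [srch_step h (by
    obtain ⟨y, h1, h2⟩ := hex x
    obtain ⟨n, hn⟩ := h2.exists_nat_pow_eq
    exact ⟨n, by rw [hn]; exact h1⟩), pow_succ]
  rfl

lemma nxt_E {E : Equiv.Perm D} (hex : ∀ x, ∃ y, A y ∧ E.SameCycle x y) {x : D} (h : A x) :
    nxt E hex (E x) = ret E A ⟨x, h⟩ := by
  apply Subtype.ext
  rfl

lemma psum_act {E : Equiv.Perm D} (hex : ∀ x, ∃ y, A y ∧ E.SameCycle x y)
    {v : D → ℤ} (h0 : ∀ x, ¬ A x → v x = 0) (n : ℕ) : ∀ d : D, ∃ m : ℕ,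
    ∑ i ∈ Finset.range n, v ((E ^ i) d) =
      ∑ i ∈ Finset.range m, v ((ret E A ^ i) (nxt E hex d)).1 := by
  induction n with
  | zero => intro d; exact ⟨0, by simp⟩
  | succ n ih =>
    intro d
    obtain ⟨m, hm⟩ := ih (E d)
    rw [Finset.sum_range_succ']
    have e1 : ∀ i, (E ^ (i + 1)) d = (E ^ i) (E d) := fun i => by rw [pow_succ]; rfl
    simp only [e1, hm, pow_zero, Equiv.Perm.one_apply]
    by_cases h : A d
    · refine ⟨m + 1, ?_⟩
      rw [Finset.sum_range_succ', nxt_act hex h, nxt_E hex h]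
      have e2 : ∀ i, (ret E A ^ (i + 1)) ⟨d, h⟩ = (ret E A ^ i) (ret E A ⟨d, h⟩) :=
        fun i => by rw [pow_succ]; rfl
      simp only [e2, pow_zero, Equiv.Perm.one_apply]
    · refine ⟨m, ?_⟩
      rw [nxt_not hex h, h0 d h, add_zero]

/-- connectedness of the infinite stacks on the active positions -/
theorem TConn.of_act [Fintype D] (hA : ∀ x, A x → A (S.ta x)) (h0 : ∀ x, ¬ A x → v x = 0)
    (hex : ∀ x, ∃ y, A y ∧ S.E.SameCycle x y)
    (h : ∀ (T : {x // A x} → ℕ → Prop) (ρ : {x // A x} → Prop),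
      TS (ret S.E A) (fun x => ⟨S.ta x.1, hA x.1 x.2⟩) (fun x => v x.1) T →
      (∀ x, ρ (ret S.E A x) ↔ ρ x) →
      (∀ x y : {x // A x}, S.E.SameCycle (S.r x.1) y.1 → (ρ x ↔ ρ y)) →
      (∀ x j, K ≤ j → (T x j ↔ ρ x)) → ∃ c : Prop, ∀ x j, T x j ↔ c) : S.TConn v K := by
  intro T ρ hT hρE hρr hK
  have hcyc : ∀ {x y : D}, S.E.SameCycle x y → (ρ x ↔ ρ y) := fun hxy => cyc_const hρE hxy
  obtain ⟨c, hc⟩ := h (fun x j => T x.1 j) (fun x => ρ x.1) (TS.restrict hT hA h0)
    (fun x => by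
      have h1 : (ret S.E A x).1 = (S.E ^ (retN S.E A x.1 + 1)) x.1 := by rw [ret_val, retFun_eq]
      show ρ (ret S.E A x).1 ↔ ρ x.1
      rw [h1]
      exact (hcyc ⟨((retN S.E A x.1 + 1 : ℕ) : ℤ), by rw [zpow_natCast]⟩).symm)
    (fun x y hxy => by
      show ρ x.1 ↔ ρ y.1
      rw [← hρr x.1]
      exact hcyc hxy)
    (fun x j hj => hK x.1 j hj)
  refine ⟨c, ?_⟩
  have key : ∀ (m : ℕ) (y : D), A y → ∀ j, T ((S.E ^ m) y) j ↔ c := by
    intro m
    induction m with
    | zero => intro y hy j; exact hc ⟨y, hy⟩ j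
    | succ m ih =>
      intro y hy j
      by_cases hz : A ((S.E ^ (m + 1)) y)
      · exact hc ⟨_, hz⟩ j
      · rw [← ih y hy j]
        rw [pow_succ', Equiv.Perm.mul_apply] at hz ⊢
        exact hT.st ((S.E ^ m) y) j j (by rw [h0 _ hz]; ring)
  intro x j
  obtain ⟨y, h1, h2⟩ := hex x
  obtain ⟨n, hn⟩ := h2.symm.exists_nat_pow_eq
  rw [← hn]
  exact key n y h1 j

/-- **A connected flow from infinite stacks on the active positions.** -/
theorem fconn_of_act [Fintype D] [DecidableEq D] [Fintype {x // A x}]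
    (hr : ∀ x, S.r x ≠ x) (ho : ∀ x, S.r (S.E x) ≠ x)
    (hA : ∀ x, A x → A (S.ta x)) (hne : ∀ x, A x → S.ta x ≠ x) (h0 : ∀ x, ¬ A x → v x = 0)
    (hex : ∀ x, ∃ y, A y ∧ S.E.SameCycle x y) (hta : ∀ x, A x → v (S.ta x) = v x)
    (hsum : ∀ d : {x // A x}, ∑ x ∈ Finset.univ.filter (fun x => (ret S.E A).SameCycle d x),
      v x.1 = 2)
    (hps : ∀ (d : {x // A x}) (n : ℕ), -(K : ℤ) ≤
      ∑ i ∈ Finset.range n, v ((ret S.E A ^ i) d).1)
    (h : ∀ (T : {x // A x} → ℕ → Prop) (ρ : {x // A x} → Prop),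
      TS (ret S.E A) (fun x => ⟨S.ta x.1, hA x.1 x.2⟩) (fun x => v x.1) T →
      (∀ x, ρ (ret S.E A x) ↔ ρ x) →
      (∀ x y : {x // A x}, S.E.SameCycle (S.r x.1) y.1 → (ρ x ↔ ρ y)) →
      (∀ x j, K ≤ j → (T x j ↔ ρ x)) → ∃ c : Prop, ∀ x j, T x j ↔ c) :
    ∃ e : D → ℕ, S.Fl e v ∧ S.FConn e v ∧ (∀ x, 2 * K + 4 ≤ e x) ∧ (∀ x, e x ≤ 10 * K + 11) := by
  classical
  apply TConn.exists_fconn hr ho
  · intro x hx
    apply hne
    by_contra hc
    exact hx (h0 x hc)
  · intro x
    by_cases hx : A x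
    · exact hta x hx
    · have hx' : ¬ A (S.ta x) := fun h' => hx (by
        have := hA _ h'
        rwa [S.ta_ta] at this)
      rw [h0 _ hx', h0 _ hx]
  · intro d
    obtain ⟨y, hy, hdy⟩ := hex d
    rw [← hsum ⟨y, hy⟩]
    have e1 : ∑ x ∈ Finset.univ.filter (fun x => S.E.SameCycle d x), v x =
        ∑ x ∈ Finset.univ.filter (fun x => S.E.SameCycle d x ∧ A x), v x := by
      symm
      apply Finset.sum_subset
      · intro x hx
        simp only [Finset.mem_filter, Finset.mem_univ, true_and] at hx ⊢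
        exact hx.1
      · intro x hx hx'
        simp only [Finset.mem_filter, Finset.mem_univ, true_and] at hx hx'
        exact h0 x (fun h' => hx' ⟨hx, h'⟩)
    rw [e1]
    symm
    apply Finset.sum_bij (fun (x : {x // A x}) _ => x.1)
    · intro x hx
      simp only [Finset.mem_filter, Finset.mem_univ, true_and] at hx ⊢
      refine ⟨hdy.trans ?_, x.2⟩
      obtain ⟨n, hn⟩ := hx.exists_nat_pow_eq
      have hall : ∀ n : ℕ, S.E.SameCycle y ((ret S.E A ^ n) ⟨y, hy⟩).1 := by
        intro n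
        induction n with
        | zero => exact Equiv.Perm.SameCycle.refl _ _
        | succ n ih =>
          rw [pow_succ', Equiv.Perm.mul_apply, ret_val, retFun_eq]
          exact ih.trans ⟨((retN S.E A ((ret S.E A ^ n) ⟨y, hy⟩).1 + 1 : ℕ) : ℤ),
            by rw [zpow_natCast]⟩
      rw [← hn]
      exact hall n
    · intro x _ x' _ hxx
      exact Subtype.ext hxx
    · intro x hx
      simp only [Finset.mem_filter, Finset.mem_univ, true_and] at hx
      refine ⟨⟨x, hx.2⟩, ?_, rfl⟩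
      simp only [Finset.mem_filter, Finset.mem_univ, true_and]
      exact ret_sameCycle (hdy.symm.trans hx.1)
    · intro x _; rfl
  · intro d n
    obtain ⟨m, hm⟩ := psum_act (A := A) hex h0 n d
    rw [hm]
    exact hps _ _
  · exact TConn.of_act hA h0 hex h

end Act

end Sys

end Pool.Agent.MP42.NE
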