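import Pool.Agent.MP42.NE.Sys

/-!
# Flows with two letters on an abstract square complex

`e d` = number of strands that cross the east side of the dart `d`; `v d` = signed number of
strands that cross its north side: positive = letter NE, negative = letter SE.  Every strand is
monotone to the east.  In the frame of `d` the strands have an index `t < cnt d`.

* in-order: `(-v d)⁺` strands from the north side (right to left), `e (r d)` strands from the west
  side (top to bottom), `(v (r d))⁺` strands from the south side (left to right);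
* out-order: `(v d)⁺` strands to the north side (left to right), `e d` strands to the east side
  (top to bottom), `(-v (r d))⁺` strands to the south side (right to left).

The `t`-th strand of the in-order is the `t`-th strand of the out-order.
-/

set_option autoImplicit false

namespace Pool.Agent.MP42.NE

namespace Sys

variable {D : Type*} (S : Sys D)

/-- a flow with two letters -/
structure Fl (e : D → ℕ) (v : D → ℤ) : Prop where
  er : ∀ d, e (S.r (S.E d)) = e d
  vr : ∀ d, v (S.r (S.N d)) = v d
  bal : ∀ d, (e (S.r d) : ℤ) + v (S.r d) = e d + v d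

/-- number of strands in the frame of `d` -/
def cnt (e : D → ℕ) (v : D → ℤ) (d : D) : ℕ := e d + (v d).toNat + (-v (S.r d)).toNat

/-- consistent families: predicates on the strands that are constant on the curves -/
structure FCon (e : D → ℕ) (v : D → ℤ) (g : D → ℕ → Prop) : Prop where
  cE : ∀ (d : D) (j : ℕ), j < e d → (g d ((v d).toNat + j) ↔ g (S.E d) ((-v (S.E d)).toNat + j))
  cNp : ∀ (d : D) (j : ℕ), (j : ℤ) < v d →
    (g d j ↔ g (S.N d) ((-v (S.N d)).toNat + e (S.r (S.N d)) + j))
  cNm : ∀ (d : D) (j : ℕ), (j : ℤ) < -v d →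
    (g d j ↔ g (S.N d) ((v (S.N d)).toNat + e (S.N d) + j))
  cr : ∀ (d : D) (t : ℕ), t < S.cnt e v d → (g (S.r d) t ↔ g d (S.cnt e v d - 1 - t))

/-- the flow is one closed curve -/
def FConn (e : D → ℕ) (v : D → ℤ) : Prop :=
  ∀ g, S.FCon e v g → ∃ c : Prop, ∀ d t, t < S.cnt e v d → (g d t ↔ c)

variable {S}

lemma Fl.cnt_r {e : D → ℕ} {v : D → ℤ} (h : S.Fl e v) (d : D) :
    S.cnt e v (S.r d) = S.cnt e v d := by
  have h1 := h.bal d
  unfold cnt
  rw [S.rr]
  omega

/-- the number of strands by the in-order -/
lemma Fl.cnt_in {e : D → ℕ} {v : D → ℤ} (h : S.Fl e v) (d : D) :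
    S.cnt e v d = (-v d).toNat + e (S.r d) + (v (S.r d)).toNat := by
  have h1 := h.bal d
  unfold cnt
  omega

/-- the flow of a pair of weights -/
lemma Wt.fl {s m : D → ℕ} (h : S.Wt s m) : S.Fl s (fun d => (m d : ℤ)) where
  er := fun d => by rw [h.sr, h.sE]
  vr := fun d => by rw [h.mr, h.mN]
  bal := fun d => by rw [h.sr, h.mr]

lemma cnt_wt {s m : D → ℕ} (d : D) : S.cnt s (fun d => (m d : ℤ)) d = s d + m d := by
  show s d + ((m d : ℤ)).toNat + (-(m (S.r d) : ℤ)).toNat = s d + m d
  omega

/-- a family of the weights is a family of the flow -/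
lemma FCon.con {s m : D → ℕ} (h : S.Wt s m) {g : D → ℕ → Prop}
    (hg : S.FCon s (fun d => (m d : ℤ)) g) : S.Con s m g where
  cE := fun d t ht => by
    have h1 := hg.cE d t ht
    have h2 : ((m d : ℤ)).toNat = m d := by omega
    have h3 : (-(m (S.E d) : ℤ)).toNat = 0 := by omega
    rw [h2, h3, Nat.zero_add] at h1
    exact h1
  cN := fun d t ht => by
    have h1 := hg.cNp d t (by exact_mod_cast ht)
    have h3 : (-(m (S.N d) : ℤ)).toNat = 0 := by omega
    rw [h3, Nat.zero_add, h.sr] at h1
    exact h1
  cr := fun d t ht => by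
    have h1 := hg.cr d t (by rw [cnt_wt]; exact ht)
    rw [cnt_wt] at h1
    exact h1

lemma Conn.fconn {s m : D → ℕ} (h : S.Wt s m) (hc : S.Conn s m) :
    S.FConn s (fun d => (m d : ℤ)) := by
  intro g hg
  obtain ⟨c, hc⟩ := hc g (hg.con h)
  exact ⟨c, fun d t ht => hc d t (by rwa [cnt_wt] at ht)⟩

end Sys

end Pool.Agent.MP42.NE
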