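import Pool.Agent.MP42.NE.GFlow3

/-!
# Signed flows on facets: types and the unfolding

A strand of type `false` sees the nominal frame `t` as its frame, a strand of type `true` the frame
`t.rL`.  So a strand over a reversed east or west side must have the type `true`, over a reversed
north or south side the type `false`; over a gate and over a passage the type changes.
-/

set_option autoImplicit false

namespace Pool.Agent.MP42.NE

open Pool.Agent.Helper55.UNF Pool.Agent.Helper55.UNF.GridSolid Relation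

variable {P : GridSolid}

namespace GFlow

/-- ordinary steps -/
def Ok (A : GFlow P) (s0 s : P.FSt × ℕ) : Prop := A.sc s ≠ s0 ∧ s ≠ A.rv s0

/-- Types of the strands; the step to `s0` is exceptional. -/
structure Ty (A : GFlow P) (s0 : P.FSt × ℕ) where
  τ : P.FSt × ℕ → Bool
  τr : ∀ s, A.Va s → τ (A.rv s) = τ s
  fE : ∀ s, A.Va s → A.Ok s0 s → A.XE s → A.nom s.1.stE → τ (A.sc s) = τ s
  gE : ∀ s, A.Va s → A.Ok s0 s → A.XE s → ¬ A.nom s.1.stE → τ s = true ∧ τ (A.sc s) = false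
  fN : ∀ s, A.Va s → A.Ok s0 s → A.XN s → A.nom s.1.stN → τ (A.sc s) = τ s
  gN : ∀ s, A.Va s → A.Ok s0 s → A.XN s → ¬ A.nom s.1.stN → τ s = false ∧ τ (A.sc s) = true
  fW : ∀ s, A.Va s → A.Ok s0 s → A.XW s → A.nom s.1.r2.stE → τ s = true
  fS : ∀ s, A.Va s → A.Ok s0 s → A.XS s → A.nom s.1.r2.stN → τ s = false
  fP : ∀ s, A.Va s → A.Ok s0 s → A.XP s → τ (A.sc s) = !τ s

variable {A : GFlow P} {s0 : P.FSt × ℕ}

lemma ok_rev (hs0 : A.Va s0) {s : P.FSt × ℕ} (h : A.Va s) (ho : A.Ok s0 s) :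
    A.Ok s0 (A.rv (A.sc s)) := by
  constructor
  · rw [sc_rv_sc h]
    intro h1
    apply ho.2
    rw [← h1, rv_rv h]
  · intro h1
    apply ho.1
    rw [← rv_rv (sc_va h), h1, rv_rv hs0]

/-! ## Exits and frames -/

lemma rR_ne (t : P.FSt) : t.rR ≠ t := by
  intro h
  have h1 := congrArg FSt.rL h
  rw [FSt.rR_rL] at h1
  exact fr_rL_ne t h1.symm

lemma rR_ne_r2 (t : P.FSt) : t.rR ≠ t.r2 := by
  intro h
  have h1 := congrArg FSt.r2 h
  rw [FSt.r2_r2, FSt.rR_r2] at h1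
  exact fr_rL_ne t h1

lemma rR_ne_rL (t : P.FSt) : t.rR ≠ t.rL := by
  intro h
  have h1 := congrArg FSt.rL h
  rw [FSt.rR_rL, FSt.rL_rL] at h1
  exact fr_r2_ne t h1.symm

lemma XE_of {s : P.FSt × ℕ} (h : A.Va s) (h1 : (A.ex s).1 = s.1) (h2 : ¬ A.cur.Co (A.ex s)) :
    A.XE s := by
  rcases X_cases h with hx | hx | hx | hx | hx
  · rw [ex_XW hx] at h1; exact absurd h1 (fr_r2_ne _)
  · rw [ex_XN hx] at h1; exact absurd h1 (fr_rL_ne _)
  · rw [ex_XP hx] at h2; exact absurd (le_refl (A.n s.1)) h2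
  · exact hx
  · rw [ex_XS hx] at h1; exact absurd h1 (rR_ne _)

lemma XN_of {s : P.FSt × ℕ} (h : A.Va s) (h1 : (A.ex s).1 = s.1.rL) : A.XN s := by
  rcases X_cases h with hx | hx | hx | hx | hx
  · rw [ex_XW hx] at h1; exact absurd h1.symm (fr_rL_ne_r2 _)
  · exact hx
  · rw [ex_XP hx] at h1; exact absurd h1.symm (fr_rL_ne _)
  · rw [ex_XE hx] at h1; exact absurd h1.symm (fr_rL_ne _)
  · rw [ex_XS hx] at h1; exact absurd h1 (rR_ne_rL _)

lemma XW_of {s : P.FSt × ℕ} (h : A.Va s) (h1 : (A.ex s).1 = s.1.r2) : A.XW s := by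
  rcases X_cases h with hx | hx | hx | hx | hx
  · exact hx
  · rw [ex_XN hx] at h1; exact absurd h1 (fr_rL_ne_r2 _)
  · rw [ex_XP hx] at h1; exact absurd h1.symm (fr_r2_ne _)
  · rw [ex_XE hx] at h1; exact absurd h1.symm (fr_r2_ne _)
  · rw [ex_XS hx] at h1; exact absurd h1 (rR_ne_r2 _)

lemma XS_of {s : P.FSt × ℕ} (h : A.Va s) (h1 : (A.ex s).1 = s.1.rR) : A.XS s := by
  rcases X_cases h with hx | hx | hx | hx | hx
  · rw [ex_XW hx] at h1; exact absurd h1.symm (rR_ne_r2 _)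
  · rw [ex_XN hx] at h1; exact absurd h1.symm (rR_ne_rL _)
  · rw [ex_XP hx] at h1; exact absurd h1.symm (rR_ne _)
  · rw [ex_XE hx] at h1; exact absurd h1.symm (rR_ne _)
  · exact hx

lemma Co_iff {s : P.FSt × ℕ} (h : A.Va s) : A.cur.Co (A.ex s) ↔ A.XP s := by
  constructor
  · intro hc
    rcases X_cases h with hx | hx | hx | hx | hx
    · exfalso
      rw [ex_XW hx] at hc
      have h1 : A.n s.1.r2 ≤ A.wo s.1 - 1 - s.2 := hc
      rw [n_nom (A.nom_r2 _ h.1), FSt.r2_r2] at h1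
      have h2 : s.2 < A.wo s.1 := hx
      unfold wo at *; omega
    · exfalso
      rw [ex_XN hx] at hc
      have h1 : A.n s.1.rL ≤ A.wo s.1 + A.no s.1 - 1 - s.2 := hc
      rw [n_rL h.1] at h1
      obtain ⟨h2, h3⟩ := hx
      unfold no at *; omega
    · exact hx
    · exfalso
      rw [ex_XE hx] at hc
      have h1 : A.n s.1 ≤ A.wo s.1 + A.no s.1 + A.c s.1.r2 + A.eo s.1 - 1 - s.2 := hc
      rw [n_nom h.1] at h1
      obtain ⟨h2, h3⟩ := hx
      unfold eo at *; omega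
    · exfalso
      rw [ex_XS hx] at hc
      have h1 : A.n s.1.rR ≤ A.M s.1 - 1 - s.2 := hc
      rw [n_rR h.1] at h1
      obtain ⟨h2, h3⟩ := hx
      have h4 := M_out h.1
      unfold so at *; omega
  · intro hx
    rw [ex_XP hx]
    exact le_refl (A.n s.1)

lemma back_co {s : P.FSt × ℕ} (h : A.Va s) (hx : ¬ A.XP s) :
    ¬ A.cur.Co (A.ex (A.rv (A.sc s))) ∧ (A.ex (A.rv (A.sc s))).1 = (A.ex s).1.stE.r2 := by
  rw [ex_rv_sc h]
  have h1 : ¬ A.cur.Co (A.ex s) := fun h' => hx ((Co_iff h).1 h')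
  refine ⟨fun h' => h1 (KCur.io_Co.1 h'), ?_⟩
  rw [KCur.io_not (A := A.cur) h1]

lemma rv_fst (s : P.FSt × ℕ) : (A.rv s).1 = s.1.r2 := rfl

lemma not_XP_XE {s : P.FSt × ℕ} (h : A.XE s) : ¬ A.XP s := fun h' => by
  have := h.1
  have := h'.2
  omega

lemma not_XP_XN {s : P.FSt × ℕ} (h : A.XN s) : ¬ A.XP s := fun h' => by
  have := h.2
  have := h'.1
  omega

lemma not_XP_XW {s : P.FSt × ℕ} (h : A.XW s) : ¬ A.XP s := fun h' => by
  have h1 : s.2 < A.wo s.1 := h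
  have := h'.1
  omega

lemma not_XP_XS {s : P.FSt × ℕ} (h : A.XS s) : ¬ A.XP s := fun h' => by
  have := h.1
  have := h'.2
  omega

/-! ## The steps -/

lemma stepE {s : P.FSt × ℕ} (h : A.Va s) (hx : A.XE s) (hf : A.nom s.1.stE) :
    (A.sc s).1 = s.1.stE ∧ A.XE (A.rv (A.sc s)) := by
  have hv : A.A s.1.stE = A.A s.1.r2 := by
    have h0 := XE_pos hx
    rcases A.east s.1 h.1 (by omega) with h1 | h1
    · exact h1.2
    · exact absurd h1.1 (not_rL hf)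
  have e1 : (A.sc s).1 = s.1.stE := by rw [sc_E h hx hf hv]
  obtain ⟨h1, h2⟩ := back_co h (not_XP_XE hx)
  refine ⟨e1, XE_of (rv_va (sc_va h)) ?_ h1⟩
  rw [h2, rv_fst, e1, ex_XE hx]

lemma stepE' {s : P.FSt × ℕ} (h : A.Va s) (hx : A.XE s) (hf : ¬ A.nom s.1.stE) :
    (A.sc s).1 = s.1.stE.rL ∧ A.XS (A.rv (A.sc s)) := by
  have h0 := XE_pos hx
  have hv := (A.east s.1 h.1 (by omega)).resolve_left (fun h1 => hf h1.1)
  have e1 : (A.sc s).1 = s.1.stE.rL := by rw [sc_E' h hx hv.1 hv.2]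
  obtain ⟨h1, h2⟩ := back_co h (not_XP_XE hx)
  refine ⟨e1, XS_of (rv_va (sc_va h)) ?_⟩
  rw [h2, rv_fst, e1, ex_XE hx]
  show s.1.stE.r2 = s.1.stE.rL.r2.rR
  rw [FSt.rL_r2, FSt.rR_rR]

lemma stN_rL (t : P.FSt) : t.stN.rL = t.rL.stE := (stE_rL t).symm

lemma stepN {s : P.FSt × ℕ} (h : A.Va s) (hx : A.XN s) (hf : A.nom s.1.stN) :
    (A.sc s).1 = s.1.stN ∧ A.XN (A.rv (A.sc s)) := by
  have hv : A.B s.1.stN = A.B s.1.r2 := by
    have h0 := XN_pos hx
    rcases A.north s.1 h.1 (by omega) with h1 | h1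
    · exact h1.2
    · exact absurd h1.1 (not_rR hf)
  have e1 : (A.sc s).1 = s.1.stN := by rw [sc_N h hx hf hv]
  obtain ⟨h1, h2⟩ := back_co h (not_XP_XN hx)
  refine ⟨e1, XN_of (rv_va (sc_va h)) ?_⟩
  rw [h2, rv_fst, e1, ex_XN hx]
  show s.1.rL.stE.r2 = s.1.stN.r2.rL
  rw [← stN_rL, FSt.rL_r2, FSt.r2_rL]

lemma stepN' {s : P.FSt × ℕ} (h : A.Va s) (hx : A.XN s) (hf : ¬ A.nom s.1.stN) :
    (A.sc s).1 = s.1.stN.rR ∧ A.XW (A.rv (A.sc s)) := by
  have h0 := XN_pos hx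
  have hv := (A.north s.1 h.1 (by omega)).resolve_left (fun h1 => hf h1.1)
  have e1 : (A.sc s).1 = s.1.stN.rR := by rw [sc_N' h hx hv.1 hv.2]
  obtain ⟨h1, h2⟩ := back_co h (not_XP_XN hx)
  refine ⟨e1, XW_of (rv_va (sc_va h)) ?_⟩
  rw [h2, rv_fst, e1, ex_XN hx]
  show s.1.rL.stE.r2 = s.1.stN.rR.r2.r2
  rw [← stN_rL, FSt.rL_r2, FSt.r2_r2]

lemma stepW {s : P.FSt × ℕ} (h : A.Va s) (hx : A.XW s) (hf : A.nom s.1.r2.stE) :
    (A.sc s).1 = s.1.r2.stE.r2 ∧ A.XW (A.rv (A.sc s)) := by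
  have h0 := XW_neg hx
  have hv : A.A s.1.r2.stE = A.A s.1 := by
    rcases A.east s.1.r2 (A.nom_r2 _ h.1) (by rw [FSt.r2_r2]; omega) with h1 | h1
    · rw [h1.2, FSt.r2_r2]
    · exact absurd h1.1 (not_rL hf)
  have e1 : (A.sc s).1 = s.1.r2.stE.r2 := by rw [sc_W h hx hf hv]
  obtain ⟨h1, h2⟩ := back_co h (not_XP_XW hx)
  refine ⟨e1, XW_of (rv_va (sc_va h)) ?_⟩
  rw [h2, rv_fst, e1, ex_XW hx, FSt.r2_r2]

lemma stepW' {s : P.FSt × ℕ} (h : A.Va s) (hx : A.XW s) (hf : ¬ A.nom s.1.r2.stE) :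
    (A.sc s).1 = s.1.r2.stE.rR ∧ A.XN (A.rv (A.sc s)) ∧ ¬ A.nom (A.rv (A.sc s)).1.stN := by
  have h0 := XW_neg hx
  have hv := (A.east s.1.r2 (A.nom_r2 _ h.1) (by rw [FSt.r2_r2]; omega)).resolve_left
    (fun h1 => hf h1.1)
  rw [FSt.r2_r2] at hv
  have e1 : (A.sc s).1 = s.1.r2.stE.rR := by rw [sc_W' h hx hv.1 hv.2]
  obtain ⟨h1, h2⟩ := back_co h (not_XP_XW hx)
  have e2 : s.1.r2.stE.rR.r2.rL = s.1.r2.stE.r2 := by rw [FSt.rR_r2, FSt.rL_rL]
  refine ⟨e1, XN_of (rv_va (sc_va h)) ?_, ?_⟩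
  · rw [h2, rv_fst, e1, ex_XW hx, e2]
  · rw [rv_fst, e1]
    show ¬ A.nom (s.1.r2.stE.rR.r2.rL.stE.rR)
    rw [e2, FSt.stE_inv, FSt.r2_r2]
    exact not_rR h.1

lemma stepS {s : P.FSt × ℕ} (h : A.Va s) (hx : A.XS s) (hf : A.nom s.1.r2.stN) :
    (A.sc s).1 = s.1.r2.stN.r2 ∧ A.XS (A.rv (A.sc s)) := by
  have h0 := XS_neg h.1 hx
  have hv : A.B s.1.r2.stN = A.B s.1 := by
    rcases A.north s.1.r2 (A.nom_r2 _ h.1) (by rw [FSt.r2_r2]; omega) with h1 | h1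
    · rw [h1.2, FSt.r2_r2]
    · exact absurd h1.1 (not_rR hf)
  have e1 : (A.sc s).1 = s.1.r2.stN.r2 := by rw [sc_S h hx hf hv]
  obtain ⟨h1, h2⟩ := back_co h (not_XP_XS hx)
  refine ⟨e1, XS_of (rv_va (sc_va h)) ?_⟩
  rw [h2, rv_fst, e1, ex_XS hx, FSt.r2_r2]
  show s.1.rR.stE.r2 = s.1.r2.stN.rR
  rw [south_fr, FSt.rL_r2]

lemma stepS' {s : P.FSt × ℕ} (h : A.Va s) (hx : A.XS s) (hf : ¬ A.nom s.1.r2.stN) :
    (A.sc s).1 = s.1.r2.stN.rL ∧ A.XE (A.rv (A.sc s)) ∧ ¬ A.nom (A.rv (A.sc s)).1.stE := by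
  have h0 := XS_neg h.1 hx
  have hv := (A.north s.1.r2 (A.nom_r2 _ h.1) (by rw [FSt.r2_r2]; omega)).resolve_left
    (fun h1 => hf h1.1)
  rw [FSt.r2_r2] at hv
  have e1 : (A.sc s).1 = s.1.r2.stN.rL := by rw [sc_S' h hx hv.1 hv.2]
  obtain ⟨h1, h2⟩ := back_co h (not_XP_XS hx)
  refine ⟨e1, XE_of (rv_va (sc_va h)) ?_ h1, ?_⟩
  · rw [h2, rv_fst, e1, ex_XS hx]
    show s.1.rR.stE.r2 = s.1.r2.stN.rL.r2
    rw [south_fr]
  · rw [rv_fst, e1, ← south_fr, FSt.stE_inv, FSt.rR_r2]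
    exact not_rL h.1

namespace Ty

variable (T : A.Ty s0) (hs0 : A.Va s0)

include hs0

/-- types over a west side -/
lemma tyW {s : P.FSt × ℕ} (h : A.Va s) (ho : A.Ok s0 s) (hx : A.XW s) : T.τ s = true := by
  by_cases hf : A.nom s.1.r2.stE
  · exact T.fW s h ho hx hf
  · obtain ⟨h1, h2, h3⟩ := stepW' h hx hf
    have h4 := (T.gN _ (rv_va (sc_va h)) (ok_rev hs0 h ho) h2 h3).2
    rw [sc_rv_sc h, T.τr _ h] at h4
    exact h4

/-- types over a south side -/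
lemma tyS {s : P.FSt × ℕ} (h : A.Va s) (ho : A.Ok s0 s) (hx : A.XS s) : T.τ s = false := by
  by_cases hf : A.nom s.1.r2.stN
  · exact T.fS s h ho hx hf
  · obtain ⟨h1, h2, h3⟩ := stepS' h hx hf
    have h4 := (T.gE _ (rv_va (sc_va h)) (ok_rev hs0 h ho) h2 h3).2
    rw [sc_rv_sc h, T.τr _ h] at h4
    exact h4

end Ty

/-- the frame of a strand -/
def Ty.fr (T : A.Ty s0) (s : P.FSt × ℕ) : P.FSt := if T.τ s then s.1.rL else s.1

open Classical in
/-- the move over a side by the type -/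
noncomputable def mvf (A : GFlow P) (f : P.FSt) (b : Bool) : Mv :=
  if A.nom f then (if 0 < A.A f.r2 then (if b then Mv.S else Mv.E) else Mv.N)
  else (if 0 < A.B f.rL then (if b then Mv.E else Mv.N) else Mv.S)

lemma mvf_E {s : P.FSt × ℕ} (h : A.Va s) (hx : A.XE s) (b : Bool) :
    A.mvf (A.ex s).1 b = if b then Mv.S else Mv.E := by
  unfold mvf
  rw [ex_XE hx]
  dsimp only
  rw [if_pos h.1, if_pos (XE_pos hx)]

lemma mvf_N {s : P.FSt × ℕ} (h : A.Va s) (hx : A.XN s) (b : Bool) :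
    A.mvf (A.ex s).1 b = if b then Mv.E else Mv.N := by
  unfold mvf
  rw [ex_XN hx]
  dsimp only
  rw [if_neg (not_rL h.1), FSt.rL_rL, if_pos (XN_pos hx)]

lemma mvf_W {s : P.FSt × ℕ} (h : A.Va s) (hx : A.XW s) (b : Bool) :
    A.mvf (A.ex s).1 b = Mv.N := by
  have h1 := XW_neg hx
  unfold mvf
  rw [ex_XW hx]
  dsimp only
  rw [if_pos (A.nom_r2 _ h.1), FSt.r2_r2, if_neg (by omega)]

lemma mvf_S {s : P.FSt × ℕ} (h : A.Va s) (hx : A.XS s) (b : Bool) :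
    A.mvf (A.ex s).1 b = Mv.S := by
  have h1 := XS_neg h.1 hx
  unfold mvf
  rw [ex_XS hx]
  dsimp only
  rw [if_neg (not_rR h.1), FSt.rR_rL, if_neg (by omega)]

section

variable (T : A.Ty s0) (hs0 : A.Va s0)

/-- the move of a strand over its exit -/
noncomputable def Ty.mo (T : A.Ty s0) (s : P.FSt × ℕ) : Mv := A.mvf (A.ex s).1 (T.τ s)

include hs0

lemma Ty.step {s : P.FSt × ℕ} (h : A.Va s) (ho : A.Ok s0 s) (hx : ¬ A.XP s) :
    (A.ex s).1 = sdm (T.mo s) (T.fr s) ∧ (T.mo s).ap (T.fr s) = T.fr (A.sc s) := by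
  unfold Ty.mo Ty.fr
  rcases X_cases h with hx' | hx' | hx' | hx' | hx'
  · have e0 := T.tyW hs0 h ho hx'
    rw [mvf_W h hx', ex_XW hx', e0]
    by_cases hf : A.nom s.1.r2.stE
    · obtain ⟨h1, h2⟩ := stepW h hx' hf
      have e1 : T.τ (A.sc s) = true := by
        have h3 := T.tyW hs0 (rv_va (sc_va h)) (ok_rev hs0 h ho) h2
        rwa [T.τr _ (sc_va h)] at h3
      rw [e1, h1]
      refine ⟨?_, ?_⟩
      · show s.1.r2 = s.1.rL.rL
        rw [FSt.rL_rL]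
      · show s.1.rL.rL.stE.rR = s.1.r2.stE.r2.rL
        rw [FSt.rL_rL, FSt.r2_rL]
    · obtain ⟨h1, h2, h3⟩ := stepW' h hx' hf
      have e1 : T.τ (A.sc s) = false := by
        have h3 := (T.gN _ (rv_va (sc_va h)) (ok_rev hs0 h ho) h2 h3).1
        rwa [T.τr _ (sc_va h)] at h3
      rw [e1, h1]
      refine ⟨?_, ?_⟩
      · show s.1.r2 = s.1.rL.rL
        rw [FSt.rL_rL]
      · show s.1.rL.rL.stE.rR = s.1.r2.stE.rR
        rw [FSt.rL_rL]
  · rw [mvf_N h hx', ex_XN hx']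
    by_cases hf : A.nom s.1.stN
    · obtain ⟨h1, h2⟩ := stepN h hx' hf
      have e1 := T.fN s h ho hx' hf
      rw [e1, h1]
      cases T.τ s
      · exact ⟨rfl, rfl⟩
      · refine ⟨rfl, ?_⟩
        show s.1.rL.stE = s.1.stN.rL
        exact stE_rL _
    · obtain ⟨h1, h2⟩ := stepN' h hx' hf
      obtain ⟨e0, e1⟩ := T.gN s h ho hx' hf
      rw [e1, h1, e0]
      refine ⟨rfl, ?_⟩
      show s.1.stN = s.1.stN.rR.rL
      rw [FSt.rR_rL]
  · exact absurd hx' hx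
  · rw [mvf_E h hx', ex_XE hx']
    by_cases hf : A.nom s.1.stE
    · obtain ⟨h1, h2⟩ := stepE h hx' hf
      have e1 := T.fE s h ho hx' hf
      rw [e1, h1]
      cases T.τ s
      · exact ⟨rfl, rfl⟩
      · refine ⟨?_, stS_rL _⟩
        show s.1 = s.1.rL.rR
        rw [FSt.rL_rR]
    · obtain ⟨h1, h2⟩ := stepE' h hx' hf
      obtain ⟨e0, e1⟩ := T.gE s h ho hx' hf
      rw [e1, h1, e0]
      refine ⟨?_, stS_rL _⟩
      show s.1 = s.1.rL.rR
      rw [FSt.rL_rR]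
  · have e0 := T.tyS hs0 h ho hx'
    rw [mvf_S h hx', ex_XS hx', e0]
    by_cases hf : A.nom s.1.r2.stN
    · obtain ⟨h1, h2⟩ := stepS h hx' hf
      have e1 : T.τ (A.sc s) = false := by
        have h3 := T.tyS hs0 (rv_va (sc_va h)) (ok_rev hs0 h ho) h2
        rwa [T.τr _ (sc_va h)] at h3
      rw [e1, h1]
      exact ⟨rfl, rfl⟩
    · obtain ⟨h1, h2, h3⟩ := stepS' h hx' hf
      have e1 : T.τ (A.sc s) = true := by
        have h3 := (T.gE _ (rv_va (sc_va h)) (ok_rev hs0 h ho) h2 h3).1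
        rwa [T.τr _ (sc_va h)] at h3
      rw [e1, h1]
      refine ⟨rfl, ?_⟩
      show s.1.r2.stN.r2 = s.1.r2.stN.rL.rL
      rw [FSt.rL_rL]

/-- the move over a side is the same in both directions -/
lemma Ty.mo_rev {s : P.FSt × ℕ} (h : A.Va s) (ho : A.Ok s0 s) (hx : ¬ A.XP s) :
    T.mo s = T.mo (A.rv (A.sc s)) := by
  have hv := rv_va (sc_va h)
  have hτ := T.τr _ (sc_va h)
  unfold Ty.mo
  rcases X_cases h with hx' | hx' | hx' | hx' | hx'
  · rw [mvf_W h hx']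
    by_cases hf : A.nom s.1.r2.stE
    · rw [mvf_W hv (stepW h hx' hf).2]
    · obtain ⟨h1, h2, h3⟩ := stepW' h hx' hf
      have h4 := (T.gN _ hv (ok_rev hs0 h ho) h2 h3).1
      rw [mvf_N hv h2, h4]
      rfl
  · rw [mvf_N h hx']
    by_cases hf : A.nom s.1.stN
    · rw [mvf_N hv (stepN h hx' hf).2, hτ, T.fN s h ho hx' hf]
    · obtain ⟨e0, e1⟩ := T.gN s h ho hx' hf
      rw [mvf_W hv (stepN' h hx' hf).2, e0]
      rfl
  · exact absurd hx' hx
  · rw [mvf_E h hx']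
    by_cases hf : A.nom s.1.stE
    · rw [mvf_E hv (stepE h hx' hf).2, hτ, T.fE s h ho hx' hf]
    · obtain ⟨e0, e1⟩ := T.gE s h ho hx' hf
      rw [mvf_S hv (stepE' h hx' hf).2, e0]
      rfl
  · rw [mvf_S h hx']
    by_cases hf : A.nom s.1.r2.stN
    · rw [mvf_S hv (stepS h hx' hf).2]
    · obtain ⟨h1, h2, h3⟩ := stepS' h hx' hf
      have h4 := (T.gE _ hv (ok_rev hs0 h ho) h2 h3).1
      rw [mvf_E hv h2, h4]
      rfl

omit hs0 in
lemma corner_in {s : P.FSt × ℕ} (h : A.Va s) (hx : A.XP s) :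
    0 ≤ A.A (A.sc s).1 ∧ 0 ≤ A.B (A.sc s).1 ∧ (A.sc s).1 = opq s.1 := by
  obtain ⟨h1, h2⟩ := XP_one hx
  obtain ⟨h3, h4, h5⟩ := A.pass s.1 h.1 h1
  have e1 : (A.sc s).1 = opq s.1 := by rw [sc_P h hx]
  have h6 := A.cpos (opq s.1).r2 (A.nom_r2 _ h4) (by rw [FSt.r2_r2, h5])
  rw [FSt.r2_r2] at h6
  rw [e1]
  exact ⟨h6.1, h6.2, rfl⟩

/-- no turning back -/
lemma Ty.turn {s : P.FSt × ℕ} (h : A.Va s) (ho : A.Ok s0 s)
    (hnx : A.XP (A.sc s) ∨ A.Ok s0 (A.sc s)) (m m' : Mv)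
    (hm : (A.XP s ∧ m = PFlow.pmv (T.τ s) 2) ∨ (¬ A.XP s ∧ m = T.mo s))
    (hm' : (A.XP (A.sc s) ∧ m' = PFlow.pmv (T.τ (A.sc s)) 0) ∨
      (¬ A.XP (A.sc s) ∧ m' = T.mo (A.sc s))) :
    ¬ (m = Mv.N ∧ m' = Mv.S) ∧ ¬ (m = Mv.S ∧ m' = Mv.N) := by
  have hv' := sc_va h
  have hvr := rv_va hv'
  have hr := ok_rev hs0 h ho
  have hτr := T.τr _ hv'
  -- the first move, seen from the second facet
  have key1 : (m = Mv.N → (T.τ (A.sc s) = false ∧ 0 ≤ A.B (A.sc s).1) ∨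
      (T.τ (A.sc s) = true ∧ A.A (A.sc s).1.r2 < 0)) ∧
      (m = Mv.S → (T.τ (A.sc s) = true ∧ 0 ≤ A.A (A.sc s).1) ∨
      (T.τ (A.sc s) = false ∧ A.B (A.sc s).1.r2 < 0)) := by
    rcases hm with ⟨h1, rfl⟩ | ⟨h1, rfl⟩
    · have h2 := T.fP s h ho h1
      obtain ⟨h3, h4, -⟩ := corner_in h h1
      rw [h2]
      cases T.τ s
      · exact ⟨fun hh => (by cases hh), fun _ => Or.inl ⟨rfl, h3⟩⟩
      · exact ⟨fun _ => Or.inl ⟨rfl, h4⟩, fun hh => (by cases hh)⟩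
    · rw [T.mo_rev hs0 h ho h1]
      have h2 : ¬ A.XP (A.rv (A.sc s)) := fun h' => (back_co h h1).1 ((Co_iff hvr).2 h')
      unfold Ty.mo
      rw [hτr]
      rcases X_cases hvr with hx | hx | hx | hx | hx
      · have h3 := T.tyW hs0 hvr hr hx
        rw [hτr] at h3
        have h4 := XW_neg hx
        rw [rv_fst] at h4
        rw [mvf_W hvr hx]
        exact ⟨fun _ => Or.inr ⟨h3, h4⟩, fun hh => (by cases hh)⟩
      · have h4 := XN_pos hx
        rw [rv_fst, FSt.r2_r2] at h4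
        rw [mvf_N hvr hx]
        cases T.τ (A.sc s)
        · exact ⟨fun _ => Or.inl ⟨rfl, h4.le⟩, fun hh => (by cases hh)⟩
        · exact ⟨fun hh => (by cases hh), fun hh => (by cases hh)⟩
      · exact absurd hx h2
      · have h4 := XE_pos hx
        rw [rv_fst, FSt.r2_r2] at h4
        rw [mvf_E hvr hx]
        cases T.τ (A.sc s)
        · exact ⟨fun hh => (by cases hh), fun hh => (by cases hh)⟩
        · exact ⟨fun hh => (by cases hh), fun _ => Or.inl ⟨rfl, h4.le⟩⟩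
      · have h3 := T.tyS hs0 hvr hr hx
        rw [hτr] at h3
        have h4 := XS_neg hvr.1 hx
        rw [rv_fst] at h4
        rw [mvf_S hvr hx]
        exact ⟨fun hh => (by cases hh), fun _ => Or.inr ⟨h3, h4⟩⟩
  have key2 : (m' = Mv.S → (T.τ (A.sc s) = true ∧ 0 ≤ A.A (A.sc s).1.r2) ∨
      (T.τ (A.sc s) = false ∧ A.B (A.sc s).1 < 0)) ∧
      (m' = Mv.N → (T.τ (A.sc s) = false ∧ 0 ≤ A.B (A.sc s).1.r2) ∨
      (T.τ (A.sc s) = true ∧ A.A (A.sc s).1 < 0)) := by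
    rcases hm' with ⟨h1, rfl⟩ | ⟨h1, rfl⟩
    · obtain ⟨h3, h4⟩ := A.cpos _ hv'.1 (XP_one h1).1
      cases T.τ (A.sc s)
      · exact ⟨fun hh => (by cases hh), fun _ => Or.inl ⟨rfl, h4⟩⟩
      · exact ⟨fun _ => Or.inl ⟨rfl, h3⟩, fun hh => (by cases hh)⟩
    · have hr' : A.Ok s0 (A.sc s) := hnx.resolve_left h1
      unfold Ty.mo
      rcases X_cases hv' with hx | hx | hx | hx | hx
      · have h3 := T.tyW hs0 hv' hr' hx
        have h4 := XW_neg hx
        rw [mvf_W hv' hx]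
        exact ⟨fun hh => (by cases hh), fun _ => Or.inr ⟨h3, h4⟩⟩
      · have h4 := XN_pos hx
        rw [mvf_N hv' hx]
        cases T.τ (A.sc s)
        · exact ⟨fun hh => (by cases hh), fun _ => Or.inl ⟨rfl, h4.le⟩⟩
        · exact ⟨fun hh => (by cases hh), fun hh => (by cases hh)⟩
      · exact absurd hx h1
      · have h4 := XE_pos hx
        rw [mvf_E hv' hx]
        cases T.τ (A.sc s)
        · exact ⟨fun hh => (by cases hh), fun hh => (by cases hh)⟩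
        · exact ⟨fun _ => Or.inl ⟨rfl, h4.le⟩, fun hh => (by cases hh)⟩
      · have h3 := T.tyS hs0 hv' hr' hx
        have h4 := XS_neg hv'.1 hx
        rw [mvf_S hv' hx]
        exact ⟨fun _ => Or.inr ⟨h3, h4⟩, fun hh => (by cases hh)⟩
  obtain ⟨k1, k2⟩ := key1
  obtain ⟨k3, k4⟩ := key2
  constructor
  · rintro ⟨h1, h2⟩
    rcases k1 h1 with ⟨a, b⟩ | ⟨a, b⟩ <;> rcases k3 h2 with ⟨c, d⟩ | ⟨c, d⟩
    · rw [a] at c; cases c
    · omega
    · omega
    · rw [a] at c; cases c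
  · rintro ⟨h1, h2⟩
    rcases k2 h1 with ⟨a, b⟩ | ⟨a, b⟩ <;> rcases k4 h2 with ⟨c, d⟩ | ⟨c, d⟩
    · rw [a] at c; cases c
    · omega
    · omega
    · rw [a] at c; cases c

omit hs0 in
/-- a place is the exit of its strand -/
lemma sc_st {p : P.FSt × ℕ} (hp : A.Vp p) : A.mu (A.cur.io p) = A.ex (A.sc (A.st p)) := by
  unfold sc
  rw [ex_st hp]
  rfl

/-- the frames along the curve -/
noncomputable def Ty.toFr : A.cur.Fr (A.ex s0) where
  w := fun p => T.fr (A.st p)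
  m := fun p => T.mo (A.st p)
  ty := fun p => T.τ (A.st p)
  wf := fun p _ => by
    have h1 : (T.fr (A.st p)).facet = (A.st p).1.facet := by
      unfold Ty.fr; split_ifs <;> rfl
    rw [h1, st_facet]
  wk := fun p hp hc => by
    have hv := st_va (A := A) (p := p) hp
    have h1 : A.XP (A.st p) := (Co_iff hv).1 (by rw [ex_st (A := A) hp]; exact hc)
    have h2 : (A.st p).1 = p.1 := by
      have h3 := congrArg Prod.fst (ex_st (A := A) (p := p) hp)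
      rwa [ex_XP h1] at h3
    unfold Ty.fr
    rw [h2]
    cases T.τ (A.st p)
    · rfl
    · rfl
  wm := fun p hp hc h1 h2 => by
    have hv := st_va (A := A) (p := p) hp
    have e1 : A.cur.mu (A.cur.io p) = A.ex (A.sc (A.st p)) := sc_st hp
    have ho : A.Ok s0 (A.st p) := by
      constructor
      · intro h3
        apply h1
        rw [e1, h3]
      · intro h3
        apply h2
        have h4 := congrArg A.ex h3
        rw [ex_st (A := A) hp] at h4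
        rw [h4]
        show A.ex (A.rv s0) = A.ex (A.rv (A.st (A.ex s0)))
        rw [st_ex hs0]
    have hx : ¬ A.XP (A.st p) := fun h' => hc (by
      have := (Co_iff hv).2 h'
      rwa [ex_st (A := A) hp] at this)
    have h3 := T.step hs0 hv ho hx
    rw [ex_st (A := A) hp] at h3
    rw [e1, st_ex (sc_va hv)]
    exact h3
  wc := fun p hp hc h1 h2 => by
    have hv := st_va (A := A) (p := p) hp
    have e1 : A.cur.mu (A.cur.io p) = A.ex (A.sc (A.st p)) := sc_st hp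
    have ho : A.Ok s0 (A.st p) := by
      constructor
      · intro h3
        apply h1
        rw [e1, h3]
      · intro h3
        apply h2
        have h4 := congrArg A.ex h3
        rw [ex_st (A := A) hp] at h4
        rw [h4]
        show A.ex (A.rv s0) = A.ex (A.rv (A.st (A.ex s0)))
        rw [st_ex hs0]
    have hx : A.XP (A.st p) := (Co_iff hv).1 (by rw [ex_st (A := A) hp]; exact hc)
    have h5 : (A.st p).1 = p.1 := by
      have h3 := congrArg Prod.fst (ex_st (A := A) (p := p) hp)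
      rwa [ex_XP hx] at h3
    rw [e1, st_ex (sc_va hv)]
    obtain ⟨-, -, h6⟩ := corner_in hv hx
    have h7 := T.fP _ hv ho hx
    unfold Ty.fr
    rw [h6, h7, h5]
    cases T.τ (A.st p)
    · rfl
    · rfl
  turn := fun p hp h1 h2 hn => by
    have hv := st_va (A := A) (p := p) hp
    have e1 : A.cur.mu (A.cur.io p) = A.ex (A.sc (A.st p)) := sc_st hp
    have okof : ∀ s, A.Va s → A.ex (A.sc s) ≠ A.ex s0 → A.ex s ≠ A.cur.mu (A.ex s0) →
        A.Ok s0 s := by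
      intro s hs h3 h4
      refine ⟨fun h5 => h3 (by rw [h5]), fun h5 => h4 ?_⟩
      rw [h5]
      show A.ex (A.rv s0) = A.ex (A.rv (A.st (A.ex s0)))
      rw [st_ex hs0]
    have ho : A.Ok s0 (A.st p) := by
      apply okof _ hv
      · rw [← e1]; exact h1
      · rw [ex_st (A := A) hp]; exact h2
    have hv' := sc_va hv
    have e2 : A.st (A.cur.mu (A.cur.io p)) = A.sc (A.st p) := by rw [e1, st_ex hv']
    have hcp : A.cur.Co p ↔ A.XP (A.st p) := by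
      rw [← Co_iff hv, ex_st (A := A) hp]
    have hcp' : A.cur.Co (A.cur.mu (A.cur.io p)) ↔ A.XP (A.sc (A.st p)) := by
      rw [e1, Co_iff hv']
    refine T.turn hs0 hv ho ?_ _ _ ?_ ?_
    · rcases hn with h3 | ⟨h3, h4⟩
      · exact Or.inl (hcp'.1 h3)
      · right
        apply okof _ hv'
        · have h5 : A.cur.mu (A.cur.io (A.ex (A.sc (A.st p)))) = A.ex (A.sc (A.sc (A.st p))) := by
            have := sc_st (A := A) (p := A.ex (A.sc (A.st p))) (ex_va hv')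
            rwa [st_ex hv'] at this
          rw [← h5, ← e1]
          exact h3
        · rw [← e1]; exact h4
    · by_cases hc : A.cur.Co p
      · left
        exact ⟨hcp.1 hc, if_pos hc⟩
      · right
        exact ⟨fun h => hc (hcp.2 h), if_neg hc⟩
    · rw [e2]
      by_cases hc : A.cur.Co (A.cur.mu (A.cur.io p))
      · left
        exact ⟨hcp'.1 hc, if_pos hc⟩
      · right
        exact ⟨fun h => hc (hcp'.2 h), if_neg hc⟩

omit hs0 in
/-- **Layout of a signed flow.** -/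
theorem hasEdgeUnfolding (T : A.Ty s0) (hs0 : A.Va s0) (hC : A.orb.Conn)
    (hpos : ∀ t, A.nom t → 0 < A.M t) {N : ℕ} (hN : ∀ t, A.n t ≤ N) (hK : 0 < 2 * (5 * (N + 1) + 1) + 1) :
    (P.refine (2 * (5 * (N + 1) + 1) + 1) hK).HasEdgeUnfolding := by
  have hF : A.cur.Fine (N + 1) (5 * (N + 1) + 1) := by
    refine ⟨fun t => ?_, by omega, by omega⟩
    have h1 := hN t
    have h2 : A.k t ≤ 1 := A.cur.k1 t
    show A.n t + A.k t ≤ N + 1
    omega
  refine (T.toFr hs0).hasEdgeUnfolding hF (nc A) (conn_cur hC) ?_ (ex_va hs0) hK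
  intro F
  obtain ⟨t, h1, h2⟩ := A.nom_ex F
  have hv : A.Va (t, 0) := ⟨h1, hpos t h1⟩
  exact ⟨A.ex (t, 0), ex_va hv, by rw [ex_facet]; exact h2⟩

end

end GFlow

end Pool.Agent.MP42.NE
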