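import Pool.Agent.MP42.NE.F2b

/-!
# Kotzig's switching argument for flows

If a flow is connected after the contraction of the cores of all rings, and every ring is crossed
by exactly two strands, then a suitable number of additional copies of every ring makes it one
closed curve.
-/

set_option autoImplicit false

namespace Pool.Agent.MP42.NE

namespace Sys

variable {D : Type*} {S : Sys D} {e : D → ℕ} {v : D → ℤ} {K : ℕ}

/-! ## The bands -/

/-- representative of the cycle -/
noncomputable def rep (S : Sys D) (x : D) : D :=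
  Quotient.out (Quotient.mk (Equiv.Perm.SameCycle.setoid S.E) x)

lemma rep_same (x : D) : S.E.SameCycle (S.rep x) x :=
  Quotient.exact (s := Equiv.Perm.SameCycle.setoid S.E) (Quotient.out_eq _)

lemma rep_congr {x y : D} (h : S.E.SameCycle x y) : S.rep x = S.rep y := by
  unfold rep
  rw [Quotient.sound (s := Equiv.Perm.SameCycle.setoid S.E) h]

lemma rep_rep (x : D) : S.rep (S.rep x) = S.rep x := rep_congr (rep_same x)

lemma rep_eq_iff {x y : D} : S.rep x = S.rep y ↔ S.E.SameCycle x y :=
  ⟨fun h => (rep_same x).symm.trans (h ▸ rep_same y), rep_congr⟩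

lemma same_E (x : D) : S.E.SameCycle (S.E x) x :=
  Equiv.Perm.sameCycle_apply_left.2 (Equiv.Perm.SameCycle.refl _ _)

lemma om_pow (n : ℕ) (x : D) : (S.E ^ n) (S.om ((S.E ^ n) x)) = S.om x := by
  induction n with
  | zero => rfl
  | succ n ih => rw [pow_succ_E', pow_succ_E n x, E_om_E, ih]

lemma same_om [Finite D] {x y : D} (h : S.E.SameCycle x y) :
    S.E.SameCycle (S.om x) (S.om y) := by
  obtain ⟨n, rfl⟩ := h.exists_nat_pow_eq
  apply Equiv.Perm.SameCycle.symm
  exact ⟨(n : ℤ), by rw [zpow_natCast]; exact om_pow n x⟩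

lemma same_om_iff [Finite D] {x y : D} :
    S.E.SameCycle (S.om x) (S.om y) ↔ S.E.SameCycle x y :=
  ⟨fun h => by
    have := same_om h
    rwa [om_om, om_om] at this, same_om⟩

lemma cyc_const [Finite D] {Q : D → Prop} (h : ∀ x, Q (S.E x) ↔ Q x) {x y : D}
    (hxy : S.E.SameCycle x y) : Q x ↔ Q y := by
  obtain ⟨n, rfl⟩ := hxy.exists_nat_pow_eq
  clear hxy
  induction n with
  | zero => rfl
  | succ n ih => rw [pow_succ_E, h]; exact ih

section Band

variable {σ : D → Prop}

open Classical in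
/-- the frame of the ring with the north side up -/
noncomputable def up (S : Sys D) (σ : D → Prop) (x : D) : D := if σ x then x else S.om x

lemma up_pos {x : D} (h : σ x) : S.up σ x = x := if_pos h

lemma up_neg {x : D} (h : ¬ σ x) : S.up σ x = S.om x := if_neg h

/-- the bands -/
abbrev Bd (S : Sys D) (σ : D → Prop) : Type _ := {b : D // σ b ∧ S.rep b = b}

lemma σ_om (hσE : ∀ x, σ (S.E x) ↔ σ x) (hσr : ∀ x, σ (S.r x) ↔ ¬ σ x) (x : D) :
    σ (S.om x) ↔ ¬ σ x := by
  show σ (S.r (S.E x)) ↔ _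
  rw [hσr, hσE]

lemma σ_up (hσE : ∀ x, σ (S.E x) ↔ σ x) (hσr : ∀ x, σ (S.r x) ↔ ¬ σ x) (x : D) :
    σ (S.up σ x) := by
  by_cases h : σ x
  · rw [up_pos h]; exact h
  · rw [up_neg h, σ_om hσE hσr]; exact h

/-- the band of a dart -/
noncomputable def bd [Finite D] (hσE : ∀ x, σ (S.E x) ↔ σ x) (hσr : ∀ x, σ (S.r x) ↔ ¬ σ x)
    (x : D) : S.Bd σ :=
  ⟨S.rep (S.up σ x), (cyc_const hσE (rep_same _)).2 (σ_up hσE hσr x), rep_rep _⟩

variable [Finite D] (hσE : ∀ x, σ (S.E x) ↔ σ x) (hσr : ∀ x, σ (S.r x) ↔ ¬ σ x)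

lemma bd_eq_iff_pos {x : D} (h : σ x) (a : S.Bd σ) :
    bd hσE hσr x = a ↔ S.E.SameCycle a.1 x := by
  rw [← rep_eq_iff, a.2.2, Subtype.ext_iff]
  show S.rep (S.up σ x) = a.1 ↔ _
  rw [up_pos h]
  exact eq_comm

lemma bd_eq_iff_neg {x : D} (h : ¬ σ x) (a : S.Bd σ) :
    bd hσE hσr x = a ↔ S.E.SameCycle (S.om a.1) x := by
  have h1 : S.E.SameCycle (S.om a.1) x ↔ S.E.SameCycle a.1 (S.om x) := by
    rw [← same_om_iff (x := a.1), om_om]
  rw [h1, ← rep_eq_iff, a.2.2, Subtype.ext_iff]
  show S.rep (S.up σ x) = a.1 ↔ _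
  rw [up_neg h]
  exact eq_comm

lemma bd_E (x : D) : bd hσE hσr (S.E x) = bd hσE hσr x := by
  by_cases h : σ x
  · rw [bd_eq_iff_pos hσE hσr ((hσE x).2 h)]
    have := (bd_eq_iff_pos hσE hσr h (bd hσE hσr x)).1 rfl
    exact this.trans (same_E x).symm
  · rw [bd_eq_iff_neg hσE hσr (fun h' => h ((hσE x).1 h'))]
    have := (bd_eq_iff_neg hσE hσr h (bd hσE hσr x)).1 rfl
    exact this.trans (same_E x).symm

omit [Finite D] in
lemma om_same_r (x : D) : S.E.SameCycle (S.om x) (S.r x) := by
  have := same_E (S := S) (S.om x)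
  rw [E_om] at this
  exact this.symm

lemma bd_om (x : D) : bd hσE hσr (S.om x) = bd hσE hσr x := by
  by_cases h : σ x
  · rw [bd_eq_iff_neg hσE hσr (fun h' => (σ_om hσE hσr x).1 h' h)]
    exact same_om ((bd_eq_iff_pos hσE hσr h (bd hσE hσr x)).1 rfl)
  · rw [bd_eq_iff_pos hσE hσr ((σ_om hσE hσr x).2 h)]
    have := same_om ((bd_eq_iff_neg hσE hσr h (bd hσE hσr x)).1 rfl)
    rwa [om_om] at this

lemma bd_cyc {x y : D} (h : S.E.SameCycle x y) : bd hσE hσr x = bd hσE hσr y := by
  have := cyc_const (S := S) (Q := fun z => bd hσE hσr x = bd hσE hσr z)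
    (fun z => by rw [bd_E]) h
  exact this.1 rfl

lemma bd_r (x : D) : bd hσE hσr (S.r x) = bd hσE hσr x := by
  rw [← bd_cyc hσE hσr (om_same_r x), bd_om]

include hσE hσr in
lemma bd_ind {Q : D → Prop} (h : ∀ x, Q (S.E x) ↔ Q x) (ha : ∀ a : S.Bd σ, Q a.1 ∧ Q (S.om a.1))
    (x : D) : Q x := by
  by_cases h1 : σ x
  · have := (bd_eq_iff_pos hσE hσr h1 (bd hσE hσr x)).1 rfl
    exact (cyc_const h this).1 (ha _).1
  · have := (bd_eq_iff_neg hσE hσr h1 (bd hσE hσr x)).1 rfl
    exact (cyc_const h this).1 (ha _).2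

end Band

lemma band_sum [Fintype D] [DecidableEq D] {σ : D → Prop} [Fintype (S.Bd σ)]
    (hσE : ∀ x, σ (S.E x) ↔ σ x) (hσr : ∀ x, σ (S.r x) ↔ ¬ σ x) (f : D → ZMod 2) :
    ∑ a : S.Bd σ, (∑ y ∈ Finset.univ.filter (fun y => S.E.SameCycle a.1 y), f y +
      ∑ y ∈ Finset.univ.filter (fun y => S.E.SameCycle (S.om a.1) y), f y) = ∑ y, f y := by
  classical
  rw [← Finset.sum_fiberwise Finset.univ (bd hσE hσr) f]
  apply Finset.sum_congr rfl
  intro a _
  rw [← Finset.sum_filter_add_sum_filter_not (Finset.univ.filter (fun y => bd hσE hσr y = a)) σ]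
  congr 1
  · apply Finset.sum_congr _ (fun _ _ => rfl)
    ext y
    simp only [Finset.mem_filter, Finset.mem_univ, true_and]
    constructor
    · intro h
      have h1 : σ y := (cyc_const hσE h).1 a.2.1
      exact ⟨(bd_eq_iff_pos hσE hσr h1 a).2 h, h1⟩
    · rintro ⟨h, h1⟩
      exact (bd_eq_iff_pos hσE hσr h1 a).1 h
  · apply Finset.sum_congr _ (fun _ _ => rfl)
    ext y
    simp only [Finset.mem_filter, Finset.mem_univ, true_and]
    constructor
    · intro h
      have h1 : ¬ σ y := fun h2 =>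
        (σ_om hσE hσr a.1).1 ((cyc_const hσE h).2 h2) a.2.1
      exact ⟨(bd_eq_iff_neg hσE hσr h1 a).2 h, h1⟩
    · rintro ⟨h, h1⟩
      exact (bd_eq_iff_neg hσE hσr h1 a).1 h

theorem CC.exists_fconn [Fintype D] [DecidableEq D] {K : ℕ} (σ : D → Prop)
    (hσE : ∀ x, σ (S.E x) ↔ σ x) (hσr : ∀ x, σ (S.r x) ↔ ¬ σ x)
    (hτ : ∀ x, v x ≠ 0 → S.r (S.N x) ≠ x) (hF : S.Fl e v) (he : ∀ x, 2 * K + 2 ≤ e x)
    (hsum : ∀ d, ∑ x ∈ Finset.univ.filter (fun x => S.E.SameCycle d x), v x = 2)
    (hps : ∀ d n, -(K : ℤ) ≤ ∑ i ∈ Finset.range n, v ((S.E ^ i) d))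
    (hCC : CC S e v K) :
    ∃ t : D → ℕ, (∀ x, t (S.E x) = t x) ∧ (∀ x, t (S.r x) = t x) ∧ (∀ x, t x ≤ 2 * K + 3) ∧
      S.FConn (fun x => e x + t x) v := by
  classical
  have hT : S.Two v K := Two.of_sum hsum hps
  have := Fintype.ofFinite (S.Bd σ)
  obtain ⟨τ, hτ'⟩ := Kotz.kotzigI (V := D × ℕ) (A := S.Bd σ)
    (fun U => S.Half v (fun x j => U (x, j)))
    (fun U hU => hU.not) (fun U U' hU hU' => hU.and hU')
    (fun a => (a.1, K)) (fun a => (a.1, K + 1)) (fun a => (S.om a.1, K))
    (fun a => (S.om a.1, K + 1))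
    (by
      intro U hU hcon
      have hU' : S.Half v (fun x j => U (x, j)) := hU
      have hρ : ∀ x j, K ≤ j → (U (x, j) ↔ U ((bd hσE hσr x).1, K)) := by
        refine bd_ind hσE hσr (Q := fun x => ∀ j, K ≤ j → (U (x, j) ↔ U ((bd hσE hσr x).1, K)))
          ?_ ?_
        · intro x
          rw [bd_E]
          have h1 := hT.vge (S.E x)
          have h2 := hT.vle (S.E x)
          constructor
          · intro h j hj
            rw [hU'.core hT x (J := j) (J' := j + 2 * K + 4) hj (by omega) (by omega),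
              hU'.step x (j' := ((j + 2 * K + 4 : ℕ) - v (S.E x)).toNat) (by omega)]
            exact h _ (by omega)
          · intro h j hj
            rw [hU'.core hT (S.E x) (J := j) (J' := j + 2 * K + 4) hj (by omega) (by omega),
              ← hU'.step x (j := ((j + 2 * K + 4 : ℕ) + v (S.E x)).toNat) (by omega)]
            exact h _ (by omega)
        · intro a
          have h1 : bd hσE hσr a.1 = a :=
            (bd_eq_iff_pos hσE hσr a.2.1 a).2 (Equiv.Perm.SameCycle.refl _ _)
          obtain ⟨h2, h3, h4⟩ := hcon a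
          constructor
          · intro j hj
            rw [h1]
            by_cases hp : j % 2 = K % 2
            · exact hU'.core hT a.1 hj le_rfl hp
            · rw [hU'.core hT a.1 (J' := K + 1) hj (by omega) (by omega)]
              exact h2.symm
          · intro j hj
            rw [bd_om, h1]
            by_cases hp : j % 2 = K % 2
            · rw [hU'.core hT (S.om a.1) (J' := K) hj le_rfl hp]
              exact h3.symm
            · rw [hU'.core hT (S.om a.1) (J' := K + 1) hj (by omega) (by omega)]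
              exact h4.symm
      have hstk := hU'.stk (e := e) (ρ := fun x => U ((bd hσE hσr x).1, K)) hF hT he
        (fun x => by rw [bd_E]) (fun x => by rw [bd_r]) hρ
      have hv : ∀ x, v x ≤ e (S.E.symm x) := fun x => by
        have h1 := hT.vle x
        have h2 := he (S.E.symm x)
        omega
      have hv' : ∀ x, -v x ≤ e x := fun x => by
        have h1 := hT.vge x
        have h2 := he x
        omega
      have hfc := hstk.fcon hF hv hv'
      obtain ⟨c, hc⟩ := hCC _ (fun x => U ((bd hσE hσr x).1, K)) hfc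
        (fun x => by rw [bd_E]) (fun x => by rw [bd_r]) (by
          intro x j h1 h2
          rw [ofStk_e (by omega)]
          by_cases h3 : 2 * j < e x
          · rw [glue_top h3]
            exact hρ x j h1
          · rw [glue_bot h3]
            have := hρ (S.om x) (e x - 1 - j) (by omega)
            rwa [bd_om] at this)
      have hall : ∀ x j, U (x, j) ↔ c := by
        have h0 : ∀ x j, j ≤ K → (U (x, j) ↔ c) := by
          intro x j hj
          have h1 := he x
          have h2 := hc x ((v x).toNat + j) (by unfold cnt; omega)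
          rw [ofStk_e (by omega), glue_top (by omega)] at h2
          exact h2
        intro x j
        by_cases hj : j ≤ K
        · exact h0 x j hj
        · rw [hρ x j (by omega), ← hρ x K le_rfl]
          exact h0 x K le_rfl
      intro p q
      rw [show p = (p.1, p.2) from rfl, show q = (q.1, q.2) from rfl, hall, hall])
    (by
      intro U hU
      have hU' : S.Half v (fun x j => U (x, j)) := hU
      rw [← ZMod.natCast_eq_zero_iff_even]
      push_cast
      have h1 := band_sum hσE hσr (S.Wz v (fun x j => U (x, j)))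
      rw [hU'.sum_Wz hF hτ] at h1
      rw [← h1]
      apply Finset.sum_congr rfl
      intro a _
      rw [← hU'.parity hT hsum a.1, ← hU'.parity hT hsum (S.om a.1)]
      unfold zi
      ring)
  -- the number of additional copies
  set t : D → ℕ := fun x => 2 * K + 2 +
    (e (bd hσE hσr x).1 + if τ (bd hσE hσr x) then 1 else 0) % 2 with ht
  have htE : ∀ x, t (S.E x) = t x := fun x => by simp only [ht, bd_E]
  have htr : ∀ x, t (S.r x) = t x := fun x => by simp only [ht, bd_r]
  have htge : ∀ x, 2 * K + 2 ≤ t x := fun x => by simp only [ht]; omega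
  have htle : ∀ x, t x ≤ 2 * K + 3 := fun x => by simp only [ht]; omega
  refine ⟨t, htE, htr, htle, ?_⟩
  have hF' : S.Fl (fun x => e x + t x) v := by
    refine ⟨fun x => ?_, hF.vr, fun x => ?_⟩
    · show e _ + t _ = e x + t x
      rw [hF.er, htr, htE]
    · show ((e (S.r x) + t (S.r x) : ℕ) : ℤ) + v (S.r x) = ((e x + t x : ℕ) : ℤ) + v x
      have h1 := hF.bal x
      rw [htr]
      push_cast
      omega
  have he' : ∀ x, 4 * K + 4 ≤ (fun x => e x + t x) x := fun x => by
    have h1 := he x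
    have h2 := htge x
    show 4 * K + 4 ≤ e x + t x
    omega
  have hv : ∀ x, v x ≤ ((fun x => e x + t x) (S.E.symm x) : ℕ) := fun x => by
    have h1 := hT.vle x
    have h2 := he' (S.E.symm x)
    omega
  have hv' : ∀ x, -v x ≤ ((fun x => e x + t x) x : ℕ) := fun x => by
    have h1 := hT.vge x
    have h2 := he' x
    omega
  intro g hg
  have hstk := hg.stk hF' hv
  have hhalf := hstk.half hF' hT he'
  have hconst := hτ' (fun p => T v g p.1 (fold K p.2)) hhalf (by
    intro a
    have h1 : bd hσE hσr a.1 = a :=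
      (bd_eq_iff_pos hσE hσr a.2.1 a).2 (Equiv.Perm.SameCycle.refl _ _)
    have h2 : t a.1 = 2 * K + 2 + (e a.1 + if τ a then 1 else 0) % 2 := by
      simp only [ht, h1]
    unfold Kotz.Pass
    by_cases h3 : τ a = true
    · rw [h3] at h2 ⊢
      simp only [if_true] at h2 ⊢
      refine ⟨hstk.match hF' hT he' a.1 le_rfl le_rfl ?_,
        hstk.match hF' hT he' a.1 (by omega) (by omega) ?_⟩
      · show _ = (e a.1 + t a.1) % 2
        omega
      · show _ = (e a.1 + t a.1) % 2
        omega
    · rw [Bool.not_eq_true] at h3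
      rw [h3] at h2 ⊢
      simp only [Bool.false_eq_true, if_false] at h2 ⊢
      refine ⟨hstk.match hF' hT he' a.1 (by omega) (by omega) ?_,
        hstk.match hF' hT he' a.1 (by omega) (by omega) ?_⟩
      · show _ = (e a.1 + t a.1) % 2
        omega
      · show _ = (e a.1 + t a.1) % 2
        omega)
  rcases isEmpty_or_nonempty D with hD | ⟨⟨x0⟩⟩
  · exact ⟨True, fun x => hD.elim x⟩
  refine ⟨T v g x0 (fold K 0), ?_⟩
  apply hg.all hv hv'
  intro x j hj
  rcases hstk.recon hF' hT he' x hj with h1 | h1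
  · rw [h1]
    exact hconst (x, j) (x0, 0)
  · rw [h1]
    exact hconst (S.om x, _) (x0, 0)

end Sys

end Pool.Agent.MP42.NE
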