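import Pool.Agent.MP42.NE.Stack

/-!
# Stack equations of a flow

A family `g` of a flow is the same as the stacks `T v g x j` (`j`-th strand from the top over the
east side of `x`) with the equations `Stk`: `FCon.stk` and `Stk.fcon`.
-/

set_option autoImplicit false

namespace Pool.Agent.MP42.NE

namespace Sys

variable {D : Type*} {S : Sys D} {e : D → ℕ} {v : D → ℤ}

/-- the other side of the same edge of the ring -/
def om (S : Sys D) (x : D) : D := S.r (S.E x)

/-- the other side of the same ribbon -/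
def ta (S : Sys D) (x : D) : D := S.r (S.N x)

/-! ## The involutions -/

lemma E_om (x : D) : S.E (S.om x) = S.r x := by
  have h := congrArg S.r (S.rE x)
  rw [S.rr] at h
  exact h

lemma om_om (x : D) : S.om (S.om x) = x := S.rE x

lemma E_om_E (x : D) : S.E (S.om (S.E x)) = S.om x := S.E_om (S.E x)

lemma ta_ta (x : D) : S.ta (S.ta x) = x := S.rN x

lemma symm_r (x : D) : S.E.symm (S.r x) = S.om x := by
  rw [Equiv.symm_apply_eq, E_om]

lemma symm_ta (x : D) : S.E.symm (S.ta x) = S.om (S.N x) := symm_r (S.N x)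

lemma Fl.e_om (h : S.Fl e v) (x : D) : e (S.om x) = e x := h.er x

lemma Fl.v_ta (h : S.Fl e v) (x : D) : v (S.ta x) = v x := h.vr x

lemma Fl.e_r (h : S.Fl e v) (x : D) : e (S.r x) = e (S.E.symm x) := by
  have := h.er (S.E.symm x)
  rwa [Equiv.apply_symm_apply] at this

lemma Fl.bE (h : S.Fl e v) (x : D) : (e x : ℤ) + v (S.om x) = e (S.E x) + v (S.E x) := by
  have h1 := h.bal (S.E x)
  rw [h.er] at h1
  exact h1

/-! ## Stacks -/

open Classical in
/-- the strands on the north side of `x`, from the left -/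
noncomputable def vw (S : Sys D) (v : D → ℤ) (T : D → ℕ → Prop) (x : D) (j : ℕ) : Prop :=
  if 0 ≤ v x then T (S.E.symm x) j else T x j

lemma vw_pos {T : D → ℕ → Prop} {x : D} (h : 0 ≤ v x) (j : ℕ) :
    S.vw v T x j = T (S.E.symm x) j := if_pos h

lemma vw_neg {T : D → ℕ → Prop} {x : D} (h : ¬ 0 ≤ v x) (j : ℕ) :
    S.vw v T x j = T x j := if_neg h

/-- the equations of the stacks over the east sides -/
structure Stk (S : Sys D) (e : D → ℕ) (v : D → ℤ) (T : D → ℕ → Prop) : Prop where
  st : ∀ x i, (v (S.E x)).toNat + i < e x → (-v (S.E x)).toNat + i < e (S.E x) →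
    (T x ((v (S.E x)).toNat + i) ↔ T (S.E x) ((-v (S.E x)).toNat + i))
  rv : ∀ x j, j < e x → (T (S.om x) j ↔ T x (e x - 1 - j))
  rb : ∀ x j, j < (v x).natAbs → (S.vw v T x j ↔ S.vw v T (S.ta x) ((v x).natAbs - 1 - j))

/-- the strands on the north side -/
lemma FCon.vw_iff (hv : ∀ x, v x ≤ e (S.E.symm x)) {g : D → ℕ → Prop} (hg : S.FCon e v g)
    (x : D) (j : ℕ) (hj : j < (v x).natAbs) : S.vw v (Sys.T v g) x j ↔ g x j := by
  by_cases h : 0 ≤ v x
  · rw [vw_pos h]
    have h1 := hg.cE (S.E.symm x) j (by have := hv x; omega)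
    rw [Equiv.apply_symm_apply, show (-v x).toNat = 0 by omega, Nat.zero_add] at h1
    exact h1
  · rw [vw_neg h]
    show g x ((v x).toNat + j) ↔ _
    rw [show (v x).toNat = 0 by omega, Nat.zero_add]

lemma FCon.stk (hF : S.Fl e v) (hv : ∀ x, v x ≤ e (S.E.symm x)) {g : D → ℕ → Prop}
    (hg : S.FCon e v g) : S.Stk e v (Sys.T v g) where
  st := fun x i h1 _ => by
    have h := hg.cE x _ h1
    show g x ((v x).toNat + ((v (S.E x)).toNat + i)) ↔
      g (S.E x) ((v (S.E x)).toNat + ((-v (S.E x)).toNat + i))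
    rw [h, show (-v (S.E x)).toNat + ((v (S.E x)).toNat + i) =
      (v (S.E x)).toNat + ((-v (S.E x)).toNat + i) by omega]
  rv := fun x j hj => by
    have h1 := hF.cnt_in (S.E x)
    rw [hF.er] at h1
    have h2 : (v (S.r (S.E x))).toNat + j < S.cnt e v (S.E x) := by omega
    have h3 := hg.cr (S.E x) _ h2
    have h4 := hg.cE x (e x - 1 - j) (by omega)
    show g (S.r (S.E x)) ((v (S.r (S.E x))).toNat + j) ↔ g x ((v x).toNat + (e x - 1 - j))
    rw [h3, h4, show S.cnt e v (S.E x) - 1 - ((v (S.r (S.E x))).toNat + j) =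
      (-v (S.E x)).toNat + (e x - 1 - j) by omega]
  rb := fun x j hj => by
    have hτ : v (S.ta x) = v x := hF.v_ta x
    rw [hg.vw_iff hv x j hj, hg.vw_iff hv (S.ta x) _ (by rw [hτ]; omega)]
    by_cases h : 0 ≤ v x
    · have h1 := hg.cNp x j (by omega)
      have h2 := hF.cnt_in (S.N x)
      have h2' : v (S.r (S.N x)) = v x := hτ
      rw [h2'] at h2
      have h3 := hg.cr (S.N x) ((v x).natAbs - 1 - j) (by omega)
      show g x j ↔ g (S.r (S.N x)) ((v x).natAbs - 1 - j)
      rw [h1, h3, show S.cnt e v (S.N x) - 1 - ((v x).natAbs - 1 - j) =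
        (-v (S.N x)).toNat + e (S.r (S.N x)) + j by omega]
    · have h1 := hg.cNm x j (by omega)
      have h2' : v (S.r (S.N x)) = v x := hτ
      have h2 : S.cnt e v (S.N x) = e (S.N x) + (v (S.N x)).toNat + (-v x).toNat := by
        unfold cnt; rw [h2']
      have h3 := hg.cr (S.N x) ((v x).natAbs - 1 - j) (by omega)
      show g x j ↔ g (S.r (S.N x)) ((v x).natAbs - 1 - j)
      rw [h1, h3, show S.cnt e v (S.N x) - 1 - ((v x).natAbs - 1 - j) =
        (v (S.N x)).toNat + e (S.N x) + j by omega]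

/-- all strands from the stacks -/
lemma FCon.all (hv : ∀ x, v x ≤ e (S.E.symm x)) (hv' : ∀ x, -v x ≤ e x)
    {g : D → ℕ → Prop} (hg : S.FCon e v g) {c : Prop}
    (h : ∀ x j, j < e x → (Sys.T v g x j ↔ c)) (x : D) (t : ℕ) (ht : t < S.cnt e v x) :
    g x t ↔ c := by
  have key : ∀ x t, t < (v x).toNat + e x → (g x t ↔ c) := by
    intro x t ht
    by_cases h1 : t < (v x).toNat
    · have h2 := hg.vw_iff hv x t (by omega)
      rw [← h2, vw_pos (by omega)]
      exact h _ _ (by have := hv x; omega)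
    · have h2 := h x (t - (v x).toNat) (by omega)
      rw [← h2]
      show _ ↔ g x ((v x).toNat + (t - (v x).toNat))
      rw [show (v x).toNat + (t - (v x).toNat) = t by omega]
  by_cases h1 : t < (v x).toNat + e x
  · exact key x t h1
  · have h2 : t < e x + (v x).toNat + (-v (S.r x)).toNat := ht
    have h3 := hg.cr x (S.cnt e v x - 1 - t) (by omega)
    rw [show S.cnt e v x - 1 - (S.cnt e v x - 1 - t) = t by omega] at h3
    rw [← h3]
    apply key
    have h4 := hv' (S.r x)
    have h5 : S.cnt e v x = e x + (v x).toNat + (-v (S.r x)).toNat := rfl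
    omega

open Classical in
/-- the family with the given stacks -/
noncomputable def ofStk (S : Sys D) (e : D → ℕ) (v : D → ℤ) (T : D → ℕ → Prop) (x : D) (t : ℕ) :
    Prop :=
  if t < (v x).toNat then T (S.E.symm x) t
  else if t < (v x).toNat + e x then T x (t - (v x).toNat)
  else T (S.r x) (S.cnt e v x - 1 - t)

lemma ofStk_n {T : D → ℕ → Prop} {x : D} {t : ℕ} (h : t < (v x).toNat) :
    S.ofStk e v T x t = T (S.E.symm x) t := if_pos h

lemma ofStk_e {T : D → ℕ → Prop} {x : D} {t : ℕ} (h : t < e x) :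
    S.ofStk e v T x ((v x).toNat + t) = T x t := by
  unfold ofStk
  rw [if_neg (by omega), if_pos (by omega), Nat.add_sub_cancel_left]

lemma ofStk_s {T : D → ℕ → Prop} {x : D} {t : ℕ} (h : (v x).toNat + e x ≤ t) :
    S.ofStk e v T x t = T (S.r x) (S.cnt e v x - 1 - t) := by
  unfold ofStk
  rw [if_neg (by omega), if_neg (by omega)]

/-- the west strands -/
lemma Stk.west (hF : S.Fl e v) (hv' : ∀ x, -v x ≤ e x) {T : D → ℕ → Prop}
    (h : S.Stk e v T) (x : D) (j : ℕ) (hj : j < e x) :
    T x j ↔ S.ofStk e v T (S.E x) ((-v (S.E x)).toNat + j) := by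
  have hcnt : S.cnt e v (S.E x) = e (S.E x) + (v (S.E x)).toNat + (-v (S.om x)).toNat := rfl
  have hb := hF.bE x
  by_cases h1 : (-v (S.E x)).toNat + j < (v (S.E x)).toNat
  · rw [ofStk_n h1, Equiv.symm_apply_apply, show (-v (S.E x)).toNat = 0 by omega, Nat.zero_add]
  · by_cases h2 : (-v (S.E x)).toNat + j < (v (S.E x)).toNat + e (S.E x)
    · have h3 := h.st x (j - (v (S.E x)).toNat) (by omega) (by omega)
      rw [show (v (S.E x)).toNat + (j - (v (S.E x)).toNat) = j by omega] at h3
      rw [h3]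
      rw [show (-v (S.E x)).toNat + j = (v (S.E x)).toNat +
        ((-v (S.E x)).toNat + (j - (v (S.E x)).toNat)) by omega, ofStk_e (by omega)]
    · rw [ofStk_s (by omega)]
      have h3 := h.rv x (e x - 1 - j) (by omega)
      rw [show e x - 1 - (e x - 1 - j) = j by omega] at h3
      rw [← h3]
      show _ ↔ T (S.om x) _
      have h4 := hv' (S.om x)
      rw [hF.e_om] at h4
      rw [show S.cnt e v (S.E x) - 1 - ((-v (S.E x)).toNat + j) = e x - 1 - j by omega]

theorem Stk.fcon (hF : S.Fl e v) (hv : ∀ x, v x ≤ e (S.E.symm x)) (hv' : ∀ x, -v x ≤ e x)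
    {T : D → ℕ → Prop} (h : S.Stk e v T) : S.FCon e v (S.ofStk e v T) where
  cE := fun x j hj => by
    rw [ofStk_e hj]
    exact h.west hF hv' x j hj
  cNp := fun x j hj => by
    have hτ : v (S.r (S.N x)) = v x := hF.vr x
    have h1 := hF.cnt_in (S.N x)
    have h2 : S.cnt e v (S.N x) = e (S.N x) + (v (S.N x)).toNat + (-v (S.r (S.N x))).toNat := rfl
    rw [hτ] at h1 h2
    have h3 : v x ≤ e (S.N x) := by
      have := hv (S.ta x)
      rw [hF.v_ta, symm_ta, hF.e_om] at this
      exact this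
    have h4 := h.rb x j (by omega)
    rw [vw_pos (by omega), vw_pos (by rw [hF.v_ta]; omega), symm_ta] at h4
    rw [ofStk_n (by omega), h4]
    have h5 := h.rv (S.N x) ((v x).natAbs - 1 - j) (by omega)
    rw [h5]
    rw [show (-v (S.N x)).toNat + e (S.r (S.N x)) + j = (v (S.N x)).toNat +
      (e (S.N x) - 1 - ((v x).natAbs - 1 - j)) by omega, ofStk_e (by omega)]
  cNm := fun x j hj => by
    have hτ : v (S.r (S.N x)) = v x := hF.vr x
    have h2 : S.cnt e v (S.N x) = e (S.N x) + (v (S.N x)).toNat + (-v (S.r (S.N x))).toNat := rfl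
    rw [hτ] at h2
    have h4 := h.rb x j (by omega)
    rw [vw_neg (by omega), vw_neg (by rw [hF.v_ta]; omega)] at h4
    have h5 := ofStk_e (S := S) (v := v) (e := e) (T := T) (x := x) (t := j)
      (by have := hv' x; omega)
    rw [show (v x).toNat + j = j by omega] at h5
    rw [h5, h4, ofStk_s (by omega)]
    show T (S.r (S.N x)) _ ↔ _
    rw [show S.cnt e v (S.N x) - 1 - ((v (S.N x)).toNat + e (S.N x) + j) =
      (v x).natAbs - 1 - j by omega]
  cr := fun x t ht => by
    have hc : S.cnt e v x = e x + (v x).toNat + (-v (S.r x)).toNat := rfl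
    have hc' := hF.cnt_in x
    have hcr := hF.cnt_r x
    have hbx := hv x
    have hbr := hv (S.r x)
    rw [symm_r, hF.e_om] at hbr
    rw [← hF.e_r] at hbx
    have hbx' := hv' x
    have hbr' := hv' (S.r x)
    by_cases h1 : t < (v (S.r x)).toNat
    · rw [ofStk_n h1, symm_r, h.rv x t (by omega)]
      rw [show S.cnt e v x - 1 - t = (v x).toNat + (e x - 1 - t) by omega, ofStk_e (by omega)]
    · by_cases h2 : t < (v (S.r x)).toNat + e (S.r x)
      · obtain ⟨j, rfl⟩ := Nat.exists_eq_add_of_le (Nat.le_of_not_lt h1)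
        have hj : j < e (S.r x) := by omega
        rw [ofStk_e hj]
        have h3 := h.rv (S.E.symm x) j (by rw [← hF.e_r]; exact hj)
        have h4 : S.om (S.E.symm x) = S.r x := by
          unfold om; rw [Equiv.apply_symm_apply]
        rw [h4, ← hF.e_r] at h3
        have h5 := h.west hF hv' (S.E.symm x) (e (S.r x) - 1 - j) (by rw [← hF.e_r]; omega)
        rw [Equiv.apply_symm_apply] at h5
        rw [h3, h5, show S.cnt e v x - 1 - ((v (S.r x)).toNat + j) =
          (-v x).toNat + (e (S.r x) - 1 - j) by omega]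
      · rw [ofStk_s (by omega), S.rr, hcr]
        have h5 := ofStk_e (S := S) (v := v) (e := e) (T := T) (x := x)
          (t := S.cnt e v x - 1 - t) (by omega)
        rw [show (v x).toNat + (S.cnt e v x - 1 - t) = S.cnt e v x - 1 - t by omega] at h5
        rw [h5]

lemma T_ofStk {T : D → ℕ → Prop} {x : D} {j : ℕ} (h : j < e x) :
    Sys.T v (S.ofStk e v T) x j ↔ T x j := by
  show S.ofStk e v T x ((v x).toNat + j) ↔ _
  rw [ofStk_e h]

end Sys

end Pool.Agent.MP42.NE
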