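import Pool.Agent.MP42.H.One

/-!
# Rows and columns that cross in a facet
-/

set_option autoImplicit false

namespace Pool.Agent.MP42.NE

open Pool.Agent.Helper55.UNF Pool.Agent.MP42H

/-- the rows `a`, .., `a + s - 1` -/
def gR (a s : ℕ) : ℕ → ℕ → Bool := fun _ y => decide (a ≤ y ∧ y < a + s)

/-- the columns `b`, .., `b + m - 1` -/
def gC (b m : ℕ) : ℕ → ℕ → Ln := fun x _ => if b ≤ x ∧ x < b + m then Ln.n else Ln.z

lemma gR_true {a s x y : ℕ} (h : a ≤ y ∧ y < a + s) : gR a s x y = true := decide_eq_true h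

lemma gR_false {a s x y : ℕ} (h : ¬ (a ≤ y ∧ y < a + s)) : gR a s x y = false :=
  decide_eq_false h

lemma gR_iff {a s x y : ℕ} : gR a s x y = true ↔ a ≤ y ∧ y < a + s := decide_eq_true_iff

lemma gC_n {b m x y : ℕ} (h : b ≤ x ∧ x < b + m) : gC b m x y = Ln.n := if_pos h

lemma gC_z {b m x y : ℕ} (h : ¬ (b ≤ x ∧ x < b + m)) : gC b m x y = Ln.z := if_neg h

lemma gC_iff {b m x y : ℕ} : gC b m x y ≠ Ln.z ↔ b ≤ x ∧ x < b + m := by
  constructor
  · intro h
    by_contra h1
    exact h (gC_z h1)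
  · intro h
    rw [gC_n h]
    simp

lemma okc_G (r : Bool) (l : Ln) (h : l = Ln.n ∨ l = Ln.z) : okc r r l l = true := by
  rcases h with h | h <;> subst h <;> cases r <;> rfl

lemma G_ok (k a s b m : ℕ) : CellOk k (gR a s) (gC b m) := by
  intro x y _ _
  show okc (gR a s x y) (gR a s x y) (gC b m x y) (gC b m x y) = true
  apply okc_G
  by_cases h : b ≤ x ∧ x < b + m
  · exact Or.inl (gC_n h)
  · exact Or.inr (gC_z h)

section

variable {k a s b m : ℕ} {ψ χ : ℕ → ℕ → Prop} (hR : CellRel k (gR a s) (gC b m) ψ χ)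

include hR

lemma G_WN {x y : ℕ} (hx : x < k) (hy : y < k) (h1 : a ≤ y ∧ y < a + s) (h2 : b ≤ x ∧ x < b + m) :
    ψ x y ↔ χ x (y + 1) := by
  have := hR x y hx hy Prt.W
  rw [gR_true (x := x) h1, gR_true (x := x + 1) h1, gC_n (y := y) h2, gC_n (y := y + 1) h2] at this
  exact this rfl

lemma G_SE {x y : ℕ} (hx : x < k) (hy : y < k) (h1 : a ≤ y ∧ y < a + s) (h2 : b ≤ x ∧ x < b + m) :
    χ x y ↔ ψ (x + 1) y := by
  have := hR x y hx hy Prt.S
  rw [gR_true (x := x) h1, gR_true (x := x + 1) h1, gC_n (y := y) h2, gC_n (y := y + 1) h2] at this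
  exact this rfl

lemma G_WE {x y : ℕ} (hx : x < k) (hy : y < k) (h1 : a ≤ y ∧ y < a + s)
    (h2 : ¬ (b ≤ x ∧ x < b + m)) : ψ x y ↔ ψ (x + 1) y := by
  have := hR x y hx hy Prt.W
  rw [gR_true (x := x) h1, gR_true (x := x + 1) h1, gC_z (y := y) h2, gC_z (y := y + 1) h2] at this
  exact this rfl

lemma G_SN {x y : ℕ} (hx : x < k) (hy : y < k) (h1 : ¬ (a ≤ y ∧ y < a + s))
    (h2 : b ≤ x ∧ x < b + m) : χ x y ↔ χ x (y + 1) := by
  have := hR x y hx hy Prt.S
  rw [gR_false (x := x) h1, gR_false (x := x + 1) h1, gC_n (y := y) h2,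
    gC_n (y := y + 1) h2] at this
  exact this rfl

/-- the strands of a facet -/
lemma G_track (has : a + s ≤ k) (hbm : b + m ≤ k) (G : ℕ → Prop)
    (hW : ∀ t < s, (ψ 0 (a + s - 1 - t) ↔ G t)) (hS : ∀ i < m, (χ (b + i) 0 ↔ G (s + i))) :
    (∀ x y, x ≤ k → a ≤ y → y < a + s → (ψ x y ↔ G ((a + s - 1 - y) + min m (x - b)))) ∧
    (∀ x y, b ≤ x → x < b + m → y ≤ k → (χ x y ↔ G ((x - b) + min s (a + s - y)))) := by
  have key : ∀ n x y, x + y = n →
      ((x ≤ k → a ≤ y → y < a + s → (ψ x y ↔ G ((a + s - 1 - y) + min m (x - b)))) ∧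
      (b ≤ x → x < b + m → y ≤ k → (χ x y ↔ G ((x - b) + min s (a + s - y))))) := by
    intro n
    induction n using Nat.strong_induction_on with
    | _ n ih =>
      intro x y hn
      constructor
      · intro hx h1 h2
        rcases Nat.eq_zero_or_pos x with h0 | h0
        · subst h0
          have h3 := hW (a + s - 1 - y) (by omega)
          rw [show a + s - 1 - (a + s - 1 - y) = y by omega] at h3
          rw [h3, show (a + s - 1 - y) + min m (0 - b) = a + s - 1 - y by omega]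
        · obtain ⟨x', rfl⟩ : ∃ x', x = x' + 1 := ⟨x - 1, by omega⟩
          by_cases h3 : b ≤ x' ∧ x' < b + m
          · rw [← G_SE hR (by omega) (by omega) ⟨h1, h2⟩ h3,
              (ih (x' + y) (by omega) x' y rfl).2 h3.1 h3.2 (by omega)]
            rw [show (x' - b) + min s (a + s - y) = (a + s - 1 - y) + min m (x' + 1 - b) by omega]
          · rw [← G_WE hR (by omega) (by omega) ⟨h1, h2⟩ h3,
              (ih (x' + y) (by omega) x' y rfl).1 (by omega) h1 h2]
            rw [show (a + s - 1 - y) + min m (x' - b) = (a + s - 1 - y) + min m (x' + 1 - b) by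
              omega]
      · intro h1 h2 hy
        rcases Nat.eq_zero_or_pos y with h0 | h0
        · subst h0
          have h3 := hS (x - b) (by omega)
          rw [show b + (x - b) = x by omega] at h3
          rw [h3, show s + (x - b) = (x - b) + min s (a + s - 0) by omega]
        · obtain ⟨y', rfl⟩ : ∃ y', y = y' + 1 := ⟨y - 1, by omega⟩
          by_cases h3 : a ≤ y' ∧ y' < a + s
          · rw [← G_WN hR (by omega) (by omega) h3 ⟨h1, h2⟩,
              (ih (x + y') (by omega) x y' rfl).1 (by omega) h3.1 h3.2]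
            rw [show (a + s - 1 - y') + min m (x - b) = (x - b) + min s (a + s - (y' + 1)) by
              omega]
          · rw [← G_SN hR (by omega) (by omega) h3 ⟨h1, h2⟩,
              (ih (x + y') (by omega) x y' rfl).2 h1 h2 (by omega)]
            rw [show (x - b) + min s (a + s - y') = (x - b) + min s (a + s - (y' + 1)) by omega]
  exact ⟨fun x y => (key _ x y rfl).1, fun x y => (key _ x y rfl).2⟩

end

end Pool.Agent.MP42.NE
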