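import Pool.Agent.MP42.H.ATab
import Pool.Agent.MP42.NE.Grid
import Pool.Agent.MP42.NE.SysP

/-!
# The layout of a connected family of monotone curves
-/

set_option autoImplicit false
set_option linter.unusedSectionVars false

namespace Pool.Agent.MP42.NE

open Pool.Agent.Helper55.UNF Pool.Agent.Helper55.UNF.GridSolid Pool.Agent.MP42H

variable {P : GridSolid}

/-! ## Extension of weights along cycles -/

section Ext

open Classical in
/-- the weight of the darts on the cycle -/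
noncomputable def ex (π : Equiv.Perm P.FSt) (w : Dart P → ℕ) (s : P.FSt) : ℕ :=
  if h : ∃ d : Dart P, π.SameCycle s d.1 then w (Classical.choose h) else 0

variable {π : Equiv.Perm P.FSt} {w : Dart P → ℕ}

lemma ex_eq (hw : ∀ d, w (ret π IsDart d) = w d) {s : P.FSt} {d : Dart P}
    (h : π.SameCycle s d.1) : ex π w s = w d := by
  unfold ex
  have hex : ∃ d : Dart P, π.SameCycle s d.1 := ⟨d, h⟩
  rw [dif_pos hex]
  have h1 := Classical.choose_spec hex
  have h2 : π.SameCycle (Classical.choose hex).1 d.1 := h1.symm.trans h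
  exact (ret_const (ψ := fun x => w x = w d) (fun x => by rw [hw]) h2).2 rfl

lemma ex_self (hw : ∀ d, w (ret π IsDart d) = w d) (d : Dart P) : ex π w d.1 = w d :=
  ex_eq hw (Equiv.Perm.SameCycle.refl _ _)

lemma ex_step (hw : ∀ d, w (ret π IsDart d) = w d) (s : P.FSt) : ex π w (π s) = ex π w s := by
  by_cases h : ∃ d : Dart P, π.SameCycle s d.1
  · obtain ⟨d, hd⟩ := h
    rw [ex_eq hw hd, ex_eq hw (d := d)]
    rw [Equiv.Perm.sameCycle_apply_left]; exact hd
  · have h' : ¬ ∃ d : Dart P, π.SameCycle (π s) d.1 := by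
      rintro ⟨d, hd⟩
      rw [Equiv.Perm.sameCycle_apply_left] at hd
      exact h ⟨d, hd⟩
    unfold ex
    rw [dif_neg h, dif_neg h']

lemma ex_r2 (hw : ∀ d, w (ret π IsDart d) = w d) (hr : ∀ d, w (r2D P d) = w d)
    (hπ : ∀ s t : P.FSt, π.SameCycle s t → π.SameCycle s.r2 t.r2) (s : P.FSt) :
    ex π w s.r2 = ex π w s := by
  by_cases h : ∃ d : Dart P, π.SameCycle s d.1
  · obtain ⟨d, hd⟩ := h
    rw [ex_eq hw hd, ex_eq hw (d := r2D P d) (hπ _ _ hd), hr]
  · have h' : ¬ ∃ d : Dart P, π.SameCycle s.r2 d.1 := by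
      rintro ⟨d, hd⟩
      have := hπ _ _ hd
      rw [FSt.r2_r2] at this
      exact h ⟨r2D P d, this⟩
    unfold ex
    rw [dif_neg h, dif_neg h']

lemma ex_le {K : ℕ} (hw : ∀ d, w d ≤ K) (s : P.FSt) : ex π w s ≤ K := by
  unfold ex
  split_ifs
  · exact hw _
  · exact Nat.zero_le _

end Ext

lemma same_N_r2 (s t : P.FSt) (h : (pN : Equiv.Perm P.FSt).SameCycle s t) :
    (pN : Equiv.Perm P.FSt).SameCycle s.r2 t.r2 := by
  obtain ⟨z, hz⟩ := h
  refine ⟨-z, ?_⟩
  rw [zpow_pN_r2, neg_neg, hz]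

/-! ## Active states -/

lemma act_iff {s : P.FSt} : Act can s ↔
    (s.1.d.1 = 0 ∧ s.1.n.1 = 2) ∨ (s.1.d.1 ≠ 0 ∧ s.1.e.1 = 0) := by
  obtain ⟨⟨c, d, e⟩, hs⟩ := s
  have hde : d.1 ≠ e.1 := hs.2
  have key : ∀ d e : Dir, d.1 ≠ e.1 → ((canE d = e ∨ canE d = opp e) ↔
      ((d.1 = 0 ∧ (cross d e).1 = 2) ∨ (d.1 ≠ 0 ∧ e.1 = 0))) := by decide
  rw [show ((⟨⟨c, d, e⟩, hs⟩ : P.FSt).1.d.1 = 0 ∧ (⟨⟨c, d, e⟩, hs⟩ : P.FSt).1.n.1 = 2) =
    (d.1 = 0 ∧ (cross d e).1 = 2) from rfl,
    show ((⟨⟨c, d, e⟩, hs⟩ : P.FSt).1.d.1 ≠ 0 ∧ (⟨⟨c, d, e⟩, hs⟩ : P.FSt).1.e.1 = 0) =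
    (d.1 ≠ 0 ∧ e.1 = 0) from rfl, ← key d e hde]
  constructor
  · rintro (h | h)
    · left; exact congrArg (fun s : P.FSt => s.1.e) h
    · right; exact congrArg (fun s : P.FSt => s.1.e) h
  · rintro (h | h)
    · left
      apply FSt.ext'
      show (⟨c, d, canE d⟩ : St) = ⟨c, d, e⟩
      rw [h]
    · right
      apply FSt.ext'
      show (⟨c, d, canE d⟩ : St) = ⟨c, d, opp e⟩
      rw [h]

lemma dn_axis (s : P.FSt) : s.1.n.1 ≠ s.1.d.1 ∧ s.1.n.1 ≠ s.1.e.1 := by
  obtain ⟨⟨c, d, e⟩, hs⟩ := s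
  have key : ∀ d e : Dir, d.1 ≠ e.1 → (cross d e).1 ≠ d.1 ∧ (cross d e).1 ≠ e.1 := by decide
  exact key d e hs.2

lemma de_axis (s : P.FSt) : s.1.d.1 ≠ s.1.e.1 := s.2.2

/-- the three axes of a state -/
lemma fin3 : ∀ a b c : Fin 3, a ≠ b → c ≠ a → c ≠ b →
    (a = 0 ∧ b = 1 ∧ c = 2) ∨ (a = 0 ∧ b = 2 ∧ c = 1) ∨ (a = 1 ∧ b = 0 ∧ c = 2) ∨
    (a = 1 ∧ b = 2 ∧ c = 0) ∨ (a = 2 ∧ b = 0 ∧ c = 1) ∨ (a = 2 ∧ b = 1 ∧ c = 0) := by decide

lemma wall_act {s : P.FSt} (h : s.1.n.1 = 2) : Act can s := by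
  rw [act_iff]
  have h1 := dn_axis s
  have h2 := de_axis s
  rcases fin3 _ _ _ h2 h1.1 h1.2 with ⟨a, b, c⟩ | ⟨a, b, c⟩ | ⟨a, b, c⟩ | ⟨a, b, c⟩ |
    ⟨a, b, c⟩ | ⟨a, b, c⟩ <;> rw [h] at c <;> simp_all

lemma act_wall {s : P.FSt} (h : Act can s) (h2 : s.1.d.1 ≠ 2) : s.1.n.1 = 2 := by
  rw [act_iff] at h
  rcases h with h | h
  · exact h.2
  · have h1 := dn_axis s
    have h3 := de_axis s
    rcases fin3 _ _ _ h3 h1.1 h1.2 with ⟨a, b, c⟩ | ⟨a, b, c⟩ | ⟨a, b, c⟩ | ⟨a, b, c⟩ |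
      ⟨a, b, c⟩ | ⟨a, b, c⟩ <;> simp_all

lemma wall_d {s : P.FSt} (h : s.1.n.1 = 2) : s.1.d.1 ≠ 2 := by
  intro h'
  exact (dn_axis s).1 (h.trans h'.symm)

lemma line_act {s : P.FSt} (h : s.1.e.1 = 0) : Act can s := by
  rw [act_iff]
  right
  refine ⟨?_, h⟩
  intro h'
  exact de_axis s (h'.trans h.symm)

lemma line_d {s : P.FSt} (h : s.1.e.1 = 0) : s.1.d.1 ≠ 0 := by
  intro h'
  exact de_axis s (h'.trans h.symm)

lemma act_line {s : P.FSt} (h : Act can s) (h2 : s.1.d.1 ≠ 0) : s.1.e.1 = 0 := by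
  rw [act_iff] at h
  rcases h with h | h
  · exact absurd h.1 h2
  · exact h.2

lemma stE_n' (s : P.FSt) : s.stE.1.n = s.1.n := P.stepE_n s.1 s.2.2

lemma r2_n' (s : P.FSt) : s.r2.1.n = opp s.1.n := cross_opp_right _ _ s.2.2

/-! ## The table -/

section Table

variable (k : ℕ) (s m : Dart P → ℕ)

/-- number of rows of a facet -/
noncomputable def nr (t : P.FSt) : ℕ := if t.1.d.1 = 2 then 0 else ex pE s t

/-- number of columns of a facet -/
noncomputable def nc (t : P.FSt) : ℕ := if t.1.d.1 = 0 then 0 else ex pN m t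

/-- the first row -/
noncomputable def fr (t : P.FSt) : ℕ := if t.1.n = (2, true) then 0 else k - nr s t

/-- the first column -/
noncomputable def fc (t : P.FSt) : ℕ := if t.1.e = (0, true) then 0 else k - nc m t

variable {k s m}

lemma nr_wall {t : P.FSt} (h : t.1.n.1 = 2) : nr s t = ex pE s t := if_neg (wall_d h)

lemma nc_line {t : P.FSt} (h : t.1.e.1 = 0) : nc m t = ex pN m t := if_neg (line_d h)

lemma nr_stE (hs : ∀ d, s (phi P d) = s d) {t : P.FSt} (h : t.1.n.1 = 2) :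
    nr s t.stE = nr s t := by
  have h1 : t.stE.1.n.1 = 2 := by rw [stE_n', h]
  rw [nr_wall h, nr_wall h1]
  exact ex_step (π := pE) hs t

lemma nc_stN (hm : ∀ d, m (rN P d) = m d) {t : P.FSt} (h : t.1.e.1 = 0) :
    nc m t.stN = nc m t := by
  have h1 : t.stN.1.e.1 = 0 := by rw [FSt.stN_e, h]
  rw [nc_line h, nc_line h1]
  exact ex_step (π := pN) hm t

lemma fr_stE (hs : ∀ d, s (phi P d) = s d) {t : P.FSt} (h : t.1.n.1 = 2) :
    fr k s t.stE = fr k s t := by
  unfold fr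
  rw [stE_n', nr_stE hs h]

lemma fc_stN (hm : ∀ d, m (rN P d) = m d) {t : P.FSt} (h : t.1.e.1 = 0) :
    fc k m t.stN = fc k m t := by
  unfold fc
  rw [FSt.stN_e, nc_stN hm h]

variable (hs : ∀ d, s (phi P d) = s d) (hsr : ∀ d, s (r2D P d) = s d)
  (hm : ∀ d, m (rN P d) = m d) (hmr : ∀ d, m (r2D P d) = m d)
  (hsk : ∀ d, s d ≤ k) (hmk : ∀ d, m d ≤ k)

include hs hsr in
lemma nr_r2 (t : P.FSt) : nr s t.r2 = nr s t := by
  unfold nr
  have : t.r2.1.d = t.1.d := rfl
  rw [this, ex_r2 (π := pE) hs hsr (fun s t h => r2_same P h)]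

include hm hmr in
lemma nc_r2 (t : P.FSt) : nc m t.r2 = nc m t := by
  unfold nc
  have : t.r2.1.d = t.1.d := rfl
  rw [this, ex_r2 (π := pN) hm hmr same_N_r2]

include hsk in
lemma nr_le (t : P.FSt) : nr s t ≤ k := by
  unfold nr
  split_ifs
  · exact Nat.zero_le _
  · exact ex_le hsk _

include hmk in
lemma nc_le (t : P.FSt) : nc m t ≤ k := by
  unfold nc
  split_ifs
  · exact Nat.zero_le _
  · exact ex_le hmk _

include hsk in
lemma fr_le (t : P.FSt) : fr k s t + nr s t ≤ k := by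
  have := nr_le hsk t
  unfold fr
  split_ifs <;> omega

include hmk in
lemma fc_le (t : P.FSt) : fc k m t + nc m t ≤ k := by
  have := nc_le hmk t
  unfold fc
  split_ifs <;> omega

include hs hsr hsk in
lemma fr_r2 {t : P.FSt} (h : t.1.n.1 = 2) : fr k s t.r2 = k - nr s t - fr k s t := by
  have h1 := nr_r2 hs hsr t
  have h2 := nr_le hsk t
  have key : ∀ w : Dir, w.1 = 2 → (w = (2, true) ∧ opp w ≠ (2, true)) ∨
      (w ≠ (2, true) ∧ opp w = (2, true)) := by decide
  unfold fr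
  rw [r2_n', h1]
  rcases key _ h with ⟨a, b⟩ | ⟨a, b⟩
  · rw [if_neg b, if_pos a]; omega
  · rw [if_pos b, if_neg a]; omega

include hm hmr hmk in
lemma fc_r2 {t : P.FSt} (h : t.1.e.1 = 0) : fc k m t.r2 = k - nc m t - fc k m t := by
  have h1 := nc_r2 hm hmr t
  have h2 := nc_le hmk t
  have key : ∀ w : Dir, w.1 = 0 → (w = (0, true) ∧ opp w ≠ (0, true)) ∨
      (w ≠ (0, true) ∧ opp w = (0, true)) := by decide
  unfold fc
  rw [show t.r2.1.e = opp t.1.e from rfl, h1]
  rcases key _ h with ⟨a, b⟩ | ⟨a, b⟩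
  · rw [if_neg b, if_pos a]; omega
  · rw [if_pos b, if_neg a]; omega

variable (k) in
include hs hsr hm hmr hsk hmk in
/-- the table of the family -/
noncomputable def atab (hk : 0 < k) : ATab P k where
  hk := hk
  can := can
  can_facet := can_facet
  pr := fun t => gR (fr k s t) (nr s t)
  la := fun t => gC (fc k m t) (nc m t)
  ok := fun t _ => G_ok _ _ _ _ _
  pr_rot := fun t ht x y hx hy => by
    by_cases h : t.1.d.1 = 2
    · have h1 : nr s t = 0 := by unfold nr; rw [if_pos h]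
      have h2 : nr s t.r2 = 0 := by rw [nr_r2 hs hsr, h1]
      rw [h1, h2, gR_false, gR_false] <;> omega
    · have h3 := act_wall ht h
      have h4 := nr_r2 hs hsr t
      have h5 := fr_le hsk t
      rw [fr_r2 hs hsr hsk h3, h4]
      unfold gR
      congr 1
      apply propext
      omega
  la_rot := fun t ht x y hx hy => by
    by_cases h : t.1.d.1 = 0
    · have h1 : nc m t = 0 := by unfold nc; rw [if_pos h]
      have h2 : nc m t.r2 = 0 := by rw [nc_r2 hm hmr, h1]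
      rw [h1, h2, gC_z, gC_z] <;> omega
    · have h3 := act_line ht h
      have h4 := nc_r2 hm hmr t
      have h5 := fc_le hmk t
      rw [fc_r2 hm hmr hmk h3, h4]
      unfold gC
      congr 1
      apply propext
      omega
  gE := fun t ht ht' y hy => by
    by_cases h : t.1.d.1 = 2
    · have h1 : nr s t = 0 := by unfold nr; rw [if_pos h]
      have h2 : nr s t.stE = 0 := by
        unfold nr
        rw [if_pos]
        have h3 : t.1.n.1 = 1 := by
          have h4 := act_line ht (by rw [h]; decide)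
          have h5 := dn_axis t
          rw [h, h4] at h5
          have key : ∀ a : Fin 3, a ≠ 2 ∧ a ≠ 0 → a = 1 := by decide
          exact key _ h5
        have h6 : t.stE.1.n.1 = 1 := by rw [stE_n', h3]
        by_contra h7
        have := act_wall ht' h7
        rw [h6] at this
        exact absurd this (by decide)
      rw [h1, h2, gR_false, gR_false] <;> omega
    · have h3 := act_wall ht h
      rw [nr_stE hs h3, fr_stE hs h3]
      rfl
  gE' := fun t ht ht' y hy => by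
    by_cases h : t.1.d.1 = 2
    · have h1 : nr s t = 0 := by unfold nr; rw [if_pos h]
      rw [h1, gR_false]; omega
    · exfalso
      apply ht'
      apply wall_act
      rw [stE_n']
      exact act_wall ht h
  gN := fun t ht ht' x hx => by
    by_cases h : t.1.d.1 = 0
    · have h1 : nc m t = 0 := by unfold nc; rw [if_pos h]
      have h2 : nc m t.stN = 0 := by
        unfold nc
        rw [if_pos]
        have h3 : t.1.e.1 = 1 := by
          have h4 : t.1.n.1 = 2 := act_wall ht (by rw [h]; decide)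
          have h5 := dn_axis t
          have h6 := de_axis t
          rw [h, h4] at h5
          rw [h] at h6
          have key : ∀ a : Fin 3, (2 : Fin 3) ≠ a → 0 ≠ a → a = 1 := by decide
          exact key _ h5.2 h6
        by_contra h7
        have h8 := act_line ht' h7
        rw [FSt.stN_e, h3] at h8
        exact absurd h8 (by decide)
      rw [h1, h2, gC_z, gC_z] <;> omega
    · have h3 := act_line ht h
      rw [nc_stN hm h3, fc_stN hm h3]
      rfl
  gN' := fun t ht ht' x hx => by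
    by_cases h : t.1.d.1 = 0
    · have h1 : nc m t = 0 := by unfold nc; rw [if_pos h]
      rw [h1, gC_z]; omega
    · exfalso
      apply ht'
      apply line_act
      rw [FSt.stN_e]
      exact act_line ht h

end Table

end Pool.Agent.MP42.NE
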