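import Pool.Agent.Helper55.UNF.Layout
import Pool.Agent.Helper55.UNF.Pat

/-!
# Walks of boxes

A walk on the surface that visits whole facets by steps to the east, north and south, without
turning back inside a column, such that the parts of the refinement owned by the visits are
connected and consecutive ones are glued, gives an edge unfolding of the refinement.
-/

set_option autoImplicit false

namespace Pool.Agent.MP42.NE

open Pool.Agent.Helper55.UNF Pool.Agent.Helper55.UNF.GridSolid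

variable {P : GridSolid} {K : ℕ}

/-- the length of a part of a refinement -/
lemma len_refine (hk : 0 < K) (c : Fin 3 → ℤ) (w : Dir) :
    (P.refine K hk).len c w = P.len (fun a => c a / (K : ℤ)) w / K := by
  have hk' : (0 : ℤ) < K := by exact_mod_cast hk
  have hkR : (0 : ℝ) < K := by exact_mod_cast hk
  have h0 := Int.emod_nonneg (c w.1) hk'.ne'
  have h1 := Int.emod_lt_of_pos (c w.1) hk'
  have h2 := Int.mul_ediv_add_emod (c w.1) K
  show (P.crd w.1 ((c w.1 + 1) / (K : ℤ)) + (((c w.1 + 1) % (K : ℤ) : ℤ) : ℝ) / (K : ℝ) *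
    (P.crd w.1 ((c w.1 + 1) / (K : ℤ) + 1) - P.crd w.1 ((c w.1 + 1) / (K : ℤ)))) -
    (P.crd w.1 (c w.1 / (K : ℤ)) + ((c w.1 % (K : ℤ) : ℤ) : ℝ) / (K : ℝ) *
    (P.crd w.1 (c w.1 / (K : ℤ) + 1) - P.crd w.1 (c w.1 / (K : ℤ)))) =
    (P.crd w.1 (c w.1 / (K : ℤ) + 1) - P.crd w.1 (c w.1 / (K : ℤ))) / K
  set q := c w.1 / (K : ℤ) with hq
  set r := c w.1 % (K : ℤ) with hr
  by_cases h : r + 1 < K
  · have e1 : (c w.1 + 1) / (K : ℤ) = q := by
      rw [← h2, show (K : ℤ) * q + r + 1 = (r + 1) + K * q by ring,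
        Int.add_mul_ediv_left _ _ hk'.ne', Int.ediv_eq_zero_of_lt (by omega) h, zero_add]
    have e2 : (c w.1 + 1) % (K : ℤ) = r + 1 := by
      have h3 := Int.mul_ediv_add_emod (c w.1 + 1) K
      rw [e1] at h3
      omega
    rw [e1, e2]
    push_cast
    field_simp
    ring
  · have hr1 : r = K - 1 := by omega
    have e1 : (c w.1 + 1) / (K : ℤ) = q + 1 := by
      rw [← h2, show (K : ℤ) * q + r + 1 = K * (q + 1) by rw [hr1]; ring,
        Int.mul_ediv_cancel_left _ hk'.ne']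
    have e2 : (c w.1 + 1) % (K : ℤ) = 0 := by
      have h3 := Int.mul_ediv_add_emod (c w.1 + 1) K
      rw [e1] at h3
      have h4 : (K : ℤ) * (q + 1) = K * q + K := by ring
      omega
    rw [e1, e2, hr1]
    push_cast
    field_simp
    ring

/-- the three kinds of steps -/
inductive Mv
  | E
  | N
  | S

/-- the step of a kind -/
def Mv.ap : Mv → P.FSt → P.FSt
  | Mv.E, s => s.stE
  | Mv.N, s => s.stN
  | Mv.S, s => pN.symm s

/-- columns -/
def Mv.dx : Mv → ℕ
  | Mv.E => 1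
  | Mv.N => 0
  | Mv.S => 0

/-- height of a facet -/
noncomputable def hgN (s : P.FSt) : ℝ := P.len s.1.c s.1.n

/-- width of a facet -/
noncomputable def wdE (s : P.FSt) : ℝ := P.len s.1.c s.1.e

/-- change of height -/
noncomputable def Mv.dy (s t : P.FSt) : Mv → ℝ
  | Mv.E => 0
  | Mv.N => hgN s
  | Mv.S => - hgN t

lemma wdE_stN (s : P.FSt) : wdE s.stN = wdE s := by
  unfold wdE
  rw [FSt.stN_e]
  exact P.len_congr (FSt.stN_c s)

lemma stE_nn (s : P.FSt) : s.stE.1.n = s.1.n := P.stepE_n s.1 s.2.2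

lemma hgN_stE (s : P.FSt) : hgN s.stE = hgN s := by
  unfold hgN
  rw [stE_nn]
  apply P.len_congr
  exact P.stepE_third s.1 (cross_axis_left _ _ s.2.2) (cross_axis_right _ _ s.2.2)

lemma stN_pN_symm (s : P.FSt) : (pN.symm s).stN = s := pN.apply_symm_apply s

lemma wdE_ap (m : Mv) (s : P.FSt) (h : m.dx = 0) : wdE (m.ap s) = wdE s := by
  cases m with
  | E => exact absurd h (by decide)
  | N => exact wdE_stN s
  | S =>
    have h1 := wdE_stN (pN.symm s)
    rw [stN_pN_symm] at h1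
    exact h1.symm

/-- A walk of boxes with owners of the facets of the refinement. -/
structure BoxWalk (P : GridSolid) (K : ℕ) (hK : 0 < K) where
  n : ℕ
  pos : 0 < n
  w : ℕ → P.FSt
  m : ℕ → Mv
  step : ∀ i, i + 1 < n → (m i).ap (w i) = w (i + 1)
  turn : ∀ i, i + 2 < n → ¬ (m i = Mv.N ∧ m (i + 1) = Mv.S) ∧ ¬ (m i = Mv.S ∧ m (i + 1) = Mv.N)
  ow : (P.refine K hK).Facet → ℕ
  ow_lt : ∀ f, ow f < n
  ow_facet : ∀ f, co hK f = (w (ow f)).facet
  conn : ∀ f g, ow f = ow g → Relation.ReflTransGen (fun a b => ow a = ow f ∧ ow b = ow f ∧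
    ((ix K (w (ow f)).1.e b.1.1 = ix K (w (ow f)).1.e a.1.1 + 1 ∧
        ix K (w (ow f)).1.n b.1.1 = ix K (w (ow f)).1.n a.1.1) ∨
     (ix K (w (ow f)).1.e b.1.1 = ix K (w (ow f)).1.e a.1.1 ∧
        ix K (w (ow f)).1.n b.1.1 = ix K (w (ow f)).1.n a.1.1 + 1) ∨
     (ix K (w (ow f)).1.e a.1.1 = ix K (w (ow f)).1.e b.1.1 + 1 ∧
        ix K (w (ow f)).1.n a.1.1 = ix K (w (ow f)).1.n b.1.1) ∨
     (ix K (w (ow f)).1.e a.1.1 = ix K (w (ow f)).1.e b.1.1 ∧
        ix K (w (ow f)).1.n a.1.1 = ix K (w (ow f)).1.n b.1.1 + 1))) f g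
  glueE : ∀ i, i + 1 < n → m i = Mv.E → ∃ f g, ow f = i ∧ ow g = i + 1 ∧
    ix K (w i).1.e f.1.1 = K - 1 ∧ ix K (w (i + 1)).1.e g.1.1 = 0 ∧
    ix K (w (i + 1)).1.n g.1.1 = ix K (w i).1.n f.1.1
  glueN : ∀ i, i + 1 < n → m i = Mv.N → ∃ f g, ow f = i ∧ ow g = i + 1 ∧
    ix K (w i).1.n f.1.1 = K - 1 ∧ ix K (w (i + 1)).1.n g.1.1 = 0 ∧
    ix K (w (i + 1)).1.e g.1.1 = ix K (w i).1.e f.1.1
  glueS : ∀ i, i + 1 < n → m i = Mv.S → ∃ f g, ow f = i ∧ ow g = i + 1 ∧
    ix K (w i).1.n f.1.1 = 0 ∧ ix K (w (i + 1)).1.n g.1.1 = K - 1 ∧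
    ix K (w (i + 1)).1.e g.1.1 = ix K (w i).1.e f.1.1

namespace BoxWalk

variable {hK : 0 < K} (A : BoxWalk P K hK)

/-- the coarse column -/
def X : ℕ → ℕ
  | 0 => 0
  | i + 1 => X i + (A.m i).dx

/-- the height of the south side of a box -/
noncomputable def Y : ℕ → ℝ
  | 0 => 0
  | i + 1 => Y i + (A.m i).dy (A.w i) (A.w (i + 1))

lemma X_succ (i : ℕ) : A.X (i + 1) = A.X i + (A.m i).dx := rfl
lemma Y_succ (i : ℕ) : A.Y (i + 1) = A.Y i + (A.m i).dy (A.w i) (A.w (i + 1)) := rfl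

lemma X_mono : Monotone A.X := monotone_nat_of_le_succ fun i => by rw [X_succ]; omega

lemma wd_eq {i j : ℕ} (hij : i ≤ j) (hj : j < A.n) (h : A.X i = A.X j) :
    wdE (A.w i) = wdE (A.w j) := by
  induction j, hij using Nat.le_induction with
  | base => rfl
  | succ j hij ih =>
    have h1 := A.X_mono hij
    have h2 := A.X_succ j
    have h3 : (A.m j).dx = 0 := by omega
    rw [← A.step j hj, wdE_ap _ _ h3]
    exact ih (by omega) (by omega)

lemma wd_eq' {i j : ℕ} (hi : i < A.n) (hj : j < A.n) (h : A.X i = A.X j) :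
    wdE (A.w i) = wdE (A.w j) := by
  rcases le_total i j with h1 | h1
  · exact A.wd_eq h1 hj h
  · exact (A.wd_eq h1 hi h.symm).symm

/-- boxes of a column are stacked -/
lemma stack {i j : ℕ} (hij : i < j) (hj : j < A.n) (h : A.X i = A.X j) :
    (A.m (j - 1) = Mv.N ∧ A.Y i + hgN (A.w i) ≤ A.Y j) ∨
    (A.m (j - 1) = Mv.S ∧ A.Y j + hgN (A.w j) ≤ A.Y i) := by
  induction j, (show i + 1 ≤ j from hij) using Nat.le_induction with
  | base =>
    have h2 := A.X_succ i
    have h3 : (A.m i).dx = 0 := by omega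
    have h4 := A.Y_succ i
    show (A.m i = Mv.N ∧ _) ∨ (A.m i = Mv.S ∧ _)
    cases hm : A.m i with
    | E => rw [hm] at h3; exact absurd h3 (by decide)
    | N =>
      left
      rw [hm] at h4
      refine ⟨rfl, ?_⟩
      rw [h4]; exact le_rfl
    | S =>
      right
      rw [hm] at h4
      refine ⟨rfl, ?_⟩
      have : Mv.dy (A.w i) (A.w (i + 1)) Mv.S = - hgN (A.w (i + 1)) := rfl
      rw [h4, this]; linarith
  | succ j hij' ih =>
    have h1 := A.X_mono (show i ≤ j by omega)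
    have h2 := A.X_succ j
    have h3 : (A.m j).dx = 0 := by omega
    have h4 := A.Y_succ j
    have h5 := ih (by omega) (by omega) (by omega)
    have h6 := A.turn (j - 1) (by omega)
    rw [show j - 1 + 1 = j by omega] at h6
    have hpos : ∀ s : P.FSt, 0 < hgN s := fun s => P.len_pos _ _
    show (A.m j = Mv.N ∧ _) ∨ (A.m j = Mv.S ∧ _)
    cases hm : A.m j with
    | E => rw [hm] at h3; exact absurd h3 (by decide)
    | N =>
      left
      rw [hm] at h4
      have e1 : Mv.dy (A.w j) (A.w (j + 1)) Mv.N = hgN (A.w j) := rfl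
      rcases h5 with ⟨-, h7⟩ | ⟨h7, -⟩
      · refine ⟨rfl, ?_⟩
        have := hpos (A.w j)
        rw [h4, e1]; linarith
      · exact absurd ⟨h7, hm⟩ h6.2
    | S =>
      right
      rw [hm] at h4
      have e1 : Mv.dy (A.w j) (A.w (j + 1)) Mv.S = - hgN (A.w (j + 1)) := rfl
      rcases h5 with ⟨h7, -⟩ | ⟨-, h7⟩
      · exact absurd ⟨h7, hm⟩ h6.1
      · refine ⟨rfl, ?_⟩
        have := hpos (A.w j)
        rw [h4, e1]; linarith

open Classical in
/-- the width of a coarse column -/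
noncomputable def cw (x : ℕ) : ℝ := if h : ∃ i, i < A.n ∧ A.X i = x then wdE (A.w (choose h)) else 0

lemma cw_nonneg (x : ℕ) : 0 ≤ A.cw x := by
  unfold cw
  split_ifs
  · exact (P.len_pos _ _).le
  · exact le_rfl

lemma cw_eq {i : ℕ} (hi : i < A.n) : A.cw (A.X i) = wdE (A.w i) := by
  have h : ∃ j, j < A.n ∧ A.X j = A.X i := ⟨i, hi, rfl⟩
  unfold cw
  rw [dif_pos h]
  have h1 := Classical.choose_spec h
  exact A.wd_eq' h1.1 hi h1.2

/-- the frame of a facet of the refinement -/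
def fr (f : (P.refine K hK).Facet) : P.FSt := A.w (A.ow f)

/-- coordinates -/
def cx (f : (P.refine K hK).Facet) : ℕ := ix K (A.fr f).1.e f.1.1

/-- coordinates -/
def cy (f : (P.refine K hK).Facet) : ℕ := ix K (A.fr f).1.n f.1.1

lemma cx_lt (f : (P.refine K hK).Facet) : A.cx f < K := ix_lt hK _ _
lemma cy_lt (f : (P.refine K hK).Facet) : A.cy f < K := ix_lt hK _ _

lemma sub_c (f : (P.refine K hK).Facet) :
    (sub hK (A.fr f) (A.cx f) (A.cy f) (A.cx_lt f) (A.cy_lt f)).facet = f :=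
  sub_ix hK (A.fr f) f (A.ow_facet f)

lemma fr_d (f : (P.refine K hK).Facet) : (A.fr f).1.d = f.1.2 :=
  (congrArg (fun g : P.Facet => g.1.2) (A.ow_facet f)).symm

lemma fr_c (f : (P.refine K hK).Facet) : (A.fr f).1.c = fun a => f.1.1 a / (K : ℤ) :=
  (congrArg (fun g : P.Facet => g.1.1) (A.ow_facet f)).symm

lemma st_eq (f : (P.refine K hK).Facet) : (P.refine K hK).st f (A.fr f).1.e =
    (sub hK (A.fr f) (A.cx f) (A.cy f) (A.cx_lt f) (A.cy_lt f)).1 := by
  have h := A.sub_c f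
  have h1 : subC K (A.fr f).1 (A.cx f) (A.cy f) = f.1.1 :=
    congrArg (fun g : (P.refine K hK).Facet => g.1.1) h
  show (⟨f.1.1, f.1.2, (A.fr f).1.e⟩ : St) = ⟨subC K (A.fr f).1 (A.cx f) (A.cy f),
    (A.fr f).1.d, (A.fr f).1.e⟩
  rw [h1, A.fr_d]

lemma st_n (f : (P.refine K hK).Facet) :
    ((P.refine K hK).st f (A.fr f).1.e).n = (A.fr f).1.n := by
  show cross f.1.2 (A.fr f).1.e = cross (A.fr f).1.d (A.fr f).1.e
  rw [A.fr_d]

lemma len_n (f : (P.refine K hK).Facet) :
    (P.refine K hK).len f.1.1 ((P.refine K hK).st f (A.fr f).1.e).n = hgN (A.fr f) / K := by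
  rw [st_n, len_refine, ← A.fr_c]
  rfl

lemma len_e (f : (P.refine K hK).Facet) :
    (P.refine K hK).len f.1.1 (A.fr f).1.e = wdE (A.fr f) / K := by
  rw [len_refine, ← A.fr_c]
  rfl

lemma eq_of {f g : (P.refine K hK).Facet} (h : A.ow f = A.ow g) (h1 : A.cx f = A.cx g)
    (h2 : A.cy f = A.cy g) : f = g := by
  rw [← A.sub_c f, ← A.sub_c g]
  have h3 : A.fr f = A.fr g := by unfold fr; rw [h]
  exact congrArg FSt.facet (sub_congr (hk := hK) _ _ h3 h1 h2)

/-- the placement of a walk of boxes -/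
noncomputable def placement : (P.refine K hK).Placement where
  e := fun f => (A.fr f).1.e
  perp := fun f => by
    have := (A.fr f).2.2
    rw [fr_d] at this
    exact this
  col := fun f => ((K * A.X (A.ow f) + A.cx f : ℕ) : ℤ)
  x0 := fun z => ∑ j ∈ Finset.range z.toNat, A.cw (j / K) / K
  x0_mono := by
    intro j k hjk
    apply Finset.sum_le_sum_of_subset_of_nonneg
    · intro x hx
      simp only [Finset.mem_range] at hx ⊢
      have := Int.toNat_le_toNat hjk
      omega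
    · intro i _ _
      exact div_nonneg (A.cw_nonneg _) (Nat.cast_nonneg _)
  y := fun f => A.Y (A.ow f) + A.cy f * (hgN (A.fr f) / K)
  width := fun f => by
    have h1 : (((K * A.X (A.ow f) + A.cx f : ℕ) : ℤ) + 1).toNat =
      (K * A.X (A.ow f) + A.cx f) + 1 := by omega
    have h2 : (((K * A.X (A.ow f) + A.cx f : ℕ) : ℤ)).toNat = K * A.X (A.ow f) + A.cx f := by
      omega
    rw [h1, h2, Finset.sum_range_succ]
    congr 1
    rw [len_e, Nat.mul_add_div hK, Nat.div_eq_of_lt (A.cx_lt f), add_zero,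
      A.cw_eq (A.ow_lt f)]
    rfl
  disj := by
    intro f g hfg hcol
    have hcol' : K * A.X (A.ow f) + A.cx f = K * A.X (A.ow g) + A.cx g := by exact_mod_cast hcol
    have hx1 := A.cx_lt f
    have hx2 := A.cx_lt g
    have hX : A.X (A.ow f) = A.X (A.ow g) := by
      have e1 := congrArg (· / K) hcol'
      simp only [Nat.mul_add_div hK, Nat.div_eq_of_lt hx1, Nat.div_eq_of_lt hx2, add_zero] at e1
      exact e1
    have hx : A.cx f = A.cx g := by
      rw [hX] at hcol'; omega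
    rw [len_n, len_n]
    have hKR : (0 : ℝ) < K := by exact_mod_cast hK
    have hpos : ∀ s : P.FSt, 0 < hgN s := fun s => P.len_pos _ _
    -- bounds inside a box
    have hlow : ∀ f, A.Y (A.ow f) ≤ A.Y (A.ow f) + A.cy f * (hgN (A.fr f) / K) := by
      intro f
      have : 0 ≤ (A.cy f : ℝ) * (hgN (A.fr f) / K) :=
        mul_nonneg (Nat.cast_nonneg _) (div_nonneg (hpos _).le hKR.le)
      linarith
    have hhigh : ∀ f, A.Y (A.ow f) + A.cy f * (hgN (A.fr f) / K) + hgN (A.fr f) / K ≤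
        A.Y (A.ow f) + hgN (A.fr f) := by
      intro f
      have h1 : ((A.cy f : ℝ) + 1) ≤ K := by exact_mod_cast A.cy_lt f
      have h2 : ((A.cy f : ℝ) + 1) * (hgN (A.fr f) / K) ≤ K * (hgN (A.fr f) / K) :=
        mul_le_mul_of_nonneg_right h1 (div_nonneg (hpos _).le hKR.le)
      have h3 : (K : ℝ) * (hgN (A.fr f) / K) = hgN (A.fr f) := by field_simp
      linarith
    have hlf := hlow f
    have hlg := hlow g
    have hhf := hhigh f
    have hhg := hhigh g
    rcases lt_trichotomy (A.ow f) (A.ow g) with h | h | h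
    · rcases A.stack h (A.ow_lt g) hX with ⟨-, h1⟩ | ⟨-, h1⟩
      · left
        have h2 : A.Y (A.ow f) + hgN (A.fr f) ≤ A.Y (A.ow g) := h1
        linarith
      · right
        have h2 : A.Y (A.ow g) + hgN (A.fr g) ≤ A.Y (A.ow f) := h1
        linarith
    · have hy : A.cy f ≠ A.cy g := fun hy => hfg (A.eq_of h hx hy)
      have hfr : A.fr f = A.fr g := by unfold fr; rw [h]
      rw [h, hfr]
      have hq : 0 ≤ hgN (A.fr g) / K := div_nonneg (hpos _).le hKR.le
      rcases lt_or_gt_of_ne hy with h1 | h1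
      · left
        have h2 : ((A.cy f : ℝ) + 1) ≤ A.cy g := by exact_mod_cast h1
        have h3 := mul_le_mul_of_nonneg_right h2 hq
        linarith
      · right
        have h2 : ((A.cy g : ℝ) + 1) ≤ A.cy f := by exact_mod_cast h1
        have h3 := mul_le_mul_of_nonneg_right h2 hq
        linarith
    · rcases A.stack h (A.ow_lt f) hX.symm with ⟨-, h1⟩ | ⟨-, h1⟩
      · right
        have h2 : A.Y (A.ow g) + hgN (A.fr g) ≤ A.Y (A.ow f) := h1
        linarith
      · left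
        have h2 : A.Y (A.ow f) + hgN (A.fr f) ≤ A.Y (A.ow g) := h1
        linarith

lemma adj_E {f g : (P.refine K hK).Facet} (h : A.placement.RelE f g) :
    A.placement.graph.Adj f g := ⟨(A.placement.relE_adj h).1, Or.inl h⟩

lemma adj_N {f g : (P.refine K hK).Facet} (h : A.placement.RelN f g) :
    A.placement.graph.Adj f g := ⟨(A.placement.relN_adj h).1, Or.inr (Or.inl h)⟩

lemma relE_in {f g : (P.refine K hK).Facet} (h : A.ow f = A.ow g) (h1 : A.cx g = A.cx f + 1)
    (h2 : A.cy g = A.cy f) : A.placement.RelE f g := by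
  have hfr : A.fr f = A.fr g := by unfold fr; rw [h]
  have hx := A.cx_lt g
  refine ⟨?_, ?_, ?_⟩
  · show ((P.refine K hK).st f (A.fr f).1.e).stepE (P.refine K hK) =
      (P.refine K hK).st g (A.fr g).1.e
    rw [A.st_eq, A.st_eq]
    have h3 := sub_stE_mid (hk := hK) (A.fr f) (x := A.cx f) (y := A.cy f) (by omega) (A.cy_lt f)
    have h4 := congrArg Subtype.val h3
    refine Eq.trans h4 ?_
    exact congrArg Subtype.val (sub_congr (hk := hK) _ _ hfr h1.symm h2.symm)
  · show ((K * A.X (A.ow g) + A.cx g : ℕ) : ℤ) = ((K * A.X (A.ow f) + A.cx f : ℕ) : ℤ) + 1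
    rw [← h, h1]; push_cast; ring
  · show A.Y (A.ow g) + A.cy g * (hgN (A.fr g) / K) = A.Y (A.ow f) + A.cy f * (hgN (A.fr f) / K)
    rw [← h, h2, ← hfr]

lemma relN_in {f g : (P.refine K hK).Facet} (h : A.ow f = A.ow g) (h1 : A.cx g = A.cx f)
    (h2 : A.cy g = A.cy f + 1) : A.placement.RelN f g := by
  have hfr : A.fr f = A.fr g := by unfold fr; rw [h]
  have hy := A.cy_lt g
  refine ⟨?_, ?_, ?_⟩
  · show ((P.refine K hK).st f (A.fr f).1.e).stepN (P.refine K hK) =
      (P.refine K hK).st g (A.fr g).1.e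
    rw [A.st_eq, A.st_eq]
    have h3 := sub_stN_mid (hk := hK) (A.fr f) (x := A.cx f) (y := A.cy f) (A.cx_lt f) (by omega)
    have h4 := congrArg Subtype.val h3
    refine Eq.trans h4 ?_
    exact congrArg Subtype.val (sub_congr (hk := hK) _ _ hfr h1.symm h2.symm)
  · show ((K * A.X (A.ow g) + A.cx g : ℕ) : ℤ) = ((K * A.X (A.ow f) + A.cx f : ℕ) : ℤ)
    rw [← h, h1]
  · show A.Y (A.ow g) + A.cy g * (hgN (A.fr g) / K) = A.Y (A.ow f) + A.cy f * (hgN (A.fr f) / K) +
      (P.refine K hK).len f.1.1 ((P.refine K hK).st f (A.fr f).1.e).n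
    rw [len_n, ← h, h2, ← hfr]
    push_cast
    ring

lemma relE_gl {f g : (P.refine K hK).Facet} (h : A.ow g = A.ow f + 1)
    (hE : A.m (A.ow f) = Mv.E) (h1 : A.cx f = K - 1) (h0 : A.cx g = 0)
    (h2 : A.cy g = A.cy f) : A.placement.RelE f g := by
  have hlt := A.ow_lt g
  have hst := A.step (A.ow f) (by omega)
  rw [hE] at hst
  have hst' : (A.fr f).stE = A.fr g := by
    unfold fr; rw [h]; exact hst
  refine ⟨?_, ?_, ?_⟩
  · show ((P.refine K hK).st f (A.fr f).1.e).stepE (P.refine K hK) =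
      (P.refine K hK).st g (A.fr g).1.e
    rw [A.st_eq, A.st_eq]
    have h3 := sub_stE_end (hk := hK) (A.fr f) (y := A.cy f) (A.cy_lt f)
    have h5 := sub_congr (hk := hK) (A.cx_lt f) (A.cy_lt f) (rfl : A.fr f = A.fr f) h1
      (rfl : A.cy f = A.cy f)
    rw [h5]
    have h4 := congrArg Subtype.val h3
    refine Eq.trans h4 ?_
    exact congrArg Subtype.val (sub_congr (hk := hK) _ _ hst' h0.symm h2.symm)
  · show ((K * A.X (A.ow g) + A.cx g : ℕ) : ℤ) = ((K * A.X (A.ow f) + A.cx f : ℕ) : ℤ) + 1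
    have e1 : A.X (A.ow g) = A.X (A.ow f) + 1 := by
      rw [h, X_succ, hE]; rfl
    rw [e1, h0, h1]
    have : K * (A.X (A.ow f) + 1) + 0 = K * A.X (A.ow f) + (K - 1) + 1 := by
      rw [Nat.mul_add, Nat.mul_one]; omega
    rw [this]; push_cast; ring
  · show A.Y (A.ow g) + A.cy g * (hgN (A.fr g) / K) = A.Y (A.ow f) + A.cy f * (hgN (A.fr f) / K)
    have e1 : A.Y (A.ow g) = A.Y (A.ow f) := by
      rw [h, Y_succ, hE]
      show A.Y (A.ow f) + 0 = _
      rw [add_zero]
    rw [e1, h2, ← hst', hgN_stE]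

lemma relN_gl {f g : (P.refine K hK).Facet} (h : A.ow g = A.ow f + 1)
    (hE : A.m (A.ow f) = Mv.N) (h1 : A.cy f = K - 1) (h0 : A.cy g = 0)
    (h2 : A.cx g = A.cx f) : A.placement.RelN f g := by
  have hlt := A.ow_lt g
  have hst := A.step (A.ow f) (by omega)
  rw [hE] at hst
  have hst' : (A.fr f).stN = A.fr g := by
    unfold fr; rw [h]; exact hst
  refine ⟨?_, ?_, ?_⟩
  · show ((P.refine K hK).st f (A.fr f).1.e).stepN (P.refine K hK) =
      (P.refine K hK).st g (A.fr g).1.e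
    rw [A.st_eq, A.st_eq]
    have h3 := sub_stN_end (hk := hK) (A.fr f) (x := A.cx f) (A.cx_lt f)
    have h5 := sub_congr (hk := hK) (A.cx_lt f) (A.cy_lt f) (rfl : A.fr f = A.fr f)
      (rfl : A.cx f = A.cx f) h1
    rw [h5]
    have h4 := congrArg Subtype.val h3
    refine Eq.trans h4 ?_
    exact congrArg Subtype.val (sub_congr (hk := hK) _ _ hst' h2.symm h0.symm)
  · show ((K * A.X (A.ow g) + A.cx g : ℕ) : ℤ) = ((K * A.X (A.ow f) + A.cx f : ℕ) : ℤ)
    have e1 : A.X (A.ow g) = A.X (A.ow f) := by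
      rw [h, X_succ, hE]; rfl
    rw [e1, h2]
  · show A.Y (A.ow g) + A.cy g * (hgN (A.fr g) / K) = A.Y (A.ow f) + A.cy f * (hgN (A.fr f) / K) +
      (P.refine K hK).len f.1.1 ((P.refine K hK).st f (A.fr f).1.e).n
    have e1 : A.Y (A.ow g) = A.Y (A.ow f) + hgN (A.fr f) := by
      rw [h, Y_succ, hE]
      rfl
    have hKR : (K : ℝ) ≠ 0 := by exact_mod_cast hK.ne'
    rw [len_n, e1, h1, h0, Nat.cast_sub (by omega : 1 ≤ K)]
    push_cast
    field_simp
    ring

lemma relS_gl {f g : (P.refine K hK).Facet} (h : A.ow g = A.ow f + 1)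
    (hE : A.m (A.ow f) = Mv.S) (h1 : A.cy f = 0) (h0 : A.cy g = K - 1)
    (h2 : A.cx g = A.cx f) : A.placement.RelN g f := by
  have hlt := A.ow_lt g
  have hst := A.step (A.ow f) (by omega)
  rw [hE] at hst
  have hst0 : pN.symm (A.fr f) = A.fr g := by
    unfold fr; rw [h]; exact hst
  have hst' : (A.fr g).stN = A.fr f := by
    rw [← hst0, stN_pN_symm]
  refine ⟨?_, ?_, ?_⟩
  · show ((P.refine K hK).st g (A.fr g).1.e).stepN (P.refine K hK) =
      (P.refine K hK).st f (A.fr f).1.e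
    rw [A.st_eq, A.st_eq]
    have h3 := sub_stN_end (hk := hK) (A.fr g) (x := A.cx g) (A.cx_lt g)
    have h5 := sub_congr (hk := hK) (A.cx_lt g) (A.cy_lt g) (rfl : A.fr g = A.fr g)
      (rfl : A.cx g = A.cx g) h0
    rw [h5]
    have h4 := congrArg Subtype.val h3
    refine Eq.trans h4 ?_
    exact congrArg Subtype.val (sub_congr (hk := hK) _ _ hst' h2 h1.symm)
  · show ((K * A.X (A.ow f) + A.cx f : ℕ) : ℤ) = ((K * A.X (A.ow g) + A.cx g : ℕ) : ℤ)
    have e1 : A.X (A.ow g) = A.X (A.ow f) := by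
      rw [h, X_succ, hE]; rfl
    rw [e1, h2]
  · show A.Y (A.ow f) + A.cy f * (hgN (A.fr f) / K) = A.Y (A.ow g) + A.cy g * (hgN (A.fr g) / K) +
      (P.refine K hK).len g.1.1 ((P.refine K hK).st g (A.fr g).1.e).n
    have e1 : A.Y (A.ow g) = A.Y (A.ow f) - hgN (A.fr g) := by
      have : A.fr g = A.w (A.ow f + 1) := by unfold fr; rw [h]
      rw [this, h, Y_succ, hE]
      show A.Y (A.ow f) + - hgN (A.w (A.ow f + 1)) = _
      ring
    have hKR : (K : ℝ) ≠ 0 := by exact_mod_cast hK.ne'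
    rw [len_n, e1, h1, h0, Nat.cast_sub (by omega : 1 ≤ K)]
    push_cast
    field_simp
    ring

lemma reach_in {f g : (P.refine K hK).Facet} (h : A.ow f = A.ow g) :
    A.placement.graph.Reachable f g := by
  have key := A.conn f g h
  clear h
  induction key with
  | refl => exact SimpleGraph.Reachable.refl _
  | @tail b c _ hbc ih =>
    obtain ⟨hb, hc, h1⟩ := hbc
    refine ih.trans ?_
    have hbc' : A.ow b = A.ow c := hb.trans hc.symm
    have fb : A.fr b = A.w (A.ow f) := by unfold fr; rw [hb]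
    have fc : A.fr c = A.w (A.ow f) := by unfold fr; rw [hc]
    have x1 : A.cx b = ix K (A.w (A.ow f)).1.e b.1.1 := by unfold cx; rw [fb]
    have x2 : A.cx c = ix K (A.w (A.ow f)).1.e c.1.1 := by unfold cx; rw [fc]
    have y1 : A.cy b = ix K (A.w (A.ow f)).1.n b.1.1 := by unfold cy; rw [fb]
    have y2 : A.cy c = ix K (A.w (A.ow f)).1.n c.1.1 := by unfold cy; rw [fc]
    rw [← x1, ← x2, ← y1, ← y2] at h1
    rcases h1 with ⟨u, v⟩ | ⟨u, v⟩ | ⟨u, v⟩ | ⟨u, v⟩
    · exact (A.adj_E (A.relE_in hbc' u v)).reachable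
    · exact (A.adj_N (A.relN_in hbc' u v)).reachable
    · exact (A.adj_E (A.relE_in hbc'.symm u v)).symm.reachable
    · exact (A.adj_N (A.relN_in hbc'.symm u v)).symm.reachable

lemma reach_next {i : ℕ} (hi : i + 1 < A.n) : ∃ f g, A.ow f = i ∧ A.ow g = i + 1 ∧
    A.placement.graph.Reachable f g := by
  cases hm : A.m i with
  | E =>
    obtain ⟨f, g, rfl, h2, h3, h4, h5⟩ := A.glueE i hi hm
    refine ⟨f, g, rfl, h2, ?_⟩
    have fg : A.fr g = A.w (A.ow f + 1) := by unfold fr; rw [h2]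
    apply (A.adj_E (A.relE_gl h2 hm h3 _ _)).reachable
    · unfold cx; rw [fg]; exact h4
    · unfold cy; rw [fg]; exact h5
  | N =>
    obtain ⟨f, g, rfl, h2, h3, h4, h5⟩ := A.glueN i hi hm
    refine ⟨f, g, rfl, h2, ?_⟩
    have fg : A.fr g = A.w (A.ow f + 1) := by unfold fr; rw [h2]
    apply (A.adj_N (A.relN_gl h2 hm h3 _ _)).reachable
    · unfold cy; rw [fg]; exact h4
    · unfold cx; rw [fg]; exact h5
  | S =>
    obtain ⟨f, g, rfl, h2, h3, h4, h5⟩ := A.glueS i hi hm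
    refine ⟨f, g, rfl, h2, ?_⟩
    have fg : A.fr g = A.w (A.ow f + 1) := by unfold fr; rw [h2]
    apply (A.adj_N (A.relS_gl h2 hm h3 _ _)).symm.reachable
    · unfold cy; rw [fg]; exact h4
    · unfold cx; rw [fg]; exact h5

lemma reach_zero {f0 : (P.refine K hK).Facet} (h0 : A.ow f0 = 0) : ∀ i, i < A.n →
    ∀ f, A.ow f = i → A.placement.graph.Reachable f f0 := by
  intro i
  induction i with
  | zero => intro _ f hf; exact A.reach_in (hf.trans h0.symm)
  | succ i ih =>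
    intro hi f hf
    obtain ⟨a, b, ha, hb, hab⟩ := A.reach_next hi
    exact ((A.reach_in (hf.trans hb.symm)).trans hab.symm).trans (ih (by omega) a ha)

/-- **A walk of boxes gives an edge unfolding of the refinement.** -/
theorem hasEdgeUnfolding (A : BoxWalk P K hK) (hne : Nonempty P.Facet) :
    (P.refine K hK).HasEdgeUnfolding := by
  apply A.placement.hasEdgeUnfolding
  have h1 : ∃ f0 : (P.refine K hK).Facet, A.ow f0 = 0 := by
    by_cases h : 0 + 1 < A.n
    · obtain ⟨a, b, ha, -⟩ := A.reach_next h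
      exact ⟨a, ha⟩
    · obtain ⟨s⟩ : Nonempty (P.refine K hK).Facet := by
        obtain ⟨⟨⟨c, d⟩, hf⟩⟩ := hne
        let s : P.FSt := ⟨⟨c, d, (d.1 + 1, true)⟩, hf, by
          have key : ∀ a : Fin 3, a ≠ a + 1 := by decide
          exact key _⟩
        exact ⟨(sub hK s 0 0 hK hK).facet⟩
      exact ⟨s, by have := A.ow_lt s; omega⟩
  obtain ⟨f0, h0⟩ := h1
  have : Nonempty (P.refine K hK).Facet := ⟨f0⟩
  refine SimpleGraph.Connected.mk ?_
  intro f g
  exact (A.reach_zero h0 _ (A.ow_lt f) f rfl).trans (A.reach_zero h0 _ (A.ow_lt g) g rfl).symm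

end BoxWalk

end Pool.Agent.MP42.NE
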