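import Pool.Agent.MP42.NE.Lane2

/-!
# Disjoint chords of a square

Pairs of places of the boundary of a square that do not cross are joined by disjoint connected sets
of cells: every pair has a depth, and the set goes inwards to this depth and along the ring of this
depth.
-/

set_option autoImplicit false

namespace Pool.Agent.MP42.NE

open Pool.Agent.Helper55.UNF Pool.Agent.Helper55.UNF.GridSolid Relation

/-- the cell of depth `e` over the place `y` of side `q`; the sides are east, north, west, south and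
the places go counterclockwise -/
def Rx (Q q e y : ℕ) : ℕ × ℕ :=
  if q = 0 then (2 * Q - e, y) else if q = 1 then (2 * Q - y, 2 * Q - e)
  else if q = 2 then (e, 2 * Q - y) else (y, e)

lemma Rx0 (Q e y : ℕ) : Rx Q 0 e y = (2 * Q - e, y) := rfl
lemma Rx1 (Q e y : ℕ) : Rx Q 1 e y = (2 * Q - y, 2 * Q - e) := rfl
lemma Rx2 (Q e y : ℕ) : Rx Q 2 e y = (e, 2 * Q - y) := rfl
lemma Rx3 (Q e y : ℕ) : Rx Q 3 e y = (y, e) := rfl

/-- the cells of the chord from `z1` to `z2` of depth `d` -/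
def CD (Q z1 z2 d X Y : ℕ) : Prop :=
  (∃ q y, q < 4 ∧ d ≤ y ∧ y + d ≤ 2 * Q ∧ z1 ≤ q * (2 * Q + 1) + y ∧
    q * (2 * Q + 1) + y ≤ z2 ∧ Rx Q q d y = (X, Y)) ∨
  (∃ q y e, q < 4 ∧ e ≤ d ∧ y ≤ 2 * Q ∧ Rx Q q e y = (X, Y) ∧
    (q * (2 * Q + 1) + y = z1 ∨ q * (2 * Q + 1) + y = z2))

/-- a place that is not near a corner -/
def Gd (Q M z : ℕ) : Prop := ∃ q y, q < 4 ∧ z = q * (2 * Q + 1) + y ∧ M ≤ y ∧ y + M ≤ 2 * Q

section Geom

variable {Q M : ℕ}

lemma Gd.far {z : ℕ} (h : Gd Q M z) (c : ℕ) (hc : c ≤ 4) :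
    z + M < c * (2 * Q + 1) ∨ c * (2 * Q + 1) + M ≤ z := by
  obtain ⟨q, y, h1, h2, h3, h4⟩ := h
  subst h2
  interval_cases q <;> interval_cases c <;> omega

lemma Rx_lt {q e y : ℕ} (he : e ≤ 2 * Q) (hy : y ≤ 2 * Q) :
    (Rx Q q e y).1 < 2 * Q + 1 ∧ (Rx Q q e y).2 < 2 * Q + 1 := by
  unfold Rx
  split_ifs <;> simp only <;> omega

/-- equal cells -/
lemma Rx_inj {q e y q' e' y' : ℕ} (hM : M < Q) (hq : q < 4) (hq' : q' < 4) (he : e ≤ M)
    (he' : e' ≤ M) (h1 : e ≤ y) (h2 : y + e ≤ 2 * Q) (h1' : e' ≤ y') (h2' : y' + e' ≤ 2 * Q)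
    (h : Rx Q q e y = Rx Q q' e' y') :
    e = e' ∧ ((q * (2 * Q + 1) + y = q' * (2 * Q + 1) + y') ∨
      (∃ c, 1 ≤ c ∧ c ≤ 3 ∧ q * (2 * Q + 1) + y + e + 1 = c * (2 * Q + 1) ∧
        q' * (2 * Q + 1) + y' = c * (2 * Q + 1) + e) ∨
      (∃ c, 1 ≤ c ∧ c ≤ 3 ∧ q' * (2 * Q + 1) + y' + e + 1 = c * (2 * Q + 1) ∧
        q * (2 * Q + 1) + y = c * (2 * Q + 1) + e) ∨
      (q * (2 * Q + 1) + y = e ∧ q' * (2 * Q + 1) + y' + e + 1 = 4 * (2 * Q + 1)) ∨
      (q' * (2 * Q + 1) + y' = e ∧ q * (2 * Q + 1) + y + e + 1 = 4 * (2 * Q + 1))) := by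
  have hc : ∀ q : ℕ, q < 4 → q = 0 ∨ q = 1 ∨ q = 2 ∨ q = 3 := by omega
  rcases hc q hq with rfl | rfl | rfl | rfl <;> rcases hc q' hq' with rfl | rfl | rfl | rfl <;>
    simp only [Rx0, Rx1, Rx2, Rx3, Prod.mk.injEq] at h <;> obtain ⟨g1, g2⟩ := h
  · refine ⟨by omega, Or.inl (by omega)⟩
  · refine ⟨by omega, Or.inr (Or.inl ⟨1, by omega, by omega, by omega, by omega⟩)⟩
  · exfalso; omega
  · refine ⟨by omega, Or.inr (Or.inr (Or.inr (Or.inl ⟨by omega, by omega⟩)))⟩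
  · refine ⟨by omega, Or.inr (Or.inr (Or.inl ⟨1, by omega, by omega, by omega, by omega⟩))⟩
  · refine ⟨by omega, Or.inl (by omega)⟩
  · refine ⟨by omega, Or.inr (Or.inl ⟨2, by omega, by omega, by omega, by omega⟩)⟩
  · exfalso; omega
  · exfalso; omega
  · refine ⟨by omega, Or.inr (Or.inr (Or.inl ⟨2, by omega, by omega, by omega, by omega⟩))⟩
  · refine ⟨by omega, Or.inl (by omega)⟩
  · refine ⟨by omega, Or.inr (Or.inl ⟨3, by omega, by omega, by omega, by omega⟩)⟩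
  · refine ⟨by omega, Or.inr (Or.inr (Or.inr (Or.inr ⟨by omega, by omega⟩)))⟩
  · exfalso; omega
  · refine ⟨by omega, Or.inr (Or.inr (Or.inl ⟨3, by omega, by omega, by omega, by omega⟩))⟩
  · refine ⟨by omega, Or.inl (by omega)⟩

/-- the two kinds of cells of a chord, in a form good for arithmetic -/
lemma CD_form {z1 z2 d X Y : ℕ} (hd : d < M) (g1 : Gd Q M z1) (g2 : Gd Q M z2)
    (h : CD Q z1 z2 d X Y) : ∃ q y e, q < 4 ∧ e ≤ y ∧ y + e ≤ 2 * Q ∧ Rx Q q e y = (X, Y) ∧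
      e ≤ d ∧ ((e = d ∧ z1 ≤ q * (2 * Q + 1) + y ∧ q * (2 * Q + 1) + y ≤ z2) ∨
        (q * (2 * Q + 1) + y = z1 ∨ q * (2 * Q + 1) + y = z2)) := by
  have aux : ∀ {z q y : ℕ}, Gd Q M z → q < 4 → y ≤ 2 * Q → q * (2 * Q + 1) + y = z →
      M ≤ y ∧ y + M ≤ 2 * Q := by
    intro z q y g hq hy hz
    have f1 := g.far q (by omega)
    have f2 := g.far (q + 1) (by omega)
    have f3 : (q + 1) * (2 * Q + 1) = q * (2 * Q + 1) + (2 * Q + 1) := by ring
    rw [f3] at f2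
    omega
  rcases h with ⟨q, y, a1, a2, a3, a4, a5, a6⟩ | ⟨q, y, e, a1, a2, a3, a4, a5⟩
  · exact ⟨q, y, d, a1, a2, a3, a6, le_rfl, Or.inl ⟨rfl, a4, a5⟩⟩
  · have : M ≤ y ∧ y + M ≤ 2 * Q := by
      rcases a5 with h | h
      · exact aux g1 a1 a3 h
      · exact aux g2 a1 a3 h
    exact ⟨q, y, e, a1, by omega, by omega, a4, a2, Or.inr a5⟩

/-- chords that do not cross are disjoint -/
theorem CD_disj {z1 z2 d z1' z2' d' X Y : ℕ} (hM : M < Q) (hd : d < M) (hd' : d' < M)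
    (g1 : Gd Q M z1) (g2 : Gd Q M z2) (g1' : Gd Q M z1') (g2' : Gd Q M z2')
    (hz : z1 < z2) (hz' : z1' < z2')
    (hnc : z2 < z1' ∨ z2' < z1 ∨ (z1 < z1' ∧ z2' < z2 ∧ d' < d) ∨
      (z1' < z1 ∧ z2 < z2' ∧ d < d'))
    (h : CD Q z1 z2 d X Y) (h' : CD Q z1' z2' d' X Y) : False := by
  obtain ⟨q, y, e, a1, a2, a3, a4, a5, a6⟩ := CD_form hd g1 g2 h
  obtain ⟨q', y', e', b1, b2, b3, b4, b5, b6⟩ := CD_form hd' g1' g2' h'
  obtain ⟨he, hr⟩ := Rx_inj hM a1 b1 (by omega) (by omega) a2 a3 b2 b3 (a4.trans b4.symm)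
  subst he
  generalize q * (2 * Q + 1) + y = z at *
  generalize q' * (2 * Q + 1) + y' = z' at *
  rcases hr with hr | ⟨c, c1, c2, c3, c4⟩ | ⟨c, c1, c2, c3, c4⟩ | ⟨c3, c4⟩ | ⟨c3, c4⟩
  · omega
  · have f1 := g1.far c (by omega)
    have f2 := g2.far c (by omega)
    have f3 := g1'.far c (by omega)
    have f4 := g2'.far c (by omega)
    generalize c * (2 * Q + 1) = w at *
    omega
  · have f1 := g1.far c (by omega)
    have f2 := g2.far c (by omega)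
    have f3 := g1'.far c (by omega)
    have f4 := g2'.far c (by omega)
    generalize c * (2 * Q + 1) = w at *
    omega
  · have f1 := g1.far 0 (by omega)
    have f2 := g2.far 0 (by omega)
    have f3 := g1'.far 4 (by omega)
    have f4 := g2'.far 4 (by omega)
    omega
  · have f1 := g1.far 4 (by omega)
    have f2 := g2.far 4 (by omega)
    have f3 := g1'.far 0 (by omega)
    have f4 := g2'.far 0 (by omega)
    omega

/-! ## Connectedness -/

/-- two positions are neighbours -/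
def Adj (p q : ℕ × ℕ) : Prop := (q.1 = p.1 + 1 ∧ q.2 = p.2) ∨ (q.1 = p.1 ∧ q.2 = p.2 + 1) ∨
    (p.1 = q.1 + 1 ∧ q.2 = p.2) ∨ (p.1 = q.1 ∧ p.2 = q.2 + 1)

lemma Rx_adj {q e y : ℕ} (hy : y < 2 * Q) : Adj (Rx Q q e y) (Rx Q q e (y + 1)) := by
  unfold Rx Adj
  split_ifs <;> dsimp only <;> omega

lemma Rx_adj' {q e y : ℕ} (he : e < 2 * Q) : Adj (Rx Q q e y) (Rx Q q (e + 1) y) := by
  unfold Rx Adj
  split_ifs <;> dsimp only <;> omega

lemma Rx_corner {q d : ℕ} (hq : q + 1 < 4) (hd : d ≤ 2 * Q) :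
    Rx Q q d (2 * Q - d) = Rx Q (q + 1) d d := by
  have hc : q = 0 ∨ q = 1 ∨ q = 2 := by omega
  rcases hc with rfl | rfl | rfl
  · show (2 * Q - d, 2 * Q - d) = (2 * Q - d, 2 * Q - d)
    rfl
  · show (2 * Q - (2 * Q - d), 2 * Q - d) = (d, 2 * Q - d)
    rw [show 2 * Q - (2 * Q - d) = d by omega]
  · show (d, 2 * Q - (2 * Q - d)) = (d, d)
    rw [show 2 * Q - (2 * Q - d) = d by omega]

/-- along a side -/
lemma side_conn {z1 z2 d q : ℕ} (hq : q < 4) : ∀ (k y : ℕ), d ≤ y → y + k + d ≤ 2 * Q →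
    z1 ≤ q * (2 * Q + 1) + y → q * (2 * Q + 1) + (y + k) ≤ z2 →
    ReflTransGen (GS (CD Q z1 z2 d)) (Rx Q q d y) (Rx Q q d (y + k)) := by
  intro k
  induction k with
  | zero => intro y _ _ _ _; exact ReflTransGen.refl
  | succ k ih =>
    intro y h1 h2 h3 h4
    refine (ih y h1 (by omega) h3 (by omega)).tail ⟨?_, ?_, ?_⟩
    · exact Or.inl ⟨q, y + k, hq, by omega, by omega, by omega, by omega, rfl⟩
    · exact Or.inl ⟨q, y + (k + 1), hq, by omega, by omega, by omega, by omega, rfl⟩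
    · have := Rx_adj (Q := Q) (q := q) (e := d) (y := y + k) (by omega)
      rw [show y + (k + 1) = y + k + 1 by omega]
      exact this

/-- along the ring -/
lemma ring_conn {z1 z2 d q1 y1 : ℕ} (hz1 : z1 = q1 * (2 * Q + 1) + y1) (hy1 : d ≤ y1)
    (hy1' : y1 + d ≤ 2 * Q) : ∀ (m y : ℕ), q1 + m < 4 → d ≤ y → y + d ≤ 2 * Q →
    z1 ≤ (q1 + m) * (2 * Q + 1) + y → (q1 + m) * (2 * Q + 1) + y ≤ z2 →
    ReflTransGen (GS (CD Q z1 z2 d)) (Rx Q q1 d y1) (Rx Q (q1 + m) d y) := by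
  intro m
  induction m with
  | zero =>
    intro y h0 h1 h2 h3 h4
    rw [Nat.add_zero] at *
    have h5 := side_conn (Q := Q) (z1 := z1) (z2 := z2) (d := d) (q := q1) h0 (y - y1) y1 hy1
      (by omega) (by omega) (by rw [show y1 + (y - y1) = y by omega]; exact h4)
    rwa [show y1 + (y - y1) = y by omega] at h5
  | succ m ih =>
    intro y h0 h1 h2 h3 h4
    have e1 : (q1 + (m + 1)) * (2 * Q + 1) = (q1 + m) * (2 * Q + 1) + (2 * Q + 1) := by ring
    have e2 : (q1 + m) * (2 * Q + 1) = q1 * (2 * Q + 1) + m * (2 * Q + 1) := by ring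
    rw [e1] at h3 h4
    have h5 := ih (2 * Q - d) (by omega) (by omega) (by omega) (by omega) (by omega)
    rw [Rx_corner (by omega) (by omega)] at h5
    have h6 := side_conn (Q := Q) (z1 := z1) (z2 := z2) (d := d) (q := q1 + m + 1) (by omega)
      (y - d) d le_rfl (by omega)
      (by rw [show q1 + m + 1 = q1 + (m + 1) by omega, e1]; omega)
      (by rw [show q1 + m + 1 = q1 + (m + 1) by omega, e1, show d + (y - d) = y by omega]; exact h4)
    rw [show d + (y - d) = y by omega] at h6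
    exact h5.trans h6

/-- inwards -/
lemma leg_conn {z1 z2 d q y : ℕ} (hq : q < 4) (hd : d ≤ 2 * Q) (hy : y ≤ 2 * Q)
    (hz : q * (2 * Q + 1) + y = z1 ∨ q * (2 * Q + 1) + y = z2) : ∀ (k e : ℕ), e + k ≤ d →
    ReflTransGen (GS (CD Q z1 z2 d)) (Rx Q q e y) (Rx Q q (e + k) y) := by
  intro k
  induction k with
  | zero => intro e _; exact ReflTransGen.refl
  | succ k ih =>
    intro e he
    refine (ih e (by omega)).tail ⟨?_, ?_, ?_⟩
    · exact Or.inr ⟨q, y, e + k, hq, by omega, hy, rfl, hz⟩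
    · exact Or.inr ⟨q, y, e + (k + 1), hq, by omega, hy, rfl, hz⟩
    · have := Rx_adj' (Q := Q) (q := q) (e := e + k) (y := y) (by omega)
      rw [show e + (k + 1) = e + k + 1 by omega]
      exact this

/-- a chord is connected -/
theorem CD_conn {z1 z2 d : ℕ} (hd : d < M) (g1 : Gd Q M z1) (g2 : Gd Q M z2)
    (hz : z1 < z2) {p p' : ℕ × ℕ} (h : CD Q z1 z2 d p.1 p.2) (h' : CD Q z1 z2 d p'.1 p'.2) :
    ReflTransGen (GS (CD Q z1 z2 d)) p p' := by
  obtain ⟨q1, y1, a1, a2, a3, a4⟩ := g1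
  obtain ⟨q2, y2, b1, b2, b3, b4⟩ := g2
  have red : ∀ p : ℕ × ℕ, CD Q z1 z2 d p.1 p.2 →
      ReflTransGen (GS (CD Q z1 z2 d)) (Rx Q q1 d y1) p := by
    have ring : ∀ q y, q < 4 → d ≤ y → y + d ≤ 2 * Q → z1 ≤ q * (2 * Q + 1) + y →
        q * (2 * Q + 1) + y ≤ z2 →
        ReflTransGen (GS (CD Q z1 z2 d)) (Rx Q q1 d y1) (Rx Q q d y) := by
      intro q y c1 c2 c3 c4 c5
      have h1 : q1 ≤ q := by
        by_contra hcon
        have h2 : (q + 1) * (2 * Q + 1) ≤ q1 * (2 * Q + 1) := Nat.mul_le_mul_right _ (by omega)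
        have h3 : (q + 1) * (2 * Q + 1) = q * (2 * Q + 1) + (2 * Q + 1) := by ring
        omega
      obtain ⟨m, rfl⟩ := Nat.exists_eq_add_of_le h1
      exact ring_conn a2 (by omega) (by omega) m y c1 c2 c3 c4 c5
    rintro p (⟨q, y, c1, c2, c3, c4, c5, c6⟩ | ⟨q, y, e, c1, c2, c3, c4, c5⟩)
    · have e1 : Rx Q q d y = p := c6
      rw [← e1]
      exact ring q y c1 c2 c3 c4 c5
    · have e1 : Rx Q q e y = p := c4
      have h1 := leg_conn (Q := Q) (z1 := z1) (z2 := z2) (d := d) c1 (by omega) c3 c5 (d - e) e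
        (by omega)
      rw [show e + (d - e) = d by omega, e1] at h1
      have h2 : M ≤ y ∧ y + M ≤ 2 * Q := by
        have f3 : (q + 1) * (2 * Q + 1) = q * (2 * Q + 1) + (2 * Q + 1) := by ring
        rcases c5 with c5 | c5
        · have f1 := (show Gd Q M z1 from ⟨q1, y1, a1, a2, a3, a4⟩).far q (by omega)
          have f2 := (show Gd Q M z1 from ⟨q1, y1, a1, a2, a3, a4⟩).far (q + 1) (by omega)
          omega
        · have f1 := (show Gd Q M z2 from ⟨q2, y2, b1, b2, b3, b4⟩).far q (by omega)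
          have f2 := (show Gd Q M z2 from ⟨q2, y2, b1, b2, b3, b4⟩).far (q + 1) (by omega)
          omega
      refine (ring q y c1 (by omega) (by omega) ?_ ?_).trans (gs_symm h1)
      · rcases c5 with c5 | c5 <;> omega
      · rcases c5 with c5 | c5 <;> omega
  exact (gs_symm (red p h)).trans (red p' h')

/-- the places of the boundary -/
lemma CD_end {z1 z2 d q y : ℕ} (hq : q < 4) (hy : y ≤ 2 * Q)
    (hz : q * (2 * Q + 1) + y = z1 ∨ q * (2 * Q + 1) + y = z2) :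
    CD Q z1 z2 d (Rx Q q 0 y).1 (Rx Q q 0 y).2 :=
  Or.inr ⟨q, y, 0, hq, Nat.zero_le _, hy, rfl, hz⟩

lemma CD_lt {z1 z2 d X Y : ℕ} (hd : d ≤ Q) (h : CD Q z1 z2 d X Y) :
    X < 2 * Q + 1 ∧ Y < 2 * Q + 1 := by
  rcases h with ⟨q, y, c1, c2, c3, c4, c5, c6⟩ | ⟨q, y, e, c1, c2, c3, c4, c5⟩
  · have := Rx_lt (Q := Q) (q := q) (e := d) (y := y) (by omega) (by omega)
    rwa [c6] at this
  · have := Rx_lt (Q := Q) (q := q) (e := e) (y := y) (by omega) (by omega)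
    rwa [c4] at this

end Geom

end Pool.Agent.MP42.NE
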