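import Mathlib

/-!
# Orbits of a step with a reversal

`sc` is the next strand, `rv` the reversed strand.  No strand is met in both directions, and if the
family is one closed curve, every strand is met in one of the two directions.
-/

set_option autoImplicit false

namespace Pool.Agent.MP42.NE

/-- a step with a reversal on a finite set of strands -/
structure Orb (α : Type*) where
  Va : α → Prop
  sc : α → α
  rv : α → α
  fin : Set.Finite {s | Va s}
  sc_va : ∀ {s}, Va s → Va (sc s)
  rv_va : ∀ {s}, Va s → Va (rv s)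
  rv_rv : ∀ {s}, Va s → rv (rv s) = s
  sc_rv_sc : ∀ {s}, Va s → sc (rv (sc s)) = rv s
  sc_ne_rv : ∀ {s}, Va s → sc s ≠ rv s
  rv_ne : ∀ {s}, Va s → rv s ≠ s

namespace Orb

variable {α : Type*} (A : Orb α)

/-- the orbit of a strand -/
def it (s : α) (i : ℕ) : α := A.sc^[i] s

lemma it_zero (s : α) : A.it s 0 = s := rfl

lemma it_succ (s : α) (i : ℕ) : A.it s (i + 1) = A.sc (A.it s i) :=
  Function.iterate_succ_apply' _ _ _

variable {A}

lemma it_va {s : α} (h : A.Va s) (i : ℕ) : A.Va (A.it s i) := by
  induction i with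
  | zero => exact h
  | succ i ih => rw [it_succ]; exact A.sc_va ih

/-- going back `i` steps -/
lemma it_back {s : α} (h : A.Va s) : ∀ i j, A.it (A.rv (A.it s (i + j))) i =
    A.rv (A.it s j) := by
  intro i
  induction i with
  | zero => intro j; rw [Nat.zero_add]; rfl
  | succ i ih =>
    intro j
    have h1 : i + 1 + j = i + (j + 1) := by omega
    rw [it_succ, h1, ih (j + 1), it_succ]
    exact A.sc_rv_sc (it_va h j)

/-- **no strand is met in both directions** -/
lemma no_rev {s : α} (h : A.Va s) : ∀ (d i : ℕ), A.it s (i + d) ≠ A.rv (A.it s i) := by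
  intro d
  induction d using Nat.strong_induction_on with
  | _ d ih =>
    intro i hcon
    match d, ih with
    | 0, _ => exact A.rv_ne (it_va h i) hcon.symm
    | 1, _ =>
      rw [it_succ] at hcon
      exact A.sc_ne_rv (it_va h i) hcon
    | d + 2, ih =>
      apply ih d (by omega) (i + 1)
      have h1 : A.it s (i + (d + 2)) = A.sc (A.it s (i + 1 + d)) := by
        rw [← it_succ]; congr 1; omega
      rw [h1] at hcon
      have h2 := A.sc_rv_sc (it_va h (i + 1 + d))
      rw [hcon, A.rv_rv (it_va h i), ← it_succ] at h2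
      rw [h2, A.rv_rv (it_va h _)]

lemma sc_inj {s t : α} (hs : A.Va s) (ht : A.Va t) (h : A.sc s = A.sc t) : s = t := by
  have h1 := A.sc_rv_sc hs
  have h2 := A.sc_rv_sc ht
  rw [h, h2] at h1
  rw [← A.rv_rv hs, ← h1, A.rv_rv ht]

lemma it_inj {s : α} (h : A.Va s) : ∀ i j, A.it s (i + j) = A.it s i → A.it s j = s := by
  intro i
  induction i with
  | zero => intro j hj; rw [Nat.zero_add] at hj; exact hj
  | succ i ih =>
    intro j hj
    apply ih j
    rw [show i + 1 + j = i + j + 1 by omega, it_succ, it_succ] at hj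
    exact sc_inj (it_va h _) (it_va h _) hj

lemma ex_period {s : α} (h : A.Va s) : ∃ j, 0 < j ∧ A.it s j = s := by
  have : ¬ Function.Injective (A.it s) := by
    intro hinj
    have h1 : Set.Infinite (Set.range (A.it s)) := Set.infinite_range_of_injective hinj
    apply h1
    apply A.fin.subset
    rintro _ ⟨i, rfl⟩
    exact it_va h i
  rw [Function.Injective] at this
  push Not at this
  obtain ⟨i, j, hij, hne⟩ := this
  rcases lt_or_gt_of_ne hne with h1 | h1
  · refine ⟨j - i, by omega, it_inj h i (j - i) ?_⟩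
    rw [show i + (j - i) = j by omega, hij]
  · refine ⟨i - j, by omega, it_inj h j (i - j) ?_⟩
    rw [show j + (i - j) = i by omega, hij]

open Classical in
/-- the length of the orbit -/
noncomputable def per (A : Orb α) (s : α) : ℕ :=
  if h : ∃ j, 0 < j ∧ A.it s j = s then Nat.find h else 1

lemma per_spec {s : α} (h : A.Va s) : 0 < A.per s ∧ A.it s (A.per s) = s := by
  classical
  have h1 := ex_period h
  unfold per
  rw [dif_pos h1]
  exact Nat.find_spec h1

lemma per_min {s : α} (h : A.Va s) {j : ℕ} (h0 : 0 < j) (hj : j < A.per s) :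
    A.it s j ≠ s := by
  classical
  have h1 := ex_period h
  unfold per at hj
  rw [dif_pos h1] at hj
  intro h2
  exact Nat.find_min h1 hj ⟨h0, h2⟩

lemma per_inj {s : α} (h : A.Va s) {i j : ℕ} (hi : i < A.per s) (hj : j < A.per s)
    (hij : A.it s i = A.it s j) : i = j := by
  rcases lt_trichotomy i j with h1 | h1 | h1
  · exact absurd (it_inj h i (j - i) (by rw [show i + (j - i) = j by omega, hij]))
      (per_min h (by omega) (by omega))
  · exact h1
  · exact absurd (it_inj h j (i - j) (by rw [show j + (i - j) = i by omega, hij]))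
      (per_min h (by omega) (by omega))

lemma it_per {s : α} (h : A.Va s) (i : ℕ) : ∃ j < A.per s, A.it s j = A.it s i := by
  induction i with
  | zero => exact ⟨0, (per_spec h).1, rfl⟩
  | succ i ih =>
    obtain ⟨j, hj, h1⟩ := ih
    by_cases h2 : j + 1 < A.per s
    · exact ⟨j + 1, h2, by rw [it_succ, it_succ, h1]⟩
    · refine ⟨0, (per_spec h).1, ?_⟩
      rw [it_succ, ← h1, ← it_succ, show j + 1 = A.per s by omega, (per_spec h).2]
      rfl

/-- no strand is met in both directions -/
lemma no_rev' {s : α} (h : A.Va s) (i j : ℕ) : A.it s i ≠ A.rv (A.it s j) := by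
  intro hcon
  rcases le_total j i with h1 | h1
  · obtain ⟨d, rfl⟩ := Nat.exists_eq_add_of_le h1
    exact no_rev h d j hcon
  · obtain ⟨d, rfl⟩ := Nat.exists_eq_add_of_le h1
    apply no_rev h d i
    rw [hcon, A.rv_rv (it_va h _)]

/-- the step does not lead back to the start -/
lemma sc_ne_start {s : α} (h : A.Va s) {i : ℕ} (hi : i + 1 < A.per s) :
    A.sc (A.it s i) ≠ s := by
  rw [← it_succ]
  exact per_min h (by omega) hi

/-- the family is one closed curve -/
def Conn (A : Orb α) : Prop := ∀ T : α → Prop,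
  (∀ s, A.Va s → (T (A.sc s) ↔ T s)) → (∀ s, A.Va s → (T (A.rv s) ↔ T s)) →
  ∀ s s', A.Va s → A.Va s' → (T s ↔ T s')

lemma it_add_per {s : α} (h : A.Va s) (i : ℕ) : A.it s (i + A.per s) = A.it s i := by
  induction i with
  | zero => rw [Nat.zero_add, (per_spec h).2]; rfl
  | succ i ih => rw [show i + 1 + A.per s = i + A.per s + 1 by omega, it_succ, ih, ← it_succ]

/-- every strand is met in one of the two directions -/
lemma cover {s : α} (h : A.Va s) (hC : A.Conn) {u : α} (hu : A.Va u) :
    ∃ i < A.per s, A.it s i = u ∨ A.it s i = A.rv u := by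
  have key := hC (fun u => ∃ i, A.it s i = u ∨ A.it s i = A.rv u) ?_ ?_ s u h hu
  · obtain ⟨i, hi⟩ := key.1 ⟨0, Or.inl rfl⟩
    obtain ⟨j, hj, h1⟩ := it_per h i
    exact ⟨j, hj, by rw [h1]; exact hi⟩
  · intro t ht
    have hp := (per_spec h).1
    constructor
    · rintro ⟨i, hi | hi⟩
      · refine ⟨i + A.per s - 1, Or.inl ?_⟩
        apply sc_inj (it_va h _) ht
        rw [← it_succ, show i + A.per s - 1 + 1 = i + A.per s by omega, it_add_per h, hi]
      · refine ⟨i + 1, Or.inr ?_⟩
        rw [it_succ, hi, A.sc_rv_sc ht]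
    · rintro ⟨i, hi | hi⟩
      · exact ⟨i + 1, Or.inl (by rw [it_succ, hi])⟩
      · refine ⟨i + A.per s - 1, Or.inr ?_⟩
        apply sc_inj (it_va h _) (A.rv_va (A.sc_va ht))
        rw [← it_succ, show i + A.per s - 1 + 1 = i + A.per s by omega, it_add_per h, hi,
          A.sc_rv_sc ht]
  · intro t ht
    constructor
    · rintro ⟨i, hi | hi⟩
      · exact ⟨i, Or.inr hi⟩
      · exact ⟨i, Or.inl (by rw [hi, A.rv_rv ht])⟩
    · rintro ⟨i, hi | hi⟩
      · exact ⟨i, Or.inr (by rw [hi, A.rv_rv ht])⟩
      · exact ⟨i, Or.inl hi⟩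

end Orb

end Pool.Agent.MP42.NE
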