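import Pool.Agent.MP42.NE.PFlow2

/-!
# A connected flow with passages gives an edge unfolding
-/

set_option autoImplicit false

namespace Pool.Agent.MP42.NE

open Pool.Agent.Helper55.UNF Pool.Agent.Helper55.UNF.GridSolid Relation

variable {P : GridSolid}

lemma pN_symm_eq (u : P.FSt) : pN.symm u = u.rR.stE.rL := by
  show u.r2.rL.stE.rR.r2 = u.rR.stE.rL
  rw [FSt.r2_rL, FSt.rR_r2]

lemma stE_rL (t : P.FSt) : t.rL.stE = t.stN.rL := by
  show t.rL.stE = t.rL.stE.rR.rL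
  rw [FSt.rR_rL]

lemma stS_rL (t : P.FSt) : pN.symm t.rL = t.stE.rL := by
  rw [pN_symm_eq, FSt.rL_rR]

/-- corner cells determine the frame -/
lemma corner_frame {Q : ℕ} {hK : 0 < 2 * Q + 1} (hQ : 0 < Q) {u v : P.FSt}
    {f : (P.refine (2 * Q + 1) hK).Facet} (h1 : At u (2 * Q) (2 * Q) f)
    (h2 : At v (2 * Q) (2 * Q) f) : u = v := by
  have hfac : u.facet = v.facet := h1.1.symm.trans h2.1
  rcases frames hfac with rfl | rfl | rfl | rfl
  · rfl
  · obtain ⟨-, a1, a2⟩ := h2.rL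
    have := a2.symm.trans h1.2.2
    omega
  · obtain ⟨-, a1, a2⟩ := h2.r2
    have := a2.symm.trans h1.2.2
    omega
  · obtain ⟨-, a1, a2⟩ := h2.rR
    have := a1.symm.trans h1.2.1
    omega

/-- frames of the walk -/
def wfr : Bool → ℕ → P.FSt → P.FSt
  | false, 0, t => t
  | false, 1, t => t.stN
  | false, _, t => t.stN.stE
  | true, 0, t => t.rL
  | true, 1, t => t.stE.rL
  | true, _, t => t.stE.rL.stE

/-- corner frames of the short visits -/
def cfr : Bool → ℕ → P.FSt → P.FSt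
  | false, 1, t => rho t
  | false, _, t => rho (rho t)
  | true, 1, t => rhoi t
  | true, _, t => rhoi (rhoi t)

/-- gluing of two cells -/
def Glue {K : ℕ} {hK : 0 < K} (w w' : P.FSt) (f g : (P.refine K hK).Facet) : Mv → Prop
  | Mv.E => ∃ y, At w (K - 1) y f ∧ At w' 0 y g
  | Mv.N => ∃ x, At w x (K - 1) f ∧ At w' x 0 g
  | Mv.S => ∃ x, At w x 0 f ∧ At w' x (K - 1) g

namespace PFlow

variable (A : PFlow P) {Q : ℕ} {hK : 0 < 2 * Q + 1}

/-- the strand passes a vertex -/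
def Pas (s : P.FSt × ℕ) : Prop := ¬ s.2 < A.b s.1.r2 ∧ s.2 < A.b s.1.r2 + A.c s.1.r2

instance (s : P.FSt × ℕ) : Decidable (A.Pas s) := inferInstanceAs (Decidable (_ ∧ _))

/-- number of visits -/
def kap (s : P.FSt × ℕ) : ℕ := if A.Pas s then 3 else 1

lemma kap_pos (s : P.FSt × ℕ) : 0 < A.kap s := by unfold kap; split_ifs <;> omega

/-- moves of a passage -/
def pmv : Bool → ℕ → Mv
  | false, 0 => Mv.N
  | false, 1 => Mv.E
  | false, _ => Mv.S
  | true, 0 => Mv.S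
  | true, 1 => Mv.E
  | true, _ => Mv.N

/-- moves of the walk -/
def mvk (τ : Bool) (k : ℕ) (s : P.FSt × ℕ) : Mv :=
  if A.Pas s then pmv τ k
  else if s.2 < A.b s.1.r2 then (if τ then Mv.E else Mv.N) else (if τ then Mv.S else Mv.E)

/-- cells of a visit -/
def seed (Q : ℕ) {hK : 0 < 2 * Q + 1} (τ : Bool) (k : ℕ) (s : P.FSt × ℕ)
    (f : (P.refine (2 * Q + 1) hK).Facet) : Prop :=
  match k with
  | 0 => A.Lane Q s f
  | k + 1 => At (cfr τ (k + 1) s.1) (2 * Q) (2 * Q) f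

variable {A}

lemma mv0_false (s : P.FSt × ℕ) : A.mvk false 0 s ≠ Mv.S := by
  unfold mvk
  split_ifs
  · show Mv.N ≠ Mv.S
    exact fun h => by cases h
  · rename_i h; exact absurd h (by decide)
  · exact fun h => by cases h
  · rename_i h; exact absurd h (by decide)
  · exact fun h => by cases h

lemma mv0_true (s : P.FSt × ℕ) : A.mvk true 0 s ≠ Mv.N := by
  unfold mvk
  split_ifs
  · show Mv.S ≠ Mv.N
    exact fun h => by cases h
  · exact fun h => by cases h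
  · rename_i h; exact absurd rfl h
  · exact fun h => by cases h
  · rename_i h; exact absurd rfl h

/-- steps inside a passage -/
lemma step_in {s : P.FSt × ℕ} (hp : A.Pas s) (τ : Bool) {k : ℕ} (hk : k < 2) :
    (A.mvk τ k s).ap (wfr τ k s.1) = wfr τ (k + 1) s.1 := by
  have e1 : A.mvk τ k s = pmv τ k := if_pos hp
  rw [e1]
  have hk' : k = 0 ∨ k = 1 := by omega
  rcases hk' with rfl | rfl <;> cases τ
  · rfl
  · exact stS_rL s.1
  · rfl
  · rfl

/-- the step at the end of a passage -/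
lemma step_out {s : P.FSt × ℕ} (hs : A.Va s) (hp : A.Pas s) (τ : Bool) :
    (A.mvk τ 2 s).ap (wfr τ 2 s.1) = wfr (!τ) 0 (A.sc s).1 := by
  have e1 : A.mvk τ 2 s = pmv τ 2 := if_pos hp
  obtain ⟨h3, h4, h5, h6, h7⟩ := pass_data hs hp.1 hp.2
  rw [e1, sc_P hp.1 hp.2]
  cases τ
  · show pN.symm s.1.stN.stE = (opq s.1).rL
    rw [pN_symm_eq]
    exact congrArg FSt.rL h5
  · rfl

/-- an ordinary step -/
lemma step_ord {s : P.FSt × ℕ} (hp : ¬ A.Pas s) (τ : Bool) :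
    (A.mvk τ 0 s).ap (wfr τ 0 s.1) = wfr τ 0 (A.sc s).1 := by
  unfold mvk
  rw [if_neg hp]
  by_cases h1 : s.2 < A.b s.1.r2
  · rw [if_pos h1, sc_N h1]
    cases τ
    · rfl
    · exact stE_rL s.1
  · rw [if_neg h1, sc_E h1 (fun h2 => hp ⟨h1, h2⟩)]
    cases τ
    · rfl
    · exact stS_rL s.1

lemma lane_ne (hQ : A.Fine Q) {s : P.FSt × ℕ} (hs : A.Va s) :
    ∃ f : (P.refine (2 * Q + 1) hK).Facet, A.Lane Q s f := by
  have h3 := hQ s.1 hs.1
  have h4 : A.M s.1 = A.a s.1 + A.b s.1 + A.c s.1 := rfl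
  have h7 := hs.2
  by_cases h1 : s.2 < A.a s.1
  · obtain ⟨f, hf⟩ := ex_at hK s.1 (x := 0) (y := Q + A.a s.1 - 1 - 2 * s.2) (by omega) (by omega)
    exact ⟨f, Lane_W hQ hs h1 hf⟩
  · by_cases h2 : A.a s.1 + A.c s.1 ≤ s.2
    · obtain ⟨f, hf⟩ := ex_at hK s.1 (x := Q + 1 + 2 * (s.2 - (A.a s.1 + A.c s.1)) - A.b s.1)
        (y := 0) (by omega) (by omega)
      exact ⟨f, Lane_S hQ hs h2 hf⟩
    · have h5 := A.c1 s.1
      obtain ⟨f, hf⟩ := ex_at hK s.1 (x := 0) (y := 0) (by omega) (by omega)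
      exact ⟨f, Lane_SW hQ hs (by omega) (by omega) hf⟩

/-- gluing inside a passage -/
lemma glue_in (hQ : A.Fine Q) {s : P.FSt × ℕ} (hs : A.Va s) (hp : A.Pas s) (τ : Bool) {k : ℕ}
    (hk : k < 2) : ∃ f g : (P.refine (2 * Q + 1) hK).Facet, A.seed Q τ k s f ∧
      A.seed Q τ (k + 1) s g ∧ Glue (wfr τ k s.1) (wfr τ (k + 1) s.1) f g (A.mvk τ k s) := by
  have e1 : A.mvk τ k s = pmv τ k := if_pos hp
  have hKe : 2 * Q + 1 - 1 = 2 * Q := by omega
  rw [e1]
  obtain ⟨h3, h4, h5, h6, h7⟩ := pass_data hs hp.1 hp.2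
  have hk' : k = 0 ∨ k = 1 := by omega
  rcases hk' with rfl | rfl <;> cases τ
  · -- z, first step
    obtain ⟨f, hf⟩ := ex_at hK s.1 (x := 2 * Q) (y := 2 * Q) (by omega) (by omega)
    obtain ⟨g, hg⟩ := ex_at hK s.1.stN (x := 2 * Q) (y := 0) (by omega) (by omega)
    refine ⟨f, g, Lane_NE hQ hs h4 h3 hf, ?_, ?_⟩
    · show At (rho s.1) (2 * Q) (2 * Q) g
      rw [rho1]
      have := hg.rR
      rwa [show 2 * Q + 1 - 1 - 0 = 2 * Q by omega] at this
    · show ∃ x, At s.1 x (2 * Q + 1 - 1) f ∧ At s.1.stN x 0 g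
      rw [hKe]
      exact ⟨_, hf, hg⟩
  · -- x, first step
    obtain ⟨f, hf⟩ := ex_at hK s.1 (x := 2 * Q) (y := 2 * Q) (by omega) (by omega)
    obtain ⟨g, hg⟩ := ex_at hK s.1.stE.rL (x := 2 * Q) (y := 2 * Q) (by omega) (by omega)
    refine ⟨f, g, Lane_NE hQ hs h4 h3 hf, hg, ?_⟩
    show ∃ x, At s.1.rL x 0 f ∧ At s.1.stE.rL x (2 * Q + 1 - 1) g
    rw [hKe]
    have := hf.rL
    rw [show 2 * Q + 1 - 1 - 2 * Q = 0 by omega] at this
    exact ⟨_, this, hg⟩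
  · -- z, second step
    obtain ⟨f, hf⟩ := ex_at hK s.1.stN (x := 2 * Q) (y := 0) (by omega) (by omega)
    obtain ⟨g, hg⟩ := ex_at hK s.1.stN.stE (x := 0) (y := 0) (by omega) (by omega)
    refine ⟨f, g, ?_, ?_, ?_⟩
    · show At (rho s.1) (2 * Q) (2 * Q) f
      rw [rho1]
      have := hf.rR
      rwa [show 2 * Q + 1 - 1 - 0 = 2 * Q by omega] at this
    · show At (rho (rho s.1)) (2 * Q) (2 * Q) g
      rw [rho2]
      have := hg.r2
      rwa [show 2 * Q + 1 - 1 - 0 = 2 * Q by omega] at this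
    · show ∃ y, At s.1.stN (2 * Q + 1 - 1) y f ∧ At s.1.stN.stE 0 y g
      rw [hKe]
      exact ⟨_, hf, hg⟩
  · -- x, second step
    obtain ⟨f, hf⟩ := ex_at hK s.1.stE.rL (x := 2 * Q) (y := 2 * Q) (by omega) (by omega)
    obtain ⟨g, hg⟩ := ex_at hK s.1.stE.rL.stE (x := 0) (y := 2 * Q) (by omega) (by omega)
    refine ⟨f, g, hf, ?_, ?_⟩
    · show At (rhoi (rhoi s.1)) (2 * Q) (2 * Q) g
      rw [rhoi2]
      have := hg.rL
      rwa [show 2 * Q + 1 - 1 - 0 = 2 * Q by omega] at this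
    · show ∃ y, At s.1.stE.rL (2 * Q + 1 - 1) y f ∧ At s.1.stE.rL.stE 0 y g
      rw [hKe]
      exact ⟨_, hf, hg⟩

/-- gluing at the end of a passage -/
lemma glue_out (hQ : A.Fine Q) {s : P.FSt × ℕ} (hs : A.Va s) (hp : A.Pas s) (τ : Bool) :
    ∃ f g : (P.refine (2 * Q + 1) hK).Facet, A.seed Q τ 2 s f ∧
      A.seed Q (!τ) 0 (A.sc s) g ∧ Glue (wfr τ 2 s.1) (wfr (!τ) 0 (A.sc s).1) f g
        (A.mvk τ 2 s) := by
  have e1 : A.mvk τ 2 s = pmv τ 2 := if_pos hp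
  have hKe : 2 * Q + 1 - 1 = 2 * Q := by omega
  have hva := sc_va hs
  obtain ⟨h3, h4, h5, h6, h7⟩ := pass_data hs hp.1 hp.2
  rw [e1, sc_P hp.1 hp.2]
  rw [sc_P hp.1 hp.2] at hva
  obtain ⟨g, hg⟩ := ex_at hK (opq s.1) (x := 0) (y := 0) (by omega) (by omega)
  have hL : A.Lane Q (opq s.1, A.a (opq s.1)) g := Lane_SW hQ hva rfl h7 hg
  cases τ
  · obtain ⟨f, hf⟩ := ex_at hK s.1.stN.stE (x := 0) (y := 0) (by omega) (by omega)
    refine ⟨f, g, ?_, hL, ?_⟩
    · show At (rho (rho s.1)) (2 * Q) (2 * Q) f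
      rw [rho2]
      have := hf.r2
      rwa [show 2 * Q + 1 - 1 - 0 = 2 * Q by omega] at this
    · show ∃ x, At s.1.stN.stE x 0 f ∧ At (opq s.1).rL x (2 * Q + 1 - 1) g
      refine ⟨_, hf, ?_⟩
      have := hg.rL
      rwa [show 2 * Q + 1 - 1 - 0 = 2 * Q + 1 - 1 by omega] at this
  · obtain ⟨f, hf⟩ := ex_at hK s.1.stE.rL.stE (x := 0) (y := 2 * Q) (by omega) (by omega)
    refine ⟨f, g, ?_, hL, ?_⟩
    · show At (rhoi (rhoi s.1)) (2 * Q) (2 * Q) f
      rw [rhoi2]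
      have := hf.rL
      rwa [show 2 * Q + 1 - 1 - 0 = 2 * Q by omega] at this
    · show ∃ x, At s.1.stE.rL.stE x (2 * Q + 1 - 1) f ∧ At (opq s.1) x 0 g
      rw [hKe]
      exact ⟨_, hf, hg⟩

/-- gluing of ordinary steps -/
lemma glue_ord (hQ : A.Fine Q) {s : P.FSt × ℕ} (hs : A.Va s) (hp : ¬ A.Pas s) (τ : Bool) :
    ∃ f g : (P.refine (2 * Q + 1) hK).Facet, A.seed Q τ 0 s f ∧
      A.seed Q τ 0 (A.sc s) g ∧ Glue (wfr τ 0 s.1) (wfr τ 0 (A.sc s).1) f g (A.mvk τ 0 s) := by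
  have hKe : 2 * Q + 1 - 1 = 2 * Q := by omega
  have hva := sc_va hs
  have h3 := hQ s.1 hs.1
  have h4 : A.M s.1 = A.a s.1 + A.b s.1 + A.c s.1 := rfl
  have h6 := A.bal s.1 hs.1
  have h7 := hs.2
  by_cases h1 : s.2 < A.b s.1.r2
  · have e1 : A.mvk τ 0 s = if τ then Mv.E else Mv.N := by
      unfold mvk; rw [if_neg hp, if_pos h1]
    obtain ⟨h8, h9⟩ := A.north s.1 hs.1 (by omega)
    rw [e1, sc_N h1]
    rw [sc_N h1] at hva
    set x0 := Q + 1 + 2 * s.2 - A.b s.1.r2 with hx0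
    obtain ⟨f, hf⟩ := ex_at hK s.1 (x := x0) (y := 2 * Q) (by omega) (by omega)
    obtain ⟨g, hg⟩ := ex_at hK s.1.stN (x := x0) (y := 0) (by omega) (by omega)
    refine ⟨f, g, Lane_N hQ hs h1 hf, ?_, ?_⟩
    · apply Lane_S hQ hva
      · show A.a s.1.stN + A.c s.1.stN ≤ A.a s.1.stN + A.c s.1.stN + s.2
        omega
      · show At s.1.stN (Q + 1 + 2 * (A.a s.1.stN + A.c s.1.stN + s.2 - (A.a s.1.stN +
          A.c s.1.stN)) - A.b s.1.stN) 0 g
        rw [show Q + 1 + 2 * (A.a s.1.stN + A.c s.1.stN + s.2 - (A.a s.1.stN +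
          A.c s.1.stN)) - A.b s.1.stN = x0 by omega]
        exact hg
    · cases τ
      · show ∃ x, At s.1 x (2 * Q + 1 - 1) f ∧ At s.1.stN x 0 g
        rw [hKe]
        exact ⟨_, hf, hg⟩
      · show ∃ y, At s.1.rL (2 * Q + 1 - 1) y f ∧ At s.1.stN.rL 0 y g
        rw [hKe]
        exact ⟨_, hf.rL, hg.rL⟩
  · have h2 : ¬ s.2 < A.b s.1.r2 + A.c s.1.r2 := fun h2 => hp ⟨h1, h2⟩
    have e1 : A.mvk τ 0 s = if τ then Mv.S else Mv.E := by
      unfold mvk; rw [if_neg hp, if_neg h1]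
    obtain ⟨h8, h9⟩ := A.east s.1 hs.1 (by omega)
    rw [e1, sc_E h1 h2]
    rw [sc_E h1 h2] at hva
    set j := s.2 - (A.b s.1.r2 + A.c s.1.r2) with hj
    set y0 := Q + A.a s.1.r2 - 1 - 2 * j with hy0
    obtain ⟨f, hf⟩ := ex_at hK s.1 (x := 2 * Q) (y := y0) (by omega) (by omega)
    obtain ⟨g, hg⟩ := ex_at hK s.1.stE (x := 0) (y := y0) (by omega) (by omega)
    refine ⟨f, g, Lane_E hQ hs (by omega) hf, ?_, ?_⟩
    · apply Lane_W hQ hva
      · show j < A.a s.1.stE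
        omega
      · show At s.1.stE 0 (Q + A.a s.1.stE - 1 - 2 * j) g
        rw [h9]
        exact hg
    · cases τ
      · show ∃ y, At s.1 (2 * Q + 1 - 1) y f ∧ At s.1.stE 0 y g
        rw [hKe]
        exact ⟨_, hf, hg⟩
      · show ∃ x, At s.1.rL x 0 f ∧ At s.1.stE.rL x (2 * Q + 1 - 1) g
        refine ⟨_, ?_, hg.rL⟩
        have := hf.rL
        rwa [show 2 * Q + 1 - 1 - 2 * Q = 0 by omega] at this

/-! ## Disjointness of the visits -/

/-- a frame with a strand leaving through its northeast corner -/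
def PF (A : PFlow P) (t : P.FSt) : Prop := A.nom t ∧ A.c t.r2 = 1

lemma PF_opq {t : P.FSt} (h : A.PF t) : A.PF (opq t).r2 := by
  obtain ⟨h1, h2, h3⟩ := A.pass t h.1 h.2
  exact ⟨A.nom_r2 _ h2, by rw [FSt.r2_r2]; exact h3⟩

lemma PF_u1 {t : P.FSt} (h : A.PF t) : ¬ A.PF (rho t) := fun h' =>
  A.uniq1 t h.1 h.2 h'.1 h'.2

lemma PF_u2 {t : P.FSt} (h : A.PF t) : ¬ A.PF (rho (rho t)) := fun h' =>
  A.uniq2 t h.1 h.2 h'.1 h'.2

lemma PF_3 {t : P.FSt} (h : A.PF t) : rho (rho (rho t)) = (opq t).r2 :=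
  rho3 (A.pass t h.1 h.2).1

/-- corner frames of different passages are different -/
lemma cfr_inj {t t' : P.FSt} (h : A.PF t) (h' : A.PF t') {τ τ' : Bool} {k k' : ℕ}
    (hk : k = 1 ∨ k = 2) (hk' : k' = 1 ∨ k' = 2) (he : cfr τ k t = cfr τ' k' t') :
    (t = t' ∧ τ = τ' ∧ k = k') ∨ t' = (opq t).r2 := by
  have key : ∀ {t t' : P.FSt}, A.PF t → A.PF t' → t = rho t' → False := by
    intro t t' h h' he
    exact PF_u1 h' (he ▸ h)
  have key2 : ∀ {t t' : P.FSt}, A.PF t → A.PF t' → t = rho (rho t') → False := by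
    intro t t' h h' he
    exact PF_u2 h' (he ▸ h)
  have ri : ∀ {x y : P.FSt}, x = rhoi y → rho x = y := by
    intro x y h; rw [h, rho_rhoi]
  rcases hk with rfl | rfl <;> rcases hk' with rfl | rfl <;> cases τ <;> cases τ'
  · exact Or.inl ⟨rho_inj he, rfl, rfl⟩
  · -- rho t = rhoi t'
    have h1 : rho (rho t) = t' := ri he
    exact (key2 h' h h1.symm).elim
  · have h1 : rho (rho t') = t := ri he.symm
    exact (key2 h h' h1.symm).elim
  · have h1 : rhoi t = rhoi t' := he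
    have h2 := congrArg rho h1
    rw [rho_rhoi, rho_rhoi] at h2
    exact Or.inl ⟨h2, rfl, rfl⟩
  · -- rho t = rho (rho t')
    exact (key h h' (rho_inj he)).elim
  · -- rho t = rhoi (rhoi t')
    have h1 : rho (rho t) = rhoi t' := ri he
    have h2 : rho (rho (rho t)) = t' := ri h1
    right
    rw [← h2, PF_3 h]
  · -- rhoi t = rho (rho t')
    have h1 : rho (rho (rho t')) = t := ri (show rho (rho t') = rhoi t from he.symm)
    right
    rw [PF_3 h'] at h1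
    have h3 := opq_opq (A.pass t' h'.1 h'.2).1
    rw [h1] at h3
    rw [h3, FSt.r2_r2]
  · -- rhoi t = rhoi (rhoi t')
    have h1 : t = rhoi t' := by
      have h2 := congrArg rho (show rhoi t = rhoi (rhoi t') from he)
      rwa [rho_rhoi, rho_rhoi] at h2
    exact (key h' h (ri h1).symm).elim
  · -- rho (rho t) = rho t'
    exact (key h' h (rho_inj he).symm).elim
  · -- rho (rho t) = rhoi t'
    have h1 : rho (rho (rho t)) = t' := ri he
    right
    rw [← h1, PF_3 h]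
  · -- rhoi (rhoi t) = rho t'
    have h1 : rho (rho t') = rhoi t := ri (show rho t' = rhoi (rhoi t) from he.symm)
    have h2 : rho (rho (rho t')) = t := ri h1
    right
    rw [PF_3 h'] at h2
    have h3 := opq_opq (A.pass t' h'.1 h'.2).1
    rw [h2] at h3
    rw [h3, FSt.r2_r2]
  · -- rhoi (rhoi t) = rhoi t'
    have h1 : rhoi t = t' := by
      have h2 := congrArg rho (show rhoi (rhoi t) = rhoi t' from he)
      rwa [rho_rhoi, rho_rhoi] at h2
    exact (key h h' (ri h1.symm).symm).elim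
  · exact Or.inl ⟨rho_inj (rho_inj he), rfl, rfl⟩
  · -- rho (rho t) = rhoi (rhoi t')
    have h1 : rho (rho (rho t)) = rhoi t' := ri (show rho (rho t) = rhoi (rhoi t') from he)
    have h2 : rho (rho (rho (rho t))) = t' := ri h1
    rw [PF_3 h] at h2
    exact (key h' (PF_opq h) h2.symm).elim
  · have h1 : rho (rho (rho t')) = rhoi t := ri (show rho (rho t') = rhoi (rhoi t) from he.symm)
    have h2 : rho (rho (rho (rho t'))) = t := ri h1
    rw [PF_3 h'] at h2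
    exact (key h (PF_opq h') h2.symm).elim
  · have h1 : rhoi (rhoi t) = rhoi (rhoi t') := he
    have h2 := congrArg rho h1
    rw [rho_rhoi, rho_rhoi] at h2
    have h3 := congrArg rho h2
    rw [rho_rhoi, rho_rhoi] at h3
    exact Or.inl ⟨h3, rfl, rfl⟩

/-- a corner frame of a passage does not belong to another passage -/
lemma cfr_PF {t : P.FSt} (h : A.PF t) {τ : Bool} {k : ℕ} (hk : k = 1 ∨ k = 2) :
    ¬ A.PF (cfr τ k t) := by
  intro h'
  rcases hk with rfl | rfl <;> cases τ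
  · exact PF_u1 h h'
  · have h1 : A.PF (rhoi t) := h'
    apply PF_u1 h1
    rw [rho_rhoi]; exact h
  · exact PF_u2 h h'
  · have h1 : A.PF (rhoi (rhoi t)) := h'
    apply PF_u2 h1
    rw [rho_rhoi, rho_rhoi]; exact h

lemma Pas_PF {s : P.FSt × ℕ} (hs : A.Va s) (hp : A.Pas s) : A.PF s.1 :=
  ⟨hs.1, (pass_data hs hp.1 hp.2).1⟩

end PFlow

end Pool.Agent.MP42.NE
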