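import Pool.Agent.MP42.NE.Chord
import Pool.Agent.MP42.NE.Orb
import Pool.Agent.MP42.NE.PFlow3

/-!
# Layout of a simple closed curve

A simple closed curve on the surface, in general position to the grid, is given by the number of its
crossings with every side and by a non-crossing perfect matching of the crossings on the boundary of
every facet.  If its development has no step to the west, a refinement has an edge unfolding.
-/

set_option autoImplicit false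

namespace Pool.Agent.MP42.NE

open Pool.Agent.Helper55.UNF Pool.Agent.Helper55.UNF.GridSolid Relation

variable {P : GridSolid}

/-- the frame whose east side is side `q` -/
def rt (q : ℕ) (t : P.FSt) : P.FSt :=
  if q = 0 then t else if q = 1 then t.rL else if q = 2 then t.r2 else t.rR

lemma at_rt {Q q e y : ℕ} {hK : 0 < 2 * Q + 1} {t : P.FSt}
    {f : (P.refine (2 * Q + 1) hK).Facet} (he : e ≤ 2 * Q)
    (h : At (rt q t) (2 * Q - e) y f) : At t (Rx Q q e y).1 (Rx Q q e y).2 f := by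
  unfold rt at h
  unfold Rx
  split_ifs at h ⊢
  · exact h
  · have := h.rR
    rw [FSt.rL_rR] at this
    rwa [show 2 * Q + 1 - 1 - y = 2 * Q - y by omega] at this
  · have := h.r2'
    rwa [show 2 * Q + 1 - 1 - (2 * Q - e) = e by omega,
      show 2 * Q + 1 - 1 - y = 2 * Q - y by omega] at this
  · have := h.rL
    rw [FSt.rR_rL] at this
    rwa [show 2 * Q + 1 - 1 - (2 * Q - e) = e by omega] at this

lemma rt_facet (q : ℕ) (t : P.FSt) : (rt q t).facet = t.facet := by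
  unfold rt; split_ifs <;> rfl

lemma ex_rt {s t : P.FSt} (h : s.facet = t.facet) : ∃ q < 4, s = rt q t := by
  rcases frames h with h | h | h | h
  · exact ⟨0, by omega, h⟩
  · exact ⟨1, by omega, h⟩
  · exact ⟨2, by omega, h⟩
  · exact ⟨3, by omega, h⟩

/-- the side crossed by a move -/
def sdm : Mv → P.FSt → P.FSt
  | Mv.E, w => w
  | Mv.N, w => w.rL
  | Mv.S, w => w.rR

/-- A simple closed curve in general position: the places on the east side of `t` are the pairs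
`(t, j)` with `j < n t`, counted from south to north. -/
structure Cur (P : GridSolid) where
  bs : P.Facet → P.FSt
  bs_f : ∀ F, (bs F).facet = F
  n : P.FSt → ℕ
  n_sym : ∀ t, n t.stE.r2 = n t
  mu : P.FSt × ℕ → P.FSt × ℕ
  mu_va : ∀ p : P.FSt × ℕ, p.2 < n p.1 → (mu p).2 < n (mu p).1
  mu_f : ∀ p : P.FSt × ℕ, p.2 < n p.1 → (mu p).1.facet = p.1.facet
  mu_mu : ∀ p : P.FSt × ℕ, p.2 < n p.1 → mu (mu p) = p
  mu_ne : ∀ p : P.FSt × ℕ, p.2 < n p.1 → mu p ≠ p

namespace Cur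

variable (A : Cur P)

/-- valid places -/
def Va (p : P.FSt × ℕ) : Prop := p.2 < A.n p.1

/-- number of places on the sides before side `q` -/
def off (q : ℕ) (t : P.FSt) : ℕ :=
  if q = 0 then 0 else if q = 1 then A.n t else if q = 2 then A.n t + A.n t.rL
  else A.n t + A.n t.rL + A.n t.r2

open Classical in
/-- number of a side -/
noncomputable def sd (t : P.FSt) : ℕ :=
  if h : ∃ q < 4, t = rt q (A.bs t.facet) then choose h else 0

lemma sd_spec (t : P.FSt) : A.sd t < 4 ∧ t = rt (A.sd t) (A.bs t.facet) := by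
  have h : ∃ q < 4, t = rt q (A.bs t.facet) := ex_rt (A.bs_f _).symm
  unfold sd
  rw [dif_pos h]
  exact Classical.choose_spec h

/-- number of a place on the boundary of its facet -/
noncomputable def ix (p : P.FSt × ℕ) : ℕ := A.off (A.sd p.1) (A.bs p.1.facet) + p.2

/-- the same place seen from the neighbour -/
def io (p : P.FSt × ℕ) : P.FSt × ℕ := (p.1.stE.r2, A.n p.1 - 1 - p.2)

/-- the chords of a facet do not cross -/
def NC : Prop := ∀ p p' : P.FSt × ℕ, A.Va p → A.Va p' → p.1.facet = p'.1.facet →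
  A.ix p < A.ix p' → A.ix p' < A.ix (A.mu p) →
  A.ix p < A.ix (A.mu p') ∧ A.ix (A.mu p') < A.ix (A.mu p)

variable {A}

lemma io_va {p : P.FSt × ℕ} (h : A.Va p) : A.Va (A.io p) := by
  show A.n p.1 - 1 - p.2 < A.n p.1.stE.r2
  rw [A.n_sym]
  have : p.2 < A.n p.1 := h
  omega

lemma io_io {p : P.FSt × ℕ} (h : A.Va p) : A.io (A.io p) = p := by
  unfold io
  simp only
  rw [A.n_sym]
  have h1 : p.2 < A.n p.1 := h
  ext
  · show p.1.stE.r2.stE.r2 = p.1
    rw [FSt.stE_inv, FSt.r2_r2]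
  · show A.n p.1 - 1 - (A.n p.1 - 1 - p.2) = p.2
    omega

/-- coordinate of a place on the boundary -/
noncomputable def zp (A : Cur P) (Q : ℕ) (p : P.FSt × ℕ) : ℕ :=
  A.sd p.1 * (2 * Q + 1) + (Q + 1 + 2 * p.2 - A.n p.1)

/-- the refinement is fine enough -/
def Fine (A : Cur P) (N Q : ℕ) : Prop := (∀ t, A.n t ≤ N) ∧ 5 * N + 1 ≤ Q

section

variable {N Q : ℕ} (hF : A.Fine N Q)

include hF

lemma off_le (q : ℕ) (t : P.FSt) : A.off q t ≤ 3 * N := by
  have h1 := hF.1 t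
  have h2 := hF.1 t.rL
  have h3 := hF.1 t.r2
  unfold off
  split_ifs <;> omega

lemma ix_lt {p : P.FSt × ℕ} (h : A.Va p) : A.ix p < 4 * N := by
  have h1 := off_le hF (A.sd p.1) (A.bs p.1.facet)
  have h2 := hF.1 p.1
  have h3 : p.2 < A.n p.1 := h
  unfold ix
  omega

lemma zp_gd {p : P.FSt × ℕ} (h : A.Va p) : Gd Q (4 * N) (A.zp Q p) := by
  have h1 := hF.1 p.1
  have h2 := hF.2
  have h3 : p.2 < A.n p.1 := h
  exact ⟨A.sd p.1, Q + 1 + 2 * p.2 - A.n p.1, (A.sd_spec p.1).1, rfl, by omega, by omega⟩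

omit hF in
lemma off_step {q q' : ℕ} (hq : q < q') (hq' : q' < 4) (t : P.FSt) :
    A.off q t + A.n (rt q t) ≤ A.off q' t := by
  unfold off rt
  have h : (q = 0 ∧ q' = 1) ∨ (q = 0 ∧ q' = 2) ∨ (q = 0 ∧ q' = 3) ∨ (q = 1 ∧ q' = 2) ∨
    (q = 1 ∧ q' = 3) ∨ (q = 2 ∧ q' = 3) := by omega
  rcases h with ⟨rfl, rfl⟩ | ⟨rfl, rfl⟩ | ⟨rfl, rfl⟩ | ⟨rfl, rfl⟩ | ⟨rfl, rfl⟩ | ⟨rfl, rfl⟩ <;>
    simp <;> omega

omit hF in
/-- comparison by sides -/
lemma ix_lt_of_sd {p p' : P.FSt × ℕ} (h : A.Va p) (hf : p.1.facet = p'.1.facet)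
    (hs : A.sd p.1 < A.sd p'.1) : A.ix p < A.ix p' := by
  have h1 := off_step (A := A) hs (A.sd_spec p'.1).1 (A.bs p.1.facet)
  have h2 : p.2 < A.n p.1 := h
  rw [← (A.sd_spec p.1).2] at h1
  unfold ix
  rw [← hf]
  omega

omit hF in
lemma fr_of_sd {p p' : P.FSt × ℕ} (hf : p.1.facet = p'.1.facet)
    (hs : A.sd p.1 = A.sd p'.1) : p.1 = p'.1 := by
  rw [(A.sd_spec p.1).2, (A.sd_spec p'.1).2, hs, hf]

/-- the coordinate is monotone -/
lemma zp_lt {p p' : P.FSt × ℕ} (h : A.Va p) (h' : A.Va p') (hf : p.1.facet = p'.1.facet)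
    (hi : A.ix p < A.ix p') : A.zp Q p < A.zp Q p' := by
  have h1 := hF.1 p.1
  have h1' := hF.1 p'.1
  have h2 := hF.2
  have h3 : p.2 < A.n p.1 := h
  have h3' : p'.2 < A.n p'.1 := h'
  rcases lt_trichotomy (A.sd p.1) (A.sd p'.1) with hs | hs | hs
  · have h5 : (A.sd p.1 + 1) * (2 * Q + 1) ≤ A.sd p'.1 * (2 * Q + 1) :=
      Nat.mul_le_mul_right _ hs
    have h6 : (A.sd p.1 + 1) * (2 * Q + 1) = A.sd p.1 * (2 * Q + 1) + (2 * Q + 1) := by ring
    unfold zp
    omega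
  · have e := fr_of_sd (A := A) hf hs
    have h6 : p.2 < p'.2 := by
      unfold ix at hi
      rw [hf, hs] at hi
      omega
    unfold zp
    rw [hs, e]
    omega
  · have h4 := ix_lt_of_sd (A := A) h' hf.symm hs
    omega

omit hF in
lemma ix_inj {p p' : P.FSt × ℕ} (h : A.Va p) (h' : A.Va p') (hf : p.1.facet = p'.1.facet)
    (hi : A.ix p = A.ix p') : p = p' := by
  rcases lt_trichotomy (A.sd p.1) (A.sd p'.1) with hs | hs | hs
  · have h4 := ix_lt_of_sd (A := A) h hf hs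
    omega
  · have e := fr_of_sd (A := A) hf hs
    unfold ix at hi
    rw [hf, hs] at hi
    exact Prod.ext e (by omega)
  · have h4 := ix_lt_of_sd (A := A) h' hf.symm hs
    omega

/-- the cells of a chord -/
def Lane (A : Cur P) (Q : ℕ) {hK : 0 < 2 * Q + 1} (p : P.FSt × ℕ)
    (f : (P.refine (2 * Q + 1) hK).Facet) : Prop :=
  ∃ X Y, At (A.bs p.1.facet) X Y f ∧
    CD Q (min (A.zp Q p) (A.zp Q (A.mu p))) (max (A.zp Q p) (A.zp Q (A.mu p)))
      (max (A.ix p) (A.ix (A.mu p)) - min (A.ix p) (A.ix (A.mu p))) X Y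

variable {hK : 0 < 2 * Q + 1}

omit hF in
lemma Lane_facet {p : P.FSt × ℕ} {f : (P.refine (2 * Q + 1) hK).Facet} (h : A.Lane Q p f) :
    co hK f = p.1.facet := by
  obtain ⟨X, Y, h1, -⟩ := h
  rw [h1.1, A.bs_f]

omit hF in
lemma Lane_mu {p : P.FSt × ℕ} (hp : A.Va p) {f : (P.refine (2 * Q + 1) hK).Facet}
    (h : A.Lane Q p f) : A.Lane Q (A.mu p) f := by
  obtain ⟨X, Y, h1, h2⟩ := h
  refine ⟨X, Y, ?_, ?_⟩
  · rw [A.mu_f p hp]; exact h1
  · rw [A.mu_mu p hp, min_comm (A.zp Q (A.mu p)), max_comm (A.zp Q (A.mu p)),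
      max_comm (A.ix (A.mu p)), min_comm (A.ix (A.mu p))]
    exact h2

/-- the chord reaches its place -/
lemma Lane_port {p : P.FSt × ℕ} (hp : A.Va p) {f : (P.refine (2 * Q + 1) hK).Facet}
    (hf : At p.1 (2 * Q) (Q + 1 + 2 * p.2 - A.n p.1) f) : A.Lane Q p f := by
  have h1 := hF.1 p.1
  have h2 := hF.2
  have h3 : p.2 < A.n p.1 := hp
  obtain ⟨s1, s2⟩ := A.sd_spec p.1
  have h4 : At (rt (A.sd p.1) (A.bs p.1.facet)) (2 * Q - 0) (Q + 1 + 2 * p.2 - A.n p.1) f := by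
    rw [← s2, Nat.sub_zero]; exact hf
  have h5 := at_rt (by omega) h4
  refine ⟨_, _, h5, CD_end s1 (by omega) ?_⟩
  show A.zp Q p = _ ∨ A.zp Q p = _
  rcases le_total (A.zp Q p) (A.zp Q (A.mu p)) with h | h
  · left; rw [min_eq_left h]
  · right; rw [max_eq_left h]

/-- data of a chord -/
lemma chord_data {p : P.FSt × ℕ} (hp : A.Va p) :
    Gd Q (4 * N) (min (A.zp Q p) (A.zp Q (A.mu p))) ∧
    Gd Q (4 * N) (max (A.zp Q p) (A.zp Q (A.mu p))) ∧
    min (A.zp Q p) (A.zp Q (A.mu p)) < max (A.zp Q p) (A.zp Q (A.mu p)) ∧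
    max (A.ix p) (A.ix (A.mu p)) - min (A.ix p) (A.ix (A.mu p)) < 4 * N := by
  have hm : A.Va (A.mu p) := A.mu_va p hp
  have g1 := zp_gd hF hp
  have g2 := zp_gd hF hm
  have l1 := ix_lt hF hp
  have l2 := ix_lt hF hm
  have hne : A.ix p ≠ A.ix (A.mu p) := fun h =>
    A.mu_ne p hp (ix_inj hp hm (A.mu_f p hp).symm h).symm
  have hz : A.zp Q p ≠ A.zp Q (A.mu p) := by
    rcases lt_or_gt_of_ne hne with h | h
    · exact (zp_lt hF hp hm (A.mu_f p hp).symm h).ne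
    · exact (zp_lt hF hm hp (A.mu_f p hp) h).ne'
  refine ⟨?_, ?_, ?_, ?_⟩
  · rcases le_total (A.zp Q p) (A.zp Q (A.mu p)) with h | h
    · rw [min_eq_left h]; exact g1
    · rw [min_eq_right h]; exact g2
  · rcases le_total (A.zp Q p) (A.zp Q (A.mu p)) with h | h
    · rw [max_eq_right h]; exact g2
    · rw [max_eq_left h]; exact g1
  · omega
  · omega

lemma Lane_conn {p : P.FSt × ℕ} (hp : A.Va p) {f g : (P.refine (2 * Q + 1) hK).Facet}
    (h1 : A.Lane Q p f) (h2 : A.Lane Q p g) :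
    ReflTransGen (fun a b => A.Lane Q p a ∧ A.Lane Q p b ∧ Nb a b) f g := by
  obtain ⟨X, Y, a1, a2⟩ := h1
  obtain ⟨X', Y', b1, b2⟩ := h2
  obtain ⟨c1, c2, c3, c4⟩ := chord_data hF hp
  have hQ := hF.2
  have h3 := CD_conn (p := (X, Y)) (p' := (X', Y')) c4 c1 c2 c3 a2 b2
  have h4 := gs_cells (t := A.bs p.1.facet) (hK := hK)
    (D := CD Q (min (A.zp Q p) (A.zp Q (A.mu p))) (max (A.zp Q p) (A.zp Q (A.mu p)))
      (max (A.ix p) (A.ix (A.mu p)) - min (A.ix p) (A.ix (A.mu p))))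
    (fun x y h => CD_lt (by omega) h) h3 a1 b1
  exact h4

/-- chords are disjoint -/
lemma Lane_unique (hnc : A.NC) {p p' : P.FSt × ℕ} (hp : A.Va p) (hp' : A.Va p')
    {f : (P.refine (2 * Q + 1) hK).Facet} (h1 : A.Lane Q p f) (h2 : A.Lane Q p' f) :
    p' = p ∨ p' = A.mu p := by
  by_contra hcon
  push Not at hcon
  have hff : p.1.facet = p'.1.facet := (Lane_facet h1).symm.trans (Lane_facet h2)
  -- orient both chords
  have red : ∀ p : P.FSt × ℕ, A.Va p → A.Lane Q p f → ∃ q, A.Va q ∧ A.Lane Q q f ∧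
      A.ix q < A.ix (A.mu q) ∧ q.1.facet = p.1.facet ∧ (q = p ∨ q = A.mu p) := by
    intro p hp h
    have hm : A.Va (A.mu p) := A.mu_va p hp
    have hne : A.ix p ≠ A.ix (A.mu p) := fun h =>
      A.mu_ne p hp (ix_inj hp hm (A.mu_f p hp).symm h).symm
    rcases lt_or_gt_of_ne hne with h3 | h3
    · exact ⟨p, hp, h, h3, rfl, Or.inl rfl⟩
    · refine ⟨A.mu p, hm, Lane_mu hp h, ?_, A.mu_f p hp, Or.inr rfl⟩
      rw [A.mu_mu p hp]; exact h3
  obtain ⟨q, a1, a2, a3, a4, a5⟩ := red p hp h1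
  obtain ⟨q', b1, b2, b3, b4, b5⟩ := red p' hp' h2
  have hqf : q.1.facet = q'.1.facet := by rw [a4, b4, hff]
  have hne1 : q' ≠ q := by
    rintro rfl
    rcases a5 with e | e <;> rcases b5 with e' | e'
    · exact hcon.1 (e'.symm.trans e)
    · apply hcon.2; rw [← e, e', A.mu_mu p' hp']
    · exact hcon.2 (e'.symm.trans e)
    · apply hcon.1
      rw [← A.mu_mu p' hp', ← e', e, A.mu_mu p hp]
  have hne2 : q' ≠ A.mu q := by
    intro h
    rw [h, A.mu_mu q a1] at b3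
    omega
  have m1 : A.Va (A.mu q) := A.mu_va q a1
  have m2 : A.Va (A.mu q') := A.mu_va q' b1
  have f1 := A.mu_f q a1
  have f2 := A.mu_f q' b1
  -- the four numbers are different
  have i1 : A.ix q ≠ A.ix q' := fun h => hne1 (ix_inj a1 b1 hqf h).symm
  have i2 : A.ix (A.mu q) ≠ A.ix q' := fun h =>
    hne2 (ix_inj m1 b1 (f1.trans hqf) h).symm
  have i3 : A.ix q ≠ A.ix (A.mu q') := fun h => by
    have := ix_inj a1 m2 (hqf.trans f2.symm) h
    apply hne2
    rw [this, A.mu_mu q' b1]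
  have i4 : A.ix (A.mu q) ≠ A.ix (A.mu q') := fun h => by
    have := ix_inj m1 m2 ((f1.trans hqf).trans f2.symm) h
    apply hne1
    rw [← A.mu_mu q' b1, ← this, A.mu_mu q a1]
  have n1 := hnc q q' a1 b1 hqf
  have n2 := hnc q' q b1 a1 hqf.symm
  obtain ⟨X, Y, s1, s2⟩ := a2
  obtain ⟨X', Y', t1, t2⟩ := b2
  rw [← hqf] at t1
  obtain rfl : X = X' := s1.2.1.symm.trans t1.2.1
  obtain rfl : Y = Y' := s1.2.2.symm.trans t1.2.2
  obtain ⟨c1, c2, c3, c4⟩ := chord_data hF a1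
  obtain ⟨d1, d2, d3, d4⟩ := chord_data hF b1
  have hQ := hF.2
  have z1 := zp_lt hF a1 m1 f1.symm a3
  have z2 := zp_lt hF b1 m2 f2.symm b3
  rw [min_eq_left z1.le, max_eq_right z1.le, min_eq_left a3.le, max_eq_right a3.le] at s2
  rw [min_eq_left z1.le] at c1 c3
  rw [max_eq_right z1.le] at c2 c3
  rw [min_eq_left a3.le, max_eq_right a3.le] at c4
  rw [min_eq_left z2.le, max_eq_right z2.le, min_eq_left b3.le, max_eq_right b3.le] at t2
  rw [min_eq_left z2.le] at d1 d3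
  rw [max_eq_right z2.le] at d2 d3
  rw [min_eq_left b3.le, max_eq_right b3.le] at d4
  refine CD_disj (M := 4 * N) (by omega) c4 d4 c1 c2 d1 d2 c3 d3 ?_ s2 t2
  rcases lt_or_gt_of_ne i1 with h | h
  · rcases lt_or_gt_of_ne i2 with h' | h'
    · left
      exact zp_lt hF m1 b1 (f1.trans hqf) h'
    · right; right; left
      obtain ⟨n3, n4⟩ := n1 h h'
      exact ⟨zp_lt hF a1 b1 hqf h, zp_lt hF m2 m1 ((f2.trans hqf.symm).trans f1.symm) n4,
        by omega⟩
  · rcases lt_or_gt_of_ne i3 with h' | h'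
    · right; right; right
      obtain ⟨n3, n4⟩ := n2 h h'
      exact ⟨zp_lt hF b1 a1 hqf.symm h, zp_lt hF m1 m2 ((f1.trans hqf).trans f2.symm) n4,
        by omega⟩
    · right; left
      exact zp_lt hF m2 a1 (f2.trans hqf.symm) h'

end

/-! ## Tours -/

/-- A tour along the curve with frames: moves to the east, north and south only. -/
structure Tour (A : Cur P) where
  L : ℕ
  pos : 0 < L
  x : ℕ → P.FSt × ℕ
  w : ℕ → P.FSt
  m : ℕ → Mv
  x_va : ∀ i < L, A.Va (x i)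
  x_next : ∀ i, i + 1 < L → x (i + 1) = A.mu (A.io (x i))
  x_inj : ∀ i < L, ∀ j < L, i ≠ j → x i ≠ x j ∧ x i ≠ A.mu (x j)
  w_f : ∀ i < L, (w i).facet = (x i).1.facet
  w_x : ∀ i, i + 1 < L → (x i).1 = sdm (m i) (w i)
  step : ∀ i, i + 1 < L → (m i).ap (w i) = w (i + 1)
  turn : ∀ i, i + 2 < L → ¬ (m i = Mv.N ∧ m (i + 1) = Mv.S) ∧ ¬ (m i = Mv.S ∧ m (i + 1) = Mv.N)
  cover : ∀ F : P.Facet, ∃ i < L, (x i).1.facet = F

variable {N Q : ℕ} {hK : 0 < 2 * Q + 1}

/-- gluing of two consecutive chords -/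
lemma Tour.glue (B : A.Tour) (hF : A.Fine N Q) {i : ℕ} (hi : i + 1 < B.L) :
    ∃ f g : (P.refine (2 * Q + 1) hK).Facet, A.Lane Q (B.x i) f ∧ A.Lane Q (B.x (i + 1)) g ∧
      Glue (B.w i) (B.w (i + 1)) f g (B.m i) := by
  have hv := B.x_va i (by omega)
  have h1 := hF.1 (B.x i).1
  have h2 := hF.2
  have h3 : (B.x i).2 < A.n (B.x i).1 := hv
  set t := (B.x i).1 with ht
  set j := (B.x i).2 with hj
  obtain ⟨f, hf⟩ := ex_at hK t (x := 2 * Q) (y := Q + 1 + 2 * j - A.n t) (by omega) (by omega)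
  obtain ⟨g, hg⟩ := ex_at hK t.stE (x := 0) (y := Q + 1 + 2 * j - A.n t) (by omega) (by omega)
  have hLf : A.Lane Q (B.x i) f := Lane_port hF hv hf
  have hLg : A.Lane Q (B.x (i + 1)) g := by
    rw [B.x_next i hi]
    apply Lane_mu (io_va hv)
    apply Lane_port hF (io_va hv)
    show At t.stE.r2 (2 * Q) (Q + 1 + 2 * (A.n t - 1 - j) - A.n t.stE.r2) g
    rw [A.n_sym]
    have := hg.r2
    rwa [show 2 * Q + 1 - 1 - 0 = 2 * Q by omega, show 2 * Q + 1 - 1 -
      (Q + 1 + 2 * j - A.n t) = Q + 1 + 2 * (A.n t - 1 - j) - A.n t by omega] at this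
  refine ⟨f, g, hLf, hLg, ?_⟩
  have hx := B.w_x i hi
  have hs := B.step i hi
  have hKe : 2 * Q + 1 - 1 = 2 * Q := by omega
  revert hx hs
  generalize B.m i = m
  generalize B.w i = w
  generalize B.w (i + 1) = w'
  intro hx hs
  cases m
  · -- E
    have e1 : t = w := hx
    have e2 : w.stE = w' := hs
    refine ⟨Q + 1 + 2 * j - A.n t, ?_, ?_⟩
    · rw [hKe, ← e1]; exact hf
    · rw [← e2, ← e1]; exact hg
  · -- N
    have e1 : t = w.rL := hx
    have e2 : w.stN = w' := hs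
    refine ⟨2 * Q + 1 - 1 - (Q + 1 + 2 * j - A.n t), ?_, ?_⟩
    · rw [hKe]
      have := hf.rR
      have e3 : t.rR = w := by rw [e1, FSt.rL_rR]
      rwa [e3] at this
    · have h5 := hg.rR
      have e3 : t.stE.rR = w' := by rw [e1, stE_rL, FSt.rL_rR, e2]
      rwa [e3] at h5
  · -- S
    have e1 : t = w.rR := hx
    have e2 : pN.symm w = w' := hs
    refine ⟨Q + 1 + 2 * j - A.n t, ?_, ?_⟩
    · have := hf.rL
      have e3 : t.rL = w := by rw [e1, FSt.rR_rL]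
      rwa [e3, show 2 * Q + 1 - 1 - 2 * Q = 0 by omega] at this
    · have h5 := hg.rL
      have e3 : t.stE.rL = w' := by rw [e1, ← pN_symm_eq, e2]
      rwa [e3, Nat.sub_zero] at h5

/-- the walk of a tour -/
noncomputable def Tour.walk (B : A.Tour) (hF : A.Fine N Q) (hnc : A.NC) :
    SeedWalk P (2 * Q + 1) hK where
  n := B.L
  pos := B.pos
  w := B.w
  m := B.m
  step := B.step
  turn := B.turn
  S := fun i => A.Lane Q (B.x i)
  S_facet := fun i hi f hf => by rw [Lane_facet hf, B.w_f i hi]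
  disj := fun i hi j hj f h1 h2 => by
    by_contra hne
    obtain ⟨h3, h4⟩ := B.x_inj j hj i hi (fun h => hne h.symm)
    rcases Lane_unique hF hnc (B.x_va i hi) (B.x_va j hj) h1 h2 with h | h
    · exact h3 h
    · exact h4 h
  conn := fun i hi f g h1 h2 => Lane_conn hF (B.x_va i hi) h1 h2
  cover := fun F => by
    obtain ⟨i, hi, h⟩ := B.cover F
    exact ⟨i, hi, by rw [B.w_f i hi, h]⟩
  ne := fun i hi => by
    have hv := B.x_va i hi
    have h1 := hF.1 (B.x i).1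
    have h2 := hF.2
    have h3 : (B.x i).2 < A.n (B.x i).1 := hv
    obtain ⟨f, hf⟩ := ex_at hK (B.x i).1 (x := 2 * Q)
      (y := Q + 1 + 2 * (B.x i).2 - A.n (B.x i).1) (by omega) (by omega)
    exact ⟨f, Lane_port hF hv hf⟩
  glueE := fun i hi hm => by
    obtain ⟨f, g, h1, h2, h3⟩ := B.glue (hK := hK) hF hi
    rw [hm] at h3
    obtain ⟨y, h4, h5⟩ := h3
    exact ⟨f, g, y, h1, h2, h4, h5⟩
  glueN := fun i hi hm => by
    obtain ⟨f, g, h1, h2, h3⟩ := B.glue (hK := hK) hF hi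
    rw [hm] at h3
    obtain ⟨y, h4, h5⟩ := h3
    exact ⟨f, g, y, h1, h2, h4, h5⟩
  glueS := fun i hi hm => by
    obtain ⟨f, g, h1, h2, h3⟩ := B.glue (hK := hK) hF hi
    rw [hm] at h3
    obtain ⟨y, h4, h5⟩ := h3
    exact ⟨f, g, y, h1, h2, h4, h5⟩

/-- **Layout of a tour.** -/
theorem Tour.hasEdgeUnfolding (B : A.Tour) (hF : A.Fine N Q) (hnc : A.NC)
    (hK : 0 < 2 * Q + 1) : (P.refine (2 * Q + 1) hK).HasEdgeUnfolding :=
  (B.walk (hK := hK) hF hnc).hasEdgeUnfolding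

end Cur

end Pool.Agent.MP42.NE
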