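import Pool.Agent.MP42.NE.Cur

/-!
# Layout of a simple closed curve: the orbit version
-/

set_option autoImplicit false

namespace Pool.Agent.MP42.NE

open Pool.Agent.Helper55.UNF Pool.Agent.Helper55.UNF.GridSolid Relation

variable {P : GridSolid}

lemma sdm_facet (m : Mv) (w : P.FSt) : (sdm m w).facet = w.facet := by cases m <;> rfl

namespace Cur

variable (A : Cur P)

lemma fin_va : Set.Finite {p : P.FSt × ℕ | A.Va p} := by
  obtain ⟨k, hk⟩ : ∃ k, ∀ t : P.FSt, A.n t ≤ k := by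
    have : Finite P.FSt := inferInstance
    obtain ⟨k, hk⟩ := (Set.finite_range A.n).bddAbove
    exact ⟨k, fun t => hk ⟨t, rfl⟩⟩
  apply Set.Finite.subset (s := (Set.univ : Set P.FSt) ×ˢ (Set.Iio k))
  · exact Set.Finite.prod (Set.toFinite _) (Set.finite_Iio k)
  · rintro ⟨t, j⟩ h
    exact ⟨trivial, lt_of_lt_of_le h (hk t)⟩

/-- the strands of the curve: a place stands for the chord that leaves its facet there -/
def orb : Orb (P.FSt × ℕ) where
  Va := A.Va
  sc := fun p => A.mu (A.io p)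
  rv := A.mu
  fin := A.fin_va
  sc_va := fun h => A.mu_va _ (io_va h)
  rv_va := fun h => A.mu_va _ h
  rv_rv := fun h => A.mu_mu _ h
  sc_rv_sc := fun {p} h => by
    show A.mu (A.io (A.mu (A.mu (A.io p)))) = A.mu p
    rw [A.mu_mu _ (io_va h), io_io h]
  sc_ne_rv := fun {p} h hcon => by
    have h1 : (A.mu (A.io p)).1.facet = (A.mu p).1.facet := by rw [hcon]
    rw [A.mu_f _ (io_va h), A.mu_f _ h] at h1
    exact FSt.stE_facet_ne p.1 h1
  rv_ne := fun h => A.mu_ne _ h

variable {A}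

/-- **Layout of a simple closed curve.**  `w p` is the frame in the facet left at the place `p` and
`m p` the move over this place. -/
theorem hasEdgeUnfolding {N Q : ℕ} (hF : A.Fine N Q) (hnc : A.NC) (hC : A.orb.Conn)
    (hcov : ∀ F : P.Facet, ∃ p, A.Va p ∧ p.1.facet = F)
    {s0 : P.FSt × ℕ} (hs0 : A.Va s0) (w : P.FSt × ℕ → P.FSt) (m : P.FSt × ℕ → Mv)
    (hwf : ∀ p, A.Va p → (w p).facet = p.1.facet)
    (hw : ∀ p, A.Va p → A.mu (A.io p) ≠ s0 → p ≠ A.mu s0 →
      p.1 = sdm (m p) (w p) ∧ (m p).ap (w p) = w (A.mu (A.io p)))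
    (hturn : ∀ p, A.Va p → A.mu (A.io p) ≠ s0 → p ≠ A.mu s0 →
      A.mu (A.io (A.mu (A.io p))) ≠ s0 → A.mu (A.io p) ≠ A.mu s0 →
      ¬ (m p = Mv.N ∧ m (A.mu (A.io p)) = Mv.S) ∧ ¬ (m p = Mv.S ∧ m (A.mu (A.io p)) = Mv.N))
    (hK : 0 < 2 * Q + 1) : (P.refine (2 * Q + 1) hK).HasEdgeUnfolding := by
  have hs : A.orb.Va s0 := hs0
  let B : A.Tour :=
    { L := A.orb.per s0
      pos := (Orb.per_spec hs).1
      x := A.orb.it s0
      w := fun i => w (A.orb.it s0 i)
      m := fun i => m (A.orb.it s0 i)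
      x_va := fun i _ => Orb.it_va hs i
      x_next := fun i _ => A.orb.it_succ s0 i
      x_inj := fun i hi j hj hne => ⟨fun h => hne (Orb.per_inj hs hi hj h),
        Orb.no_rev' hs i j⟩
      w_f := fun i _ => hwf _ (Orb.it_va hs i)
      w_x := fun i hi => (hw _ (Orb.it_va hs i) (Orb.sc_ne_start hs hi)
        (Orb.no_rev' hs i 0)).1
      step := fun i hi => by
        show (m (A.orb.it s0 i)).ap (w (A.orb.it s0 i)) = w (A.orb.it s0 (i + 1))
        rw [(hw _ (Orb.it_va hs i) (Orb.sc_ne_start hs hi) (Orb.no_rev' hs i 0)).2,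
          A.orb.it_succ]
        rfl
      turn := fun i hi => by
        have h1 := hturn _ (Orb.it_va hs i) (Orb.sc_ne_start hs (show i + 1 < _ by omega))
          (Orb.no_rev' hs i 0)
        have e1 : A.mu (A.io (A.orb.it s0 i)) = A.orb.it s0 (i + 1) := (A.orb.it_succ s0 i).symm
        rw [e1] at h1
        exact h1 (Orb.sc_ne_start hs hi) (Orb.no_rev' hs (i + 1) 0)
      cover := fun F => by
        obtain ⟨p, h1, h2⟩ := hcov F
        obtain ⟨i, hi, h3⟩ := Orb.cover hs hC (u := p) h1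
        refine ⟨i, hi, ?_⟩
        rcases h3 with h3 | h3
        · rw [h3]; exact h2
        · rw [h3]
          show (A.mu p).1.facet = F
          rw [A.mu_f p h1, h2] }
  exact B.hasEdgeUnfolding hF hnc hK

end Cur

end Pool.Agent.MP42.NE
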