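import Pool.Agent.MP42.NE.Stk

/-!
# Half-infinite stacks of a flow
-/

set_option autoImplicit false

namespace Pool.Agent.MP42.NE

namespace Sys

variable {D : Type*} {S : Sys D} {e : D → ℕ} {v : D → ℤ} {K : ℕ} {T U : D → ℕ → Prop}

/-- sum of `v` over the next `n` darts to the east -/
def PS (S : Sys D) (v : D → ℤ) (n : ℕ) (x : D) : ℤ := ∑ i ∈ Finset.range n, v ((S.E ^ (i + 1)) x)

/-- the hypotheses on the crossings of the rings -/
structure Two (S : Sys D) (v : D → ℤ) (K : ℕ) : Prop where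
  lb : ∀ n x, -(K : ℤ) ≤ S.PS v n x
  cyc : ∀ x, ∃ n, (S.E ^ n) x = x ∧ S.PS v n x = 2

lemma PS_zero (x : D) : S.PS v 0 x = 0 := by simp [PS]

lemma PS_one (x : D) : S.PS v 1 x = v (S.E x) := by simp [PS]

lemma PS_succ (n : ℕ) (x : D) : S.PS v (n + 1) x = S.PS v n x + v ((S.E ^ (n + 1)) x) := by
  unfold PS; rw [Finset.sum_range_succ]

lemma PS_add (m n : ℕ) (x : D) : S.PS v (m + n) x = S.PS v m x + S.PS v n ((S.E ^ m) x) := by
  induction n with
  | zero => rw [PS_zero]; simp
  | succ n ih =>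
    rw [← Nat.add_assoc, PS_succ, PS_succ, ih]
    have : (S.E ^ (m + n + 1)) x = (S.E ^ (n + 1)) ((S.E ^ m) x) := by
      rw [← Equiv.Perm.mul_apply, ← pow_add]
      congr 2; omega
    rw [this]; ring

lemma PS_succ' (n : ℕ) (x : D) : S.PS v (n + 1) x = v (S.E x) + S.PS v n (S.E x) := by
  rw [Nat.add_comm, PS_add, PS_one, pow_one]

lemma Two.ub (h : S.Two v K) {n : ℕ} {x : D} (h1 : S.PS v n x = 2) {m : ℕ} (hm : m ≤ n) :
    S.PS v m x ≤ K + 2 := by
  obtain ⟨k, rfl⟩ := Nat.exists_eq_add_of_le hm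
  rw [PS_add] at h1
  have := h.lb k ((S.E ^ m) x)
  omega

lemma Two.vge (h : S.Two v K) (x : D) : -(K : ℤ) ≤ v x := by
  obtain ⟨y, rfl⟩ := S.E.surjective x
  have h1 := h.lb 1 y
  rwa [PS_one] at h1

lemma Two.vle (h : S.Two v K) (x : D) : v x ≤ K + 2 := by
  obtain ⟨y, rfl⟩ := S.E.surjective x
  obtain ⟨n, _, hn⟩ := h.cyc y
  have h1 : S.PS v 1 y ≤ K + 2 := by
    refine h.ub hn ?_
    by_contra hc
    have : n = 0 := by omega
    subst this
    rw [PS_zero] at hn
    omega
  rwa [PS_one] at h1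

/-- sum of `v` over the south sides of the next `n` darts to the east -/
def QS (S : Sys D) (v : D → ℤ) (n : ℕ) (x : D) : ℤ := ∑ i ∈ Finset.range n, v (S.om ((S.E ^ i) x))

lemma QS_zero (x : D) : S.QS v 0 x = 0 := by simp [QS]

lemma QS_succ (n : ℕ) (x : D) : S.QS v (n + 1) x = S.QS v n x + v (S.om ((S.E ^ n) x)) := by
  unfold QS; rw [Finset.sum_range_succ]

lemma pow_succ_E (n : ℕ) (x : D) : (S.E ^ (n + 1)) x = S.E ((S.E ^ n) x) := by
  rw [pow_succ']; rfl

lemma pow_succ_E' (n : ℕ) (x : D) : (S.E ^ (n + 1)) x = (S.E ^ n) (S.E x) := by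
  rw [pow_succ]; rfl

lemma QS_eq (n : ℕ) (x : D) : S.QS v n x = S.PS v n (S.om ((S.E ^ n) x)) := by
  induction n with
  | zero => rw [QS_zero, PS_zero]
  | succ n ih =>
    rw [QS_succ, ih, PS_succ', pow_succ_E, E_om_E]; ring

lemma Two.qlb (h : S.Two v K) (n : ℕ) (x : D) : -(K : ℤ) ≤ S.QS v n x := by
  rw [QS_eq]; exact h.lb _ _

lemma Fl.e_pow (hF : S.Fl e v) (n : ℕ) (x : D) :
    (e ((S.E ^ n) x) : ℤ) = e x + S.QS v n x - S.PS v n x := by
  induction n with
  | zero => rw [QS_zero, PS_zero]; simp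
  | succ n ih =>
    have h := hF.bE ((S.E ^ n) x)
    rw [QS_succ, PS_succ, pow_succ_E]
    omega

/-! ## Half-infinite stacks -/

/-- half-infinite stacks -/
structure Half (S : Sys D) (v : D → ℤ) (U : D → ℕ → Prop) : Prop where
  st : ∀ x i, U x ((v (S.E x)).toNat + i) ↔ U (S.E x) ((-v (S.E x)).toNat + i)
  rb : ∀ x j, j < (v x).natAbs → (S.vw v U x j ↔ S.vw v U (S.ta x) ((v x).natAbs - 1 - j))

lemma vw_not (x : D) (j : ℕ) : S.vw v (fun x j => ¬ U x j) x j ↔ ¬ S.vw v U x j := by
  unfold vw; split_ifs <;> exact Iff.rfl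

lemma vw_and (x : D) (j : ℕ) :
    S.vw v (fun x j => U x j ∧ T x j) x j ↔ (S.vw v U x j ∧ S.vw v T x j) := by
  unfold vw; split_ifs <;> exact Iff.rfl

lemma Half.not (h : S.Half v U) : S.Half v (fun x j => ¬ U x j) where
  st := fun x i => not_congr (h.st x i)
  rb := fun x j hj => by
    rw [vw_not, vw_not]; exact not_congr (h.rb x j hj)

lemma Half.and (h : S.Half v U) (h' : S.Half v T) : S.Half v (fun x j => U x j ∧ T x j) where
  st := fun x i => and_congr (h.st x i) (h'.st x i)
  rb := fun x j hj => by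
    rw [vw_and, vw_and]; exact and_congr (h.rb x j hj) (h'.rb x j hj)

lemma Half.step (h : S.Half v U) (x : D) {j j' : ℕ} (hj : (j' : ℤ) = j - v (S.E x)) :
    U x j ↔ U (S.E x) j' := by
  have := h.st x (j - (v (S.E x)).toNat)
  rw [show (v (S.E x)).toNat + (j - (v (S.E x)).toNat) = j by omega,
    show (-v (S.E x)).toNat + (j - (v (S.E x)).toNat) = j' by omega] at this
  exact this

lemma Half.follow (h : S.Half v U) (n : ℕ) (x : D) : ∀ (j j' : ℕ),
    (∀ i ≤ n, S.PS v i x ≤ j) → (j' : ℤ) = j - S.PS v n x → (U x j ↔ U ((S.E ^ n) x) j') := by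
  induction n with
  | zero =>
    intro j j' _ h2
    rw [PS_zero] at h2
    rw [show j' = j by omega]; rfl
  | succ n ih =>
    intro j j' h1 h2
    have h3 := h1 n (by omega)
    rw [PS_succ] at h2
    rw [ih j ((j : ℤ) - S.PS v n x).toNat (fun i hi => h1 i (by omega)) (by omega), pow_succ_E]
    apply h.step
    rw [← pow_succ_E]
    omega

lemma Half.per (h : S.Half v U) (hT : S.Two v K) (x : D) {J : ℕ} (hJ : K ≤ J) :
    U x (J + 2) ↔ U x J := by
  obtain ⟨n, h1, h2⟩ := hT.cyc x
  have h3 := h.follow n x (J + 2) J (fun i hi => by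
    have := hT.ub h2 hi
    omega) (by omega)
  rwa [h1] at h3

lemma Half.core (h : S.Half v U) (hT : S.Two v K) (x : D) {J J' : ℕ} (hJ : K ≤ J) (hJ' : K ≤ J')
    (hp : J % 2 = J' % 2) : U x J ↔ U x J' := by
  have key : ∀ k J, K ≤ J → (U x (J + 2 * k) ↔ U x J) := by
    intro k
    induction k with
    | zero => intro J _; rfl
    | succ k ih =>
      intro J hJ
      rw [show J + 2 * (k + 1) = (J + 2 * k) + 2 by ring, h.per hT x (by omega), ih J hJ]
  rcases le_total J J' with h1 | h1
  · have := key ((J' - J) / 2) J hJ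
    rw [show J + 2 * ((J' - J) / 2) = J' by omega] at this
    exact this.symm
  · have := key ((J - J') / 2) J' hJ'
    rw [show J' + 2 * ((J - J') / 2) = J by omega] at this
    exact this

/-! ## From the stacks of a flow with many strands -/

lemma Stk.step (h : S.Stk e v T) (x : D) {j j' : ℕ} (hj : (j' : ℤ) = j - v (S.E x))
    (h1 : j < e x) (h2 : j' < e (S.E x)) : T x j ↔ T (S.E x) j' := by
  have := h.st x (j - (v (S.E x)).toNat)
  rw [show (v (S.E x)).toNat + (j - (v (S.E x)).toNat) = j by omega,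
    show (-v (S.E x)).toNat + (j - (v (S.E x)).toNat) = j' by omega] at this
  exact this h1 h2

lemma Stk.follow (h : S.Stk e v T) (n : ℕ) (x : D) : ∀ (j j' : ℕ),
    (∀ i ≤ n, S.PS v i x ≤ j) → (∀ i ≤ n, (j : ℤ) - S.PS v i x < e ((S.E ^ i) x)) →
    (j' : ℤ) = j - S.PS v n x → (T x j ↔ T ((S.E ^ n) x) j') := by
  induction n with
  | zero =>
    intro j j' _ _ h2
    rw [PS_zero] at h2
    rw [show j' = j by omega]; rfl
  | succ n ih =>
    intro j j' h1 h4 h2
    have h3 := h1 n (by omega)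
    have h5 := h4 n (by omega)
    have h6 := h4 (n + 1) le_rfl
    rw [PS_succ] at h2 h6
    rw [pow_succ_E] at h6
    rw [ih j ((j : ℤ) - S.PS v n x).toNat (fun i hi => h1 i (by omega))
      (fun i hi => h4 i (by omega)) (by omega), pow_succ_E]
    apply h.step
    · rw [← pow_succ_E]
      omega
    · omega
    · rw [← pow_succ_E] at h6 ⊢
      omega

lemma Stk.per (h : S.Stk e v T) (hF : S.Fl e v) (hT : S.Two v K) (x : D) {J : ℕ} (hJ : K ≤ J)
    (hJ' : J + 2 + K < e x) : T x (J + 2) ↔ T x J := by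
  obtain ⟨n, h1, h2⟩ := hT.cyc x
  have h3 := h.follow n x (J + 2) J (fun i hi => by
    have := hT.ub h2 hi
    omega) (fun i hi => by
    have h4 := hF.e_pow i x
    have h5 := hT.qlb i x
    omega) (by omega)
  rwa [h1] at h3

lemma Stk.core (h : S.Stk e v T) (hF : S.Fl e v) (hT : S.Two v K) (x : D) {J J' : ℕ}
    (hJ : K ≤ J) (hJ' : K ≤ J') (hJe : J + K < e x) (hJe' : J' + K < e x)
    (hp : J % 2 = J' % 2) : T x J ↔ T x J' := by
  have key : ∀ k J, K ≤ J → J + 2 * k + K < e x → (T x (J + 2 * k) ↔ T x J) := by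
    intro k
    induction k with
    | zero => intro J _ _; rfl
    | succ k ih =>
      intro J hJ hk
      rw [show J + 2 * (k + 1) = (J + 2 * k) + 2 by ring, h.per hF hT x (by omega) (by omega),
        ih J hJ (by omega)]
  rcases le_total J J' with h1 | h1
  · have := key ((J' - J) / 2) J hJ (by omega)
    rw [show J + 2 * ((J' - J) / 2) = J' by omega] at this
    exact this.symm
  · have := key ((J - J') / 2) J' hJ' (by omega)
    rw [show J' + 2 * ((J - J') / 2) = J by omega] at this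
    exact this

/-- representative of the index in the first `2 * K + 2` strands -/
def fold (K j : ℕ) : ℕ := if j < 2 * K + 2 then j else 2 * K + j % 2

lemma fold_lt {j : ℕ} (h : j < 2 * K + 2) : fold K j = j := if_pos h

lemma fold_ge {j : ℕ} (h : K ≤ j) : K ≤ fold K j := by unfold fold; split_ifs <;> omega

lemma fold_le (j : ℕ) : fold K j < 2 * K + 2 := by unfold fold; split_ifs <;> omega

lemma fold_mod (j : ℕ) : fold K j % 2 = j % 2 := by unfold fold; split_ifs <;> omega

theorem Stk.half (h : S.Stk e v T) (hF : S.Fl e v) (hT : S.Two v K)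
    (he : ∀ x, 4 * K + 4 ≤ e x) : S.Half v (fun x j => T x (fold K j)) where
  st := fun x i => by
    have h1 := hT.vge (S.E x)
    have h2 := hT.vle (S.E x)
    have h3 := he x
    have h4 := he (S.E x)
    by_cases hs : (v (S.E x)).toNat + i < 2 * K + 2 ∧ (-v (S.E x)).toNat + i < 2 * K + 2
    · rw [fold_lt hs.1, fold_lt hs.2]
      exact h.st x i (by omega) (by omega)
    · have ha : K ≤ (v (S.E x)).toNat + i := by omega
      have hb : K ≤ (-v (S.E x)).toNat + i := by omega
      have h5 := fold_ge ha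
      have h6 := fold_ge hb
      have h7 := fold_le (K := K) ((v (S.E x)).toNat + i)
      have h8 := fold_le (K := K) ((-v (S.E x)).toNat + i)
      have h9 := fold_mod (K := K) ((v (S.E x)).toNat + i)
      have h10 := fold_mod (K := K) ((-v (S.E x)).toNat + i)
      have h11 := h.st x (K + (i + K) % 2) (by omega) (by omega)
      rw [h.core hF hT x (J' := (v (S.E x)).toNat + (K + (i + K) % 2)) h5 (by omega) (by omega)
        (by omega) (by omega), h11]
      exact h.core hF hT (S.E x) (by omega) h6 (by omega) (by omega) (by omega)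
  rb := fun x j hj => by
    have h1 := hT.vge x
    have h2 := hT.vle x
    have h3 := h.rb x j hj
    simp only [vw] at h3 ⊢
    rw [fold_lt (by omega), fold_lt (by omega)]
    exact h3

theorem Stk.match (h : S.Stk e v T) (hF : S.Fl e v) (hT : S.Two v K)
    (he : ∀ x, 4 * K + 4 ≤ e x) (x : D) {J J' : ℕ} (hJ : K ≤ J) (hJ' : K ≤ J')
    (hp : (J + J' + 1) % 2 = e x % 2) : T x (fold K J) ↔ T (S.om x) (fold K J') := by
  have h1 := he x
  have h2 := fold_ge hJ
  have h3 := fold_ge hJ'
  have h4 := fold_le (K := K) J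
  have h5 := fold_le (K := K) J'
  have h6 := fold_mod (K := K) J
  have h7 := fold_mod (K := K) J'
  have h8 := h.rv x (e x - 1 - fold K J) (by omega)
  rw [show e x - 1 - (e x - 1 - fold K J) = fold K J by omega] at h8
  rw [← h8]
  have h9 := hF.e_om x
  exact h.core hF hT (S.om x) (by omega) h3 (by omega) (by omega) (by omega)

theorem Stk.recon (h : S.Stk e v T) (hF : S.Fl e v) (hT : S.Two v K)
    (he : ∀ x, 4 * K + 4 ≤ e x) (x : D) {j : ℕ} (hj : j < e x) :
    (T x j ↔ T x (fold K j)) ∨ (T x j ↔ T (S.om x) (fold K (e x - 1 - j))) := by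
  have h1 := he x
  by_cases h2 : j < 2 * K + 2
  · left; rw [fold_lt h2]
  · by_cases h3 : j + K < e x
    · left
      have h5 := fold_ge (K := K) (j := j) (by omega)
      have h4 := fold_le (K := K) j
      have h6 := fold_mod (K := K) j
      exact h.core hF hT x (by omega) (by omega) (by omega) (by omega) (by omega)
    · right
      rw [fold_lt (by omega)]
      have h8 := h.rv x (e x - 1 - j) (by omega)
      rw [show e x - 1 - (e x - 1 - j) = j by omega] at h8
      exact h8.symm

end Sys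

end Pool.Agent.MP42.NE
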