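import Mathlib

/-!
# Kotzig's switching argument in predicate form
-/

set_option autoImplicit false

namespace Pool.Agent.MP42.NE.Kotz

open Classical in
/-- indicator of a proposition -/
noncomputable def ind (p : Prop) : ℕ := if p then 1 else 0

lemma ind_congr {p q : Prop} (h : p ↔ q) : ind p = ind q := by
  have : p = q := propext h
  rw [this]

lemma ind_true {p : Prop} (h : p) : ind p = 1 := by unfold ind; rw [if_pos h]

lemma ind_false {p : Prop} (h : ¬ p) : ind p = 0 := by unfold ind; rw [if_neg h]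

variable {V A : Type*}

/-- `g` is constant along the relation `R` -/
def Inv (R : V → V → Prop) (g : V → Prop) : Prop := ∀ x y, R x y → (g x ↔ g y)

/-- the four ends of a band have the same value -/
def Con4 (n1 n2 s1 s2 : A → V) (g : V → Prop) (a : A) : Prop :=
  (g (n1 a) ↔ g (n2 a)) ∧ (g (n1 a) ↔ g (s1 a)) ∧ (g (n1 a) ↔ g (s2 a))

/-- the band is passed straight (`b = true`) or crossed (`b = false`) -/
def Pass (n1 n2 s1 s2 : A → V) (b : Bool) (g : V → Prop) (a : A) : Prop :=
  if b then (g (n1 a) ↔ g (s1 a)) ∧ (g (n2 a) ↔ g (s2 a))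
  else (g (n1 a) ↔ g (s2 a)) ∧ (g (n2 a) ↔ g (s1 a))

lemma Pass.even {n1 n2 s1 s2 : A → V} {b : Bool} {g : V → Prop} {a : A}
    (h : Pass n1 n2 s1 s2 b g a) :
    Even (ind (g (n1 a)) + ind (g (n2 a)) + ind (g (s1 a)) + ind (g (s2 a))) := by
  unfold Pass at h
  cases b
  · simp only [Bool.false_eq_true, if_false] at h
    rw [ind_congr h.1, ind_congr h.2]
    exact ⟨ind (g (s2 a)) + ind (g (s1 a)), by ring⟩
  · simp only [if_true] at h
    rw [ind_congr h.1, ind_congr h.2]
    exact ⟨ind (g (s1 a)) + ind (g (s2 a)), by ring⟩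

lemma Con4.even {n1 n2 s1 s2 : A → V} {g : V → Prop} {a : A}
    (h : Con4 n1 n2 s1 s2 g a) :
    Even (ind (g (n1 a)) + ind (g (n2 a)) + ind (g (s1 a)) + ind (g (s2 a))) := by
  obtain ⟨h1, h2, h3⟩ := h
  rw [← ind_congr h1, ← ind_congr h2, ← ind_congr h3]
  exact ⟨ind (g (n1 a)) + ind (g (n1 a)), by ring⟩

/-- **Kotzig**: if the network is connected after the contraction of all bands, every band can be
passed straight or crossed such that it is connected.  `I` = the families that are consistent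
outside of the bands. -/
theorem kotzigI [Fintype A] (I : (V → Prop) → Prop)
    (hnot : ∀ g, I g → I (fun v => ¬ g v))
    (hand : ∀ g g', I g → I g' → I (fun v => g v ∧ g' v)) (n1 n2 s1 s2 : A → V)
    (H1 : ∀ g : V → Prop, I g → (∀ a, Con4 n1 n2 s1 s2 g a) → ∀ x y, g x ↔ g y)
    (H2 : ∀ g : V → Prop, I g →
      Even (∑ a, (ind (g (n1 a)) + ind (g (n2 a)) + ind (g (s1 a)) + ind (g (s2 a))))) :
    ∃ τ : A → Bool, ∀ g : V → Prop, I g → (∀ a, Pass n1 n2 s1 s2 (τ a) g a) →
      ∀ x y, g x ↔ g y := by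
  classical
  suffices H : ∀ F : Finset A, ∃ τ : A → Bool, ∀ g : V → Prop, I g →
      (∀ a ∈ F, Pass n1 n2 s1 s2 (τ a) g a) → (∀ a ∉ F, Con4 n1 n2 s1 s2 g a) →
      ∀ x y, g x ↔ g y by
    obtain ⟨τ, hτ⟩ := H Finset.univ
    exact ⟨τ, fun g hg h => hτ g hg (fun a _ => h a) (fun a ha => absurd (Finset.mem_univ a) ha)⟩
  intro F
  induction F using Finset.induction_on with
  | empty =>
    exact ⟨fun _ => true, fun g hg _ h => H1 g hg (fun a => h a (by simp))⟩
  | insert a F ha ih =>
    obtain ⟨τ, hτ⟩ := ih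
    by_contra hcon
    have key : ∀ b : Bool, ∃ g : V → Prop, I g ∧
        (∀ c ∈ F, Pass n1 n2 s1 s2 (τ c) g c) ∧ Pass n1 n2 s1 s2 b g a ∧
        (∀ c ∉ insert a F, Con4 n1 n2 s1 s2 g c) ∧ ∃ x y, ¬ (g x ↔ g y) := by
      intro b
      by_contra hb
      apply hcon
      refine ⟨Function.update τ a b, ?_⟩
      intro g hg h1 h2 x y
      by_contra hxy
      apply hb
      refine ⟨g, hg, ?_, ?_, h2, x, y, hxy⟩
      · intro c hc
        have := h1 c (Finset.mem_insert_of_mem hc)
        rwa [Function.update_of_ne (by rintro rfl; exact ha hc)] at this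
      · have := h1 a (Finset.mem_insert_self a F)
        rwa [Function.update_self] at this
    -- the values at the ends of the band `a`
    have key2 : ∀ b : Bool, ∃ g : V → Prop, I g ∧
        (∀ c ∈ F, Pass n1 n2 s1 s2 (τ c) g c) ∧ Pass n1 n2 s1 s2 b g a ∧
        (∀ c ∉ insert a F, Con4 n1 n2 s1 s2 g c) ∧ g (n1 a) ∧ ¬ g (n2 a) := by
      intro b
      obtain ⟨g, hg, h1, h2, h3, x, y, hxy⟩ := key b
      have h4 : ¬ (g (n1 a) ↔ g (n2 a)) := by
        intro h4
        apply hxy
        apply hτ g hg h1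
        intro c hc
        by_cases hca : c = a
        · subst hca
          refine ⟨h4, ?_⟩
          unfold Pass at h2
          cases b
          · simp only [Bool.false_eq_true, if_false] at h2
            exact ⟨h4.trans h2.2, h2.1⟩
          · simp only [if_true] at h2
            exact ⟨h2.1, h4.trans h2.2⟩
        · exact h3 c (by simp [hca, hc])
      by_cases h5 : g (n1 a)
      · exact ⟨g, hg, h1, h2, h3, h5, fun h6 => h4 ⟨fun _ => h6, fun _ => h5⟩⟩
      · have h6 : g (n2 a) := by
          by_contra h6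
          exact h4 ⟨fun h => absurd h h5, fun h => absurd h h6⟩
        refine ⟨fun v => ¬ g v, hnot g hg, ?_, ?_, ?_, h5,
          fun h => h h6⟩
        · intro c hc
          have := h1 c hc
          unfold Pass at this ⊢
          split_ifs with hb <;> simp only [hb, if_true, if_false, Bool.false_eq_true] at this <;>
            exact ⟨not_congr this.1, not_congr this.2⟩
        · unfold Pass at h2 ⊢
          split_ifs with hb <;> simp only [hb, if_true, if_false, Bool.false_eq_true] at h2 <;>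
            exact ⟨not_congr h2.1, not_congr h2.2⟩
        · intro c hc
          have := h3 c hc
          exact ⟨not_congr this.1, not_congr this.2.1, not_congr this.2.2⟩
    obtain ⟨g, hg, h1, h2, h3, h4, h5⟩ := key2 true
    obtain ⟨g', hg', h1', h2', h3', h4', h5'⟩ := key2 false
    have hinv : I (fun v => g v ∧ g' v) := hand g g' hg hg'
    have hev := H2 _ hinv
    rw [← Finset.add_sum_erase _ _ (Finset.mem_univ a)] at hev
    have hrest : Even (∑ c ∈ Finset.univ.erase a, (ind (g (n1 c) ∧ g' (n1 c)) +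
        ind (g (n2 c) ∧ g' (n2 c)) + ind (g (s1 c) ∧ g' (s1 c)) + ind (g (s2 c) ∧ g' (s2 c)))) := by
      apply Finset.even_sum
      intro c hc
      have hca : c ≠ a := Finset.ne_of_mem_erase hc
      by_cases hcF : c ∈ F
      · have hp : Pass n1 n2 s1 s2 (τ c) (fun v => g v ∧ g' v) c := by
          have e1 := h1 c hcF
          have e2 := h1' c hcF
          unfold Pass at e1 e2 ⊢
          split_ifs with hb <;>
            simp only [hb, if_true, if_false, Bool.false_eq_true] at e1 e2 <;>
            exact ⟨and_congr e1.1 e2.1, and_congr e1.2 e2.2⟩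
        exact hp.even
      · have hp : Con4 n1 n2 s1 s2 (fun v => g v ∧ g' v) c := by
          have e1 := h3 c (by simp [hca, hcF])
          have e2 := h3' c (by simp [hca, hcF])
          exact ⟨and_congr e1.1 e2.1, and_congr e1.2.1 e2.2.1, and_congr e1.2.2 e2.2.2⟩
        exact hp.even
    have hodd : ind (g (n1 a) ∧ g' (n1 a)) + ind (g (n2 a) ∧ g' (n2 a)) +
        ind (g (s1 a) ∧ g' (s1 a)) + ind (g (s2 a) ∧ g' (s2 a)) = 1 := by
      unfold Pass at h2 h2'
      simp only [if_true] at h2
      simp only [Bool.false_eq_true, if_false] at h2'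
      rw [ind_true ⟨h4, h4'⟩, ind_false (fun h => h5 h.1),
        ind_false (p := g (s1 a) ∧ g' (s1 a)) (fun h => h5' (h2'.2.mpr h.2)),
        ind_false (p := g (s2 a) ∧ g' (s2 a)) (fun h => h5 (h2.2.mpr h.1))]
    have h6 := (Nat.even_add.mp hev).mpr hrest
    rw [hodd] at h6
    exact absurd h6 (by decide)

/-- the version for a relation -/
theorem kotzig [Fintype A] (R : V → V → Prop) (n1 n2 s1 s2 : A → V)
    (H1 : ∀ g : V → Prop, Inv R g → (∀ a, Con4 n1 n2 s1 s2 g a) → ∀ x y, g x ↔ g y)
    (H2 : ∀ g : V → Prop, Inv R g →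
      Even (∑ a, (ind (g (n1 a)) + ind (g (n2 a)) + ind (g (s1 a)) + ind (g (s2 a))))) :
    ∃ τ : A → Bool, ∀ g : V → Prop, Inv R g → (∀ a, Pass n1 n2 s1 s2 (τ a) g a) →
      ∀ x y, g x ↔ g y :=
  kotzigI (Inv R) (fun _ hg x y hxy => not_congr (hg x y hxy))
    (fun _ _ hg hg' x y hxy => and_congr (hg x y hxy) (hg' x y hxy)) n1 n2 s1 s2 H1 H2

end Pool.Agent.MP42.NE.Kotz
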