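import Pool.Agent.MP42.NE.F2a
import Pool.Agent.MP42.NE.Kotzig

/-!
# Half-infinite stacks: gluing and parity
-/

set_option autoImplicit false

namespace Pool.Agent.MP42.NE

namespace Sys

variable {D : Type*} {S : Sys D} {e : D → ℕ} {v : D → ℤ} {K : ℕ} {T U : D → ℕ → Prop}
  {ρ : D → Prop}

/-! ## Gluing -/

/-- the stacks of a flow from half-infinite stacks -/
def glue (S : Sys D) (e : D → ℕ) (U : D → ℕ → Prop) (x : D) (j : ℕ) : Prop :=
  if 2 * j < e x then U x j else U (S.om x) (e x - 1 - j)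

lemma glue_top {x : D} {j : ℕ} (h : 2 * j < e x) : S.glue e U x j ↔ U x j := by
  unfold glue; rw [if_pos h]

lemma glue_bot {x : D} {j : ℕ} (h : ¬ 2 * j < e x) :
    S.glue e U x j ↔ U (S.om x) (e x - 1 - j) := by
  unfold glue; rw [if_neg h]

theorem Half.stk (h : S.Half v U) (hF : S.Fl e v) (hT : S.Two v K) (he : ∀ x, 2 * K + 2 ≤ e x)
    (hρE : ∀ x, ρ (S.E x) ↔ ρ x) (hρr : ∀ x, ρ (S.r x) ↔ ρ x)
    (hc : ∀ x j, K ≤ j → (U x j ↔ ρ x)) : S.Stk e v (S.glue e U) := by
  have hρ : ∀ x, ρ (S.om x) ↔ ρ x := fun x => (hρr _).trans (hρE _)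
  have hbot : ∀ x {j j' : ℕ}, (j' : ℤ) = j - v (S.om x) → (U (S.om (S.E x)) j ↔ U (S.om x) j') := by
    intro x j j' hj
    have := h.step (S.om (S.E x)) (j := j) (j' := j') (by rw [E_om_E]; exact hj)
    rwa [E_om_E] at this
  have hTU : ∀ x j, j + K < e x → (S.glue e U x j ↔ U x j) := by
    intro x j hj
    by_cases h1 : 2 * j < e x
    · exact glue_top h1
    · rw [glue_bot h1, hc _ _ (by omega), hc x j (by have := he x; omega), hρ]
  refine ⟨?_, ?_, ?_⟩
  · intro x i h1 h2
    have hb := hF.bE x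
    have hex := he x
    have hey := he (S.E x)
    have h3 := h.st x i
    have h4 : U (S.om (S.E x)) (e (S.E x) - 1 - ((-v (S.E x)).toNat + i)) ↔
        U (S.om x) (e x - 1 - ((v (S.E x)).toNat + i)) := hbot x (by omega)
    by_cases ha : 2 * ((v (S.E x)).toNat + i) < e x
    · by_cases hb : 2 * ((-v (S.E x)).toNat + i) < e (S.E x)
      · rw [glue_top ha, glue_top hb]; exact h3
      · rw [glue_top ha, glue_bot hb, h3, h4, hc _ _ (by omega), hc _ _ (by omega), hρ, hρE]
    · by_cases hb : 2 * ((-v (S.E x)).toNat + i) < e (S.E x)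
      · rw [glue_bot ha, glue_top hb, ← h3, ← h4, hc _ _ (by omega), hc _ _ (by omega), hρ, hρE]
      · rw [glue_bot ha, glue_bot hb]; exact h4.symm
  · intro x j hj
    have hex := he x
    have h1 := hF.e_om x
    by_cases ha : 2 * j < e x
    · rw [glue_top (by omega)]
      by_cases hb : 2 * (e x - 1 - j) < e x
      · rw [glue_top hb, hc _ _ (by omega), hc _ _ (by omega), hρ]
      · rw [glue_bot hb, show e x - 1 - (e x - 1 - j) = j by omega]
    · rw [glue_bot (by omega), glue_top (by omega), om_om, h1]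
  · intro x j hj
    have h1 := hT.vge x
    have h2 := hT.vle x
    have h3 := h.rb x j hj
    have hv := hF.v_ta x
    by_cases h0 : 0 ≤ v x
    · rw [vw_pos h0, vw_pos (by omega)] at h3 ⊢
      rw [hTU _ _ (by have := he (S.E.symm x); omega),
        hTU _ _ (by have := he (S.E.symm (S.ta x)); omega)]
      exact h3
    · rw [vw_neg h0, vw_neg (by omega)] at h3 ⊢
      rw [hTU _ _ (by have := he x; omega),
        hTU _ _ (by have := he (S.ta x); omega)]
      exact h3

/-! ## Parity -/

/-- indicator modulo 2 -/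
noncomputable def zi (p : Prop) : ZMod 2 := (Kotz.ind p : ℕ)

lemma zi_congr {p q : Prop} (h : p ↔ q) : zi p = zi q := by
  unfold zi; rw [Kotz.ind_congr h]

lemma z2 (a : ZMod 2) : a + a = 0 := by revert a; decide

/-- the number of strands over the north side modulo 2 -/
noncomputable def Wz (S : Sys D) (v : D → ℤ) (U : D → ℕ → Prop) (y : D) : ZMod 2 :=
  ∑ j ∈ Finset.range (v y).natAbs, zi (S.vw v U y j)

lemma Half.Wz_ta (h : S.Half v U) (hF : S.Fl e v) (y : D) :
    S.Wz v U (S.ta y) = S.Wz v U y := by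
  unfold Wz
  rw [hF.v_ta, ← Finset.sum_range_reflect]
  apply Finset.sum_congr rfl
  intro j hj
  rw [Finset.mem_range] at hj
  exact zi_congr (h.rb y j hj).symm

lemma Half.sum_Wz [Fintype D] (h : S.Half v U) (hF : S.Fl e v)
    (hτ : ∀ x, v x ≠ 0 → S.r (S.N x) ≠ x) :
    ∑ y, S.Wz v U y = 0 := by
  apply Finset.sum_involution (fun y _ => S.ta y)
  · intro y _
    rw [h.Wz_ta hF]
    exact z2 _
  · intro y _ hy
    refine hτ y (fun h0 => hy ?_)
    unfold Wz
    rw [h0]; rfl
  · intro y _
    exact Finset.mem_univ _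
  · intro y _
    exact S.ta_ta y

lemma Half.tel (h : S.Half v U) (x : D) {L L' : ℕ}
    (hL' : (L' : ℤ) = L - v (S.E x)) :
    ∑ j ∈ Finset.range L, zi (U x j) =
      ∑ j ∈ Finset.range L', zi (U (S.E x) j) + S.Wz v U (S.E x) := by
  unfold Wz
  by_cases h0 : 0 ≤ v (S.E x)
  · rw [show L = (v (S.E x)).natAbs + L' by omega, Finset.sum_range_add, add_comm]
    congr 1
    · apply Finset.sum_congr rfl
      intro j _
      apply zi_congr
      exact h.step x (by omega)
    · apply Finset.sum_congr rfl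
      intro j _
      rw [vw_pos h0, Equiv.symm_apply_apply]
  · rw [show L' = (v (S.E x)).natAbs + L by omega, Finset.sum_range_add]
    have h1 : ∑ j ∈ Finset.range (v (S.E x)).natAbs, zi (S.vw v U (S.E x) j) =
        ∑ j ∈ Finset.range (v (S.E x)).natAbs, zi (U (S.E x) j) := by
      apply Finset.sum_congr rfl
      intro j _
      rw [vw_neg h0]
    have h2 : ∑ j ∈ Finset.range L, zi (U x j) =
        ∑ j ∈ Finset.range L, zi (U (S.E x) ((v (S.E x)).natAbs + j)) := by
      apply Finset.sum_congr rfl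
      intro j _
      apply zi_congr
      exact h.step x (by omega)
    rw [h1, h2]
    linear_combination -(z2 (∑ j ∈ Finset.range (v (S.E x)).natAbs, zi (U (S.E x) j)))

lemma Half.tel_n (h : S.Half v U) (n : ℕ) (x : D) : ∀ (L L' : ℕ),
    (∀ i ≤ n, S.PS v i x ≤ L) → (L' : ℤ) = L - S.PS v n x →
    ∑ j ∈ Finset.range L, zi (U x j) =
      ∑ j ∈ Finset.range L', zi (U ((S.E ^ n) x) j) +
        ∑ i ∈ Finset.range n, S.Wz v U ((S.E ^ (i + 1)) x) := by
  induction n with
  | zero =>
    intro L L' _ h2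
    rw [PS_zero] at h2
    rw [show L' = L by omega]; simp
  | succ n ih =>
    intro L L' h1 h2
    have h3 := h1 n (by omega)
    have h4 := h1 (n + 1) le_rfl
    rw [PS_succ] at h2 h4
    have h5 : v ((S.E ^ (n + 1)) x) = v (S.E ((S.E ^ n) x)) := by rw [pow_succ_E]
    rw [ih L ((L : ℤ) - S.PS v n x).toNat (fun i hi => h1 i (by omega)) (by omega),
      Finset.sum_range_succ, h.tel ((S.E ^ n) x) (L' := L') (by omega), pow_succ_E]
    ring

/-- the sum over one turn -/
lemma Half.tel_cyc (h : S.Half v U) (hT : S.Two v K) (x : D) {n : ℕ} (h1 : (S.E ^ n) x = x)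
    (h2 : S.PS v n x = 2) : zi (U x K) + zi (U x (K + 1)) =
      ∑ i ∈ Finset.range n, S.Wz v U ((S.E ^ (i + 1)) x) := by
  have h3 := h.tel_n n x (K + 2) K (fun i hi => by
    have := hT.ub h2 hi
    omega) (by omega)
  rw [h1, Finset.sum_range_succ, Finset.sum_range_succ] at h3
  linear_combination h3

/-- the darts of a cycle -/
lemma cyc_sum [Fintype D] [DecidableEq D] (E : Equiv.Perm D) (x : D) :
    ∃ n : ℕ, (E ^ n) x = x ∧ ∀ {M : Type} [AddCommMonoid M] (f : D → M),
      ∑ i ∈ Finset.range n, f ((E ^ (i + 1)) x) =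
        ∑ y ∈ Finset.univ.filter (fun y => E.SameCycle x y), f y := by
  have hpos : 0 < Function.minimalPeriod E x :=
    Function.minimalPeriod_pos_of_mem_periodicPts
      (Function.Injective.mem_periodicPts E.injective x)
  refine ⟨Function.minimalPeriod E x, ?_, ?_⟩
  · rw [← Equiv.Perm.iterate_eq_pow]
    exact Function.iterate_minimalPeriod
  · intro M _ f
    apply Finset.sum_nbij (fun i => (E ^ (i + 1)) x)
    · intro i _
      exact Finset.mem_filter.2 ⟨Finset.mem_univ _, ⟨((i + 1 : ℕ) : ℤ), by rw [zpow_natCast]⟩⟩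
    · intro i hi j hj hij
      have h1 : (E ^ i) x = (E ^ j) x := by
        have : E ((E ^ i) x) = E ((E ^ j) x) := by
          rw [← Equiv.Perm.mul_apply, ← Equiv.Perm.mul_apply, ← pow_succ', ← pow_succ']
          exact hij
        exact E.injective this
      rw [← Equiv.Perm.iterate_eq_pow, ← Equiv.Perm.iterate_eq_pow] at h1
      apply Function.iterate_injOn_Iio_minimalPeriod (f := E) (x := x) _ _ h1
      · simpa using hi
      · simpa using hj
    · intro y hy
      have hy' : E.SameCycle x y := by simpa using hy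
      obtain ⟨m, rfl⟩ := hy'.exists_nat_pow_eq
      refine ⟨(m + (Function.minimalPeriod E x - 1)) % Function.minimalPeriod E x, ?_, ?_⟩
      · simpa using Nat.mod_lt _ hpos
      · show (E ^ ((m + (Function.minimalPeriod E x - 1)) % Function.minimalPeriod E x + 1)) x = _
        rw [pow_succ', Equiv.Perm.mul_apply, ← Equiv.Perm.iterate_eq_pow E,
          Function.iterate_mod_minimalPeriod_eq, Equiv.Perm.iterate_eq_pow,
          ← Equiv.Perm.mul_apply, ← pow_succ',
          show m + (Function.minimalPeriod E x - 1) + 1 = m + Function.minimalPeriod E x by omega,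
          pow_add, Equiv.Perm.mul_apply, ← Equiv.Perm.iterate_eq_pow E (Function.minimalPeriod E x),
          Function.iterate_minimalPeriod]
    · intro i _
      rfl

lemma PS_eq_range (n : ℕ) (x : D) :
    S.PS v n x = ∑ i ∈ Finset.range n, v ((S.E ^ i) (S.E x)) := by
  unfold PS
  apply Finset.sum_congr rfl
  intro i _
  rw [pow_succ_E']

/-- the hypotheses in the usual form -/
lemma Two.of_sum [Fintype D] [DecidableEq D]
    (hsum : ∀ d, ∑ x ∈ Finset.univ.filter (fun x => S.E.SameCycle d x), v x = 2)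
    (hps : ∀ d n, -(K : ℤ) ≤ ∑ i ∈ Finset.range n, v ((S.E ^ i) d)) : S.Two v K where
  lb := fun n x => by rw [PS_eq_range]; exact hps _ _
  cyc := fun x => by
    obtain ⟨n, h1, h2⟩ := cyc_sum S.E x
    refine ⟨n, h1, ?_⟩
    unfold PS
    rw [h2 v, hsum]

lemma Half.parity [Fintype D] [DecidableEq D] (h : S.Half v U) (hT : S.Two v K)
    (hsum : ∀ d, ∑ x ∈ Finset.univ.filter (fun x => S.E.SameCycle d x), v x = 2) (x : D) :
    zi (U x K) + zi (U x (K + 1)) =
      ∑ y ∈ Finset.univ.filter (fun y => S.E.SameCycle x y), S.Wz v U y := by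
  obtain ⟨n, h1, h2⟩ := cyc_sum S.E x
  rw [h.tel_cyc hT x h1 (by unfold PS; rw [h2 v, hsum]), h2]

end Sys

end Pool.Agent.MP42.NE
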