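import Pool.Agent.MP42.NE.F2

/-!
# Kotzig's switching argument for flows: orientation of the rings from `r x ≠ x`, `r (E x) ≠ x`
-/

set_option autoImplicit false

namespace Pool.Agent.MP42.NE

namespace Sys

variable {D : Type*} {S : Sys D} {e : D → ℕ} {v : D → ℤ} {K : ℕ}

lemma pow_om (n : ℕ) (x : D) : S.om ((S.E ^ n) x) = (S.E ^ n).symm (S.om x) := by
  rw [← om_pow n x, Equiv.symm_apply_apply]

lemma not_same_om [Finite D] (hr : ∀ x, S.r x ≠ x) (ho : ∀ x, S.r (S.E x) ≠ x) (x : D) :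
    ¬ S.E.SameCycle x (S.om x) := by
  intro h
  obtain ⟨n, hn⟩ := h.exists_nat_pow_eq
  obtain ⟨k, rfl | rfl⟩ := Nat.even_or_odd' n
  · have h1 : S.om ((S.E ^ k) x) = (S.E ^ k) x := by
      rw [pow_om, ← hn, Equiv.symm_apply_eq, ← Equiv.Perm.mul_apply, ← pow_add, two_mul]
    exact ho _ h1
  · have h1 : S.om ((S.E ^ k) x) = S.E ((S.E ^ k) x) := by
      rw [pow_om, ← hn, Equiv.symm_apply_eq, ← pow_succ_E, ← Equiv.Perm.mul_apply, ← pow_add]
      congr 2; omega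
    exact hr _ h1

lemma om_r (x : D) : S.om (S.r x) = S.E.symm x := by
  have h : S.om (S.E.symm x) = S.r x := by unfold om; rw [Equiv.apply_symm_apply]
  rw [← h, om_om]

/-- orientation of the rings -/
lemma exists_sigma [Finite D] (hr : ∀ x, S.r x ≠ x) (ho : ∀ x, S.r (S.E x) ≠ x) :
    ∃ σ : D → Prop, (∀ x, σ (S.E x) ↔ σ x) ∧ (∀ x, σ (S.r x) ↔ ¬ σ x) := by
  obtain ⟨n, ⟨f⟩⟩ := Finite.exists_equiv_fin D
  refine ⟨fun x => f (S.rep x) < f (S.rep (S.om x)), ?_, ?_⟩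
  · intro x
    have h1 : S.rep (S.E x) = S.rep x := rep_congr (same_E x)
    have h2 : S.rep (S.om (S.E x)) = S.rep (S.om x) := rep_congr (same_om (same_E x))
    show f (S.rep (S.E x)) < f (S.rep (S.om (S.E x))) ↔ f (S.rep x) < f (S.rep (S.om x))
    rw [h1, h2]
  · intro x
    have h1 : S.rep (S.r x) = S.rep (S.om x) := (rep_congr (om_same_r x)).symm
    have h2 : S.rep (S.om (S.r x)) = S.rep x := by
      rw [om_r]
      have := same_E (S := S) (S.E.symm x)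
      rw [Equiv.apply_symm_apply] at this
      exact rep_congr this.symm
    have h3 : S.rep x ≠ S.rep (S.om x) := fun h => not_same_om hr ho x (rep_eq_iff.1 h)
    have h4 : f (S.rep x) ≠ f (S.rep (S.om x)) := fun h => h3 (f.injective h)
    show f (S.rep (S.r x)) < f (S.rep (S.om (S.r x))) ↔ ¬ f (S.rep x) < f (S.rep (S.om x))
    rw [h1, h2, not_lt]
    exact ⟨fun h => h.le, fun h => lt_of_le_of_ne h h4.symm⟩

/-- **Kotzig for flows** -/
theorem CC.exists_fconn' [Fintype D] [DecidableEq D] {K : ℕ}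
    (hr : ∀ x, S.r x ≠ x) (ho : ∀ x, S.r (S.E x) ≠ x)
    (hτ : ∀ x, v x ≠ 0 → S.r (S.N x) ≠ x) (hF : S.Fl e v) (he : ∀ x, 2 * K + 2 ≤ e x)
    (hsum : ∀ d, ∑ x ∈ Finset.univ.filter (fun x => S.E.SameCycle d x), v x = 2)
    (hps : ∀ d n, -(K : ℤ) ≤ ∑ i ∈ Finset.range n, v ((S.E ^ i) d))
    (hCC : CC S e v K) :
    ∃ t : D → ℕ, (∀ x, t (S.E x) = t x) ∧ (∀ x, t (S.r x) = t x) ∧ (∀ x, t x ≤ 2 * K + 3) ∧
      S.FConn (fun x => e x + t x) v := by
  obtain ⟨σ, h1, h2⟩ := exists_sigma hr ho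
  exact hCC.exists_fconn σ h1 h2 hτ hF he hsum hps

end Sys

end Pool.Agent.MP42.NE
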