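import Pool.Agent.MP42.NE.FLay3

/-!
# Flows on all facets (owner helper70)

`a t` = number of strands over the east side of the state `t`, `b t` = signed number of strands over
its north side (positive: letter NE, negative: letter SE), for all active states (the canonical
frames and their half turns: `y`-facets: east `± x`, north `± z`; `x`-facets: east `± y`, north
`± z`; `z`-facets: east `± x`, north `± y`).  Strands may cross every edge between active
states; in particular flat `y`-edges between two `z`-facets (to the east) and between two `x`-facets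
(to the north).  Nothing crosses a folded `y`-edge.
-/

set_option autoImplicit false
set_option linter.unusedSectionVars false

namespace Pool.Agent.MP42.NE

open Pool.Agent.Helper55.UNF Pool.Agent.Helper55.UNF.GridSolid Pool.Agent.MP42H

/-- a flow with two letters on all facets -/
structure AFl (P : GridSolid) (a b : P.FSt → ℤ) : Prop where
  nn : ∀ t, Act can t → 0 ≤ a t
  E : ∀ t, Act can t → Act can t.stE → a t.stE.r2 = a t
  E0 : ∀ t, Act can t → ¬ Act can t.stE → a t = 0
  N : ∀ t, Act can t → Act can t.stN → b t.stN.r2 = b t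
  N0 : ∀ t, Act can t → ¬ Act can t.stN → b t = 0
  bal : ∀ t, Act can t → a t.r2 + b t.r2 = a t + b t

variable {P : GridSolid}

/-- the number of strands of a state -/
def acnt (a b : P.FSt → ℤ) (t : P.FSt) : ℤ := a t.r2 + max 0 (-b t) + max 0 (b t.r2)

/-- consistent families: predicates on the strands that are constant on the curves.  The strands of
`t` are numbered by the out-order: north side from left to right (`b t > 0`), east side from top to
bottom, south side from right to left (`b t.r2 < 0`); this is the in-order: north side from right to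
left (`b t < 0`), west side from top to bottom, south side from left to right (`b t.r2 > 0`). -/
structure AFCon (a b : P.FSt → ℤ) (g : P.FSt → ℤ → Prop) : Prop where
  cE : ∀ t, Act can t → Act can t.stE → ∀ j, 0 ≤ j → j < a t →
    (g t (max 0 (b t) + j) ↔ g t.stE (max 0 (-b t.stE) + j))
  cNp : ∀ t, Act can t → Act can t.stN → ∀ j, 0 ≤ j → j < b t →
    (g t j ↔ g t.stN (max 0 (-b t.stN) + a t.stN.r2 + j))
  cNm : ∀ t, Act can t → Act can t.stN → ∀ j, 0 ≤ j → j < -b t →
    (g t j ↔ g t.stN (max 0 (b t.stN) + a t.stN + j))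
  cr : ∀ t, Act can t → ∀ l, 0 ≤ l → l < acnt a b t → (g t.r2 l ↔ g t (acnt a b t - 1 - l))

/-- the flow is one closed curve -/
def AFConn (a b : P.FSt → ℤ) : Prop :=
  ∀ g, AFCon a b g → ∃ c : Prop, ∀ t, Act can t → ∀ l, 0 ≤ l → l < acnt a b t → (g t l ↔ c)

/-- coverage: every facet is joined, by its north-south line, to a facet that is crossed by strands
over the west side and over the east side -/
def ACov (a : P.FSt → ℤ) : Prop :=
  ∀ t, Act can t → ∃ u, Ch can t u ∧ Act can u ∧ 0 < a u ∧ 0 < a u.r2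

/-- the height function of a state -/
def Ah (K : ℕ) (a b : P.FSt → ℤ) (t : P.FSt) : ℕ → ℕ → ℤ := Ph K (a t.r2) (b t) (b t.r2)

section

variable {a b : P.FSt → ℤ} (hF : AFl P a b) {K k : ℕ}
  (ha : ∀ t, Act can t → a t ≤ k) (hb : ∀ t, Act can t → b t ≤ k)
  (hb' : ∀ t, Act can t → -(k : ℤ) ≤ b t) (hK : 3 * k ≤ K)

include hF ha hb hb' hK

lemma bd_all {t : P.FSt} (h : Act can t) : Bd K (a t.r2) (b t) (b t.r2) := by
  have h' : Act can t.r2 := act_r2' can h
  have h1 := hF.bal t h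
  have h2 := hF.nn t h
  have h3 := hF.nn t.r2 h'
  have h4 := ha t.r2 h'
  have h5 := hb t h
  have h6 := hb t.r2 h'
  have h7 := hb' t h
  have h8 := hb' t.r2 h'
  constructor <;> omega

lemma Ah_HF {t : P.FSt} (h : Act can t) : HF (2 * K + 1) (Ah K a b t) :=
  Ph_HF (bd_all hF ha hb hb' hK h)

lemma Ah_bot {t : P.FSt} (h : Act can t) (x : ℕ) :
    Ah K a b t x 0 = hi K (a t.r2) (b t) (b t.r2) x :=
  Ph_bot (bd_all hF ha hb hb' hK h) x

lemma Ah_top {t : P.FSt} (h : Act can t) (x : ℕ) : Ah K a b t x (2 * K + 1) = lo K (b t) x :=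
  Ph_top (bd_all hF ha hb hb' hK h) x

lemma Ah_W {t : P.FSt} (h : Act can t) (y : ℕ) :
    Ah K a b t 0 y = med K 0 (a t.r2) y + max 0 (-b t) := by
  unfold Ah
  rw [Ph_W (bd_all hF ha hb hb' hK h), ← med_shift, zero_add, add_comm (a t.r2)]

lemma Ah_E {t : P.FSt} (h : Act can t) (y : ℕ) :
    Ah K a b t (2 * K + 1) y = med K 0 (a t) y + max 0 (b t) := by
  have h1 := hF.bal t h
  unfold Ah
  rw [Ph_E (bd_all hF ha hb hb' hK h), ← med_shift, zero_add,
    show a t.r2 + b t.r2 - b t = a t by omega, add_comm (a t)]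

lemma Ah_rot {t : P.FSt} (h : Act can t) {x y : ℕ} (hx : x ≤ 2 * K + 1) (hy : y ≤ 2 * K + 1) :
    Ah K a b t.r2 x y = acnt a b t - Ah K a b t (2 * K + 1 - x) (2 * K + 1 - y) := by
  have h1 := hF.bal t h
  unfold Ah acnt
  rw [FSt.r2_r2, show a t = a t.r2 + b t.r2 - b t by omega,
    Ph_rot (bd_all hF ha hb hb' hK h) hx hy]

variable (K a b) in
/-- the table -/
noncomputable def aftab : ATab P (2 * K + 1) where
  hk := by omega
  can := can
  can_facet := can_facet
  pr := fun t => hP (Ah K a b t)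
  la := fun t => hL (Ah K a b t)
  ok := fun t ht => (Ah_HF hF ha hb hb' hK ht).ok
  pr_rot := fun t ht x y hx hy => by
    unfold hP
    rw [Ah_rot hF ha hb hb' hK ht hx (show y + 1 ≤ 2 * K + 1 by omega),
      Ah_rot hF ha hb hb' hK ht hx hy.le, show 2 * K + 1 - (y + 1) = 2 * K + 1 - 1 - y by omega,
      show 2 * K + 1 - y = 2 * K + 1 - 1 - y + 1 by omega]
    congr 1
    exact propext (by omega)
  la_rot := fun t ht x y hx hy => by
    unfold hL
    rw [Ah_rot hF ha hb hb' hK ht hx.le hy,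
      Ah_rot hF ha hb hb' hK ht (show x + 1 ≤ 2 * K + 1 by omega) hy, sg_sub,
      show 2 * K + 1 - (x + 1) = 2 * K + 1 - 1 - x by omega,
      show 2 * K + 1 - x = 2 * K + 1 - 1 - x + 1 by omega]
  gE := fun t ht ht' y hy => by
    have key : a t.stE.r2 = a t := hF.E t ht ht'
    unfold hP
    rw [Ah_E hF ha hb hb' hK ht, Ah_E hF ha hb hb' hK ht, Ah_W hF ha hb hb' hK ht',
      Ah_W hF ha hb hb' hK ht', key]
    congr 1
    exact propext (by omega)
  gE' := fun t ht ht' y hy => by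
    apply hP_f
    rw [Ah_E hF ha hb hb' hK ht, Ah_E hF ha hb hb' hK ht, hF.E0 t ht ht']
    have h1 : ∀ z, med (K : ℤ) 0 0 z = 0 := fun z => by unfold med; omega
    rw [h1, h1]
    omega
  gN := fun t ht ht' x hx => by
    have key : b t.stN.r2 = b t := hF.N t ht ht'
    unfold hL
    rw [Ah_top hF ha hb hb' hK ht, Ah_top hF ha hb hb' hK ht, Ah_bot hF ha hb hb' hK ht',
      Ah_bot hF ha hb hb' hK ht', key]
    apply sg_of_sub
    unfold lo hi
    omega
  gN' := fun t ht ht' x hx => by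
    apply sg_z
    rw [Ah_top hF ha hb hb' hK ht, Ah_top hF ha hb hb' hK ht, hF.N0 t ht ht']
    unfold lo sc cn
    simp only [le_refl, if_true]
    omega

/-- a facet that is crossed over both sides is crossed in every column -/
lemma cov_all {t : P.FSt} (h : Act can t) (h1 : 0 < a t) (h2 : 0 < a t.r2) (x : ℕ) :
    ∃ y < 2 * K + 1, hP (Ah K a b t) x y = true := by
  have hB := bd_all hF ha hb hb' hK h
  have h3 := sc_diff (K : ℤ) (b t) (b t.r2) x
  have h4 := hF.bal t h
  have h5 := hi_le hB (x : ℤ)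
  have h6 : lo K (b t) x < hi K (a t.r2) (b t) (b t.r2) x := by
    unfold lo hi; omega
  set L := lo K (b t) x
  set M := hi K (a t.r2) (b t) (b t.r2) x
  obtain ⟨y, hy⟩ : ∃ y : ℕ, (y : ℤ) = K + (M - L) - 1 := ⟨(K + (M - L) - 1).toNat, by omega⟩
  refine ⟨y, by omega, ?_⟩
  apply hP_t
  obtain ⟨m1, m2⟩ := med_at (K := (K : ℤ)) (l := L) (m := M - L) (j := 0) le_rfl (by omega)
  rw [show (K : ℤ) + (M - L) - 1 - 2 * 0 = y by omega, show L + (M - L) = M by omega] at m1 m2
  have e1 : Ah K a b t x (y + 1) = med K L M (y + 1) := by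
    show med K L M ((y + 1 : ℕ) : ℤ) = _
    push_cast; rfl
  have e2 : Ah K a b t x y = med K L M y := rfl
  rw [e1, e2, m1, m2]
  omega

variable {ψ χ : P.FSt → ℕ → ℕ → Prop}
  (hR : ARel (2 * K + 1) can (fun t => hP (Ah K a b t)) (fun t => hL (Ah K a b t)) ψ χ)

omit hF ha hb hb' hK in
/-- values of the labels of a state -/
def AS (K : ℕ) (a b : P.FSt → ℤ) (ψ χ : P.FSt → ℕ → ℕ → Prop) (t : P.FSt)
    (l : ℤ) : Prop := GG (2 * K + 1) (Ah K a b t) (ψ t) (χ t) l

include hR

lemma AS_track {t : P.FSt} (h : Act can t) :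
    (∀ x y, x ≤ 2 * K + 1 → y < 2 * K + 1 → Ah K a b t x (y + 1) < Ah K a b t x y →
      (ψ t x y ↔ AS K a b ψ χ t (Ah K a b t x (y + 1)))) ∧
    (∀ x y, x < 2 * K + 1 → y ≤ 2 * K + 1 → Ah K a b t x y < Ah K a b t (x + 1) y →
      (χ t x y ↔ AS K a b ψ χ t (Ah K a b t x y))) ∧
    (∀ x y, x < 2 * K + 1 → y ≤ 2 * K + 1 → Ah K a b t (x + 1) y < Ah K a b t x y →
      (χ t x y ↔ AS K a b ψ χ t (Ah K a b t (x + 1) y))) :=
  GG_track (bd_all hF ha hb hb' hK h) (hR.cell t h)

/-- half turn of the labels -/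
lemma AS_rot {t : P.FSt} (h : Act can t) {l : ℤ} (h0 : 0 ≤ l) (h1 : l < acnt a b t) :
    AS K a b ψ χ t.r2 l ↔ AS K a b ψ χ t (acnt a b t - 1 - l) := by
  have hact : Act can t.r2 := act_r2' can h
  have hbal := hF.bal t h
  have hB := bd_all hF ha hb hb' hK hact
  obtain ⟨t1, t2, t3⟩ := AS_track hF ha hb hb' hK hR hact
  obtain ⟨s1, s2, s3⟩ := AS_track hF ha hb hb' hK hR h
  have hrot := fun x y hx hy => Ah_rot hF ha hb hb' hK h (x := x) (y := y) hx hy
  set C : ℤ := acnt a b t with hC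
  have hC' : C = a t.r2.r2 + max 0 (-b t.r2) + max 0 (b t.r2.r2) := by
    rw [FSt.r2_r2, hC]; unfold acnt; omega
  rcases in_port hB h0 (by rw [← hC']; exact h1) with ⟨y, hy, p1, p2⟩ | ⟨x, hx, p1, p2⟩ |
    ⟨x, hx, p1, p2⟩
  · have p1' : Ah K a b t.r2 0 (y + 1) < Ah K a b t.r2 0 y := p1
    have p2' : Ah K a b t.r2 0 (y + 1) = l := p2
    have q1 := t1 0 y (Nat.zero_le _) hy p1'
    rw [p2'] at q1
    rw [← q1, hR.rotV t h 0 y (Nat.zero_le _) hy, Nat.sub_zero]
    have r1 := hrot 0 (y + 1) (Nat.zero_le _) (by omega)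
    have r2 := hrot 0 y (Nat.zero_le _) (by omega)
    rw [Nat.sub_zero, show 2 * K + 1 - (y + 1) = 2 * K + 1 - 1 - y by omega] at r1
    rw [Nat.sub_zero, show 2 * K + 1 - y = 2 * K + 1 - 1 - y + 1 by omega] at r2
    have r3 := (Ah_HF hF ha hb hb' hK h).v1 (2 * K + 1) (2 * K + 1 - 1 - y) le_rfl (by omega)
    rw [s1 (2 * K + 1) (2 * K + 1 - 1 - y) le_rfl (by omega) (by omega),
      show Ah K a b t (2 * K + 1) (2 * K + 1 - 1 - y + 1) = C - 1 - l by omega]
  · have p1' : Ah K a b t.r2 x 0 < Ah K a b t.r2 (x + 1) 0 := p1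
    have p2' : Ah K a b t.r2 x 0 = l := p2
    have q1 := t2 x 0 hx (Nat.zero_le _) p1'
    rw [p2'] at q1
    rw [← q1, hR.rotH t h x 0 hx (Nat.zero_le _), Nat.sub_zero]
    have r1 := hrot (x + 1) 0 (by omega) (Nat.zero_le _)
    have r2 := hrot x 0 (by omega) (Nat.zero_le _)
    rw [Nat.sub_zero, show 2 * K + 1 - (x + 1) = 2 * K + 1 - 1 - x by omega] at r1
    rw [Nat.sub_zero, show 2 * K + 1 - x = 2 * K + 1 - 1 - x + 1 by omega] at r2
    have r3 := (Ah_HF hF ha hb hb' hK h).h1 (2 * K + 1 - 1 - x) (2 * K + 1) (by omega) le_rfl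
    rw [s2 (2 * K + 1 - 1 - x) (2 * K + 1) (by omega) le_rfl (by omega),
      show Ah K a b t (2 * K + 1 - 1 - x) (2 * K + 1) = C - 1 - l by omega]
  · have p1' : Ah K a b t.r2 (x + 1) (2 * K + 1) < Ah K a b t.r2 x (2 * K + 1) := p1
    have p2' : Ah K a b t.r2 (x + 1) (2 * K + 1) = l := p2
    have q1 := t3 x (2 * K + 1) hx le_rfl p1'
    rw [p2'] at q1
    rw [← q1, hR.rotH t h x (2 * K + 1) hx le_rfl, Nat.sub_self]
    have r1 := hrot (x + 1) (2 * K + 1) (by omega) le_rfl
    have r2 := hrot x (2 * K + 1) (by omega) le_rfl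
    rw [Nat.sub_self, show 2 * K + 1 - (x + 1) = 2 * K + 1 - 1 - x by omega] at r1
    rw [Nat.sub_self, show 2 * K + 1 - x = 2 * K + 1 - 1 - x + 1 by omega] at r2
    have r3 := (Ah_HF hF ha hb hb' hK h).h0 (2 * K + 1 - 1 - x) 0 (by omega) (Nat.zero_le _)
    rw [s3 (2 * K + 1 - 1 - x) 0 (by omega) (Nat.zero_le _) (by omega),
      show Ah K a b t (2 * K + 1 - 1 - x + 1) 0 = C - 1 - l by omega]

/-- the predicate is consistent -/
lemma AS_con : AFCon a b (AS K a b ψ χ) where
  cE := fun t hact hact' j hj0 hj => by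
    have hB := bd_all hF ha hb hb' hK hact
    have hB' := bd_all hF ha hb hb' hK hact'
    have hbal := hF.bal t hact
    have e2 : a t.stE.r2 = a t := hF.E t hact hact'
    obtain ⟨y, hy1, hy2, hy3, hy4⟩ := E_at hB (j := j) hj0 (by omega)
    have c1 := (AS_track hF ha hb hb' hK hR hact).1 (2 * K + 1) y le_rfl hy2
      (show Ph K _ _ _ (2 * K + 1) (y + 1) < Ph K _ _ _ (2 * K + 1) y by omega)
    rw [show Ah K a b t (2 * K + 1) (y + 1) = max 0 (b t) + j from hy4] at c1
    obtain ⟨y', hz1, hz2, hz3, hz4⟩ := W_at hB' (j := j) hj0 (by omega)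
    have hyy : y' = y := by omega
    subst hyy
    have c2 := (AS_track hF ha hb hb' hK hR hact').1 0 y' (Nat.zero_le _) hy2
      (show Ph K _ _ _ 0 (y' + 1) < Ph K _ _ _ 0 y' by omega)
    rw [show Ah K a b t.stE 0 (y' + 1) = max 0 (-b t.stE) + j from hz4] at c2
    rw [← c1, ← c2]
    apply hR.gE t hact hact' y' hy2
    apply hP_t
    rw [show Ah K a b t (2 * K + 1) (y' + 1) = max 0 (b t) + j from hy4,
      show Ah K a b t (2 * K + 1) y' = max 0 (b t) + j + 1 from hy3]
    omega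
  cNp := fun t hact hact' j hj0 hj => by
    have hB := bd_all hF ha hb hb' hK hact
    have hB' := bd_all hF ha hb hb' hK hact'
    have e2 : b t.stN.r2 = b t := hF.N t hact hact'
    obtain ⟨x, hx1, hx2, hx3, hx4⟩ := N_at hB (j := j) hj0 (by omega)
    have c1 := (AS_track hF ha hb hb' hK hR hact).2.1 x (2 * K + 1) hx2 le_rfl
      (show Ph K _ _ _ x (2 * K + 1) < Ph K _ _ _ (x + 1) (2 * K + 1) by omega)
    rw [show Ah K a b t x (2 * K + 1) = j from hx3] at c1
    obtain ⟨x', hz1, hz2, hz3, hz4⟩ := S_at hB' (j := j) hj0 (by omega)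
    have hxx : x' = x := by omega
    subst hxx
    have c2 := (AS_track hF ha hb hb' hK hR hact').2.1 x' 0 hx2 (Nat.zero_le _)
      (show Ph K _ _ _ x' 0 < Ph K _ _ _ (x' + 1) 0 by omega)
    rw [show Ah K a b t.stN x' 0 = max 0 (-b t.stN) + a t.stN.r2 + j from hz3] at c2
    rw [← c1, ← c2]
    apply hR.gN t hact hact' x' hx2
    intro hs
    have h3 := sg_iff_z.1 hs
    rw [show Ah K a b t x' (2 * K + 1) = j from hx3,
      show Ah K a b t (x' + 1) (2 * K + 1) = j + 1 from hx4] at h3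
    omega
  cNm := fun t hact hact' j hj0 hj => by
    have hB := bd_all hF ha hb hb' hK hact
    have hB' := bd_all hF ha hb hb' hK hact'
    have hbal := hF.bal t.stN hact'
    have e2 : b t.stN.r2 = b t := hF.N t hact hact'
    obtain ⟨x, hx1, hx2, hx3, hx4⟩ := N_at' hB (j := j) hj0 (by omega)
    have c1 := (AS_track hF ha hb hb' hK hR hact).2.2 x (2 * K + 1) hx2 le_rfl
      (show Ph K _ _ _ (x + 1) (2 * K + 1) < Ph K _ _ _ x (2 * K + 1) by omega)
    rw [show Ah K a b t (x + 1) (2 * K + 1) = j from hx4] at c1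
    obtain ⟨x', hz1, hz2, hz3, hz4⟩ := S_at' hB' (j := j) hj0 (by omega)
    have hxx : x' = x := by omega
    subst hxx
    have c2 := (AS_track hF ha hb hb' hK hR hact').2.2 x' 0 hx2 (Nat.zero_le _)
      (show Ph K _ _ _ (x' + 1) 0 < Ph K _ _ _ x' 0 by omega)
    rw [show Ah K a b t.stN (x' + 1) 0 = max 0 (b t.stN) +
      (a t.stN.r2 + b t.stN.r2 - b t.stN) + j from hz4,
      show a t.stN.r2 + b t.stN.r2 - b t.stN = a t.stN by omega] at c2
    rw [← c1, ← c2]
    apply hR.gN t hact hact' x' hx2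
    intro hs
    have h3 := sg_iff_z.1 hs
    rw [show Ah K a b t x' (2 * K + 1) = j + 1 from hx3,
      show Ah K a b t (x' + 1) (2 * K + 1) = j from hx4] at h3
    omega
  cr := fun t hact l h0 h1 => AS_rot hF ha hb hb' hK hR hact h0 h1

end

/-- **The layout theorem for flows on all facets.** -/
theorem hasEdgeUnfolding_of_aflow {a b : P.FSt → ℤ} (hF : AFl P a b) (hC : AFConn a b)
    (hcov : ACov a) {K k : ℕ} (ha : ∀ t, Act can t → a t ≤ k) (hb : ∀ t, Act can t → b t ≤ k)
    (hb' : ∀ t, Act can t → -(k : ℤ) ≤ b t) (hK : 3 * k ≤ K)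
    (hne : Nonempty P.Facet) (h5 : 0 < 5 * (2 * K + 1)) :
    (P.refine (5 * (2 * K + 1)) h5).HasEdgeUnfolding := by
  refine (aftab a b hF K ha hb hb' hK).hasEdgeUnfolding hne ?_ ?_ h5
  · intro t ht x hx w
    obtain ⟨u, hu, hact, hu1, hu2⟩ := hcov t ht
    obtain ⟨y, hy, h2⟩ := cov_all hF ha hb hb' hK hact hu1 hu2 (if w then x else x + 1)
    exact ⟨u, hu, y, hy, h2⟩
  · intro ψ χ hR'
    have hR : ARel (2 * K + 1) can (fun t => hP (Ah K a b t)) (fun t => hL (Ah K a b t)) ψ χ :=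
      hR'
    obtain ⟨c, hc⟩ := hC _ (AS_con hF ha hb hb' hK hR)
    have hrange : ∀ (t : P.FSt), Act can t → ∀ x y, x ≤ 2 * K + 1 → y ≤ 2 * K + 1 →
        0 ≤ Ah K a b t x y ∧ Ah K a b t x y ≤ acnt a b t := by
      intro t ht x y hx hy
      have hB := bd_all hF ha hb hb' hK ht
      have h1 := med_ge (K : ℤ) (lo K (b t) x) (hi K (a t.r2) (b t) (b t.r2) x) y
      have h2 := med_le (K := (K : ℤ)) (y := (y : ℤ)) (lo_le_hi hB (x : ℤ))
      have h3 := lo_nonneg (K : ℤ) (b t) x
      have h4 := hi_le' (K : ℤ) (a t.r2) (b t) (b t.r2) x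
      have e1 : Ah K a b t x y =
        med K (lo K (b t) x) (hi K (a t.r2) (b t) (b t.r2) x) y := rfl
      unfold acnt
      rw [e1]
      omega
    refine ⟨c, ?_, ?_⟩
    · intro t ht x y hx hy hp
      have hp' : Ah K a b t x (y + 1) < Ah K a b t x y := hP_iff.1 hp
      rw [(AS_track hF ha hb hb' hK hR ht).1 x y hx hy hp']
      have h1 := hrange t ht x (y + 1) hx (by omega)
      have h2 := hrange t ht x y hx hy.le
      exact hc t ht _ h1.1 (by omega)
    · intro t ht x y hx hy hp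
      have hp' : Ah K a b t x y ≠ Ah K a b t (x + 1) y := fun h => hp (sg_z h)
      have h1 := hrange t ht x y hx.le hy
      have h2 := hrange t ht (x + 1) y (by omega) hy
      rcases lt_or_gt_of_ne hp' with h3 | h3
      · rw [(AS_track hF ha hb hb' hK hR ht).2.1 x y hx hy h3]
        exact hc t ht _ h1.1 (by omega)
      · rw [(AS_track hF ha hb hb' hK hR ht).2.2 x y hx hy h3]
        exact hc t ht _ h2.1 (by omega)

end Pool.Agent.MP42.NE
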