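import Pool.Agent.MP42.NE.FH

/-!
# The height function of a facet

Parameters: `w` strands over the west side, `a` signed strands over the north side, `b` signed
strands over the south side (positive: letter `n`).  The ports of a side with `m` strands are the
positions `K - (m - 1), K - (m - 3), .., K + (m - 1)` of `0, .., 2 K`.
-/

set_option autoImplicit false

namespace Pool.Agent.MP42.NE

open Pool.Agent.Helper55.UNF Pool.Agent.MP42H

/-- number of ports below `x` -/
def cn (K m x : ℤ) : ℤ := max 0 (min m ((x - K + m) / 2))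

/-- signed number of ports below `x` -/
def sc (K a x : ℤ) : ℤ := if 0 ≤ a then cn K a x else -cn K (-a) x

/-- label of the first strand at the vertical line `x` -/
def lo (K a x : ℤ) : ℤ := max 0 (-a) + sc K a x

/-- label after the last strand at the vertical line `x` -/
def hi (K w a b x : ℤ) : ℤ := max 0 (-a) + w + sc K b x

/-- the height between the first and the last label -/
def med (K l h y : ℤ) : ℤ := max l (min h ((l + h + K - y + 1) / 2))

/-- the height function -/
def Ph (K : ℕ) (w a b : ℤ) (x y : ℕ) : ℤ := med K (lo K a x) (hi K w a b x) y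

/-- the bounds of the parameters -/
structure Bd (K w a b : ℤ) : Prop where
  w0 : 0 ≤ w
  e0 : 0 ≤ w + b - a
  b1 : w + a + b ≤ K
  b2 : w + a - b ≤ K
  b3 : w - a + b ≤ K
  b4 : w - a - b ≤ K

lemma cn_nonneg (K m x : ℤ) : 0 ≤ cn K m x := le_max_left _ _

lemma cn_le {K m x : ℤ} (h : 0 ≤ m) : cn K m x ≤ m := by unfold cn; omega

lemma cn_zero {K m : ℤ} (h1 : m ≤ K) : cn K m 0 = 0 := by unfold cn; omega

lemma cn_end {K m : ℤ} (h : 0 ≤ m) (h1 : m ≤ K) : cn K m (2 * K + 1) = m := by
  unfold cn; omega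

lemma cn_step0 (K m x : ℤ) : cn K m x ≤ cn K m (x + 1) := by unfold cn; omega

lemma cn_step1 (K m x : ℤ) : cn K m (x + 1) ≤ cn K m x + 1 := by unfold cn; omega

lemma cn_mono {K m m' x : ℤ} (h : m' ≤ m) : cn K m' x ≤ cn K m x := by unfold cn; omega

lemma cn_mono' {K m m' x : ℤ} (h0 : 0 ≤ m') (h : m' ≤ m) :
    cn K m x - cn K m' x ≤ m - m' := by unfold cn; omega

lemma cn_sym {K m x : ℤ} (h0 : 0 ≤ m) : cn K m x + cn K m (2 * K + 1 - x) = m := by
  unfold cn; omega

/-- a port -/
lemma cn_port {K m x : ℤ} (h : cn K m x < cn K m (x + 1)) : x = K - m + 1 + 2 * cn K m x := by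
  unfold cn at *; omega

lemma cn_at {K m j : ℤ} (h0 : 0 ≤ j) (h1 : j < m) :
    cn K m (K - m + 1 + 2 * j) = j ∧ cn K m (K - m + 1 + 2 * j + 1) = j + 1 := by
  unfold cn; omega

lemma sc_step0 (K a x : ℤ) : sc K a x ≤ sc K a (x + 1) + 1 := by
  have h1 := cn_step0 K a x
  have h2 := cn_step1 K a x
  have h3 := cn_step0 K (-a) x
  have h4 := cn_step1 K (-a) x
  unfold sc
  split_ifs <;> omega

lemma sc_step1 (K a x : ℤ) : sc K a (x + 1) ≤ sc K a x + 1 := by
  have h1 := cn_step0 K a x
  have h2 := cn_step1 K a x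
  have h3 := cn_step0 K (-a) x
  have h4 := cn_step1 K (-a) x
  unfold sc
  split_ifs <;> omega

lemma sc_zero {K a : ℤ} (h1 : a ≤ K) (h2 : -a ≤ K) : sc K a 0 = 0 := by
  unfold sc
  rw [cn_zero h1, cn_zero h2]
  simp

lemma sc_end {K a : ℤ} (h1 : a ≤ K) (h2 : -a ≤ K) : sc K a (2 * K + 1) = a := by
  unfold sc
  split_ifs with h
  · exact cn_end h h1
  · rw [cn_end (by omega) h2]; ring

lemma sc_sym (K a x : ℤ) : sc K a x + sc K a (2 * K + 1 - x) = a := by
  unfold sc
  split_ifs with h
  · exact cn_sym h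
  · have := cn_sym (K := K) (m := -a) (x := x) (by omega)
    omega

/-- comparison of the two sides -/
lemma sc_diff (K a b x : ℤ) : min 0 (b - a) ≤ sc K b x - sc K a x := by
  have a0 := cn_nonneg K a x
  have b0 := cn_nonneg K b x
  have a0' := cn_nonneg K (-a) x
  have b0' := cn_nonneg K (-b) x
  unfold sc
  split_ifs with h1 h2 h2
  · rcases le_total a b with h | h
    · have := cn_mono (K := K) (x := x) h; omega
    · have := cn_mono' (K := K) (x := x) h1 h; omega
  · omega
  · have := cn_le (K := K) (m := a) (x := x) h2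
    have := cn_le (K := K) (m := -b) (x := x) (by omega)
    omega
  · rcases le_total a b with h | h
    · have := cn_mono (K := K) (x := x) (show -b ≤ -a by omega); omega
    · have := cn_mono' (K := K) (x := x) (show 0 ≤ -a by omega) (show -a ≤ -b by omega); omega

lemma sc_le (K a x : ℤ) : sc K a x ≤ max 0 a ∧ -max 0 (-a) ≤ sc K a x := by
  have a0 := cn_nonneg K a x
  have a0' := cn_nonneg K (-a) x
  unfold sc
  split_ifs with h1
  · have := cn_le (K := K) (m := a) (x := x) h1
    omega
  · have := cn_le (K := K) (m := -a) (x := x) (by omega)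
    omega

lemma lo_nonneg (K a x : ℤ) : 0 ≤ lo K a x := by
  have := (sc_le K a x).2
  unfold lo; omega

lemma lo_le_hi {K w a b : ℤ} (h : Bd K w a b) (x : ℤ) : lo K a x ≤ hi K w a b x := by
  have := sc_diff K a b x
  have := h.w0
  have := h.e0
  unfold lo hi; omega

lemma hi_le {K w a b : ℤ} (h : Bd K w a b) (x : ℤ) : hi K w a b x ≤ lo K a x + K := by
  have := sc_le K a x
  have := sc_le K b x
  have := h.b1
  have := h.b2
  have := h.b3
  have := h.b4
  unfold lo hi; omega

lemma hi_le' (K w a b x : ℤ) : hi K w a b x ≤ w + max 0 (-a) + max 0 b := by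
  have := sc_le K b x
  unfold hi; omega

/-! ## the height between two bounds -/

lemma med_bot {K l h : ℤ} (h0 : l ≤ h) (h1 : h ≤ l + K) : med K l h 0 = h := by
  unfold med; omega

lemma med_top {K l h : ℤ} (h0 : l ≤ h) (h1 : h ≤ l + K) : med K l h (2 * K + 1) = l := by
  unfold med; omega

lemma med_ge (K l h y : ℤ) : l ≤ med K l h y := le_max_left _ _

lemma med_le {K l h y : ℤ} (h0 : l ≤ h) : med K l h y ≤ h := by unfold med; omega

lemma med_v0 (K l h y : ℤ) : med K l h (y + 1) ≤ med K l h y := by unfold med; omega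

lemma med_v1 (K l h y : ℤ) : med K l h y ≤ med K l h (y + 1) + 1 := by unfold med; omega

lemma med_h {K l h l' h' y : ℤ} (h1 : l ≤ l' + 1) (h2 : h ≤ h' + 1) :
    med K l h y ≤ med K l' h' y + 1 := by unfold med; omega

lemma med_shift (K l h c y : ℤ) : med K (l + c) (h + c) y = med K l h y + c := by
  unfold med; omega

lemma med_sym (K l h c y : ℤ) (h0 : l ≤ h) :
    med K (c - h) (c - l) y = c - med K l h (2 * K + 1 - y) := by
  unfold med; omega

/-- the port with the number `j` from the north -/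
lemma med_at {K l m j : ℤ} (h0 : 0 ≤ j) (h1 : j < m) :
    med K l (l + m) (K + m - 1 - 2 * j) = l + j + 1 ∧
      med K l (l + m) (K + m - 1 - 2 * j + 1) = l + j := by
  unfold med; omega

section Cell

variable {K : ℕ} {w a b : ℤ} (hb : Bd K w a b)

include hb

lemma Ph_HF : HF (2 * K + 1) (Ph K w a b) where
  v0 := fun x y _ _ => by
    unfold Ph; push_cast; exact med_v0 _ _ _ _
  v1 := fun x y _ _ => by
    unfold Ph; push_cast; exact med_v1 _ _ _ _
  h0 := fun x y _ _ => by
    unfold Ph; push_cast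
    apply med_h
    · have := sc_step0 K a x; unfold lo; omega
    · have := sc_step0 K b x; unfold hi; omega
  h1 := fun x y _ _ => by
    unfold Ph; push_cast
    apply med_h
    · have := sc_step1 K a x; unfold lo; omega
    · have := sc_step1 K b x; unfold hi; omega

lemma Ph_bot (x : ℕ) : Ph K w a b x 0 = hi K w a b x := by
  unfold Ph; push_cast; exact med_bot (lo_le_hi hb _) (hi_le hb _)

lemma Ph_top (x : ℕ) : Ph K w a b x (2 * K + 1) = lo K a x := by
  unfold Ph; push_cast; exact med_top (lo_le_hi hb _) (hi_le hb _)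

lemma Bd.a1 : a ≤ K := by have := hb.w0; have := hb.b1; have := hb.b2; omega

lemma Bd.a2 : -a ≤ K := by have := hb.w0; have := hb.b3; have := hb.b4; omega

lemma Bd.c1 : b ≤ K := by have := hb.w0; have := hb.b1; have := hb.b3; omega

lemma Bd.c2 : -b ≤ K := by have := hb.w0; have := hb.b2; have := hb.b4; omega

lemma Ph_W (y : ℕ) : Ph K w a b 0 y = med K (max 0 (-a)) (max 0 (-a) + w) y := by
  unfold Ph lo hi
  push_cast
  rw [sc_zero hb.a1 hb.a2, sc_zero hb.c1 hb.c2, add_zero, add_zero]

lemma Ph_E (y : ℕ) : Ph K w a b (2 * K + 1) y = med K (max 0 a) (max 0 a + (w + b - a)) y := by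
  unfold Ph lo hi
  push_cast
  rw [sc_end hb.a1 hb.a2, sc_end hb.c1 hb.c2, show max 0 (-a) + a = max 0 a by omega,
    show max 0 (-a) + w + b = max 0 a + (w + b - a) by omega]

/-- half turn -/
lemma Ph_rot {x y : ℕ} (hx : x ≤ 2 * K + 1) (hy : y ≤ 2 * K + 1) :
    Ph K (w + b - a) b a x y =
      (w + max 0 (-a) + max 0 b) - Ph K w a b (2 * K + 1 - x) (2 * K + 1 - y) := by
  have h1 := sc_sym K a x
  have h2 := sc_sym K b x
  have h3 := lo_le_hi hb (2 * K + 1 - x)
  unfold Ph
  rw [show ((2 * K + 1 - x : ℕ) : ℤ) = 2 * K + 1 - x by omega,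
    show ((2 * K + 1 - y : ℕ) : ℤ) = 2 * K + 1 - y by omega, ← med_sym _ _ _ _ _ h3]
  congr 1
  · unfold lo hi; omega
  · unfold lo hi; omega

end Cell

end Pool.Agent.MP42.NE
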