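import Pool.Agent.MP42.NE.Lay

/-!
# Connected families of monotone curves give edge unfoldings
-/

set_option autoImplicit false
set_option linter.unusedSectionVars false

namespace Pool.Agent.MP42.NE

open Pool.Agent.Helper55.UNF Pool.Agent.Helper55.UNF.GridSolid Pool.Agent.MP42H

lemma walk {X : Type*} [Finite X] {π : Equiv.Perm X} {p Q A B : X → Prop}
    (hQ : ∀ t, Q t → Q (π t)) (h1 : ∀ t, Q t → (B t ↔ A (π t)))
    (h2 : ∀ t, Q t → ¬ p t → (A t ↔ B t)) {x : X} (hx : Q x) :
    Q (retFun π p x) ∧ (B x ↔ A (retFun π p x)) := by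
  rw [retFun_eq]
  have key : ∀ j ≤ retN π p x, (Q ((π ^ (j + 1)) x) ∧ (B x ↔ A ((π ^ (j + 1)) x))) := by
    intro j
    induction j with
    | zero =>
      intro _
      rw [zero_add, pow_one]
      exact ⟨hQ x hx, h1 x hx⟩
    | succ j ih =>
      intro hj
      obtain ⟨a, b⟩ := ih (by omega)
      have h3 : ¬ p ((π ^ (j + 1)) x) := retN_not (by omega)
      have h4 : (π ^ (j + 1 + 1)) x = π ((π ^ (j + 1)) x) := by rw [pow_succ']; rfl
      rw [h4]
      exact ⟨hQ _ a, b.trans ((h2 _ a h3).trans (h1 _ a))⟩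
  exact key _ le_rfl

variable {P : GridSolid}

lemma isDart_iff {t : P.FSt} : IsDart t ↔ t.1.d.1 = 1 ∧ t.1.e.1 = 0 := Iff.rfl

lemma dart_n {t : P.FSt} (h : IsDart t) : t.1.n.1 = 2 :=
  act_wall (line_act h.2) (by rw [h.1]; decide)

lemma not_dart_wall {t : P.FSt} (h : t.1.n.1 = 2) (h' : ¬ IsDart t) : t.1.d.1 = 0 := by
  by_contra h1
  apply h'
  have h2 := act_line (wall_act h) h1
  refine ⟨?_, h2⟩
  have h3 := wall_d h
  have key : ∀ a : Fin 3, a ≠ 0 → a ≠ 2 → a = 1 := by decide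
  exact key _ h1 h3

lemma not_dart_line {t : P.FSt} (h : t.1.e.1 = 0) (h' : ¬ IsDart t) : t.1.d.1 = 2 := by
  by_contra h1
  apply h'
  refine ⟨?_, h⟩
  have h3 := line_d h
  have key : ∀ a : Fin 3, a ≠ 0 → a ≠ 2 → a = 1 := by decide
  exact key _ h3 h1

lemma ex_dart_E {t : P.FSt} (h : t.1.n.1 = 2) : ∃ j : ℕ, IsDart ((pE ^ j) t) := by
  have key : ∀ w : Dir, w.1 = 2 → w = (2, true) ∨ opp w = (2, true) := by decide
  rcases key _ h with h1 | h1
  · exact exists_dart P ⟨t, h1⟩
  · have h2 : IsW t.r2 := by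
      show t.r2.1.n = _
      rw [r2_n', h1]
    obtain ⟨j, hj⟩ := exists_dart P ⟨t.r2, h2⟩
    have h3 : pE.SameCycle t.r2 ((pE ^ j) t.r2) := ⟨j, by simp⟩
    have h4 := r2_same P h3
    rw [FSt.r2_r2] at h4
    obtain ⟨n, hn⟩ := h4.exists_nat_pow_eq
    refine ⟨n, ?_⟩
    rw [hn]
    exact hj

lemma ex_dart_N {t : P.FSt} (h : t.1.e.1 = 0) : ∃ j : ℕ, IsDart ((pN ^ j) t) := by
  have h0 : t.facet.1.2.1 ≠ 0 := line_d h
  obtain ⟨j, hj⟩ := exists_dart_ring P t.facet h0 true
  rw [if_pos rfl] at hj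
  rcases (line_act h : Act can t) with h1 | h1
  · rw [h1] at hj
    exact ⟨j, hj⟩
  · rw [h1] at hj
    have h3 : (pN : Equiv.Perm P.FSt).SameCycle t.r2 ((pN ^ j) t.r2) := ⟨j, by simp⟩
    have h4 := same_N_r2 _ _ h3
    rw [FSt.r2_r2] at h4
    obtain ⟨n, hn⟩ := h4.exists_nat_pow_eq
    refine ⟨n, ?_⟩
    rw [hn]
    exact hj

section Main

variable {k : ℕ} {s m : Dart P → ℕ}
  (hs : ∀ d, s (phi P d) = s d) (hsr : ∀ d, s (r2D P d) = s d)
  (hm : ∀ d, m (rN P d) = m d) (hmr : ∀ d, m (r2D P d) = m d)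
  (hsk : ∀ d, s d ≤ k) (hmk : ∀ d, m d ≤ k) (hk : 0 < k)

include hs in
lemma nr_dart (d : Dart P) : nr s d.1 = s d := by
  rw [nr_wall (dart_n d.2)]
  exact ex_self (π := pE) hs d

include hm in
lemma nc_dart (d : Dart P) : nc m d.1 = m d := by
  rw [nc_line d.2.2]
  exact ex_self (π := pN) hm d

/-- the predicate on the strands of a dart -/
noncomputable def gg (k : ℕ) (s m : Dart P → ℕ) (ψ χ : P.FSt → ℕ → ℕ → Prop) (d : Dart P)
    (u : ℕ) : Prop :=
  if u < s d then ψ d.1 0 (fr k s d.1 + s d - 1 - u) else χ d.1 (fc k m d.1 + (u - s d)) 0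

variable {ψ χ : P.FSt → ℕ → ℕ → Prop}
  (hR : ARel k can (fun t => gR (fr k s t) (nr s t)) (fun t => gC (fc k m t) (nc m t)) ψ χ)

include hs hm hsk hmk hR in
lemma gg_track (d : Dart P) :
    (∀ x y, x ≤ k → fr k s d.1 ≤ y → y < fr k s d.1 + s d →
      (ψ d.1 x y ↔ gg k s m ψ χ d ((fr k s d.1 + s d - 1 - y) + min (m d) (x - fc k m d.1)))) ∧
    (∀ x y, fc k m d.1 ≤ x → x < fc k m d.1 + m d → y ≤ k →
      (χ d.1 x y ↔ gg k s m ψ χ d ((x - fc k m d.1) + min (s d) (fr k s d.1 + s d - y)))) := by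
  have h1 := hR.cell d.1 (line_act d.2.2)
  have h2 := fr_le hsk d.1
  have h3 := fc_le hmk d.1
  rw [nr_dart hs] at h1 h2
  rw [nc_dart hm] at h1 h3
  refine G_track h1 h2 h3 (gg k s m ψ χ d) ?_ ?_
  · intro t ht
    unfold gg
    rw [if_pos ht]
  · intro i hi
    unfold gg
    rw [if_neg (by omega), show s d + i - s d = i by omega]

include hs hsk hR in
/-- walking to the east: the strands of the rows reach the next dart -/
lemma walk_E {t : P.FSt} (h : t.1.n.1 = 2) {y : ℕ} (h1 : fr k s t ≤ y)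
    (h2 : y < fr k s t + nr s t) :
    nr s (retFun pE IsDart t) = nr s t ∧ fr k s (retFun pE IsDart t) = fr k s t ∧
      (ψ t k y ↔ ψ (retFun pE IsDart t) 0 y) := by
  have hle := fr_le hsk t
  have := walk (π := pE) (p := IsDart)
    (Q := fun u : P.FSt => u.1.n.1 = 2 ∧ nr s u = nr s t ∧ fr k s u = fr k s t)
    (A := fun u => ψ u 0 y) (B := fun u => ψ u k y) ?_ ?_ ?_ (x := t) ⟨h, rfl, rfl⟩
  · exact ⟨this.1.2.1, this.1.2.2, this.2⟩
  · rintro u ⟨a, b, c⟩
    refine ⟨?_, ?_, ?_⟩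
    · show u.stE.1.n.1 = 2
      rw [stE_n', a]
    · rw [← b]; exact nr_stE hs a
    · rw [← c]; exact fr_stE hs a
  · rintro u ⟨a, b, c⟩
    refine hR.gE u (wall_act a) (wall_act (by rw [stE_n', a])) y (by omega) ?_
    exact gR_true (by rw [b, c]; exact ⟨h1, h2⟩)
  · rintro u ⟨a, b, c⟩ hd
    have h3 := hR.cell u (wall_act a)
    have h4 : nc m u = 0 := by unfold nc; rw [if_pos (not_dart_wall a hd)]
    rw [h4, b, c] at h3
    have h6 : fc k m u + 0 ≤ k := by
      unfold fc; split_ifs <;> omega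
    have h5 := (G_track h3 hle h6 (fun i => ψ u 0 (fr k s t + nr s t - 1 - i))
      (fun i _ => Iff.rfl)
      (fun i hi => absurd hi (Nat.not_lt_zero _))).1 k y le_rfl h1 h2
    rw [Nat.zero_min, Nat.add_zero] at h5
    show ψ u 0 y ↔ ψ u k y
    rw [h5, show fr k s t + nr s t - 1 - (fr k s t + nr s t - 1 - y) = y by omega]

include hm hmk hR in
/-- walking to the north -/
lemma walk_N {t : P.FSt} (h : t.1.e.1 = 0) {x : ℕ} (h1 : fc k m t ≤ x)
    (h2 : x < fc k m t + nc m t) :
    nc m (retFun pN IsDart t) = nc m t ∧ fc k m (retFun pN IsDart t) = fc k m t ∧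
      (χ t x k ↔ χ (retFun pN IsDart t) x 0) := by
  have hle := fc_le hmk t
  have := walk (π := pN) (p := IsDart)
    (Q := fun u : P.FSt => u.1.e.1 = 0 ∧ nc m u = nc m t ∧ fc k m u = fc k m t)
    (A := fun u => χ u x 0) (B := fun u => χ u x k) ?_ ?_ ?_ (x := t) ⟨h, rfl, rfl⟩
  · exact ⟨this.1.2.1, this.1.2.2, this.2⟩
  · rintro u ⟨a, b, c⟩
    refine ⟨?_, ?_, ?_⟩
    · show u.stN.1.e.1 = 0
      rw [FSt.stN_e, a]
    · rw [← b]; exact nc_stN hm a
    · rw [← c]; exact fc_stN hm a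
  · rintro u ⟨a, b, c⟩
    refine hR.gN u (line_act a) (line_act (by rw [FSt.stN_e, a])) x (by omega) ?_
    exact gC_iff.2 (by rw [b, c]; exact ⟨h1, h2⟩)
  · rintro u ⟨a, b, c⟩ hd
    have h3 := hR.cell u (line_act a)
    have h4 : nr s u = 0 := by unfold nr; rw [if_pos (not_dart_line a hd)]
    rw [h4, b, c] at h3
    have h6 : fr k s u + 0 ≤ k := by
      unfold fr; split_ifs <;> omega
    have h5 := (G_track h3 h6 hle (fun i => χ u (fc k m t + i) 0)
      (fun i hi => absurd hi (Nat.not_lt_zero _))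
      (fun i _ => by rw [Nat.zero_add])).2 x k h1 h2 le_rfl
    rw [Nat.zero_min, Nat.add_zero] at h5
    show χ u x 0 ↔ χ u x k
    rw [h5, show fc k m t + (x - fc k m t) = x by omega]

include hs hsr hm hmr hsk hmk hR in
/-- the predicate on the strands is consistent -/
lemma gg_con : (sysP P).Con s m (gg k s m ψ χ) where
  cE := fun d u hu => by
    have hd := nr_dart hs d
    have h1 := fr_le hsk d.1
    have h2 := fc_le hmk d.1
    rw [hd] at h1
    rw [nc_dart hm] at h2
    have h3 := (gg_track hs hm hsk hmk hR d).1 k (fr k s d.1 + s d - 1 - u) le_rfl (by omega)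
      (by omega)
    rw [show (fr k s d.1 + s d - 1 - (fr k s d.1 + s d - 1 - u)) + min (m d) (k - fc k m d.1) =
      m d + u by omega] at h3
    rw [← h3]
    obtain ⟨a, b, c⟩ := walk_E (y := fr k s d.1 + s d - 1 - u) hs hsk hR (dart_n d.2) (by omega)
      (by rw [hd]; omega)
    rw [c]
    show _ ↔ gg k s m ψ χ (phi P d) u
    unfold gg
    rw [if_pos (by rw [hs]; exact hu)]
    have e1 : (phi P d).1 = retFun pE IsDart d.1 := rfl
    rw [e1, b, hs]
  cN := fun d u hu => by
    have hd := nc_dart hm d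
    have h1 := fr_le hsk d.1
    have h2 := fc_le hmk d.1
    rw [nr_dart hs] at h1
    rw [hd] at h2
    have h3 := (gg_track hs hm hsk hmk hR d).2 (fc k m d.1 + u) k (by omega) (by omega) le_rfl
    rw [show (fc k m d.1 + u - fc k m d.1) + min (s d) (fr k s d.1 + s d - k) = u by omega] at h3
    rw [← h3]
    obtain ⟨a, b, c⟩ := walk_N (x := fc k m d.1 + u) hm hmk hR d.2.2 (by omega)
      (by rw [hd]; omega)
    rw [c]
    show _ ↔ gg k s m ψ χ (rN P d) (s (rN P d) + u)
    unfold gg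
    rw [if_neg (by omega)]
    have e1 : (rN P d).1 = retFun pN IsDart d.1 := rfl
    rw [e1, b, show s (rN P d) + u - s (rN P d) = u by omega]
  cr := fun d u hu => by
    have hd := nr_dart hs d
    have hd' := nc_dart hm d
    have h1 := fr_le hsk d.1
    have h2 := fc_le hmk d.1
    have h4 := fr_r2 (k := k) hs hsr hsk (dart_n d.2)
    have h5 := fc_r2 (k := k) hm hmr hmk (t := d.1) d.2.2
    rw [hd] at h1 h4
    rw [hd'] at h2 h5
    have e1 : ((sysP P).r d).1 = d.1.r2 := rfl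
    have e2 : s ((sysP P).r d) = s d := hsr d
    have e3 : (sysP P).r d = r2D P d := rfl
    by_cases hu1 : u < s d
    · have h3 := (gg_track hs hm hsk hmk hR d).1 k (fr k s d.1 + u) le_rfl (by omega) (by omega)
      rw [show (fr k s d.1 + s d - 1 - (fr k s d.1 + u)) + min (m d) (k - fc k m d.1) =
        s d + m d - 1 - u by omega] at h3
      rw [← h3]
      unfold gg
      rw [if_pos (by rw [e2]; exact hu1), e1, h4, e2,
        hR.rotV d.1 (line_act d.2.2) 0 _ (Nat.zero_le _) (by omega), Nat.sub_zero,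
        show k - 1 - (k - s d - fr k s d.1 + s d - 1 - u) = fr k s d.1 + u by omega]
    · have h3 := (gg_track hs hm hsk hmk hR d).2 (fc k m d.1 + (m d - 1 - (u - s d))) k (by omega)
        (by omega) le_rfl
      rw [show (fc k m d.1 + (m d - 1 - (u - s d)) - fc k m d.1) +
        min (s d) (fr k s d.1 + s d - k) = s d + m d - 1 - u by omega] at h3
      rw [← h3]
      unfold gg
      rw [if_neg (by rw [e2]; exact hu1), e1, h5, e2,
        hR.rotH d.1 (line_act d.2.2) _ 0 (by omega) (Nat.zero_le _), Nat.sub_zero,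
        show k - 1 - (k - m d - fc k m d.1 + (u - s d)) =
          fc k m d.1 + (m d - 1 - (u - s d)) by omega]

end Main

/-- **The layout theorem**: a connected family of monotone curves that uses every ring gives an
edge unfolding of a refinement. -/
theorem hasEdgeUnfolding_of_conn {s m : Dart P → ℕ} (hW : (sysP P).Wt s m)
    (hC : (sysP P).Conn s m) (hpos : ∀ d, 0 < s d) {k : ℕ} (hk : 0 < k) (hsk : ∀ d, s d ≤ k)
    (hmk : ∀ d, m d ≤ k) (hne : Nonempty P.Facet) (h5 : 0 < 5 * k) :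
    (P.refine (5 * k) h5).HasEdgeUnfolding := by
  have hs : ∀ d, s (phi P d) = s d := hW.sE
  have hsr : ∀ d, s (r2D P d) = s d := hW.sr
  have hm : ∀ d, m (rN P d) = m d := hW.mN
  have hmr : ∀ d, m (r2D P d) = m d := hW.mr
  refine (atab k hs hsr hm hmr hsk hmk hk).hasEdgeUnfolding hne ?_ ?_ h5
  · -- coverage
    have hwall : ∀ t : P.FSt, t.1.n.1 = 2 → 0 < nr s t := by
      intro t ht
      obtain ⟨j, hj⟩ := ex_dart_E ht
      rw [nr_wall ht, ex_eq (π := pE) hs (d := ⟨_, hj⟩) ⟨j, by simp⟩]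
      exact hpos _
    have hrch : ∀ t : P.FSt, t.1.n.1 = 2 → ∀ x, ∃ y < k,
        gR (fr k s t) (nr s t) x y = true := by
      intro t ht x
      have h1 := hwall t ht
      have h2 := fr_le hsk t
      exact ⟨fr k s t, by omega, gR_true (by omega)⟩
    intro t ht x hx w
    by_cases h : t.1.d.1 = 2
    · have h1 := act_line ht (by rw [h]; decide)
      obtain ⟨j, hj⟩ := ex_dart_N h1
      obtain ⟨y, hy, h2⟩ := hrch _ (dart_n hj) (if w then x else x + 1)
      refine ⟨(pN ^ j) t, ⟨j, ?_, by simp⟩, y, hy, h2⟩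
      intro z hz
      apply line_act
      have key : ∀ n : ℕ, ((pN ^ n) t).1.e = t.1.e := by
        intro n
        induction n with
        | zero => rfl
        | succ n ih => rw [pow_succ', Equiv.Perm.mul_apply, stN_e', ih]
      have hz' : ∃ n : ℕ, z = n := by
        rw [Set.mem_uIcc] at hz
        exact ⟨z.toNat, by omega⟩
      obtain ⟨n, rfl⟩ := hz'
      show ((pN ^ (n : ℤ)) t).1.e.1 = 0
      rw [zpow_natCast, key, h1]
    · obtain ⟨y, hy, h2⟩ := hrch t (act_wall ht h) (if w then x else x + 1)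
      exact ⟨t, Ch.refl ht, y, hy, h2⟩
  · -- connectivity
    intro ψ χ hR
    have hR' : ARel k can (fun t => gR (fr k s t) (nr s t)) (fun t => gC (fc k m t) (nc m t))
      ψ χ := hR
    obtain ⟨c, hc⟩ := hC _ (gg_con hs hsr hm hmr hsk hmk hR')
    have hdart1 : ∀ (d : Dart P) x y, x ≤ k → fr k s d.1 ≤ y → y < fr k s d.1 + s d →
        (ψ d.1 x y ↔ c) := by
      intro d x y hx h1 h2
      rw [(gg_track hs hm hsk hmk hR' d).1 x y hx h1 h2]
      exact hc d _ (by omega)
    have hdart2 : ∀ (d : Dart P) x y, fc k m d.1 ≤ x → x < fc k m d.1 + m d → y ≤ k →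
        (χ d.1 x y ↔ c) := by
      intro d x y h1 h2 hy
      rw [(gg_track hs hm hsk hmk hR' d).2 x y h1 h2 hy]
      exact hc d _ (by omega)
    refine ⟨c, ?_, ?_⟩
    · intro t ht x y hx hy hp
      have h1 : fr k s t ≤ y ∧ y < fr k s t + nr s t := (gR_iff (x := x)).1 hp
      have hd2 : t.1.d.1 ≠ 2 := by
        intro h
        have : nr s t = 0 := by unfold nr; rw [if_pos h]
        omega
      have hw := act_wall ht hd2
      by_cases hd : IsDart t
      · have h2 := nr_dart hs ⟨t, hd⟩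
        exact hdart1 ⟨t, hd⟩ x y hx h1.1 (by rw [← h2]; exact h1.2)
      · have h3 := hR'.cell t ht
        have h4 : nc m t = 0 := by unfold nc; rw [if_pos (not_dart_wall hw hd)]
        simp only [h4] at h3
        have h6 : fc k m t + 0 ≤ k := by
          unfold fc; split_ifs <;> omega
        have h5 := (G_track h3 (fr_le hsk t) h6
          (fun i => ψ t 0 (fr k s t + nr s t - 1 - i)) (fun i _ => Iff.rfl)
          (fun i hi => absurd hi (Nat.not_lt_zero _))).1
        have h7 := h5 x y hx h1.1 h1.2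
        have h8 := h5 k y le_rfl h1.1 h1.2
        rw [Nat.zero_min] at h7 h8
        rw [h7, ← h8]
        obtain ⟨a, b, e⟩ := walk_E hs hsk hR' hw h1.1 h1.2
        rw [e]
        have hj : IsDart (retFun pE IsDart t) := retFun_spec (ex_dart_E hw)
        have h9 := nr_dart hs ⟨_, hj⟩
        exact hdart1 ⟨_, hj⟩ 0 y (Nat.zero_le _) (by rw [b]; exact h1.1)
          (by rw [← h9, a, b]; exact h1.2)
    · intro t ht x y hx hy hp
      have h1 : fc k m t ≤ x ∧ x < fc k m t + nc m t := (gC_iff (y := y)).1 hp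
      have hd2 : t.1.d.1 ≠ 0 := by
        intro h
        have : nc m t = 0 := by unfold nc; rw [if_pos h]
        omega
      have hw := act_line ht hd2
      by_cases hd : IsDart t
      · have h2 := nc_dart hm ⟨t, hd⟩
        exact hdart2 ⟨t, hd⟩ x y h1.1 (by rw [← h2]; exact h1.2) hy
      · have h3 := hR'.cell t ht
        have h4 : nr s t = 0 := by unfold nr; rw [if_pos (not_dart_line hw hd)]
        simp only [h4] at h3
        have h6 : fr k s t + 0 ≤ k := by
          unfold fr; split_ifs <;> omega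
        have h5 := (G_track h3 h6 (fc_le hmk t) (fun i => χ t (fc k m t + i) 0)
          (fun i hi => absurd hi (Nat.not_lt_zero _))
          (fun i _ => by rw [Nat.zero_add])).2
        have h7 := h5 x y h1.1 h1.2 hy
        have h8 := h5 x k h1.1 h1.2 le_rfl
        rw [Nat.zero_min] at h7 h8
        rw [h7, ← h8]
        obtain ⟨a, b, e⟩ := walk_N hm hmk hR' hw h1.1 h1.2
        rw [e]
        have hj : IsDart (retFun pN IsDart t) := retFun_spec (ex_dart_N hw)
        have h9 := nc_dart hm ⟨_, hj⟩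
        exact hdart2 ⟨_, hj⟩ x 0 (by rw [b]; exact h1.1) (by rw [← h9, a, b]; exact h1.2)
          (Nat.zero_le _)

end Pool.Agent.MP42.NE
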