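import Pool.Agent.MP42.NE.Flow
import Pool.Agent.MP42.NE.FCell
import Pool.Agent.MP42.NE.Lay2

/-!
# Extension of a flow from the darts to the states
-/

set_option autoImplicit false
set_option linter.unusedSectionVars false

namespace Pool.Agent.MP42.NE

open Pool.Agent.Helper55.UNF Pool.Agent.Helper55.UNF.GridSolid Pool.Agent.MP42H

/-- the first return for the reversed motion, for elements without the property -/
lemma retFun_back {X : Type*} [Finite X] {π : Equiv.Perm X} {p : X → Prop} {r : X → X}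
    (hr : ∀ x, r (r x) = x) (hπ : ∀ x, π (r (π x)) = r x) (hp : ∀ x, p (r x) ↔ p x) {x : X}
    (hx : ¬ p x) (hex : ∃ j : ℕ, p ((π ^ j) x)) :
    retFun π p (r (retFun π p (r x))) = retFun π p x := by
  -- all elements on the way have the same first return
  have hcyc : ∀ u : X, π.SameCycle x (r u) → ∃ j : ℕ, p ((π ^ j) (r u)) := by
    intro u hu
    obtain ⟨j, hj⟩ := hex
    have h1 : π.SameCycle (r u) ((π ^ j) x) := hu.symm.trans ⟨j, by simp⟩
    obtain ⟨n, hn⟩ := h1.exists_nat_pow_eq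
    exact ⟨n, by rw [hn]; exact hj⟩
  have hback : ∀ u : X, π.SameCycle x (r u) → π.SameCycle x (r (π u)) := by
    intro u hu
    have h1 := hπ u
    have h2 : π.SameCycle (r (π u)) (r u) := ⟨1, by rw [zpow_one]; exact h1⟩
    exact hu.trans h2.symm
  have step : ∀ u : X, π.SameCycle x (r u) → ¬ p u →
      (retFun π p (r u) = retFun π p x ↔ retFun π p (r (π u)) = retFun π p x) := by
    intro u hu hpu
    have h1 : ¬ p (π (r (π u))) := by rw [hπ, hp]; exact hpu
    rw [retFun_step' h1 (hcyc (π u) (hback u hu)), hπ]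
  have := walk (π := π) (p := p) (Q := fun u => π.SameCycle x (r u))
    (A := fun u => retFun π p (r u) = retFun π p x)
    (B := fun u => retFun π p (r (π u)) = retFun π p x) hback
    (fun _ _ => Iff.rfl) step (x := r x) (by rw [hr])
  rw [← this.2]
  rw [← step (r x) (by rw [hr]) (by rw [hp]; exact hx), hr]

variable {P : GridSolid}

lemma isDart_r2 (t : P.FSt) : IsDart t.r2 ↔ IsDart t := Iff.rfl

lemma r2_n2 {t : P.FSt} (h : t.1.n.1 = 2) : t.r2.1.n.1 = 2 := by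
  rw [r2_n']; exact h

lemma r2_e0 {t : P.FSt} (h : t.1.e.1 = 0) : t.r2.1.e.1 = 0 := h

lemma stE_n2 {t : P.FSt} (h : t.1.n.1 = 2) : t.stE.1.n.1 = 2 := by
  rw [stE_n']; exact h

lemma stN_e0 {t : P.FSt} (h : t.1.e.1 = 0) : t.stN.1.e.1 = 0 := by
  rw [FSt.stN_e]; exact h

/-- extension by zero -/
noncomputable def xd {R : Type*} [Zero R] (g : Dart P → R) (s : P.FSt) : R :=
  open Classical in if h : IsDart s then g ⟨s, h⟩ else 0

lemma xd_dart {R : Type*} [Zero R] (g : Dart P → R) {s : P.FSt} (h : IsDart s) :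
    xd g s = g ⟨s, h⟩ := by
  unfold xd; rw [dif_pos h]

section Ring

/-- number of strands over the east side -/
noncomputable def eE (e : Dart P → ℕ) (t : P.FSt) : ℤ :=
  if t.1.d.1 = 2 then 0 else ((xd e (retFun pE IsDart t).r2 : ℕ) : ℤ)

/-- signed number of strands over the north side -/
noncomputable def nN (v : Dart P → ℤ) (t : P.FSt) : ℤ :=
  if t.1.d.1 = 0 then 0 else xd v (retFun pN IsDart t).r2

variable {e : Dart P → ℕ} {v : Dart P → ℤ}

lemma eE_wall {t : P.FSt} (h : t.1.n.1 = 2) :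
    eE e t = ((xd e (retFun pE IsDart t).r2 : ℕ) : ℤ) := if_neg (wall_d h)

lemma nN_line {t : P.FSt} (h : t.1.e.1 = 0) :
    nN v t = xd v (retFun pN IsDart t).r2 := if_neg (line_d h)

lemma eE_plate {t : P.FSt} (h : t.1.d.1 = 2) : eE e t = 0 := if_pos h

lemma nN_x {t : P.FSt} (h : t.1.d.1 = 0) : nN v t = 0 := if_pos h

lemma eE_nonneg (t : P.FSt) : 0 ≤ eE e t := by
  unfold eE; split_ifs <;> omega

lemma xd_le {k : ℕ} (he : ∀ d, e d ≤ k) (t : P.FSt) : xd e t ≤ k := by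
  unfold xd
  split_ifs
  · exact he _
  · exact Nat.zero_le _

lemma eE_le {k : ℕ} (he : ∀ d, e d ≤ k) (t : P.FSt) : eE e t ≤ k := by
  have := xd_le he (retFun pE IsDart t).r2
  unfold eE; split_ifs <;> omega

lemma nN_le {k : ℕ} (hv : ∀ d, v d ≤ k) (t : P.FSt) : nN v t ≤ k := by
  unfold nN xd
  split_ifs
  · omega
  · exact hv _
  · omega

lemma nN_ge {k : ℕ} (hv : ∀ d, -(k : ℤ) ≤ v d) (t : P.FSt) : -(k : ℤ) ≤ nN v t := by
  unfold nN xd
  split_ifs
  · omega
  · exact hv _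
  · omega

/-! ### rings -/

section E

variable (her : ∀ d, e (r2D P (phi P d)) = e d)

include her

lemma eE_dart (d : Dart P) : eE e d.1 = e d := by
  rw [eE_wall (dart_n d.2), ← her d]
  have h : IsDart (retFun pE IsDart d.1).r2 := (phi P d).2
  rw [xd_dart e h]
  rfl

lemma eE_r2 {t : P.FSt} (h : t.1.n.1 = 2) (h' : ¬ IsDart t) : eE e t.r2 = eE e t := by
  have h1 := retFun_back (π := (pE : Equiv.Perm P.FSt)) (p := IsDart) (r := FSt.r2)
    FSt.r2_r2 FSt.stE_inv isDart_r2 h' (ex_dart_E h)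
  have h2 : IsDart (retFun pE IsDart t.r2) := retFun_spec (ex_dart_E (r2_n2 h))
  have h3 : IsDart (retFun pE IsDart t.r2).r2 := h2
  rw [eE_wall h, eE_wall (r2_n2 h), ← h1, xd_dart e h3]
  have h4 := her ⟨_, h3⟩
  rw [← h4]
  have h5 : IsDart (retFun pE IsDart (retFun pE IsDart t.r2).r2).r2 :=
    (phi P ⟨_, h3⟩).2
  rw [xd_dart e h5]
  rfl

lemma eE_stE {t : P.FSt} (h : t.1.n.1 = 2) : eE e t.stE.r2 = eE e t := by
  by_cases hd : IsDart t
  · have h1 : (pE : Equiv.Perm P.FSt) t.stE.r2 = t.r2 := FSt.stE_inv t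
    have h2 : retFun pE IsDart t.stE.r2 = t.r2 := by
      rw [← h1]; exact retFun_step (by rw [h1]; exact hd)
    rw [eE_wall (r2_n2 (stE_n2 h)), h2, FSt.r2_r2, xd_dart e hd]
    exact (eE_dart her ⟨t, hd⟩).symm
  · have h1 : (pE : Equiv.Perm P.FSt) t.stE.r2 = t.r2 := FSt.stE_inv t
    have h2 : retFun pE IsDart t.stE.r2 = retFun pE IsDart t.r2 := by
      rw [retFun_step' (by rw [h1]; exact hd) (ex_dart_E (r2_n2 (stE_n2 h))), h1]
    rw [← eE_r2 her h hd, eE_wall (r2_n2 h), eE_wall (r2_n2 (stE_n2 h)), h2]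

omit her in
lemma eE_step {t : P.FSt} (h : t.1.n.1 = 2) (h' : ¬ IsDart t.stE) : eE e t.stE = eE e t := by
  have h2 : retFun pE IsDart t = retFun pE IsDart t.stE :=
    retFun_step' (π := (pE : Equiv.Perm P.FSt)) h' (ex_dart_E h)
  rw [eE_wall h, eE_wall (stE_n2 h), h2]

end E

/-! ### vertical lines -/

section N

variable (hvr : ∀ d, v (r2D P (rN P d)) = v d)

include hvr

lemma nN_dart (d : Dart P) : nN v d.1 = v d := by
  rw [nN_line d.2.2, ← hvr d]
  have h : IsDart (retFun pN IsDart d.1).r2 := (rN P d).2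
  rw [xd_dart v h]
  rfl

lemma nN_r2 {t : P.FSt} (h : t.1.e.1 = 0) (h' : ¬ IsDart t) : nN v t.r2 = nN v t := by
  have h1 := retFun_back (π := (pN : Equiv.Perm P.FSt)) (p := IsDart) (r := FSt.r2)
    FSt.r2_r2 FSt.stN_inv isDart_r2 h' (ex_dart_N h)
  have h2 : IsDart (retFun pN IsDart t.r2) := retFun_spec (ex_dart_N (r2_e0 h))
  have h3 : IsDart (retFun pN IsDart t.r2).r2 := h2
  rw [nN_line h, nN_line (r2_e0 h), ← h1, xd_dart v h3]
  have h4 := hvr ⟨_, h3⟩
  rw [← h4]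
  have h5 : IsDart (retFun pN IsDart (retFun pN IsDart t.r2).r2).r2 :=
    (rN P ⟨_, h3⟩).2
  rw [xd_dart v h5]
  rfl

lemma nN_stN {t : P.FSt} (h : t.1.e.1 = 0) : nN v t.stN.r2 = nN v t := by
  by_cases hd : IsDart t
  · have h1 : (pN : Equiv.Perm P.FSt) t.stN.r2 = t.r2 := FSt.stN_inv t
    have h2 : retFun pN IsDart t.stN.r2 = t.r2 := by
      rw [← h1]; exact retFun_step (by rw [h1]; exact hd)
    rw [nN_line (r2_e0 (stN_e0 h)), h2, FSt.r2_r2, xd_dart v hd]
    exact (nN_dart hvr ⟨t, hd⟩).symm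
  · have h1 : (pN : Equiv.Perm P.FSt) t.stN.r2 = t.r2 := FSt.stN_inv t
    have h2 : retFun pN IsDart t.stN.r2 = retFun pN IsDart t.r2 := by
      rw [retFun_step' (by rw [h1]; exact hd) (ex_dart_N (r2_e0 (stN_e0 h))), h1]
    rw [← nN_r2 hvr h hd, nN_line (r2_e0 h), nN_line (r2_e0 (stN_e0 h)), h2]

omit hvr in
lemma nN_step {t : P.FSt} (h : t.1.e.1 = 0) (h' : ¬ IsDart t.stN) : nN v t.stN = nN v t := by
  have h2 : retFun pN IsDart t = retFun pN IsDart t.stN :=
    retFun_step' (π := (pN : Equiv.Perm P.FSt)) h' (ex_dart_N h)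
  rw [nN_line h, nN_line (stN_e0 h), h2]

end N

end Ring

/-! ## All active states -/

section All

variable {e : Dart P → ℕ} {v : Dart P → ℤ} (hF : (sysP P).Fl e v)

include hF

lemma bal_act {t : P.FSt} (h : Act can t) : eE e t.r2 + nN v t.r2 = eE e t + nN v t := by
  by_cases hd : IsDart t
  · have h1 : eE e t.r2 = e (r2D P ⟨t, hd⟩) := eE_dart hF.er (r2D P ⟨t, hd⟩)
    have h2 : nN v t.r2 = v (r2D P ⟨t, hd⟩) := nN_dart hF.vr (r2D P ⟨t, hd⟩)
    have h3 : eE e t = e ⟨t, hd⟩ := eE_dart hF.er ⟨t, hd⟩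
    have h4 : nN v t = v ⟨t, hd⟩ := nN_dart hF.vr ⟨t, hd⟩
    rw [h1, h2, h3, h4]
    exact hF.bal ⟨t, hd⟩
  · by_cases h2 : t.1.d.1 = 2
    · have h3 : t.1.e.1 = 0 := act_line h (by rw [h2]; decide)
      have h4 : t.r2.1.d.1 = 2 := h2
      rw [eE_plate h2, eE_plate h4, nN_r2 hF.vr h3 hd]
    · have h3 := act_wall h h2
      have h4 := not_dart_wall h3 hd
      have h5 : t.r2.1.d.1 = 0 := h4
      rw [nN_x h4, nN_x h5, eE_r2 hF.er h3 hd]

variable {K k : ℕ} (he : ∀ d, e d ≤ k) (hv : ∀ d, v d ≤ k) (hv' : ∀ d, -(k : ℤ) ≤ v d)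
  (hK : 3 * k ≤ K)

include he hv hv' hK

lemma bd_act {t : P.FSt} (h : Act can t) : Bd K (eE e t.r2) (nN v t) (nN v t.r2) := by
  have h1 := bal_act hF h
  have h2 := eE_nonneg (e := e) t
  have h3 := eE_nonneg (e := e) t.r2
  have h4 := eE_le he t.r2
  have h5 := nN_le hv t
  have h6 := nN_le hv t.r2
  have h7 := nN_ge hv' t
  have h8 := nN_ge hv' t.r2
  constructor <;> omega

end All

end Pool.Agent.MP42.NE
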