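import Pool.Agent.MP42.NE.FLay2

/-!
# Flows on all facets

A choice of a frame on every facet: `can`.  The active states are the chosen frames and their half
turns.  A side of a facet is open if the frame of the facet is carried over the side to a frame of
the neighbour (or to its half turn).  A flow on all facets has `e` strands over the east sides and
`v` signed strands over the north sides; there are no strands over closed sides.
-/

set_option autoImplicit false
set_option linter.unusedSectionVars false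

namespace Pool.Agent.MP42.NE.Gen

open Pool.Agent.Helper55.UNF Pool.Agent.Helper55.UNF.GridSolid Pool.Agent.MP42H

variable {P : GridSolid}

/-! ## The square complex of a choice of frames -/

section SysA

variable (can : P.Facet → P.FSt)

/-- the active states -/
abbrev AS : Type _ := {t : P.FSt // Act can t}

/-- half turn -/
def asR (t : AS can) : AS can := ⟨t.1.r2, act_r2' can t.2⟩

open Classical in
/-- the neighbour to the east; a closed side is folded -/
noncomputable def asE (t : AS can) : AS can :=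
  if h : Act can t.1.stE then ⟨t.1.stE, h⟩ else asR can t

open Classical in
/-- the neighbour to the north; a closed side is folded -/
noncomputable def asN (t : AS can) : AS can :=
  if h : Act can t.1.stN then ⟨t.1.stN, h⟩ else asR can t

lemma asR_asR (t : AS can) : asR can (asR can t) = t := Subtype.ext (FSt.r2_r2 t.1)

lemma asE_pos {t : AS can} (h : Act can t.1.stE) : asE can t = ⟨t.1.stE, h⟩ := dif_pos h

lemma asE_neg {t : AS can} (h : ¬ Act can t.1.stE) : asE can t = asR can t := dif_neg h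

lemma asN_pos {t : AS can} (h : Act can t.1.stN) : asN can t = ⟨t.1.stN, h⟩ := dif_pos h

lemma asN_neg {t : AS can} (h : ¬ Act can t.1.stN) : asN can t = asR can t := dif_neg h

lemma asE_rot (t : AS can) : asR can (asE can (asR can (asE can t))) = t := by
  by_cases h : Act can t.1.stE
  · rw [asE_pos can h]
    have h1 : (asR can ⟨t.1.stE, h⟩).1.stE = t.1.r2 := FSt.stE_inv t.1
    have h2 : Act can (asR can ⟨t.1.stE, h⟩).1.stE := by rw [h1]; exact act_r2' can t.2
    rw [asE_pos can h2]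
    apply Subtype.ext
    show (asR can ⟨t.1.stE, h⟩).1.stE.r2 = t.1
    rw [h1, FSt.r2_r2]
  · rw [asE_neg can h, asR_asR, asE_neg can h, asR_asR]

lemma asN_rot (t : AS can) : asR can (asN can (asR can (asN can t))) = t := by
  by_cases h : Act can t.1.stN
  · rw [asN_pos can h]
    have h1 : (asR can ⟨t.1.stN, h⟩).1.stN = t.1.r2 := FSt.stN_inv t.1
    have h2 : Act can (asR can ⟨t.1.stN, h⟩).1.stN := by rw [h1]; exact act_r2' can t.2
    rw [asN_pos can h2]
    apply Subtype.ext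
    show (asR can ⟨t.1.stN, h⟩).1.stN.r2 = t.1
    rw [h1, FSt.r2_r2]
  · rw [asN_neg can h, asR_asR, asN_neg can h, asR_asR]

/-- the square complex of all facets -/
noncomputable def sysA : Sys (AS can) where
  E := ⟨asE can, fun t => asR can (asE can (asR can t)), asE_rot can, fun t => by
    have h := congrArg (asR can) (asE_rot can (asR can t))
    rwa [asR_asR, asR_asR] at h⟩
  N := ⟨asN can, fun t => asR can (asN can (asR can t)), asN_rot can, fun t => by
    have h := congrArg (asR can) (asN_rot can (asR can t))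
    rwa [asR_asR, asR_asR] at h⟩
  r := asR can
  rr := asR_asR can
  rE := asE_rot can
  rN := asN_rot can

lemma sysA_E {t : AS can} (h : Act can t.1.stE) : (sysA can).E t = ⟨t.1.stE, h⟩ := asE_pos can h

lemma sysA_N {t : AS can} (h : Act can t.1.stN) : (sysA can).N t = ⟨t.1.stN, h⟩ := asN_pos can h

lemma sysA_r (t : AS can) : (sysA can).r t = ⟨t.1.r2, act_r2' can t.2⟩ := rfl

end SysA

/-! ## Flows on the states -/

/-- a flow on the active states -/
structure FlS (can : P.Facet → P.FSt) (K : ℕ) (e v : P.FSt → ℤ) : Prop where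
  er : ∀ t, Act can t → Act can t.stE → e t.stE.r2 = e t
  e0 : ∀ t, Act can t → ¬ Act can t.stE → e t = 0
  vr : ∀ t, Act can t → Act can t.stN → v t.stN.r2 = v t
  v0 : ∀ t, Act can t → ¬ Act can t.stN → v t = 0
  bal : ∀ t, Act can t → e t.r2 + v t.r2 = e t + v t
  bd : ∀ t, Act can t → Bd K (e t.r2) (v t) (v t.r2)

/-- the height function of a state -/
noncomputable def HA (K : ℕ) (e v : P.FSt → ℤ) (t : P.FSt) : ℕ → ℕ → ℤ :=
  Ph K (e t.r2) (v t) (v t.r2)

section

variable {can : P.Facet → P.FSt} {e v : P.FSt → ℤ} {K : ℕ} (hS : FlS can K e v)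

include hS

lemma HA_HF {t : P.FSt} (h : Act can t) : HF (2 * K + 1) (HA K e v t) := Ph_HF (hS.bd t h)

lemma HA_bot {t : P.FSt} (h : Act can t) (x : ℕ) :
    HA K e v t x 0 = hi K (e t.r2) (v t) (v t.r2) x := Ph_bot (hS.bd t h) x

lemma HA_top {t : P.FSt} (h : Act can t) (x : ℕ) : HA K e v t x (2 * K + 1) = lo K (v t) x :=
  Ph_top (hS.bd t h) x

lemma HA_W {t : P.FSt} (h : Act can t) (y : ℕ) :
    HA K e v t 0 y = med K 0 (e t.r2) y + max 0 (-v t) := by
  unfold HA
  rw [Ph_W (hS.bd t h), ← med_shift, zero_add, add_comm (e t.r2)]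

lemma HA_E {t : P.FSt} (h : Act can t) (y : ℕ) :
    HA K e v t (2 * K + 1) y = med K 0 (e t) y + max 0 (v t) := by
  have h1 := hS.bal t h
  unfold HA
  rw [Ph_E (hS.bd t h), ← med_shift, zero_add,
    show e t.r2 + v t.r2 - v t = e t by omega, add_comm (e t)]

lemma HA_rot {t : P.FSt} (h : Act can t) {x y : ℕ} (hx : x ≤ 2 * K + 1) (hy : y ≤ 2 * K + 1) :
    HA K e v t.r2 x y = (e t.r2 + max 0 (-v t) + max 0 (v t.r2)) -
      HA K e v t (2 * K + 1 - x) (2 * K + 1 - y) := by
  have h1 := hS.bal t h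
  unfold HA
  rw [FSt.r2_r2, show e t = e t.r2 + v t.r2 - v t by omega,
    Ph_rot (hS.bd t h) hx hy]

variable (hcan : ∀ f, (can f).facet = f)

/-- the table -/
noncomputable def faTab : ATab P (2 * K + 1) where
  hk := by omega
  can := can
  can_facet := hcan
  pr := fun t => hP (HA K e v t)
  la := fun t => hL (HA K e v t)
  ok := fun t ht => (HA_HF hS ht).ok
  pr_rot := fun t ht x y hx hy => by
    unfold hP
    rw [HA_rot hS ht hx (show y + 1 ≤ 2 * K + 1 by omega),
      HA_rot hS ht hx hy.le, show 2 * K + 1 - (y + 1) = 2 * K + 1 - 1 - y by omega,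
      show 2 * K + 1 - y = 2 * K + 1 - 1 - y + 1 by omega]
    congr 1
    exact propext (by omega)
  la_rot := fun t ht x y hx hy => by
    unfold hL
    rw [HA_rot hS ht hx.le hy,
      HA_rot hS ht (show x + 1 ≤ 2 * K + 1 by omega) hy, sg_sub,
      show 2 * K + 1 - (x + 1) = 2 * K + 1 - 1 - x by omega,
      show 2 * K + 1 - x = 2 * K + 1 - 1 - x + 1 by omega]
  gE := fun t ht ht' y hy => by
    have key := hS.er t ht ht'
    unfold hP
    rw [HA_E hS ht, HA_E hS ht, HA_W hS ht', HA_W hS ht', key]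
    congr 1
    exact propext (by omega)
  gE' := fun t ht ht' y hy => by
    apply hP_f
    rw [HA_E hS ht, HA_E hS ht, hS.e0 t ht ht']
    have h1 : ∀ z, med (K : ℤ) 0 0 z = 0 := fun z => by unfold med; omega
    rw [h1, h1]
    omega
  gN := fun t ht ht' x hx => by
    have key := hS.vr t ht ht'
    unfold hL
    rw [HA_top hS ht, HA_top hS ht, HA_bot hS ht', HA_bot hS ht', key]
    apply sg_of_sub
    unfold lo hi
    omega
  gN' := fun t ht ht' x hx => by
    apply sg_z
    rw [HA_top hS ht, HA_top hS ht, hS.v0 t ht ht']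
    unfold lo sc cn
    simp only [le_refl, if_true]
    omega

/-- every vertical line of a facet that is crossed from side to side is crossed -/
lemma HA_cov {t : P.FSt} (h : Act can t) (h1 : 0 < e t) (h2 : 0 < e t.r2) (x : ℕ) :
    ∃ y < 2 * K + 1, hP (HA K e v t) x y = true := by
  have hb := hS.bd t h
  have h3 := sc_diff (K : ℤ) (v t) (v t.r2) x
  have h4 := hS.bal t h
  have h5 := hi_le hb (x : ℤ)
  have h6 : lo K (v t) x < hi K (e t.r2) (v t) (v t.r2) x := by
    unfold lo hi; omega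
  set L := lo K (v t) x
  set M := hi K (e t.r2) (v t) (v t.r2) x
  obtain ⟨y, hy⟩ : ∃ y : ℕ, (y : ℤ) = K + (M - L) - 1 := ⟨(K + (M - L) - 1).toNat, by omega⟩
  refine ⟨y, by omega, ?_⟩
  apply hP_t
  obtain ⟨m1, m2⟩ := med_at (K := (K : ℤ)) (l := L) (m := M - L) (j := 0) le_rfl (by omega)
  rw [show (K : ℤ) + (M - L) - 1 - 2 * 0 = y by omega, show L + (M - L) = M by omega] at m1 m2
  have e1 : HA K e v t x (y + 1) = med K L M (y + 1) := by
    show med K L M ((y + 1 : ℕ) : ℤ) = _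
    push_cast; rfl
  have e2 : HA K e v t x y = med K L M y := rfl
  rw [e1, e2, m1, m2]
  omega

/-! ### Tracking -/

variable {ψ χ : P.FSt → ℕ → ℕ → Prop}
  (hR : ARel (2 * K + 1) can (fun t => hP (HA K e v t)) (fun t => hL (HA K e v t)) ψ χ)

/-- values of the labels of a state -/
def GA (K : ℕ) (e v : P.FSt → ℤ) (ψ χ : P.FSt → ℕ → ℕ → Prop) (t : P.FSt) (l : ℤ) : Prop :=
  GG (2 * K + 1) (HA K e v t) (ψ t) (χ t) l

include hR

lemma GA_track {t : P.FSt} (h : Act can t) :
    (∀ x y, x ≤ 2 * K + 1 → y < 2 * K + 1 → HA K e v t x (y + 1) < HA K e v t x y →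
      (ψ t x y ↔ GA K e v ψ χ t (HA K e v t x (y + 1)))) ∧
    (∀ x y, x < 2 * K + 1 → y ≤ 2 * K + 1 → HA K e v t x y < HA K e v t (x + 1) y →
      (χ t x y ↔ GA K e v ψ χ t (HA K e v t x y))) ∧
    (∀ x y, x < 2 * K + 1 → y ≤ 2 * K + 1 → HA K e v t (x + 1) y < HA K e v t x y →
      (χ t x y ↔ GA K e v ψ χ t (HA K e v t (x + 1) y))) :=
  GG_track (hS.bd t h) (hR.cell t h)

/-- half turn of the labels -/
lemma GA_rot {t : P.FSt} (h : Act can t) {l : ℤ} (h0 : 0 ≤ l)
    (h1 : l < e t.r2 + max 0 (-v t) + max 0 (v t.r2)) :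
    GA K e v ψ χ t.r2 l ↔
      GA K e v ψ χ t (e t.r2 + max 0 (-v t) + max 0 (v t.r2) - 1 - l) := by
  have hact : Act can t.r2 := act_r2' can h
  have hbal := hS.bal t h
  have hb := hS.bd _ hact
  obtain ⟨t1, t2, t3⟩ := GA_track hS hR hact
  obtain ⟨s1, s2, s3⟩ := GA_track hS hR h
  have hrot := fun x y hx hy => HA_rot hS h (x := x) (y := y) hx hy
  set C : ℤ := e t.r2 + max 0 (-v t) + max 0 (v t.r2) with hC
  have hC' : C = e t.r2.r2 + max 0 (-v t.r2) + max 0 (v t.r2.r2) := by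
    rw [FSt.r2_r2, hC]; omega
  rcases in_port hb h0 (by rw [← hC']; exact h1) with ⟨y, hy, p1, p2⟩ | ⟨x, hx, p1, p2⟩ |
    ⟨x, hx, p1, p2⟩
  · have p1' : HA K e v t.r2 0 (y + 1) < HA K e v t.r2 0 y := p1
    have p2' : HA K e v t.r2 0 (y + 1) = l := p2
    have q1 := t1 0 y (Nat.zero_le _) hy p1'
    rw [p2'] at q1
    rw [← q1, hR.rotV t h 0 y (Nat.zero_le _) hy, Nat.sub_zero]
    have r1 := hrot 0 (y + 1) (Nat.zero_le _) (by omega)
    have r2 := hrot 0 y (Nat.zero_le _) (by omega)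
    rw [Nat.sub_zero, show 2 * K + 1 - (y + 1) = 2 * K + 1 - 1 - y by omega] at r1
    rw [Nat.sub_zero, show 2 * K + 1 - y = 2 * K + 1 - 1 - y + 1 by omega] at r2
    have r3 := (HA_HF hS h).v1 (2 * K + 1) (2 * K + 1 - 1 - y) le_rfl (by omega)
    rw [s1 (2 * K + 1) (2 * K + 1 - 1 - y) le_rfl (by omega) (by omega),
      show HA K e v t (2 * K + 1) (2 * K + 1 - 1 - y + 1) = C - 1 - l by omega]
  · have p1' : HA K e v t.r2 x 0 < HA K e v t.r2 (x + 1) 0 := p1
    have p2' : HA K e v t.r2 x 0 = l := p2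
    have q1 := t2 x 0 hx (Nat.zero_le _) p1'
    rw [p2'] at q1
    rw [← q1, hR.rotH t h x 0 hx (Nat.zero_le _), Nat.sub_zero]
    have r1 := hrot (x + 1) 0 (by omega) (Nat.zero_le _)
    have r2 := hrot x 0 (by omega) (Nat.zero_le _)
    rw [Nat.sub_zero, show 2 * K + 1 - (x + 1) = 2 * K + 1 - 1 - x by omega] at r1
    rw [Nat.sub_zero, show 2 * K + 1 - x = 2 * K + 1 - 1 - x + 1 by omega] at r2
    have r3 := (HA_HF hS h).h1 (2 * K + 1 - 1 - x) (2 * K + 1) (by omega) le_rfl
    rw [s2 (2 * K + 1 - 1 - x) (2 * K + 1) (by omega) le_rfl (by omega),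
      show HA K e v t (2 * K + 1 - 1 - x) (2 * K + 1) = C - 1 - l by omega]
  · have p1' : HA K e v t.r2 (x + 1) (2 * K + 1) < HA K e v t.r2 x (2 * K + 1) := p1
    have p2' : HA K e v t.r2 (x + 1) (2 * K + 1) = l := p2
    have q1 := t3 x (2 * K + 1) hx le_rfl p1'
    rw [p2'] at q1
    rw [← q1, hR.rotH t h x (2 * K + 1) hx le_rfl, Nat.sub_self]
    have r1 := hrot (x + 1) (2 * K + 1) (by omega) le_rfl
    have r2 := hrot x (2 * K + 1) (by omega) le_rfl
    rw [Nat.sub_self, show 2 * K + 1 - (x + 1) = 2 * K + 1 - 1 - x by omega] at r1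
    rw [Nat.sub_self, show 2 * K + 1 - x = 2 * K + 1 - 1 - x + 1 by omega] at r2
    have r3 := (HA_HF hS h).h0 (2 * K + 1 - 1 - x) 0 (by omega) (Nat.zero_le _)
    rw [s3 (2 * K + 1 - 1 - x) 0 (by omega) (Nat.zero_le _) (by omega),
      show HA K e v t (2 * K + 1 - 1 - x + 1) 0 = C - 1 - l by omega]

/-- over an east side -/
lemma GA_E {t : P.FSt} (h : Act can t) (h' : Act can t.stE) {j : ℤ} (h0 : 0 ≤ j)
    (h1 : j < e t) :
    GA K e v ψ χ t (max 0 (v t) + j) ↔ GA K e v ψ χ t.stE (max 0 (-v t.stE) + j) := by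
  have hb := hS.bd t h
  have hb' := hS.bd _ h'
  have hbal := hS.bal t h
  have e2 := hS.er t h h'
  obtain ⟨y, hy1, hy2, hy3, hy4⟩ := E_at hb h0 (by omega)
  have c1 := (GA_track hS hR h).1 (2 * K + 1) y le_rfl hy2
    (show Ph K _ _ _ (2 * K + 1) (y + 1) < Ph K _ _ _ (2 * K + 1) y by omega)
  rw [show HA K e v t (2 * K + 1) (y + 1) = max 0 (v t) + j from hy4] at c1
  obtain ⟨y', hz1, hz2, hz3, hz4⟩ := W_at hb' (j := j) h0 (by omega)
  have hyy : y' = y := by omega
  subst hyy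
  have c2 := (GA_track hS hR h').1 0 y' (Nat.zero_le _) hy2
    (show Ph K _ _ _ 0 (y' + 1) < Ph K _ _ _ 0 y' by omega)
  rw [show HA K e v t.stE 0 (y' + 1) = max 0 (-v t.stE) + j from hz4] at c2
  rw [← c1, ← c2]
  refine hR.gE t h h' y' hy2 (hP_t ?_)
  show Ph K _ _ _ (2 * K + 1) (y' + 1) < Ph K _ _ _ (2 * K + 1) y'
  omega

/-- over a north side, letter `n` -/
lemma GA_Np {t : P.FSt} (h : Act can t) (h' : Act can t.stN) {j : ℤ} (h0 : 0 ≤ j)
    (h1 : j < v t) :
    GA K e v ψ χ t j ↔ GA K e v ψ χ t.stN (max 0 (-v t.stN) + e t.stN.r2 + j) := by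
  have hb := hS.bd t h
  have hb' := hS.bd _ h'
  have e2 := hS.vr t h h'
  obtain ⟨x, hx1, hx2, hx3, hx4⟩ := N_at hb h0 h1
  have c1 := (GA_track hS hR h).2.1 x (2 * K + 1) hx2 le_rfl
    (show Ph K _ _ _ x (2 * K + 1) < Ph K _ _ _ (x + 1) (2 * K + 1) by omega)
  rw [show HA K e v t x (2 * K + 1) = j from hx3] at c1
  obtain ⟨x', hz1, hz2, hz3, hz4⟩ := S_at hb' (j := j) h0 (by omega)
  have hxx : x' = x := by omega
  subst hxx
  have c2 := (GA_track hS hR h').2.1 x' 0 hx2 (Nat.zero_le _)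
    (show Ph K _ _ _ x' 0 < Ph K _ _ _ (x' + 1) 0 by omega)
  rw [show HA K e v t.stN x' 0 = max 0 (-v t.stN) + e t.stN.r2 + j from hz3] at c2
  rw [← c1, ← c2]
  refine hR.gN t h h' x' hx2 ?_
  show sg (Ph K _ _ _ x' (2 * K + 1)) (Ph K _ _ _ (x' + 1) (2 * K + 1)) ≠ Ln.z
  rw [sg_n (by omega)]
  decide

/-- over a north side, letter `s` -/
lemma GA_Nm {t : P.FSt} (h : Act can t) (h' : Act can t.stN) {j : ℤ} (h0 : 0 ≤ j)
    (h1 : j < -v t) :
    GA K e v ψ χ t j ↔ GA K e v ψ χ t.stN (max 0 (v t.stN) + e t.stN + j) := by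
  have hb := hS.bd t h
  have hb' := hS.bd _ h'
  have hbal := hS.bal _ h'
  have e2 := hS.vr t h h'
  obtain ⟨x, hx1, hx2, hx3, hx4⟩ := N_at' hb h0 h1
  have c1 := (GA_track hS hR h).2.2 x (2 * K + 1) hx2 le_rfl
    (show Ph K _ _ _ (x + 1) (2 * K + 1) < Ph K _ _ _ x (2 * K + 1) by omega)
  rw [show HA K e v t (x + 1) (2 * K + 1) = j from hx4] at c1
  obtain ⟨x', hz1, hz2, hz3, hz4⟩ := S_at' hb' (j := j) h0 (by omega)
  have hxx : x' = x := by omega
  subst hxx
  have c2 := (GA_track hS hR h').2.2 x' 0 hx2 (Nat.zero_le _)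
    (show Ph K _ _ _ (x' + 1) 0 < Ph K _ _ _ x' 0 by omega)
  rw [show HA K e v t.stN (x' + 1) 0 = max 0 (v t.stN) +
    (e t.stN.r2 + v t.stN.r2 - v t.stN) + j from hz4,
    show e t.stN.r2 + v t.stN.r2 - v t.stN = e t.stN by omega] at c2
  rw [← c1, ← c2]
  refine hR.gN t h h' x' hx2 ?_
  show sg (Ph K _ _ _ x' (2 * K + 1)) (Ph K _ _ _ (x' + 1) (2 * K + 1)) ≠ Ln.z
  rw [sg_s (by omega)]
  decide

end

/-! ## The theorem -/

section Thm

variable {can : P.Facet → P.FSt} {e : AS can → ℕ} {v : AS can → ℤ}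

open Classical in
/-- extension by zero -/
noncomputable def xA {R : Type*} [Zero R] (g : AS can → R) (t : P.FSt) : R :=
  if h : Act can t then g ⟨t, h⟩ else 0

lemma xA_act {R : Type*} [Zero R] (g : AS can → R) {t : P.FSt} (h : Act can t) :
    xA g t = g ⟨t, h⟩ := dif_pos h

/-- a flow of the complex of all facets is a flow on the states -/
lemma FlS.of_fl (hF : (sysA can).Fl e v) (h0e : ∀ t, ¬ Act can t.1.stE → e t = 0)
    (h0v : ∀ t, ¬ Act can t.1.stN → v t = 0) {K k : ℕ} (he : ∀ d, e d ≤ k) (hv : ∀ d, v d ≤ k)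
    (hv' : ∀ d, -(k : ℤ) ≤ v d) (hK : 3 * k ≤ K) :
    FlS can K (xA (fun t => (e t : ℤ))) (xA v) where
  er := fun t h h' => by
    rw [xA_act _ (act_r2' can h'), xA_act _ h]
    have h1 := hF.er ⟨t, h⟩
    rw [sysA_E can (t := ⟨t, h⟩) h', sysA_r] at h1
    exact_mod_cast h1
  e0 := fun t h h' => by
    rw [xA_act _ h, h0e ⟨t, h⟩ h']
    rfl
  vr := fun t h h' => by
    rw [xA_act _ (act_r2' can h'), xA_act _ h]
    have h1 := hF.vr ⟨t, h⟩
    rw [sysA_N can (t := ⟨t, h⟩) h', sysA_r] at h1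
    exact h1
  v0 := fun t h h' => by
    rw [xA_act _ h, h0v ⟨t, h⟩ h']
  bal := fun t h => by
    rw [xA_act _ (act_r2' can h), xA_act _ h, xA_act _ (act_r2' can h), xA_act _ h]
    exact hF.bal ⟨t, h⟩
  bd := fun t h => by
    rw [xA_act _ (act_r2' can h), xA_act _ (act_r2' can h), xA_act _ h]
    have h1 : (e ⟨t.r2, act_r2' can h⟩ : ℤ) + v ⟨t.r2, act_r2' can h⟩ = e ⟨t, h⟩ + v ⟨t, h⟩ :=
      hF.bal ⟨t, h⟩
    have h2 := he ⟨t, h⟩
    have h3 := he ⟨t.r2, act_r2' can h⟩
    have h4 := hv ⟨t, h⟩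
    have h5 := hv ⟨t.r2, act_r2' can h⟩
    have h6 := hv' ⟨t, h⟩
    have h7 := hv' ⟨t.r2, act_r2' can h⟩
    constructor <;> omega

/-- **The layout theorem for flows on all facets**: for every choice of frames, a connected flow
gives an edge unfolding of a refinement if every facet is joined by a vertical line (over open
sides) to a facet that is crossed over its east side and over its west side. -/
theorem hasEdgeUnfolding_of_flowA (hcan : ∀ f, (can f).facet = f) (hF : (sysA can).Fl e v)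
    (hC : (sysA can).FConn e v) (h0e : ∀ t, ¬ Act can t.1.stE → e t = 0)
    (h0v : ∀ t, ¬ Act can t.1.stN → v t = 0)
    (hcov : ∀ t : AS can, ∃ u : AS can, Ch can t.1 u.1 ∧ 0 < e u ∧ 0 < e ((sysA can).r u))
    {K k : ℕ} (he : ∀ d, e d ≤ k) (hv : ∀ d, v d ≤ k) (hv' : ∀ d, -(k : ℤ) ≤ v d)
    (hK : 3 * k ≤ K) (hne : Nonempty P.Facet) (h5 : 0 < 5 * (2 * K + 1)) :
    (P.refine (5 * (2 * K + 1)) h5).HasEdgeUnfolding := by
  have hS := FlS.of_fl hF h0e h0v he hv hv' hK
  set e' : P.FSt → ℤ := xA (fun t => (e t : ℤ)) with he'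
  set v' : P.FSt → ℤ := xA v with hv''
  refine (faTab hS hcan).hasEdgeUnfolding hne ?_ ?_ h5
  · -- coverage
    intro t ht x hx w
    obtain ⟨u, hu, h1, h2⟩ := hcov ⟨t, ht⟩
    have h1' : 0 < e' u.1 := by
      rw [he', xA_act _ u.2]
      exact_mod_cast h1
    have h2' : 0 < e' u.1.r2 := by
      rw [he', xA_act _ (act_r2' can u.2)]
      exact_mod_cast h2
    obtain ⟨y, hy, h3⟩ := HA_cov hS u.2 h1' h2' (if w then x else x + 1)
    exact ⟨u.1, hu, y, hy, h3⟩
  · -- connectivity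
    intro ψ χ hR'
    have hR : ARel (2 * K + 1) can (fun t => hP (HA K e' v' t)) (fun t => hL (HA K e' v' t))
      ψ χ := hR'
    have hg : (sysA can).FCon e v (fun d u => GA K e' v' ψ χ d.1 (u : ℤ)) := {
      cE := fun d j hj => by
        have h' : Act can d.1.stE := by
          by_contra h
          rw [h0e d h] at hj
          omega
        have a1 : e' d.1 = e d := by rw [he', xA_act _ d.2]
        have a2 : v' d.1 = v d := by rw [hv'', xA_act _ d.2]
        have a3 : v' d.1.stE = v ⟨d.1.stE, h'⟩ := by rw [hv'', xA_act _ h']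
        have h2 := GA_E hS hR d.2 h' (j := (j : ℤ)) (by omega) (by omega)
        rw [sysA_E can h']
        show GA K e' v' ψ χ d.1 _ ↔ GA K e' v' ψ χ d.1.stE _
        rw [show (((v d).toNat + j : ℕ) : ℤ) = max 0 (v' d.1) + j by omega,
          show (((-v ⟨d.1.stE, h'⟩).toNat + j : ℕ) : ℤ) = max 0 (-v' d.1.stE) + j by omega]
        exact h2
      cNp := fun d j hj => by
        have h' : Act can d.1.stN := by
          by_contra h
          rw [h0v d h] at hj
          omega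
        have a2 : v' d.1 = v d := by rw [hv'', xA_act _ d.2]
        have a3 : v' d.1.stN = v ⟨d.1.stN, h'⟩ := by rw [hv'', xA_act _ h']
        have a4 : e' d.1.stN.r2 = e ⟨d.1.stN.r2, act_r2' can h'⟩ := by
          rw [he', xA_act _ (act_r2' can h')]
        have h2 := GA_Np hS hR d.2 h' (j := (j : ℤ)) (by omega) (by omega)
        rw [sysA_N can h', sysA_r]
        show GA K e' v' ψ χ d.1 _ ↔ GA K e' v' ψ χ d.1.stN _
        rw [show (((-v ⟨d.1.stN, h'⟩).toNat + e ⟨d.1.stN.r2, act_r2' can h'⟩ + j : ℕ) : ℤ) =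
          max 0 (-v' d.1.stN) + e' d.1.stN.r2 + j by omega]
        exact h2
      cNm := fun d j hj => by
        have h' : Act can d.1.stN := by
          by_contra h
          rw [h0v d h] at hj
          omega
        have a2 : v' d.1 = v d := by rw [hv'', xA_act _ d.2]
        have a3 : v' d.1.stN = v ⟨d.1.stN, h'⟩ := by rw [hv'', xA_act _ h']
        have a4 : e' d.1.stN = e ⟨d.1.stN, h'⟩ := by rw [he', xA_act _ h']
        have h2 := GA_Nm hS hR d.2 h' (j := (j : ℤ)) (by omega) (by omega)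
        rw [sysA_N can h']
        show GA K e' v' ψ χ d.1 _ ↔ GA K e' v' ψ χ d.1.stN _
        rw [show (((v ⟨d.1.stN, h'⟩).toNat + e ⟨d.1.stN, h'⟩ + j : ℕ) : ℤ) =
          max 0 (v' d.1.stN) + e' d.1.stN + j by omega]
        exact h2
      cr := fun d u hu => by
        have a1 : e' d.1.r2 = e ((sysA can).r d) := by
          rw [he', xA_act _ (act_r2' can d.2)]; rfl
        have a2 : v' d.1 = v d := by rw [hv'', xA_act _ d.2]
        have a3 : v' d.1.r2 = v ((sysA can).r d) := by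
          rw [hv'', xA_act _ (act_r2' can d.2)]; rfl
        have hcnt := hF.cnt_in d
        have h1 : ((sysA can).cnt e v d : ℤ) =
            e' d.1.r2 + max 0 (-v' d.1) + max 0 (v' d.1.r2) := by
          rw [hcnt, a1, a2, a3]
          omega
        have h2 := GA_rot hS hR d.2 (l := (u : ℤ)) (by omega) (by omega)
        show GA K e' v' ψ χ d.1.r2 _ ↔ GA K e' v' ψ χ d.1 _
        rw [h2, show (((sysA can).cnt e v d - 1 - u : ℕ) : ℤ) =
          e' d.1.r2 + max 0 (-v' d.1) + max 0 (v' d.1.r2) - 1 - u by omega] }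
    obtain ⟨c, hc⟩ := hC _ hg
    have hlab : ∀ (t : P.FSt), Act can t → ∀ l : ℤ, 0 ≤ l →
        l < e' t.r2 + max 0 (-v' t) + max 0 (v' t.r2) → (GA K e' v' ψ χ t l ↔ c) := by
      intro t ht l h0 h1
      have hcnt := hF.cnt_in ⟨t, ht⟩
      have a1 : e' t.r2 = e ((sysA can).r ⟨t, ht⟩) := by
        rw [he', xA_act _ (act_r2' can ht)]; rfl
      have a2 : v' t = v ⟨t, ht⟩ := by rw [hv'', xA_act _ ht]
      have a3 : v' t.r2 = v ((sysA can).r ⟨t, ht⟩) := by
        rw [hv'', xA_act _ (act_r2' can ht)]; rfl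
      have h2 := hc ⟨t, ht⟩ l.toNat (by omega)
      rwa [show ((l.toNat : ℕ) : ℤ) = l by omega] at h2
    have hrange : ∀ (t : P.FSt), Act can t → ∀ x y, x ≤ 2 * K + 1 → y ≤ 2 * K + 1 →
        0 ≤ HA K e' v' t x y ∧
        HA K e' v' t x y ≤ e' t.r2 + max 0 (-v' t) + max 0 (v' t.r2) := by
      intro t ht x y hx hy
      have hb := hS.bd t ht
      have h1 := med_ge (K : ℤ) (lo K (v' t) x) (hi K (e' t.r2) (v' t) (v' t.r2) x) y
      have h2 := med_le (K := (K : ℤ)) (y := (y : ℤ)) (lo_le_hi hb (x : ℤ))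
      have h3 := lo_nonneg (K : ℤ) (v' t) x
      have h4 := hi_le' (K : ℤ) (e' t.r2) (v' t) (v' t.r2) x
      have e1 : HA K e' v' t x y =
        med K (lo K (v' t) x) (hi K (e' t.r2) (v' t) (v' t.r2) x) y := rfl
      rw [e1]
      omega
    refine ⟨c, ?_, ?_⟩
    · intro t ht x y hx hy hp
      have hp' : HA K e' v' t x (y + 1) < HA K e' v' t x y := hP_iff.1 hp
      rw [(GA_track hS hR ht).1 x y hx hy hp']
      have h1 := hrange t ht x (y + 1) hx (by omega)
      have h2 := hrange t ht x y hx hy.le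
      exact hlab t ht _ h1.1 (by omega)
    · intro t ht x y hx hy hp
      have hp' : HA K e' v' t x y ≠ HA K e' v' t (x + 1) y := fun h => hp (sg_z h)
      have h1 := hrange t ht x y hx.le hy
      have h2 := hrange t ht (x + 1) y (by omega) hy
      rcases lt_or_gt_of_ne hp' with h3 | h3
      · rw [(GA_track hS hR ht).2.1 x y hx hy h3]
        exact hlab t ht _ h1.1 (by omega)
      · rw [(GA_track hS hR ht).2.2 x y hx hy h3]
        exact hlab t ht _ h2.1 (by omega)

end Thm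

/-! ## The standard frames -/

/-- coverage for the standard frames: it is enough to look at the walls -/
lemma cov_of_walls {e : AS (can (P := P)) → ℕ}
    (h : ∀ t : AS (can (P := P)), t.1.1.n.1 = 2 →
      ∃ u : AS (can (P := P)), Ch can t.1 u.1 ∧ 0 < e u ∧ 0 < e ((sysA can).r u))
    (t : AS (can (P := P))) :
    ∃ u : AS (can (P := P)), Ch can t.1 u.1 ∧ 0 < e u ∧ 0 < e ((sysA can).r u) := by
  obtain ⟨t, ht⟩ := t
  by_cases hd : t.1.d.1 = 2
  · have h1 := act_line ht (by rw [hd]; decide)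
    obtain ⟨j, hj⟩ := ex_dart_N h1
    have hact : Act can ((pN ^ j) t) := line_act hj.2
    obtain ⟨u, hu, hu1⟩ := h ⟨_, hact⟩ (dart_n hj)
    have hc : Ch can t ((pN ^ j) t) := by
      refine ⟨j, ?_, by simp⟩
      intro z hz
      apply line_act
      have key : ∀ n : ℕ, ((pN ^ n) t).1.e = t.1.e := by
        intro n
        induction n with
        | zero => rfl
        | succ n ih => rw [pow_succ', Equiv.Perm.mul_apply, stN_e', ih]
      have hz' : ∃ n : ℕ, z = n := by
        rw [Set.mem_uIcc] at hz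
        exact ⟨z.toNat, by omega⟩
      obtain ⟨n, rfl⟩ := hz'
      show ((pN ^ (n : ℤ)) t).1.e.1 = 0
      rw [zpow_natCast, key, h1]
    exact ⟨u, hc.cat hu, hu1⟩
  · exact h ⟨t, ht⟩ (act_wall ht hd)

/-- the layout theorem for the standard frames, all rings used on the walls -/
theorem hasEdgeUnfolding_of_flowB {e : AS (can (P := P)) → ℕ} {v : AS (can (P := P)) → ℤ}
    (hF : (sysA can).Fl e v) (hC : (sysA can).FConn e v)
    (h0e : ∀ t, ¬ Act can t.1.stE → e t = 0) (h0v : ∀ t, ¬ Act can t.1.stN → v t = 0)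
    (hpos : ∀ t : AS (can (P := P)), t.1.1.n.1 = 2 → 0 < e t) {K k : ℕ} (he : ∀ d, e d ≤ k)
    (hv : ∀ d, v d ≤ k) (hv' : ∀ d, -(k : ℤ) ≤ v d) (hK : 3 * k ≤ K) (hne : Nonempty P.Facet)
    (h5 : 0 < 5 * (2 * K + 1)) : (P.refine (5 * (2 * K + 1)) h5).HasEdgeUnfolding :=
  hasEdgeUnfolding_of_flowA can_facet hF hC h0e h0v
    (cov_of_walls fun t ht => ⟨t, Ch.refl t.2, hpos t ht, hpos _ (r2_n2 ht)⟩)
    he hv hv' hK hne h5

end Pool.Agent.MP42.NE.Gen
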