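import Pool.Agent.MP42.H.One

/-!
# Height functions on the square grid of a facet

The strands are the level curves of a height function: it does not increase to the north (steps
`0`, `-1`), and it changes by at most one to the east.  A unit edge with two different values is
crossed by one strand; its label is the smaller value.
-/

set_option autoImplicit false

namespace Pool.Agent.MP42.NE

open Pool.Agent.Helper55.UNF Pool.Agent.MP42H

/-- letter of a step to the east -/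
def sg (p q : ℤ) : Ln := if p < q then Ln.n else if q < p then Ln.s else Ln.z

lemma sg_n {p q : ℤ} (h : p < q) : sg p q = Ln.n := if_pos h

lemma sg_s {p q : ℤ} (h : q < p) : sg p q = Ln.s := by
  unfold sg; rw [if_neg (by omega), if_pos h]

lemma sg_z {p q : ℤ} (h : p = q) : sg p q = Ln.z := by
  unfold sg; rw [if_neg (by omega), if_neg (by omega)]

lemma sg_iff_n {p q : ℤ} : sg p q = Ln.n ↔ p < q := by
  rcases lt_trichotomy p q with h | h | h
  · rw [sg_n h]; simp [h]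
  · rw [sg_z h]; simp [h]
  · rw [sg_s h]; simp [h.le]

lemma sg_iff_s {p q : ℤ} : sg p q = Ln.s ↔ q < p := by
  rcases lt_trichotomy p q with h | h | h
  · rw [sg_n h]; simp [h.le]
  · rw [sg_z h]; simp [h]
  · rw [sg_s h]; simp [h]

lemma sg_iff_z {p q : ℤ} : sg p q = Ln.z ↔ p = q := by
  rcases lt_trichotomy p q with h | h | h
  · rw [sg_n h]; simp [h.ne]
  · rw [sg_z h]; simp [h]
  · rw [sg_s h]; simp [h.ne']

/-- a height function on the square with `k` rows and columns -/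
structure HF (k : ℕ) (Φ : ℕ → ℕ → ℤ) : Prop where
  v0 : ∀ x y, x ≤ k → y < k → Φ x (y + 1) ≤ Φ x y
  v1 : ∀ x y, x ≤ k → y < k → Φ x y ≤ Φ x (y + 1) + 1
  h0 : ∀ x y, x < k → y ≤ k → Φ x y ≤ Φ (x + 1) y + 1
  h1 : ∀ x y, x < k → y ≤ k → Φ (x + 1) y ≤ Φ x y + 1

/-- the used vertical unit edges -/
def hP (Φ : ℕ → ℕ → ℤ) : ℕ → ℕ → Bool := fun x y => decide (Φ x (y + 1) < Φ x y)

/-- the letters of the horizontal unit edges -/
def hL (Φ : ℕ → ℕ → ℤ) : ℕ → ℕ → Ln := fun x y => sg (Φ x y) (Φ (x + 1) y)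

lemma hP_iff {Φ : ℕ → ℕ → ℤ} {x y : ℕ} : hP Φ x y = true ↔ Φ x (y + 1) < Φ x y :=
  decide_eq_true_iff

lemma hP_t {Φ : ℕ → ℕ → ℤ} {x y : ℕ} (h : Φ x (y + 1) < Φ x y) : hP Φ x y = true :=
  decide_eq_true h

lemma hP_f {Φ : ℕ → ℕ → ℤ} {x y : ℕ} (h : ¬ Φ x (y + 1) < Φ x y) : hP Φ x y = false :=
  decide_eq_false h

section

variable {k : ℕ} {Φ : ℕ → ℕ → ℤ} (hΦ : HF k Φ)

include hΦ

lemma HF.ok : CellOk k (hP Φ) (hL Φ) := by
  intro x y hx hy
  have a1 := hΦ.v0 x y (by omega) hy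
  have a2 := hΦ.v1 x y (by omega) hy
  have a3 := hΦ.v0 (x + 1) y (by omega) hy
  have a4 := hΦ.v1 (x + 1) y (by omega) hy
  have a5 := hΦ.h0 x y hx (by omega)
  have a6 := hΦ.h1 x y hx (by omega)
  have a7 := hΦ.h0 x (y + 1) hx (by omega)
  have a8 := hΦ.h1 x (y + 1) hx (by omega)
  show okc (hP Φ x y) (hP Φ (x + 1) y) (sg (Φ x (y + 1)) (Φ (x + 1) (y + 1)))
    (sg (Φ x y) (Φ (x + 1) y)) = true
  by_cases b1 : Φ x (y + 1) < Φ x y <;> by_cases b2 : Φ (x + 1) (y + 1) < Φ (x + 1) y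
  · rw [hP_t b1, hP_t b2]
    rcases lt_trichotomy (Φ x y) (Φ (x + 1) y) with c | c | c
    · rw [sg_n c, sg_n (by omega)]; rfl
    · rw [sg_z c, sg_z (by omega)]; rfl
    · rw [sg_s c, sg_s (by omega)]; rfl
  · rw [hP_t b1, hP_f b2]
    rcases lt_trichotomy (Φ x y) (Φ (x + 1) y) with c | c | c
    · omega
    · rw [sg_z c, sg_n (by omega)]; rfl
    · rw [sg_s c, sg_z (by omega)]; rfl
  · rw [hP_f b1, hP_t b2]
    rcases lt_trichotomy (Φ x y) (Φ (x + 1) y) with c | c | c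
    · rw [sg_n c, sg_z (by omega)]; rfl
    · rw [sg_z c, sg_s (by omega)]; rfl
    · omega
  · rw [hP_f b1, hP_f b2]
    rcases lt_trichotomy (Φ x y) (Φ (x + 1) y) with c | c | c
    · rw [sg_n c, sg_n (by omega)]; rfl
    · rw [sg_z c, sg_z (by omega)]; rfl
    · rw [sg_s c, sg_s (by omega)]; rfl

variable {ψ χ : ℕ → ℕ → Prop} (hR : CellRel k (hP Φ) (hL Φ) ψ χ)

include hR

/-- a strand that leaves to the east comes from the west, -/
lemma HF.E_W {x y : ℕ} (hx : x < k) (hy : y < k) (h1 : Φ (x + 1) (y + 1) < Φ (x + 1) y)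
    (h2 : Φ x (y + 1) = Φ (x + 1) (y + 1)) (h3 : Φ x y = Φ (x + 1) y) :
    ψ x y ↔ ψ (x + 1) y := by
  have a := hR x y hx hy Prt.W
  have e1 : hP Φ x y = true := hP_t (by omega)
  have e2 : hP Φ (x + 1) y = true := hP_t h1
  have e3 : hL Φ x (y + 1) = Ln.z := sg_z h2
  have e4 : hL Φ x y = Ln.z := sg_z h3
  rw [e1, e2, e3, e4] at a
  exact a rfl

/-- from the south, -/
lemma HF.E_S {x y : ℕ} (hx : x < k) (hy : y < k) (h1 : Φ (x + 1) (y + 1) < Φ (x + 1) y)
    (h2 : Φ x y < Φ (x + 1) y) : χ x y ↔ ψ (x + 1) y := by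
  have a1 := hΦ.v0 x y (by omega) hy
  have a2 := hΦ.v1 x y (by omega) hy
  have a4 := hΦ.v1 (x + 1) y (by omega) hy
  have a6 := hΦ.h1 x y hx (by omega)
  have a7 := hΦ.h0 x (y + 1) hx (by omega)
  have a8 := hΦ.h1 x (y + 1) hx (by omega)
  have a := hR x y hx hy Prt.S
  have e2 : hP Φ (x + 1) y = true := hP_t h1
  have e4 : hL Φ x y = Ln.n := sg_n h2
  by_cases b : Φ x (y + 1) < Φ x y
  · have e1 : hP Φ x y = true := hP_t b
    have e3 : hL Φ x (y + 1) = Ln.n := sg_n (by omega)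
    rw [e1, e2, e3, e4] at a
    exact a rfl
  · have e1 : hP Φ x y = false := hP_f b
    have e3 : hL Φ x (y + 1) = Ln.z := sg_z (by omega)
    rw [e1, e2, e3, e4] at a
    exact a rfl

/-- or from the north -/
lemma HF.E_N {x y : ℕ} (hx : x < k) (hy : y < k) (h1 : Φ (x + 1) (y + 1) < Φ (x + 1) y)
    (h2 : Φ (x + 1) (y + 1) < Φ x (y + 1)) : χ x (y + 1) ↔ ψ (x + 1) y := by
  have a1 := hΦ.v0 x y (by omega) hy
  have a2 := hΦ.v1 x y (by omega) hy
  have a4 := hΦ.v1 (x + 1) y (by omega) hy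
  have a5 := hΦ.h0 x y hx (by omega)
  have a6 := hΦ.h1 x y hx (by omega)
  have a7 := hΦ.h0 x (y + 1) hx (by omega)
  have a := hR x y hx hy Prt.N
  have e2 : hP Φ (x + 1) y = true := hP_t h1
  have e3 : hL Φ x (y + 1) = Ln.s := sg_s h2
  by_cases b : Φ x (y + 1) < Φ x y
  · have e1 : hP Φ x y = true := hP_t b
    have e4 : hL Φ x y = Ln.s := sg_s (by omega)
    rw [e1, e2, e3, e4] at a
    exact a rfl
  · have e1 : hP Φ x y = false := hP_f b
    have e4 : hL Φ x y = Ln.z := sg_z (by omega)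
    rw [e1, e2, e3, e4] at a
    exact a rfl

/-- a strand that leaves to the north comes from the west -/
lemma HF.N_W {x y : ℕ} (hx : x < k) (hy : y < k) (h1 : Φ x (y + 1) < Φ (x + 1) (y + 1))
    (h2 : Φ x (y + 1) < Φ x y) : ψ x y ↔ χ x (y + 1) := by
  have a2 := hΦ.v1 x y (by omega) hy
  have a3 := hΦ.v0 (x + 1) y (by omega) hy
  have a4 := hΦ.v1 (x + 1) y (by omega) hy
  have a6 := hΦ.h1 x y hx (by omega)
  have a8 := hΦ.h1 x (y + 1) hx (by omega)
  have a := hR x y hx hy Prt.W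
  have e1 : hP Φ x y = true := hP_t h2
  have e3 : hL Φ x (y + 1) = Ln.n := sg_n h1
  by_cases b : Φ (x + 1) (y + 1) < Φ (x + 1) y
  · have e2 : hP Φ (x + 1) y = true := hP_t b
    have e4 : hL Φ x y = Ln.n := sg_n (by omega)
    rw [e1, e2, e3, e4] at a
    exact a rfl
  · have e2 : hP Φ (x + 1) y = false := hP_f b
    have e4 : hL Φ x y = Ln.z := sg_z (by omega)
    rw [e1, e2, e3, e4] at a
    exact a rfl

/-- or from the south -/
lemma HF.N_S {x y : ℕ} (hx : x < k) (hy : y < k) (h1 : Φ x (y + 1) < Φ (x + 1) (y + 1))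
    (h2 : Φ x (y + 1) = Φ x y) : Φ x y < Φ (x + 1) y ∧ (χ x y ↔ χ x (y + 1)) := by
  have a3 := hΦ.v0 (x + 1) y (by omega) hy
  have a4 := hΦ.v1 (x + 1) y (by omega) hy
  have a6 := hΦ.h1 x y hx (by omega)
  have a8 := hΦ.h1 x (y + 1) hx (by omega)
  have a := hR x y hx hy Prt.S
  have e1 : hP Φ x y = false := hP_f (by omega)
  have e2 : hP Φ (x + 1) y = false := hP_f (by omega)
  have e3 : hL Φ x (y + 1) = Ln.n := sg_n h1
  have e4 : hL Φ x y = Ln.n := sg_n (by omega)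
  rw [e1, e2, e3, e4] at a
  exact ⟨by omega, a rfl⟩

/-- a strand that leaves to the south comes from the west -/
lemma HF.S_W {x y : ℕ} (hx : x < k) (hy : y < k) (h1 : Φ (x + 1) y < Φ x y)
    (h2 : Φ x (y + 1) < Φ x y) : ψ x y ↔ χ x y := by
  have a2 := hΦ.v1 x y (by omega) hy
  have a3 := hΦ.v0 (x + 1) y (by omega) hy
  have a4 := hΦ.v1 (x + 1) y (by omega) hy
  have a5 := hΦ.h0 x y hx (by omega)
  have a7 := hΦ.h0 x (y + 1) hx (by omega)
  have a := hR x y hx hy Prt.W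
  have e1 : hP Φ x y = true := hP_t h2
  have e4 : hL Φ x y = Ln.s := sg_s h1
  by_cases b : Φ (x + 1) (y + 1) < Φ (x + 1) y
  · have e2 : hP Φ (x + 1) y = true := hP_t b
    have e3 : hL Φ x (y + 1) = Ln.s := sg_s (by omega)
    rw [e1, e2, e3, e4] at a
    exact a rfl
  · have e2 : hP Φ (x + 1) y = false := hP_f b
    have e3 : hL Φ x (y + 1) = Ln.z := sg_z (by omega)
    rw [e1, e2, e3, e4] at a
    exact a rfl

/-- or from the north -/
lemma HF.S_N {x y : ℕ} (hx : x < k) (hy : y < k) (h1 : Φ (x + 1) y < Φ x y)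
    (h2 : Φ x (y + 1) = Φ x y) :
    Φ (x + 1) (y + 1) < Φ x (y + 1) ∧ Φ (x + 1) (y + 1) = Φ (x + 1) y ∧
      (χ x (y + 1) ↔ χ x y) := by
  have a3 := hΦ.v0 (x + 1) y (by omega) hy
  have a4 := hΦ.v1 (x + 1) y (by omega) hy
  have a5 := hΦ.h0 x y hx (by omega)
  have a7 := hΦ.h0 x (y + 1) hx (by omega)
  have a := hR x y hx hy Prt.N
  have e1 : hP Φ x y = false := hP_f (by omega)
  have e2 : hP Φ (x + 1) y = false := hP_f (by omega)
  have e3 : hL Φ x (y + 1) = Ln.s := sg_s (by omega)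
  have e4 : hL Φ x y = Ln.s := sg_s h1
  rw [e1, e2, e3, e4] at a
  exact ⟨by omega, by omega, a rfl⟩

/-- **Tracking.**  If the values at the entrances are given by the labels, all values are. -/
theorem HF.track (G : ℤ → Prop)
    (hW : ∀ y < k, Φ 0 (y + 1) < Φ 0 y → (ψ 0 y ↔ G (Φ 0 (y + 1))))
    (hS : ∀ x < k, Φ x 0 < Φ (x + 1) 0 → (χ x 0 ↔ G (Φ x 0)))
    (hN : ∀ x < k, Φ (x + 1) k < Φ x k → (χ x k ↔ G (Φ (x + 1) k))) :
    (∀ x y, x ≤ k → y < k → Φ x (y + 1) < Φ x y → (ψ x y ↔ G (Φ x (y + 1)))) ∧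
    (∀ x y, x < k → y ≤ k → Φ x y < Φ (x + 1) y → (χ x y ↔ G (Φ x y))) ∧
    (∀ x y, x < k → y ≤ k → Φ (x + 1) y < Φ x y → (χ x y ↔ G (Φ (x + 1) y))) := by
  have kn : ∀ x, x < k → (∀ y, y < k → Φ x (y + 1) < Φ x y → (ψ x y ↔ G (Φ x (y + 1)))) →
      ∀ y, y ≤ k → Φ x y < Φ (x + 1) y → (χ x y ↔ G (Φ x y)) := by
    intro x hx hv y
    induction y with
    | zero => intro _ h; exact hS x hx h
    | succ y ih =>
      intro hy h
      have b0 := hΦ.v0 x y (by omega) (by omega)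
      rcases b0.lt_or_eq with b | b
      · rw [← hΦ.N_W hR hx (by omega) h b]
        exact hv y (by omega) b
      · obtain ⟨c1, c2⟩ := hΦ.N_S hR hx (by omega) h b
        rw [← c2, b]
        exact ih (by omega) c1
  have ks : ∀ x, x < k → (∀ y, y < k → Φ x (y + 1) < Φ x y → (ψ x y ↔ G (Φ x (y + 1)))) →
      ∀ n y, y + n = k → Φ (x + 1) y < Φ x y → (χ x y ↔ G (Φ (x + 1) y)) := by
    intro x hx hv n
    induction n with
    | zero =>
      intro y hy h
      have : y = k := by omega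
      subst this
      exact hN x hx h
    | succ n ih =>
      intro y hy h
      have b0 := hΦ.v0 x y (by omega) (by omega)
      have b1 := hΦ.v1 x y (by omega) (by omega)
      have b2 := hΦ.h0 x y hx (by omega)
      rcases b0.lt_or_eq with b | b
      · rw [← hΦ.S_W hR hx (by omega) h b, hv y (by omega) b,
          show Φ x (y + 1) = Φ (x + 1) y by omega]
      · obtain ⟨c1, c2, c3⟩ := hΦ.S_N hR hx (by omega) h b
        rw [← c3, ← c2]
        exact ih (y + 1) (by omega) c1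
  have kv : ∀ x y, x ≤ k → y < k → Φ x (y + 1) < Φ x y → (ψ x y ↔ G (Φ x (y + 1))) := by
    intro x
    induction x with
    | zero => intro y _ hy h; exact hW y hy h
    | succ x ih =>
      intro y hx hy h
      have hv := fun y hy h => ih y (by omega) hy h
      have a1 := hΦ.v0 x y (by omega) hy
      have a2 := hΦ.v1 x y (by omega) hy
      have a4 := hΦ.v1 (x + 1) y (by omega) hy
      have a5 := hΦ.h0 x y (by omega) (by omega)
      have a6 := hΦ.h1 x y (by omega) (by omega)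
      have a7 := hΦ.h0 x (y + 1) (by omega) (by omega)
      by_cases b1 : Φ x y < Φ (x + 1) y
      · rw [← hΦ.E_S hR (by omega) hy h b1, kn x (by omega) hv y (by omega) b1,
          show Φ x y = Φ (x + 1) (y + 1) by omega]
      · by_cases b2 : Φ (x + 1) (y + 1) < Φ x (y + 1)
        · rw [← hΦ.E_N hR (by omega) hy h b2]
          exact ks x (by omega) hv (k - (y + 1)) (y + 1) (by omega) b2
        · rw [← hΦ.E_W hR (by omega) hy h (by omega) (by omega), hv y hy (by omega),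
            show Φ x (y + 1) = Φ (x + 1) (y + 1) by omega]
  refine ⟨kv, ?_, ?_⟩
  · intro x y hx hy h
    exact kn x hx (fun y hy h => kv x y (by omega) hy h) y hy h
  · intro x y hx hy h
    exact ks x hx (fun y hy h => kv x y (by omega) hy h) (k - y) y (by omega) h

end

end Pool.Agent.MP42.NE
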