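import Pool.Agent.MP42.NE.FExt

/-!
# The table of a flow
-/

set_option autoImplicit false
set_option linter.unusedSectionVars false

namespace Pool.Agent.MP42.NE

open Pool.Agent.Helper55.UNF Pool.Agent.Helper55.UNF.GridSolid Pool.Agent.MP42H

lemma sg_add (p q c : ℤ) : sg (p + c) (q + c) = sg p q := by
  unfold sg
  congr 1
  · exact propext (by omega)
  · congr 1; exact propext (by omega)

lemma sg_sub (p q c : ℤ) : sg (c - p) (c - q) = sg q p := by
  unfold sg
  congr 1
  · exact propext (by omega)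
  · congr 1; exact propext (by omega)

lemma sg_of_sub {p q p' q' : ℤ} (h : q - p = q' - p') : sg p q = sg p' q' := by
  unfold sg
  congr 1
  · exact propext (by omega)
  · congr 1; exact propext (by omega)

variable {P : GridSolid}

/-- the height function of a state -/
noncomputable def Hh (K : ℕ) (e : Dart P → ℕ) (v : Dart P → ℤ) (t : P.FSt) : ℕ → ℕ → ℤ :=
  Ph K (eE e t.r2) (nN v t) (nN v t.r2)

section

variable {e : Dart P → ℕ} {v : Dart P → ℤ} (hF : (sysP P).Fl e v) {K k : ℕ}
  (he : ∀ d, e d ≤ k) (hv : ∀ d, v d ≤ k) (hv' : ∀ d, -(k : ℤ) ≤ v d) (hK : 3 * k ≤ K)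

include hF he hv hv' hK

lemma Hh_HF {t : P.FSt} (h : Act can t) : HF (2 * K + 1) (Hh K e v t) :=
  Ph_HF (bd_act hF he hv hv' hK h)

lemma Hh_bot {t : P.FSt} (h : Act can t) (x : ℕ) :
    Hh K e v t x 0 = hi K (eE e t.r2) (nN v t) (nN v t.r2) x :=
  Ph_bot (bd_act hF he hv hv' hK h) x

lemma Hh_top {t : P.FSt} (h : Act can t) (x : ℕ) : Hh K e v t x (2 * K + 1) = lo K (nN v t) x :=
  Ph_top (bd_act hF he hv hv' hK h) x

lemma Hh_W {t : P.FSt} (h : Act can t) (y : ℕ) :
    Hh K e v t 0 y = med K 0 (eE e t.r2) y + max 0 (-nN v t) := by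
  unfold Hh
  rw [Ph_W (bd_act hF he hv hv' hK h), ← med_shift, zero_add, add_comm (eE e t.r2)]

lemma Hh_E {t : P.FSt} (h : Act can t) (y : ℕ) :
    Hh K e v t (2 * K + 1) y = med K 0 (eE e t) y + max 0 (nN v t) := by
  have h1 := bal_act hF h
  unfold Hh
  rw [Ph_E (bd_act hF he hv hv' hK h), ← med_shift, zero_add,
    show eE e t.r2 + nN v t.r2 - nN v t = eE e t by omega, add_comm (eE e t)]

lemma Hh_rot {t : P.FSt} (h : Act can t) {x y : ℕ} (hx : x ≤ 2 * K + 1) (hy : y ≤ 2 * K + 1) :
    Hh K e v t.r2 x y = (eE e t.r2 + max 0 (-nN v t) + max 0 (nN v t.r2)) -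
      Hh K e v t (2 * K + 1 - x) (2 * K + 1 - y) := by
  have h1 := bal_act hF h
  unfold Hh
  rw [FSt.r2_r2, show eE e t = eE e t.r2 + nN v t.r2 - nN v t by omega,
    Ph_rot (bd_act hF he hv hv' hK h) hx hy]

omit hF he hv hv' hK in
lemma plate_stE {t : P.FSt} (h : Act can t) (h' : Act can t.stE) (h2 : t.1.d.1 = 2) :
    t.stE.1.d.1 = 2 := by
  have h3 : t.1.n.1 = 1 := by
    have h4 := act_line h (by rw [h2]; decide)
    have h5 := dn_axis t
    rw [h2, h4] at h5
    have key : ∀ a : Fin 3, a ≠ 2 ∧ a ≠ 0 → a = 1 := by decide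
    exact key _ h5
  have h6 : t.stE.1.n.1 = 1 := by rw [stE_n', h3]
  by_contra h7
  have := act_wall h' h7
  rw [h6] at this
  exact absurd this (by decide)

omit hF he hv hv' hK in
lemma x_stN {t : P.FSt} (h : Act can t) (h' : Act can t.stN) (h2 : t.1.d.1 = 0) :
    t.stN.1.d.1 = 0 := by
  have h3 : t.1.e.1 = 1 := by
    have h4 : t.1.n.1 = 2 := act_wall h (by rw [h2]; decide)
    have h5 := dn_axis t
    have h6 := de_axis t
    rw [h2, h4] at h5
    rw [h2] at h6
    have key : ∀ a : Fin 3, (2 : Fin 3) ≠ a → 0 ≠ a → a = 1 := by decide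
    exact key _ h5.2 h6
  by_contra h7
  have h8 := act_line h' h7
  rw [FSt.stN_e, h3] at h8
  exact absurd h8 (by decide)

variable (K e v) in
/-- the table -/
noncomputable def ftab : ATab P (2 * K + 1) where
  hk := by omega
  can := can
  can_facet := can_facet
  pr := fun t => hP (Hh K e v t)
  la := fun t => hL (Hh K e v t)
  ok := fun t ht => (Hh_HF hF he hv hv' hK ht).ok
  pr_rot := fun t ht x y hx hy => by
    unfold hP
    rw [Hh_rot hF he hv hv' hK ht hx (show y + 1 ≤ 2 * K + 1 by omega),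
      Hh_rot hF he hv hv' hK ht hx hy.le, show 2 * K + 1 - (y + 1) = 2 * K + 1 - 1 - y by omega,
      show 2 * K + 1 - y = 2 * K + 1 - 1 - y + 1 by omega]
    congr 1
    exact propext (by omega)
  la_rot := fun t ht x y hx hy => by
    unfold hL
    rw [Hh_rot hF he hv hv' hK ht hx.le hy,
      Hh_rot hF he hv hv' hK ht (show x + 1 ≤ 2 * K + 1 by omega) hy, sg_sub,
      show 2 * K + 1 - (x + 1) = 2 * K + 1 - 1 - x by omega,
      show 2 * K + 1 - x = 2 * K + 1 - 1 - x + 1 by omega]
  gE := fun t ht ht' y hy => by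
    have key : eE e t.stE.r2 = eE e t := by
      by_cases h : t.1.d.1 = 2
      · have h1 : t.stE.r2.1.d.1 = 2 := plate_stE ht ht' h
        rw [eE_plate h, eE_plate h1]
      · exact eE_stE hF.er (act_wall ht h)
    unfold hP
    rw [Hh_E hF he hv hv' hK ht, Hh_E hF he hv hv' hK ht, Hh_W hF he hv hv' hK ht',
      Hh_W hF he hv hv' hK ht', key]
    congr 1
    exact propext (by omega)
  gE' := fun t ht ht' y hy => by
    by_cases h : t.1.d.1 = 2
    · apply hP_f
      rw [Hh_E hF he hv hv' hK ht, Hh_E hF he hv hv' hK ht, eE_plate h]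
      have h1 : ∀ z, med (K : ℤ) 0 0 z = 0 := fun z => by unfold med; omega
      rw [h1, h1]
      omega
    · exfalso
      apply ht'
      apply wall_act
      rw [stE_n']
      exact act_wall ht h
  gN := fun t ht ht' x hx => by
    have key : nN v t.stN.r2 = nN v t := by
      by_cases h : t.1.d.1 = 0
      · have h1 : t.stN.r2.1.d.1 = 0 := x_stN ht ht' h
        rw [nN_x h, nN_x h1]
      · exact nN_stN hF.vr (act_line ht h)
    unfold hL
    rw [Hh_top hF he hv hv' hK ht, Hh_top hF he hv hv' hK ht, Hh_bot hF he hv hv' hK ht',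
      Hh_bot hF he hv hv' hK ht', key]
    apply sg_of_sub
    unfold lo hi
    omega
  gN' := fun t ht ht' x hx => by
    by_cases h : t.1.d.1 = 0
    · apply sg_z
      rw [Hh_top hF he hv hv' hK ht, Hh_top hF he hv hv' hK ht, nN_x h]
      unfold lo sc cn
      simp only [le_refl, if_true]
      omega
    · exfalso
      apply ht'
      apply line_act
      rw [FSt.stN_e]
      exact act_line ht h

end

end Pool.Agent.MP42.NE
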