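import Pool.Agent.MP42.NE.FLay

/-!
# Connected flows give edge unfoldings
-/

set_option autoImplicit false
set_option linter.unusedSectionVars false

namespace Pool.Agent.MP42.NE

open Pool.Agent.Helper55.UNF Pool.Agent.Helper55.UNF.GridSolid Pool.Agent.MP42H

/-! ## Ports of a cell -/

lemma med_port {K l h y : ℤ} (h1 : med K l h (y + 1) < med K l h y) :
    y = K + (h - l) - 1 - 2 * (med K l h (y + 1) - l) := by
  unfold med at *; omega

section Cell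

variable {K : ℕ} {w a b : ℤ} (hb : Bd K w a b)

include hb

/-- labels of the west side -/
lemma W_lab {y : ℕ} (h : Ph K w a b 0 (y + 1) < Ph K w a b 0 y) :
    (y : ℤ) = K + w - 1 - 2 * (Ph K w a b 0 (y + 1) - max 0 (-a)) ∧
      max 0 (-a) ≤ Ph K w a b 0 (y + 1) ∧ Ph K w a b 0 (y + 1) < max 0 (-a) + w := by
  have h0 := hb.w0
  rw [Ph_W hb, Ph_W hb] at h
  rw [Ph_W hb]
  push_cast at h ⊢
  have h1 := med_port h
  have h2 := med_ge (K : ℤ) (max 0 (-a)) (max 0 (-a) + w) ((y : ℤ) + 1)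
  have h3 := med_le (K := (K : ℤ)) (l := max 0 (-a)) (h := max 0 (-a) + w) (y := (y : ℤ))
    (by omega)
  refine ⟨by omega, h2, by omega⟩

/-- labels of the entrances from the south -/
lemma S_lab {x : ℕ} (h : Ph K w a b x 0 < Ph K w a b (x + 1) 0) :
    0 < b ∧ (x : ℤ) = K - b + 1 + 2 * (Ph K w a b x 0 - max 0 (-a) - w) ∧
      max 0 (-a) + w ≤ Ph K w a b x 0 ∧ Ph K w a b x 0 < max 0 (-a) + w + max 0 b := by
  rw [Ph_bot hb, Ph_bot hb] at h
  rw [Ph_bot hb]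
  unfold hi sc at *
  push_cast at h ⊢
  have h1 := cn_step0 (K : ℤ) (-b) x
  split_ifs at h ⊢ with h2
  · have h3 : cn (K : ℤ) b x < cn (K : ℤ) b (x + 1) := by omega
    have h4 := cn_port h3
    have h5 := cn_nonneg (K : ℤ) b x
    have h6 := cn_le (K := (K : ℤ)) (m := b) (x := (x : ℤ) + 1) h2
    refine ⟨by omega, by omega, by omega, by omega⟩
  · omega

/-- labels of the entrances from the north -/
lemma N_lab {x : ℕ} (h : Ph K w a b (x + 1) (2 * K + 1) < Ph K w a b x (2 * K + 1)) :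
    a < 0 ∧ (x : ℤ) = K + (-a) - 1 - 2 * Ph K w a b (x + 1) (2 * K + 1) ∧
      0 ≤ Ph K w a b (x + 1) (2 * K + 1) ∧
      Ph K w a b (x + 1) (2 * K + 1) < max 0 (-a) := by
  rw [Ph_top hb, Ph_top hb] at h
  rw [Ph_top hb]
  unfold lo sc at *
  push_cast at h ⊢
  have h1 := cn_step0 (K : ℤ) a x
  split_ifs at h ⊢ with h2
  · omega
  · have h3 : cn (K : ℤ) (-a) x < cn (K : ℤ) (-a) (x + 1) := by omega
    have h4 := cn_port h3
    have h7 := cn_step1 (K : ℤ) (-a) x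
    have h5 := cn_nonneg (K : ℤ) (-a) x
    have h6 := cn_le (K := (K : ℤ)) (m := -a) (x := (x : ℤ) + 1) (by omega)
    refine ⟨by omega, by omega, by omega, by omega⟩

/-- the west port with the number `j` -/
lemma W_at {j : ℤ} (h0 : 0 ≤ j) (h1 : j < w) : ∃ y : ℕ, (y : ℤ) = K + w - 1 - 2 * j ∧
    y < 2 * K + 1 ∧ Ph K w a b 0 y = max 0 (-a) + j + 1 ∧
    Ph K w a b 0 (y + 1) = max 0 (-a) + j := by
  have h3 := hb.a1
  have h4 := hb.b1
  have h5 := hb.b2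
  have h6 := hb.b3
  have h7 := hb.b4
  obtain ⟨y, hy⟩ : ∃ y : ℕ, (y : ℤ) = K + w - 1 - 2 * j := ⟨(K + w - 1 - 2 * j).toNat, by omega⟩
  obtain ⟨m1, m2⟩ := med_at (K := (K : ℤ)) (l := max 0 (-a)) h0 h1
  refine ⟨y, hy, by omega, ?_, ?_⟩
  · rw [Ph_W hb, hy, m1]
  · rw [Ph_W hb]
    push_cast
    rw [hy, m2]

/-- the east port with the number `j` -/
lemma E_at {j : ℤ} (h0 : 0 ≤ j) (h1 : j < w + b - a) :
    ∃ y : ℕ, (y : ℤ) = K + (w + b - a) - 1 - 2 * j ∧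
    y < 2 * K + 1 ∧ Ph K w a b (2 * K + 1) y = max 0 a + j + 1 ∧
    Ph K w a b (2 * K + 1) (y + 1) = max 0 a + j := by
  have h3 := hb.a1
  have h4 := hb.b1
  have h5 := hb.b2
  have h6 := hb.b3
  have h7 := hb.b4
  obtain ⟨y, hy⟩ : ∃ y : ℕ, (y : ℤ) = K + (w + b - a) - 1 - 2 * j :=
    ⟨(K + (w + b - a) - 1 - 2 * j).toNat, by omega⟩
  obtain ⟨m1, m2⟩ := med_at (K := (K : ℤ)) (l := max 0 a) h0 h1
  refine ⟨y, hy, by omega, ?_, ?_⟩
  · rw [Ph_E hb, hy, m1]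
  · rw [Ph_E hb]
    push_cast
    rw [hy, m2]

/-- entrances and exits on the south side -/
lemma S_at {j : ℤ} (h0 : 0 ≤ j) (h1 : j < b) : ∃ x : ℕ, (x : ℤ) = K - b + 1 + 2 * j ∧
    x < 2 * K + 1 ∧ Ph K w a b x 0 = max 0 (-a) + w + j ∧
    Ph K w a b (x + 1) 0 = max 0 (-a) + w + j + 1 := by
  have h3 := hb.c1
  obtain ⟨x, hx⟩ : ∃ x : ℕ, (x : ℤ) = K - b + 1 + 2 * j := ⟨(K - b + 1 + 2 * j).toNat, by omega⟩
  obtain ⟨m1, m2⟩ := cn_at (K := (K : ℤ)) h0 h1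
  refine ⟨x, hx, by omega, ?_, ?_⟩
  · rw [Ph_bot hb]
    unfold hi sc
    rw [if_pos (by omega), hx, m1]
  · rw [Ph_bot hb]
    unfold hi sc
    push_cast
    rw [if_pos (by omega), hx, m2]
    omega

/-- exits on the north side -/
lemma N_at {j : ℤ} (h0 : 0 ≤ j) (h1 : j < a) : ∃ x : ℕ, (x : ℤ) = K - a + 1 + 2 * j ∧
    x < 2 * K + 1 ∧ Ph K w a b x (2 * K + 1) = j ∧
    Ph K w a b (x + 1) (2 * K + 1) = j + 1 := by
  have h3 := hb.a1
  obtain ⟨x, hx⟩ : ∃ x : ℕ, (x : ℤ) = K - a + 1 + 2 * j := ⟨(K - a + 1 + 2 * j).toNat, by omega⟩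
  obtain ⟨m1, m2⟩ := cn_at (K := (K : ℤ)) h0 h1
  refine ⟨x, hx, by omega, ?_, ?_⟩
  · rw [Ph_top hb]
    unfold lo sc
    rw [if_pos (by omega), hx, m1]
    omega
  · rw [Ph_top hb]
    unfold lo sc
    push_cast
    rw [if_pos (by omega), hx, m2]
    omega

/-- entrances on the north side -/
lemma N_at' {j : ℤ} (h0 : 0 ≤ j) (h1 : j < -a) : ∃ x : ℕ, (x : ℤ) = K + (-a) - 1 - 2 * j ∧
    x < 2 * K + 1 ∧ Ph K w a b x (2 * K + 1) = j + 1 ∧
    Ph K w a b (x + 1) (2 * K + 1) = j := by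
  have h3 := hb.a2
  obtain ⟨x, hx⟩ : ∃ x : ℕ, (x : ℤ) = K + (-a) - 1 - 2 * j :=
    ⟨(K + (-a) - 1 - 2 * j).toNat, by omega⟩
  obtain ⟨m1, m2⟩ := cn_at (K := (K : ℤ)) (m := -a) (j := -a - 1 - j) (by omega) (by omega)
  have e1 : (K : ℤ) - -a + 1 + 2 * (-a - 1 - j) = x := by omega
  rw [e1] at m1 m2
  refine ⟨x, hx, by omega, ?_, ?_⟩
  · rw [Ph_top hb]
    unfold lo sc
    rw [if_neg (by omega), m1]
    omega
  · rw [Ph_top hb]
    unfold lo sc
    push_cast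
    rw [if_neg (by omega), m2]
    omega

/-- exits on the south side -/
lemma S_at' {j : ℤ} (h0 : 0 ≤ j) (h1 : j < -b) : ∃ x : ℕ, (x : ℤ) = K + (-b) - 1 - 2 * j ∧
    x < 2 * K + 1 ∧ Ph K w a b x 0 = max 0 a + (w + b - a) + j + 1 ∧
    Ph K w a b (x + 1) 0 = max 0 a + (w + b - a) + j := by
  have h3 := hb.c2
  obtain ⟨x, hx⟩ : ∃ x : ℕ, (x : ℤ) = K + (-b) - 1 - 2 * j :=
    ⟨(K + (-b) - 1 - 2 * j).toNat, by omega⟩
  obtain ⟨m1, m2⟩ := cn_at (K := (K : ℤ)) (m := -b) (j := -b - 1 - j) (by omega) (by omega)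
  have e1 : (K : ℤ) - -b + 1 + 2 * (-b - 1 - j) = x := by omega
  rw [e1] at m1 m2
  refine ⟨x, hx, by omega, ?_, ?_⟩
  · rw [Ph_bot hb]
    unfold hi sc
    rw [if_neg (by omega), m1]
    omega
  · rw [Ph_bot hb]
    unfold hi sc
    push_cast
    rw [if_neg (by omega), m2]
    omega

/-- every label has an entrance -/
lemma in_port {l : ℤ} (h0 : 0 ≤ l) (h1 : l < w + max 0 (-a) + max 0 b) :
    (∃ y < 2 * K + 1, Ph K w a b 0 (y + 1) < Ph K w a b 0 y ∧ Ph K w a b 0 (y + 1) = l) ∨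
    (∃ x < 2 * K + 1, Ph K w a b x 0 < Ph K w a b (x + 1) 0 ∧ Ph K w a b x 0 = l) ∨
    (∃ x < 2 * K + 1, Ph K w a b (x + 1) (2 * K + 1) < Ph K w a b x (2 * K + 1) ∧
      Ph K w a b (x + 1) (2 * K + 1) = l) := by
  by_cases h2 : l < max 0 (-a)
  · right; right
    obtain ⟨x, -, hx, h3, h4⟩ := N_at' hb h0 (show l < -a by omega)
    exact ⟨x, hx, by omega, h4⟩
  · by_cases h3 : l < max 0 (-a) + w
    · left
      obtain ⟨y, -, hy, h4, h5⟩ := W_at hb (j := l - max 0 (-a)) (by omega) (by omega)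
      exact ⟨y, hy, by omega, by omega⟩
    · right; left
      obtain ⟨x, -, hx, h4, h5⟩ := S_at hb (j := l - max 0 (-a) - w) (by omega) (by omega)
      exact ⟨x, hx, by omega, by omega⟩

end Cell

/-- the values at the entrances as a predicate on the labels -/
def GG (k : ℕ) (Φ : ℕ → ℕ → ℤ) (ψ χ : ℕ → ℕ → Prop) (l : ℤ) : Prop :=
  (∃ y < k, Φ 0 (y + 1) < Φ 0 y ∧ Φ 0 (y + 1) = l ∧ ψ 0 y) ∨
  (∃ x < k, Φ x 0 < Φ (x + 1) 0 ∧ Φ x 0 = l ∧ χ x 0) ∨
  (∃ x < k, Φ (x + 1) k < Φ x k ∧ Φ (x + 1) k = l ∧ χ x k)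

section Cell2

variable {K : ℕ} {w a b : ℤ} (hb : Bd K w a b) {ψ χ : ℕ → ℕ → Prop}

include hb

lemma GG_W {y : ℕ} (hy : y < 2 * K + 1) (h : Ph K w a b 0 (y + 1) < Ph K w a b 0 y) :
    ψ 0 y ↔ GG (2 * K + 1) (Ph K w a b) ψ χ (Ph K w a b 0 (y + 1)) := by
  obtain ⟨a1, a2, a3⟩ := W_lab hb h
  constructor
  · intro hp
    exact Or.inl ⟨y, hy, h, rfl, hp⟩
  · rintro (⟨y', -, h1, h2, h3⟩ | ⟨x', -, h1, h2, -⟩ | ⟨x', -, h1, h2, -⟩)
    · obtain ⟨b1, -, -⟩ := W_lab hb h1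
      have : y' = y := by omega
      rwa [this] at h3
    · obtain ⟨-, -, b3, -⟩ := S_lab hb h1
      omega
    · obtain ⟨-, -, -, b4⟩ := N_lab hb h1
      omega

lemma GG_S {x : ℕ} (hx : x < 2 * K + 1) (h : Ph K w a b x 0 < Ph K w a b (x + 1) 0) :
    χ x 0 ↔ GG (2 * K + 1) (Ph K w a b) ψ χ (Ph K w a b x 0) := by
  obtain ⟨-, a1, a2, -⟩ := S_lab hb h
  have hw := hb.w0
  constructor
  · intro hp
    exact Or.inr (Or.inl ⟨x, hx, h, rfl, hp⟩)
  · rintro (⟨y', -, h1, h2, -⟩ | ⟨x', -, h1, h2, h3⟩ | ⟨x', -, h1, h2, -⟩)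
    · obtain ⟨-, -, b1⟩ := W_lab hb h1
      omega
    · obtain ⟨-, b1, -, -⟩ := S_lab hb h1
      have : x' = x := by omega
      rwa [this] at h3
    · obtain ⟨-, -, -, b4⟩ := N_lab hb h1
      omega

lemma GG_N {x : ℕ} (hx : x < 2 * K + 1)
    (h : Ph K w a b (x + 1) (2 * K + 1) < Ph K w a b x (2 * K + 1)) :
    χ x (2 * K + 1) ↔ GG (2 * K + 1) (Ph K w a b) ψ χ (Ph K w a b (x + 1) (2 * K + 1)) := by
  obtain ⟨-, a1, -, a2⟩ := N_lab hb h
  have hw := hb.w0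
  constructor
  · intro hp
    exact Or.inr (Or.inr ⟨x, hx, h, rfl, hp⟩)
  · rintro (⟨y', -, h1, h2, -⟩ | ⟨x', -, h1, h2, -⟩ | ⟨x', -, h1, h2, h3⟩)
    · obtain ⟨-, b1, -⟩ := W_lab hb h1
      omega
    · obtain ⟨-, -, b1, -⟩ := S_lab hb h1
      omega
    · obtain ⟨-, b1, -, -⟩ := N_lab hb h1
      have : x' = x := by omega
      rwa [this] at h3

/-- tracking in a cell -/
lemma GG_track (hR : CellRel (2 * K + 1) (hP (Ph K w a b)) (hL (Ph K w a b)) ψ χ) :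
    (∀ x y, x ≤ 2 * K + 1 → y < 2 * K + 1 → Ph K w a b x (y + 1) < Ph K w a b x y →
      (ψ x y ↔ GG (2 * K + 1) (Ph K w a b) ψ χ (Ph K w a b x (y + 1)))) ∧
    (∀ x y, x < 2 * K + 1 → y ≤ 2 * K + 1 → Ph K w a b x y < Ph K w a b (x + 1) y →
      (χ x y ↔ GG (2 * K + 1) (Ph K w a b) ψ χ (Ph K w a b x y))) ∧
    (∀ x y, x < 2 * K + 1 → y ≤ 2 * K + 1 → Ph K w a b (x + 1) y < Ph K w a b x y →
      (χ x y ↔ GG (2 * K + 1) (Ph K w a b) ψ χ (Ph K w a b (x + 1) y))) :=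
  (Ph_HF hb).track hR _ (fun _ hy h => GG_W hb hy h) (fun _ hx h => GG_S hb hx h)
    (fun _ hx h => GG_N hb hx h)

end Cell2

/-! ## Walking -/

lemma walk' {X : Type*} [Finite X] {π : Equiv.Perm X} {p Q A : X → Prop} {x : X}
    (h0 : Q (π x)) (h1 : ∀ t, Q t → ¬ p t → Q (π t) ∧ (A t ↔ A (π t))) :
    Q (retFun π p x) ∧ (A (π x) ↔ A (retFun π p x)) := by
  rw [retFun_eq]
  have key : ∀ j ≤ retN π p x, (Q ((π ^ (j + 1)) x) ∧ (A (π x) ↔ A ((π ^ (j + 1)) x))) := by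
    intro j
    induction j with
    | zero =>
      intro _
      rw [zero_add, pow_one]
      exact ⟨h0, Iff.rfl⟩
    | succ j ih =>
      intro hj
      obtain ⟨a, b⟩ := ih (by omega)
      have h3 : ¬ p ((π ^ (j + 1)) x) := retN_not (by omega)
      have h4 : (π ^ (j + 1 + 1)) x = π ((π ^ (j + 1)) x) := by rw [pow_succ']; rfl
      obtain ⟨c, d⟩ := h1 _ a h3
      rw [h4]
      exact ⟨c, b.trans d⟩
  exact key _ le_rfl

variable {P : GridSolid}

section Main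

variable {e : Dart P → ℕ} {v : Dart P → ℤ} (hF : (sysP P).Fl e v) {K k : ℕ}
  (he : ∀ d, e d ≤ k) (hv : ∀ d, v d ≤ k) (hv' : ∀ d, -(k : ℤ) ≤ v d) (hK : 3 * k ≤ K)
  {ψ χ : P.FSt → ℕ → ℕ → Prop}
  (hR : ARel (2 * K + 1) can (fun t => hP (Hh K e v t)) (fun t => hL (Hh K e v t)) ψ χ)

/-- values of the labels of a state -/
def GS (K : ℕ) (e : Dart P → ℕ) (v : Dart P → ℤ) (ψ χ : P.FSt → ℕ → ℕ → Prop) (t : P.FSt)
    (l : ℤ) : Prop := GG (2 * K + 1) (Hh K e v t) (ψ t) (χ t) l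

include hF he hv hv' hK

include hR in
lemma GS_track {t : P.FSt} (h : Act can t) :
    (∀ x y, x ≤ 2 * K + 1 → y < 2 * K + 1 → Hh K e v t x (y + 1) < Hh K e v t x y →
      (ψ t x y ↔ GS K e v ψ χ t (Hh K e v t x (y + 1)))) ∧
    (∀ x y, x < 2 * K + 1 → y ≤ 2 * K + 1 → Hh K e v t x y < Hh K e v t (x + 1) y →
      (χ t x y ↔ GS K e v ψ χ t (Hh K e v t x y))) ∧
    (∀ x y, x < 2 * K + 1 → y ≤ 2 * K + 1 → Hh K e v t (x + 1) y < Hh K e v t x y →
      (χ t x y ↔ GS K e v ψ χ t (Hh K e v t (x + 1) y))) :=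
  GG_track (bd_act hF he hv hv' hK h) (hR.cell t h)

/-- values on an `x`-facet -/
lemma Hh_x {t : P.FSt} (h : t.1.n.1 = 2) (h' : ¬ IsDart t) (x y : ℕ) :
    Hh K e v t x y = med K 0 (eE e t) y := by
  have h1 := not_dart_wall h h'
  have h2 : t.r2.1.d.1 = 0 := h1
  unfold Hh Ph
  rw [nN_x h1, nN_x h2, eE_r2 hF.er h h']
  unfold lo hi sc cn
  simp only [le_refl, if_true]
  congr 1 <;> omega

/-- values on a `z`-facet -/
lemma Hh_z {t : P.FSt} (h : t.1.e.1 = 0) (h' : ¬ IsDart t) (x y : ℕ) :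
    Hh K e v t x y = lo K (nN v t) x := by
  have h1 := not_dart_line h h'
  have h2 : t.r2.1.d.1 = 2 := h1
  unfold Hh Ph
  rw [eE_plate h2, nN_r2 hF.vr h h']
  unfold lo hi med
  omega

include hR

/-- walking to the east -/
lemma fwalk_E {t : P.FSt} (h : t.1.n.1 = 2) {y : ℕ} (hy : y < 2 * K + 1)
    (h1 : med K 0 (eE e t) (y + 1) < med K 0 (eE e t) y) :
    eE e (retFun pE IsDart t).r2 = eE e t ∧
      (ψ t (2 * K + 1) y ↔ ψ (retFun pE IsDart t) 0 y) := by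
  have := walk' (π := (pE : Equiv.Perm P.FSt)) (p := IsDart)
    (Q := fun u : P.FSt => u.1.n.1 = 2 ∧ eE e u.r2 = eE e t)
    (A := fun u => ψ u 0 y) (x := t) ⟨stE_n2 h, eE_stE hF.er h⟩ ?_
  · refine ⟨this.1.2, ?_⟩
    rw [← this.2]
    refine hR.gE t (wall_act h) (wall_act (stE_n2 h)) y hy ?_
    apply hP_t
    rw [Hh_E hF he hv hv' hK (wall_act h), Hh_E hF he hv hv' hK (wall_act h)]
    push_cast
    omega
  · rintro u ⟨a, b⟩ hd
    have b' : eE e u = eE e t := by rw [← eE_r2 hF.er a hd, b]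
    have b2 : eE e u.stE.r2 = eE e t := by rw [eE_stE hF.er a, b']
    refine ⟨⟨stE_n2 a, b2⟩, ?_⟩
    have h2 : ∀ x, Hh K e v u x (y + 1) < Hh K e v u x y := by
      intro x
      rw [Hh_x hF he hv hv' hK a hd, Hh_x hF he hv hv' hK a hd, b']
      push_cast
      exact h1
    have h3 := (GS_track hF he hv hv' hK hR (wall_act a)).1 0 y (Nat.zero_le _) hy (h2 _)
    have h4 := (GS_track hF he hv hv' hK hR (wall_act a)).1 (2 * K + 1) y le_rfl hy (h2 _)
    rw [Hh_x hF he hv hv' hK a hd] at h3 h4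
    show ψ u 0 y ↔ ψ u.stE 0 y
    rw [h3, ← h4]
    exact hR.gE u (wall_act a) (wall_act (stE_n2 a)) y hy (hP_t (h2 _))

/-- walking to the north -/
lemma fwalk_N {t : P.FSt} (h : t.1.e.1 = 0) {x : ℕ} (hx : x < 2 * K + 1)
    (h1 : sc K (nN v t) x ≠ sc K (nN v t) (x + 1)) :
    nN v (retFun pN IsDart t).r2 = nN v t ∧
      (χ t x (2 * K + 1) ↔ χ (retFun pN IsDart t) x 0) := by
  have hz : ∀ p q : ℤ, p ≠ q → sg p q ≠ Ln.z := by
    intro p q hpq hs
    exact hpq (sg_iff_z.1 hs)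
  have := walk' (π := (pN : Equiv.Perm P.FSt)) (p := IsDart)
    (Q := fun u : P.FSt => u.1.e.1 = 0 ∧ nN v u.r2 = nN v t)
    (A := fun u => χ u x 0) (x := t) ⟨stN_e0 h, nN_stN hF.vr h⟩ ?_
  · refine ⟨this.1.2, ?_⟩
    rw [← this.2]
    refine hR.gN t (line_act h) (line_act (stN_e0 h)) x hx ?_
    apply hz
    rw [Hh_top hF he hv hv' hK (line_act h), Hh_top hF he hv hv' hK (line_act h)]
    unfold lo
    push_cast
    omega
  · rintro u ⟨a, b⟩ hd
    have b' : nN v u = nN v t := by rw [← nN_r2 hF.vr a hd, b]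
    have b2 : nN v u.stN.r2 = nN v t := by rw [nN_stN hF.vr a, b']
    refine ⟨⟨stN_e0 a, b2⟩, ?_⟩
    have h2 : ∀ y, Hh K e v u x y = lo K (nN v t) x := by
      intro y
      rw [Hh_z hF he hv hv' hK a hd, b']
    have h2' : ∀ y, Hh K e v u (x + 1) y = lo K (nN v t) (x + 1) := by
      intro y
      rw [Hh_z hF he hv hv' hK a hd, b']
      push_cast
      rfl
    have h3 : χ u x 0 ↔ χ u x (2 * K + 1) := by
      obtain ⟨-, c1, c2⟩ := GS_track hF he hv hv' hK hR (line_act a)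
      rcases lt_or_gt_of_ne h1 with h5 | h5
      · have h6 : ∀ y, Hh K e v u x y < Hh K e v u (x + 1) y := by
          intro y
          rw [h2, h2']
          unfold lo
          omega
        have d1 := c1 x 0 hx (Nat.zero_le _) (h6 _)
        have d2 := c1 x (2 * K + 1) hx le_rfl (h6 _)
        rw [h2] at d1 d2
        rw [d1, d2]
      · have h6 : ∀ y, Hh K e v u (x + 1) y < Hh K e v u x y := by
          intro y
          rw [h2, h2']
          unfold lo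
          omega
        have d1 := c2 x 0 hx (Nat.zero_le _) (h6 _)
        have d2 := c2 x (2 * K + 1) hx le_rfl (h6 _)
        rw [h2'] at d1 d2
        rw [d1, d2]
    show χ u x 0 ↔ χ u.stN x 0
    rw [h3]
    refine hR.gN u (line_act a) (line_act (stN_e0 a)) x hx ?_
    apply hz
    rw [h2, h2']
    unfold lo
    omega

/-- half turn of the labels -/
lemma GS_rot {t : P.FSt} (h : Act can t) {l : ℤ} (h0 : 0 ≤ l)
    (h1 : l < eE e t.r2 + max 0 (-nN v t) + max 0 (nN v t.r2)) :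
    GS K e v ψ χ t.r2 l ↔
      GS K e v ψ χ t (eE e t.r2 + max 0 (-nN v t) + max 0 (nN v t.r2) - 1 - l) := by
  have hact : Act can t.r2 := act_r2' can h
  have hbal := bal_act hF h
  have hb := bd_act hF he hv hv' hK hact
  obtain ⟨t1, t2, t3⟩ := GS_track hF he hv hv' hK hR hact
  obtain ⟨s1, s2, s3⟩ := GS_track hF he hv hv' hK hR h
  have hrot := fun x y hx hy => Hh_rot hF he hv hv' hK h (x := x) (y := y) hx hy
  set C : ℤ := eE e t.r2 + max 0 (-nN v t) + max 0 (nN v t.r2) with hC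
  have hC' : C = eE e t.r2.r2 + max 0 (-nN v t.r2) + max 0 (nN v t.r2.r2) := by
    rw [FSt.r2_r2, hC]; omega
  rcases in_port hb h0 (by rw [← hC']; exact h1) with ⟨y, hy, p1, p2⟩ | ⟨x, hx, p1, p2⟩ |
    ⟨x, hx, p1, p2⟩
  · have p1' : Hh K e v t.r2 0 (y + 1) < Hh K e v t.r2 0 y := p1
    have p2' : Hh K e v t.r2 0 (y + 1) = l := p2
    have q1 := t1 0 y (Nat.zero_le _) hy p1'
    rw [p2'] at q1
    rw [← q1, hR.rotV t h 0 y (Nat.zero_le _) hy, Nat.sub_zero]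
    have r1 := hrot 0 (y + 1) (Nat.zero_le _) (by omega)
    have r2 := hrot 0 y (Nat.zero_le _) (by omega)
    rw [Nat.sub_zero, show 2 * K + 1 - (y + 1) = 2 * K + 1 - 1 - y by omega] at r1
    rw [Nat.sub_zero, show 2 * K + 1 - y = 2 * K + 1 - 1 - y + 1 by omega] at r2
    have r3 := (Hh_HF hF he hv hv' hK h).v1 (2 * K + 1) (2 * K + 1 - 1 - y) le_rfl (by omega)
    rw [s1 (2 * K + 1) (2 * K + 1 - 1 - y) le_rfl (by omega) (by omega),
      show Hh K e v t (2 * K + 1) (2 * K + 1 - 1 - y + 1) = C - 1 - l by omega]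
  · have p1' : Hh K e v t.r2 x 0 < Hh K e v t.r2 (x + 1) 0 := p1
    have p2' : Hh K e v t.r2 x 0 = l := p2
    have q1 := t2 x 0 hx (Nat.zero_le _) p1'
    rw [p2'] at q1
    rw [← q1, hR.rotH t h x 0 hx (Nat.zero_le _), Nat.sub_zero]
    have r1 := hrot (x + 1) 0 (by omega) (Nat.zero_le _)
    have r2 := hrot x 0 (by omega) (Nat.zero_le _)
    rw [Nat.sub_zero, show 2 * K + 1 - (x + 1) = 2 * K + 1 - 1 - x by omega] at r1
    rw [Nat.sub_zero, show 2 * K + 1 - x = 2 * K + 1 - 1 - x + 1 by omega] at r2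
    have r3 := (Hh_HF hF he hv hv' hK h).h1 (2 * K + 1 - 1 - x) (2 * K + 1) (by omega) le_rfl
    rw [s2 (2 * K + 1 - 1 - x) (2 * K + 1) (by omega) le_rfl (by omega),
      show Hh K e v t (2 * K + 1 - 1 - x) (2 * K + 1) = C - 1 - l by omega]
  · have p1' : Hh K e v t.r2 (x + 1) (2 * K + 1) < Hh K e v t.r2 x (2 * K + 1) := p1
    have p2' : Hh K e v t.r2 (x + 1) (2 * K + 1) = l := p2
    have q1 := t3 x (2 * K + 1) hx le_rfl p1'
    rw [p2'] at q1
    rw [← q1, hR.rotH t h x (2 * K + 1) hx le_rfl, Nat.sub_self]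
    have r1 := hrot (x + 1) (2 * K + 1) (by omega) le_rfl
    have r2 := hrot x (2 * K + 1) (by omega) le_rfl
    rw [Nat.sub_self, show 2 * K + 1 - (x + 1) = 2 * K + 1 - 1 - x by omega] at r1
    rw [Nat.sub_self, show 2 * K + 1 - x = 2 * K + 1 - 1 - x + 1 by omega] at r2
    have r3 := (Hh_HF hF he hv hv' hK h).h0 (2 * K + 1 - 1 - x) 0 (by omega) (Nat.zero_le _)
    rw [s3 (2 * K + 1 - 1 - x) 0 (by omega) (Nat.zero_le _) (by omega),
      show Hh K e v t (2 * K + 1 - 1 - x + 1) 0 = C - 1 - l by omega]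

omit he hv hv' hK hR in
lemma par_dart (d : Dart P) : eE e d.1.r2 = e (r2D P d) ∧ nN v d.1 = v d ∧
    nN v d.1.r2 = v (r2D P d) ∧ eE e d.1 = e d :=
  ⟨eE_dart hF.er (r2D P d), nN_dart hF.vr d, nN_dart hF.vr (r2D P d), eE_dart hF.er d⟩

/-- the predicate is consistent -/
lemma GS_con : (sysP P).FCon e v (fun d u => GS K e v ψ χ d.1 (u : ℤ)) where
  cE := fun d j hj => by
    obtain ⟨a1, a2, a3, a4⟩ := par_dart hF d
    obtain ⟨b1, b2, b3, b4⟩ := par_dart hF (phi P d)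
    have hact : Act can d.1 := line_act d.2.2
    have hact' : Act can (phi P d).1 := line_act (phi P d).2.2
    have hb := bd_act hF he hv hv' hK hact
    have hb' := bd_act hF he hv hv' hK hact'
    have hbal := bal_act hF hact
    have e1 : (phi P d).1 = retFun pE IsDart d.1 := rfl
    have e2 : e (r2D P (phi P d)) = e d := hF.er d
    -- the east port
    obtain ⟨y, hy1, hy2, hy3, hy4⟩ := E_at hb (j := (j : ℤ)) (by omega) (by omega)
    have c1 := (GS_track hF he hv hv' hK hR hact).1 (2 * K + 1) y le_rfl hy2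
      (show Ph K _ _ _ (2 * K + 1) (y + 1) < Ph K _ _ _ (2 * K + 1) y by omega)
    rw [show Hh K e v d.1 (2 * K + 1) (y + 1) = max 0 (nN v d.1) + j from hy4, a2] at c1
    -- the west port
    obtain ⟨y', hz1, hz2, hz3, hz4⟩ := W_at hb' (j := (j : ℤ)) (by omega) (by omega)
    have hyy : y' = y := by omega
    subst hyy
    have c2 := (GS_track hF he hv hv' hK hR hact').1 0 y' (Nat.zero_le _) hy2
      (show Ph K _ _ _ 0 (y' + 1) < Ph K _ _ _ 0 y' by omega)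
    rw [show Hh K e v (phi P d).1 0 (y' + 1) = max 0 (-nN v (phi P d).1) + j from hz4, b2] at c2
    -- the way
    obtain ⟨m1, m2⟩ := med_at (K := (K : ℤ)) (l := 0) (m := eE e d.1) (j := (j : ℤ)) (by omega)
      (by omega)
    have e3 : (K : ℤ) + eE e d.1 - 1 - 2 * j = y' := by omega
    rw [e3, zero_add] at m1 m2
    have c3 := (fwalk_E hF he hv hv' hK hR (dart_n d.2) hy2 (by omega)).2
    show GS K e v ψ χ d.1 _ ↔ GS K e v ψ χ (phi P d).1 _
    rw [show (((v d).toNat + j : ℕ) : ℤ) = max 0 (v d) + j by omega,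
      show (((-v ((sysP P).E d)).toNat + j : ℕ) : ℤ) = max 0 (-v (phi P d)) + j by
        show (((-v (phi P d)).toNat + j : ℕ) : ℤ) = _
        omega, ← c1, ← c2, c3, e1]
  cNp := fun d j hj => by
    obtain ⟨a1, a2, a3, a4⟩ := par_dart hF d
    obtain ⟨b1, b2, b3, b4⟩ := par_dart hF (rN P d)
    have hact : Act can d.1 := line_act d.2.2
    have hact' : Act can (rN P d).1 := line_act (rN P d).2.2
    have hb := bd_act hF he hv hv' hK hact
    have hb' := bd_act hF he hv hv' hK hact'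
    have e1 : (rN P d).1 = retFun pN IsDart d.1 := rfl
    have e2 : v (r2D P (rN P d)) = v d := hF.vr d
    obtain ⟨x, hx1, hx2, hx3, hx4⟩ := N_at hb (j := (j : ℤ)) (by omega) (by omega)
    have c1 := (GS_track hF he hv hv' hK hR hact).2.1 x (2 * K + 1) hx2 le_rfl
      (show Ph K _ _ _ x (2 * K + 1) < Ph K _ _ _ (x + 1) (2 * K + 1) by omega)
    rw [show Hh K e v d.1 x (2 * K + 1) = j from hx3] at c1
    obtain ⟨x', hz1, hz2, hz3, hz4⟩ := S_at hb' (j := (j : ℤ)) (by omega) (by omega)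
    have hxx : x' = x := by omega
    subst hxx
    have c2 := (GS_track hF he hv hv' hK hR hact').2.1 x' 0 hx2 (Nat.zero_le _)
      (show Ph K _ _ _ x' 0 < Ph K _ _ _ (x' + 1) 0 by omega)
    rw [show Hh K e v (rN P d).1 x' 0 = max 0 (-nN v (rN P d).1) + eE e (rN P d).1.r2 + j
      from hz3, b2, b1] at c2
    have c4 := Hh_top hF he hv hv' hK hact x'
    have c5 := Hh_top hF he hv hv' hK hact (x' + 1)
    rw [show Hh K e v d.1 x' (2 * K + 1) = j from hx3] at c4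
    rw [show Hh K e v d.1 (x' + 1) (2 * K + 1) = j + 1 from hx4] at c5
    have c3 := (fwalk_N hF he hv hv' hK hR d.2.2 hx2 (by
      unfold lo at c4 c5; push_cast at c4 c5; omega)).2
    show GS K e v ψ χ d.1 _ ↔ GS K e v ψ χ (rN P d).1 _
    rw [show (((-v ((sysP P).N d)).toNat + e ((sysP P).r ((sysP P).N d)) + j : ℕ) : ℤ) =
        max 0 (-v (rN P d)) + e (r2D P (rN P d)) + j by
        show (((-v (rN P d)).toNat + e (r2D P (rN P d)) + j : ℕ) : ℤ) = _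
        omega, ← c1, ← c2, c3, e1]
  cNm := fun d j hj => by
    obtain ⟨a1, a2, a3, a4⟩ := par_dart hF d
    obtain ⟨b1, b2, b3, b4⟩ := par_dart hF (rN P d)
    have hact : Act can d.1 := line_act d.2.2
    have hact' : Act can (rN P d).1 := line_act (rN P d).2.2
    have hb := bd_act hF he hv hv' hK hact
    have hb' := bd_act hF he hv hv' hK hact'
    have hbal := bal_act hF hact'
    have e1 : (rN P d).1 = retFun pN IsDart d.1 := rfl
    have e2 : v (r2D P (rN P d)) = v d := hF.vr d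
    obtain ⟨x, hx1, hx2, hx3, hx4⟩ := N_at' hb (j := (j : ℤ)) (by omega) (by omega)
    have c1 := (GS_track hF he hv hv' hK hR hact).2.2 x (2 * K + 1) hx2 le_rfl
      (show Ph K _ _ _ (x + 1) (2 * K + 1) < Ph K _ _ _ x (2 * K + 1) by omega)
    rw [show Hh K e v d.1 (x + 1) (2 * K + 1) = j from hx4] at c1
    obtain ⟨x', hz1, hz2, hz3, hz4⟩ := S_at' hb' (j := (j : ℤ)) (by omega) (by omega)
    have hxx : x' = x := by omega
    subst hxx
    have c2 := (GS_track hF he hv hv' hK hR hact').2.2 x' 0 hx2 (Nat.zero_le _)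
      (show Ph K _ _ _ (x' + 1) 0 < Ph K _ _ _ x' 0 by omega)
    rw [show Hh K e v (rN P d).1 (x' + 1) 0 = max 0 (nN v (rN P d).1) +
      (eE e (rN P d).1.r2 + nN v (rN P d).1.r2 - nN v (rN P d).1) + j from hz4,
      show eE e (rN P d).1.r2 + nN v (rN P d).1.r2 - nN v (rN P d).1 = e (rN P d) by omega,
      b2] at c2
    have c4 := Hh_top hF he hv hv' hK hact x'
    have c5 := Hh_top hF he hv hv' hK hact (x' + 1)
    rw [show Hh K e v d.1 x' (2 * K + 1) = j + 1 from hx3] at c4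
    rw [show Hh K e v d.1 (x' + 1) (2 * K + 1) = j from hx4] at c5
    have c3 := (fwalk_N hF he hv hv' hK hR d.2.2 hx2 (by
      unfold lo at c4 c5; push_cast at c4 c5; omega)).2
    show GS K e v ψ χ d.1 _ ↔ GS K e v ψ χ (rN P d).1 _
    rw [show (((v ((sysP P).N d)).toNat + e ((sysP P).N d) + j : ℕ) : ℤ) =
        max 0 (v (rN P d)) + e (rN P d) + j by
        show (((v (rN P d)).toNat + e (rN P d) + j : ℕ) : ℤ) = _
        omega, ← c1, ← c2, c3, e1]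
  cr := fun d u hu => by
    obtain ⟨a1, a2, a3, a4⟩ := par_dart hF d
    have hact : Act can d.1 := line_act d.2.2
    have hcnt := hF.cnt_in d
    have e3 : (sysP P).r d = r2D P d := rfl
    rw [e3] at hcnt
    have h1 : ((sysP P).cnt e v d : ℤ) =
        eE e d.1.r2 + max 0 (-nN v d.1) + max 0 (nN v d.1.r2) := by
      rw [hcnt, a1, a2, a3]
      omega
    have h2 := GS_rot hF he hv hv' hK hR hact (l := (u : ℤ)) (by omega) (by omega)
    show GS K e v ψ χ d.1.r2 _ ↔ GS K e v ψ χ d.1 _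
    rw [h2, show (((sysP P).cnt e v d - 1 - u : ℕ) : ℤ) =
      eE e d.1.r2 + max 0 (-nN v d.1) + max 0 (nN v d.1.r2) - 1 - u by omega]

end Main

end Pool.Agent.MP42.NE
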