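import Pool.Agent.MP42.NE.Lay2

/-!
# Finite refinement suffices for every genus
-/

set_option autoImplicit false

namespace Pool.Agent.MP42.NE

open Pool.Agent.Helper55.UNF Pool.Agent.Helper55.UNF.GridSolid Pool.Agent.MP42H

lemma exists_dart_P {P : GridSolid} (hne : Nonempty P.Facet) : Nonempty (Dart P) := by
  obtain ⟨f⟩ := hne
  by_cases h : f.1.2.1 = 0
  · have h1 : (can f).1.d.1 ≠ 2 := by
      show f.1.2.1 ≠ 2
      rw [h]; decide
    obtain ⟨j, hj⟩ := ex_dart_E (act_wall (t_act f) h1)
    exact ⟨⟨_, hj⟩⟩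
  · obtain ⟨j, hj⟩ := ex_dart_N (t := can f) (act_line (t_act f) h)
    exact ⟨⟨_, hj⟩⟩
where
  t_act (f : P.Facet) : Act can (can f) := Or.inl (by rw [can_facet])

/-- Every orthogonal polyhedron, of any genus, has an edge unfolding after a finite refinement of
its grid. -/
theorem finite_refinement (P : GridSolid) (hP : P.IsOrthogonalPolyhedron) :
    ∃ (k : ℕ) (hk : 0 < k), (P.refine k hk).HasEdgeUnfolding := by
  have hne : Nonempty P.Facet := hP.2.nonempty
  have := exists_dart_P hne
  obtain ⟨s, m, hW, hs, -, hC⟩ := exists_conn_P hP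
  have hle : ∀ (w : Dart P → ℕ) (d : Dart P), w d ≤ ∑ e, w e := fun w d =>
    Finset.single_le_sum (f := w) (fun _ _ => Nat.zero_le _) (Finset.mem_univ d)
  refine ⟨5 * (∑ e, s e + ∑ e, m e + 1), by omega, ?_⟩
  exact hasEdgeUnfolding_of_conn hW hC hs (by omega) (fun d => by have := hle s d; omega)
    (fun d => by have := hle m d; omega) hne (by omega)

end Pool.Agent.MP42.NE
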