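import Pool.Agent.MP42.NE.KCur2

/-!
# Signed flows on facets

`A t` is the number of strands over the west side of the nominal frame `t`, counted eastward, `B t`
the number over the south side, counted northward, `c t` the number through the southwest corner.
Strands may be reversed over two opposite sides, and the east side of a facet may be glued to the
north side of the next one (then the sign changes).  The strands of a facet do not cross and join
the entrances to the exits.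
-/

set_option autoImplicit false

namespace Pool.Agent.MP42.NE

open Pool.Agent.Helper55.UNF Pool.Agent.Helper55.UNF.GridSolid Relation

variable {P : GridSolid}

lemma fr_r2_ne (s : P.FSt) : s.r2 ≠ s := by
  intro h
  have h1 : opp s.1.e = s.1.e := congrArg (fun s : P.FSt => s.1.e) h
  revert h1
  generalize s.1.e = e
  revert e
  decide

lemma fr_rL_ne (s : P.FSt) : s.rL ≠ s := by
  intro h
  have h1 : cross s.1.d s.1.e = s.1.e := congrArg (fun s : P.FSt => s.1.e) h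
  have h2 := s.2.2
  generalize s.1.d = d at *
  generalize s.1.e = e at *
  clear h
  revert d e
  decide

lemma fr_rL_ne_r2 (s : P.FSt) : s.rL ≠ s.r2 := by
  intro h
  have h1 := congrArg FSt.rR h
  rw [FSt.rL_rR, FSt.r2_rR] at h1
  exact fr_rL_ne _ h1.symm

/-- A signed flow on facets. -/
structure GFlow (P : GridSolid) where
  nom : P.FSt → Prop
  nom_r2 : ∀ t, nom t → nom t.r2
  nom_ex : ∀ F : P.Facet, ∃ t, nom t ∧ t.facet = F
  nom_two : ∀ s t, nom s → nom t → s.facet = t.facet → s = t ∨ s = t.r2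
  A : P.FSt → ℤ
  B : P.FSt → ℤ
  c : P.FSt → ℕ
  c1 : ∀ t, c t ≤ 1
  bal : ∀ t, nom t → A t + B t + c t = A t.r2 + B t.r2 + c t.r2
  blk : ∀ t, nom t → (0 ≤ A t ∧ 0 ≤ A t.r2) ∨ (0 ≤ B t ∧ 0 ≤ B t.r2)
  east : ∀ t, nom t → A t.r2 ≠ 0 → (nom t.stE ∧ A t.stE = A t.r2) ∨
    (nom t.stE.rL ∧ B t.stE.rL.r2 = - A t.r2)
  north : ∀ t, nom t → B t.r2 ≠ 0 → (nom t.stN ∧ B t.stN = B t.r2) ∨
    (nom t.stN.rR ∧ A t.stN.rR.r2 = - B t.r2)
  cpos : ∀ t, nom t → c t.r2 = 1 → 0 ≤ A t.r2 ∧ 0 ≤ B t.r2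
  pass : ∀ t, nom t → c t.r2 = 1 → PassOk t ∧ nom (opq t) ∧ c (opq t) = 1
  uniq1 : ∀ t, nom t → c t.r2 = 1 → nom (rho t) → c (rho t).r2 ≠ 1
  uniq2 : ∀ t, nom t → c t.r2 = 1 → nom (rho (rho t)) → c (rho (rho t)).r2 ≠ 1
  uniq3 : ∀ t, nom t → c t.r2 = 1 → (opq t).facet ≠ t.facet

namespace GFlow

variable (A : GFlow P)

/-- entrances over the north side -/
def ni (t : P.FSt) : ℕ := (-A.B t.r2).toNat
/-- entrances over the west side -/
def wi (t : P.FSt) : ℕ := (A.A t).toNat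
/-- entrances over the south side -/
def si (t : P.FSt) : ℕ := (A.B t).toNat
/-- entrances over the east side -/
def ei (t : P.FSt) : ℕ := (-A.A t.r2).toNat
/-- exits over the west side -/
def wo (t : P.FSt) : ℕ := (-A.A t).toNat
/-- exits over the north side -/
def no (t : P.FSt) : ℕ := (A.B t.r2).toNat
/-- exits over the east side -/
def eo (t : P.FSt) : ℕ := (A.A t.r2).toNat
/-- exits over the south side -/
def so (t : P.FSt) : ℕ := (-A.B t).toNat

/-- number of strands of a facet -/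
def M (t : P.FSt) : ℕ := A.ni t + A.wi t + A.c t + A.si t + A.ei t

/-- admissible strands -/
def Va (s : P.FSt × ℕ) : Prop := A.nom s.1 ∧ s.2 < A.M s.1

/-- the reversed strand -/
def rv (s : P.FSt × ℕ) : P.FSt × ℕ := (s.1.r2, A.M s.1 - 1 - s.2)

open Classical in
/-- number of crossings of the east side -/
noncomputable def n (t : P.FSt) : ℕ := if A.nom t then (A.A t.r2).natAbs else (A.B t.rL).natAbs

open Classical in
/-- number of strands through the northeast corner -/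
noncomputable def k (t : P.FSt) : ℕ := if A.nom t then A.c t.r2 else 0

/-- the place where a strand leaves its facet -/
noncomputable def ex (s : P.FSt × ℕ) : P.FSt × ℕ :=
  if s.2 < A.wo s.1 then (s.1.r2, A.wo s.1 - 1 - s.2)
  else if s.2 < A.wo s.1 + A.no s.1 then (s.1.rL, A.wo s.1 + A.no s.1 - 1 - s.2)
  else if s.2 < A.wo s.1 + A.no s.1 + A.c s.1.r2 then (s.1, A.n s.1)
  else if s.2 < A.wo s.1 + A.no s.1 + A.c s.1.r2 + A.eo s.1 then
    (s.1, A.wo s.1 + A.no s.1 + A.c s.1.r2 + A.eo s.1 - 1 - s.2)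
  else (s.1.rR, A.M s.1 - 1 - s.2)

open Classical in
/-- the strand that leaves its facet at a place -/
noncomputable def st (p : P.FSt × ℕ) : P.FSt × ℕ :=
  if A.nom p.1 then
    if A.n p.1 ≤ p.2 then (p.1, A.wo p.1 + A.no p.1)
    else if 0 < A.A p.1.r2 then
      (p.1, A.wo p.1 + A.no p.1 + A.c p.1.r2 + A.eo p.1 - 1 - p.2)
    else (p.1.r2, A.wo p.1.r2 - 1 - p.2)
  else if 0 < A.B p.1.rL then (p.1.rR, A.wo p.1.rR + A.no p.1.rR - 1 - p.2)
    else (p.1.rL, A.M p.1.rL - 1 - p.2)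

/-- valid places -/
def Vp (p : P.FSt × ℕ) : Prop := p.2 < A.n p.1 + A.k p.1

variable {A}

lemma nom_iff {t : P.FSt} : A.nom t.r2 ↔ A.nom t :=
  ⟨fun h => by
    have := A.nom_r2 _ h
    rwa [FSt.r2_r2] at this, A.nom_r2 t⟩

lemma not_rL {t : P.FSt} (h : A.nom t) : ¬ A.nom t.rL := by
  intro h'
  rcases A.nom_two _ _ h' h rfl with h1 | h1
  · exact fr_rL_ne t h1
  · exact fr_rL_ne_r2 t h1

lemma not_rR {t : P.FSt} (h : A.nom t) : ¬ A.nom t.rR := by
  intro h'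
  apply not_rL h'
  rw [FSt.rR_rL]
  exact h

lemma nom_rR {t : P.FSt} (h : ¬ A.nom t) : A.nom t.rR := by
  obtain ⟨u, h1, h2⟩ := A.nom_ex t.facet
  rcases frames h2.symm with h3 | h3 | h3 | h3
  · exact absurd (h3 ▸ h1) h
  · rw [h3, FSt.rL_rR]; exact h1
  · exact absurd (h3 ▸ A.nom_r2 _ h1) h
  · rw [h3, FSt.rR_rR]; exact A.nom_r2 _ h1

lemma nom_rL {t : P.FSt} (h : ¬ A.nom t) : A.nom t.rL := by
  have := A.nom_r2 _ (nom_rR h)
  rwa [FSt.rR_r2] at this

lemma M_r2 {t : P.FSt} (h : A.nom t) : A.M t.r2 = A.M t := by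
  have h1 := A.bal t h
  unfold M ni wi si ei
  rw [FSt.r2_r2]
  omega

/-- exits count the strands too -/
lemma M_out {t : P.FSt} (h : A.nom t) :
    A.M t = A.wo t + A.no t + A.c t.r2 + A.eo t + A.so t := by
  have h1 := A.bal t h
  unfold M ni wi si ei wo no eo so
  omega

lemma n_nom {t : P.FSt} (h : A.nom t) : A.n t = (A.A t.r2).natAbs := if_pos h

lemma n_not {t : P.FSt} (h : ¬ A.nom t) : A.n t = (A.B t.rL).natAbs := if_neg h

lemma k_nom {t : P.FSt} (h : A.nom t) : A.k t = A.c t.r2 := if_pos h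

lemma k_not {t : P.FSt} (h : ¬ A.nom t) : A.k t = 0 := if_neg h

lemma n_rL {t : P.FSt} (h : A.nom t) : A.n t.rL = (A.B t.r2).natAbs := by
  rw [n_not (not_rL h), FSt.rL_rL]

lemma n_rR {t : P.FSt} (h : A.nom t) : A.n t.rR = (A.B t).natAbs := by
  rw [n_not (not_rR h), FSt.rR_rL]

lemma rv_va {s : P.FSt × ℕ} (h : A.Va s) : A.Va (A.rv s) := by
  refine ⟨A.nom_r2 _ h.1, ?_⟩
  show A.M s.1 - 1 - s.2 < A.M s.1.r2
  rw [M_r2 h.1]
  have := h.2
  omega

lemma rv_rv {s : P.FSt × ℕ} (h : A.Va s) : A.rv (A.rv s) = s := by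
  unfold rv
  simp only
  rw [M_r2 h.1, FSt.r2_r2]
  have := h.2
  ext
  · rfl
  · show A.M s.1 - 1 - (A.M s.1 - 1 - s.2) = s.2
    omega

lemma rv_ne (s : P.FSt × ℕ) : A.rv s ≠ s := fun h => fr_r2_ne s.1 (congrArg Prod.fst h)

/-- the five exits -/
lemma ex_cases {s : P.FSt × ℕ} (h : A.Va s) :
    (s.2 < A.wo s.1 ∧ A.A s.1 < 0 ∧ A.ex s = (s.1.r2, A.wo s.1 - 1 - s.2)) ∨
    (A.wo s.1 ≤ s.2 ∧ s.2 < A.wo s.1 + A.no s.1 ∧ 0 < A.B s.1.r2 ∧
      A.ex s = (s.1.rL, A.wo s.1 + A.no s.1 - 1 - s.2)) ∨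
    (s.2 = A.wo s.1 + A.no s.1 ∧ A.c s.1.r2 = 1 ∧ A.ex s = (s.1, A.n s.1)) ∨
    (A.wo s.1 + A.no s.1 + A.c s.1.r2 ≤ s.2 ∧
      s.2 < A.wo s.1 + A.no s.1 + A.c s.1.r2 + A.eo s.1 ∧ 0 < A.A s.1.r2 ∧
      A.ex s = (s.1, A.wo s.1 + A.no s.1 + A.c s.1.r2 + A.eo s.1 - 1 - s.2)) ∨
    (A.wo s.1 + A.no s.1 + A.c s.1.r2 + A.eo s.1 ≤ s.2 ∧ s.2 < A.M s.1 ∧ A.B s.1 < 0 ∧
      A.ex s = (s.1.rR, A.M s.1 - 1 - s.2)) := by
  have h1 := M_out h.1
  have h2 := h.2
  have h3 := A.c1 s.1.r2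
  by_cases c1 : s.2 < A.wo s.1
  · left
    refine ⟨c1, ?_, if_pos c1⟩
    unfold wo at c1; omega
  right
  by_cases c2 : s.2 < A.wo s.1 + A.no s.1
  · left
    refine ⟨by omega, c2, ?_, ?_⟩
    · unfold wo no at *; omega
    · unfold ex; rw [if_neg c1, if_pos c2]
  right
  by_cases c3 : s.2 < A.wo s.1 + A.no s.1 + A.c s.1.r2
  · left
    refine ⟨by omega, by omega, ?_⟩
    unfold ex; rw [if_neg c1, if_neg c2, if_pos c3]
  right
  by_cases c4 : s.2 < A.wo s.1 + A.no s.1 + A.c s.1.r2 + A.eo s.1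
  · left
    refine ⟨by omega, c4, ?_, ?_⟩
    · have : 0 < A.eo s.1 := by omega
      unfold eo at this; omega
    · unfold ex; rw [if_neg c1, if_neg c2, if_neg c3, if_pos c4]
  · right
    refine ⟨by omega, h2, ?_, ?_⟩
    · have : 0 < A.so s.1 := by omega
      unfold so at this; omega
    · unfold ex; rw [if_neg c1, if_neg c2, if_neg c3, if_neg c4]

lemma ex_va {s : P.FSt × ℕ} (h : A.Va s) : A.Vp (A.ex s) := by
  have hM := M_out h.1
  have h0 := h.1
  rcases ex_cases h with ⟨c1, c2, e⟩ | ⟨c1, c2, c3, e⟩ | ⟨c1, c2, e⟩ | ⟨c1, c2, c3, e⟩ |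
    ⟨c1, c2, c3, e⟩ <;> rw [e] <;> unfold Vp
  · show A.wo s.1 - 1 - s.2 < A.n s.1.r2 + A.k s.1.r2
    rw [n_nom (A.nom_r2 _ h0), FSt.r2_r2]
    unfold wo at *; omega
  · show A.wo s.1 + A.no s.1 - 1 - s.2 < A.n s.1.rL + A.k s.1.rL
    rw [n_rL h0]
    unfold no at *; omega
  · show A.n s.1 < A.n s.1 + A.k s.1
    rw [k_nom h0]; omega
  · show A.wo s.1 + A.no s.1 + A.c s.1.r2 + A.eo s.1 - 1 - s.2 < A.n s.1 + A.k s.1
    rw [n_nom h0]
    unfold eo at *; omega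
  · show A.M s.1 - 1 - s.2 < A.n s.1.rR + A.k s.1.rR
    rw [n_rR h0]
    unfold so at *; omega

lemma ex_facet (s : P.FSt × ℕ) : (A.ex s).1.facet = s.1.facet := by
  unfold ex; split_ifs <;> rfl

lemma st_facet (p : P.FSt × ℕ) : (A.st p).1.facet = p.1.facet := by
  unfold st; split_ifs <;> rfl

/-- the five kinds of places -/
lemma st_cases {p : P.FSt × ℕ} (h : A.Vp p) :
    (A.nom p.1 ∧ A.k p.1 = 1 ∧ A.c p.1.r2 = 1 ∧ p.2 = A.n p.1 ∧
      A.st p = (p.1, A.wo p.1 + A.no p.1)) ∨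
    (A.nom p.1 ∧ p.2 < A.n p.1 ∧ 0 < A.A p.1.r2 ∧
      A.st p = (p.1, A.wo p.1 + A.no p.1 + A.c p.1.r2 + A.eo p.1 - 1 - p.2)) ∨
    (A.nom p.1 ∧ p.2 < A.n p.1 ∧ A.A p.1.r2 < 0 ∧ A.st p = (p.1.r2, A.wo p.1.r2 - 1 - p.2)) ∨
    (¬ A.nom p.1 ∧ p.2 < A.n p.1 ∧ 0 < A.B p.1.rL ∧
      A.st p = (p.1.rR, A.wo p.1.rR + A.no p.1.rR - 1 - p.2)) ∨
    (¬ A.nom p.1 ∧ p.2 < A.n p.1 ∧ A.B p.1.rL < 0 ∧
      A.st p = (p.1.rL, A.M p.1.rL - 1 - p.2)) := by
  have h1 : p.2 < A.n p.1 + A.k p.1 := h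
  by_cases c1 : A.nom p.1
  · have hk := k_nom c1
    have hk1 := A.c1 p.1.r2
    have hn := n_nom c1
    by_cases c2 : A.n p.1 ≤ p.2
    · left
      refine ⟨c1, by omega, by omega, by omega, ?_⟩
      unfold st; rw [if_pos c1, if_pos c2]
    right
    by_cases c3 : 0 < A.A p.1.r2
    · left
      refine ⟨c1, by omega, c3, ?_⟩
      unfold st; rw [if_pos c1, if_neg c2, if_pos c3]
    · right; left
      refine ⟨c1, by omega, by omega, ?_⟩
      unfold st; rw [if_pos c1, if_neg c2, if_neg c3]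
  · have hk := k_not c1
    have hn := n_not c1
    right; right; right
    by_cases c3 : 0 < A.B p.1.rL
    · left
      refine ⟨c1, by omega, c3, ?_⟩
      unfold st; rw [if_neg c1, if_pos c3]
    · right
      refine ⟨c1, by omega, by omega, ?_⟩
      unfold st; rw [if_neg c1, if_neg c3]

lemma st_va {p : P.FSt × ℕ} (h : A.Vp p) : A.Va (A.st p) := by
  rcases st_cases h with ⟨c1, c2, c3, c4, e⟩ | ⟨c1, c2, c3, e⟩ | ⟨c1, c2, c3, e⟩ |
    ⟨c1, c2, c3, e⟩ | ⟨c1, c2, c3, e⟩ <;> rw [e]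
  · refine ⟨c1, ?_⟩
    show A.wo p.1 + A.no p.1 < A.M p.1
    rw [M_out c1]; omega
  · refine ⟨c1, ?_⟩
    show A.wo p.1 + A.no p.1 + A.c p.1.r2 + A.eo p.1 - 1 - p.2 < A.M p.1
    rw [n_nom c1] at c2
    rw [M_out c1]
    unfold eo; omega
  · have c1' := A.nom_r2 _ c1
    refine ⟨c1', ?_⟩
    show A.wo p.1.r2 - 1 - p.2 < A.M p.1.r2
    rw [n_nom c1] at c2
    rw [M_out c1']
    unfold wo; omega
  · have c1' := nom_rR c1
    refine ⟨c1', ?_⟩
    show A.wo p.1.rR + A.no p.1.rR - 1 - p.2 < A.M p.1.rR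
    rw [n_not c1] at c2
    rw [M_out c1']
    unfold no
    rw [FSt.rR_r2]
    omega
  · have c1' := nom_rL c1
    refine ⟨c1', ?_⟩
    show A.M p.1.rL - 1 - p.2 < A.M p.1.rL
    rw [n_not c1] at c2
    rw [M_out c1']
    unfold so
    omega

lemma st_ex {s : P.FSt × ℕ} (h : A.Va s) : A.st (A.ex s) = s := by
  have hM := M_out h.1
  have h0 := h.1
  rcases ex_cases h with ⟨c1, c2, e⟩ | ⟨c1, c2, c3, e⟩ | ⟨c1, c2, e⟩ | ⟨c1, c2, c3, e⟩ |
    ⟨c1, c2, c3, e⟩ <;> rw [e] <;> unfold st <;> dsimp only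
  · have hn := n_nom (A.nom_r2 _ h0)
    rw [FSt.r2_r2] at hn ⊢
    rw [if_pos (A.nom_r2 _ h0), if_neg (by rw [hn]; unfold wo at *; omega), if_neg (by omega)]
    exact Prod.ext rfl (by dsimp only; omega)
  · rw [if_neg (not_rL h0), FSt.rL_rL, FSt.rL_rR, if_pos c3]
    exact Prod.ext rfl (by dsimp only; omega)
  · rw [if_pos h0, if_pos le_rfl]
    exact Prod.ext rfl (by dsimp only; omega)
  · have hn := n_nom h0
    rw [if_pos h0, if_neg (by rw [hn]; unfold eo at *; omega), if_pos c3]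
    exact Prod.ext rfl (by dsimp only; omega)
  · rw [if_neg (not_rR h0), FSt.rR_rL, if_neg (by omega)]
    exact Prod.ext rfl (by dsimp only; omega)

lemma ex_st {p : P.FSt × ℕ} (h : A.Vp p) : A.ex (A.st p) = p := by
  rcases st_cases h with ⟨c1, c2, c3, c4, e⟩ | ⟨c1, c2, c3, e⟩ | ⟨c1, c2, c3, e⟩ |
    ⟨c1, c2, c3, e⟩ | ⟨c1, c2, c3, e⟩ <;> rw [e] <;> unfold ex <;> dsimp only
  · rw [if_neg (by omega), if_neg (by omega), if_pos (by omega)]
    exact Prod.ext rfl (by dsimp only; omega)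
  · have hn := n_nom c1
    have he : A.eo p.1 = A.n p.1 := by rw [hn]; unfold eo; omega
    rw [if_neg (by omega), if_neg (by omega), if_neg (by omega), if_pos (by omega)]
    exact Prod.ext rfl (by dsimp only; omega)
  · have hn := n_nom c1
    have he : A.wo p.1.r2 = A.n p.1 := by rw [hn]; unfold wo; omega
    rw [if_pos (by omega), FSt.r2_r2]
    exact Prod.ext rfl (by dsimp only; omega)
  · have hn := n_not c1
    have he : A.no p.1.rR = A.n p.1 := by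
      rw [hn]; unfold no; rw [FSt.rR_r2]; omega
    rw [if_neg (by omega), if_pos (by omega), FSt.rR_rL]
    exact Prod.ext rfl (by dsimp only; omega)
  · have hn := n_not c1
    have hM := M_out (nom_rL c1)
    have he : A.so p.1.rL = A.n p.1 := by
      rw [hn]; unfold so; omega
    rw [if_neg (by omega), if_neg (by omega), if_neg (by omega), if_neg (by omega), FSt.rL_rR]
    exact Prod.ext rfl (by dsimp only; omega)

/-- the other end of the strand -/
noncomputable def mu (A : GFlow P) (p : P.FSt × ℕ) : P.FSt × ℕ := A.ex (A.rv (A.st p))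

lemma mu_va {p : P.FSt × ℕ} (h : A.Vp p) : A.Vp (A.mu p) := ex_va (rv_va (st_va h))

lemma mu_f (p : P.FSt × ℕ) : (A.mu p).1.facet = p.1.facet := by
  unfold mu
  rw [ex_facet]
  show (A.st p).1.r2.facet = _
  rw [FSt.facet_r2, st_facet]

lemma mu_mu {p : P.FSt × ℕ} (h : A.Vp p) : A.mu (A.mu p) = p := by
  unfold mu
  rw [st_ex (rv_va (st_va h)), rv_rv (st_va h), ex_st h]

lemma mu_ne {p : P.FSt × ℕ} (h : A.Vp p) : A.mu p ≠ p := by
  intro h1
  have h2 := congrArg A.st h1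
  unfold mu at h2
  rw [st_ex (rv_va (st_va h))] at h2
  exact rv_ne _ h2

/-! ## Symmetry of the numbers -/

lemma n_sym' {t : P.FSt} (h : A.n t ≠ 0) : A.n t.stE.r2 = A.n t := by
  by_cases c1 : A.nom t
  · have hn := n_nom c1
    rcases A.east t c1 (by omega) with ⟨h1, h2⟩ | ⟨h1, h2⟩
    · rw [n_nom (A.nom_r2 _ h1), FSt.r2_r2, h2, hn]
    · have h3 := n_rL (A := A) h1
      rw [FSt.rL_rL] at h3
      rw [h3, hn, h2]
      omega
  · have hn := n_not c1
    have h4 := nom_rR c1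
    have e1 : t.rR.stN = t.stE.rR := by
      show t.rR.rL.stE.rR = _
      rw [FSt.rR_rL]
    have e2 : t.rR.r2 = t.rL := FSt.rR_r2 t
    rcases A.north t.rR h4 (by rw [e2]; omega) with ⟨h1, h2⟩ | ⟨h1, h2⟩
    · rw [e1] at h1 h2
      have h3 := n_rR (A := A) h1
      rw [FSt.rR_rR] at h3
      rw [h3, h2, hn, e2]
    · rw [e1, FSt.rR_rR] at h1 h2
      rw [FSt.r2_r2] at h2
      rw [n_nom h1, FSt.r2_r2, h2, hn, e2]
      omega

lemma n_sym (t : P.FSt) : A.n t.stE.r2 = A.n t := by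
  by_cases h : A.n t = 0
  · by_contra h1
    have h2 : A.n t.stE.r2 ≠ 0 := by omega
    have h3 := n_sym' h2
    rw [FSt.stE_inv, FSt.r2_r2] at h3
    omega
  · exact n_sym' h

end GFlow

end Pool.Agent.MP42.NE
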