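import Pool.Agent.MP42.NE.GFlow

/-!
# Signed flows on facets: the curve
-/

set_option autoImplicit false

namespace Pool.Agent.MP42.NE

open Pool.Agent.Helper55.UNF Pool.Agent.Helper55.UNF.GridSolid Relation

variable {P : GridSolid}

namespace GFlow

variable (A : GFlow P)

/-- a nominal frame of the facet -/
noncomputable def bs (F : P.Facet) : P.FSt := Classical.choose (A.nom_ex F)

lemma bs_nom (F : P.Facet) : A.nom (A.bs F) := (Classical.choose_spec (A.nom_ex F)).1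
lemma bs_f (F : P.Facet) : (A.bs F).facet = F := (Classical.choose_spec (A.nom_ex F)).2

variable {A}

lemma k_op {t : P.FSt} (h : A.k t = 1) : A.nom t ∧ A.c t.r2 = 1 ∧ PassOk t ∧ A.nom (opq t) ∧
    A.c (opq t) = 1 := by
  by_cases c : A.nom t
  · rw [k_nom c] at h
    exact ⟨c, h, A.pass t c h⟩
  · rw [k_not c] at h
    exact absurd h (by decide)

variable (A)

/-- the curve of the flow -/
noncomputable def cur : KCur P where
  bs := A.bs
  bs_f := A.bs_f
  n := A.n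
  n_sym := n_sym
  k := A.k
  k1 := fun t => by
    by_cases c : A.nom t
    · rw [k_nom c]; exact A.c1 _
    · rw [k_not c]; omega
  k_ok := fun t h => (k_op h).2.2.1
  k_op := fun t h => by
    obtain ⟨-, -, -, h4, h5⟩ := k_op h
    rw [k_nom (A.nom_r2 _ h4), FSt.r2_r2, h5]
  k_u1 := fun t h h' => by
    obtain ⟨h1, h2, -⟩ := k_op h
    obtain ⟨h3, h4, -⟩ := k_op h'
    exact A.uniq1 t h1 h2 h3 h4
  k_u2 := fun t h h' => by
    obtain ⟨h1, h2, -⟩ := k_op h
    obtain ⟨h3, h4, -⟩ := k_op h'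
    exact A.uniq2 t h1 h2 h3 h4
  k_u3 := fun t h => by
    obtain ⟨h1, h2, -⟩ := k_op h
    exact A.uniq3 t h1 h2
  mu := A.mu
  mu_va := fun _ h => mu_va h
  mu_f := fun p _ => mu_f p
  mu_mu := fun _ h => mu_mu h
  mu_ne := fun _ h => mu_ne h

variable {A}

lemma rt_inj {q q' : ℕ} (hq : q < 4) (hq' : q' < 4) {t : P.FSt} (h : rt q t = rt q' t) : q = q' := by
  have a1 := fr_r2_ne t
  have a2 := fr_rL_ne t
  have a3 := fr_rL_ne_r2 t
  have a4 : t.rR ≠ t := by
    intro h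
    have h1 := congrArg FSt.rL h
    rw [FSt.rR_rL] at h1
    exact a2 h1.symm
  have a5 : t.rR ≠ t.r2 := by
    intro h
    have h1 := congrArg FSt.r2 h
    rw [FSt.r2_r2, FSt.rR_r2] at h1
    exact a2 h1
  have a6 : t.rR ≠ t.rL := by
    intro h
    have h1 := congrArg FSt.rL h
    rw [FSt.rR_rL, FSt.rL_rL] at h1
    exact a1 h1.symm
  unfold rt at h
  have c : (q = 0 ∨ q = 1 ∨ q = 2 ∨ q = 3) ∧ (q' = 0 ∨ q' = 1 ∨ q' = 2 ∨ q' = 3) := by omega
  obtain ⟨c1, c2⟩ := c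
  rcases c1 with rfl | rfl | rfl | rfl <;> rcases c2 with rfl | rfl | rfl | rfl <;>
    simp at h ⊢
  · exact a2 h.symm
  · exact a1 h.symm
  · exact a4 h.symm
  · exact a2 h
  · exact a3 h
  · exact a6 h.symm
  · exact a1 h
  · exact a3 h.symm
  · exact a5 h.symm
  · exact a4 h
  · exact a6 h
  · exact a5 h

lemma sd_eq {q : ℕ} (hq : q < 4) {s : P.FSt} {F : P.Facet} (hF : s.facet = F)
    (h : s = rt q (A.bs F)) : A.cur.sd s = q := by
  obtain ⟨h1, h2⟩ := A.cur.sd_spec s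
  subst hF
  refine (rt_inj hq h1 (t := A.bs s.facet) ?_).symm
  rw [← h]
  exact h2

section Ix

variable (A)

/-- number of places on the boundary -/
noncomputable def tot (b : P.FSt) : ℕ := A.n b + A.k b + (A.n b.rL + A.k b.rL) +
  (A.n b.r2 + A.k b.r2) + (A.n b.rR + A.k b.rR)

variable {A}

lemma ix_tot {b : P.FSt} (p : P.FSt × ℕ) (hp : A.Vp p) (hb : A.bs p.1.facet = b) :
    A.cur.ix p < A.tot b := by
  obtain ⟨h1, h2⟩ := A.cur.sd_spec p.1
  have h3 : p.2 < A.n p.1 + A.k p.1 := hp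
  have h5 : A.cur.bs p.1.facet = b := hb
  unfold KCur.ix
  rw [h5] at h2 ⊢
  generalize A.cur.sd p.1 = q at *
  have e0 : A.n p.1 = A.n (rt q b) := by rw [← h2]
  have e1 : A.k p.1 = A.k (rt q b) := by rw [← h2]
  rw [e0, e1] at h3
  unfold KCur.off tot
  have c : q = 0 ∨ q = 1 ∨ q = 2 ∨ q = 3 := by omega
  rcases c with rfl | rfl | rfl | rfl
  · have h4 : p.2 < A.n b + A.k b := h3
    rw [if_pos rfl]; omega
  · have h4 : p.2 < A.n b.rL + A.k b.rL := h3
    rw [if_neg (by decide), if_pos rfl]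
    show A.n b + A.k b + p.2 < _
    omega
  · have h4 : p.2 < A.n b.r2 + A.k b.r2 := h3
    rw [if_neg (by decide), if_neg (by decide), if_pos rfl]
    show A.n b + A.k b + (A.n b.rL + A.k b.rL) + p.2 < _
    omega
  · have h4 : p.2 < A.n b.rR + A.k b.rR := h3
    rw [if_neg (by decide), if_neg (by decide), if_neg (by decide)]
    show A.n b + A.k b + (A.n b.rL + A.k b.rL) + (A.n b.r2 + A.k b.r2) + p.2 < _
    omega

lemma ix_0 {b : P.FSt} (hb : A.bs b.facet = b) (i : ℕ) : A.cur.ix (b, i) = i := by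
  unfold KCur.ix
  have h1 : A.cur.sd b = 0 := sd_eq (by omega) rfl (by rw [hb]; rfl)
  have h2 : A.cur.bs b.facet = b := hb
  show A.cur.off (A.cur.sd b) (A.cur.bs b.facet) + i = _
  rw [h1, h2]
  show 0 + i = i
  omega

lemma ix_1 {b : P.FSt} (hb : A.bs b.facet = b) (i : ℕ) :
    A.cur.ix (b.rL, i) = A.n b + A.k b + i := by
  unfold KCur.ix
  have h1 : A.cur.sd b.rL = 1 := sd_eq (by omega) (FSt.facet_rL b) (by rw [hb]; rfl)
  have h2 : A.cur.bs b.facet = b := hb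
  show A.cur.off (A.cur.sd b.rL) (A.cur.bs b.rL.facet) + i = _
  rw [h1, FSt.facet_rL, h2]
  rfl

lemma ix_2 {b : P.FSt} (hb : A.bs b.facet = b) (i : ℕ) :
    A.cur.ix (b.r2, i) = A.n b + A.k b + (A.n b.rL + A.k b.rL) + i := by
  unfold KCur.ix
  have h1 : A.cur.sd b.r2 = 2 := sd_eq (by omega) (FSt.facet_r2 b) (by rw [hb]; rfl)
  have h2 : A.cur.bs b.facet = b := hb
  show A.cur.off (A.cur.sd b.r2) (A.cur.bs b.r2.facet) + i = _
  rw [h1, FSt.facet_r2, h2]
  rfl

lemma ix_3 {b : P.FSt} (hb : A.bs b.facet = b) (i : ℕ) :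
    A.cur.ix (b.rR, i) = A.n b + A.k b + (A.n b.rL + A.k b.rL) + (A.n b.r2 + A.k b.r2) + i := by
  unfold KCur.ix
  have h1 : A.cur.sd b.rR = 3 := sd_eq (by omega) (FSt.facet_rR b) (by rw [hb]; rfl)
  have h2 : A.cur.bs b.facet = b := hb
  show A.cur.off (A.cur.sd b.rR) (A.cur.bs b.rR.facet) + i = _
  rw [h1, FSt.facet_rR, h2]
  rfl

/-- centre of the exits -/
noncomputable def cK (A : GFlow P) (b : P.FSt) : ℕ :=
  A.n b + A.c b.r2 + A.no b + A.wo b

/-- position of the exit of a strand -/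
lemma ix_ex {b : P.FSt} (hb : A.bs b.facet = b) (hn : A.nom b) {j : ℕ} (hj : j < A.M b) :
    A.cur.ix (A.ex (b, j)) + j + 1 = A.cK b ∨ A.cur.ix (A.ex (b, j)) + j + 1 = A.cK b + A.tot b := by
  have hM := M_out hn
  have hbk := A.blk b hn
  have e1 := n_nom hn
  have e2 := n_rL hn
  have e3 := n_nom (A.nom_r2 _ hn)
  have e4 := n_rR hn
  have f1 := k_nom hn
  have f2 := k_not (not_rL hn)
  have f3 := k_nom (A.nom_r2 _ hn)
  have f4 := k_not (not_rR hn)
  rw [FSt.r2_r2] at e3 f3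
  have key : ∀ z : P.FSt × ℕ, A.ex (b, j) = z →
      (A.cur.ix z + j + 1 = A.cK b ∨ A.cur.ix z + j + 1 = A.cK b + A.tot b) →
      (A.cur.ix (A.ex (b, j)) + j + 1 = A.cK b ∨
        A.cur.ix (A.ex (b, j)) + j + 1 = A.cK b + A.tot b) := by
    intro z hz h; rw [hz]; exact h
  rcases ex_cases (s := (b, j)) ⟨hn, hj⟩ with ⟨c1, c2, e⟩ | ⟨c1, c2, c3, e⟩ | ⟨c1, c2, e⟩ |
    ⟨c1, c2, c3, e⟩ | ⟨c1, c2, c3, e⟩ <;> refine key _ e ?_ <;> dsimp only at *
  · rw [ix_2 hb]
    unfold cK tot wo no eo so at *; omega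
  · rw [ix_1 hb]
    unfold cK tot wo no eo so at *; omega
  · rw [ix_0 hb]
    unfold cK tot wo no eo so at *; omega
  · rw [ix_0 hb]
    unfold cK tot wo no eo so at *; omega
  · rw [ix_3 hb]
    unfold cK tot wo no eo so at *; omega

/-- position of the entrance of a strand -/
lemma ix_en {b : P.FSt} (hb : A.bs b.facet = b) (hn : A.nom b) {j : ℕ} (hj : j < A.M b) :
    A.cur.ix (A.ex (b.r2, A.M b - 1 - j)) = A.cK b + j ∨
      A.cur.ix (A.ex (b.r2, A.M b - 1 - j)) + A.tot b = A.cK b + j := by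
  have hM := M_out hn
  have hM' := M_out (A.nom_r2 _ hn)
  have hMr := M_r2 hn
  have hbk := A.blk b hn
  have e1 := n_nom hn
  have e2 := n_rL hn
  have e3 := n_nom (A.nom_r2 _ hn)
  have e4 := n_rR hn
  have f1 := k_nom hn
  have f2 := k_not (not_rL hn)
  have f3 := k_nom (A.nom_r2 _ hn)
  have f4 := k_not (not_rR hn)
  rw [FSt.r2_r2] at e3 f3
  have key : ∀ z : P.FSt × ℕ, A.ex (b.r2, A.M b - 1 - j) = z →
      (A.cur.ix z = A.cK b + j ∨ A.cur.ix z + A.tot b = A.cK b + j) →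
      (A.cur.ix (A.ex (b.r2, A.M b - 1 - j)) = A.cK b + j ∨
      A.cur.ix (A.ex (b.r2, A.M b - 1 - j)) + A.tot b = A.cK b + j) := by
    intro z hz h; rw [hz]; exact h
  rcases ex_cases (s := (b.r2, A.M b - 1 - j)) ⟨A.nom_r2 _ hn, by dsimp only; omega⟩ with
    ⟨c1, c2, e⟩ | ⟨c1, c2, c3, e⟩ | ⟨c1, c2, e⟩ |
    ⟨c1, c2, c3, e⟩ | ⟨c1, c2, c3, e⟩ <;> refine key _ e ?_ <;> dsimp only at * <;>
    simp only [FSt.r2_r2, FSt.r2_rL, FSt.r2_rR] at *
  · rw [ix_0 hb]
    unfold cK tot wo no eo so M ni wi si ei at *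
    simp only [FSt.r2_r2] at *
    omega
  · rw [ix_3 hb]
    unfold cK tot wo no eo so M ni wi si ei at *
    simp only [FSt.r2_r2] at *
    omega
  · rw [ix_2 hb]
    unfold cK tot wo no eo so M ni wi si ei at *
    simp only [FSt.r2_r2] at *
    omega
  · rw [ix_2 hb]
    unfold cK tot wo no eo so M ni wi si ei at *
    simp only [FSt.r2_r2] at *
    omega
  · rw [ix_1 hb]
    unfold cK tot wo no eo so M ni wi si ei at *
    simp only [FSt.r2_r2] at *
    omega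

/-- the two ends of a chord -/
lemma ix_mu {p : P.FSt × ℕ} (hp : A.Vp p) {b : P.FSt} (hb : A.bs p.1.facet = b) :
    A.cur.ix p + A.cur.ix (A.mu p) + 1 = 2 * A.cK b ∨
    A.cur.ix p + A.cur.ix (A.mu p) + 1 = 2 * A.cK b + A.tot b ∨
    A.cur.ix p + A.cur.ix (A.mu p) + 1 + A.tot b = 2 * A.cK b := by
  have hbn : A.nom b := by rw [← hb]; exact A.bs_nom _
  have hbf : b.facet = p.1.facet := by rw [← hb]; exact A.bs_f _
  have hbb : A.bs b.facet = b := by rw [hbf]; exact hb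
  have hv := st_va hp
  have h1 := ex_st hp
  rcases A.nom_two _ _ hv.1 hbn (by rw [st_facet, hbf]) with h2 | h2
  · have h3 : A.st p = (b, (A.st p).2) := Prod.ext h2 rfl
    have h4 : (A.st p).2 < A.M b := by rw [← h2]; exact hv.2
    generalize (A.st p).2 = j at h3 h4
    have h5 : A.mu p = A.ex (b.r2, A.M b - 1 - j) := by
      unfold mu; rw [h3]; rfl
    rw [h3] at h1
    have a1 := ix_ex hbb hbn h4
    have a2 := ix_en hbb hbn h4
    rw [← h5] at a2
    rw [h1] at a1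
    omega
  · have h3 : A.st p = (b.r2, (A.st p).2) := Prod.ext h2 rfl
    have h4 : (A.st p).2 < A.M b := by
      rw [← M_r2 hbn, ← h2]; exact hv.2
    generalize (A.st p).2 = j at h3 h4
    have h5 : A.mu p = A.ex (b, A.M b - 1 - j) := by
      unfold mu; rw [h3]
      show A.ex (b.r2.r2, A.M b.r2 - 1 - j) = _
      rw [M_r2 hbn, FSt.r2_r2]
    rw [h3] at h1
    have a1 := ix_ex hbb hbn (j := A.M b - 1 - j) (by omega)
    have a2 := ix_en hbb hbn (j := A.M b - 1 - j) (by omega)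
    rw [show A.M b - 1 - (A.M b - 1 - j) = j by omega, h1] at a2
    rw [← h5] at a1
    omega

end Ix

lemma cK_le {b : P.FSt} (hn : A.nom b) : A.cK b ≤ A.tot b := by
  have e1 := n_nom hn
  have e2 := n_rL hn
  have e3 := n_nom (A.nom_r2 _ hn)
  have f1 := k_nom hn
  rw [FSt.r2_r2] at e3
  unfold cK tot no wo at *
  omega

/-- the chords do not cross -/
lemma nc (A : GFlow P) : A.cur.NC := by
  intro p p' hp hp' hf h1 h2
  have a1 := ix_mu (A := A) hp (b := A.bs p.1.facet) rfl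
  have a2 := ix_mu (A := A) hp' (b := A.bs p.1.facet) (by rw [hf])
  have hm : A.Vp (A.mu p) := mu_va hp
  have hm' : A.Vp (A.mu p') := mu_va hp'
  have t1 := ix_tot p hp (b := A.bs p.1.facet) rfl
  have t2 := ix_tot p' hp' (b := A.bs p.1.facet) (by rw [hf])
  have t3 := ix_tot (A.mu p) hm (b := A.bs p.1.facet) (by rw [mu_f])
  have t4 := ix_tot (A.mu p') hm' (b := A.bs p.1.facet) (by rw [mu_f, hf])
  have k1 := cK_le (A := A) (A.bs_nom p.1.facet)
  have e1 : A.cur.mu p = A.mu p := rfl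
  have e2 : A.cur.mu p' = A.mu p' := rfl
  rw [e1] at h2
  rw [e1, e2]
  generalize A.cur.ix p = x at *
  generalize A.cur.ix (A.mu p) = x' at *
  generalize A.cur.ix p' = y at *
  generalize A.cur.ix (A.mu p') = y' at *
  generalize A.tot (A.bs p.1.facet) = T at *
  generalize A.cK (A.bs p.1.facet) = K at *
  omega

end GFlow

end Pool.Agent.MP42.NE
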