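import Pool.Agent.MP42.NE.Stack

/-!
# Insertion of the faces: the curve is connected after the contraction of the cores
-/

set_option autoImplicit false

namespace Pool.Agent.MP42.NE

namespace Sys

variable {D : Type*}

/-- the next dart at the north east corner -/
def nu (S : Sys D) (x : D) : D := S.r (S.N (S.E x))

/-- insertion data -/
structure Ins (S : Sys D) (e : D → ℕ) (v : D → ℤ) (q : D → ℤ) (ξ : D → ℕ) (X : D → Prop)
    (rk : D → ℕ) (rr : D → D) : Prop where
  e6 : ∀ x, 6 ≤ e x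
  v_eq : ∀ x, v (S.E x) = q x - q (S.E x) + ξ (S.E x)
  qb : ∀ x, -1 ≤ q x ∧ q x ≤ 1
  qq : ∀ x, q x = 0 ∨ q (S.E x) = 0
  ξq : ∀ x, 0 < ξ (S.E x) → q x = 0 ∧ q (S.E x) = 0
  ξ2 : ∀ x, ξ x ≤ 2
  X3 : ∀ b, X b → nu S (nu S (nu S b)) = b
  Xb : ∀ b, X b → ξ b = 1 ∧ ξ (S.E b) = 1
  Xc : ∀ b, X b → q (nu S b) = -1
  Xa : ∀ b, X b → q (nu S (nu S b)) = 1
  q_neg : ∀ x, q x = -1 → ∃ b, X b ∧ nu S b = x
  q_pos : ∀ x, q x = 1 → ∃ b, X b ∧ nu S (nu S b) = x
  reset : ∀ x, ∃ y, S.E.SameCycle x y ∧ 0 < ξ y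
  rkE : ∀ x, rk (S.E x) = rk x
  rkX : ∀ b, X b → rk (nu S b) < rk b
  rrE : ∀ x, rr (S.E x) = rr x
  rrt : ∀ x, rr (S.r (S.N x)) = rr x
  face : ∀ x, (∃ b, S.E.SameCycle x b ∧ X b) ∨ S.E.SameCycle x (rr x) ∨
    S.E.SameCycle x (S.r (S.N (rr x)))
  link : ∀ x, (v (rr x) = 2 ∧ 0 < ξ (rr x) ∧ 0 < ξ (S.r (S.N (rr x)))) ∨
    S.E.SameCycle (rr x) (S.r (S.N (rr x)))

section

variable {S : Sys D} {e : D → ℕ} {v : D → ℤ} {q : D → ℤ} {ξ : D → ℕ} {X : D → Prop}
  {rk : D → ℕ} {rr : D → D} {g : D → ℕ → Prop} {ρ : D → Prop}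

lemma T_gen (hg : S.FCon e v g) {x : D} {j k : ℕ} (h0 : (k : ℤ) = v (S.E x) + j)
    (hk : k < e x) : T v g (S.E x) j ↔ T v g x k := by
  rcases le_total 0 (v (S.E x)) with h1 | h1
  · exact T_pos hg h0 h1 hk
  · exact T_neg hg (by omega) h1 hk

lemma cyc_ind [Finite D] {f : Equiv.Perm D} {P : D → Prop} (h : ∀ x, P x → P (f x)) {x y : D}
    (hxy : f.SameCycle x y) (hx : P x) : P y := by
  obtain ⟨n, rfl⟩ := hxy.exists_nat_pow_eq
  induction n with
  | zero => exact hx
  | succ n ih =>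
    rw [pow_succ']
    exact h _ (ih ⟨n, by simp⟩)

lemma rho_cyc [Finite D] (hρ : ∀ x, ρ (S.E x) ↔ ρ x) {x y : D} (hxy : S.E.SameCycle x y) :
    ρ x ↔ ρ y :=
  cyc_ind (P := fun z => (ρ x ↔ ρ z)) (fun z hz => hz.trans (hρ z).symm) hxy Iff.rfl

lemma rk_cyc [Finite D] (hI : Ins S e v q ξ X rk rr) {x y : D} (hxy : S.E.SameCycle x y) :
    rk x = rk y :=
  cyc_ind (P := fun z => rk x = rk z) (fun z hz => hz.trans (hI.rkE z).symm) hxy rfl

variable (hI : Ins S e v q ξ X rk rr) (hF : S.Fl e v) (hg : S.FCon e v g)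
  (hρ : ∀ x, ρ (S.E x) ↔ ρ x) (hK : ∀ x j, 2 ≤ j → j + 2 < e x → (T v g x j ↔ ρ x))

include hI hg hρ hK in
/-- the second strand -/
lemma J_step (x : D) (h : 0 < ξ (S.E x) ∨ ∀ j : ℕ, (j : ℤ) = 1 + q x → (T v g x j ↔ ρ x)) :
    ∀ j : ℕ, (j : ℤ) = 1 + q (S.E x) → (T v g (S.E x) j ↔ ρ (S.E x)) := by
  intro j hj
  have hv := hI.v_eq x
  have hb := hI.qb x
  have hb2 := hI.qb (S.E x)
  have h2 := hI.ξ2 (S.E x)
  have h6 := hI.e6 x
  have hq := hI.ξq x
  rw [hρ]
  by_cases h0 : 0 < ξ (S.E x)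
  · obtain ⟨h3, h4⟩ := hq h0
    have := T_gen hg (x := x) (j := j) (k := 1 + ξ (S.E x)) (by omega) (by omega)
    rw [this]
    exact hK _ _ (by omega) (by omega)
  · have h5 := h.resolve_left h0
    obtain ⟨k, hk⟩ : ∃ k : ℕ, (k : ℤ) = 1 + q x := ⟨(1 + q x).toNat, by omega⟩
    have := T_gen hg (x := x) (j := j) (k := k) (by omega) (by omega)
    rw [this]
    exact h5 k hk

include hI hg hρ hK in
lemma J_all [Finite D] (x : D) : ∀ j : ℕ, (j : ℤ) = 1 + q x → (T v g x j ↔ ρ x) := by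
  obtain ⟨y, hy, hy0⟩ := hI.reset x
  refine cyc_ind (P := fun x => ∀ j : ℕ, (j : ℤ) = 1 + q x → (T v g x j ↔ ρ x))
    (fun z hz => J_step hI hg hρ hK z (Or.inr hz)) hy.symm ?_
  have h1 := J_step hI hg hρ hK (S.E.symm y)
  rw [Equiv.apply_symm_apply] at h1
  exact h1 (Or.inl hy0)

/-- the claim for the first strand -/
def IC (v : D → ℤ) (q : D → ℤ) (g : D → ℕ → Prop) (ρ : D → Prop) (x : D) : Prop :=
  (∀ j : ℕ, (j : ℤ) = q x → (T v g x j ↔ ρ x)) ∧ (q x = -1 → (g x 0 ↔ ρ x))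

include hI in
lemma v_a {b : D} (hb : X b) : v (nu S (nu S b)) = -1 ∧ v (S.E (nu S (nu S b))) = 1 := by
  have h0 := hI.Xa b hb
  generalize nu S (nu S b) = a at h0 ⊢
  obtain ⟨a', rfl⟩ := S.E.surjective a
  have h1 := hI.v_eq a'
  have h2 := hI.v_eq (S.E a')
  have h3 := hI.qq a'
  have h4 := hI.qq (S.E a')
  have h5 := hI.ξq a'
  have h6 := hI.ξq (S.E a')
  omega

include hI in
lemma v_c {c : D} (h0 : q c = -1) : v c = 1 ∧ v (S.E c) = -1 := by
  obtain ⟨a', rfl⟩ := S.E.surjective c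
  have h1 := hI.v_eq a'
  have h2 := hI.v_eq (S.E a')
  have h3 := hI.qq a'
  have h4 := hI.qq (S.E a')
  have h5 := hI.ξq a'
  have h6 := hI.ξq (S.E a')
  omega

include hI in
lemma v_b {b : D} (hb : X b) : v b = 1 ∧ v (S.E b) = 1 ∧ q b = 0 ∧ q (S.E.symm b) = 0 := by
  have h0 := hI.Xb b hb
  obtain ⟨a', rfl⟩ := S.E.surjective b
  rw [Equiv.symm_apply_apply]
  have h1 := hI.v_eq a'
  have h2 := hI.v_eq (S.E a')
  have h3 := hI.qq a'
  have h4 := hI.qq (S.E a')
  have h5 := hI.ξq a'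
  have h6 := hI.ξq (S.E a')
  omega

include hI hg hρ in
/-- the first strand popped by an inserted face -/
lemma first_pop {b : D} (hb : X b) (hY : ∀ y, S.E.SameCycle b y → IC v q g ρ y) :
    g b 0 ↔ ρ b := by
  obtain ⟨h1, h2, h3, h4⟩ := v_b hI hb
  obtain ⟨b', rfl⟩ := S.E.surjective b
  rw [Equiv.symm_apply_apply] at h4
  have h6 := hI.e6 b'
  rw [T_pop hg (by omega) (by omega), hρ]
  exact (hY b' ⟨-1, by simp⟩).1 0 (by simp [h4])

include hI hg hρ in
/-- the second strand popped by an inserted face -/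
lemma second_pop {b : D} (hb : X b) (hY : ∀ y, S.E.SameCycle b y → IC v q g ρ y) :
    g (S.E b) 0 ↔ ρ b := by
  obtain ⟨h1, h2, h3, h4⟩ := v_b hI hb
  have h6 := hI.e6 b
  rw [T_pop hg (by omega) (by omega)]
  exact (hY b (Equiv.Perm.SameCycle.refl _ _)).1 0 (by simp [h3])

include hI hF hg in
/-- the pushed strand of the parent is the first strand popped by the child -/
lemma pushed {b : D} (hb : X b) : g (S.E (nu S b)) 0 ↔ g b 0 := by
  obtain ⟨hc1, hc2⟩ := v_c hI (hI.Xc b hb)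
  obtain ⟨ha1, ha2⟩ := v_a hI hb
  have h3 := hI.X3 b hb
  have h1 : g (S.E (nu S b)) 0 ↔ g (nu S (nu S b)) 0 :=
    ribbon hF hg (x := S.E (nu S b)) (j := 0) (k := 0) (by omega)
  have h2 : g (S.E (nu S (nu S b))) 0 ↔ g (nu S (nu S (nu S b))) 0 :=
    ribbon hF hg (x := S.E (nu S (nu S b))) (j := 0) (k := 0) (by omega)
  rw [h3] at h2
  have h6 := hI.e6 (nu S (nu S b))
  rw [h1, ← h2, T_pop hg (by omega) (by omega), T_push (by omega)]

include hI hF hg hρ in
/-- the popped strand of the parent is the second strand popped by the child -/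
lemma popped {b : D} (hb : X b) : g (S.E b) 0 ↔ g (nu S b) 0 := by
  obtain ⟨h1, h2, h3, h4⟩ := v_b hI hb
  exact ribbon hF hg (x := S.E b) (j := 0) (k := 0) (by omega)

include hI hF hg hρ hK in
lemma IC_step [Finite D] (x : D)
    (hc : ∀ b, X b → nu S b = x → ∀ y, S.E.SameCycle b y → IC v q g ρ y)
    (h : 0 < ξ (S.E x) ∨ IC v q g ρ x) : IC v q g ρ (S.E x) := by
  have hv := hI.v_eq x
  have hb := hI.qb x
  have hb2 := hI.qb (S.E x)
  have h2 := hI.ξ2 (S.E x)
  have h6 := hI.e6 x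
  have hq := hI.ξq x
  have hqq := hI.qq x
  by_cases h0 : 0 < ξ (S.E x)
  · obtain ⟨h3, h4⟩ := hq h0
    refine ⟨?_, fun h5 => by omega⟩
    intro j hj
    rw [T_gen hg (x := x) (j := j) (k := ξ (S.E x)) (by omega) (by omega), hρ]
    by_cases h5 : ξ (S.E x) = 1
    · rw [h5]
      exact J_all hI hg hρ hK x 1 (by omega)
    · exact hK _ _ (by omega) (by omega)
  · obtain ⟨h5, h7⟩ := h.resolve_left h0
    refine ⟨?_, ?_⟩
    · intro j hj
      by_cases h8 : q x = -1
      · obtain ⟨b, hXb, hbx⟩ := hI.q_neg x h8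
        subst hbx
        have hY := hc b hXb rfl
        have e1 := first_pop hI hg hρ hXb hY
        have e2 := second_pop hI hg hρ hXb hY
        have e3 := pushed hI hF hg hXb
        have e4 := popped hI hF hg hρ hXb
        have e5 := h7 h8
        have h9 : j = 0 := by omega
        rw [h9, T_push (by omega), e3, e1, ← e2, e4, e5, hρ]
      · obtain ⟨k, hk⟩ : ∃ k : ℕ, (k : ℤ) = q x := ⟨(q x).toNat, by omega⟩
        rw [T_gen hg (x := x) (j := j) (k := k) (by omega) (by omega), hρ]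
        exact h5 k hk
    · intro h8
      rw [T_pop hg (by omega) (by omega), hρ]
      exact h5 0 (by push_cast; omega)

include hI hF hg hρ hK in
lemma IC_all [Finite D] : ∀ x, IC v q g ρ x := by
  classical
  have := Fintype.ofFinite D
  obtain ⟨M, hM⟩ : ∃ M, ∀ x, rk x ≤ M :=
    ⟨∑ x, rk x, fun x => Finset.single_le_sum (f := rk) (fun _ _ => Nat.zero_le _)
      (Finset.mem_univ x)⟩
  have key : ∀ n x, M - rk x = n → IC v q g ρ x := by
    intro n
    induction n using Nat.strong_induction_on with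
    | _ n ih =>
      intro x hx
      obtain ⟨y, hy, hy0⟩ := hI.reset x
      -- the steps inside the face
      have hstep : ∀ z, rk z = rk x → (0 < ξ (S.E z) ∨ IC v q g ρ z) → IC v q g ρ (S.E z) := by
        intro z hz h
        refine IC_step hI hF hg hρ hK z ?_ h
        intro b hb hbz w hw
        have h1 := hI.rkX b hb
        rw [hbz] at h1
        have h2 := rk_cyc hI hw
        have h3 := hM b
        exact ih (M - rk w) (by omega) w rfl
      have hfin : rk x = rk x ∧ IC v q g ρ x := by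
        refine cyc_ind (P := fun z => rk z = rk x ∧ IC v q g ρ z) ?_ hy.symm ?_
        · rintro z ⟨h1, h2⟩
          exact ⟨(hI.rkE z).trans h1, hstep z h1 (Or.inr h2)⟩
        · have h1 : rk y = rk x := (rk_cyc hI hy).symm
          refine ⟨h1, ?_⟩
          have h2 := hstep (S.E.symm y)
          rw [Equiv.apply_symm_apply] at h2
          refine h2 ?_ (Or.inl hy0)
          rw [← hI.rkE, Equiv.apply_symm_apply]
          exact h1
      exact hfin.2
  exact fun x => key _ x rfl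

include hI hF hg hρ hK in
lemma rho_child [Finite D] {b : D} (hb : X b) : ρ b ↔ ρ (nu S b) := by
  have hA := IC_all hI hF hg hρ hK
  rw [← second_pop hI hg hρ hb (fun y _ => hA y), popped hI hF hg hρ hb]
  exact (hA (nu S b)).2 (hI.Xc b hb)

include hI hF hg hρ hK in
lemma rho_root [Finite D] : ∀ x, ρ x ↔ ρ (rr x) := by
  have hA := IC_all hI hF hg hρ hK
  have hlink : ∀ x, ρ (S.r (S.N (rr x))) ↔ ρ (rr x) := by
    intro x
    rcases hI.link x with ⟨h1, h2, h3⟩ | h1
    · have e1 := ribbon hF hg (x := rr x) (j := 0) (k := 1) (by omega)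
      have hv := hF.vr (rr x)
      generalize S.r (S.N (rr x)) = s at *
      generalize rr x = t at *
      obtain ⟨s, rfl⟩ := S.E.surjective s
      obtain ⟨t, rfl⟩ := S.E.surjective t
      have h4 := (hI.ξq s h3).1
      have h5 := (hI.ξq t h2).1
      have h6 := hI.e6 s
      have h7 := hI.e6 t
      rw [T_pop hg (by omega) (by omega), T_pop hg (by omega) (by omega)] at e1
      rw [hρ, hρ, ← (hA t).1 0 (by simp [h5]), e1]
      exact (J_all hI hg hρ hK s 1 (by omega)).symm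
    · exact (rho_cyc hρ h1).symm
  have key : ∀ n x, rk x = n → (ρ x ↔ ρ (rr x)) := by
    intro n
    induction n using Nat.strong_induction_on with
    | _ n ih =>
      intro x hx
      rcases hI.face x with ⟨b, hb, hXb⟩ | h | h
      · have h1 := hI.rkX b hXb
        have h2 := rk_cyc hI hb
        have h3 : rr b = rr x :=
          cyc_ind (P := fun z => rr z = rr x) (fun z hz => (hI.rrE z).trans hz) hb rfl
        have h4 : rr (nu S b) = rr b := by
          unfold nu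
          rw [hI.rrt, hI.rrE]
        rw [rho_cyc hρ hb, rho_child hI hF hg hρ hK hXb, ih _ (by omega) (nu S b) rfl, h4, h3]
      · exact rho_cyc hρ h
      · rw [rho_cyc hρ h]
        exact hlink x
  exact fun x => key _ x rfl

include hI hF hg hρ hK in
lemma top_ok [Finite D] (x : D) {j : ℕ} (hj : j ≤ 1) {c : Prop} (hc : ∀ x, ρ x ↔ c) :
    T v g x j ↔ c := by
  have hA := IC_all hI hF hg hρ hK
  have hJ := J_all hI hg hρ hK
  have hb := hI.qb x
  have h6 := hI.e6 x
  by_cases h0 : q x = 0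
  · by_cases h1 : j = 0
    · exact ((hA x).1 j (by omega)).trans (hc x)
    · exact (hJ x j (by omega)).trans (hc x)
  by_cases h1 : q x = 1
  · by_cases h2 : j = 1
    · exact ((hA x).1 j (by omega)).trans (hc x)
    · have h3 : j = 0 := by omega
      obtain ⟨b, hb, hbx⟩ := hI.q_pos x h1
      obtain ⟨ha1, ha2⟩ := v_a hI hb
      have h4 := hI.X3 b hb
      have e2 : g (S.E (nu S (nu S b))) 0 ↔ g (nu S (nu S (nu S b))) 0 :=
        ribbon hF hg (x := S.E (nu S (nu S b))) (j := 0) (k := 0) (by omega)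
      rw [h4] at e2
      rw [hbx] at e2 ha2
      rw [h3, ← T_pop hg (by omega) (by omega), e2,
        first_pop hI hg hρ hb (fun y _ => hA y)]
      exact hc b
  · have h2 : q x = -1 := by omega
    by_cases h3 : j = 0
    · exact (hJ x j (by omega)).trans (hc x)
    · obtain ⟨hv1, hv2⟩ := v_c hI h2
      obtain ⟨x', rfl⟩ := S.E.surjective x
      have h7 := hI.e6 x'
      rw [T_gen hg (x := x') (j := j) (k := 2) (by omega) (by omega),
        hK x' 2 (by omega) (by omega)]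
      exact hc x'

end

/-- **the curve is connected after the contraction of the cores** -/
theorem Ins.cc [Finite D] {S : Sys D} {e : D → ℕ} {v : D → ℤ} {q : D → ℤ} {ξ : D → ℕ}
    {X : D → Prop} {rk : D → ℕ} {rr : D → D} (hI : Ins S e v q ξ X rk rr) (hF : S.Fl e v)
    (htr : ∀ ψ : D → Prop, (∀ d, ψ (S.E d) ↔ ψ d) → (∀ d, ψ (S.N d) ↔ ψ d) →
      (∀ d, ψ (S.r d) ↔ ψ d) → ∀ d e, ψ d → ψ e) (hv2 : ∀ x, |v x| ≤ 2) : S.CC e v 2 := by
  intro g ρ hg hρ hρr hK
  have hroot := rho_root hI hF hg hρ hK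
  by_cases hne : Nonempty D
  · obtain ⟨x0⟩ := hne
    have hc : ∀ x, ρ x ↔ ρ x0 := by
      have h1 := htr (fun x => (ρ x ↔ ρ x0)) (fun d => by rw [hρ]) (fun d => by
        have h2 : ρ (S.N d) ↔ ρ d := by
          rw [← hρr (S.N d), hroot (S.r (S.N d)), hI.rrt, ← hroot d]
        rw [h2]) (fun d => by rw [hρr])
      exact fun x => h1 x0 x Iff.rfl
    refine ⟨ρ x0, ?_⟩
    have htop : ∀ x j, j ≤ 1 → (T v g x j ↔ ρ x0) := fun x j hj =>
      top_ok hI hF hg hρ hK x hj hc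
    have hall : ∀ x j, j < e x → (T v g x j ↔ ρ x0) := by
      intro x j hj
      by_cases h1 : j ≤ 1
      · exact htop x j h1
      by_cases h2 : j + 2 < e x
      · exact (hK x j (by omega) h2).trans (hc x)
      · rw [← T_bot hF hg (x := x) (j := e x - 1 - j) (k := j) (by omega)]
        exact htop _ _ (by omega)
    refine all_const hF hg hall ?_
    intro x j hj
    have h2 := abs_le.mp (hv2 x)
    rcases le_total (v x) 0 with h0 | h0
    · have h6 := hI.e6 x
      exact (T_push (g := g) h0).symm.trans (hall x j (by omega))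
    · obtain ⟨x', rfl⟩ := S.E.surjective x
      have h6 := hI.e6 x'
      rw [T_pop hg h0 (by omega)]
      apply hall
      omega
  · exact ⟨True, fun d => absurd ⟨d⟩ hne⟩

end Sys

end Pool.Agent.MP42.NE
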