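import Pool.Agent.MP42.NE.Cur

/-!
# Simple closed curves that pass vertices

As in `Cur`, but a strand may also leave a facet through its northeast corner (in some frame) and
enter the opposite facet there.
-/

set_option autoImplicit false

namespace Pool.Agent.MP42.NE

open Pool.Agent.Helper55.UNF Pool.Agent.Helper55.UNF.GridSolid Relation

variable {P : GridSolid}

/-- A simple closed curve: `n t` crossings of the east side of `t`, `k t` strands through the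
northeast corner of `t`.  The places of `t` are the pairs `(t, j)` with `j < n t` and, if `k t = 1`,
the pair `(t, n t)`. -/
structure KCur (P : GridSolid) where
  bs : P.Facet → P.FSt
  bs_f : ∀ F, (bs F).facet = F
  n : P.FSt → ℕ
  n_sym : ∀ t, n t.stE.r2 = n t
  k : P.FSt → ℕ
  k1 : ∀ t, k t ≤ 1
  k_ok : ∀ t, k t = 1 → PassOk t
  k_op : ∀ t, k t = 1 → k (opq t).r2 = 1
  k_u1 : ∀ t, k t = 1 → k (rho t) ≠ 1
  k_u2 : ∀ t, k t = 1 → k (rho (rho t)) ≠ 1
  k_u3 : ∀ t, k t = 1 → (opq t).facet ≠ t.facet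
  mu : P.FSt × ℕ → P.FSt × ℕ
  mu_va : ∀ p : P.FSt × ℕ, p.2 < n p.1 + k p.1 → (mu p).2 < n (mu p).1 + k (mu p).1
  mu_f : ∀ p : P.FSt × ℕ, p.2 < n p.1 + k p.1 → (mu p).1.facet = p.1.facet
  mu_mu : ∀ p : P.FSt × ℕ, p.2 < n p.1 + k p.1 → mu (mu p) = p
  mu_ne : ∀ p : P.FSt × ℕ, p.2 < n p.1 + k p.1 → mu p ≠ p

namespace KCur

variable (A : KCur P)

/-- valid places -/
def Va (p : P.FSt × ℕ) : Prop := p.2 < A.n p.1 + A.k p.1

/-- the place is a corner -/
def Co (p : P.FSt × ℕ) : Prop := A.n p.1 ≤ p.2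

instance (p : P.FSt × ℕ) : Decidable (A.Co p) := inferInstanceAs (Decidable (_ ≤ _))

/-- number of places on the sides before side `q` -/
def off (q : ℕ) (t : P.FSt) : ℕ :=
  if q = 0 then 0 else if q = 1 then A.n t + A.k t
  else if q = 2 then (A.n t + A.k t) + (A.n t.rL + A.k t.rL)
  else (A.n t + A.k t) + (A.n t.rL + A.k t.rL) + (A.n t.r2 + A.k t.r2)

open Classical in
/-- number of a side -/
noncomputable def sd (t : P.FSt) : ℕ :=
  if h : ∃ q < 4, t = rt q (A.bs t.facet) then choose h else 0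

lemma sd_spec (t : P.FSt) : A.sd t < 4 ∧ t = rt (A.sd t) (A.bs t.facet) := by
  have h : ∃ q < 4, t = rt q (A.bs t.facet) := ex_rt (A.bs_f _).symm
  unfold sd
  rw [dif_pos h]
  exact Classical.choose_spec h

/-- number of a place on the boundary of its facet -/
noncomputable def ix (p : P.FSt × ℕ) : ℕ := A.off (A.sd p.1) (A.bs p.1.facet) + p.2

/-- the same place seen from the other facet -/
def io (p : P.FSt × ℕ) : P.FSt × ℕ :=
  if A.Co p then ((opq p.1).r2, A.n (opq p.1).r2) else (p.1.stE.r2, A.n p.1 - 1 - p.2)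

/-- the chords of a facet do not cross -/
def NC : Prop := ∀ p p' : P.FSt × ℕ, A.Va p → A.Va p' → p.1.facet = p'.1.facet →
  A.ix p < A.ix p' → A.ix p' < A.ix (A.mu p) →
  A.ix p < A.ix (A.mu p') ∧ A.ix (A.mu p') < A.ix (A.mu p)

variable {A}

lemma co_data {p : P.FSt × ℕ} (h : A.Va p) (hc : A.Co p) : A.k p.1 = 1 ∧ p.2 = A.n p.1 := by
  have h1 := A.k1 p.1
  have h2 : p.2 < A.n p.1 + A.k p.1 := h
  have h3 : A.n p.1 ≤ p.2 := hc
  omega

lemma io_co {p : P.FSt × ℕ} (hc : A.Co p) : A.io p = ((opq p.1).r2, A.n (opq p.1).r2) := if_pos hc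

lemma io_not {p : P.FSt × ℕ} (hc : ¬ A.Co p) : A.io p = (p.1.stE.r2, A.n p.1 - 1 - p.2) := if_neg hc

lemma io_va {p : P.FSt × ℕ} (h : A.Va p) : A.Va (A.io p) := by
  by_cases hc : A.Co p
  · rw [io_co hc]
    obtain ⟨h1, h2⟩ := co_data h hc
    have h3 := A.k_op _ h1
    show A.n (opq p.1).r2 < A.n (opq p.1).r2 + A.k (opq p.1).r2
    omega
  · rw [io_not hc]
    show A.n p.1 - 1 - p.2 < A.n p.1.stE.r2 + A.k p.1.stE.r2
    rw [A.n_sym]
    have h3 : ¬ A.n p.1 ≤ p.2 := hc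
    omega

lemma io_Co {p : P.FSt × ℕ} : A.Co (A.io p) ↔ A.Co p := by
  by_cases hc : A.Co p
  · rw [io_co hc]
    exact ⟨fun _ => hc, fun _ => le_rfl⟩
  · rw [io_not hc]
    refine ⟨fun h2 => ?_, fun h => absurd h hc⟩
    exfalso
    have h3 : A.n p.1.stE.r2 ≤ A.n p.1 - 1 - p.2 := h2
    rw [A.n_sym] at h3
    have h4 : ¬ A.n p.1 ≤ p.2 := hc
    omega

lemma io_io {p : P.FSt × ℕ} (h : A.Va p) : A.io (A.io p) = p := by
  by_cases hc : A.Co p
  · obtain ⟨h1, h2⟩ := co_data h hc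
    rw [io_co (io_Co.2 hc), io_co hc]
    show ((opq (opq p.1).r2).r2, A.n (opq (opq p.1).r2).r2) = p
    rw [opq_opq (A.k_ok _ h1), FSt.r2_r2, ← h2]
  · have hc' : ¬ A.Co (A.io p) := fun h' => hc (io_Co.1 h')
    rw [io_not hc', io_not hc]
    have h4 : ¬ A.n p.1 ≤ p.2 := hc
    show (p.1.stE.r2.stE.r2, A.n p.1.stE.r2 - 1 - (A.n p.1 - 1 - p.2)) = p
    rw [A.n_sym, FSt.stE_inv, FSt.r2_r2]
    exact Prod.ext rfl (by show A.n p.1 - 1 - (A.n p.1 - 1 - p.2) = p.2; omega)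

lemma io_facet {p : P.FSt × ℕ} (h : A.Va p) : (A.io p).1.facet ≠ p.1.facet := by
  by_cases hc : A.Co p
  · rw [io_co hc]
    exact A.k_u3 _ (co_data h hc).1
  · rw [io_not hc]
    exact FSt.stE_facet_ne p.1

/-- position of a place on its side -/
def yp (A : KCur P) (N Q : ℕ) (p : P.FSt × ℕ) : ℕ :=
  if A.Co p then 2 * Q - 4 * N else Q + 1 + 2 * p.2 - A.n p.1

/-- coordinate of a place on the boundary -/
noncomputable def zp (A : KCur P) (N Q : ℕ) (p : P.FSt × ℕ) : ℕ :=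
  A.sd p.1 * (2 * Q + 1) + A.yp N Q p

/-- the refinement is fine enough -/
def Fine (A : KCur P) (N Q : ℕ) : Prop := (∀ t, A.n t + A.k t ≤ N) ∧ 0 < N ∧ 5 * N + 1 ≤ Q

section

variable {N Q : ℕ} (hF : A.Fine N Q)

include hF

lemma off_le (q : ℕ) (t : P.FSt) : A.off q t ≤ 3 * N := by
  have h1 := hF.1 t
  have h2 := hF.1 t.rL
  have h3 := hF.1 t.r2
  unfold off
  split_ifs <;> omega

lemma ix_lt {p : P.FSt × ℕ} (h : A.Va p) : A.ix p < 4 * N := by
  have h1 := off_le hF (A.sd p.1) (A.bs p.1.facet)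
  have h2 := hF.1 p.1
  have h3 : p.2 < A.n p.1 + A.k p.1 := h
  unfold ix
  omega

lemma yp_bd {p : P.FSt × ℕ} (h : A.Va p) : 4 * N ≤ A.yp N Q p ∧ A.yp N Q p + 4 * N ≤ 2 * Q := by
  have h1 := hF.1 p.1
  obtain ⟨-, -, h2⟩ := hF
  have h3 : p.2 < A.n p.1 + A.k p.1 := h
  unfold yp
  by_cases hc : A.Co p
  · rw [if_pos hc]; omega
  · rw [if_neg hc]
    have h4 : ¬ A.n p.1 ≤ p.2 := hc
    omega

lemma zp_gd {p : P.FSt × ℕ} (h : A.Va p) : Gd Q (4 * N) (A.zp N Q p) := by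
  obtain ⟨h1, h2⟩ := yp_bd hF h
  exact ⟨A.sd p.1, _, (A.sd_spec p.1).1, rfl, h1, h2⟩

omit hF in
lemma off_step {q q' : ℕ} (hq : q < q') (hq' : q' < 4) (t : P.FSt) :
    A.off q t + (A.n (rt q t) + A.k (rt q t)) ≤ A.off q' t := by
  unfold off rt
  have h : (q = 0 ∧ q' = 1) ∨ (q = 0 ∧ q' = 2) ∨ (q = 0 ∧ q' = 3) ∨ (q = 1 ∧ q' = 2) ∨
    (q = 1 ∧ q' = 3) ∨ (q = 2 ∧ q' = 3) := by omega
  rcases h with ⟨rfl, rfl⟩ | ⟨rfl, rfl⟩ | ⟨rfl, rfl⟩ | ⟨rfl, rfl⟩ | ⟨rfl, rfl⟩ | ⟨rfl, rfl⟩ <;>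
    simp <;> omega

omit hF in
/-- comparison by sides -/
lemma ix_lt_of_sd {p p' : P.FSt × ℕ} (h : A.Va p) (hf : p.1.facet = p'.1.facet)
    (hs : A.sd p.1 < A.sd p'.1) : A.ix p < A.ix p' := by
  have h1 := off_step (A := A) hs (A.sd_spec p'.1).1 (A.bs p.1.facet)
  have h2 : p.2 < A.n p.1 + A.k p.1 := h
  rw [← (A.sd_spec p.1).2] at h1
  unfold ix
  rw [← hf]
  omega

omit hF in
lemma fr_of_sd {p p' : P.FSt × ℕ} (hf : p.1.facet = p'.1.facet)
    (hs : A.sd p.1 = A.sd p'.1) : p.1 = p'.1 := by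
  rw [(A.sd_spec p.1).2, (A.sd_spec p'.1).2, hs, hf]

/-- the coordinate is monotone -/
lemma zp_lt {p p' : P.FSt × ℕ} (h : A.Va p) (h' : A.Va p') (hf : p.1.facet = p'.1.facet)
    (hi : A.ix p < A.ix p') : A.zp N Q p < A.zp N Q p' := by
  obtain ⟨y1, y2⟩ := yp_bd hF h
  obtain ⟨y1', y2'⟩ := yp_bd hF h'
  have h1 := hF.1 p.1
  obtain ⟨-, h0, h2⟩ := hF
  rcases lt_trichotomy (A.sd p.1) (A.sd p'.1) with hs | hs | hs
  · have h5 : (A.sd p.1 + 1) * (2 * Q + 1) ≤ A.sd p'.1 * (2 * Q + 1) :=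
      Nat.mul_le_mul_right _ hs
    have h6 : (A.sd p.1 + 1) * (2 * Q + 1) = A.sd p.1 * (2 * Q + 1) + (2 * Q + 1) := by ring
    unfold zp
    omega
  · have e := fr_of_sd (A := A) hf hs
    have h6 : p.2 < p'.2 := by
      unfold ix at hi
      rw [hf, hs] at hi
      omega
    have h7 : ¬ A.Co p := by
      intro hc
      have h8 : A.n p.1 ≤ p.2 := hc
      have h9 : p'.2 < A.n p'.1 + A.k p'.1 := h'
      have h10 := A.k1 p.1
      rw [← e] at h9
      omega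
    have h8 : ¬ A.n p.1 ≤ p.2 := h7
    have h9 : A.yp N Q p < A.yp N Q p' := by
      unfold yp
      rw [if_neg h7]
      by_cases hc' : A.Co p'
      · rw [if_pos hc']; omega
      · rw [if_neg hc', ← e]
        omega
    unfold zp
    rw [hs]
    omega
  · have h4 := ix_lt_of_sd (A := A) h' hf.symm hs
    omega

omit hF in
lemma ix_inj {p p' : P.FSt × ℕ} (h : A.Va p) (h' : A.Va p') (hf : p.1.facet = p'.1.facet)
    (hi : A.ix p = A.ix p') : p = p' := by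
  rcases lt_trichotomy (A.sd p.1) (A.sd p'.1) with hs | hs | hs
  · have h4 := ix_lt_of_sd (A := A) h hf hs
    omega
  · have e := fr_of_sd (A := A) hf hs
    unfold ix at hi
    rw [hf, hs] at hi
    exact Prod.ext e (by omega)
  · have h4 := ix_lt_of_sd (A := A) h' hf.symm hs
    omega

lemma zp_inj {p p' : P.FSt × ℕ} (h : A.Va p) (h' : A.Va p') (hf : p.1.facet = p'.1.facet)
    (hi : A.zp N Q p = A.zp N Q p') : p = p' := by
  rcases lt_trichotomy (A.ix p) (A.ix p') with hs | hs | hs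
  · have := zp_lt hF h h' hf hs
    omega
  · exact ix_inj h h' hf hs
  · have := zp_lt hF h' h hf.symm hs
    omega

/-- the cells on the boundary between a corner place and the corner -/
def Run (A : KCur P) (N Q : ℕ) (p : P.FSt × ℕ) (X Y : ℕ) : Prop :=
  A.Co p ∧ ∃ y, 2 * Q - 4 * N ≤ y ∧ y ≤ 2 * Q ∧ Rx Q (A.sd p.1) 0 y = (X, Y)

/-- the positions of a chord -/
def KD (A : KCur P) (N Q : ℕ) (p : P.FSt × ℕ) (X Y : ℕ) : Prop :=
  CD Q (min (A.zp N Q p) (A.zp N Q (A.mu p))) (max (A.zp N Q p) (A.zp N Q (A.mu p)))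
      (max (A.ix p) (A.ix (A.mu p)) - min (A.ix p) (A.ix (A.mu p))) X Y ∨
    A.Run N Q p X Y ∨ A.Run N Q (A.mu p) X Y

/-- the cells of a chord -/
def Lane (A : KCur P) (N Q : ℕ) {hK : 0 < 2 * Q + 1} (p : P.FSt × ℕ)
    (f : (P.refine (2 * Q + 1) hK).Facet) : Prop :=
  ∃ X Y, At (A.bs p.1.facet) X Y f ∧ A.KD N Q p X Y

variable {hK : 0 < 2 * Q + 1}

omit hF in
lemma Lane_facet {p : P.FSt × ℕ} {f : (P.refine (2 * Q + 1) hK).Facet} (h : A.Lane N Q p f) :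
    co hK f = p.1.facet := by
  obtain ⟨X, Y, h1, -⟩ := h
  rw [h1.1, A.bs_f]

omit hF in
lemma KD_mu {p : P.FSt × ℕ} (hp : A.Va p) {X Y : ℕ}
    (h : A.KD N Q p X Y) : A.KD N Q (A.mu p) X Y := by
  unfold KD at h ⊢
  rw [A.mu_mu p hp, min_comm (A.zp N Q (A.mu p)), max_comm (A.zp N Q (A.mu p)),
    max_comm (A.ix (A.mu p)), min_comm (A.ix (A.mu p))]
  rcases h with h | h | h
  · exact Or.inl h
  · exact Or.inr (Or.inr h)
  · exact Or.inr (Or.inl h)

omit hF in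
lemma Lane_mu {p : P.FSt × ℕ} (hp : A.Va p) {f : (P.refine (2 * Q + 1) hK).Facet}
    (h : A.Lane N Q p f) : A.Lane N Q (A.mu p) f := by
  obtain ⟨X, Y, h1, h2⟩ := h
  refine ⟨X, Y, ?_, KD_mu hp h2⟩
  rw [A.mu_f p hp]; exact h1

/-- the chord reaches its place -/
lemma Lane_port {p : P.FSt × ℕ} (hp : A.Va p) (hc : ¬ A.Co p)
    {f : (P.refine (2 * Q + 1) hK).Facet}
    (hf : At p.1 (2 * Q) (Q + 1 + 2 * p.2 - A.n p.1) f) : A.Lane N Q p f := by
  have h1 := hF.1 p.1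
  have h2 := hF.2.2
  have h3 : ¬ A.n p.1 ≤ p.2 := hc
  obtain ⟨s1, s2⟩ := A.sd_spec p.1
  have h4 : At (rt (A.sd p.1) (A.bs p.1.facet)) (2 * Q - 0) (Q + 1 + 2 * p.2 - A.n p.1) f := by
    rw [← s2, Nat.sub_zero]; exact hf
  have h5 := at_rt (by omega) h4
  refine ⟨_, _, h5, Or.inl (CD_end s1 (by omega) ?_)⟩
  have e : A.sd p.1 * (2 * Q + 1) + (Q + 1 + 2 * p.2 - A.n p.1) = A.zp N Q p := by
    unfold zp yp
    rw [if_neg hc]
  rw [e]
  rcases le_total (A.zp N Q p) (A.zp N Q (A.mu p)) with h | h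
  · left; rw [min_eq_left h]
  · right; rw [max_eq_left h]

omit hF in
/-- the chord reaches its corner -/
lemma Lane_port' {p : P.FSt × ℕ} (hc : A.Co p)
    {f : (P.refine (2 * Q + 1) hK).Facet}
    (hf : At p.1 (2 * Q) (2 * Q) f) : A.Lane N Q p f := by
  obtain ⟨s1, s2⟩ := A.sd_spec p.1
  have h4 : At (rt (A.sd p.1) (A.bs p.1.facet)) (2 * Q - 0) (2 * Q) f := by
    rw [← s2, Nat.sub_zero]; exact hf
  have h5 := at_rt (by omega) h4
  exact ⟨_, _, h5, Or.inr (Or.inl ⟨hc, 2 * Q, by omega, le_rfl, rfl⟩)⟩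

/-- data of a chord -/
lemma chord_data {p : P.FSt × ℕ} (hp : A.Va p) :
    Gd Q (4 * N) (min (A.zp N Q p) (A.zp N Q (A.mu p))) ∧
    Gd Q (4 * N) (max (A.zp N Q p) (A.zp N Q (A.mu p))) ∧
    min (A.zp N Q p) (A.zp N Q (A.mu p)) < max (A.zp N Q p) (A.zp N Q (A.mu p)) ∧
    max (A.ix p) (A.ix (A.mu p)) - min (A.ix p) (A.ix (A.mu p)) < 4 * N ∧
    0 < max (A.ix p) (A.ix (A.mu p)) - min (A.ix p) (A.ix (A.mu p)) := by
  have hm : A.Va (A.mu p) := A.mu_va p hp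
  have g1 := zp_gd hF hp
  have g2 := zp_gd hF hm
  have l1 := ix_lt hF hp
  have l2 := ix_lt hF hm
  have hne : A.ix p ≠ A.ix (A.mu p) := fun h =>
    A.mu_ne p hp (ix_inj hp hm (A.mu_f p hp).symm h).symm
  have hz : A.zp N Q p ≠ A.zp N Q (A.mu p) := by
    rcases lt_or_gt_of_ne hne with h | h
    · exact (zp_lt hF hp hm (A.mu_f p hp).symm h).ne
    · exact (zp_lt hF hm hp (A.mu_f p hp) h).ne'
  refine ⟨?_, ?_, ?_, ?_, ?_⟩
  · rcases le_total (A.zp N Q p) (A.zp N Q (A.mu p)) with h | h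
    · rw [min_eq_left h]; exact g1
    · rw [min_eq_right h]; exact g2
  · rcases le_total (A.zp N Q p) (A.zp N Q (A.mu p)) with h | h
    · rw [max_eq_right h]; exact g2
    · rw [max_eq_left h]; exact g1
  · omega
  · omega
  · omega

omit hF in
/-- a run is connected -/
lemma run_conn {p : P.FSt × ℕ} {D : ℕ → ℕ → Prop}
    (hD : ∀ X Y, A.Run N Q p X Y → D X Y) (hc : A.Co p) : ∀ (i y : ℕ), 2 * Q - 4 * N ≤ y →
    y + i ≤ 2 * Q → ReflTransGen (GS D) (Rx Q (A.sd p.1) 0 y) (Rx Q (A.sd p.1) 0 (y + i)) := by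
  intro i
  induction i with
  | zero => intro y _ _; exact ReflTransGen.refl
  | succ i ih =>
    intro y h1 h2
    refine (ih y h1 (by omega)).tail ⟨?_, ?_, ?_⟩
    · exact hD _ _ ⟨hc, y + i, by omega, by omega, rfl⟩
    · exact hD _ _ ⟨hc, y + (i + 1), by omega, by omega, rfl⟩
    · have := Rx_adj (Q := Q) (q := A.sd p.1) (e := 0) (y := y + i) (by omega)
      rw [show y + (i + 1) = y + i + 1 by omega]
      exact this

/-- a chord is connected -/
lemma KD_conn {p : P.FSt × ℕ} (hp : A.Va p) {u v : ℕ × ℕ} (h1 : A.KD N Q p u.1 u.2)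
    (h2 : A.KD N Q p v.1 v.2) : ReflTransGen (GS (A.KD N Q p)) u v := by
  obtain ⟨c1, c2, c3, c4, c5⟩ := chord_data hF hp
  have hQ := hF.2.2
  have hm : A.Va (A.mu p) := A.mu_va p hp
  -- every position is joined to a position of the chord itself
  have red : ∀ u : ℕ × ℕ, A.KD N Q p u.1 u.2 → ∃ w : ℕ × ℕ,
      CD Q (min (A.zp N Q p) (A.zp N Q (A.mu p))) (max (A.zp N Q p) (A.zp N Q (A.mu p)))
        (max (A.ix p) (A.ix (A.mu p)) - min (A.ix p) (A.ix (A.mu p))) w.1 w.2 ∧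
      ReflTransGen (GS (A.KD N Q p)) w u := by
    have aux : ∀ a : P.FSt × ℕ, A.Va a → (A.zp N Q a = min (A.zp N Q p) (A.zp N Q (A.mu p)) ∨
        A.zp N Q a = max (A.zp N Q p) (A.zp N Q (A.mu p))) →
        (∀ X Y, A.Run N Q a X Y → A.KD N Q p X Y) → ∀ u : ℕ × ℕ, A.Run N Q a u.1 u.2 →
        ∃ w : ℕ × ℕ,
      CD Q (min (A.zp N Q p) (A.zp N Q (A.mu p))) (max (A.zp N Q p) (A.zp N Q (A.mu p)))
        (max (A.ix p) (A.ix (A.mu p)) - min (A.ix p) (A.ix (A.mu p))) w.1 w.2 ∧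
      ReflTransGen (GS (A.KD N Q p)) w u := by
      intro a ha hz hD u ⟨hc, y, y1, y2, y3⟩
      have e1 : A.yp N Q a = 2 * Q - 4 * N := if_pos hc
      have e2 : A.zp N Q a = A.sd a.1 * (2 * Q + 1) + (2 * Q - 4 * N) := by
        unfold zp; rw [e1]
      refine ⟨Rx Q (A.sd a.1) 0 (2 * Q - 4 * N), CD_end (A.sd_spec a.1).1 (by omega) ?_, ?_⟩
      · rw [← e2]; exact hz
      · have h5 := run_conn (N := N) (Q := Q) hD hc (y - (2 * Q - 4 * N)) (2 * Q - 4 * N) le_rfl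
          (by omega)
        rw [show 2 * Q - 4 * N + (y - (2 * Q - 4 * N)) = y by omega, y3] at h5
        exact h5
    intro u hu
    rcases hu with h | h | h
    · exact ⟨u, h, ReflTransGen.refl⟩
    · refine aux p hp ?_ (fun X Y h => Or.inr (Or.inl h)) u h
      omega
    · refine aux (A.mu p) hm ?_ (fun X Y h => Or.inr (Or.inr h)) u h
      omega
  obtain ⟨w, w1, w2⟩ := red u h1
  obtain ⟨w', w1', w2'⟩ := red v h2
  have h3 := CD_conn (p := w) (p' := w') c4 c1 c2 c3 w1 w1'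
  have h4 := gs_mono (E := A.KD N Q p) (fun X Y h => Or.inl h) h3
  exact (gs_symm w2).trans (h4.trans w2')

lemma KD_lt {p : P.FSt × ℕ} (hp : A.Va p) {X Y : ℕ} (h : A.KD N Q p X Y) :
    X < 2 * Q + 1 ∧ Y < 2 * Q + 1 := by
  obtain ⟨c1, c2, c3, c4, c5⟩ := chord_data hF hp
  have hQ := hF.2.2
  rcases h with h | ⟨-, y, y1, y2, y3⟩ | ⟨-, y, y1, y2, y3⟩
  · exact CD_lt (by omega) h
  · have := Rx_lt (Q := Q) (q := A.sd p.1) (e := 0) (y := y) (by omega) y2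
    rwa [y3] at this
  · have := Rx_lt (Q := Q) (q := A.sd (A.mu p).1) (e := 0) (y := y) (by omega) y2
    rwa [y3] at this

lemma Lane_conn {p : P.FSt × ℕ} (hp : A.Va p) {f g : (P.refine (2 * Q + 1) hK).Facet}
    (h1 : A.Lane N Q p f) (h2 : A.Lane N Q p g) :
    ReflTransGen (fun a b => A.Lane N Q p a ∧ A.Lane N Q p b ∧ Nb a b) f g := by
  obtain ⟨X, Y, a1, a2⟩ := h1
  obtain ⟨X', Y', b1, b2⟩ := h2
  have h3 := KD_conn hF hp (u := (X, Y)) (v := (X', Y')) a2 b2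
  exact gs_cells (t := A.bs p.1.facet) (hK := hK) (D := A.KD N Q p)
    (fun x y h => KD_lt hF hp h) h3 a1 b1

/-- places of the boundary in a chord -/
lemma CD_bd {p : P.FSt × ℕ} (hp : A.Va p) {q y : ℕ} (hq : q < 4)
    (hy : 2 * Q - 4 * N ≤ y) (hy' : y ≤ 2 * Q)
    (h : CD Q (min (A.zp N Q p) (A.zp N Q (A.mu p))) (max (A.zp N Q p) (A.zp N Q (A.mu p)))
      (max (A.ix p) (A.ix (A.mu p)) - min (A.ix p) (A.ix (A.mu p))) (Rx Q q 0 y).1
      (Rx Q q 0 y).2) :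
    q * (2 * Q + 1) + y = A.zp N Q p ∨ q * (2 * Q + 1) + y = A.zp N Q (A.mu p) := by
  obtain ⟨c1, c2, c3, c4, c5⟩ := chord_data hF hp
  have hQ := hF.2.2
  have hN := hF.2.1
  obtain ⟨q', y', e', b1, b2, b3, b4, b5, b6⟩ := CD_form c4 c1 c2 h
  obtain ⟨he, hr⟩ := Rx_inj (M := 4 * N) (by omega) hq b1 (by omega) (by omega) (Nat.zero_le _)
    (by omega) b2 b3 b4.symm
  subst he
  have b7 : q' * (2 * Q + 1) + y' = min (A.zp N Q p) (A.zp N Q (A.mu p)) ∨
      q' * (2 * Q + 1) + y' = max (A.zp N Q p) (A.zp N Q (A.mu p)) := by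
    rcases b6 with h | h
    · omega
    · exact h
  have b8 : q' * (2 * Q + 1) + y' = A.zp N Q p ∨ q' * (2 * Q + 1) + y' = A.zp N Q (A.mu p) := by
    rcases b7 with h | h
    · rcases le_total (A.zp N Q p) (A.zp N Q (A.mu p)) with h' | h'
      · rw [min_eq_left h'] at h; exact Or.inl h
      · rw [min_eq_right h'] at h; exact Or.inr h
    · rcases le_total (A.zp N Q p) (A.zp N Q (A.mu p)) with h' | h'
      · rw [max_eq_right h'] at h; exact Or.inr h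
      · rw [max_eq_left h'] at h; exact Or.inl h
  clear b6 b7 h
  have g1 := zp_gd hF hp
  have g2 := zp_gd hF (A.mu_va p hp)
  rcases hr with hr | ⟨c, r1, r2, r3, r4⟩ | ⟨c, r1, r2, r3, r4⟩ | ⟨r3, r4⟩ | ⟨r3, r4⟩
  · rw [hr]; exact b8
  · exfalso
    have f1 := g1.far c (by omega)
    have f2 := g2.far c (by omega)
    generalize c * (2 * Q + 1) = w at *
    omega
  · exfalso
    have f1 := g1.far c (by omega)
    have f2 := g2.far c (by omega)
    generalize c * (2 * Q + 1) = w at *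
    omega
  · exfalso
    have f1 := g1.far 4 (by omega)
    have f2 := g2.far 4 (by omega)
    omega
  · exfalso
    have f1 := g1.far 0 (by omega)
    have f2 := g2.far 0 (by omega)
    omega

/-- a run meets only its own chord -/
lemma run_unique {a p' : P.FSt × ℕ} (ha : A.Va a) (hp' : A.Va p')
    (hf : a.1.facet = p'.1.facet) {X Y : ℕ} (h1 : A.Run N Q a X Y) (h2 : A.KD N Q p' X Y) :
    a = p' ∨ a = A.mu p' := by
  obtain ⟨hc, y, y1, y2, y3⟩ := h1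
  have hQ := hF.2.2
  have hN := hF.2.1
  have hs := (A.sd_spec a.1).1
  have e1 : A.yp N Q a = 2 * Q - 4 * N := if_pos hc
  have hf' := A.mu_f p' hp'
  have hm := A.mu_va p' hp'
  have key : ∀ b : P.FSt × ℕ, A.Va b → a.1.facet = b.1.facet → A.Run N Q b X Y → a = b := by
    intro b hb hfb ⟨hcb, y', y1', y2', y3'⟩
    have hsb := (A.sd_spec b.1).1
    obtain ⟨he, hr⟩ := Rx_inj (M := 4 * N) (by omega) hs hsb (by omega) (by omega)
      (Nat.zero_le _) (by omega) (Nat.zero_le _) (by omega) (y3.trans y3'.symm)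
    have hsd : A.sd a.1 = A.sd b.1 := by
      have hc4 : ∀ q : ℕ, q < 4 → q = 0 ∨ q = 1 ∨ q = 2 ∨ q = 3 := by omega
      rcases hc4 _ hs with h | h | h | h <;> rcases hc4 _ hsb with h' | h' | h' | h' <;>
        rw [h, h'] at hr <;> rw [h, h'] <;>
        rcases hr with hr | ⟨c, r1, r2, r3, r4⟩ | ⟨c, r1, r2, r3, r4⟩ | ⟨r3, r4⟩ | ⟨r3, r4⟩ <;>
        omega
    have e := fr_of_sd (A := A) hfb hsd
    exact Prod.ext e (by rw [(co_data ha hc).2, (co_data hb hcb).2, e])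
  rcases h2 with h | h | h
  · have h3 : CD Q (min (A.zp N Q p') (A.zp N Q (A.mu p'))) (max (A.zp N Q p') (A.zp N Q (A.mu p')))
      (max (A.ix p') (A.ix (A.mu p')) - min (A.ix p') (A.ix (A.mu p'))) (Rx Q (A.sd a.1) 0 y).1
      (Rx Q (A.sd a.1) 0 y).2 := by rw [y3]; exact h
    have h4 := CD_bd hF hp' hs y1 y2 h3
    have h5 : ∀ b : P.FSt × ℕ, A.Va b → A.sd a.1 * (2 * Q + 1) + y = A.zp N Q b →
        y = 2 * Q - 4 * N := by
      intro b hb he
      obtain ⟨g1, g2⟩ := yp_bd hF hb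
      have hsb := (A.sd_spec b.1).1
      unfold zp at he
      have hc4 : ∀ q : ℕ, q < 4 → q = 0 ∨ q = 1 ∨ q = 2 ∨ q = 3 := by omega
      rcases hc4 _ hs with h | h | h | h <;> rcases hc4 _ hsb with h' | h' | h' | h' <;>
        rw [h, h'] at he <;> omega
    rcases h4 with h4 | h4
    · left
      apply zp_inj hF ha hp' hf
      rw [← h4, h5 _ hp' h4]
      unfold zp; rw [e1]
    · right
      apply zp_inj hF ha hm (hf.trans hf'.symm)
      rw [← h4, h5 _ hm h4]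
      unfold zp; rw [e1]
  · exact Or.inl (key p' hp' hf h)
  · exact Or.inr (key _ hm (hf.trans hf'.symm) h)

/-- chords are disjoint -/
lemma Lane_unique (hnc : A.NC) {p p' : P.FSt × ℕ} (hp : A.Va p) (hp' : A.Va p')
    {f : (P.refine (2 * Q + 1) hK).Facet} (h1 : A.Lane N Q p f) (h2 : A.Lane N Q p' f) :
    p' = p ∨ p' = A.mu p := by
  have hff : p.1.facet = p'.1.facet := (Lane_facet h1).symm.trans (Lane_facet h2)
  have hpm := A.mu_f p hp
  have hpm' := A.mu_f p' hp'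
  have hvm := A.mu_va p hp
  have hvm' := A.mu_va p' hp'
  obtain ⟨X, Y, s1, s2⟩ := h1
  obtain ⟨X', Y', t1, t2⟩ := h2
  rw [← hff] at t1
  obtain rfl : X = X' := s1.2.1.symm.trans t1.2.1
  obtain rfl : Y = Y' := s1.2.2.symm.trans t1.2.2
  have fin : ∀ a, (a = p ∨ a = A.mu p) → (a = p' ∨ a = A.mu p') → p' = p ∨ p' = A.mu p := by
    rintro a (rfl | rfl) (h | h)
    · exact Or.inl h.symm
    · right; rw [h, A.mu_mu p' hp']
    · exact Or.inr h.symm
    · left; rw [← A.mu_mu p' hp', ← h, A.mu_mu p hp]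
  -- runs
  by_cases hr1 : A.Run N Q p X Y
  · exact fin p (Or.inl rfl) (run_unique hF hp hp' hff hr1 t2)
  by_cases hr2 : A.Run N Q (A.mu p) X Y
  · exact fin (A.mu p) (Or.inr rfl) (run_unique hF hvm hp' (hpm.trans hff) hr2 t2)
  by_cases hr3 : A.Run N Q p' X Y
  · exact fin p' (run_unique hF hp' hp hff.symm hr3 s2) (Or.inl rfl)
  by_cases hr4 : A.Run N Q (A.mu p') X Y
  · exact fin (A.mu p') (run_unique hF hvm' hp (hpm'.trans hff.symm) hr4 s2) (Or.inr rfl)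
  have s3 : CD Q (min (A.zp N Q p) (A.zp N Q (A.mu p))) (max (A.zp N Q p) (A.zp N Q (A.mu p)))
      (max (A.ix p) (A.ix (A.mu p)) - min (A.ix p) (A.ix (A.mu p))) X Y := by
    rcases s2 with h | h | h
    · exact h
    · exact absurd h hr1
    · exact absurd h hr2
  have t3 : CD Q (min (A.zp N Q p') (A.zp N Q (A.mu p'))) (max (A.zp N Q p') (A.zp N Q (A.mu p')))
      (max (A.ix p') (A.ix (A.mu p')) - min (A.ix p') (A.ix (A.mu p'))) X Y := by
    rcases t2 with h | h | h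
    · exact h
    · exact absurd h hr3
    · exact absurd h hr4
  by_contra hcon
  push Not at hcon
  -- orient both chords
  have red : ∀ p : P.FSt × ℕ, A.Va p →
      CD Q (min (A.zp N Q p) (A.zp N Q (A.mu p))) (max (A.zp N Q p) (A.zp N Q (A.mu p)))
      (max (A.ix p) (A.ix (A.mu p)) - min (A.ix p) (A.ix (A.mu p))) X Y →
      ∃ q, A.Va q ∧ A.Va (A.mu q) ∧ A.ix q < A.ix (A.mu q) ∧ q.1.facet = p.1.facet ∧
        (q = p ∨ q = A.mu p) ∧
        CD Q (A.zp N Q q) (A.zp N Q (A.mu q)) (A.ix (A.mu q) - A.ix q) X Y := by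
    intro p hp h
    have hm : A.Va (A.mu p) := A.mu_va p hp
    have hne : A.ix p ≠ A.ix (A.mu p) := fun h =>
      A.mu_ne p hp (ix_inj hp hm (A.mu_f p hp).symm h).symm
    rcases lt_or_gt_of_ne hne with h3 | h3
    · have z := zp_lt hF hp hm (A.mu_f p hp).symm h3
      rw [min_eq_left z.le, max_eq_right z.le, min_eq_left h3.le, max_eq_right h3.le] at h
      exact ⟨p, hp, hm, h3, rfl, Or.inl rfl, h⟩
    · have z := zp_lt hF hm hp (A.mu_f p hp) h3
      rw [min_eq_right z.le, max_eq_left z.le, min_eq_right h3.le, max_eq_left h3.le] at h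
      have e := A.mu_mu p hp
      refine ⟨A.mu p, hm, by rw [e]; exact hp, by rw [e]; exact h3, A.mu_f p hp, Or.inr rfl, ?_⟩
      rw [e]; exact h
  obtain ⟨q, a1, m1, a3, a4, a5, s4⟩ := red p hp s3
  obtain ⟨q', b1, m2, b3, b4, b5, t4⟩ := red p' hp' t3
  have hqf : q.1.facet = q'.1.facet := by rw [a4, b4, hff]
  have hne1 : q' ≠ q := by
    rintro rfl
    rcases a5 with e | e <;> rcases b5 with e' | e'
    · exact hcon.1 (e'.symm.trans e)
    · apply hcon.2; rw [← e, e', A.mu_mu p' hp']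
    · exact hcon.2 (e'.symm.trans e)
    · apply hcon.1
      rw [← A.mu_mu p' hp', ← e', e, A.mu_mu p hp]
  have hne2 : q' ≠ A.mu q := by
    intro h
    rw [h, A.mu_mu q a1] at b3
    omega
  have f1 := A.mu_f q a1
  have f2 := A.mu_f q' b1
  have i1 : A.ix q ≠ A.ix q' := fun h => hne1 (ix_inj a1 b1 hqf h).symm
  have i2 : A.ix (A.mu q) ≠ A.ix q' := fun h =>
    hne2 (ix_inj m1 b1 (f1.trans hqf) h).symm
  have i3 : A.ix q ≠ A.ix (A.mu q') := fun h => by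
    have := ix_inj a1 m2 (hqf.trans f2.symm) h
    apply hne2
    rw [this, A.mu_mu q' b1]
  have n1 := hnc q q' a1 b1 hqf
  have n2 := hnc q' q b1 a1 hqf.symm
  have l1 := ix_lt hF m1
  have l2 := ix_lt hF m2
  have hQ := hF.2.2
  have z1 := zp_lt hF a1 m1 f1.symm a3
  have z2 := zp_lt hF b1 m2 f2.symm b3
  refine CD_disj (M := 4 * N) (by omega) (by omega) (by omega) (zp_gd hF a1) (zp_gd hF m1)
    (zp_gd hF b1) (zp_gd hF m2) z1 z2 ?_ s4 t4
  rcases lt_or_gt_of_ne i1 with h | h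
  · rcases lt_or_gt_of_ne i2 with h' | h'
    · left
      exact zp_lt hF m1 b1 (f1.trans hqf) h'
    · right; right; left
      obtain ⟨n3, n4⟩ := n1 h h'
      exact ⟨zp_lt hF a1 b1 hqf h, zp_lt hF m2 m1 ((f2.trans hqf.symm).trans f1.symm) n4,
        by omega⟩
  · rcases lt_or_gt_of_ne i3 with h' | h'
    · right; right; right
      obtain ⟨n3, n4⟩ := n2 h h'
      exact ⟨zp_lt hF b1 a1 hqf.symm h, zp_lt hF m1 m2 ((f1.trans hqf).trans f2.symm) n4,
        by omega⟩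
    · right; left
      exact zp_lt hF m2 a1 (f2.trans hqf.symm) h'

omit hF in
/-- a corner in a chord -/
lemma Lane_corner (hF : A.Fine N Q) {p : P.FSt × ℕ} (hp : A.Va p) {u : P.FSt}
    {f : (P.refine (2 * Q + 1) hK).Facet} (h : A.Lane N Q p f) (hu : At u (2 * Q) (2 * Q) f) :
    ∃ a, A.Co a ∧ a.1 = u ∧ (a = p ∨ a = A.mu p) := by
  have hfac : u.facet = p.1.facet := hu.1.symm.trans (Lane_facet h)
  obtain ⟨X, Y, s1, s2⟩ := h
  obtain ⟨q1, q2⟩ := A.sd_spec u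
  have hu' : At (rt (A.sd u) (A.bs u.facet)) (2 * Q - 0) (2 * Q) f := by
    rw [← q2, Nat.sub_zero]; exact hu
  have h5 := at_rt (by omega) hu'
  rw [hfac] at h5
  have eX : X = (Rx Q (A.sd u) 0 (2 * Q)).1 := s1.2.1.symm.trans h5.2.1
  have eY : Y = (Rx Q (A.sd u) 0 (2 * Q)).2 := s1.2.2.symm.trans h5.2.2
  rw [eX, eY] at s2
  have hQ := hF.2.2
  have hN := hF.2.1
  have hc4 : ∀ q : ℕ, q < 4 → q = 0 ∨ q = 1 ∨ q = 2 ∨ q = 3 := by omega
  have key : ∀ a : P.FSt × ℕ, a.1.facet = p.1.facet →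
      A.Run N Q a (Rx Q (A.sd u) 0 (2 * Q)).1 (Rx Q (A.sd u) 0 (2 * Q)).2 →
      A.Co a ∧ a.1 = u := by
    intro a ha ⟨hca, y, y1, y2, y3⟩
    have hsb := (A.sd_spec a.1).1
    obtain ⟨he, hr⟩ := Rx_inj (M := 4 * N) (by omega) q1 hsb (by omega) (by omega)
      (Nat.zero_le _) (by omega) (Nat.zero_le _) (by omega) y3.symm
    have hsd : A.sd a.1 = A.sd u := by
      rcases hc4 _ q1 with h | h | h | h <;> rcases hc4 _ hsb with h' | h' | h' | h' <;>
        rw [h, h'] at hr <;> rw [h, h'] <;>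
        rcases hr with hr | ⟨c, r1, r2, r3, r4⟩ | ⟨c, r1, r2, r3, r4⟩ | ⟨r3, r4⟩ | ⟨r3, r4⟩ <;>
        omega
    exact ⟨hca, fr_of_sd (A := A) (p := (a.1, 0)) (p' := (u, 0)) (ha.trans hfac.symm) hsd⟩
  rcases s2 with h | h | h
  · exfalso
    have h4 := CD_bd hF hp q1 (by omega) le_rfl h
    have g1 := zp_gd hF hp
    have g2 := zp_gd hF (A.mu_va p hp)
    have f1 := g1.far (A.sd u + 1) (by omega)
    have f2 := g2.far (A.sd u + 1) (by omega)
    have e3 : (A.sd u + 1) * (2 * Q + 1) = A.sd u * (2 * Q + 1) + (2 * Q + 1) := by ring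
    omega
  · obtain ⟨k1, k2⟩ := key p rfl h
    exact ⟨p, k1, k2, Or.inl rfl⟩
  · obtain ⟨k1, k2⟩ := key (A.mu p) (A.mu_f p hp) h
    exact ⟨A.mu p, k1, k2, Or.inr rfl⟩

end

end KCur

end Pool.Agent.MP42.NE
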