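import Pool.Agent.MP42.NE.PFlow3

/-!
# The walk of a connected flow with passages
-/

set_option autoImplicit false

namespace Pool.Agent.MP42.NE

open Pool.Agent.Helper55.UNF Pool.Agent.Helper55.UNF.GridSolid Relation

variable {P : GridSolid}

namespace PFlow

variable {A : PFlow P} {Q : ℕ} {hK : 0 < 2 * Q + 1}

section Om

variable (A) (s : P.FSt × ℕ)

/-- number of the strand and of the visit -/
def om : ℕ → ℕ × ℕ
  | 0 => (0, 0)
  | q + 1 => if (om q).2 + 1 < A.kap (A.it s (om q).1) then ((om q).1, (om q).2 + 1)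
      else ((om q).1 + 1, 0)

/-- time of the first visit of a strand -/
def tm : ℕ → ℕ
  | 0 => 0
  | i + 1 => tm i + A.kap (A.it s i)

/-- the type of a strand -/
def ty : ℕ → Bool
  | 0 => false
  | i + 1 => if A.Pas (A.it s i) then !(ty i) else ty i

lemma om_succ (q : ℕ) : A.om s (q + 1) =
    if (A.om s q).2 + 1 < A.kap (A.it s (A.om s q).1) then ((A.om s q).1, (A.om s q).2 + 1)
      else ((A.om s q).1 + 1, 0) := rfl

lemma om_lt (q : ℕ) : (A.om s q).2 < A.kap (A.it s (A.om s q).1) := by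
  induction q with
  | zero => exact A.kap_pos _
  | succ q ih =>
    rw [om_succ]
    split_ifs with h
    · exact h
    · exact A.kap_pos _

lemma om_tm (q : ℕ) : A.tm s (A.om s q).1 + (A.om s q).2 = q := by
  induction q with
  | zero => rfl
  | succ q ih =>
    have h1 := A.om_lt s q
    rw [om_succ]
    split_ifs with h
    · show A.tm s (A.om s q).1 + ((A.om s q).2 + 1) = q + 1
      omega
    · show A.tm s (A.om s q).1 + A.kap (A.it s (A.om s q).1) + 0 = q + 1
      omega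

lemma tm_mono : Monotone (A.tm s) := monotone_nat_of_le_succ fun i => by
  show A.tm s i ≤ A.tm s i + A.kap (A.it s i)
  omega

lemma om_of {i : ℕ} {k : ℕ} (hk : k < A.kap (A.it s i)) : A.om s (A.tm s i + k) = (i, k) := by
  have h1 := A.om_tm s (A.tm s i + k)
  have h2 := A.om_lt s (A.tm s i + k)
  set p := A.om s (A.tm s i + k) with hp
  have e1 : p.1 = i := by
    rcases lt_trichotomy p.1 i with h | h | h
    · have h3 := A.tm_mono s (show p.1 + 1 ≤ i from h)
      have h4 : A.tm s (p.1 + 1) = A.tm s p.1 + A.kap (A.it s p.1) := rfl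
      omega
    · exact h
    · have h3 := A.tm_mono s (show i + 1 ≤ p.1 from h)
      have h4 : A.tm s (i + 1) = A.tm s i + A.kap (A.it s i) := rfl
      omega
  have e2 : p.2 = k := by
    rw [e1] at h1
    omega
  exact Prod.ext e1 e2

lemma om_inj {q q' : ℕ} (h : A.om s q = A.om s q') : q = q' := by
  rw [← A.om_tm s q, ← A.om_tm s q', h]

lemma om_fst {q N : ℕ} (hq : q < A.tm s N) : (A.om s q).1 < N := by
  by_contra h
  have h1 := A.tm_mono s (show N ≤ (A.om s q).1 by omega)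
  have h2 := A.om_tm s q
  omega

lemma ty_succ (i : ℕ) : A.ty s (i + 1) = if A.Pas (A.it s i) then !(A.ty s i) else A.ty s i := rfl

end Om

section Walk

variable (A) (s : P.FSt × ℕ)

/-- the strand at time `q` -/
def stq (q : ℕ) : P.FSt × ℕ := A.it s (A.om s q).1

/-- the type at time `q` -/
def tyq (q : ℕ) : Bool := A.ty s (A.om s q).1

/-- number of the visit at time `q` -/
def kq (q : ℕ) : ℕ := (A.om s q).2

variable {A s}

/-- the three kinds of time steps -/
lemma trans (q : ℕ) :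
    (A.Pas (A.stq s q) ∧ A.kq s q < 2 ∧ A.stq s (q + 1) = A.stq s q ∧
      A.tyq s (q + 1) = A.tyq s q ∧ A.kq s (q + 1) = A.kq s q + 1) ∨
    (A.Pas (A.stq s q) ∧ A.kq s q = 2 ∧ A.stq s (q + 1) = A.sc (A.stq s q) ∧
      A.tyq s (q + 1) = (!(A.tyq s q)) ∧ A.kq s (q + 1) = 0) ∨
    (¬ A.Pas (A.stq s q) ∧ A.kq s q = 0 ∧ A.stq s (q + 1) = A.sc (A.stq s q) ∧
      A.tyq s (q + 1) = A.tyq s q ∧ A.kq s (q + 1) = 0) := by
  have h1 := A.om_lt s q
  have h2 := A.om_succ s q
  unfold stq tyq kq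
  by_cases hp : A.Pas (A.it s (A.om s q).1)
  · have hk : A.kap (A.it s (A.om s q).1) = 3 := if_pos hp
    rw [hk] at h1 h2
    by_cases h3 : (A.om s q).2 + 1 < 3
    · rw [if_pos h3] at h2
      left
      rw [h2]
      exact ⟨hp, by omega, rfl, rfl, rfl⟩
    · rw [if_neg h3] at h2
      right; left
      rw [h2]
      refine ⟨hp, by omega, it_succ _ _, ?_, rfl⟩
      show A.ty s ((A.om s q).1 + 1) = _
      rw [ty_succ, if_pos hp]
  · have hk : A.kap (A.it s (A.om s q).1) = 1 := if_neg hp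
    rw [hk] at h1 h2
    rw [if_neg (by omega)] at h2
    right; right
    rw [h2]
    refine ⟨hp, by omega, it_succ _ _, ?_, rfl⟩
    show A.ty s ((A.om s q).1 + 1) = _
    rw [ty_succ, if_neg hp]

lemma stq_va (hs : A.Va s) (q : ℕ) : A.Va (A.stq s q) := it_va hs _

lemma kq_zero {q : ℕ} (hp : ¬ A.Pas (A.stq s q)) : A.kq s q = 0 := by
  rcases trans (A := A) (s := s) q with h | h | h
  · exact absurd h.1 hp
  · exact absurd h.1 hp
  · exact h.2.1

lemma kq_le (q : ℕ) : A.kq s q ≤ 2 := by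
  rcases trans (A := A) (s := s) q with h | h | h <;> omega

/-- the step of the walk -/
lemma walk_step (hs : A.Va s) (q : ℕ) :
    (A.mvk (A.tyq s q) (A.kq s q) (A.stq s q)).ap (wfr (A.tyq s q) (A.kq s q) (A.stq s q).1) =
      wfr (A.tyq s (q + 1)) (A.kq s (q + 1)) (A.stq s (q + 1)).1 := by
  rcases trans (A := A) (s := s) q with ⟨h1, h2, h3, h4, h5⟩ | ⟨h1, h2, h3, h4, h5⟩ |
    ⟨h1, h2, h3, h4, h5⟩
  · rw [h3, h4, h5]; exact step_in h1 _ h2
  · rw [h3, h4, h5, h2]; exact step_out (stq_va hs q) h1 _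
  · rw [h3, h4, h5, h2]; exact step_ord h1 _

lemma walk_glue (hQ : A.Fine Q) (hs : A.Va s) (q : ℕ) :
    ∃ f g : (P.refine (2 * Q + 1) hK).Facet,
      A.seed Q (A.tyq s q) (A.kq s q) (A.stq s q) f ∧
      A.seed Q (A.tyq s (q + 1)) (A.kq s (q + 1)) (A.stq s (q + 1)) g ∧
      Glue (wfr (A.tyq s q) (A.kq s q) (A.stq s q).1)
        (wfr (A.tyq s (q + 1)) (A.kq s (q + 1)) (A.stq s (q + 1)).1) f g
        (A.mvk (A.tyq s q) (A.kq s q) (A.stq s q)) := by
  rcases trans (A := A) (s := s) q with ⟨h1, h2, h3, h4, h5⟩ | ⟨h1, h2, h3, h4, h5⟩ |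
    ⟨h1, h2, h3, h4, h5⟩
  · rw [h3, h4, h5]; exact glue_in hQ (stq_va hs q) h1 _ h2
  · rw [h3, h4, h5, h2]; exact glue_out hQ (stq_va hs q) h1 _
  · rw [h3, h4, h5, h2]; exact glue_ord hQ (stq_va hs q) h1 _

/-- no turning back -/
lemma walk_turn (q : ℕ) :
    ¬ (A.mvk (A.tyq s q) (A.kq s q) (A.stq s q) = Mv.N ∧
      A.mvk (A.tyq s (q + 1)) (A.kq s (q + 1)) (A.stq s (q + 1)) = Mv.S) ∧
    ¬ (A.mvk (A.tyq s q) (A.kq s q) (A.stq s q) = Mv.S ∧
      A.mvk (A.tyq s (q + 1)) (A.kq s (q + 1)) (A.stq s (q + 1)) = Mv.N) := by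
  rcases trans (A := A) (s := s) q with ⟨h1, h2, h3, h4, h5⟩ | ⟨h1, h2, h3, h4, h5⟩ |
    ⟨h1, h2, h3, h4, h5⟩
  · rw [h3, h4, h5]
    have e : ∀ k, A.mvk (A.tyq s q) k (A.stq s q) = pmv (A.tyq s q) k := fun k => if_pos h1
    rw [e, e]
    have hk' : A.kq s q = 0 ∨ A.kq s q = 1 := by omega
    rcases hk' with hk | hk <;> rw [hk] <;> cases A.tyq s q
    · exact ⟨fun h => (by cases h.2), fun h => (by cases h.1)⟩
    · exact ⟨fun h => (by cases h.1), fun h => (by cases h.2)⟩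
    · exact ⟨fun h => (by cases h.1), fun h => (by cases h.1)⟩
    · exact ⟨fun h => (by cases h.1), fun h => (by cases h.1)⟩
  · rw [h4, h5, h2]
    have e : A.mvk (A.tyq s q) 2 (A.stq s q) = pmv (A.tyq s q) 2 := if_pos h1
    rw [e]
    cases A.tyq s q
    · exact ⟨fun h => (by cases h.1), fun h => mv0_true _ h.2⟩
    · exact ⟨fun h => mv0_false _ h.2, fun h => (by cases h.1)⟩
  · rw [h4, h5, h2]
    cases A.tyq s q
    · exact ⟨fun h => mv0_false _ h.2, fun h => mv0_false _ h.1⟩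
    · exact ⟨fun h => mv0_true _ h.1, fun h => mv0_true _ h.2⟩

lemma seed_facet {τ : Bool} {k : ℕ} {u : P.FSt × ℕ} (hk : k ≤ 2)
    {f : (P.refine (2 * Q + 1) hK).Facet} (h : A.seed Q τ k u f) :
    co hK f = (wfr τ k u.1).facet := by
  have hk' : k = 0 ∨ k = 1 ∨ k = 2 := by omega
  rcases hk' with rfl | rfl | rfl
  · have h1 : A.Lane Q u f := h
    rw [Lane_facet h1]
    cases τ <;> rfl
  · have h1 : At (cfr τ 1 u.1) (2 * Q) (2 * Q) f := h
    rw [h1.1]
    cases τ <;> rfl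
  · have h1 : At (cfr τ 2 u.1) (2 * Q) (2 * Q) f := h
    rw [h1.1]
    cases τ
    · show (rho (rho u.1)).facet = u.1.stN.stE.facet
      rw [rho2]; rfl
    · rfl

lemma seed_conn (hQ : A.Fine Q) {τ : Bool} {k : ℕ} {u : P.FSt × ℕ} (hu : A.Va u) (hk : k ≤ 2)
    {f g : (P.refine (2 * Q + 1) hK).Facet} (hf : A.seed Q τ k u f) (hg : A.seed Q τ k u g) :
    ReflTransGen (fun a b => A.seed Q τ k u a ∧ A.seed Q τ k u b ∧ Nb a b) f g := by
  have hk' : k = 0 ∨ k = 1 ∨ k = 2 := by omega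
  rcases hk' with rfl | rfl | rfl
  · exact Lane_conn hQ hu hf hg
  · have h1 : At (cfr τ 1 u.1) (2 * Q) (2 * Q) f := hf
    have h2 : At (cfr τ 1 u.1) (2 * Q) (2 * Q) g := hg
    rw [h1.inj h2]
  · have h1 : At (cfr τ 2 u.1) (2 * Q) (2 * Q) f := hf
    have h2 : At (cfr τ 2 u.1) (2 * Q) (2 * Q) g := hg
    rw [h1.inj h2]

lemma seed_ne (hQ : A.Fine Q) {τ : Bool} {k : ℕ} {u : P.FSt × ℕ} (hu : A.Va u) (hk : k ≤ 2) :
    ∃ f : (P.refine (2 * Q + 1) hK).Facet, A.seed Q τ k u f := by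
  have hk' : k = 0 ∨ k = 1 ∨ k = 2 := by omega
  rcases hk' with rfl | rfl | rfl
  · exact lane_ne hQ hu
  · exact ex_at hK _ (by omega) (by omega)
  · exact ex_at hK _ (by omega) (by omega)

/-- a visit with a positive number belongs to a passage -/
lemma kq_pas {q : ℕ} (hk : A.kq s q ≠ 0) : A.Pas (A.stq s q) := by
  by_contra h
  exact hk (kq_zero h)

/-- the visits are disjoint -/
lemma seed_disj (hQ : A.Fine Q) (hs : A.Va s) {q q' : ℕ} (hq : q < A.tm s (A.per s))
    (hq' : q' < A.tm s (A.per s)) {f : (P.refine (2 * Q + 1) hK).Facet}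
    (h : A.seed Q (A.tyq s q) (A.kq s q) (A.stq s q) f)
    (h' : A.seed Q (A.tyq s q') (A.kq s q') (A.stq s q') f) : q = q' := by
  have hQ0 : 0 < Q := by
    have := hQ _ hs.1
    omega
  have hi := A.om_fst s hq
  have hi' := A.om_fst s hq'
  have hk := kq_le (A := A) (s := s) q
  have hk' := kq_le (A := A) (s := s) q'
  -- equality of strands and visits is enough
  have fin : A.stq s q = A.stq s q' → A.kq s q = A.kq s q' → q = q' := by
    intro e1 e2
    have e3 : (A.om s q).1 = (A.om s q').1 := per_inj hs hi hi' e1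
    exact A.om_inj s (Prod.ext e3 e2)
  have nomix : ∀ q q' : ℕ, q < A.tm s (A.per s) → q' < A.tm s (A.per s) →
      A.kq s q = 0 → A.kq s q' ≠ 0 → A.kq s q' ≤ 2 →
      A.seed Q (A.tyq s q) (A.kq s q) (A.stq s q) f →
      A.seed Q (A.tyq s q') (A.kq s q') (A.stq s q') f → False := by
    intro q q' _ _ h0 h1 h2 hf hf'
    rw [h0] at hf
    have h3 : A.Lane Q (A.stq s q) f := hf
    have h4 : A.kq s q' = 1 ∨ A.kq s q' = 2 := by omega
    have h5 := Pas_PF (stq_va hs q') (kq_pas h1)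
    have h6 : At (cfr (A.tyq s q') (A.kq s q') (A.stq s q').1) (2 * Q) (2 * Q) f := by
      rcases h4 with h4 | h4 <;> rw [h4] at hf' ⊢ <;> exact hf'
    obtain ⟨t, a1, a2, a3, -⟩ := Lane_corner (stq_va hs q) h3 h6 hQ0
    apply cfr_PF h5 h4
    rw [← a3]
    exact ⟨a1, a2⟩
  by_cases h0 : A.kq s q = 0
  · by_cases h0' : A.kq s q' = 0
    · rw [h0] at h
      rw [h0'] at h'
      rcases Lane_unique (stq_va hs q) (stq_va hs q') h h' with h1 | h1
      · exact fin h1.symm (h0.trans h0'.symm)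
      · exact absurd h1 (no_rev' hs _ _)
    · exact (nomix q q' hq hq' h0 h0' hk' h h').elim
  · by_cases h0' : A.kq s q' = 0
    · exact (nomix q' q hq' hq h0' h0 hk h' h).elim
    · have h4 : A.kq s q = 1 ∨ A.kq s q = 2 := by omega
      have h4' : A.kq s q' = 1 ∨ A.kq s q' = 2 := by omega
      have h5 := Pas_PF (stq_va hs q) (kq_pas h0)
      have h5' := Pas_PF (stq_va hs q') (kq_pas h0')
      have h6 : At (cfr (A.tyq s q) (A.kq s q) (A.stq s q).1) (2 * Q) (2 * Q) f := by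
        rcases h4 with h4 | h4 <;> rw [h4] at h ⊢ <;> exact h
      have h6' : At (cfr (A.tyq s q') (A.kq s q') (A.stq s q').1) (2 * Q) (2 * Q) f := by
        rcases h4' with h4' | h4' <;> rw [h4'] at h' ⊢ <;> exact h'
      have p1 := pass_data (stq_va hs q) (kq_pas h0).1 (kq_pas h0).2
      have p2 := pass_data (stq_va hs q') (kq_pas h0').1 (kq_pas h0').2
      rcases cfr_inj h5 h5' h4 h4' (corner_frame hQ0 h6 h6') with ⟨e1, -, e3⟩ | e1
      · refine fin (Prod.ext e1 ?_) e3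
        rw [p1.2.1, p2.2.1, e1]
      · exfalso
        have hsc : A.sc (A.stq s q) = (opq (A.stq s q).1, A.a (opq (A.stq s q).1)) :=
          sc_P (kq_pas h0).1 (kq_pas h0).2
        have h7 : A.stq s q' = A.rv (A.it s ((A.om s q).1 + 1)) := by
          rw [it_succ]
          have : A.sc (A.it s (A.om s q).1) = (opq (A.stq s q).1, A.a (opq (A.stq s q).1)) := hsc
          rw [this]
          apply Prod.ext
          · exact e1
          · rw [p2.2.1, e1, FSt.r2_r2]
            show A.b (opq (A.stq s q).1) = A.a (opq (A.stq s q).1) + A.b (opq (A.stq s q).1) +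
              A.c (opq (A.stq s q).1) - 1 - A.a (opq (A.stq s q).1)
            have := p1.2.2.2.2
            omega
        exact no_rev' hs _ _ h7

/-- the walk of a connected flow -/
noncomputable def walk (hQ : A.Fine Q) (hC : A.Conn) (hs : A.Va s) :
    SeedWalk P (2 * Q + 1) hK where
  n := A.tm s (A.per s)
  pos := by
    have h1 := (per_spec hs).1
    have h2 := A.tm_mono s (show 1 ≤ A.per s from h1)
    have h3 : A.tm s 1 = A.tm s 0 + A.kap (A.it s 0) := rfl
    have h4 := A.kap_pos (A.it s 0)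
    omega
  w := fun q => wfr (A.tyq s q) (A.kq s q) (A.stq s q).1
  m := fun q => A.mvk (A.tyq s q) (A.kq s q) (A.stq s q)
  step := fun q _ => walk_step hs q
  turn := fun q _ => walk_turn q
  S := fun q => A.seed Q (A.tyq s q) (A.kq s q) (A.stq s q)
  S_facet := fun q _ f hf => seed_facet (kq_le q) hf
  disj := fun q hq q' hq' f hf hf' => seed_disj hQ hs hq hq' hf hf'
  conn := fun q _ f g hf hg => seed_conn hQ (stq_va hs q) (kq_le q) hf hg
  cover := fun F => by
    obtain ⟨t, h1, h2⟩ := A.nom_ex F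
    obtain ⟨i, hi, h3⟩ := cover hs hC (u := (t, 0)) ⟨h1, M_pos h1⟩
    have h4 : A.om s (A.tm s i + 0) = (i, 0) := A.om_of s (A.kap_pos _)
    rw [Nat.add_zero] at h4
    refine ⟨A.tm s i, ?_, ?_⟩
    · have h5 := A.tm_mono s (show i + 1 ≤ A.per s from hi)
      have h6 : A.tm s (i + 1) = A.tm s i + A.kap (A.it s i) := rfl
      have h7 := A.kap_pos (A.it s i)
      omega
    · have e1 : A.kq s (A.tm s i) = 0 := congrArg Prod.snd h4
      have e2 : A.stq s (A.tm s i) = A.it s i := by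
        unfold stq; rw [h4]
      rw [e1, e2]
      have e3 : ∀ (τ : Bool) (u : P.FSt), (wfr τ 0 u).facet = u.facet := by
        intro τ u; cases τ <;> rfl
      rw [e3]
      rcases h3 with h3 | h3
      · rw [h3]; exact h2
      · rw [h3]; exact h2
  ne := fun q _ => seed_ne hQ (stq_va hs q) (kq_le q)
  glueE := fun q _ hm => by
    obtain ⟨f, g, h1, h2, h3⟩ := walk_glue (hK := hK) hQ hs q
    rw [hm] at h3
    obtain ⟨y, h4, h5⟩ := h3
    exact ⟨f, g, y, h1, h2, h4, h5⟩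
  glueN := fun q _ hm => by
    obtain ⟨f, g, h1, h2, h3⟩ := walk_glue (hK := hK) hQ hs q
    rw [hm] at h3
    obtain ⟨x, h4, h5⟩ := h3
    exact ⟨f, g, x, h1, h2, h4, h5⟩
  glueS := fun q _ hm => by
    obtain ⟨f, g, h1, h2, h3⟩ := walk_glue (hK := hK) hQ hs q
    rw [hm] at h3
    obtain ⟨x, h4, h5⟩ := h3
    exact ⟨f, g, x, h1, h2, h4, h5⟩

end Walk

/-- **The layout theorem for flows with passages.** -/
theorem hasEdgeUnfolding (A : PFlow P) (hC : A.Conn) (hne : Nonempty P.Facet)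
    (hQ : A.Fine Q) (hK : 0 < 2 * Q + 1) : (P.refine (2 * Q + 1) hK).HasEdgeUnfolding := by
  obtain ⟨F⟩ := hne
  obtain ⟨t, h1, -⟩ := A.nom_ex F
  exact (walk (A := A) (s := (t, 0)) (hK := hK) hQ hC ⟨h1, M_pos h1⟩).hasEdgeUnfolding

end PFlow

end Pool.Agent.MP42.NE

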