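import Pool.Agent.MP42.NE.KCur
import Pool.Agent.MP42.NE.PFlow4

/-!
# The walk of a simple closed curve that passes vertices
-/

set_option autoImplicit false

namespace Pool.Agent.MP42.NE

open Pool.Agent.Helper55.UNF Pool.Agent.Helper55.UNF.GridSolid Relation

variable {P : GridSolid}

/-- steps inside a passage -/
lemma pmv_in (τ : Bool) (t : P.FSt) {κ : ℕ} (hk : κ < 2) :
    (PFlow.pmv τ κ).ap (wfr τ κ t) = wfr τ (κ + 1) t := by
  have hk' : κ = 0 ∨ κ = 1 := by omega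
  rcases hk' with rfl | rfl <;> cases τ
  · rfl
  · exact stS_rL t
  · rfl
  · rfl

/-- the step at the end of a passage -/
lemma pmv_out (τ : Bool) {t : P.FSt} (h5 : PassOk t) :
    (PFlow.pmv τ 2).ap (wfr τ 2 t) = wfr (!τ) 0 (opq t) := by
  cases τ
  · show pN.symm t.stN.stE = (opq t).rL
    rw [pN_symm_eq]
    exact congrArg FSt.rL h5
  · rfl

namespace KCur

variable (A : KCur P)

lemma fin_va : Set.Finite {p : P.FSt × ℕ | A.Va p} := by
  obtain ⟨k, hk⟩ : ∃ k, ∀ t : P.FSt, A.n t + A.k t ≤ k := by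
    have : Finite P.FSt := inferInstance
    obtain ⟨k, hk⟩ := (Set.finite_range (fun t => A.n t + A.k t)).bddAbove
    exact ⟨k, fun t => hk ⟨t, rfl⟩⟩
  apply Set.Finite.subset (s := (Set.univ : Set P.FSt) ×ˢ (Set.Iio k))
  · exact Set.Finite.prod (Set.toFinite _) (Set.finite_Iio k)
  · rintro ⟨t, j⟩ h
    exact ⟨trivial, lt_of_lt_of_le h (hk t)⟩

/-- the strands of the curve -/
def orb : Orb (P.FSt × ℕ) where
  Va := A.Va
  sc := fun p => A.mu (A.io p)
  rv := A.mu
  fin := A.fin_va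
  sc_va := fun h => A.mu_va _ (io_va h)
  rv_va := fun h => A.mu_va _ h
  rv_rv := fun h => A.mu_mu _ h
  sc_rv_sc := fun {p} h => by
    show A.mu (A.io (A.mu (A.mu (A.io p)))) = A.mu p
    rw [A.mu_mu _ (io_va h), io_io h]
  sc_ne_rv := fun {p} h hcon => by
    have h1 : (A.mu (A.io p)).1.facet = (A.mu p).1.facet := by rw [hcon]
    rw [A.mu_f _ (io_va h), A.mu_f _ h] at h1
    exact io_facet h h1
  rv_ne := fun h => A.mu_ne _ h

/-- Frames along the curve: `w p` is the frame in the facet left at the place `p`, `m p` the move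
over an ordinary place, `ty p` the type at a corner; `s0` is the place where the frames need not
close up. -/
structure Fr (s0 : P.FSt × ℕ) where
  w : P.FSt × ℕ → P.FSt
  m : P.FSt × ℕ → Mv
  ty : P.FSt × ℕ → Bool
  wf : ∀ p, A.Va p → (w p).facet = p.1.facet
  wk : ∀ p, A.Va p → A.Co p → w p = wfr (ty p) 0 p.1
  wm : ∀ p, A.Va p → ¬ A.Co p → A.mu (A.io p) ≠ s0 → p ≠ A.mu s0 →
    p.1 = sdm (m p) (w p) ∧ (m p).ap (w p) = w (A.mu (A.io p))
  wc : ∀ p, A.Va p → A.Co p → A.mu (A.io p) ≠ s0 → p ≠ A.mu s0 →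
    w (A.mu (A.io p)) = wfr (!(ty p)) 0 (opq p.1)
  turn : ∀ p, A.Va p → A.mu (A.io p) ≠ s0 → p ≠ A.mu s0 →
    (A.Co (A.mu (A.io p)) ∨
      (A.mu (A.io (A.mu (A.io p))) ≠ s0 ∧ A.mu (A.io p) ≠ A.mu s0)) →
    ¬ ((if A.Co p then PFlow.pmv (ty p) 2 else m p) = Mv.N ∧
      (if A.Co (A.mu (A.io p)) then PFlow.pmv (ty (A.mu (A.io p))) 0
        else m (A.mu (A.io p))) = Mv.S) ∧
    ¬ ((if A.Co p then PFlow.pmv (ty p) 2 else m p) = Mv.S ∧
      (if A.Co (A.mu (A.io p)) then PFlow.pmv (ty (A.mu (A.io p))) 0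
        else m (A.mu (A.io p))) = Mv.N)

/-- number of visits -/
def kap (p : P.FSt × ℕ) : ℕ := if A.Co p then 3 else 1

lemma kap_pos (p : P.FSt × ℕ) : 0 < A.kap p := by unfold kap; split_ifs <;> omega

section Om

variable (s : P.FSt × ℕ)

/-- number of the strand and of the visit -/
def om : ℕ → ℕ × ℕ
  | 0 => (0, 0)
  | q + 1 => if (om q).2 + 1 < A.kap (A.orb.it s (om q).1) then ((om q).1, (om q).2 + 1)
      else ((om q).1 + 1, 0)

/-- time of the first visit of a strand -/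
def tm : ℕ → ℕ
  | 0 => 0
  | i + 1 => tm i + A.kap (A.orb.it s i)

lemma om_succ (q : ℕ) : A.om s (q + 1) =
    if (A.om s q).2 + 1 < A.kap (A.orb.it s (A.om s q).1) then ((A.om s q).1, (A.om s q).2 + 1)
      else ((A.om s q).1 + 1, 0) := rfl

lemma om_lt (q : ℕ) : (A.om s q).2 < A.kap (A.orb.it s (A.om s q).1) := by
  induction q with
  | zero => exact A.kap_pos _
  | succ q ih =>
    rw [om_succ]
    split_ifs with h
    · exact h
    · exact A.kap_pos _

lemma om_tm (q : ℕ) : A.tm s (A.om s q).1 + (A.om s q).2 = q := by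
  induction q with
  | zero => rfl
  | succ q ih =>
    have h1 := A.om_lt s q
    rw [om_succ]
    split_ifs with h
    · show A.tm s (A.om s q).1 + ((A.om s q).2 + 1) = q + 1
      omega
    · show A.tm s (A.om s q).1 + A.kap (A.orb.it s (A.om s q).1) + 0 = q + 1
      omega

lemma tm_mono : Monotone (A.tm s) := monotone_nat_of_le_succ fun i => by
  show A.tm s i ≤ A.tm s i + A.kap (A.orb.it s i)
  omega

lemma om_of {i : ℕ} {k : ℕ} (hk : k < A.kap (A.orb.it s i)) : A.om s (A.tm s i + k) = (i, k) := by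
  have h1 := A.om_tm s (A.tm s i + k)
  have h2 := A.om_lt s (A.tm s i + k)
  set p := A.om s (A.tm s i + k) with hp
  have e1 : p.1 = i := by
    rcases lt_trichotomy p.1 i with h | h | h
    · have h3 := A.tm_mono s (show p.1 + 1 ≤ i from h)
      have h4 : A.tm s (p.1 + 1) = A.tm s p.1 + A.kap (A.orb.it s p.1) := rfl
      omega
    · exact h
    · have h3 := A.tm_mono s (show i + 1 ≤ p.1 from h)
      have h4 : A.tm s (i + 1) = A.tm s i + A.kap (A.orb.it s i) := rfl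
      omega
  have e2 : p.2 = k := by
    rw [e1] at h1
    omega
  exact Prod.ext e1 e2

lemma om_inj {q q' : ℕ} (h : A.om s q = A.om s q') : q = q' := by
  rw [← A.om_tm s q, ← A.om_tm s q', h]

lemma om_fst {q N : ℕ} (hq : q < A.tm s N) : (A.om s q).1 < N := by
  by_contra h
  have h1 := A.tm_mono s (show N ≤ (A.om s q).1 by omega)
  have h2 := A.om_tm s q
  omega

end Om

section Walk

variable {A} {s : P.FSt × ℕ} (B : A.Fr s)

variable (A s) in
/-- the strand at time `q` -/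
def stq (q : ℕ) : P.FSt × ℕ := A.orb.it s (A.om s q).1

variable (A s) in
/-- number of the visit at time `q` -/
def kq (q : ℕ) : ℕ := (A.om s q).2

/-- frame of a visit -/
def Fr.fw (κ : ℕ) (p : P.FSt × ℕ) : P.FSt := if κ = 0 then B.w p else wfr (B.ty p) κ p.1

/-- move after a visit -/
def Fr.fm (κ : ℕ) (p : P.FSt × ℕ) : Mv := if A.Co p then PFlow.pmv (B.ty p) κ else B.m p

/-- cells of a visit -/
def Fr.seed (N Q : ℕ) {hK : 0 < 2 * Q + 1} (κ : ℕ) (p : P.FSt × ℕ)
    (f : (P.refine (2 * Q + 1) hK).Facet) : Prop :=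
  if κ = 0 then A.Lane N Q p f else At (cfr (B.ty p) κ p.1) (2 * Q) (2 * Q) f

omit B in
/-- the three kinds of time steps -/
lemma trans (q : ℕ) :
    (A.Co (A.stq s q) ∧ A.kq s q < 2 ∧ A.stq s (q + 1) = A.stq s q ∧
      A.kq s (q + 1) = A.kq s q + 1) ∨
    (A.Co (A.stq s q) ∧ A.kq s q = 2 ∧ A.stq s (q + 1) = A.mu (A.io (A.stq s q)) ∧
      A.kq s (q + 1) = 0) ∨
    (¬ A.Co (A.stq s q) ∧ A.kq s q = 0 ∧ A.stq s (q + 1) = A.mu (A.io (A.stq s q)) ∧
      A.kq s (q + 1) = 0) := by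
  have h1 := A.om_lt s q
  have h2 := A.om_succ s q
  unfold stq kq
  by_cases hp : A.Co (A.orb.it s (A.om s q).1)
  · have hk : A.kap (A.orb.it s (A.om s q).1) = 3 := if_pos hp
    rw [hk] at h1 h2
    by_cases h3 : (A.om s q).2 + 1 < 3
    · rw [if_pos h3] at h2
      left
      rw [h2]
      exact ⟨hp, by omega, rfl, rfl⟩
    · rw [if_neg h3] at h2
      right; left
      rw [h2]
      exact ⟨hp, by omega, A.orb.it_succ _ _, rfl⟩
  · have hk : A.kap (A.orb.it s (A.om s q).1) = 1 := if_neg hp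
    rw [hk] at h1 h2
    rw [if_neg (by omega)] at h2
    right; right
    rw [h2]
    exact ⟨hp, by omega, A.orb.it_succ _ _, rfl⟩

omit B in
lemma stq_va (hs : A.Va s) (q : ℕ) : A.Va (A.stq s q) := Orb.it_va (A := A.orb) hs _

omit B in
lemma kq_zero {q : ℕ} (hp : ¬ A.Co (A.stq s q)) : A.kq s q = 0 := by
  rcases trans (A := A) (s := s) q with h | h | h
  · exact absurd h.1 hp
  · exact absurd h.1 hp
  · exact h.2.1

omit B in
lemma kq_le (q : ℕ) : A.kq s q ≤ 2 := by
  rcases trans (A := A) (s := s) q with h | h | h <;> omega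

omit B in
/-- before the end, the exceptional place is not reached -/
lemma not_end (hs : A.Va s) {q : ℕ} (hq : q + 1 < A.tm s (A.orb.per s))
    (hk : A.kq s (q + 1) = 0) :
    A.mu (A.io (A.stq s q)) ≠ s ∧ A.stq s q ≠ A.mu s := by
  have h1 := A.om_fst s hq
  have h2 : A.stq s (q + 1) = A.mu (A.io (A.stq s q)) := by
    rcases trans (A := A) (s := s) q with h | h | h
    · omega
    · exact h.2.2.1
    · exact h.2.2.1
  refine ⟨?_, Orb.no_rev' (A := A.orb) hs _ 0⟩
  rw [← h2]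
  intro h3
  have h5 : (A.om s (q + 1)).1 = 0 :=
    Orb.per_inj (A := A.orb) hs h1 (Orb.per_spec (A := A.orb) hs).1 h3
  have h6 := A.om_tm s (q + 1)
  have h7 : (A.om s (q + 1)).2 = 0 := hk
  rw [h5, h7] at h6
  have h8 : A.tm s 0 = 0 := rfl
  omega

include B in
/-- the step of the walk -/
lemma walk_step (hs : A.Va s) {q : ℕ} (hq : q + 1 < A.tm s (A.orb.per s)) :
    (B.fm (A.kq s q) (A.stq s q)).ap (B.fw (A.kq s q) (A.stq s q)) =
      B.fw (A.kq s (q + 1)) (A.stq s (q + 1)) := by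
  have hv := stq_va hs q
  have hk0 : ∀ {κ : ℕ}, A.Co (A.stq s q) → B.fw κ (A.stq s q) = wfr (B.ty (A.stq s q)) κ
      (A.stq s q).1 := by
    intro κ hc
    unfold Fr.fw
    split_ifs with h
    · rw [B.wk _ hv hc, h]
    · rfl
  rcases trans (A := A) (s := s) q with ⟨h1, h2, h3, h5⟩ | ⟨h1, h2, h3, h5⟩ | ⟨h1, h2, h3, h5⟩
  · rw [h3, h5]
    unfold Fr.fm
    rw [if_pos h1, hk0 h1, hk0 h1]
    exact pmv_in _ _ h2
  · obtain ⟨n1, n2⟩ := not_end hs hq h5
    rw [h3, h5, h2]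
    unfold Fr.fm
    rw [if_pos h1, hk0 h1, pmv_out _ (A.k_ok _ (co_data hv h1).1)]
    exact (B.wc _ hv h1 n1 n2).symm
  · obtain ⟨n1, n2⟩ := not_end hs hq h5
    rw [h3, h5, h2]
    unfold Fr.fm
    rw [if_neg h1]
    exact (B.wm _ hv h1 n1 n2).2

variable {N Q : ℕ} {hK : 0 < 2 * Q + 1}

include B in
/-- gluing of ordinary steps -/
lemma glue_ord (hF : A.Fine N Q) {p : P.FSt × ℕ} (hv : A.Va p) (hc : ¬ A.Co p)
    (h1' : A.mu (A.io p) ≠ s) (h2' : p ≠ A.mu s) :
    ∃ f g : (P.refine (2 * Q + 1) hK).Facet, A.Lane N Q p f ∧ A.Lane N Q (A.mu (A.io p)) g ∧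
      Glue (B.w p) (B.w (A.mu (A.io p))) f g (B.m p) := by
  have h1 := hF.1 p.1
  have h2 := hF.2.2
  have h3 : ¬ A.n p.1 ≤ p.2 := hc
  obtain ⟨hx, hs⟩ := B.wm p hv hc h1' h2'
  set t := p.1 with ht
  set j := p.2 with hj
  obtain ⟨f, hf⟩ := ex_at hK t (x := 2 * Q) (y := Q + 1 + 2 * j - A.n t) (by omega) (by omega)
  obtain ⟨g, hg⟩ := ex_at hK t.stE (x := 0) (y := Q + 1 + 2 * j - A.n t) (by omega) (by omega)
  have hLf : A.Lane N Q p f := Lane_port hF hv hc hf
  have hLg : A.Lane N Q (A.mu (A.io p)) g := by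
    apply Lane_mu (io_va hv)
    apply Lane_port hF (io_va hv) (fun h => hc (io_Co.1 h))
    rw [io_not hc]
    show At t.stE.r2 (2 * Q) (Q + 1 + 2 * (A.n t - 1 - j) - A.n t.stE.r2) g
    rw [A.n_sym]
    have := hg.r2
    rwa [show 2 * Q + 1 - 1 - 0 = 2 * Q by omega, show 2 * Q + 1 - 1 -
      (Q + 1 + 2 * j - A.n t) = Q + 1 + 2 * (A.n t - 1 - j) - A.n t by omega] at this
  refine ⟨f, g, hLf, hLg, ?_⟩
  have hKe : 2 * Q + 1 - 1 = 2 * Q := by omega
  revert hx hs
  generalize B.m p = m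
  generalize B.w p = w
  generalize B.w (A.mu (A.io p)) = w'
  intro hs hx
  cases m
  · have e1 : t = w := hx
    have e2 : w.stE = w' := hs
    refine ⟨Q + 1 + 2 * j - A.n t, ?_, ?_⟩
    · rw [hKe, ← e1]; exact hf
    · rw [← e2, ← e1]; exact hg
  · have e1 : t = w.rL := hx
    have e2 : w.stN = w' := hs
    refine ⟨2 * Q + 1 - 1 - (Q + 1 + 2 * j - A.n t), ?_, ?_⟩
    · rw [hKe]
      have := hf.rR
      have e3 : t.rR = w := by rw [e1, FSt.rL_rR]
      rwa [e3] at this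
    · have h5 := hg.rR
      have e3 : t.stE.rR = w' := by rw [e1, stE_rL, FSt.rL_rR, e2]
      rwa [e3] at h5
  · have e1 : t = w.rR := hx
    have e2 : pN.symm w = w' := hs
    refine ⟨Q + 1 + 2 * j - A.n t, ?_, ?_⟩
    · have := hf.rL
      have e3 : t.rL = w := by rw [e1, FSt.rR_rL]
      rwa [e3, show 2 * Q + 1 - 1 - 2 * Q = 0 by omega] at this
    · have h5 := hg.rL
      have e3 : t.stE.rL = w' := by rw [e1, ← pN_symm_eq, e2]
      rwa [e3, Nat.sub_zero] at h5

omit B in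
/-- gluing inside a passage -/
lemma glue_in {p : P.FSt × ℕ} (hc : A.Co p) (τ : Bool) {κ : ℕ}
    (hk : κ < 2) : ∃ f g : (P.refine (2 * Q + 1) hK).Facet,
      (if κ = 0 then A.Lane N Q p f else At (cfr τ κ p.1) (2 * Q) (2 * Q) f) ∧
      At (cfr τ (κ + 1) p.1) (2 * Q) (2 * Q) g ∧
      Glue (wfr τ κ p.1) (wfr τ (κ + 1) p.1) f g (PFlow.pmv τ κ) := by
  have hKe : 2 * Q + 1 - 1 = 2 * Q := by omega
  have hk' : κ = 0 ∨ κ = 1 := by omega
  rcases hk' with rfl | rfl <;> cases τ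
  · obtain ⟨f, hf⟩ := ex_at hK p.1 (x := 2 * Q) (y := 2 * Q) (by omega) (by omega)
    obtain ⟨g, hg⟩ := ex_at hK p.1.stN (x := 2 * Q) (y := 0) (by omega) (by omega)
    refine ⟨f, g, ?_, ?_, ?_⟩
    · rw [if_pos rfl]; exact Lane_port' hc hf
    · show At (rho p.1) (2 * Q) (2 * Q) g
      rw [rho1]
      have := hg.rR
      rwa [show 2 * Q + 1 - 1 - 0 = 2 * Q by omega] at this
    · show ∃ x, At p.1 x (2 * Q + 1 - 1) f ∧ At p.1.stN x 0 g
      rw [hKe]
      exact ⟨_, hf, hg⟩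
  · obtain ⟨f, hf⟩ := ex_at hK p.1 (x := 2 * Q) (y := 2 * Q) (by omega) (by omega)
    obtain ⟨g, hg⟩ := ex_at hK p.1.stE.rL (x := 2 * Q) (y := 2 * Q) (by omega) (by omega)
    refine ⟨f, g, ?_, hg, ?_⟩
    · rw [if_pos rfl]; exact Lane_port' hc hf
    show ∃ x, At p.1.rL x 0 f ∧ At p.1.stE.rL x (2 * Q + 1 - 1) g
    rw [hKe]
    have := hf.rL
    rw [show 2 * Q + 1 - 1 - 2 * Q = 0 by omega] at this
    exact ⟨_, this, hg⟩
  · obtain ⟨f, hf⟩ := ex_at hK p.1.stN (x := 2 * Q) (y := 0) (by omega) (by omega)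
    obtain ⟨g, hg⟩ := ex_at hK p.1.stN.stE (x := 0) (y := 0) (by omega) (by omega)
    refine ⟨f, g, ?_, ?_, ?_⟩
    · rw [if_neg (by decide)]
      show At (rho p.1) (2 * Q) (2 * Q) f
      rw [rho1]
      have := hf.rR
      rwa [show 2 * Q + 1 - 1 - 0 = 2 * Q by omega] at this
    · show At (rho (rho p.1)) (2 * Q) (2 * Q) g
      rw [rho2]
      have := hg.r2
      rwa [show 2 * Q + 1 - 1 - 0 = 2 * Q by omega] at this
    · show ∃ y, At p.1.stN (2 * Q + 1 - 1) y f ∧ At p.1.stN.stE 0 y g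
      rw [hKe]
      exact ⟨_, hf, hg⟩
  · obtain ⟨f, hf⟩ := ex_at hK p.1.stE.rL (x := 2 * Q) (y := 2 * Q) (by omega) (by omega)
    obtain ⟨g, hg⟩ := ex_at hK p.1.stE.rL.stE (x := 0) (y := 2 * Q) (by omega) (by omega)
    refine ⟨f, g, ?_, ?_, ?_⟩
    · rw [if_neg (by decide)]; exact hf
    · show At (rhoi (rhoi p.1)) (2 * Q) (2 * Q) g
      rw [rhoi2]
      have := hg.rL
      rwa [show 2 * Q + 1 - 1 - 0 = 2 * Q by omega] at this
    · show ∃ y, At p.1.stE.rL (2 * Q + 1 - 1) y f ∧ At p.1.stE.rL.stE 0 y g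
      rw [hKe]
      exact ⟨_, hf, hg⟩

omit B in
/-- gluing at the end of a passage -/
lemma glue_out {p : P.FSt × ℕ} (hv : A.Va p) (hc : A.Co p) (τ : Bool) :
    ∃ f g : (P.refine (2 * Q + 1) hK).Facet, At (cfr τ 2 p.1) (2 * Q) (2 * Q) f ∧
      A.Lane N Q (A.mu (A.io p)) g ∧ Glue (wfr τ 2 p.1) (wfr (!τ) 0 (opq p.1)) f g
        (PFlow.pmv τ 2) := by
  have hKe : 2 * Q + 1 - 1 = 2 * Q := by omega
  obtain ⟨g, hg⟩ := ex_at hK (opq p.1) (x := 0) (y := 0) (by omega) (by omega)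
  have hL : A.Lane N Q (A.mu (A.io p)) g := by
    apply Lane_mu (io_va hv)
    apply Lane_port' (io_Co.2 hc)
    rw [io_co hc]
    have := hg.r2
    rwa [show 2 * Q + 1 - 1 - 0 = 2 * Q by omega] at this
  cases τ
  · obtain ⟨f, hf⟩ := ex_at hK p.1.stN.stE (x := 0) (y := 0) (by omega) (by omega)
    refine ⟨f, g, ?_, hL, ?_⟩
    · show At (rho (rho p.1)) (2 * Q) (2 * Q) f
      rw [rho2]
      have := hf.r2
      rwa [show 2 * Q + 1 - 1 - 0 = 2 * Q by omega] at this
    · show ∃ x, At p.1.stN.stE x 0 f ∧ At (opq p.1).rL x (2 * Q + 1 - 1) g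
      refine ⟨_, hf, ?_⟩
      have := hg.rL
      rwa [show 2 * Q + 1 - 1 - 0 = 2 * Q + 1 - 1 by omega] at this
  · obtain ⟨f, hf⟩ := ex_at hK p.1.stE.rL.stE (x := 0) (y := 2 * Q) (by omega) (by omega)
    refine ⟨f, g, ?_, hL, ?_⟩
    · show At (rhoi (rhoi p.1)) (2 * Q) (2 * Q) f
      rw [rhoi2]
      have := hf.rL
      rwa [show 2 * Q + 1 - 1 - 0 = 2 * Q by omega] at this
    · show ∃ x, At p.1.stE.rL.stE x (2 * Q + 1 - 1) f ∧ At (opq p.1) x 0 g
      rw [hKe]
      exact ⟨_, hf, hg⟩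

include B in
lemma walk_glue (hF : A.Fine N Q) (hs : A.Va s) {q : ℕ}
    (hq : q + 1 < A.tm s (A.orb.per s)) :
    ∃ f g : (P.refine (2 * Q + 1) hK).Facet,
      B.seed N Q (A.kq s q) (A.stq s q) f ∧ B.seed N Q (A.kq s (q + 1)) (A.stq s (q + 1)) g ∧
      Glue (B.fw (A.kq s q) (A.stq s q)) (B.fw (A.kq s (q + 1)) (A.stq s (q + 1))) f g
        (B.fm (A.kq s q) (A.stq s q)) := by
  have hv := stq_va hs q
  have hk0 : ∀ {κ : ℕ}, A.Co (A.stq s q) → B.fw κ (A.stq s q) = wfr (B.ty (A.stq s q)) κ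
      (A.stq s q).1 := by
    intro κ hc
    unfold Fr.fw
    split_ifs with h
    · rw [B.wk _ hv hc, h]
    · rfl
  rcases trans (A := A) (s := s) q with ⟨h1, h2, h3, h5⟩ | ⟨h1, h2, h3, h5⟩ | ⟨h1, h2, h3, h5⟩
  · obtain ⟨f, g, g1, g2, g3⟩ := glue_in (hK := hK) (N := N) h1 (B.ty (A.stq s q)) h2
    rw [h3, h5]
    refine ⟨f, g, g1, ?_, ?_⟩
    · unfold Fr.seed
      rw [if_neg (by omega)]
      exact g2
    · unfold Fr.fm
      rw [if_pos h1, hk0 h1, hk0 h1]
      exact g3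
  · obtain ⟨n1, n2⟩ := not_end hs hq h5
    obtain ⟨f, g, g1, g2, g3⟩ := glue_out (hK := hK) (N := N) hv h1 (B.ty (A.stq s q))
    rw [h3, h5, h2]
    refine ⟨f, g, ?_, ?_, ?_⟩
    · unfold Fr.seed
      rw [if_neg (by decide)]
      exact g1
    · unfold Fr.seed
      rw [if_pos rfl]
      exact g2
    · unfold Fr.fm
      rw [if_pos h1, hk0 h1]
      have e1 : B.fw 0 (A.mu (A.io (A.stq s q))) = B.w (A.mu (A.io (A.stq s q))) := rfl
      rw [e1, B.wc _ hv h1 n1 n2]
      exact g3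
  · obtain ⟨n1, n2⟩ := not_end hs hq h5
    obtain ⟨f, g, g1, g2, g3⟩ := glue_ord B (hK := hK) hF hv h1 n1 n2
    rw [h3, h5, h2]
    refine ⟨f, g, ?_, ?_, ?_⟩
    · unfold Fr.seed
      rw [if_pos rfl]
      exact g1
    · unfold Fr.seed
      rw [if_pos rfl]
      exact g2
    · unfold Fr.fm
      rw [if_neg h1]
      exact g3

include B in
/-- no turning back -/
lemma walk_turn (hs : A.Va s) {q : ℕ} (hq : q + 2 < A.tm s (A.orb.per s)) :
    ¬ (B.fm (A.kq s q) (A.stq s q) = Mv.N ∧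
      B.fm (A.kq s (q + 1)) (A.stq s (q + 1)) = Mv.S) ∧
    ¬ (B.fm (A.kq s q) (A.stq s q) = Mv.S ∧
      B.fm (A.kq s (q + 1)) (A.stq s (q + 1)) = Mv.N) := by
  have hv := stq_va hs q
  have hv' := stq_va hs (q + 1)
  by_cases h0 : A.kq s (q + 1) = 0
  · obtain ⟨n1, n2⟩ := not_end hs (show q + 1 < _ by omega) h0
    have e1 : A.stq s (q + 1) = A.mu (A.io (A.stq s q)) := by
      rcases trans (A := A) (s := s) q with h | h | h
      · omega
      · exact h.2.2.1
      · exact h.2.2.1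
    have e2 : B.fm (A.kq s q) (A.stq s q) =
        (if A.Co (A.stq s q) then PFlow.pmv (B.ty (A.stq s q)) 2 else B.m (A.stq s q)) := by
      unfold Fr.fm
      split_ifs with hc
      · rcases trans (A := A) (s := s) q with h | h | h
        · omega
        · rw [h.2.1]
        · exact absurd hc h.1
      · rfl
    have e3 : B.fm (A.kq s (q + 1)) (A.stq s (q + 1)) =
        (if A.Co (A.mu (A.io (A.stq s q))) then PFlow.pmv (B.ty (A.mu (A.io (A.stq s q)))) 0
          else B.m (A.mu (A.io (A.stq s q)))) := by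
      unfold Fr.fm
      rw [h0, e1]
    rw [e2, e3]
    -- the next step is an ordinary end or inside a passage
    by_cases hc : A.Co (A.stq s (q + 1))
    · rw [e1] at hc
      exact B.turn _ hv n1 n2 (Or.inl hc)
    · rcases trans (A := A) (s := s) (q + 1) with ⟨b1, b2, b3, b4⟩ | ⟨b1, b2, b3, b4⟩ |
        ⟨b1, b2, b3, b4⟩
      · exact absurd b1 hc
      · exact absurd b1 hc
      · obtain ⟨n3, n4⟩ := not_end hs (q := q + 1) hq b4
        rw [e1] at n3 n4
        exact B.turn _ hv n1 n2 (Or.inr ⟨n3, n4⟩)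
  · -- inside a passage
    rcases trans (A := A) (s := s) q with ⟨b1, b2, b3, b4⟩ | ⟨b1, b2, b3, b4⟩ |
      ⟨b1, b2, b3, b4⟩
    · rw [b3]
      unfold Fr.fm
      rw [if_pos b1, if_pos b1, b4]
      have hk' : A.kq s q = 0 ∨ A.kq s q = 1 := by omega
      rcases hk' with hk | hk <;> rw [hk] <;> cases B.ty (A.stq s q)
      · exact ⟨fun h => (by cases h.2), fun h => (by cases h.1)⟩
      · exact ⟨fun h => (by cases h.1), fun h => (by cases h.2)⟩
      · exact ⟨fun h => (by cases h.1), fun h => (by cases h.1)⟩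
      · exact ⟨fun h => (by cases h.1), fun h => (by cases h.1)⟩
    · omega
    · omega

omit B in
lemma seed_cases {κ : ℕ} (hκ : κ ≠ 0) (B : A.Fr s) {p : P.FSt × ℕ}
    {f : (P.refine (2 * Q + 1) hK).Facet} (h : B.seed N Q κ p f) :
    At (cfr (B.ty p) κ p.1) (2 * Q) (2 * Q) f := by
  unfold Fr.seed at h
  rwa [if_neg hκ] at h

include B in
lemma seed_facet (hs : A.Va s) {q : ℕ}
    {f : (P.refine (2 * Q + 1) hK).Facet} (h : B.seed N Q (A.kq s q) (A.stq s q) f) :
    co hK f = (B.fw (A.kq s q) (A.stq s q)).facet := by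
  have hv := stq_va hs q
  have hk := kq_le (A := A) (s := s) q
  have hk' : A.kq s q = 0 ∨ A.kq s q = 1 ∨ A.kq s q = 2 := by omega
  rcases hk' with h0 | h0 | h0
  · rw [h0] at h ⊢
    have h1 : A.Lane N Q (A.stq s q) f := by
      unfold Fr.seed at h
      rwa [if_pos rfl] at h
    show co hK f = (B.w (A.stq s q)).facet
    rw [Lane_facet h1, B.wf _ hv]
  · have h1 := seed_cases (by omega) B h
    rw [h0] at h1 ⊢
    show co hK f = (wfr (B.ty (A.stq s q)) 1 (A.stq s q).1).facet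
    rw [h1.1]
    cases B.ty (A.stq s q) <;> rfl
  · have h1 := seed_cases (by omega) B h
    rw [h0] at h1 ⊢
    show co hK f = (wfr (B.ty (A.stq s q)) 2 (A.stq s q).1).facet
    rw [h1.1]
    cases B.ty (A.stq s q)
    · show (rho (rho (A.stq s q).1)).facet = (A.stq s q).1.stN.stE.facet
      rw [rho2]; rfl
    · rfl

include B in
lemma seed_conn (hF : A.Fine N Q) (hs : A.Va s) {q : ℕ}
    {f g : (P.refine (2 * Q + 1) hK).Facet} (hf : B.seed N Q (A.kq s q) (A.stq s q) f)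
    (hg : B.seed N Q (A.kq s q) (A.stq s q) g) :
    ReflTransGen (fun a b => B.seed N Q (A.kq s q) (A.stq s q) a ∧
      B.seed N Q (A.kq s q) (A.stq s q) b ∧ Nb a b) f g := by
  have hv := stq_va hs q
  by_cases h0 : A.kq s q = 0
  · rw [h0] at hf hg ⊢
    unfold Fr.seed at hf hg ⊢
    simp only [if_true] at hf hg ⊢
    exact Lane_conn hF hv hf hg
  · have h1 := seed_cases h0 B hf
    have h2 := seed_cases h0 B hg
    rw [h1.inj h2]

include B in
lemma seed_ne (hF : A.Fine N Q) (hs : A.Va s) (q : ℕ) :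
    ∃ f : (P.refine (2 * Q + 1) hK).Facet, B.seed N Q (A.kq s q) (A.stq s q) f := by
  have hv := stq_va hs q
  by_cases h0 : A.kq s q = 0
  · rw [h0]
    unfold Fr.seed
    simp only [if_true]
    by_cases hc : A.Co (A.stq s q)
    · obtain ⟨f, hf⟩ := ex_at hK (A.stq s q).1 (x := 2 * Q) (y := 2 * Q) (by omega) (by omega)
      exact ⟨f, Lane_port' hc hf⟩
    · have h1 := hF.1 (A.stq s q).1
      have h2 := hF.2.2
      have h3 : ¬ A.n (A.stq s q).1 ≤ (A.stq s q).2 := hc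
      obtain ⟨f, hf⟩ := ex_at hK (A.stq s q).1 (x := 2 * Q)
        (y := Q + 1 + 2 * (A.stq s q).2 - A.n (A.stq s q).1) (by omega) (by omega)
      exact ⟨f, Lane_port hF hv hc hf⟩
  · obtain ⟨f, hf⟩ := ex_at hK (cfr (B.ty (A.stq s q)) (A.kq s q) (A.stq s q).1)
      (x := 2 * Q) (y := 2 * Q) (by omega) (by omega)
    refine ⟨f, ?_⟩
    unfold Fr.seed
    rw [if_neg h0]
    exact hf

omit B in
/-- corner frames of different passages are different -/
lemma cfr_inj' {t t' : P.FSt} (h : A.k t = 1) (h' : A.k t' = 1) {τ τ' : Bool} {κ κ' : ℕ}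
    (hk : κ = 1 ∨ κ = 2) (hk' : κ' = 1 ∨ κ' = 2) (he : cfr τ κ t = cfr τ' κ' t') :
    (t = t' ∧ κ = κ') ∨ t' = (opq t).r2 := by
  have key : ∀ {t t' : P.FSt}, A.k t = 1 → A.k t' = 1 → t = rho t' → False := by
    intro t t' h h' he
    exact A.k_u1 t' h' (he ▸ h)
  have key2 : ∀ {t t' : P.FSt}, A.k t = 1 → A.k t' = 1 → t = rho (rho t') → False := by
    intro t t' h h' he
    exact A.k_u2 t' h' (he ▸ h)
  have P3 : ∀ {t : P.FSt}, A.k t = 1 → rho (rho (rho t)) = (opq t).r2 := by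
    intro t h
    exact rho3 (A.k_ok t h)
  have ri : ∀ {x y : P.FSt}, x = rhoi y → rho x = y := by
    intro x y h; rw [h, rho_rhoi]
  rcases hk with rfl | rfl <;> rcases hk' with rfl | rfl <;> cases τ <;> cases τ'
  · exact Or.inl ⟨rho_inj he, rfl⟩
  · have h1 : rho (rho t) = t' := ri he
    exact (key2 h' h h1.symm).elim
  · have h1 : rho (rho t') = t := ri he.symm
    exact (key2 h h' h1.symm).elim
  · have h1 : rhoi t = rhoi t' := he
    have h2 := congrArg rho h1
    rw [rho_rhoi, rho_rhoi] at h2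
    exact Or.inl ⟨h2, rfl⟩
  · exact (key h h' (rho_inj he)).elim
  · have h1 : rho (rho t) = rhoi t' := ri he
    have h2 : rho (rho (rho t)) = t' := ri h1
    right
    rw [← h2, P3 h]
  · have h1 : rho (rho (rho t')) = t := ri (show rho (rho t') = rhoi t from he.symm)
    right
    rw [P3 h'] at h1
    have h3 := opq_opq (A.k_ok t' h')
    rw [h1] at h3
    rw [h3, FSt.r2_r2]
  · have h1 : t = rhoi t' := by
      have h2 := congrArg rho (show rhoi t = rhoi (rhoi t') from he)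
      rwa [rho_rhoi, rho_rhoi] at h2
    exact (key h' h (ri h1).symm).elim
  · exact (key h' h (rho_inj he).symm).elim
  · have h1 : rho (rho (rho t)) = t' := ri he
    right
    rw [← h1, P3 h]
  · have h1 : rho (rho t') = rhoi t := ri (show rho t' = rhoi (rhoi t) from he.symm)
    have h2 : rho (rho (rho t')) = t := ri h1
    right
    rw [P3 h'] at h2
    have h3 := opq_opq (A.k_ok t' h')
    rw [h2] at h3
    rw [h3, FSt.r2_r2]
  · have h1 : rhoi t = t' := by
      have h2 := congrArg rho (show rhoi (rhoi t) = rhoi t' from he)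
      rwa [rho_rhoi, rho_rhoi] at h2
    exact (key h h' (ri h1.symm).symm).elim
  · exact Or.inl ⟨rho_inj (rho_inj he), rfl⟩
  · have h1 : rho (rho (rho t)) = rhoi t' := ri (show rho (rho t) = rhoi (rhoi t') from he)
    have h2 : rho (rho (rho (rho t))) = t' := ri h1
    rw [P3 h] at h2
    exact (key h' (A.k_op t h) h2.symm).elim
  · have h1 : rho (rho (rho t')) = rhoi t := ri (show rho (rho t') = rhoi (rhoi t) from he.symm)
    have h2 : rho (rho (rho (rho t'))) = t := ri h1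
    rw [P3 h'] at h2
    exact (key h (A.k_op t' h') h2.symm).elim
  · have h1 : rhoi (rhoi t) = rhoi (rhoi t') := he
    have h2 := congrArg rho h1
    rw [rho_rhoi, rho_rhoi] at h2
    have h3 := congrArg rho h2
    rw [rho_rhoi, rho_rhoi] at h3
    exact Or.inl ⟨h3, rfl⟩

omit B in
/-- a corner frame of a passage does not belong to another passage -/
lemma cfr_k {t : P.FSt} (h : A.k t = 1) {τ : Bool} {κ : ℕ} (hk : κ = 1 ∨ κ = 2) :
    A.k (cfr τ κ t) ≠ 1 := by
  intro h'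
  rcases hk with rfl | rfl <;> cases τ
  · exact A.k_u1 t h h'
  · have h1 : A.k (rhoi t) = 1 := h'
    apply A.k_u1 _ h1
    rw [rho_rhoi]; exact h
  · exact A.k_u2 t h h'
  · have h1 : A.k (rhoi (rhoi t)) = 1 := h'
    apply A.k_u2 _ h1
    rw [rho_rhoi, rho_rhoi]; exact h

include B in
/-- the visits are disjoint -/
lemma seed_disj (hF : A.Fine N Q) (hnc : A.NC) (hs : A.Va s) {q q' : ℕ}
    (hq : q < A.tm s (A.orb.per s)) (hq' : q' < A.tm s (A.orb.per s))
    {f : (P.refine (2 * Q + 1) hK).Facet}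
    (h : B.seed N Q (A.kq s q) (A.stq s q) f)
    (h' : B.seed N Q (A.kq s q') (A.stq s q') f) : q = q' := by
  have hQ0 : 0 < Q := by
    have := hF.2.2
    omega
  have hi := A.om_fst s hq
  have hi' := A.om_fst s hq'
  have hk := kq_le (A := A) (s := s) q
  have hk' := kq_le (A := A) (s := s) q'
  have pas : ∀ q, A.kq s q ≠ 0 → A.Co (A.stq s q) := by
    intro q h
    by_contra h2
    exact h (kq_zero h2)
  have fin : A.stq s q = A.stq s q' → A.kq s q = A.kq s q' → q = q' := by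
    intro e1 e2
    have e3 : (A.om s q).1 = (A.om s q').1 := Orb.per_inj (A := A.orb) hs hi hi' e1
    exact A.om_inj s (Prod.ext e3 e2)
  have nomix : ∀ q q' : ℕ, A.kq s q = 0 → A.kq s q' ≠ 0 → A.kq s q' ≤ 2 →
      B.seed N Q (A.kq s q) (A.stq s q) f →
      B.seed N Q (A.kq s q') (A.stq s q') f → False := by
    intro q q' h0 h1 h2 hf hf'
    rw [h0] at hf
    have h3 : A.Lane N Q (A.stq s q) f := by
      unfold Fr.seed at hf
      rwa [if_pos rfl] at hf
    have h4 : A.kq s q' = 1 ∨ A.kq s q' = 2 := by omega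
    have h5 := (co_data (stq_va hs q') (pas q' h1)).1
    have h6 := seed_cases h1 B hf'
    obtain ⟨a, a1, a2, a3⟩ := Lane_corner hF (stq_va hs q) h3 h6
    apply cfr_k h5 h4 (τ := B.ty (A.stq s q'))
    rw [← a2]
    have hva : A.Va a := by
      rcases a3 with rfl | rfl
      · exact stq_va hs q
      · exact A.mu_va _ (stq_va hs q)
    exact (co_data hva a1).1
  by_cases h0 : A.kq s q = 0
  · by_cases h0' : A.kq s q' = 0
    · rw [h0] at h
      rw [h0'] at h'
      unfold Fr.seed at h h'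
      rw [if_pos rfl] at h h'
      rcases Lane_unique hF hnc (stq_va hs q) (stq_va hs q') h h' with h1 | h1
      · exact fin h1.symm (h0.trans h0'.symm)
      · exact absurd h1 (Orb.no_rev' (A := A.orb) hs _ _)
    · exact (nomix q q' h0 h0' hk' h h').elim
  · by_cases h0' : A.kq s q' = 0
    · exact (nomix q' q h0' h0 hk h' h).elim
    · have h4 : A.kq s q = 1 ∨ A.kq s q = 2 := by omega
      have h4' : A.kq s q' = 1 ∨ A.kq s q' = 2 := by omega
      have p1 := co_data (stq_va hs q) (pas q h0)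
      have p2 := co_data (stq_va hs q') (pas q' h0')
      have h6 := seed_cases h0 B h
      have h6' := seed_cases h0' B h'
      rcases cfr_inj' p1.1 p2.1 h4 h4' (corner_frame hQ0 h6 h6') with ⟨e1, e3⟩ | e1
      · refine fin (Prod.ext e1 ?_) e3
        rw [p1.2, p2.2, e1]
      · exfalso
        have h7 : A.stq s q' = A.io (A.stq s q) := by
          rw [io_co (pas q h0)]
          exact Prod.ext e1 (by rw [p2.2, e1])
        have h8 : A.stq s q' = A.mu (A.orb.it s ((A.om s q).1 + 1)) := by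
          rw [A.orb.it_succ]
          show A.stq s q' = A.mu (A.mu (A.io (A.stq s q)))
          rw [A.mu_mu _ (io_va (stq_va hs q)), h7]
        exact Orb.no_rev' (A := A.orb) hs _ _ h8

/-- the walk -/
noncomputable def Fr.walk (B : A.Fr s) (hF : A.Fine N Q) (hnc : A.NC) (hC : A.orb.Conn)
    (hcov : ∀ F : P.Facet, ∃ p, A.Va p ∧ p.1.facet = F) (hs : A.Va s) :
    SeedWalk P (2 * Q + 1) hK where
  n := A.tm s (A.orb.per s)
  pos := by
    have h1 := (Orb.per_spec (A := A.orb) hs).1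
    have h2 := A.tm_mono s (show 1 ≤ A.orb.per s from h1)
    have h3 : A.tm s 1 = A.tm s 0 + A.kap (A.orb.it s 0) := rfl
    have h4 := A.kap_pos (A.orb.it s 0)
    omega
  w := fun q => B.fw (A.kq s q) (A.stq s q)
  m := fun q => B.fm (A.kq s q) (A.stq s q)
  step := fun q hq => walk_step B hs hq
  turn := fun q hq => walk_turn B hs hq
  S := fun q => B.seed N Q (A.kq s q) (A.stq s q)
  S_facet := fun q _ f hf => seed_facet B hs hf
  disj := fun q hq q' hq' f hf hf' => seed_disj B hF hnc hs hq hq' hf hf'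
  conn := fun q _ f g hf hg => seed_conn B hF hs hf hg
  cover := fun F => by
    obtain ⟨p, h1, h2⟩ := hcov F
    obtain ⟨i, hi, h3⟩ := Orb.cover (A := A.orb) hs hC (u := p) h1
    have h4 : A.om s (A.tm s i + 0) = (i, 0) := A.om_of s (A.kap_pos _)
    rw [Nat.add_zero] at h4
    refine ⟨A.tm s i, ?_, ?_⟩
    · have h5 := A.tm_mono s (show i + 1 ≤ A.orb.per s from hi)
      have h6 : A.tm s (i + 1) = A.tm s i + A.kap (A.orb.it s i) := rfl
      have h7 := A.kap_pos (A.orb.it s i)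
      omega
    · have e1 : A.kq s (A.tm s i) = 0 := congrArg Prod.snd h4
      have e2 : A.stq s (A.tm s i) = A.orb.it s i := by
        unfold stq; rw [h4]
      have hv : A.Va (A.orb.it s i) := Orb.it_va (A := A.orb) hs i
      rw [e1, e2]
      show (B.w (A.orb.it s i)).facet = F
      rw [B.wf _ hv]
      rcases h3 with h3 | h3
      · rw [h3]; exact h2
      · rw [h3]
        show (A.mu p).1.facet = F
        rw [A.mu_f p h1, h2]
  ne := fun q _ => seed_ne B hF hs q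
  glueE := fun q hq hm => by
    obtain ⟨f, g, h1, h2, h3⟩ := walk_glue B (hK := hK) hF hs hq
    rw [hm] at h3
    obtain ⟨y, h4, h5⟩ := h3
    exact ⟨f, g, y, h1, h2, h4, h5⟩
  glueN := fun q hq hm => by
    obtain ⟨f, g, h1, h2, h3⟩ := walk_glue B (hK := hK) hF hs hq
    rw [hm] at h3
    obtain ⟨x, h4, h5⟩ := h3
    exact ⟨f, g, x, h1, h2, h4, h5⟩
  glueS := fun q hq hm => by
    obtain ⟨f, g, h1, h2, h3⟩ := walk_glue B (hK := hK) hF hs hq
    rw [hm] at h3
    obtain ⟨x, h4, h5⟩ := h3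
    exact ⟨f, g, x, h1, h2, h4, h5⟩

/-- **Layout of a simple closed curve that passes vertices.** -/
theorem Fr.hasEdgeUnfolding (B : A.Fr s) (hF : A.Fine N Q) (hnc : A.NC) (hC : A.orb.Conn)
    (hcov : ∀ F : P.Facet, ∃ p, A.Va p ∧ p.1.facet = F) (hs : A.Va s)
    (hK : 0 < 2 * Q + 1) : (P.refine (2 * Q + 1) hK).HasEdgeUnfolding :=
  (B.walk (hK := hK) hF hnc hC hcov hs).hasEdgeUnfolding

end Walk

end KCur

end Pool.Agent.MP42.NE
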