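import Pool.Agent.MP42.NE.Seed

/-!
# Lanes of a facet

The cells of a facet are divided into the level sets of a monotone function; they are connected and
reach the prescribed places of the boundary.
-/

set_option autoImplicit false

namespace Pool.Agent.MP42.NE

open Pool.Agent.Helper55.UNF Pool.Agent.Helper55.UNF.GridSolid Relation

/-! ## Level sets of monotone functions -/

/-- steps inside a set of positions -/
def GS (D : ℕ → ℕ → Prop) (p q : ℕ × ℕ) : Prop :=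
  D p.1 p.2 ∧ D q.1 q.2 ∧ ((q.1 = p.1 + 1 ∧ q.2 = p.2) ∨ (q.1 = p.1 ∧ q.2 = p.2 + 1) ∨
    (p.1 = q.1 + 1 ∧ q.2 = p.2) ∨ (p.1 = q.1 ∧ p.2 = q.2 + 1))

lemma GS.symm {D : ℕ → ℕ → Prop} {p q : ℕ × ℕ} (h : GS D p q) : GS D q p := by
  obtain ⟨h1, h2, h3⟩ := h
  refine ⟨h2, h1, ?_⟩
  omega

lemma gs_symm {D : ℕ → ℕ → Prop} {p q : ℕ × ℕ} (h : ReflTransGen (GS D) p q) :
    ReflTransGen (GS D) q p := by
  induction h with
  | refl => exact ReflTransGen.refl
  | tail _ hbc ih => exact ReflTransGen.head hbc.symm ih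

lemma gs_mono {D E : ℕ → ℕ → Prop} (h : ∀ x y, D x y → E x y) {p q : ℕ × ℕ}
    (hpq : ReflTransGen (GS D) p q) : ReflTransGen (GS E) p q :=
  rtg_mono (fun _ _ hab => ⟨h _ _ hab.1, h _ _ hab.2.1, hab.2.2⟩) hpq

section Level

variable {X0 X1 Y0 Y1 : ℕ} {F : ℕ → ℕ → ℤ}
  (m1 : ∀ x y, X0 ≤ x → x < X1 → Y0 ≤ y → y ≤ Y1 → F x y ≤ F (x + 1) y)
  (m2 : ∀ x y, X0 ≤ x → x ≤ X1 → Y0 ≤ y → y < Y1 → F x (y + 1) ≤ F x y)
  (m3 : ∀ x y, X0 ≤ x → x < X1 → Y0 ≤ y → y < Y1 → F (x + 1) y ≤ F x (y + 1) + 1)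

/-- the positions of a level -/
def Lev (X0 X1 Y0 Y1 : ℕ) (F : ℕ → ℕ → ℤ) (i : ℤ) (x y : ℕ) : Prop :=
  X0 ≤ x ∧ x ≤ X1 ∧ Y0 ≤ y ∧ y ≤ Y1 ∧ F x y = i

include m1 in
lemma lev_mono1 {y : ℕ} (hy0 : Y0 ≤ y) (hy1 : y ≤ Y1) : ∀ (d x : ℕ), X0 ≤ x → x + d ≤ X1 →
    F x y ≤ F (x + d) y := by
  intro d
  induction d with
  | zero => intro x _ _; exact le_rfl
  | succ d ih =>
    intro x h1 h2
    have h3 := ih x h1 (by omega)
    have h4 := m1 (x + d) y (by omega) (by omega) hy0 hy1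
    rw [show x + (d + 1) = x + d + 1 by omega]
    omega

include m2 in
lemma lev_mono2 {x : ℕ} (hx0 : X0 ≤ x) (hx1 : x ≤ X1) : ∀ (d y : ℕ), Y0 ≤ y → y + d ≤ Y1 →
    F x (y + d) ≤ F x y := by
  intro d
  induction d with
  | zero => intro y _ _; exact le_rfl
  | succ d ih =>
    intro y h1 h2
    have h3 := ih y h1 (by omega)
    have h4 := m2 x (y + d) hx0 hx1 (by omega) (by omega)
    rw [show y + (d + 1) = y + d + 1 by omega]
    omega

include m2 in
lemma lev_col {i : ℤ} {x : ℕ} : ∀ (d y : ℕ), Lev X0 X1 Y0 Y1 F i x y →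
    Lev X0 X1 Y0 Y1 F i x (y + d) →
    ReflTransGen (GS (Lev X0 X1 Y0 Y1 F i)) (x, y) (x, y + d) := by
  intro d
  induction d with
  | zero => intro y _ _; exact ReflTransGen.refl
  | succ d ih =>
    intro y h1 h2
    have h3 : Lev X0 X1 Y0 Y1 F i x (y + d) := by
      obtain ⟨a1, a2, a3, a4, a5⟩ := h1
      obtain ⟨b1, b2, b3, b4, b5⟩ := h2
      have h4 := lev_mono2 m2 a1 a2 d y a3 (by omega)
      have h5 := m2 x (y + d) a1 a2 (by omega) (by omega)
      rw [show y + (d + 1) = y + d + 1 by omega] at b5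
      exact ⟨a1, a2, by omega, by omega, by omega⟩
    refine (ih y h1 h3).tail ⟨h3, h2, ?_⟩
    right; left
    exact ⟨rfl, by show y + (d + 1) = y + d + 1; omega⟩

include m2 in
lemma lev_col' {i : ℤ} {x y y' : ℕ} (h1 : Lev X0 X1 Y0 Y1 F i x y)
    (h2 : Lev X0 X1 Y0 Y1 F i x y') :
    ReflTransGen (GS (Lev X0 X1 Y0 Y1 F i)) (x, y) (x, y') := by
  rcases le_total y y' with h | h
  · obtain ⟨d, rfl⟩ := Nat.exists_eq_add_of_le h
    exact lev_col m2 d y h1 h2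
  · obtain ⟨d, rfl⟩ := Nat.exists_eq_add_of_le h
    exact gs_symm (lev_col m2 d y' h2 h1)

include m1 m2 m3 in
/-- two neighbouring columns of a level are joined -/
lemma lev_next {i : ℤ} {x y x' y' : ℕ} (h1 : Lev X0 X1 Y0 Y1 F i x y)
    (h2 : Lev X0 X1 Y0 Y1 F i x' y') (hx : x < x') :
    ∃ y0, Lev X0 X1 Y0 Y1 F i x y0 ∧ Lev X0 X1 Y0 Y1 F i (x + 1) y0 := by
  obtain ⟨a1, a2, a3, a4, a5⟩ := h1
  obtain ⟨b1, b2, b3, b4, b5⟩ := h2
  by_contra hcon
  push Not at hcon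
  -- every position above is in the level
  have up : ∀ d, y + d ≤ Y1 → F x (y + d) = i ∧ i + 1 ≤ F (x + 1) (y + d) := by
    intro d
    induction d with
    | zero =>
      intro _
      refine ⟨a5, ?_⟩
      have h3 := m1 x y a1 (by omega) a3 a4
      have h4 := hcon y ⟨a1, a2, a3, a4, a5⟩
      by_contra h5
      apply h4
      refine ⟨by omega, by omega, a3, a4, ?_⟩
      show F (x + 1) y = i
      have : F x y = i := a5
      have h6 : ¬ (i + 1 ≤ F (x + 1) y) := h5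
      omega
    | succ d ih =>
      intro hd
      obtain ⟨c1, c2⟩ := ih (by omega)
      have h3 := m3 x (y + d) a1 (by omega) (by omega) (by omega)
      have h4 := m2 x (y + d) a1 a2 (by omega) (by omega)
      have h5 := m1 x (y + d + 1) a1 (by omega) (by omega) (by omega)
      have e1 : F x (y + d + 1) = i := by omega
      rw [show y + (d + 1) = y + d + 1 by omega]
      refine ⟨e1, ?_⟩
      by_contra h6
      apply hcon (y + d + 1) ⟨a1, a2, by omega, by omega, e1⟩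
      exact ⟨by omega, by omega, by omega, by omega, by omega⟩
  obtain ⟨-, h3⟩ := up (Y1 - y) (by omega)
  rw [show y + (Y1 - y) = Y1 by omega] at h3
  have h4 := lev_mono1 m1 (y := Y1) (by omega) le_rfl (x' - (x + 1)) (x + 1) (by omega) (by omega)
  rw [show x + 1 + (x' - (x + 1)) = x' by omega] at h4
  have h5 := lev_mono2 m2 b1 b2 (Y1 - y') y' b3 (by omega)
  rw [show y' + (Y1 - y') = Y1 by omega] at h5
  omega

include m1 m2 m3 in
lemma lev_conn_aux {i : ℤ} : ∀ (d x y x' y' : ℕ), x' = x + d → Lev X0 X1 Y0 Y1 F i x y →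
    Lev X0 X1 Y0 Y1 F i x' y' →
    ReflTransGen (GS (Lev X0 X1 Y0 Y1 F i)) (x, y) (x', y') := by
  intro d
  induction d with
  | zero =>
    intro x y x' y' hx h1 h2
    rw [Nat.add_zero] at hx
    subst hx
    exact lev_col' m2 h1 h2
  | succ d ih =>
    intro x y x' y' hx h1 h2
    obtain ⟨y0, h3, h4⟩ := lev_next m1 m2 m3 h1 h2 (by omega)
    refine (lev_col' m2 h1 h3).trans (ReflTransGen.head (b := (x + 1, y0))
      ⟨h3, h4, Or.inl ⟨rfl, rfl⟩⟩ ?_)
    exact ih (x + 1) y0 x' y' (by omega) h4 h2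

include m1 m2 m3 in
/-- **Levels are connected.** -/
theorem lev_conn {i : ℤ} {x y x' y' : ℕ} (h1 : Lev X0 X1 Y0 Y1 F i x y)
    (h2 : Lev X0 X1 Y0 Y1 F i x' y') :
    ReflTransGen (GS (Lev X0 X1 Y0 Y1 F i)) (x, y) (x', y') := by
  rcases le_total x x' with h | h
  · exact lev_conn_aux m1 m2 m3 (x' - x) x y x' y' (by omega) h1 h2
  · exact gs_symm (lev_conn_aux m1 m2 m3 (x - x') x' y' x y (by omega) h2 h1)

end Level

/-! ## The function of a facet -/

/-- the lane at the north side -/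
def lLo (Q n m x : ℤ) : ℤ := max 0 (min ((x - Q + n) / 2) (min n (m - 1)))

/-- the lane at the south side -/
def lHi (Q a b c m x : ℤ) : ℤ := max (max 0 (a + c - 1)) (min (a + c + (x - Q + b) / 2) (m - 1))

/-- the lane in the middle -/
def lG (Q a n d m x y : ℤ) : ℤ := (Q + min (a + (x - 1)) (m + n + d) - y) / 2

/-- the lane function: `a` strands over the west side, `b` over the south side, `c` through the
southwest corner, `n` over the north side, `d` through the northeast corner, `m` in all -/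
def lF (Q a b c n d m x y : ℤ) : ℤ :=
  max (lLo Q n m x) (min (lG Q a n d m x y) (lHi Q a b c m x))

/-- admissible numbers -/
structure LOk (Q a b c n d e m : ℤ) : Prop where
  a0 : 0 ≤ a
  b0 : 0 ≤ b
  c0 : 0 ≤ c
  c1 : c ≤ 1
  n0 : 0 ≤ n
  d0 : 0 ≤ d
  d1 : d ≤ 1
  e0 : 0 ≤ e
  hin : a + b + c = m
  hout : n + e + d = m
  m1 : 1 ≤ m
  hQ : 2 * m + 3 ≤ Q

lemma lLo_step (Q n m x : ℤ) : lLo Q n m x ≤ lLo Q n m (x + 1) ∧
    lLo Q n m (x + 1) ≤ lLo Q n m x + 1 := by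
  unfold lLo; omega

lemma lHi_step (Q a b c m x : ℤ) : lHi Q a b c m x ≤ lHi Q a b c m (x + 1) ∧
    lHi Q a b c m (x + 1) ≤ lHi Q a b c m x + 1 := by
  unfold lHi; omega

lemma lG_step (Q a n d m x y : ℤ) : lG Q a n d m x y ≤ lG Q a n d m (x + 1) y ∧
    lG Q a n d m x (y + 1) ≤ lG Q a n d m x y ∧
    lG Q a n d m (x + 1) y ≤ lG Q a n d m x (y + 1) + 1 := by
  unfold lG; omega

lemma lF_m1 (Q a b c n d m x y : ℤ) : lF Q a b c n d m x y ≤ lF Q a b c n d m (x + 1) y := by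
  have h1 := lLo_step Q n m x
  have h2 := lHi_step Q a b c m x
  have h3 := lG_step Q a n d m x y
  unfold lF; omega

lemma lF_m2 (Q a b c n d m x y : ℤ) : lF Q a b c n d m x (y + 1) ≤ lF Q a b c n d m x y := by
  have h3 := lG_step Q a n d m x y
  unfold lF; omega

lemma lF_m3 (Q a b c n d m x y : ℤ) :
    lF Q a b c n d m (x + 1) y ≤ lF Q a b c n d m x (y + 1) + 1 := by
  have h1 := lLo_step Q n m x
  have h2 := lHi_step Q a b c m x
  have h3 := lG_step Q a n d m x y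
  unfold lF; omega

section LF

variable {Q a b c n d e m : ℤ} (h : LOk Q a b c n d e m)

include h

lemma lLo_le_lHi (x : ℤ) : lLo Q n m x ≤ lHi Q a b c m x := by
  obtain ⟨h1, h2, h3, h4, h5, h6, h7, h8, h9, h10, h11, h12⟩ := h
  have e1 : (x - Q + n) / 2 ≤ a + c + (x - Q + b) / 2 := by omega
  unfold lLo lHi; omega

lemma lF_W {j y : ℤ} (hj : 0 ≤ j) (hja : j < a) (hy : y = Q + a - 1 - 2 * j) :
    lF Q a b c n d m 1 y = j := by
  obtain ⟨h1, h2, h3, h4, h5, h6, h7, h8, h9, h10, h11, h12⟩ := h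
  have e1 : lLo Q n m 1 = 0 := by unfold lLo; omega
  have e2 : lG Q a n d m 1 y = j := by unfold lG; omega
  have e3 : a - 1 ≤ lHi Q a b c m 1 := by unfold lHi; omega
  unfold lF; omega

lemma lF_E {j y : ℤ} (hj : 0 ≤ j) (hje : j < e) (hy : y = Q + e - 1 - 2 * j) :
    lF Q a b c n d m (2 * Q - 1) y = n + d + j := by
  obtain ⟨h1, h2, h3, h4, h5, h6, h7, h8, h9, h10, h11, h12⟩ := h
  have e1 : lLo Q n m (2 * Q - 1) ≤ n := by unfold lLo; omega
  have e2 : lG Q a n d m (2 * Q - 1) y = n + d + j := by unfold lG; omega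
  have e3 : m - 1 ≤ lHi Q a b c m (2 * Q - 1) := by unfold lHi; omega
  unfold lF; omega

lemma lG_top (x : ℤ) : lG Q a n d m x (2 * Q - 1) ≤ 0 := by
  obtain ⟨h1, h2, h3, h4, h5, h6, h7, h8, h9, h10, h11, h12⟩ := h
  unfold lG; omega

lemma lG_bot {x : ℤ} (hx : 1 ≤ x) : m ≤ lG Q a n d m x 1 := by
  obtain ⟨h1, h2, h3, h4, h5, h6, h7, h8, h9, h10, h11, h12⟩ := h
  unfold lG; omega

lemma lHi_le (x : ℤ) : lHi Q a b c m x ≤ m - 1 := by
  obtain ⟨h1, h2, h3, h4, h5, h6, h7, h8, h9, h10, h11, h12⟩ := h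
  unfold lHi; omega

lemma lF_N {j x : ℤ} (hj : 0 ≤ j) (hjn : j < n) (hx : x = Q - n + 1 + 2 * j) :
    lF Q a b c n d m x (2 * Q - 1) = j := by
  have e2 := lG_top h x
  obtain ⟨h1, h2, h3, h4, h5, h6, h7, h8, h9, h10, h11, h12⟩ := h
  have e1 : lLo Q n m x = j := by unfold lLo; omega
  unfold lF; omega

lemma lF_S {j x : ℤ} (hj : 0 ≤ j) (hjb : j < b) (hx : x = Q - b + 1 + 2 * j) :
    lF Q a b c n d m x 1 = a + c + j := by
  have e4 := lLo_le_lHi h x
  have e5 := lHi_le h x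
  have e2 : m ≤ lG Q a n d m x 1 := lG_bot h (by
    obtain ⟨h1, h2, h3, h4, h5, h6, h7, h8, h9, h10, h11, h12⟩ := h
    omega)
  obtain ⟨h1, h2, h3, h4, h5, h6, h7, h8, h9, h10, h11, h12⟩ := h
  have e1 : lHi Q a b c m x = a + c + j := by unfold lHi; omega
  unfold lF; omega

lemma lF_SW (hc : c = 1) : lF Q a b c n d m 1 1 = a := by
  have e4 := lLo_le_lHi h 1
  have e5 := lHi_le h 1
  have e2 := lG_bot h (le_refl (1 : ℤ))
  obtain ⟨h1, h2, h3, h4, h5, h6, h7, h8, h9, h10, h11, h12⟩ := h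
  have e1 : lHi Q a b c m 1 = a := by unfold lHi; omega
  unfold lF; omega

lemma lF_NE (hd : d = 1) : lF Q a b c n d m (2 * Q - 1) (2 * Q - 1) = n := by
  have e2 := lG_top h (2 * Q - 1)
  obtain ⟨h1, h2, h3, h4, h5, h6, h7, h8, h9, h10, h11, h12⟩ := h
  have e1 : lLo Q n m (2 * Q - 1) = n := by unfold lLo; omega
  unfold lF; omega

end LF

end Pool.Agent.MP42.NE
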