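import Pool.Agent.MP42.NE.Lane

/-!
# Lanes of a facet: all positions, the corners excluded
-/

set_option autoImplicit false

namespace Pool.Agent.MP42.NE

open Pool.Agent.Helper55.UNF Pool.Agent.Helper55.UNF.GridSolid Relation

/-- the window -/
def cl (Q x : ℕ) : ℕ := max 1 (min x (2 * Q - 1))

/-- the positions of the lane `i` -/
def LD (Q a b c n d m : ℕ) (i : ℕ) (x y : ℕ) : Prop :=
  x < 2 * Q + 1 ∧ y < 2 * Q + 1 ∧ lF Q a b c n d m (cl Q x) (cl Q y) = i ∧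
  ((x = 0 ∨ x = 2 * Q) → (y = 0 ∨ y = 2 * Q) →
    (x = 0 ∧ y = 0 ∧ c = 1) ∨ (x = 2 * Q ∧ y = 2 * Q ∧ d = 1))

section

variable {Q a b c n d e m : ℕ} (h : LOk Q a b c n d e m)

include h

lemma cl_eq {x : ℕ} (h1 : 1 ≤ x) (h2 : x ≤ 2 * Q - 1) : cl Q x = x := by
  have := h.hQ; have := h.m1
  unfold cl; omega

lemma cl_bd (x : ℕ) : 1 ≤ cl Q x ∧ cl Q x ≤ 2 * Q - 1 := by
  have := h.hQ; have := h.m1
  unfold cl; omega

lemma LD_win {i x y : ℕ} (hx : 1 ≤ x) (hx' : x ≤ 2 * Q - 1) (hy : 1 ≤ y) (hy' : y ≤ 2 * Q - 1)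
    (hF : lF Q a b c n d m x y = i) : LD Q a b c n d m i x y := by
  have := h.hQ; have := h.m1
  refine ⟨by omega, by omega, ?_, fun h1 => by omega⟩
  rw [cl_eq h hx hx', cl_eq h hy hy']
  exact hF

lemma LD_cl {i x y : ℕ} (hD : LD Q a b c n d m i x y) :
    LD Q a b c n d m i (cl Q x) (cl Q y) := by
  have h1 := cl_bd h x
  have h2 := cl_bd h y
  exact LD_win h h1.1 h1.2 h2.1 h2.2 hD.2.2.1

lemma LD_path {i x y : ℕ} (hD : LD Q a b c n d m i x y) :
    ReflTransGen (GS (LD Q a b c n d m i)) (x, y) (cl Q x, cl Q y) := by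
  have hq := h.hQ
  have hm := h.m1
  have h1 := cl_bd h x
  have h2 := cl_bd h y
  have e1 : cl Q x = max 1 (min x (2 * Q - 1)) := rfl
  have e2 : cl Q y = max 1 (min y (2 * Q - 1)) := rfl
  -- first move x
  have hmid : LD Q a b c n d m i (cl Q x) y := by
    refine ⟨by omega, hD.2.1, ?_, fun h3 => by omega⟩
    rw [cl_eq h h1.1 h1.2]
    exact hD.2.2.1
  have s1 : ReflTransGen (GS (LD Q a b c n d m i)) (x, y) (cl Q x, y) := by
    by_cases h3 : cl Q x = x
    · rw [h3]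
    · refine ReflTransGen.single ⟨hD, hmid, ?_⟩
      have := hD.1
      show (cl Q x = x + 1 ∧ y = y) ∨ (cl Q x = x ∧ y = y + 1) ∨ (x = cl Q x + 1 ∧ y = y) ∨
        (x = cl Q x ∧ y = y + 1)
      omega
  have s2 : ReflTransGen (GS (LD Q a b c n d m i)) (cl Q x, y) (cl Q x, cl Q y) := by
    by_cases h3 : cl Q y = y
    · rw [h3]
    · refine ReflTransGen.single ⟨hmid, LD_cl h hD, ?_⟩
      have := hD.2.1
      show (cl Q x = cl Q x + 1 ∧ cl Q y = y) ∨ (cl Q x = cl Q x ∧ cl Q y = y + 1) ∨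
        (cl Q x = cl Q x + 1 ∧ cl Q y = y) ∨ (cl Q x = cl Q x ∧ y = cl Q y + 1)
      omega
  exact s1.trans s2

/-- **Lanes are connected.** -/
theorem LD_conn {i x y x' y' : ℕ} (h1 : LD Q a b c n d m i x y) (h2 : LD Q a b c n d m i x' y') :
    ReflTransGen (GS (LD Q a b c n d m i)) (x, y) (x', y') := by
  refine (LD_path h h1).trans (ReflTransGen.trans ?_ (gs_symm (LD_path h h2)))
  have b1 := cl_bd h x
  have b2 := cl_bd h y
  have b3 := cl_bd h x'
  have b4 := cl_bd h y'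
  refine gs_mono (D := Lev 1 (2 * Q - 1) 1 (2 * Q - 1) (fun x y => lF Q a b c n d m x y) i)
    (fun x y hl => LD_win h hl.1 hl.2.1 hl.2.2.1 hl.2.2.2.1 hl.2.2.2.2) ?_
  apply lev_conn (F := fun x y => lF Q a b c n d m x y)
  · intro x y _ _ _ _
    have := lF_m1 Q a b c n d m x y
    push_cast
    exact this
  · intro x y _ _ _ _
    have := lF_m2 Q a b c n d m x y
    push_cast
    exact this
  · intro x y _ _ _ _
    have := lF_m3 Q a b c n d m x y
    push_cast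
    exact this
  · exact ⟨b1.1, b1.2, b2.1, b2.2, h1.2.2.1⟩
  · exact ⟨b3.1, b3.2, b4.1, b4.2, h2.2.2.1⟩

lemma LD_W {j : ℕ} (hj : j < a) : LD Q a b c n d m j 0 (Q + a - 1 - 2 * j) := by
  have hq := h.hQ; have hm := h.m1; have h3 := h.hin; have h4 := h.hout
  refine ⟨by omega, by omega, ?_, fun _ h1 => by omega⟩
  have e1 : cl Q 0 = 1 := by unfold cl; omega
  rw [e1, cl_eq h (by omega) (by omega)]
  exact lF_W h (j := j) (by omega) (by omega) (by omega)

lemma LD_E {j : ℕ} (hj : j < e) : LD Q a b c n d m (n + d + j) (2 * Q) (Q + e - 1 - 2 * j) := by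
  have hq := h.hQ; have hm := h.m1; have h3 := h.hin; have h4 := h.hout
  refine ⟨by omega, by omega, ?_, fun _ h1 => by omega⟩
  have e1 : ((cl Q (2 * Q) : ℕ) : ℤ) = 2 * Q - 1 := by unfold cl; omega
  rw [e1, cl_eq h (by omega) (by omega), lF_E h (j := j) (by omega) (by omega) (by omega)]
  push_cast; ring

lemma LD_N {j : ℕ} (hj : j < n) : LD Q a b c n d m j (Q + 1 + 2 * j - n) (2 * Q) := by
  have hq := h.hQ; have hm := h.m1; have h3 := h.hin; have h4 := h.hout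
  refine ⟨by omega, by omega, ?_, fun h1 => by omega⟩
  have e1 : ((cl Q (2 * Q) : ℕ) : ℤ) = 2 * Q - 1 := by unfold cl; omega
  rw [e1, cl_eq h (by omega) (by omega)]
  exact lF_N h (j := j) (by omega) (by omega) (by omega)

lemma LD_S {j : ℕ} (hj : j < b) : LD Q a b c n d m (a + c + j) (Q + 1 + 2 * j - b) 0 := by
  have hq := h.hQ; have hm := h.m1; have h3 := h.hin; have h4 := h.hout
  refine ⟨by omega, by omega, ?_, fun h1 => by omega⟩
  have e1 : cl Q 0 = 1 := by unfold cl; omega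
  rw [e1, cl_eq h (by omega) (by omega), Nat.cast_one,
    lF_S h (j := j) (by omega) (by omega) (by omega)]
  push_cast; ring

lemma LD_SW (hc : c = 1) : LD Q a b c n d m a 0 0 := by
  have hq := h.hQ; have hm := h.m1
  refine ⟨by omega, by omega, ?_, fun _ _ => Or.inl ⟨rfl, rfl, hc⟩⟩
  have e1 : cl Q 0 = 1 := by unfold cl; omega
  rw [e1, Nat.cast_one]
  exact lF_SW h (by omega)

lemma LD_NE (hd : d = 1) : LD Q a b c n d m n (2 * Q) (2 * Q) := by
  have hq := h.hQ; have hm := h.m1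
  refine ⟨by omega, by omega, ?_, fun _ _ => Or.inr ⟨rfl, rfl, hd⟩⟩
  have e1 : ((cl Q (2 * Q) : ℕ) : ℤ) = 2 * Q - 1 := by unfold cl; omega
  rw [e1]
  exact lF_NE h (by omega)

end

lemma LD_unique {Q a b c n d m i j x y : ℕ} (h1 : LD Q a b c n d m i x y)
    (h2 : LD Q a b c n d m j x y) : i = j := by
  have := h1.2.2.1.symm.trans h2.2.2.1
  exact_mod_cast this

/-! ## Transfer to the cells of the refinement -/

variable {P : GridSolid} {K : ℕ} {hK : 0 < K}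

lemma gs_cells {t : P.FSt} {D : ℕ → ℕ → Prop} (hD : ∀ x y, D x y → x < K ∧ y < K)
    {p q : ℕ × ℕ} (hpq : ReflTransGen (GS D) p q) {f g : (P.refine K hK).Facet}
    (hf : At t p.1 p.2 f) (hg : At t q.1 q.2 g) :
    ReflTransGen (fun a b => (∃ x y, At t x y a ∧ D x y) ∧ (∃ x y, At t x y b ∧ D x y) ∧ Nb a b)
      f g := by
  induction hpq generalizing g with
  | refl => rw [hf.inj hg]
  | @tail u v _ huv ih =>
    obtain ⟨h1, h2, h3⟩ := huv
    have h4 := hD _ _ h1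
    obtain ⟨w, hw⟩ := ex_at hK t h4.1 h4.2
    refine (ih hw).tail ⟨⟨_, _, hw, h1⟩, ⟨_, _, hg, h2⟩, ?_⟩
    rcases h3 with ⟨e1, e2⟩ | ⟨e1, e2⟩ | ⟨e1, e2⟩ | ⟨e1, e2⟩
    · rw [e1, e2] at hg; exact nb_E hw hg
    · rw [e1, e2] at hg; exact nb_N hw hg
    · rw [e1, ← e2] at hw; exact (nb_E hg hw).symm
    · rw [e1, e2] at hw; exact (nb_N hg hw).symm

end Pool.Agent.MP42.NE
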