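import Pool.Agent.MP42.NE.KCur2

/-!
# Curves with several strands through a vertex (owner helper18)

As in `KCur`, but any number of strands may leave a facet through its northeast corner.  The
strand number `m t` keeps the corner; the strands on its right and on its left are pushed off the
vertex and cross the three sides on the right and on the left of the vertex.
-/

set_option autoImplicit false

namespace Pool.Agent.MP42.NE

open Pool.Agent.Helper55.UNF Pool.Agent.Helper55.UNF.GridSolid Relation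

variable {P : GridSolid}

/-- A simple closed curve: `n t` crossings of the east side of `t`, `k t` strands through the
northeast corner of `t`.  The places of `t` are the pairs `(t, j)` with `j < n t` (crossings, from
south to north) and `n t ≤ j < n t + k t` (strands through the corner, counterclockwise). -/
structure MCur (P : GridSolid) where
  bs : P.Facet → P.FSt
  bs_f : ∀ F, (bs F).facet = F
  n : P.FSt → ℕ
  n_sym : ∀ t, n t.stE.r2 = n t
  k : P.FSt → ℕ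
  m : P.FSt → ℕ
  m0 : ∀ t, k t = 0 → m t = 0
  k_ok : ∀ t, k t ≠ 0 → PassOk t
  k_op : ∀ t, k t ≠ 0 → k (opq t).r2 = k t
  m_op : ∀ t, k t ≠ 0 → m t + m (opq t).r2 + 1 = k t
  k_u1 : ∀ t, k t ≠ 0 → k (rho t) = 0
  k_u2 : ∀ t, k t ≠ 0 → k (rho (rho t)) = 0
  k_u3 : ∀ t, k t ≠ 0 → (opq t).facet ≠ t.facet
  mu : P.FSt × ℕ → P.FSt × ℕ
  mu_va : ∀ p : P.FSt × ℕ, p.2 < n p.1 + k p.1 → (mu p).2 < n (mu p).1 + k (mu p).1
  mu_f : ∀ p : P.FSt × ℕ, p.2 < n p.1 + k p.1 → (mu p).1.facet = p.1.facet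
  mu_mu : ∀ p : P.FSt × ℕ, p.2 < n p.1 + k p.1 → mu (mu p) = p
  mu_ne : ∀ p : P.FSt × ℕ, p.2 < n p.1 + k p.1 → mu p ≠ p

namespace MCur

variable (A : MCur P)

/-- valid places -/
def Va (p : P.FSt × ℕ) : Prop := p.2 < A.n p.1 + A.k p.1

/-- the place is a corner -/
def Co (p : P.FSt × ℕ) : Prop := A.n p.1 ≤ p.2

instance (p : P.FSt × ℕ) : Decidable (A.Co p) := inferInstanceAs (Decidable (_ ≤ _))

/-- number of places on the sides before side `q` -/
def off (q : ℕ) (t : P.FSt) : ℕ :=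
  if q = 0 then 0 else if q = 1 then A.n t + A.k t
  else if q = 2 then (A.n t + A.k t) + (A.n t.rL + A.k t.rL)
  else (A.n t + A.k t) + (A.n t.rL + A.k t.rL) + (A.n t.r2 + A.k t.r2)

open Classical in
/-- number of a side -/
noncomputable def sd (t : P.FSt) : ℕ :=
  if h : ∃ q < 4, t = rt q (A.bs t.facet) then choose h else 0

lemma sd_spec (t : P.FSt) : A.sd t < 4 ∧ t = rt (A.sd t) (A.bs t.facet) := by
  have h : ∃ q < 4, t = rt q (A.bs t.facet) := ex_rt (A.bs_f _).symm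
  unfold sd
  rw [dif_pos h]
  exact Classical.choose_spec h

/-- number of a place on the boundary of its facet -/
noncomputable def ix (p : P.FSt × ℕ) : ℕ := A.off (A.sd p.1) (A.bs p.1.facet) + p.2

/-- the same place seen from the other facet -/
def io (p : P.FSt × ℕ) : P.FSt × ℕ :=
  if A.Co p then ((opq p.1).r2, A.n (opq p.1).r2 + (A.n p.1 + A.k p.1 - 1 - p.2))
  else (p.1.stE.r2, A.n p.1 - 1 - p.2)

/-- the chords of a facet do not cross -/
def NC : Prop := ∀ p p' : P.FSt × ℕ, A.Va p → A.Va p' → p.1.facet = p'.1.facet →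
  A.ix p < A.ix p' → A.ix p' < A.ix (A.mu p) →
  A.ix p < A.ix (A.mu p') ∧ A.ix (A.mu p') < A.ix (A.mu p)

variable {A}

lemma io_co {p : P.FSt × ℕ} (hc : A.Co p) :
    A.io p = ((opq p.1).r2, A.n (opq p.1).r2 + (A.n p.1 + A.k p.1 - 1 - p.2)) := if_pos hc

lemma io_not {p : P.FSt × ℕ} (hc : ¬ A.Co p) : A.io p = (p.1.stE.r2, A.n p.1 - 1 - p.2) := if_neg hc

lemma co_data {p : P.FSt × ℕ} (h : A.Va p) (hc : A.Co p) : A.k p.1 ≠ 0 := by
  have h2 : p.2 < A.n p.1 + A.k p.1 := h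
  have h3 : A.n p.1 ≤ p.2 := hc
  omega

lemma io_va {p : P.FSt × ℕ} (h : A.Va p) : A.Va (A.io p) := by
  by_cases hc : A.Co p
  · rw [io_co hc]
    have h1 := co_data h hc
    have h3 := A.k_op _ h1
    have h2 : p.2 < A.n p.1 + A.k p.1 := h
    have h4 : A.n p.1 ≤ p.2 := hc
    show A.n (opq p.1).r2 + (A.n p.1 + A.k p.1 - 1 - p.2) < A.n (opq p.1).r2 + A.k (opq p.1).r2
    omega
  · rw [io_not hc]
    show A.n p.1 - 1 - p.2 < A.n p.1.stE.r2 + A.k p.1.stE.r2
    rw [A.n_sym]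
    have h3 : ¬ A.n p.1 ≤ p.2 := hc
    omega

lemma io_Co {p : P.FSt × ℕ} : A.Co (A.io p) ↔ A.Co p := by
  by_cases hc : A.Co p
  · rw [io_co hc]
    exact ⟨fun _ => hc, fun _ => Nat.le_add_right _ _⟩
  · rw [io_not hc]
    refine ⟨fun h2 => ?_, fun h => absurd h hc⟩
    exfalso
    have h3 : A.n p.1.stE.r2 ≤ A.n p.1 - 1 - p.2 := h2
    rw [A.n_sym] at h3
    have h4 : ¬ A.n p.1 ≤ p.2 := hc
    omega

lemma io_io {p : P.FSt × ℕ} (h : A.Va p) : A.io (A.io p) = p := by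
  by_cases hc : A.Co p
  · have h1 := co_data h hc
    rw [io_co (io_Co.2 hc), io_co hc]
    have h2 : p.2 < A.n p.1 + A.k p.1 := h
    have h4 : A.n p.1 ≤ p.2 := hc
    refine Prod.ext ?_ ?_
    · show (opq (opq p.1).r2).r2 = p.1
      rw [opq_opq (A.k_ok _ h1), FSt.r2_r2]
    · show A.n (opq (opq p.1).r2).r2 + (A.n (opq p.1).r2 + A.k (opq p.1).r2 - 1 -
        (A.n (opq p.1).r2 + (A.n p.1 + A.k p.1 - 1 - p.2))) = p.2
      rw [opq_opq (A.k_ok _ h1), FSt.r2_r2, A.k_op _ h1]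
      omega
  · have hc' : ¬ A.Co (A.io p) := fun h' => hc (io_Co.1 h')
    rw [io_not hc', io_not hc]
    have h4 : ¬ A.n p.1 ≤ p.2 := hc
    show (p.1.stE.r2.stE.r2, A.n p.1.stE.r2 - 1 - (A.n p.1 - 1 - p.2)) = p
    rw [A.n_sym, FSt.stE_inv, FSt.r2_r2]
    exact Prod.ext rfl (by show A.n p.1 - 1 - (A.n p.1 - 1 - p.2) = p.2; omega)

lemma io_facet {p : P.FSt × ℕ} (h : A.Va p) : (A.io p).1.facet ≠ p.1.facet := by
  by_cases hc : A.Co p
  · rw [io_co hc]
    exact A.k_u3 _ (co_data h hc)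
  · rw [io_not hc]
    exact FSt.stE_facet_ne p.1

variable (A)

lemma fin_va : Set.Finite {p : P.FSt × ℕ | A.Va p} := by
  obtain ⟨k, hk⟩ : ∃ k, ∀ t : P.FSt, A.n t + A.k t ≤ k := by
    have : Finite P.FSt := inferInstance
    obtain ⟨k, hk⟩ := (Set.finite_range (fun t => A.n t + A.k t)).bddAbove
    exact ⟨k, fun t => hk ⟨t, rfl⟩⟩
  apply Set.Finite.subset (s := (Set.univ : Set P.FSt) ×ˢ (Set.Iio k))
  · exact Set.Finite.prod (Set.toFinite _) (Set.finite_Iio k)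
  · rintro ⟨t, j⟩ h
    exact ⟨trivial, lt_of_lt_of_le h (hk t)⟩

/-- the strands of the curve -/
def orb : Orb (P.FSt × ℕ) where
  Va := A.Va
  sc := fun p => A.mu (A.io p)
  rv := A.mu
  fin := A.fin_va
  sc_va := fun h => A.mu_va _ (io_va h)
  rv_va := fun h => A.mu_va _ h
  rv_rv := fun h => A.mu_mu _ h
  sc_rv_sc := fun {p} h => by
    show A.mu (A.io (A.mu (A.mu (A.io p)))) = A.mu p
    rw [A.mu_mu _ (io_va h), io_io h]
  sc_ne_rv := fun {p} h hcon => by
    have h1 : (A.mu (A.io p)).1.facet = (A.mu p).1.facet := by rw [hcon]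
    rw [A.mu_f _ (io_va h), A.mu_f _ h] at h1
    exact io_facet h h1
  rv_ne := fun h => A.mu_ne _ h

/-- Frames along the curve: `w p` is the frame in the facet left at the place `p`, `mo p` the move
over an ordinary place, `ty p` the type at a corner. -/
structure Fr where
  w : P.FSt × ℕ → P.FSt
  mo : P.FSt × ℕ → Mv
  ty : P.FSt × ℕ → Bool
  wf : ∀ p, A.Va p → (w p).facet = p.1.facet
  wk : ∀ p, A.Va p → A.Co p → w p = wfr (ty p) 0 p.1
  wm : ∀ p, A.Va p → ¬ A.Co p →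
    p.1 = sdm (mo p) (w p) ∧ (mo p).ap (w p) = w (A.mu (A.io p))
  wc : ∀ p, A.Va p → A.Co p → w (A.mu (A.io p)) = wfr (!(ty p)) 0 (opq p.1)
  turn : ∀ p, A.Va p →
    ¬ ((if A.Co p then PFlow.pmv (ty p) 2 else mo p) = Mv.N ∧
      (if A.Co (A.mu (A.io p)) then PFlow.pmv (ty (A.mu (A.io p))) 0
        else mo (A.mu (A.io p))) = Mv.S) ∧
    ¬ ((if A.Co p then PFlow.pmv (ty p) 2 else mo p) = Mv.S ∧
      (if A.Co (A.mu (A.io p)) then PFlow.pmv (ty (A.mu (A.io p))) 0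
        else mo (A.mu (A.io p))) = Mv.N)
  tyR : ∀ p, A.Va p → A.Co p → p.2 < A.n p.1 + A.m p.1 → ty p = true
  tyL : ∀ p, A.Va p → A.n p.1 + A.m p.1 < p.2 → ty p = false

/-! ## The new curve -/

/-- additional crossings at the north end of the east side -/
def xe (t : P.FSt) : ℕ := A.m t + A.m (rho t) + A.m (rho (rho t))

/-- additional crossings at the south end of the east side -/
def xs (t : P.FSt) : ℕ := A.xe t.stE.r2

/-- crossings of the new curve -/
def n' (t : P.FSt) : ℕ := A.xs t + A.n t + A.xe t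

/-- corners of the new curve -/
def k' (t : P.FSt) : ℕ := if A.k t = 0 then 0 else 1

/-- the new position of an old place -/
def pl (p : P.FSt × ℕ) : P.FSt × ℕ :=
  if A.n p.1 + A.m p.1 < p.2 then (p.1.rL, p.2 - (A.n p.1 + A.m p.1 + 1))
  else (p.1, A.xs p.1 + p.2)

/-- the place of the new curve is old -/
def Ol (q : P.FSt × ℕ) : Prop :=
  if q.2 < A.xs q.1 then A.k q.1.rR ≠ 0 else (q.2 < A.xs q.1 + A.n q.1 ∨ A.k q.1 ≠ 0)

instance (q : P.FSt × ℕ) : Decidable (A.Ol q) := by unfold Ol; infer_instance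

/-- the old position -/
def un (q : P.FSt × ℕ) : P.FSt × ℕ :=
  if q.2 < A.xs q.1 then (q.1.rR, A.n q.1.rR + A.m q.1.rR + 1 + q.2) else (q.1, q.2 - A.xs q.1)

/-- the chords of the new curve -/
def mu' (q : P.FSt × ℕ) : P.FSt × ℕ :=
  if A.Ol q then A.pl (A.mu (A.un q))
  else if q.2 < A.xs q.1 then (q.1.rR, A.n' q.1.rR - 1 - q.2)
  else (q.1.rL, A.n' q.1 - 1 - q.2)

variable {A}

lemma rho_eq (t : P.FSt) : t.rL.stE.r2 = rho t := rfl

lemma xs_rL (t : P.FSt) : A.xs t.rL = A.xe (rho t) := rfl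

lemma xs_E (t : P.FSt) : A.xs t.stE.r2 = A.xe t := by
  unfold xs
  rw [FSt.stE_inv, FSt.r2_r2]

lemma n'_sym (t : P.FSt) : A.n' t.stE.r2 = A.n' t := by
  unfold n'
  rw [xs_E, A.n_sym]
  show A.xe t + A.n t + A.xs t = _
  omega

/-! ### The six quarters at a used corner -/

lemma m_pos {t : P.FSt} (h : A.k t = 0) : A.m t = 0 := A.m0 t h

/-- the opposite quarter -/
lemma k3 {t : P.FSt} (h : A.k t ≠ 0) : A.k (rho (rho (rho t))) ≠ 0 := by
  rw [rho3 (A.k_ok t h), A.k_op t h]; exact h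

lemma r6 {t : P.FSt} (h : A.k t ≠ 0) : rho (rho (rho (rho (rho (rho t))))) = t := by
  rw [rho3 (A.k_ok t h), rho6]

lemma k4 {t : P.FSt} (h : A.k t ≠ 0) : A.k (rho (rho (rho (rho t)))) = 0 := A.k_u1 _ (k3 h)

lemma k5 {t : P.FSt} (h : A.k t ≠ 0) : A.k (rho (rho (rho (rho (rho t))))) = 0 := A.k_u2 _ (k3 h)

lemma m3 {t : P.FSt} (h : A.k t ≠ 0) : A.m t + A.m (rho (rho (rho t))) + 1 = A.k t := by
  rw [rho3 (A.k_ok t h)]; exact A.m_op t h

/-- a used corner -/
lemma used {u : P.FSt} (h : A.k u ≠ 0) : A.xe u = A.m u ∧ A.xe u + A.xs u.rL + 1 = A.k u := by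
  have h1 := A.m0 _ (A.k_u1 u h)
  have h2 := A.m0 _ (A.k_u2 u h)
  have h3 := m3 h
  rw [xs_rL]
  unfold xe
  omega

/-- the quarters between -/
lemma between {u : P.FSt} (h : A.k u = 0) : (A.xe u = 0 ∧ A.xs u.rL = 0) ∨
    (A.k (rho u) ≠ 0 ∧ A.xe u = A.m (rho u) ∧ A.xs u.rL = A.m (rho u)) ∨
    (A.k (rho (rho u)) ≠ 0 ∧ A.xe u = A.m (rho (rho u)) ∧ A.xs u.rL = A.m (rho (rho u))) := by
  have h0 := A.m0 u h
  by_cases h1 : A.k (rho u) = 0
  · by_cases h2 : A.k (rho (rho u)) = 0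
    · have h3 : A.k (rho (rho (rho u))) = 0 := by
        by_contra h3
        have h4 := k3 h3
        have h5 := r6 h3
        have h6 : rho (rho (rho (rho (rho (rho u))))) = u :=
          rho_inj (rho_inj (rho_inj h5))
        rw [h6] at h4
        exact h4 h
      left
      rw [xs_rL]
      unfold xe
      rw [A.m0 _ h1, A.m0 _ h2, A.m0 _ h3, h0]
      exact ⟨rfl, rfl⟩
    · right; right
      rw [xs_rL]
      unfold xe
      rw [A.m0 _ h1, A.m0 _ (A.k_u1 _ h2), h0]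
      exact ⟨h2, by omega, by omega⟩
  · right; left
    rw [xs_rL]
    unfold xe
    rw [A.m0 _ (A.k_u1 _ h1), A.m0 _ (A.k_u2 _ h1), h0]
    exact ⟨h1, by omega, by omega⟩

lemma eq_x {u : P.FSt} (h : A.k u = 0) : A.xs u.rL = A.xe u := by
  rcases between h with h1 | h1 | h1
  · omega
  · exact h1.2.2.trans h1.2.1.symm
  · exact h1.2.2.trans h1.2.1.symm

end MCur

end Pool.Agent.MP42.NE
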