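import Pool.Agent.MP42.NE.MCur

/-!
# Curves with several strands through a vertex: the new curve (owner helper18)
-/

set_option autoImplicit false

namespace Pool.Agent.MP42.NE

open Pool.Agent.Helper55.UNF Pool.Agent.Helper55.UNF.GridSolid Relation

variable {P : GridSolid}

namespace MCur

variable {A : MCur P}

/-- valid places of the new curve -/
def Vb (A : MCur P) (q : P.FSt × ℕ) : Prop := q.2 < A.n' q.1 + A.k' q.1

lemma k'_zero {t : P.FSt} (h : A.k t = 0) : A.k' t = 0 := if_pos h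

lemma k'_one {t : P.FSt} (h : A.k t ≠ 0) : A.k' t = 1 := if_neg h

lemma k'_le (t : P.FSt) : A.k' t ≤ 1 := by
  unfold k'; split_ifs <;> omega

lemma k'_iff {t : P.FSt} : A.k' t = 1 ↔ A.k t ≠ 0 := by
  unfold k'
  split_ifs with h
  · exact ⟨fun h' => absurd h' (by decide), fun h' => absurd h h'⟩
  · exact ⟨fun _ => h, fun _ => rfl⟩

/-- the two kinds of old places -/
lemma pl_cases {p : P.FSt × ℕ} (h : A.Va p) :
    (A.k p.1 ≠ 0 ∧ A.n p.1 + A.m p.1 < p.2 ∧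
      A.pl p = (p.1.rL, p.2 - (A.n p.1 + A.m p.1 + 1)) ∧
      p.2 - (A.n p.1 + A.m p.1 + 1) < A.xs p.1.rL) ∨
    (p.2 ≤ A.n p.1 + A.m p.1 ∧ (p.2 < A.n p.1 ∨ A.k p.1 ≠ 0) ∧
      A.pl p = (p.1, A.xs p.1 + p.2) ∧ p.2 < A.n p.1 + A.xe p.1 + A.k' p.1) := by
  have h1 : p.2 < A.n p.1 + A.k p.1 := h
  by_cases c : A.n p.1 + A.m p.1 < p.2
  · left
    have h2 : A.k p.1 ≠ 0 := by omega
    obtain ⟨u1, u2⟩ := used h2
    exact ⟨h2, c, if_pos c, by omega⟩
  · right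
    refine ⟨by omega, by omega, if_neg c, ?_⟩
    by_cases h2 : A.k p.1 = 0
    · rw [k'_zero h2]; omega
    · obtain ⟨u1, u2⟩ := used h2
      rw [k'_one h2]; omega

lemma pl_va {p : P.FSt × ℕ} (h : A.Va p) : A.Vb (A.pl p) := by
  rcases pl_cases h with ⟨h1, h2, h3, h4⟩ | ⟨h1, h2, h3, h4⟩
  · rw [h3]
    show p.2 - (A.n p.1 + A.m p.1 + 1) < A.n' p.1.rL + A.k' p.1.rL
    unfold n'; omega
  · rw [h3]
    show A.xs p.1 + p.2 < A.n' p.1 + A.k' p.1
    unfold n'; omega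

lemma pl_facet (p : P.FSt × ℕ) : (A.pl p).1.facet = p.1.facet := by
  unfold pl; split_ifs <;> rfl

lemma un_facet (p : P.FSt × ℕ) : (A.un p).1.facet = p.1.facet := by
  unfold un; split_ifs <;> rfl

lemma pl_ol {p : P.FSt × ℕ} (h : A.Va p) : A.Ol (A.pl p) := by
  unfold Ol
  rcases pl_cases h with ⟨h1, h2, h3, h4⟩ | ⟨h1, h2, h3, h4⟩
  · rw [h3, if_pos (show _ < _ from h4)]
    show A.k p.1.rL.rR ≠ 0
    rw [FSt.rL_rR]; exact h1
  · rw [h3, if_neg (by show ¬ A.xs p.1 + p.2 < A.xs p.1; omega)]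
    show A.xs p.1 + p.2 < A.xs p.1 + A.n p.1 ∨ A.k p.1 ≠ 0
    omega

lemma un_pl {p : P.FSt × ℕ} (h : A.Va p) : A.un (A.pl p) = p := by
  unfold un
  rcases pl_cases h with ⟨h1, h2, h3, h4⟩ | ⟨h1, h2, h3, h4⟩
  · rw [h3, if_pos (show _ < _ from h4)]
    show (p.1.rL.rR, A.n p.1.rL.rR + A.m p.1.rL.rR + 1 + (p.2 - (A.n p.1 + A.m p.1 + 1))) = p
    rw [FSt.rL_rR]
    exact Prod.ext rfl (by dsimp only; omega)
  · rw [h3, if_neg (by show ¬ A.xs p.1 + p.2 < A.xs p.1; omega)]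
    exact Prod.ext rfl (by dsimp only; omega)

/-- the four kinds of new places -/
lemma un_cases {q : P.FSt × ℕ} (h : A.Vb q) :
    (A.Ol q ∧ q.2 < A.xs q.1 ∧ A.k q.1.rR ≠ 0 ∧
      A.un q = (q.1.rR, A.n q.1.rR + A.m q.1.rR + 1 + q.2) ∧
      A.m q.1.rR + 1 + q.2 < A.k q.1.rR) ∨
    (A.Ol q ∧ A.xs q.1 ≤ q.2 ∧ (q.2 < A.xs q.1 + A.n q.1 ∨ A.k q.1 ≠ 0) ∧
      A.un q = (q.1, q.2 - A.xs q.1) ∧ q.2 - A.xs q.1 < A.n q.1 + A.k q.1 ∧
      q.2 ≤ A.xs q.1 + A.n q.1 + A.m q.1) ∨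
    (¬ A.Ol q ∧ q.2 < A.xs q.1 ∧ A.k q.1.rR = 0 ∧ A.xe q.1.rR = A.xs q.1 ∧
      A.mu' q = (q.1.rR, A.n' q.1.rR - 1 - q.2)) ∨
    (¬ A.Ol q ∧ A.xs q.1 + A.n q.1 ≤ q.2 ∧ q.2 < A.n' q.1 ∧ A.k q.1 = 0 ∧
      A.xs q.1.rL = A.xe q.1 ∧ A.mu' q = (q.1.rL, A.n' q.1 - 1 - q.2)) := by
  have h0 : q.2 < A.n' q.1 + A.k' q.1 := h
  by_cases c : q.2 < A.xs q.1
  · by_cases c2 : A.k q.1.rR = 0
    · right; right; left
      have h1 : ¬ A.Ol q := by
        unfold Ol; rw [if_pos c]; exact not_not.2 c2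
      refine ⟨h1, c, c2, ?_, ?_⟩
      · have := eq_x c2
        rw [FSt.rR_rL] at this
        exact this.symm
      · unfold mu'; rw [if_neg h1, if_pos c]
    · left
      have h1 : A.Ol q := by
        unfold Ol; rw [if_pos c]; exact c2
      obtain ⟨u1, u2⟩ := used c2
      rw [FSt.rR_rL] at u2
      exact ⟨h1, c, c2, if_pos c, by omega⟩
  · by_cases c2 : q.2 < A.xs q.1 + A.n q.1 ∨ A.k q.1 ≠ 0
    · right; left
      have h1 : A.Ol q := by
        unfold Ol; rw [if_neg c]; exact c2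
      refine ⟨h1, by omega, c2, if_neg c, ?_⟩
      by_cases c3 : A.k q.1 = 0
      · omega
      · obtain ⟨u1, u2⟩ := used c3
        rw [k'_one c3] at h0
        unfold n' at h0
        omega
    · right; right; right
      have h1 : ¬ A.Ol q := by
        unfold Ol; rw [if_neg c]; exact c2
      have c3 : A.k q.1 = 0 := by omega
      rw [k'_zero c3] at h0
      refine ⟨h1, by omega, by omega, c3, eq_x c3, ?_⟩
      unfold mu'; rw [if_neg h1, if_neg c]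

lemma un_va {q : P.FSt × ℕ} (h : A.Vb q) (ho : A.Ol q) : A.Va (A.un q) := by
  rcases un_cases h with ⟨h1, h2, h3, h4, h5⟩ | ⟨h1, h2, h3, h4, h5, -⟩ | ⟨h1, -⟩ | ⟨h1, -⟩
  · rw [h4]
    show A.n q.1.rR + A.m q.1.rR + 1 + q.2 < A.n q.1.rR + A.k q.1.rR
    omega
  · rw [h4]; exact h5
  · exact absurd ho h1
  · exact absurd ho h1

lemma pl_un {q : P.FSt × ℕ} (h : A.Vb q) (ho : A.Ol q) : A.pl (A.un q) = q := by
  rcases un_cases h with ⟨h1, h2, h3, h4, h5⟩ | ⟨h1, h2, h3, h4, h5, h6⟩ | ⟨h1, -⟩ | ⟨h1, -⟩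
  · rw [h4]
    unfold pl
    rw [if_pos (by dsimp only; omega)]
    refine Prod.ext (FSt.rR_rL _) ?_
    dsimp only; omega
  · rw [h4]
    unfold pl
    rw [if_neg (by dsimp only; omega)]
    exact Prod.ext rfl (by dsimp only; omega)
  · exact absurd ho h1
  · exact absurd ho h1

lemma mu'_old {q : P.FSt × ℕ} (ho : A.Ol q) : A.mu' q = A.pl (A.mu (A.un q)) := if_pos ho

lemma mu'_pl {p : P.FSt × ℕ} (h : A.Va p) : A.mu' (A.pl p) = A.pl (A.mu p) := by
  rw [mu'_old (pl_ol h), un_pl h]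

/-- the other end of a cut, east side -/
lemma cutE {u : P.FSt} (h : A.k u = 0) {i : ℕ} (hi : i < A.xe u) :
    ¬ A.Ol (u, A.n' u - 1 - i) ∧ A.Vb (u, A.n' u - 1 - i) ∧
      A.mu' (u, A.n' u - 1 - i) = (u.rL, i) := by
  have hn : A.n' u = A.xs u + A.n u + A.xe u := rfl
  have hv : A.Vb (u, A.n' u - 1 - i) := by
    show A.n' u - 1 - i < A.n' u + A.k' u
    omega
  rcases un_cases hv with ⟨h1, h2, h3, h4, h5⟩ | ⟨h1, h2, h3, h4, h5, h6⟩ |
    ⟨h1, h2, h3, h4, h5⟩ | ⟨h1, h2, h3, h4, h5, h6⟩ <;> dsimp only at *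
  · omega
  · omega
  · omega
  · refine ⟨h1, hv, ?_⟩
    rw [h6]
    exact Prod.ext rfl (by dsimp only; omega)

/-- the other end of a cut, north side -/
lemma cutN {u : P.FSt} (h : A.k u = 0) {i : ℕ} (hi : i < A.xe u) :
    ¬ A.Ol (u.rL, i) ∧ A.Vb (u.rL, i) ∧ A.mu' (u.rL, i) = (u, A.n' u - 1 - i) := by
  have hn : A.n' u.rL = A.xs u.rL + A.n u.rL + A.xe u.rL := rfl
  have hx := eq_x h
  have hv : A.Vb (u.rL, i) := by
    show i < A.n' u.rL + A.k' u.rL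
    omega
  rcases un_cases hv with ⟨h1, h2, h3, h4, h5⟩ | ⟨h1, h2, h3, h4, h5, h6⟩ |
    ⟨h1, h2, h3, h4, h5⟩ | ⟨h1, h2, h3, h4, h5, h6⟩ <;> dsimp only at *
  · rw [FSt.rL_rR] at h3
    exact absurd h h3
  · omega
  · refine ⟨h1, hv, ?_⟩
    rw [h5, FSt.rL_rR]
  · omega

/-- the places that are not old -/
lemma cut_cases {q : P.FSt × ℕ} (h : A.Vb q) (ho : ¬ A.Ol q) :
    (∃ u i, A.k u = 0 ∧ i < A.xe u ∧ q = (u, A.n' u - 1 - i)) ∨
    (∃ u i, A.k u = 0 ∧ i < A.xe u ∧ q = (u.rL, i)) := by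
  rcases un_cases h with ⟨h1, h2, h3, h4, h5⟩ | ⟨h1, h2, h3, h4, h5, h6⟩ |
    ⟨h1, h2, h3, h4, h5⟩ | ⟨h1, h2, h3, h4, h5, h6⟩
  · exact absurd h1 ho
  · exact absurd h1 ho
  · right
    refine ⟨q.1.rR, q.2, h3, by omega, ?_⟩
    rw [FSt.rR_rL]
  · left
    have hn : A.n' q.1 = A.xs q.1 + A.n q.1 + A.xe q.1 := rfl
    refine ⟨q.1, A.n' q.1 - 1 - q.2, h4, by omega, ?_⟩
    exact Prod.ext rfl (by dsimp only; omega)

lemma mu'_va {q : P.FSt × ℕ} (h : A.Vb q) : A.Vb (A.mu' q) := by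
  by_cases ho : A.Ol q
  · rw [mu'_old ho]
    exact pl_va (A.mu_va _ (un_va h ho))
  · rcases cut_cases h ho with ⟨u, i, h1, h2, rfl⟩ | ⟨u, i, h1, h2, rfl⟩
    · rw [(cutE h1 h2).2.2]; exact (cutN h1 h2).2.1
    · rw [(cutN h1 h2).2.2]; exact (cutE h1 h2).2.1

lemma mu'_f {q : P.FSt × ℕ} (h : A.Vb q) : (A.mu' q).1.facet = q.1.facet := by
  by_cases ho : A.Ol q
  · rw [mu'_old ho, pl_facet, A.mu_f _ (un_va h ho), un_facet]
  · rcases cut_cases h ho with ⟨u, i, h1, h2, rfl⟩ | ⟨u, i, h1, h2, rfl⟩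
    · rw [(cutE h1 h2).2.2]; rfl
    · rw [(cutN h1 h2).2.2]; rfl

lemma mu'_mu' {q : P.FSt × ℕ} (h : A.Vb q) : A.mu' (A.mu' q) = q := by
  by_cases ho : A.Ol q
  · have h1 := un_va h ho
    rw [mu'_old ho, mu'_pl (A.mu_va _ h1), A.mu_mu _ h1, pl_un h ho]
  · rcases cut_cases h ho with ⟨u, i, h1, h2, rfl⟩ | ⟨u, i, h1, h2, rfl⟩
    · rw [(cutE h1 h2).2.2, (cutN h1 h2).2.2]
    · rw [(cutN h1 h2).2.2, (cutE h1 h2).2.2]

lemma mu'_ne {q : P.FSt × ℕ} (h : A.Vb q) : A.mu' q ≠ q := by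
  intro hc
  by_cases ho : A.Ol q
  · have h1 := un_va h ho
    apply A.mu_ne _ h1
    have h2 := congrArg A.un hc
    rwa [mu'_old ho, un_pl (A.mu_va _ h1)] at h2
  · rcases cut_cases h ho with ⟨u, i, h1, h2, rfl⟩ | ⟨u, i, h1, h2, rfl⟩
    · rw [(cutE h1 h2).2.2] at hc
      have h3 : u.rL = u := congrArg Prod.fst hc
      exact absurd h3 (by
        intro h
        have h1 : cross u.1.d u.1.e = u.1.e := congrArg (fun s : P.FSt => s.1.e) h
        have h2 := u.2.2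
        generalize u.1.d = d at *
        generalize u.1.e = e at *
        clear h
        revert d e
        decide)
    · rw [(cutN h1 h2).2.2] at hc
      have h3 : u = u.rL := congrArg Prod.fst hc
      exact absurd h3.symm (by
        intro h
        have h1 : cross u.1.d u.1.e = u.1.e := congrArg (fun s : P.FSt => s.1.e) h
        have h2 := u.2.2
        generalize u.1.d = d at *
        generalize u.1.e = e at *
        clear h
        revert d e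
        decide)

variable (A)

/-- the new curve -/
def kc : KCur P where
  bs := A.bs
  bs_f := A.bs_f
  n := A.n'
  n_sym := n'_sym
  k := A.k'
  k1 := k'_le
  k_ok := fun t h => A.k_ok t (k'_iff.1 h)
  k_op := fun t h => k'_iff.2 (by rw [A.k_op t (k'_iff.1 h)]; exact k'_iff.1 h)
  k_u1 := fun t h h' => k'_iff.1 h' (A.k_u1 t (k'_iff.1 h))
  k_u2 := fun t h h' => k'_iff.1 h' (A.k_u2 t (k'_iff.1 h))
  k_u3 := fun t h => A.k_u3 t (k'_iff.1 h)
  mu := A.mu'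
  mu_va := fun _ h => mu'_va h
  mu_f := fun _ h => mu'_f h
  mu_mu := fun _ h => mu'_mu' h
  mu_ne := fun _ h => mu'_ne h

variable {A}

/-! ## The crossings -/

lemma io_side {u : P.FSt} {i : ℕ} (h : i < A.n' u) :
    A.kc.io (u, i) = (u.stE.r2, A.n' u - 1 - i) :=
  KCur.io_not (A := A.kc) (p := (u, i)) (fun hc => by
    have h1 : A.n' u ≤ i := hc
    omega)

/-- the strand keeps its place or the corner -/
lemma io_pl {p : P.FSt × ℕ} (h : A.Va p) (hc : p.2 < A.n p.1 ∨ p.2 = A.n p.1 + A.m p.1) :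
    A.kc.io (A.pl p) = A.pl (A.io p) := by
  have h0 : p.2 < A.n p.1 + A.k p.1 := h
  rcases hc with hc | hc
  · have e1 : A.pl p = (p.1, A.xs p.1 + p.2) := if_neg (by omega)
    have hc' : ¬ A.Co p := fun h' => by
      have : A.n p.1 ≤ p.2 := h'
      omega
    have hn : A.n' p.1 = A.xs p.1 + A.n p.1 + A.xe p.1 := rfl
    have e2 : A.pl (A.io p) = (p.1.stE.r2, A.xs p.1.stE.r2 + (A.n p.1 - 1 - p.2)) := by
      rw [io_not hc']
      refine if_neg ?_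
      show ¬ A.n p.1.stE.r2 + A.m p.1.stE.r2 < A.n p.1 - 1 - p.2
      rw [A.n_sym]; omega
    rw [e1, e2, io_side (by omega), xs_E]
    exact Prod.ext rfl (by dsimp only; omega)
  · have hk : A.k p.1 ≠ 0 := by omega
    obtain ⟨u1, u2⟩ := used hk
    have hm := A.m_op _ hk
    have e1 : A.pl p = (p.1, A.n' p.1) := by
      unfold pl
      rw [if_neg (by omega)]
      refine Prod.ext rfl ?_
      dsimp only; unfold n'; omega
    have hk' : A.k (opq p.1).r2 ≠ 0 := by rw [A.k_op _ hk]; exact hk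
    obtain ⟨v1, v2⟩ := used hk'
    have hco : A.Co p := by
      show A.n p.1 ≤ p.2
      omega
    have e2 : A.pl (A.io p) = ((opq p.1).r2, A.n' (opq p.1).r2) := by
      rw [io_co hco]
      unfold pl
      rw [if_neg (by dsimp only; omega)]
      refine Prod.ext rfl ?_
      dsimp only; unfold n'; omega
    rw [e1, e2]
    exact KCur.io_co (A := A.kc) (p := (p.1, A.n' p.1)) (le_refl _)

/-- a strand on the right of the corner -/
lemma right_data {p : P.FSt × ℕ} (h : A.Va p) (h1 : A.n p.1 ≤ p.2)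
    (h2 : p.2 < A.n p.1 + A.m p.1) {i : ℕ} (hi : i = A.n p.1 + A.m p.1 - 1 - p.2) :
    A.k p.1 ≠ 0 ∧ i < A.m p.1 ∧ A.pl p = (p.1, A.n' p.1 - 1 - i) ∧
      A.kc.io (A.pl p) = ((rhoi p.1).rL, i) ∧
      A.kc.io (rhoi p.1, A.n' (rhoi p.1) - 1 - i) = ((rhoi (rhoi p.1)).rL, i) ∧
      A.kc.io (rhoi (rhoi p.1), A.n' (rhoi (rhoi p.1)) - 1 - i) = A.pl (A.io p) := by
  have h0 : p.2 < A.n p.1 + A.k p.1 := h
  have hk : A.k p.1 ≠ 0 := by omega
  obtain ⟨u1, u2⟩ := used hk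
  have hm := A.m_op _ hk
  have hn : ∀ u, A.n' u = A.xs u + A.n u + A.xe u := fun u => rfl
  have hn0 := hn p.1
  have e1 : A.pl p = (p.1, A.n' p.1 - 1 - i) := by
    unfold pl
    rw [if_neg (by omega)]
    refine Prod.ext rfl ?_
    dsimp only; omega
  have s1 : (rhoi p.1).rL = p.1.stE.r2 := by
    show p.1.stE.rL.rL = _
    rw [FSt.rL_rL]
  have s2 : (rhoi (rhoi p.1)).rL = (rhoi p.1).stE.r2 := by
    show (rhoi p.1).stE.rL.rL = _
    rw [FSt.rL_rL]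
  have s3 : (rhoi (rhoi (rhoi p.1))).rL = (rhoi (rhoi p.1)).stE.r2 := by
    show (rhoi (rhoi p.1)).stE.rL.rL = _
    rw [FSt.rL_rL]
  have hk' : A.k (opq p.1).r2 ≠ 0 := by rw [A.k_op _ hk]; exact hk
  have x1 : A.xe (rhoi p.1) = A.m p.1 := by
    unfold xe
    rw [rho_rhoi]
    have a1 := A.m0 _ (A.k_u1 _ hk)
    have a2 : A.m (rhoi p.1) = 0 := by
      apply A.m0
      by_contra h3
      have := A.k_u1 _ h3
      rw [rho_rhoi] at this
      exact hk this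
    omega
  have x2 : A.xe (rhoi (rhoi p.1)) = A.m p.1 := by
    unfold xe
    rw [rho_rhoi, rho_rhoi]
    have a2 : A.m (rhoi p.1) = 0 := by
      apply A.m0
      by_contra h3
      have := A.k_u1 _ h3
      rw [rho_rhoi] at this
      exact hk this
    have a3 : A.m (rhoi (rhoi p.1)) = 0 := by
      apply A.m0
      by_contra h3
      have := A.k_u2 _ h3
      rw [rho_rhoi, rho_rhoi] at this
      exact hk this
    omega
  have hn1 := hn (rhoi p.1)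
  have hn2 := hn (rhoi (rhoi p.1))
  refine ⟨hk, by omega, e1, ?_, ?_, ?_⟩
  · rw [e1, io_side (by omega), s1]
    exact Prod.ext rfl (by dsimp only; omega)
  · rw [io_side (by omega), s2]
    exact Prod.ext rfl (by dsimp only; omega)
  · rw [io_side (by omega), ← s3, rhoi3, io_co (show A.Co p from h1)]
    obtain ⟨v1, v2⟩ := used hk'
    have hkk := A.k_op _ hk
    unfold pl
    rw [if_pos (by dsimp only; omega)]
    refine Prod.ext rfl ?_
    dsimp only; omega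

/-- a strand on the left of the corner -/
lemma left_data {p : P.FSt × ℕ} (h : A.Va p)
    (h2 : A.n p.1 + A.m p.1 < p.2) {i : ℕ} (hi : i = p.2 - (A.n p.1 + A.m p.1 + 1)) :
    A.k p.1 ≠ 0 ∧ i < A.m (opq p.1).r2 ∧ A.pl p = (p.1.rL, i) ∧
      A.kc.io (A.pl p) = (rho p.1, A.n' (rho p.1) - 1 - i) ∧
      A.kc.io ((rho p.1).rL, i) = (rho (rho p.1), A.n' (rho (rho p.1)) - 1 - i) ∧
      A.kc.io ((rho (rho p.1)).rL, i) = A.pl (A.io p) := by
  have h0 : p.2 < A.n p.1 + A.k p.1 := h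
  have hk : A.k p.1 ≠ 0 := by omega
  obtain ⟨u1, u2⟩ := used hk
  have hm := A.m_op _ hk
  have hn : ∀ u, A.n' u = A.xs u + A.n u + A.xe u := fun u => rfl
  have e1 : A.pl p = (p.1.rL, i) := by
    unfold pl
    rw [if_pos h2, hi]
  have hk' : A.k (opq p.1).r2 ≠ 0 := by rw [A.k_op _ hk]; exact hk
  have h3 : rho (rho (rho p.1)) = (opq p.1).r2 := rho3 (A.k_ok _ hk)
  have a1 := A.m0 _ (A.k_u1 _ hk)
  have a2 := A.m0 _ (A.k_u2 _ hk)
  obtain ⟨v1, v2⟩ := used hk'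
  have s1 : ∀ u : P.FSt, A.n' u.rL = A.n' (rho u) := fun u => by
    have := n'_sym (A := A) u.rL
    exact this.symm
  have x1 : A.xs p.1.rL = A.m (opq p.1).r2 := by omega
  have x2 : A.xs (rho p.1).rL = A.m (opq p.1).r2 := by
    rw [xs_rL]
    unfold xe
    rw [h3, a2]
    have a3 : A.m (rho (opq p.1).r2) = 0 := A.m0 _ (A.k_u1 _ hk')
    omega
  have x3 : A.xs (rho (rho p.1)).rL = A.m (opq p.1).r2 := by
    rw [xs_rL]
    unfold xe
    rw [h3]
    have a3 : A.m (rho (opq p.1).r2) = 0 := A.m0 _ (A.k_u1 _ hk')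
    have a4 : A.m (rho (rho (opq p.1).r2)) = 0 := A.m0 _ (A.k_u2 _ hk')
    omega
  have hn1 := hn p.1.rL
  have hn2 := hn (rho p.1).rL
  have hn3 := hn (rho (rho p.1)).rL
  refine ⟨hk, by omega, e1, ?_, ?_, ?_⟩
  · rw [e1, io_side (by omega)]
    refine Prod.ext rfl ?_
    dsimp only; rw [s1]
  · rw [io_side (by omega)]
    refine Prod.ext rfl ?_
    dsimp only; rw [s1]
  · rw [io_side (by omega)]
    have hco : A.Co p := by
      show A.n p.1 ≤ p.2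
      omega
    have hkk := A.k_op _ hk
    have e2 : A.pl (A.io p) = ((opq p.1).r2, A.xs (opq p.1).r2 + (A.n (opq p.1).r2 +
        (A.n p.1 + A.k p.1 - 1 - p.2))) := by
      rw [io_co hco]
      exact if_neg (by dsimp only; omega)
    rw [e2, s1, h3]
    have hn4 := hn (opq p.1).r2
    refine Prod.ext h3 ?_
    dsimp only; omega

end MCur

end Pool.Agent.MP42.NE
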