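import Pool.Agent.MP42.NE.MCur2

/-!
# Curves with several strands through a vertex: strands and frames (owner helper18)
-/

set_option autoImplicit false

namespace Pool.Agent.MP42.NE

open Pool.Agent.Helper55.UNF Pool.Agent.Helper55.UNF.GridSolid Relation

variable {P : GridSolid}

namespace MCur

variable {A : MCur P}

lemma k_rhoi {t : P.FSt} (h : A.k t ≠ 0) : A.k (rhoi t) = 0 := by
  by_contra h3
  have := A.k_u1 _ h3
  rw [rho_rhoi] at this
  exact h this

lemma k_rhoi2 {t : P.FSt} (h : A.k t ≠ 0) : A.k (rhoi (rhoi t)) = 0 := by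
  by_contra h3
  have := A.k_u2 _ h3
  rw [rho_rhoi, rho_rhoi] at this
  exact h this

/-- the quarters on the right of a used corner -/
lemma bR {t : P.FSt} (h : A.k t ≠ 0) : A.k (rhoi t) = 0 ∧ A.k (rhoi (rhoi t)) = 0 ∧
    A.xe (rhoi t) = A.m t ∧ A.xe (rhoi (rhoi t)) = A.m t := by
  have a1 := A.m0 _ (A.k_u1 _ h)
  have a2 := k_rhoi h
  have a3 := k_rhoi2 h
  have a4 := A.m0 _ a2
  have a5 := A.m0 _ a3
  refine ⟨a2, a3, ?_, ?_⟩
  · unfold xe
    rw [rho_rhoi]
    omega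
  · unfold xe
    rw [rho_rhoi, rho_rhoi]
    omega

/-- the quarters on the left of a used corner -/
lemma bL {t : P.FSt} (h : A.k t ≠ 0) : A.k (rho t) = 0 ∧ A.k (rho (rho t)) = 0 ∧
    A.xe (rho t) = A.m (opq t).r2 ∧ A.xe (rho (rho t)) = A.m (opq t).r2 := by
  have a1 := A.k_u1 _ h
  have a2 := A.k_u2 _ h
  have a3 := A.m0 _ a1
  have a4 := A.m0 _ a2
  have h3 : rho (rho (rho t)) = (opq t).r2 := rho3 (A.k_ok _ h)
  have hk' : A.k (opq t).r2 ≠ 0 := by rw [A.k_op _ h]; exact h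
  have a5 := A.m0 _ (A.k_u1 _ hk')
  refine ⟨a1, a2, ?_, ?_⟩
  · unfold xe
    rw [h3]
    omega
  · unfold xe
    rw [h3]
    omega

/-- a strand right of the corner -/
lemma right_at {s : P.FSt} (h : A.k s ≠ 0) {i : ℕ} (hi : i < A.m s) :
    A.Va (s, A.n s + A.m s - 1 - i) ∧ A.Co (s, A.n s + A.m s - 1 - i) ∧
      A.n s + A.m s - 1 - i < A.n s + A.m s ∧
      i = A.n s + A.m s - 1 - (A.n s + A.m s - 1 - i) := by
  have h1 := A.m_op _ h
  refine ⟨?_, ?_, by omega, by omega⟩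
  · show A.n s + A.m s - 1 - i < A.n s + A.k s
    omega
  · show A.n s ≤ A.n s + A.m s - 1 - i
    omega

/-- a strand left of the corner -/
lemma left_at {s : P.FSt} (h : A.k s ≠ 0) {i : ℕ} (hi : i < A.m (opq s).r2) :
    A.Va (s, A.n s + A.m s + 1 + i) ∧ A.Co (s, A.n s + A.m s + 1 + i) ∧
      A.n s + A.m s < A.n s + A.m s + 1 + i ∧
      i = A.n s + A.m s + 1 + i - (A.n s + A.m s + 1) := by
  have h1 := A.m_op _ h
  refine ⟨?_, ?_, by omega, by omega⟩
  · show A.n s + A.m s + 1 + i < A.n s + A.k s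
    omega
  · show A.n s ≤ A.n s + A.m s + 1 + i
    omega

/-- the next strand of the new curve: the eight kinds -/
lemma next_cases {q : P.FSt × ℕ} (h : A.Vb q) :
    (∃ p, A.Va p ∧ ¬ A.Co p ∧ ¬ A.kc.Co q ∧ q = A.pl p ∧ q.1 = p.1 ∧
      A.mu' (A.kc.io q) = A.pl (A.mu (A.io p))) ∨
    (∃ p, A.Va p ∧ A.Co p ∧ A.kc.Co q ∧ q = A.pl p ∧ q.1 = p.1 ∧
      A.mu' (A.kc.io q) = A.pl (A.mu (A.io p))) ∨
    (∃ s i, A.k s ≠ 0 ∧ i < A.m s ∧ q = A.pl (s, A.n s + A.m s - 1 - i) ∧ q.1 = s ∧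
      ¬ A.kc.Co q ∧
      A.mu' (A.kc.io q) = (rhoi s, A.n' (rhoi s) - 1 - i)) ∨
    (∃ s i, A.k s ≠ 0 ∧ i < A.m s ∧ q = (rhoi s, A.n' (rhoi s) - 1 - i) ∧
      A.mu' (A.kc.io q) = (rhoi (rhoi s), A.n' (rhoi (rhoi s)) - 1 - i)) ∨
    (∃ s i, A.k s ≠ 0 ∧ i < A.m s ∧ q = (rhoi (rhoi s), A.n' (rhoi (rhoi s)) - 1 - i) ∧
      A.mu' (A.kc.io q) = A.pl (A.mu (A.io (s, A.n s + A.m s - 1 - i)))) ∨
    (∃ s i, A.k s ≠ 0 ∧ i < A.m (opq s).r2 ∧ q = A.pl (s, A.n s + A.m s + 1 + i) ∧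
      q.1 = s.rL ∧ ¬ A.kc.Co q ∧
      A.mu' (A.kc.io q) = ((rho s).rL, i)) ∨
    (∃ s i, A.k s ≠ 0 ∧ i < A.m (opq s).r2 ∧ q = ((rho s).rL, i) ∧
      A.mu' (A.kc.io q) = ((rho (rho s)).rL, i)) ∨
    (∃ s i, A.k s ≠ 0 ∧ i < A.m (opq s).r2 ∧ q = ((rho (rho s)).rL, i) ∧
      A.mu' (A.kc.io q) = A.pl (A.mu (A.io (s, A.n s + A.m s + 1 + i)))) := by
  by_cases ho : A.Ol q
  · have hp := un_va h ho
    have hq := pl_un h ho
    set p := A.un q with hpdef
    have h0 : p.2 < A.n p.1 + A.k p.1 := hp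
    by_cases c1 : p.2 < A.n p.1
    · left
      have e0 : A.pl p = (p.1, A.xs p.1 + p.2) := if_neg (by omega)
      refine ⟨p, hp, fun h' => ?_, fun h' => ?_, hq.symm, ?_, ?_⟩
      · have : A.n p.1 ≤ p.2 := h'
        omega
      · rw [← hq, e0] at h'
        have h2 : A.n' p.1 ≤ A.xs p.1 + p.2 := h'
        have h3 : A.n' p.1 = A.xs p.1 + A.n p.1 + A.xe p.1 := rfl
        omega
      · rw [← hq, e0]
      · rw [← hq, io_pl hp (Or.inl c1), mu'_pl (io_va hp)]
    right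
    have hk : A.k p.1 ≠ 0 := by omega
    obtain ⟨u1, u2⟩ := used hk
    have hm := A.m_op _ hk
    by_cases c2 : p.2 = A.n p.1 + A.m p.1
    · left
      have e0 : A.pl p = (p.1, A.xs p.1 + p.2) := if_neg (by omega)
      refine ⟨p, hp, ?_, ?_, hq.symm, ?_, ?_⟩
      · show A.n p.1 ≤ p.2
        omega
      · rw [← hq, e0]
        show A.n' p.1 ≤ A.xs p.1 + p.2
        unfold n'; omega
      · rw [← hq, e0]
      · rw [← hq, io_pl hp (Or.inr c2), mu'_pl (io_va hp)]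
    right
    by_cases c3 : p.2 < A.n p.1 + A.m p.1
    · left
      obtain ⟨i, hi⟩ : ∃ i, i = A.n p.1 + A.m p.1 - 1 - p.2 := ⟨_, rfl⟩
      obtain ⟨r1, r2, r3, r4, r5, r6⟩ := right_data hp (by omega) c3 hi
      obtain ⟨b1, b2, b3, b4⟩ := bR hk
      have e1 : p = (p.1, A.n p.1 + A.m p.1 - 1 - i) := Prod.ext rfl (by dsimp only; omega)
      refine ⟨p.1, i, hk, r2, ?_, ?_, ?_, ?_⟩
      · rw [← e1]; exact hq.symm
      · rw [← hq, r3]
      · rw [← hq, r3]
        intro h'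
        have h2 : A.n' p.1 ≤ A.n' p.1 - 1 - i := h'
        have h3 : A.n' p.1 = A.xs p.1 + A.n p.1 + A.xe p.1 := rfl
        omega
      · rw [← hq, r4, (cutN b1 (by omega)).2.2]
    · right; right; right; left
      obtain ⟨i, hi⟩ : ∃ i, i = p.2 - (A.n p.1 + A.m p.1 + 1) := ⟨_, rfl⟩
      obtain ⟨r1, r2, r3, r4, r5, r6⟩ := left_data hp (by omega) hi
      obtain ⟨b1, b2, b3, b4⟩ := bL hk
      have e1 : p = (p.1, A.n p.1 + A.m p.1 + 1 + i) := Prod.ext rfl (by dsimp only; omega)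
      refine ⟨p.1, i, hk, r2, ?_, ?_, ?_, ?_⟩
      · rw [← e1]; exact hq.symm
      · rw [← hq, r3]
      · rw [← hq, r3]
        intro h'
        have h2 : A.n' p.1.rL ≤ i := h'
        have h3 : A.n' p.1.rL = A.xs p.1.rL + A.n p.1.rL + A.xe p.1.rL := rfl
        omega
      · rw [← hq, r4, (cutE b1 (by omega)).2.2]
  · right; right; right
    rcases cut_cases h ho with ⟨u, i, h1, h2, rfl⟩ | ⟨u, i, h1, h2, rfl⟩
    · -- east cut: a right strand
      rcases between h1 with h3 | ⟨h3, h4, -⟩ | ⟨h3, h4, -⟩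
      · omega
      · left
        obtain ⟨v1, v2, v3, v4⟩ := right_at h3 (i := i) (by omega)
        obtain ⟨r1, r2, r3, r4, r5, r6⟩ := right_data v1 v2 v3 v4
        dsimp only at r1 r2 r3 r4 r5 r6
        obtain ⟨b1, b2, b3, b4⟩ := bR h3
        refine ⟨rho u, i, h3, by omega, ?_, ?_⟩
        · rw [rhoi_rho]
        · rw [rhoi_rho] at r5 b2 b4 ⊢
          rw [r5, (cutN b2 (by omega)).2.2]
      · right; left
        obtain ⟨v1, v2, v3, v4⟩ := right_at h3 (i := i) (by omega)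
        obtain ⟨r1, r2, r3, r4, r5, r6⟩ := right_data v1 v2 v3 v4
        dsimp only at r1 r2 r3 r4 r5 r6
        refine ⟨rho (rho u), i, h3, by omega, ?_, ?_⟩
        · rw [rhoi_rho, rhoi_rho]
        · rw [rhoi_rho, rhoi_rho] at r6
          rw [r6, mu'_pl (io_va v1)]
    · -- north cut: a left strand
      right; right; right
      have h2' : i < A.xs u.rL := by rw [eq_x h1]; exact h2
      rcases between h1 with h3 | ⟨h3, h4, h5⟩ | ⟨h3, h4, h5⟩
      · omega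
      · -- the left strand starts two quarters before
        have hr6 := r6 h3
        have e1 : rho (rho (rho (rho (rho (rho u))))) = u := rho_inj hr6
        obtain ⟨s, hs⟩ : ∃ s, s = rho (rho (rho (rho u))) := ⟨_, rfl⟩
        have hks : A.k s ≠ 0 := by rw [hs]; exact k3 h3
        have hos : (opq s).r2 = rho u := by
          rw [← rho3 (A.k_ok _ hks), hs]
          exact hr6
        have hu : rho (rho s) = u := by rw [hs]; exact e1
        right
        obtain ⟨v1, v2, v3, v4⟩ := left_at hks (i := i) (by rw [hos]; omega)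
        obtain ⟨r1, r2, r3, r4, r5, r6⟩ := left_data v1 v3 v4
        dsimp only at r1 r2 r3 r4 r5 r6
        refine ⟨s, i, hks, r2, by rw [hu], ?_⟩
        rw [hu] at r6
        rw [r6, mu'_pl (io_va v1)]
      · have hr6 := r6 h3
        have e1 : rho (rho (rho (rho (rho (rho u))))) = u := rho_inj (rho_inj hr6)
        obtain ⟨s, hs⟩ : ∃ s, s = rho (rho (rho (rho (rho u)))) := ⟨_, rfl⟩
        have hks : A.k s ≠ 0 := by rw [hs]; exact k3 h3
        have hos : (opq s).r2 = rho (rho u) := by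
          rw [← rho3 (A.k_ok _ hks), hs]
          exact hr6
        have hu : rho s = u := by rw [hs]; exact e1
        left
        obtain ⟨v1, v2, v3, v4⟩ := left_at hks (i := i) (by rw [hos]; omega)
        obtain ⟨r1, r2, r3, r4, r5, r6⟩ := left_data v1 v3 v4
        dsimp only at r1 r2 r3 r4 r5 r6
        obtain ⟨b1, b2, b3, b4⟩ := bL hks
        refine ⟨s, i, hks, r2, by rw [hu], ?_⟩
        rw [hu] at r5
        rw [r5, ← hu, (cutE b2 (by omega)).2.2]

/-- the new curve is one curve -/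
theorem kc_conn (h : A.orb.Conn) : A.kc.orb.Conn := by
  intro T h1 h2 q q' hq hq'
  have hmu : ∀ q, A.Vb q → (T (A.mu' q) ↔ T q) := fun q hq => h2 q hq
  have hio : ∀ q, A.Vb q → (T (A.kc.io q) ↔ T q) := fun q hq => by
    have h3 := h1 q hq
    have h4 := hmu (A.kc.io q) (KCur.io_va (A := A.kc) hq)
    exact h4.symm.trans h3
  have hnx : ∀ q, A.Vb q → (T (A.mu' (A.kc.io q)) ↔ T q) := fun q hq => h1 q hq
  -- right strands
  have hR : ∀ s i, A.k s ≠ 0 → i < A.m s →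
      (T (A.pl (s, A.n s + A.m s - 1 - i)) ↔ T (rhoi s, A.n' (rhoi s) - 1 - i)) ∧
      (T (rhoi s, A.n' (rhoi s) - 1 - i) ↔
        T (rhoi (rhoi s), A.n' (rhoi (rhoi s)) - 1 - i)) ∧
      (T (rhoi (rhoi s), A.n' (rhoi (rhoi s)) - 1 - i) ↔
        T (A.pl (A.mu (A.io (s, A.n s + A.m s - 1 - i))))) := by
    intro s i hk hi
    obtain ⟨v1, v2, v3, v4⟩ := right_at hk hi
    obtain ⟨r1, r2, r3, r4, r5, r6⟩ := right_data v1 v2 v3 v4
    dsimp only at r1 r2 r3 r4 r5 r6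
    obtain ⟨b1, b2, b3, b4⟩ := bR hk
    have c1 := cutE b1 (i := i) (by omega)
    have c2 := cutE b2 (i := i) (by omega)
    have c3 := cutN b1 (i := i) (by omega)
    have c4 := cutN b2 (i := i) (by omega)
    refine ⟨?_, ?_, ?_⟩
    · have := hnx _ (pl_va v1)
      rw [r4, c3.2.2] at this
      exact this.symm
    · have := hnx _ c1.2.1
      rw [r5, c4.2.2] at this
      exact this.symm
    · have := hnx _ c2.2.1
      rw [r6, mu'_pl (io_va v1)] at this
      exact this.symm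
  have hL : ∀ s i, A.k s ≠ 0 → i < A.m (opq s).r2 →
      (T (A.pl (s, A.n s + A.m s + 1 + i)) ↔ T ((rho s).rL, i)) ∧
      (T ((rho s).rL, i) ↔ T ((rho (rho s)).rL, i)) ∧
      (T ((rho (rho s)).rL, i) ↔ T (A.pl (A.mu (A.io (s, A.n s + A.m s + 1 + i))))) := by
    intro s i hk hi
    obtain ⟨v1, v2, v3, v4⟩ := left_at hk hi
    obtain ⟨r1, r2, r3, r4, r5, r6⟩ := left_data v1 v3 v4
    dsimp only at r1 r2 r3 r4 r5 r6
    obtain ⟨b1, b2, b3, b4⟩ := bL hk
    have c1 := cutE b1 (i := i) (by omega)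
    have c2 := cutE b2 (i := i) (by omega)
    have c3 := cutN b1 (i := i) (by omega)
    have c4 := cutN b2 (i := i) (by omega)
    refine ⟨?_, ?_, ?_⟩
    · have := hnx _ (pl_va v1)
      rw [r4, c1.2.2] at this
      exact this.symm
    · have := hnx _ c3.2.1
      rw [r5, c2.2.2] at this
      exact this.symm
    · have := hnx _ c4.2.1
      rw [r6, mu'_pl (io_va v1)] at this
      exact this.symm
  have hold : ∀ p p', A.Va p → A.Va p' → (T (A.pl p) ↔ T (A.pl p')) := by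
    intro p p' hp hp'
    refine h (fun p => T (A.pl p)) (fun s hs => ?_) (fun s hs => ?_) p p' hp hp'
    · show T (A.pl (A.mu (A.io s))) ↔ T (A.pl s)
      rcases next_cases (pl_va hs) with ⟨p, h3, h4, h5, h6, h7, h8⟩ |
        ⟨p, h3, h4, h5, h6, h7, h8⟩ | ⟨s', i, h3, h4, h5, h6, h7⟩ |
        ⟨s', i, h3, h4, h5, h6⟩ | ⟨s', i, h3, h4, h5, h6⟩ | ⟨s', i, h3, h4, h5, h6, h7⟩ |
        ⟨s', i, h3, h4, h5, h6⟩ | ⟨s', i, h3, h4, h5, h6⟩
      · have e1 : s = p := by rw [← un_pl hs, h6, un_pl h3]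
        subst e1
        rw [← h8]
        exact hnx _ (pl_va hs)
      · have e1 : s = p := by rw [← un_pl hs, h6, un_pl h3]
        subst e1
        rw [← h8]
        exact hnx _ (pl_va hs)
      · have e1 : s = (s', A.n s' + A.m s' - 1 - i) := by
          rw [← un_pl hs, h5, un_pl (right_at h3 h4).1]
        obtain ⟨k1, k2, k3⟩ := hR s' i h3 h4
        rw [e1]
        exact ((k1.trans k2).trans k3).symm
      · exfalso
        have h7 := pl_ol hs
        rw [h5] at h7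
        obtain ⟨b1, b2, b3, b4⟩ := bR h3
        exact (cutE b1 (by omega)).1 h7
      · exfalso
        have h7 := pl_ol hs
        rw [h5] at h7
        obtain ⟨b1, b2, b3, b4⟩ := bR h3
        exact (cutE b2 (by omega)).1 h7
      · have e1 : s = (s', A.n s' + A.m s' + 1 + i) := by
          rw [← un_pl hs, h5, un_pl (left_at h3 h4).1]
        obtain ⟨k1, k2, k3⟩ := hL s' i h3 h4
        rw [e1]
        exact ((k1.trans k2).trans k3).symm
      · exfalso
        have h7 := pl_ol hs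
        rw [h5] at h7
        obtain ⟨b1, b2, b3, b4⟩ := bL h3
        exact (cutN b1 (by omega)).1 h7
      · exfalso
        have h7 := pl_ol hs
        rw [h5] at h7
        obtain ⟨b1, b2, b3, b4⟩ := bL h3
        exact (cutN b2 (by omega)).1 h7
    · show T (A.pl (A.mu s)) ↔ T (A.pl s)
      rw [← mu'_pl hs]
      exact hmu _ (pl_va hs)
  have hred : ∀ q, A.Vb q → ∃ p, A.Va p ∧ (T q ↔ T (A.pl p)) := by
    intro q hq
    rcases next_cases hq with ⟨p, h3, h4, h5, h6, h7, h8⟩ |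
        ⟨p, h3, h4, h5, h6, h7, h8⟩ | ⟨s', i, h3, h4, h5, h6, h7⟩ |
        ⟨s', i, h3, h4, h5, h6⟩ | ⟨s', i, h3, h4, h5, h6⟩ | ⟨s', i, h3, h4, h5, h6, h7⟩ |
        ⟨s', i, h3, h4, h5, h6⟩ | ⟨s', i, h3, h4, h5, h6⟩
    · exact ⟨p, h3, by rw [h6]⟩
    · exact ⟨p, h3, by rw [h6]⟩
    · exact ⟨_, (right_at h3 h4).1, by rw [h5]⟩
    · exact ⟨_, (right_at h3 h4).1, by rw [h5]; exact (hR s' i h3 h4).1.symm⟩
    · refine ⟨_, (right_at h3 h4).1, ?_⟩
      rw [h5]
      exact ((hR s' i h3 h4).1.trans (hR s' i h3 h4).2.1).symm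
    · exact ⟨_, (left_at h3 h4).1, by rw [h5]⟩
    · exact ⟨_, (left_at h3 h4).1, by rw [h5]; exact (hL s' i h3 h4).1.symm⟩
    · refine ⟨_, (left_at h3 h4).1, ?_⟩
      rw [h5]
      exact ((hL s' i h3 h4).1.trans (hL s' i h3 h4).2.1).symm
  obtain ⟨p, p1, p2⟩ := hred q hq
  obtain ⟨p', p1', p2'⟩ := hred q' hq'
  exact p2.trans ((hold p p' p1 p1').trans p2'.symm)

end MCur

end Pool.Agent.MP42.NE
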