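import Pool.Agent.MP42.NE.MCur3

/-!
# Curves with several strands through a vertex: frames of the new curve (owner helper18)
-/

set_option autoImplicit false

namespace Pool.Agent.MP42.NE

open Pool.Agent.Helper55.UNF Pool.Agent.Helper55.UNF.GridSolid Relation

variable {P : GridSolid}

namespace MCur

variable {A : MCur P}

namespace Fr

variable (B : A.Fr)

/-- the move at the exit of an old strand -/
noncomputable def fm (p : P.FSt × ℕ) : Mv := if A.Co p then PFlow.pmv (B.ty p) 0 else B.mo p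

open Classical in
/-- the frames of the new curve -/
noncomputable def w' (q : P.FSt × ℕ) : P.FSt :=
  if A.Ol q then B.w (A.un q)
  else if q.2 < A.xs q.1 then (if A.k (rhoi q.1.rR) ≠ 0 then q.1 else q.1.rL)
  else (if A.k (rho q.1) ≠ 0 then q.1 else q.1.rR)

open Classical in
/-- the moves of the new curve -/
noncomputable def m' (q : P.FSt × ℕ) : Mv :=
  if A.Ol q then B.fm (A.un q)
  else if q.2 < A.xs q.1 then (if A.k (rhoi q.1.rR) ≠ 0 then Mv.E else Mv.S)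
  else (if A.k (rho q.1) ≠ 0 then Mv.E else Mv.N)

variable {B}

lemma w'_pl {p : P.FSt × ℕ} (h : A.Va p) : B.w' (A.pl p) = B.w p := by
  unfold w'
  rw [if_pos (pl_ol h), un_pl h]

lemma m'_pl {p : P.FSt × ℕ} (h : A.Va p) : B.m' (A.pl p) = B.fm p := by
  unfold m'
  rw [if_pos (pl_ol h), un_pl h]

lemma at_E {u : P.FSt} (h : A.k u = 0) {i : ℕ} (hi : i < A.xe u) :
    B.w' (u, A.n' u - 1 - i) = (if A.k (rho u) ≠ 0 then u else u.rR) ∧
    B.m' (u, A.n' u - 1 - i) = (if A.k (rho u) ≠ 0 then Mv.E else Mv.N) := by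
  have hn : A.n' u = A.xs u + A.n u + A.xe u := rfl
  have h1 := (cutE h hi).1
  have h2 : ¬ A.n' u - 1 - i < A.xs u := by omega
  unfold w' m'
  rw [if_neg h1, if_neg (show ¬ (u, A.n' u - 1 - i).2 < A.xs (u, A.n' u - 1 - i).1 from h2),
    if_neg h1, if_neg (show ¬ (u, A.n' u - 1 - i).2 < A.xs (u, A.n' u - 1 - i).1 from h2)]
  exact ⟨rfl, rfl⟩

lemma at_N {u : P.FSt} (h : A.k u = 0) {i : ℕ} (hi : i < A.xe u) :
    B.w' (u.rL, i) = (if A.k (rhoi u) ≠ 0 then u.rL else u.r2) ∧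
    B.m' (u.rL, i) = (if A.k (rhoi u) ≠ 0 then Mv.E else Mv.S) := by
  have h1 := (cutN h hi).1
  have h2 : i < A.xs u.rL := by rw [eq_x h]; exact hi
  unfold w' m'
  rw [if_neg h1, if_pos (show (u.rL, i).2 < A.xs (u.rL, i).1 from h2),
    if_neg h1, if_pos (show (u.rL, i).2 < A.xs (u.rL, i).1 from h2)]
  dsimp only
  rw [FSt.rL_rR, FSt.rL_rL]
  exact ⟨rfl, rfl⟩

/-- right strands -/
lemma at_R {s : P.FSt} (h : A.k s ≠ 0) {i : ℕ} (hi : i < A.m s) :
    B.w' (rhoi s, A.n' (rhoi s) - 1 - i) = rhoi s ∧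
    B.m' (rhoi s, A.n' (rhoi s) - 1 - i) = Mv.E ∧
    B.w' (rhoi (rhoi s), A.n' (rhoi (rhoi s)) - 1 - i) = (rhoi s).stE ∧
    B.m' (rhoi (rhoi s), A.n' (rhoi (rhoi s)) - 1 - i) = Mv.N := by
  obtain ⟨b1, b2, b3, b4⟩ := bR h
  obtain ⟨c1, c2⟩ := at_E (B := B) b1 (i := i) (by omega)
  obtain ⟨c3, c4⟩ := at_E (B := B) b2 (i := i) (by omega)
  rw [rho_rhoi, if_pos h] at c1 c2
  rw [rho_rhoi, if_neg (not_not.2 b1)] at c3 c4
  refine ⟨c1, c2, ?_, c4⟩
  rw [c3]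
  show (rhoi s).stE.rL.rR = (rhoi s).stE
  rw [FSt.rL_rR]

/-- left strands -/
lemma at_L {s : P.FSt} (h : A.k s ≠ 0) {i : ℕ} (hi : i < A.m (opq s).r2) :
    B.w' ((rho s).rL, i) = s.stN ∧
    B.m' ((rho s).rL, i) = Mv.E ∧
    B.w' ((rho (rho s)).rL, i) = s.stN.stE ∧
    B.m' ((rho (rho s)).rL, i) = Mv.S := by
  obtain ⟨b1, b2, b3, b4⟩ := bL h
  obtain ⟨c1, c2⟩ := at_N (B := B) b1 (i := i) (by omega)
  obtain ⟨c3, c4⟩ := at_N (B := B) b2 (i := i) (by omega)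
  rw [rhoi_rho, if_pos h] at c1 c2
  rw [rhoi_rho, if_neg (not_not.2 b1)] at c3 c4
  refine ⟨?_, c2, ?_, c4⟩
  · rw [c1, rho1, FSt.rR_rL]
  · rw [c3, rho2, FSt.r2_r2]

variable (B)

lemma co_un {q : P.FSt × ℕ} (h : A.Vb q) (hc : A.kc.Co q) :
    A.Ol q ∧ A.Va (A.un q) ∧ A.Co (A.un q) ∧ (A.un q).1 = q.1 ∧
      A.mu' (A.kc.io q) = A.pl (A.mu (A.io (A.un q))) := by
  rcases next_cases h with ⟨p, h3, h4, h5, h6, h7, h8⟩ |
        ⟨p, h3, h4, h5, h6, h7, h8⟩ | ⟨s', i, h3, h4, h5, h6, h7, h8⟩ |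
        ⟨s', i, h3, h4, h5, h6⟩ | ⟨s', i, h3, h4, h5, h6⟩ | ⟨s', i, h3, h4, h5, h6, h7, h8⟩ |
        ⟨s', i, h3, h4, h5, h6⟩ | ⟨s', i, h3, h4, h5, h6⟩
  · exact absurd hc h5
  · have e1 : A.un q = p := by rw [h6, un_pl h3]
    refine ⟨by rw [h6]; exact pl_ol h3, by rw [e1]; exact h3, by rw [e1]; exact h4,
      by rw [e1]; exact h7.symm, by rw [e1]; exact h8⟩
  · exact absurd hc h7
  · exfalso
    rw [h5] at hc
    have h7 : A.n' (rhoi s') ≤ A.n' (rhoi s') - 1 - i := hc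
    have h8 : A.n' (rhoi s') = A.xs (rhoi s') + A.n (rhoi s') + A.xe (rhoi s') := rfl
    obtain ⟨b1, b2, b3, b4⟩ := bR h3
    omega
  · exfalso
    rw [h5] at hc
    have h7 : A.n' (rhoi (rhoi s')) ≤ A.n' (rhoi (rhoi s')) - 1 - i := hc
    have h8 : A.n' (rhoi (rhoi s')) = A.xs (rhoi (rhoi s')) + A.n (rhoi (rhoi s')) +
      A.xe (rhoi (rhoi s')) := rfl
    obtain ⟨b1, b2, b3, b4⟩ := bR h3
    omega
  · exact absurd hc h7
  · exfalso
    rw [h5] at hc
    have h7 : A.n' (rho s').rL ≤ i := hc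
    have h8 : A.n' (rho s').rL = A.xs (rho s').rL + A.n (rho s').rL + A.xe (rho s').rL := rfl
    obtain ⟨b1, b2, b3, b4⟩ := bL h3
    have := eq_x b1
    omega
  · exfalso
    rw [h5] at hc
    have h7 : A.n' (rho (rho s')).rL ≤ i := hc
    have h8 : A.n' (rho (rho s')).rL = A.xs (rho (rho s')).rL + A.n (rho (rho s')).rL +
      A.xe (rho (rho s')).rL := rfl
    obtain ⟨b1, b2, b3, b4⟩ := bL h3
    have := eq_x b2
    omega

lemma fm_of {q : P.FSt × ℕ} {p : P.FSt × ℕ} (hp : A.Va p) (e : q = A.pl p) :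
    (if A.kc.Co q then PFlow.pmv (B.ty (A.un q)) 0 else B.m' q) = B.fm p := by
  have e1 : A.un q = p := by rw [e, un_pl hp]
  split_ifs with hc
  · have h2 := (co_un (pl_va hp) (by rw [← e]; exact hc)).2.2.1
    rw [un_pl hp] at h2
    rw [e1]
    exact (if_pos h2).symm
  · rw [e, m'_pl hp]

/-- the frames along the new curve -/
noncomputable def kf (s0 : P.FSt × ℕ) : A.kc.Fr s0 where
  w := B.w'
  m := B.m'
  ty := fun q => B.ty (A.un q)
  wf := fun q hq => by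
    have hq' : A.Vb q := hq
    unfold w'
    by_cases ho : A.Ol q
    · rw [if_pos ho, B.wf _ (un_va hq' ho), un_facet]
    · rw [if_neg ho]
      split_ifs <;> rfl
  wk := fun q hq hc => by
    obtain ⟨h1, h2, h3, h4, -⟩ := co_un (A := A) hq hc
    unfold w'
    rw [if_pos h1, B.wk _ h2 h3, h4]
  wm := fun q hq hc _ _ => by
    have hq' : A.Vb q := hq
    show q.1 = sdm (B.m' q) (B.w' q) ∧ (B.m' q).ap (B.w' q) = B.w' (A.mu' (A.kc.io q))
    rcases next_cases hq' with ⟨p, h3, h4, h5, h6, h7, h8⟩ |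
        ⟨p, h3, h4, h5, h6, h7, h8⟩ | ⟨s, i, h3, h4, h5, h6, h7, h8⟩ |
        ⟨s, i, h3, h4, h5, h6⟩ | ⟨s, i, h3, h4, h5, h6⟩ | ⟨s, i, h3, h4, h5, h6, h7, h8⟩ |
        ⟨s, i, h3, h4, h5, h6⟩ | ⟨s, i, h3, h4, h5, h6⟩
    · have e1 : B.m' q = B.mo p := by
        rw [h6, m'_pl h3]
        exact if_neg h4
      have e2 : B.w' q = B.w p := by rw [h6, w'_pl h3]
      rw [h8, w'_pl (A.mu_va _ (io_va h3)), e1, e2, h7]
      exact B.wm p h3 h4
    · exact absurd h5 hc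
    · obtain ⟨v1, v2, v3, v4⟩ := right_at h3 h4
      obtain ⟨a1, a2, a3, a4⟩ := at_R (B := B) h3 h4
      have ht := B.tyR _ v1 v2 v3
      have e1 : B.m' q = Mv.S := by
        rw [h5, m'_pl v1]
        unfold fm
        rw [if_pos v2, ht]; rfl
      have e2 : B.w' q = s.rL := by
        rw [h5, w'_pl v1, B.wk _ v1 v2, ht]; rfl
      rw [h8, a1, e1, e2, h6]
      refine ⟨?_, stS_rL s⟩
      show s = s.rL.rR
      rw [FSt.rL_rR]
    · obtain ⟨a1, a2, a3, a4⟩ := at_R (B := B) h3 h4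
      rw [h6, h5, a1, a2, a3]
      exact ⟨rfl, rfl⟩
    · obtain ⟨v1, v2, v3, v4⟩ := right_at h3 h4
      obtain ⟨a1, a2, a3, a4⟩ := at_R (B := B) h3 h4
      have ht := B.tyR _ v1 v2 v3
      rw [h6, w'_pl (A.mu_va _ (io_va v1)), B.wc _ v1 v2, ht, h5, a3, a4]
      exact ⟨rfl, rfl⟩
    · obtain ⟨v1, v2, v3, v4⟩ := left_at h3 h4
      obtain ⟨a1, a2, a3, a4⟩ := at_L (B := B) h3 h4
      have ht := B.tyL _ v1 v3
      have e1 : B.m' q = Mv.N := by
        rw [h5, m'_pl v1]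
        unfold fm
        rw [if_pos v2, ht]; rfl
      have e2 : B.w' q = s := by
        rw [h5, w'_pl v1, B.wk _ v1 v2, ht]; rfl
      rw [h8, a1, e1, e2, h6]
      exact ⟨rfl, rfl⟩
    · obtain ⟨a1, a2, a3, a4⟩ := at_L (B := B) h3 h4
      rw [h6, h5, a1, a2, a3]
      refine ⟨?_, rfl⟩
      show (rho s).rL = s.stN
      rw [rho1, FSt.rR_rL]
    · obtain ⟨v1, v2, v3, v4⟩ := left_at h3 h4
      obtain ⟨a1, a2, a3, a4⟩ := at_L (B := B) h3 h4
      have ht := B.tyL _ v1 v3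
      rw [h6, w'_pl (A.mu_va _ (io_va v1)), B.wc _ v1 v2, ht, h5, a3, a4]
      refine ⟨?_, ?_⟩
      · show (rho (rho s)).rL = s.stN.stE.rR
        rw [rho2, FSt.r2_rL]
      · show pN.symm s.stN.stE = (opq s).rL
        rw [pN_symm_eq]
        exact congrArg FSt.rL (A.k_ok _ h3)
  wc := fun q hq hc _ _ => by
    have hq' : A.Vb q := hq
    obtain ⟨h1, h2, h3, h4, h5⟩ := co_un (A := A) hq hc
    show B.w' (A.mu' (A.kc.io q)) = _
    rw [h5, w'_pl (A.mu_va _ (io_va h2)), B.wc _ h2 h3, h4]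
  turn := fun q hq _ _ _ => by
    have hq' : A.Vb q := hq
    show ¬ ((if A.kc.Co q then PFlow.pmv (B.ty (A.un q)) 2 else B.m' q) = Mv.N ∧
      (if A.kc.Co (A.mu' (A.kc.io q)) then PFlow.pmv (B.ty (A.un (A.mu' (A.kc.io q)))) 0
        else B.m' (A.mu' (A.kc.io q))) = Mv.S) ∧
      ¬ ((if A.kc.Co q then PFlow.pmv (B.ty (A.un q)) 2 else B.m' q) = Mv.S ∧
      (if A.kc.Co (A.mu' (A.kc.io q)) then PFlow.pmv (B.ty (A.un (A.mu' (A.kc.io q)))) 0
        else B.m' (A.mu' (A.kc.io q))) = Mv.N)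
    rcases next_cases hq' with ⟨p, h3, h4, h5, h6, h7, h8⟩ |
        ⟨p, h3, h4, h5, h6, h7, h8⟩ | ⟨s, i, h3, h4, h5, h6, h7, h8⟩ |
        ⟨s, i, h3, h4, h5, h6⟩ | ⟨s, i, h3, h4, h5, h6⟩ | ⟨s, i, h3, h4, h5, h6, h7, h8⟩ |
        ⟨s, i, h3, h4, h5, h6⟩ | ⟨s, i, h3, h4, h5, h6⟩
    · have h9 := B.turn p h3
      rw [fm_of B (A.mu_va _ (io_va h3)) h8, if_neg h5, h6, m'_pl h3]
      rw [if_neg h4] at h9
      have e1 : B.fm p = B.mo p := if_neg h4
      rw [e1]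
      exact h9
    · have h9 := B.turn p h3
      rw [fm_of B (A.mu_va _ (io_va h3)) h8, if_pos h5, h6, un_pl h3]
      rw [if_pos h4] at h9
      exact h9
    · obtain ⟨a1, a2, a3, a4⟩ := at_R (B := B) h3 h4
      obtain ⟨b1, b2, b3, b4⟩ := bR h3
      have c1 : ¬ A.kc.Co (A.mu' (A.kc.io q)) := by
        rw [h8]
        intro h'
        have h9 : A.n' (rhoi s) ≤ A.n' (rhoi s) - 1 - i := h'
        have h10 : A.n' (rhoi s) = A.xs (rhoi s) + A.n (rhoi s) + A.xe (rhoi s) := rfl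
        omega
      rw [if_neg c1, h8, a2]
      exact ⟨fun h => (by cases h.2), fun h => (by cases h.2)⟩
    · obtain ⟨a1, a2, a3, a4⟩ := at_R (B := B) h3 h4
      have c1 : ¬ A.kc.Co q := fun h' => by
        have h9 := (co_un (A := A) hq h').1
        rw [h5] at h9
        obtain ⟨b1, b2, b3, b4⟩ := bR h3
        exact (cutE b1 (by omega)).1 h9
      rw [if_neg c1]
      rw [h5, a2]
      exact ⟨fun h => (by cases h.1), fun h => (by cases h.1)⟩
    · obtain ⟨v1, v2, v3, v4⟩ := right_at h3 h4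
      obtain ⟨a1, a2, a3, a4⟩ := at_R (B := B) h3 h4
      have ht := B.tyR _ v1 v2 v3
      have h9 := B.turn _ v1
      rw [if_pos v2, ht] at h9
      have c1 : ¬ A.kc.Co q := fun h' => by
        have h9 := (co_un (A := A) hq h').1
        rw [h5] at h9
        obtain ⟨b1, b2, b3, b4⟩ := bR h3
        exact (cutE b2 (by omega)).1 h9
      rw [fm_of B (A.mu_va _ (io_va v1)) h6, if_neg c1, h5, a4]
      exact h9
    · obtain ⟨a1, a2, a3, a4⟩ := at_L (B := B) h3 h4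
      obtain ⟨b1, b2, b3, b4⟩ := bL h3
      have c1 : ¬ A.kc.Co (A.mu' (A.kc.io q)) := by
        rw [h8]
        intro h'
        have h9 : A.n' (rho s).rL ≤ i := h'
        have h10 : A.n' (rho s).rL = A.xs (rho s).rL + A.n (rho s).rL + A.xe (rho s).rL := rfl
        have := eq_x b1
        omega
      rw [if_neg c1, h8, a2]
      exact ⟨fun h => (by cases h.2), fun h => (by cases h.2)⟩
    · obtain ⟨a1, a2, a3, a4⟩ := at_L (B := B) h3 h4
      have c1 : ¬ A.kc.Co q := fun h' => by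
        have h9 := (co_un (A := A) hq h').1
        rw [h5] at h9
        obtain ⟨b1, b2, b3, b4⟩ := bL h3
        exact (cutN b1 (by omega)).1 h9
      rw [if_neg c1]
      rw [h5, a2]
      exact ⟨fun h => (by cases h.1), fun h => (by cases h.1)⟩
    · obtain ⟨v1, v2, v3, v4⟩ := left_at h3 h4
      obtain ⟨a1, a2, a3, a4⟩ := at_L (B := B) h3 h4
      have ht := B.tyL _ v1 v3
      have h9 := B.turn _ v1
      rw [if_pos v2, ht] at h9
      have c1 : ¬ A.kc.Co q := fun h' => by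
        have h9 := (co_un (A := A) hq h').1
        rw [h5] at h9
        obtain ⟨b1, b2, b3, b4⟩ := bL h3
        exact (cutN b2 (by omega)).1 h9
      rw [fm_of B (A.mu_va _ (io_va v1)) h6, if_neg c1, h5, a4]
      exact h9

end Fr

end MCur

end Pool.Agent.MP42.NE
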