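import Pool.Agent.MP42.NE.MCur4
import Pool.Agent.MP42.NE.GFlow2

/-!
# Curves with several strands through a vertex: the chords do not cross (owner helper18)
-/

set_option autoImplicit false

namespace Pool.Agent.MP42.NE

open Pool.Agent.Helper55.UNF Pool.Agent.Helper55.UNF.GridSolid Relation

variable {P : GridSolid}

namespace MCur

variable {A : MCur P}

lemma sd_eq {q : ℕ} (hq : q < 4) {s : P.FSt} {F : P.Facet} (hF : s.facet = F)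
    (h : s = rt q (A.bs F)) : A.sd s = q := by
  obtain ⟨h1, h2⟩ := A.sd_spec s
  subst hF
  refine (GFlow.rt_inj hq h1 (t := A.bs s.facet) ?_).symm
  rw [← h]
  exact h2

section Ix

variable {b : P.FSt} (hb : A.bs b.facet = b)

include hb

lemma sd_0 : A.sd b = 0 := sd_eq (by omega) rfl (by rw [hb]; rfl)
lemma sd_1 : A.sd b.rL = 1 := sd_eq (by omega) (FSt.facet_rL b) (by rw [hb]; rfl)
lemma sd_2 : A.sd b.r2 = 2 := sd_eq (by omega) (FSt.facet_r2 b) (by rw [hb]; rfl)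
lemma sd_3 : A.sd b.rR = 3 := sd_eq (by omega) (FSt.facet_rR b) (by rw [hb]; rfl)

lemma aix_0 (i : ℕ) : A.ix (b, i) = i := by
  unfold ix
  show A.off (A.sd b) (A.bs b.facet) + i = _
  rw [sd_0 hb, hb]
  show 0 + i = i
  omega

lemma aix_1 (i : ℕ) : A.ix (b.rL, i) = A.n b + A.k b + i := by
  unfold ix
  show A.off (A.sd b.rL) (A.bs b.rL.facet) + i = _
  rw [sd_1 hb, FSt.facet_rL, hb]
  rfl

lemma aix_2 (i : ℕ) : A.ix (b.r2, i) = A.n b + A.k b + (A.n b.rL + A.k b.rL) + i := by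
  unfold ix
  show A.off (A.sd b.r2) (A.bs b.r2.facet) + i = _
  rw [sd_2 hb, FSt.facet_r2, hb]
  rfl

lemma aix_3 (i : ℕ) : A.ix (b.rR, i) =
    A.n b + A.k b + (A.n b.rL + A.k b.rL) + (A.n b.r2 + A.k b.r2) + i := by
  unfold ix
  show A.off (A.sd b.rR) (A.bs b.rR.facet) + i = _
  rw [sd_3 hb, FSt.facet_rR, hb]
  rfl

lemma kix_0 (i : ℕ) : A.kc.ix (b, i) = i := by
  unfold KCur.ix
  show A.kc.off (A.sd b) (A.bs b.facet) + i = _
  rw [sd_0 hb, hb]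
  show 0 + i = i
  omega

lemma kix_1 (i : ℕ) : A.kc.ix (b.rL, i) = A.n' b + A.k' b + i := by
  unfold KCur.ix
  show A.kc.off (A.sd b.rL) (A.bs b.rL.facet) + i = _
  rw [sd_1 hb, FSt.facet_rL, hb]
  rfl

lemma kix_2 (i : ℕ) : A.kc.ix (b.r2, i) = A.n' b + A.k' b + (A.n' b.rL + A.k' b.rL) + i := by
  unfold KCur.ix
  show A.kc.off (A.sd b.r2) (A.bs b.r2.facet) + i = _
  rw [sd_2 hb, FSt.facet_r2, hb]
  rfl

lemma kix_3 (i : ℕ) : A.kc.ix (b.rR, i) =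
    A.n' b + A.k' b + (A.n' b.rL + A.k' b.rL) + (A.n' b.r2 + A.k' b.r2) + i := by
  unfold KCur.ix
  show A.kc.off (A.sd b.rR) (A.bs b.rR.facet) + i = _
  rw [sd_3 hb, FSt.facet_rR, hb]
  rfl

end Ix

/-- number of places of the new curve -/
def tt (A : MCur P) (b : P.FSt) : ℕ := A.n' b + A.k' b + (A.n' b.rL + A.k' b.rL) +
  (A.n' b.r2 + A.k' b.r2) + (A.n' b.rR + A.k' b.rR)

/-- the position before wrapping -/
noncomputable def gg (A : MCur P) (p : P.FSt × ℕ) : ℕ :=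
  A.kc.off (A.sd p.1) (A.bs p.1.facet) + A.xs p.1 + p.2

lemma crn (u : P.FSt) : (A.k u = 0 ∧ A.m u = 0 ∧ A.k' u = 0 ∧ A.xs u.rL = A.xe u) ∨
    (A.k u ≠ 0 ∧ A.k' u = 1 ∧ A.xe u = A.m u ∧ A.xe u + A.xs u.rL + 1 = A.k u) := by
  by_cases h : A.k u = 0
  · exact Or.inl ⟨h, A.m0 _ h, k'_zero h, eq_x h⟩
  · obtain ⟨u1, u2⟩ := used h
    exact Or.inr ⟨h, k'_one h, u1, u2⟩

lemma n'_eq (u : P.FSt) : A.n' u = A.xs u + A.n u + A.xe u := rfl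

/-- all relations of a facet -/
lemma rels (A : MCur P) (b : P.FSt) : (A.n' b = A.xs b + A.n b + A.xe b ∧
    A.n' b.rL = A.xs b.rL + A.n b.rL + A.xe b.rL ∧
    A.n' b.r2 = A.xs b.r2 + A.n b.r2 + A.xe b.r2 ∧
    A.n' b.rR = A.xs b.rR + A.n b.rR + A.xe b.rR) ∧
    ((A.k b = 0 ∧ A.m b = 0 ∧ A.k' b = 0 ∧ A.xs b.rL = A.xe b) ∨
      (A.k b ≠ 0 ∧ A.k' b = 1 ∧ A.xe b = A.m b ∧ A.xe b + A.xs b.rL + 1 = A.k b)) ∧
    ((A.k b.rL = 0 ∧ A.m b.rL = 0 ∧ A.k' b.rL = 0 ∧ A.xs b.r2 = A.xe b.rL) ∨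
      (A.k b.rL ≠ 0 ∧ A.k' b.rL = 1 ∧ A.xe b.rL = A.m b.rL ∧
        A.xe b.rL + A.xs b.r2 + 1 = A.k b.rL)) ∧
    ((A.k b.r2 = 0 ∧ A.m b.r2 = 0 ∧ A.k' b.r2 = 0 ∧ A.xs b.rR = A.xe b.r2) ∨
      (A.k b.r2 ≠ 0 ∧ A.k' b.r2 = 1 ∧ A.xe b.r2 = A.m b.r2 ∧
        A.xe b.r2 + A.xs b.rR + 1 = A.k b.r2)) ∧
    ((A.k b.rR = 0 ∧ A.m b.rR = 0 ∧ A.k' b.rR = 0 ∧ A.xs b = A.xe b.rR) ∨
      (A.k b.rR ≠ 0 ∧ A.k' b.rR = 1 ∧ A.xe b.rR = A.m b.rR ∧
        A.xe b.rR + A.xs b + 1 = A.k b.rR)) := by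
  have h0 := crn (A := A) b
  have h1 := crn (A := A) b.rL
  have h2 := crn (A := A) b.r2
  have h3 := crn (A := A) b.rR
  rw [FSt.rL_rL] at h1
  rw [FSt.r2_rL] at h2
  rw [FSt.rR_rL] at h3
  exact ⟨⟨rfl, rfl, rfl, rfl⟩, h0, h1, h2, h3⟩

/-- the four sides -/
lemma sides {F : P.Facet} {b : P.FSt} (hb : A.bs F = b) {t : P.FSt} (ht : t.facet = F) :
    A.bs b.facet = b ∧ (t = b ∨ t = b.rL ∨ t = b.r2 ∨ t = b.rR) := by
  have hf : b.facet = F := by rw [← hb, A.bs_f]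
  refine ⟨by rw [hf]; exact hb, ?_⟩
  exact frames (ht.trans hf.symm)

section Pos

variable {b : P.FSt} (hb : A.bs b.facet = b)

include hb

lemma gg_0 (i : ℕ) : A.gg (b, i) = A.xs b + i := by
  show A.kc.off (A.sd b) (A.bs b.facet) + A.xs b + i = _
  rw [sd_0 hb, hb]
  show 0 + A.xs b + i = _
  omega

lemma gg_1 (i : ℕ) : A.gg (b.rL, i) = A.n' b + A.k' b + A.xs b.rL + i := by
  show A.kc.off (A.sd b.rL) (A.bs b.rL.facet) + A.xs b.rL + i = _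
  rw [sd_1 hb, FSt.facet_rL, hb]
  rfl

lemma gg_2 (i : ℕ) : A.gg (b.r2, i) =
    A.n' b + A.k' b + (A.n' b.rL + A.k' b.rL) + A.xs b.r2 + i := by
  show A.kc.off (A.sd b.r2) (A.bs b.r2.facet) + A.xs b.r2 + i = _
  rw [sd_2 hb, FSt.facet_r2, hb]
  rfl

lemma gg_3 (i : ℕ) : A.gg (b.rR, i) =
    A.n' b + A.k' b + (A.n' b.rL + A.k' b.rL) + (A.n' b.r2 + A.k' b.r2) + A.xs b.rR + i := by
  show A.kc.off (A.sd b.rR) (A.bs b.rR.facet) + A.xs b.rR + i = _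
  rw [sd_3 hb, FSt.facet_rR, hb]
  rfl

end Pos

/-- positions of the old places -/
lemma ix_pl {b : P.FSt} {p : P.FSt × ℕ} (hp : A.Va p) (hb : A.bs p.1.facet = b) :
    A.kc.ix (A.pl p) < A.tt b ∧
    (A.kc.ix (A.pl p) = A.gg p ∨ A.kc.ix (A.pl p) + A.tt b = A.gg p) ∧
    A.xs b ≤ A.gg p ∧ A.gg p < A.xs b + A.tt b := by
  obtain ⟨hbb, hs⟩ := sides hb rfl
  obtain ⟨⟨r0, r1, r2, r3⟩, c0, c1, c2, c3⟩ := rels A b
  have h0 : p.2 < A.n p.1 + A.k p.1 := hp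
  obtain ⟨t, j⟩ := p
  dsimp only at h0 hs hb
  have hpl := pl_cases hp
  dsimp only at hpl
  have ht : A.tt b = A.n' b + A.k' b + (A.n' b.rL + A.k' b.rL) +
    (A.n' b.r2 + A.k' b.r2) + (A.n' b.rR + A.k' b.rR) := rfl
  rcases hs with rfl | rfl | rfl | rfl
  · rw [gg_0 hbb]
    rcases hpl with ⟨h1, h2, h3, h4⟩ | ⟨h1, h2, h3, h4⟩ <;> rw [h3]
    · rw [kix_1 hbb]; omega
    · rw [kix_0 hbb]; omega
  · rw [gg_1 hbb]
    rcases hpl with ⟨h1, h2, h3, h4⟩ | ⟨h1, h2, h3, h4⟩ <;> rw [h3]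
    · rw [FSt.rL_rL] at h4 ⊢
      rw [kix_2 hbb]; omega
    · rw [kix_1 hbb]; omega
  · rw [gg_2 hbb]
    rcases hpl with ⟨h1, h2, h3, h4⟩ | ⟨h1, h2, h3, h4⟩ <;> rw [h3]
    · rw [FSt.r2_rL] at h4 ⊢
      rw [kix_3 hbb]; omega
    · rw [kix_2 hbb]; omega
  · rw [gg_3 hbb]
    rcases hpl with ⟨h1, h2, h3, h4⟩ | ⟨h1, h2, h3, h4⟩ <;> rw [h3]
    · rw [FSt.rR_rL] at h4 ⊢
      rw [kix_0 hbb]; omega
    · rw [kix_3 hbb]; omega

/-- the positions are monotone -/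
lemma gg_lt {p p' : P.FSt × ℕ} (hp : A.Va p) (hp' : A.Va p') (hf : p.1.facet = p'.1.facet)
    (h : A.ix p < A.ix p') : A.gg p < A.gg p' := by
  obtain ⟨b, hb⟩ : ∃ b, A.bs p.1.facet = b := ⟨_, rfl⟩
  obtain ⟨hbb, hs⟩ := sides hb rfl
  obtain ⟨-, hs'⟩ := sides hb hf.symm
  obtain ⟨⟨r0, r1, r2, r3⟩, c0, c1, c2, c3⟩ := rels A b
  have h0 : p.2 < A.n p.1 + A.k p.1 := hp
  have h0' : p'.2 < A.n p'.1 + A.k p'.1 := hp'
  obtain ⟨t, j⟩ := p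
  obtain ⟨t', j'⟩ := p'
  dsimp only at h0 h0' hs hs'
  rcases hs with rfl | rfl | rfl | rfl <;> rcases hs' with rfl | rfl | rfl | rfl <;>
    simp only [aix_0 hbb, aix_1 hbb, aix_2 hbb, aix_3 hbb, gg_0 hbb, gg_1 hbb, gg_2 hbb,
      gg_3 hbb] at h ⊢ <;> omega

lemma ix_inj {p p' : P.FSt × ℕ} (h : A.Va p) (h' : A.Va p') (hf : p.1.facet = p'.1.facet)
    (hi : A.ix p = A.ix p') : p = p' := by
  obtain ⟨b, hb⟩ : ∃ b, A.bs p.1.facet = b := ⟨_, rfl⟩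
  obtain ⟨hbb, hs⟩ := sides hb rfl
  obtain ⟨-, hs'⟩ := sides hb hf.symm
  have h0 : p.2 < A.n p.1 + A.k p.1 := h
  have h0' : p'.2 < A.n p'.1 + A.k p'.1 := h'
  obtain ⟨t, j⟩ := p
  obtain ⟨t', j'⟩ := p'
  dsimp only at h0 h0' hs hs'
  rcases hs with rfl | rfl | rfl | rfl <;> rcases hs' with rfl | rfl | rfl | rfl <;>
    simp only [aix_0 hbb, aix_1 hbb, aix_2 hbb, aix_3 hbb] at hi <;>
    first
    | exact Prod.ext rfl (by dsimp only; omega)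
    | (exfalso; omega)

/-- the positions of a cut: `E` is the corner -/
structure CutAt (A : MCur P) (b : P.FSt) (x y E e : ℕ) (i : ℕ) : Prop where
  hx : x + 1 + i = E
  hy : (y = E + i ∧ E + e ≤ A.tt b) ∨ (y = i ∧ E = A.tt b ∧ e = A.xs b)
  hi : i < e
  he : A.xs b + e ≤ E
  old : ∀ p, A.Va p → A.bs p.1.facet = b → A.gg p + e < E ∨ E + e ≤ A.gg p

/-- positions of a cut -/
lemma cut_at {b : P.FSt} {u : P.FSt} (hb : A.bs u.facet = b) (h : A.k u = 0) {i : ℕ}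
    (hi : i < A.xe u) :
    A.CutAt b (A.kc.ix (u, A.n' u - 1 - i)) (A.kc.ix (u.rL, i))
      (A.kc.ix (u, A.n' u - 1 - i) + 1 + i) (A.xe u) i := by
  have hiu := hi
  obtain ⟨hbb, hs⟩ := sides hb rfl
  obtain ⟨⟨r0, r1, r2, r3⟩, c0, c1, c2, c3⟩ := rels A b
  have ht : A.tt b = A.n' b + A.k' b + (A.n' b.rL + A.k' b.rL) +
    (A.n' b.r2 + A.k' b.r2) + (A.n' b.rR + A.k' b.rR) := rfl
  have old : ∀ E e, (∀ i, i < A.n b + A.k b → A.gg (b, i) + e < E ∨ E + e ≤ A.gg (b, i)) →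
      (∀ i, i < A.n b.rL + A.k b.rL → A.gg (b.rL, i) + e < E ∨ E + e ≤ A.gg (b.rL, i)) →
      (∀ i, i < A.n b.r2 + A.k b.r2 → A.gg (b.r2, i) + e < E ∨ E + e ≤ A.gg (b.r2, i)) →
      (∀ i, i < A.n b.rR + A.k b.rR → A.gg (b.rR, i) + e < E ∨ E + e ≤ A.gg (b.rR, i)) →
      ∀ p, A.Va p → A.bs p.1.facet = b → A.gg p + e < E ∨ E + e ≤ A.gg p := by
    intro E e k0 k1 k2 k3 p hp hbp
    obtain ⟨-, hs'⟩ := sides hbp rfl
    obtain ⟨t, j⟩ := p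
    have h0 : j < A.n t + A.k t := hp
    dsimp only at hs'
    rcases hs' with rfl | rfl | rfl | rfl
    · exact k0 _ h0
    · exact k1 _ h0
    · exact k2 _ h0
    · exact k3 _ h0
  have g0 := fun i => gg_0 (A := A) hbb i
  have g1 := fun i => gg_1 (A := A) hbb i
  have g2 := fun i => gg_2 (A := A) hbb i
  have g3 := fun i => gg_3 (A := A) hbb i
  rcases hs with rfl | rfl | rfl | rfl
  · rw [kix_0 hbb, kix_1 hbb]
    refine ⟨rfl, by omega, hi, by omega, old _ _ ?_ ?_ ?_ ?_⟩ <;> intro j hj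
    · rw [g0]; omega
    · rw [g1]; omega
    · rw [g2]; omega
    · rw [g3]; omega
  · rw [kix_1 hbb, FSt.rL_rL, kix_2 hbb]
    refine ⟨rfl, by omega, hi, by omega, old _ _ ?_ ?_ ?_ ?_⟩ <;> intro j hj
    · rw [g0]; omega
    · rw [g1]; omega
    · rw [g2]; omega
    · rw [g3]; omega
  · rw [kix_2 hbb, FSt.r2_rL, kix_3 hbb]
    refine ⟨rfl, by omega, hi, by omega, old _ _ ?_ ?_ ?_ ?_⟩ <;> intro j hj
    · rw [g0]; omega
    · rw [g1]; omega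
    · rw [g2]; omega
    · rw [g3]; omega
  · rw [kix_3 hbb, FSt.rR_rL, kix_0 hbb]
    refine ⟨rfl, by omega, hi, by omega, old _ _ ?_ ?_ ?_ ?_⟩ <;> intro j hj
    · rw [g0]; omega
    · rw [g1]; omega
    · rw [g2]; omega
    · rw [g3]; omega

/-- position of the corner -/
noncomputable def EE (A : MCur P) (u : P.FSt) : ℕ := A.kc.ix (u, 0) + A.n' u

lemma ee_cut {u : P.FSt} {i : ℕ} (hi : i < A.xe u) :
    A.kc.ix (u, A.n' u - 1 - i) + 1 + i = A.EE u := by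
  have h1 : ∀ j, A.kc.ix (u, j) = A.kc.ix (u, 0) + j := fun j => by
    unfold KCur.ix
    dsimp only
    omega
  have hn := n'_eq (A := A) u
  unfold EE
  rw [h1]
  omega

/-- positions of two cuts -/
lemma cut_two {b : P.FSt} {u v : P.FSt} (hb : A.bs u.facet = b) (hb' : A.bs v.facet = b)
    (h : A.k u = 0) (h' : A.k v = 0) (huv : u ≠ v) :
    (A.EE u + A.xe u + A.xe v ≤ A.EE v ∨ A.EE v + A.xe u + A.xe v ≤ A.EE u) ∧
    (A.EE u = A.tt b → A.xe u + A.xe v ≤ A.EE v) ∧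
    (A.EE v = A.tt b → A.xe v + A.xe u ≤ A.EE u) := by
  obtain ⟨hbb, hs⟩ := sides hb rfl
  obtain ⟨-, hs'⟩ := sides hb' rfl
  obtain ⟨⟨r0, r1, r2, r3⟩, c0, c1, c2, c3⟩ := rels A b
  have ht : A.tt b = A.n' b + A.k' b + (A.n' b.rL + A.k' b.rL) +
    (A.n' b.r2 + A.k' b.r2) + (A.n' b.rR + A.k' b.rR) := rfl
  have e0 : A.EE b = A.n' b := by
    unfold EE; rw [kix_0 hbb]; omega
  have e1 : A.EE b.rL = A.n' b + A.k' b + A.n' b.rL := by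
    unfold EE; rw [kix_1 hbb]; omega
  have e2 : A.EE b.r2 = A.n' b + A.k' b + (A.n' b.rL + A.k' b.rL) + A.n' b.r2 := by
    unfold EE; rw [kix_2 hbb]; omega
  have e3 : A.EE b.rR = A.n' b + A.k' b + (A.n' b.rL + A.k' b.rL) +
      (A.n' b.r2 + A.k' b.r2) + A.n' b.rR := by
    unfold EE; rw [kix_3 hbb]; omega
  rcases hs with rfl | rfl | rfl | rfl <;> rcases hs' with rfl | rfl | rfl | rfl <;>
    first
    | exact absurd rfl huv
    | (refine ⟨by omega, fun _ => by omega, fun _ => by omega⟩)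

/-- the old chords do not cross -/
lemma nc_gg (hnc : A.NC) {p p' : P.FSt × ℕ} (hp : A.Va p) (hp' : A.Va p')
    (hf : p.1.facet = p'.1.facet) (h1 : A.gg p < A.gg p') (h2 : A.gg p' < A.gg (A.mu p)) :
    A.gg p < A.gg (A.mu p') ∧ A.gg (A.mu p') < A.gg (A.mu p) := by
  have hm := A.mu_va p hp
  have hm' := A.mu_va p' hp'
  have hfm := A.mu_f p hp
  have hfm' := A.mu_f p' hp'
  have key : ∀ {x y : P.FSt × ℕ}, A.Va x → A.Va y → x.1.facet = y.1.facet →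
      A.gg x < A.gg y → A.ix x < A.ix y := by
    intro x y hx hy hxy h
    rcases lt_trichotomy (A.ix x) (A.ix y) with h3 | h3 | h3
    · exact h3
    · have := ix_inj hx hy hxy h3
      rw [this] at h
      exact absurd h (lt_irrefl _)
    · have := gg_lt hy hx hxy.symm h3
      omega
  obtain ⟨k1, k2⟩ := hnc p p' hp hp' hf (key hp hp' hf h1)
    (key hp' hm (hf.symm.trans hfm.symm) h2)
  exact ⟨gg_lt hp hm' (hf.trans hfm'.symm) k1, gg_lt hm' hm ((hfm'.trans hf.symm).trans hfm.symm) k2⟩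

end MCur

end Pool.Agent.MP42.NE
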