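import Pool.Agent.MP42.NE.MCur5

/-!
# Curves with several strands through a vertex: layout (owner helper18)
-/

set_option autoImplicit false

namespace Pool.Agent.MP42.NE

open Pool.Agent.Helper55.UNF Pool.Agent.Helper55.UNF.GridSolid Relation

variable {P : GridSolid}

namespace MCur

variable {A : MCur P}

/-- the chord of a place -/
lemma chord_rep {q : P.FSt × ℕ} (h : A.Vb q) :
    (∃ p, A.Va p ∧ p.1.facet = q.1.facet ∧ q = A.pl p ∧ A.mu' q = A.pl (A.mu p)) ∨
    (∃ u i, A.k u = 0 ∧ i < A.xe u ∧ u.facet = q.1.facet ∧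
      ((q = (u, A.n' u - 1 - i) ∧ A.mu' q = (u.rL, i)) ∨
        (q = (u.rL, i) ∧ A.mu' q = (u, A.n' u - 1 - i)))) := by
  by_cases ho : A.Ol q
  · left
    exact ⟨A.un q, un_va h ho, un_facet q, (pl_un h ho).symm, mu'_old ho⟩
  · right
    rcases cut_cases h ho with ⟨u, i, h1, h2, h3⟩ | ⟨u, i, h1, h2, h3⟩
    · refine ⟨u, i, h1, h2, by rw [h3], Or.inl ⟨h3, ?_⟩⟩
      rw [h3]; exact (cutE h1 h2).2.2
    · refine ⟨u, i, h1, h2, by rw [h3]; rfl, Or.inr ⟨h3, ?_⟩⟩
      rw [h3]; exact (cutN h1 h2).2.2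

lemma gg_inj {p p' : P.FSt × ℕ} (hp : A.Va p) (hp' : A.Va p') (hf : p.1.facet = p'.1.facet)
    (h : A.gg p = A.gg p') : p = p' := by
  rcases lt_trichotomy (A.ix p) (A.ix p') with h3 | h3 | h3
  · have := gg_lt hp hp' hf h3
    omega
  · exact ix_inj hp hp' hf h3
  · have := gg_lt hp' hp hf.symm h3
    omega

/-- the chords do not cross -/
theorem kc_nc (hnc : A.NC) : A.kc.NC := by
  intro q q' hq hq' hf h1 h2
  obtain ⟨b, hb⟩ : ∃ b, A.bs q.1.facet = b := ⟨_, rfl⟩
  have hb' : A.bs q'.1.facet = b := by rw [← hf]; exact hb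
  show A.kc.ix q < A.kc.ix (A.mu' q') ∧ A.kc.ix (A.mu' q') < A.kc.ix (A.mu' q)
  have h2' : A.kc.ix q' < A.kc.ix (A.mu' q) := h2
  clear h2
  rcases chord_rep (A := A) hq with ⟨p, p1, p2, p3, p4⟩ | ⟨u, i, u1, u2, u3, u4⟩
  · have hpb : A.bs p.1.facet = b := by rw [p2]; exact hb
    have hm := A.mu_va p p1
    have hfm := A.mu_f p p1
    have hmb : A.bs (A.mu p).1.facet = b := by rw [hfm]; exact hpb
    obtain ⟨a1, a2, a3, a4⟩ := ix_pl p1 hpb
    obtain ⟨b1, b2, b3, b4⟩ := ix_pl hm hmb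
    rcases chord_rep (A := A) hq' with ⟨p', p1', p2', p3', p4'⟩ | ⟨v, j, v1, v2, v3, v4⟩
    · have hpb' : A.bs p'.1.facet = b := by rw [p2']; exact hb'
      have hm' := A.mu_va p' p1'
      have hfm' := A.mu_f p' p1'
      have hmb' : A.bs (A.mu p').1.facet = b := by rw [hfm']; exact hpb'
      obtain ⟨c1, c2, c3, c4⟩ := ix_pl p1' hpb'
      obtain ⟨d1, d2, d3, d4⟩ := ix_pl hm' hmb'
      have hpf : p.1.facet = p'.1.facet := by rw [p2, p2', hf]
      have n1 := nc_gg hnc p1 p1' hpf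
      have n2 := nc_gg hnc hm p1' (hfm.trans hpf)
      have n3 := nc_gg hnc p1 hm' (hpf.trans hfm'.symm)
      have n4 := nc_gg hnc hm hm' ((hfm.trans hpf).trans hfm'.symm)
      rw [A.mu_mu p p1] at n2 n4
      rw [A.mu_mu p' p1'] at n3 n4
      have d5 : A.gg p = A.gg (A.mu p') → A.gg (A.mu p) = A.gg p' := fun h => by
        rw [gg_inj p1 hm' (hpf.trans hfm'.symm) h, A.mu_mu p' p1']
      have d6 : A.gg (A.mu p) = A.gg (A.mu p') → A.gg p = A.gg p' := fun h => by
        have h7 := congrArg A.mu (gg_inj hm hm' ((hfm.trans hpf).trans hfm'.symm) h)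
        rw [A.mu_mu p p1, A.mu_mu p' p1'] at h7
        rw [h7]
      have w1 := congrArg A.kc.ix p3
      have w2 := congrArg A.kc.ix p4
      have w3 := congrArg A.kc.ix p3'
      have w4 := congrArg A.kc.ix p4'
      rw [← w1] at a1 a2
      rw [← w2] at b1 b2
      rw [← w3] at c1 c2
      rw [← w4] at d1 d2
      clear w1 w2 w3 w4 p3 p4 p3' p4'
      omega
    · have hvb : A.bs v.facet = b := by rw [v3]; exact hb'
      obtain ⟨k1, k2, k3, k4, k5⟩ := cut_at hvb v1 v2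
      have o1 := k5 p p1 hpb
      have o2 := k5 (A.mu p) hm hmb
      have w1 := congrArg A.kc.ix p3
      have w2 := congrArg A.kc.ix p4
      rcases v4 with ⟨v4, v5⟩ | ⟨v4, v5⟩
      · have w3 := congrArg A.kc.ix v4
        have w4 := congrArg A.kc.ix v5
        omega
      · have w3 := congrArg A.kc.ix v4
        have w4 := congrArg A.kc.ix v5
        omega
  · have hub : A.bs u.facet = b := by rw [u3]; exact hb
    obtain ⟨k1, k2, k3, k4, k5⟩ := cut_at hub u1 u2
    rcases chord_rep (A := A) hq' with ⟨p', p1', p2', p3', p4'⟩ | ⟨v, j, v1, v2, v3, v4⟩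
    · have hpb' : A.bs p'.1.facet = b := by rw [p2']; exact hb'
      have hm' := A.mu_va p' p1'
      have hfm' := A.mu_f p' p1'
      have hmb' : A.bs (A.mu p').1.facet = b := by rw [hfm']; exact hpb'
      obtain ⟨c1, c2, c3, c4⟩ := ix_pl p1' hpb'
      obtain ⟨d1, d2, d3, d4⟩ := ix_pl hm' hmb'
      have o1 := k5 p' p1' hpb'
      have o2 := k5 (A.mu p') hm' hmb'
      have w3 := congrArg A.kc.ix p3'
      have w4 := congrArg A.kc.ix p4'
      rcases u4 with ⟨u4, u5⟩ | ⟨u4, u5⟩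
      · have w1 := congrArg A.kc.ix u4
        have w2 := congrArg A.kc.ix u5
        omega
      · have w1 := congrArg A.kc.ix u4
        have w2 := congrArg A.kc.ix u5
        omega
    · have hvb : A.bs v.facet = b := by rw [v3]; exact hb'
      obtain ⟨l1, l2, l3, l4, l5⟩ := cut_at hvb v1 v2
      have e1 := ee_cut (A := A) u2
      have e2 := ee_cut (A := A) v2
      rw [e1] at k2 k4
      rw [e2] at l2 l4
      by_cases huv : u = v
      · subst huv
        have hx : A.kc.ix (u, A.n' u - 1 - i) + i = A.kc.ix (u, A.n' u - 1 - j) + j := by omega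
        rcases u4 with ⟨u4, u5⟩ | ⟨u4, u5⟩ <;> rcases v4 with ⟨v4, v5⟩ | ⟨v4, v5⟩ <;>
          have w1 := congrArg A.kc.ix u4 <;> have w2 := congrArg A.kc.ix u5 <;>
          have w3 := congrArg A.kc.ix v4 <;> have w4 := congrArg A.kc.ix v5 <;> omega
      · obtain ⟨t1, t2, t3⟩ := cut_two hub hvb u1 v1 huv
        rcases u4 with ⟨u4, u5⟩ | ⟨u4, u5⟩ <;> rcases v4 with ⟨v4, v5⟩ | ⟨v4, v5⟩ <;>
          have w1 := congrArg A.kc.ix u4 <;> have w2 := congrArg A.kc.ix u5 <;>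
          have w3 := congrArg A.kc.ix v4 <;> have w4 := congrArg A.kc.ix v5 <;> omega

variable (A)

/-- bound of the crossings -/
def Fine (N : ℕ) : Prop := ∀ t, A.n t + A.k t ≤ N

variable {A}

lemma xe_le {N : ℕ} (h : A.Fine N) (t : P.FSt) : A.xe t ≤ N := by
  by_cases h0 : A.k t = 0
  · rcases between h0 with h1 | ⟨h1, h2, -⟩ | ⟨h1, h2, -⟩
    · omega
    · have h3 := A.m_op _ h1
      have h4 := h (rho t)
      omega
    · have h3 := A.m_op _ h1
      have h4 := h (rho (rho t))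
      omega
  · have h3 := used h0
    have h4 := h t
    omega

/-- **Layout of a curve that passes vertices several times.** -/
theorem Fr.hasEdgeUnfolding (B : A.Fr) (hnc : A.NC) (hC : A.orb.Conn)
    (hcov : ∀ F : P.Facet, ∃ p, A.Va p ∧ p.1.facet = F) {p0 : P.FSt × ℕ} (h0 : A.Va p0)
    {N Q : ℕ} (hN : A.Fine N) (hQ : 5 * (3 * N + 1) + 1 ≤ Q)
    (hK : 0 < 2 * Q + 1) : (P.refine (2 * Q + 1) hK).HasEdgeUnfolding := by
  have hF : A.kc.Fine (3 * N + 1) Q := by
    refine ⟨fun t => ?_, by omega, hQ⟩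
    have h1 := hN t
    have h2 := xe_le hN t
    have h3 := xe_le hN t.stE.r2
    have h4 := k'_le (A := A) t
    show A.n' t + A.k' t ≤ 3 * N + 1
    have h5 : A.n' t = A.xe t.stE.r2 + A.n t + A.xe t := rfl
    omega
  refine (B.kf (A.pl p0)).hasEdgeUnfolding hF (kc_nc hnc) (kc_conn hC) ?_ (pl_va h0) hK
  intro F
  obtain ⟨p, h1, h2⟩ := hcov F
  exact ⟨A.pl p, pl_va h1, by rw [pl_facet]; exact h2⟩

end MCur

end Pool.Agent.MP42.NE
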