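import Pool.Agent.MP42.NE.MFlow2
import Pool.Agent.MP42.NE.GFlow4

/-!
# Signed flows on facets: strands, types and the unfolding
-/

set_option autoImplicit false

namespace Pool.Agent.MP42.NE

open Pool.Agent.Helper55.UNF Pool.Agent.Helper55.UNF.GridSolid Relation

variable {P : GridSolid}

namespace MFlow

variable (A : MFlow P)

/-- the next strand -/
noncomputable def sc (s : P.FSt × ℕ) : P.FSt × ℕ := A.rv (A.st (A.cur.io (A.ex s)))

variable {A}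

lemma io_va {s : P.FSt × ℕ} (h : A.Va s) : A.Vp (A.cur.io (A.ex s)) :=
  MCur.io_va (A := A.cur) (ex_va h)

lemma sc_va {s : P.FSt × ℕ} (h : A.Va s) : A.Va (A.sc s) := rv_va (st_va (io_va h))

/-- the place where the next strand starts -/
lemma ex_rv_sc {s : P.FSt × ℕ} (h : A.Va s) : A.ex (A.rv (A.sc s)) = A.cur.io (A.ex s) := by
  unfold sc
  rw [rv_rv (st_va (io_va h)), ex_st (io_va h)]

lemma sc_rv_sc {s : P.FSt × ℕ} (h : A.Va s) : A.sc (A.rv (A.sc s)) = A.rv s := by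
  show A.rv (A.st (A.cur.io (A.ex (A.rv (A.sc s))))) = _
  rw [ex_rv_sc h, MCur.io_io (A := A.cur) (ex_va h), st_ex h]

variable (A)

/-- the strands of the flow -/
noncomputable def orb : Orb (P.FSt × ℕ) where
  Va := A.Va
  sc := A.sc
  rv := A.rv
  fin := by
    obtain ⟨k, hk⟩ : ∃ k, ∀ t : P.FSt, A.M t ≤ k := by
      have : Finite P.FSt := inferInstance
      obtain ⟨k, hk⟩ := (Set.finite_range A.M).bddAbove
      exact ⟨k, fun t => hk ⟨t, rfl⟩⟩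
    apply Set.Finite.subset (s := (Set.univ : Set P.FSt) ×ˢ (Set.Iio k))
    · exact Set.Finite.prod (Set.toFinite _) (Set.finite_Iio k)
    · rintro ⟨t, j⟩ h
      exact ⟨trivial, lt_of_lt_of_le h.2 (hk t)⟩
  sc_va := sc_va
  rv_va := rv_va
  rv_rv := rv_rv
  sc_rv_sc := sc_rv_sc
  sc_ne_rv := fun {s} h hcon => by
    have h1 : A.ex (A.rv (A.sc s)) = A.ex s := by rw [hcon, rv_rv h]
    rw [ex_rv_sc h] at h1
    have h2 := MCur.io_facet (A := A.cur) (ex_va h)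
    rw [h1] at h2
    exact h2 rfl
  rv_ne := fun _ => rv_ne _

variable {A}

lemma conn_cur (h : A.orb.Conn) : A.cur.orb.Conn := by
  refine h.map (B := A.cur.orb) A.ex A.st (fun p hp => st_va hp) (fun p hp => ex_st hp)
    (fun s hs => ?_) (fun s hs => ?_) (fun s hs => ex_va hs)
  · show A.ex (A.rv (A.st (A.cur.io (A.ex s)))) = A.ex (A.rv (A.st (A.cur.io (A.ex s))))
    rfl
  · show A.ex (A.rv s) = A.ex (A.rv (A.st (A.ex s)))
    rw [st_ex hs]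

/-! ## The next strand -/

/-- exit over the west side -/
def XW (A : MFlow P) (s : P.FSt × ℕ) : Prop := s.2 < A.wo s.1
/-- exit over the north side -/
def XN (A : MFlow P) (s : P.FSt × ℕ) : Prop := A.wo s.1 ≤ s.2 ∧ s.2 < A.wo s.1 + A.no s.1
/-- exit through the northeast corner -/
def XP (A : MFlow P) (s : P.FSt × ℕ) : Prop := A.wo s.1 + A.no s.1 ≤ s.2 ∧
  s.2 < A.wo s.1 + A.no s.1 + A.c s.1.r2
/-- exit over the east side -/
def XE (A : MFlow P) (s : P.FSt × ℕ) : Prop := A.wo s.1 + A.no s.1 + A.c s.1.r2 ≤ s.2 ∧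
  s.2 < A.wo s.1 + A.no s.1 + A.c s.1.r2 + A.eo s.1
/-- exit over the south side -/
def XS (A : MFlow P) (s : P.FSt × ℕ) : Prop :=
  A.wo s.1 + A.no s.1 + A.c s.1.r2 + A.eo s.1 ≤ s.2 ∧ s.2 < A.M s.1

lemma io_side {q : P.FSt} {i : ℕ} (h : i < A.n q) : A.cur.io (q, i) = (q.stE.r2, A.n q - 1 - i) :=
  MCur.io_not (A := A.cur) (p := (q, i)) (fun hc => by
    have h1 : A.n q ≤ i := hc
    omega)

/-- the strand that starts at a place -/
lemma rv_st {p : P.FSt × ℕ} {s : P.FSt × ℕ} (hs : A.Va s) (he : A.ex (A.rv s) = p) :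
    A.rv (A.st p) = s := by
  rw [← he, st_ex (rv_va hs), rv_rv hs]

lemma sc_of {s s' : P.FSt × ℕ} (hs : A.Va s')
    (he : A.ex (A.rv s') = A.cur.io (A.ex s)) : A.sc s = s' := rv_st hs he

lemma ex_XW {s : P.FSt × ℕ} (hx : A.XW s) : A.ex s = (s.1.r2, A.wo s.1 - 1 - s.2) := if_pos hx

lemma ex_XN {s : P.FSt × ℕ} (hx : A.XN s) :
    A.ex s = (s.1.rL, A.wo s.1 + A.no s.1 - 1 - s.2) := by
  unfold ex
  rw [if_neg (by have := hx.1; omega), if_pos hx.2]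

lemma ex_XP {s : P.FSt × ℕ} (hx : A.XP s) :
    A.ex s = (s.1, A.n s.1 + (A.wo s.1 + A.no s.1 + A.c s.1.r2 - 1 - s.2)) := by
  unfold ex
  have := hx.1
  rw [if_neg (by omega), if_neg (by omega), if_pos hx.2]

lemma ex_XE {s : P.FSt × ℕ} (hx : A.XE s) :
    A.ex s = (s.1, A.wo s.1 + A.no s.1 + A.c s.1.r2 + A.eo s.1 - 1 - s.2) := by
  unfold ex
  have := hx.1
  rw [if_neg (by omega), if_neg (by omega), if_neg (by omega), if_pos hx.2]

lemma ex_XS {s : P.FSt × ℕ} (hx : A.XS s) : A.ex s = (s.1.rR, A.M s.1 - 1 - s.2) := by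
  unfold ex
  have := hx.1
  rw [if_neg (by omega), if_neg (by omega), if_neg (by omega), if_neg (by omega)]

lemma XE_pos {s : P.FSt × ℕ} (hx : A.XE s) : 0 < A.A s.1.r2 := by
  have h1 := hx.1
  have h2 := hx.2
  have : 0 < A.eo s.1 := by omega
  unfold eo at this; omega

lemma XN_pos {s : P.FSt × ℕ} (hx : A.XN s) : 0 < A.B s.1.r2 := by
  have h1 := hx.1
  have h2 := hx.2
  have : 0 < A.no s.1 := by omega
  unfold no at this; omega

lemma XW_neg {s : P.FSt × ℕ} (hx : A.XW s) : A.A s.1 < 0 := by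
  have h1 : s.2 < A.wo s.1 := hx
  unfold wo at h1; omega

lemma XS_neg {s : P.FSt × ℕ} (h : A.nom s.1) (hx : A.XS s) : A.B s.1 < 0 := by
  have h1 := hx.1
  have h2 := hx.2
  rw [M_out h] at h2
  have : 0 < A.so s.1 := by omega
  unfold so at this; omega

lemma XP_one {s : P.FSt × ℕ} (hx : A.XP s) : A.c s.1.r2 ≠ 0 := by
  have h1 := hx.1
  have h2 := hx.2
  omega

lemma X_cases {s : P.FSt × ℕ} (h : A.Va s) : A.XW s ∨ A.XN s ∨ A.XP s ∨ A.XE s ∨ A.XS s := by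
  have h1 := h.2
  unfold XW XN XP XE XS
  omega

/-- entrances of the next facet, as exits of its half turn -/
lemma flip_nums (u : P.FSt) : A.wo u.r2 = A.ei u ∧ A.no u.r2 = A.si u ∧ A.eo u.r2 = A.wi u ∧
    A.so u.r2 = A.ni u := by
  unfold wo no eo so ni wi si ei
  rw [FSt.r2_r2]
  exact ⟨rfl, rfl, rfl, rfl⟩

lemma sc_E {s : P.FSt × ℕ} (h : A.Va s) (hx : A.XE s) (hf : A.nom s.1.stE)
    (hv : A.A s.1.stE = A.A s.1.r2) :
    A.sc s = (s.1.stE, A.ni s.1.stE + (s.2 - (A.wo s.1 + A.no s.1 + A.c s.1.r2))) := by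
  have h0 := XE_pos hx
  obtain ⟨h1, h2⟩ := hx
  have hn := n_nom h.1
  have he : A.n s.1 = A.eo s.1 := by rw [hn]; unfold eo; omega
  have hw : A.wi s.1.stE = A.eo s.1 := by unfold wi eo; rw [hv]
  have hM : A.M s.1.stE = _ := rfl
  unfold M at hM
  have hMr := M_r2 hf
  obtain ⟨f1, f2, f3, f4⟩ := flip_nums (A := A) s.1.stE
  have hva : A.Va (s.1.stE, A.ni s.1.stE + (s.2 - (A.wo s.1 + A.no s.1 + A.c s.1.r2))) :=
    ⟨hf, by dsimp only; unfold M; omega⟩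
  apply sc_of hva
  rw [ex_XE ⟨h1, h2⟩, io_side (by omega)]
  have hx' : A.XE (A.rv (s.1.stE, A.ni s.1.stE + (s.2 - (A.wo s.1 + A.no s.1 + A.c s.1.r2)))) := by
    unfold XE rv
    dsimp only
    rw [f1, f2, f3, FSt.r2_r2]
    unfold M
    omega
  rw [ex_XE hx']
  unfold rv
  refine Prod.ext rfl ?_
  dsimp only
  rw [f1, f2, f3, FSt.r2_r2]
  unfold M
  omega

lemma sc_E' {s : P.FSt × ℕ} (h : A.Va s) (hx : A.XE s) (hf : A.nom s.1.stE.rL)
    (hv : A.B s.1.stE.rL.r2 = -A.A s.1.r2) :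
    A.sc s = (s.1.stE.rL, s.2 - (A.wo s.1 + A.no s.1 + A.c s.1.r2)) := by
  have h0 := XE_pos hx
  obtain ⟨h1, h2⟩ := hx
  have hn := n_nom h.1
  have he : A.n s.1 = A.eo s.1 := by rw [hn]; unfold eo; omega
  have hw : A.ni s.1.stE.rL = A.eo s.1 := by unfold ni eo; rw [hv]; omega
  obtain ⟨f1, f2, f3, f4⟩ := flip_nums (A := A) s.1.stE.rL
  have hva : A.Va (s.1.stE.rL, s.2 - (A.wo s.1 + A.no s.1 + A.c s.1.r2)) :=
    ⟨hf, by dsimp only; unfold M; omega⟩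
  apply sc_of hva
  rw [ex_XE ⟨h1, h2⟩, io_side (by omega)]
  have hMr := M_r2 hf
  have hMo := M_out (A.nom_r2 _ hf)
  have hx' : A.XS (A.rv (s.1.stE.rL, s.2 - (A.wo s.1 + A.no s.1 + A.c s.1.r2))) := by
    unfold XS rv
    dsimp only
    omega
  rw [ex_XS hx']
  unfold rv
  refine Prod.ext ?_ ?_
  · show s.1.stE.rL.r2.rR = s.1.stE.r2
    rw [FSt.r2_rR, FSt.rL_rL]
  dsimp only
  have := hva.2
  dsimp only at this
  omega

lemma sc_N {s : P.FSt × ℕ} (h : A.Va s) (hx : A.XN s) (hf : A.nom s.1.stN)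
    (hv : A.B s.1.stN = A.B s.1.r2) :
    A.sc s = (s.1.stN, A.ni s.1.stN + A.wi s.1.stN + A.c s.1.stN + (s.2 - A.wo s.1)) := by
  have h0 := XN_pos hx
  obtain ⟨h1, h2⟩ := hx
  have hn := n_rL (A := A) h.1
  have he : A.n s.1.rL = A.no s.1 := by rw [hn]; unfold no; omega
  have hw : A.si s.1.stN = A.no s.1 := by unfold si no; rw [hv]
  obtain ⟨f1, f2, f3, f4⟩ := flip_nums (A := A) s.1.stN
  have hva : A.Va (s.1.stN, A.ni s.1.stN + A.wi s.1.stN + A.c s.1.stN + (s.2 - A.wo s.1)) :=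
    ⟨hf, by dsimp only; unfold M; omega⟩
  apply sc_of hva
  rw [ex_XN ⟨h1, h2⟩, io_side (by omega)]
  have hx' : A.XN (A.rv (s.1.stN, A.ni s.1.stN + A.wi s.1.stN + A.c s.1.stN +
      (s.2 - A.wo s.1))) := by
    unfold XN rv
    dsimp only
    rw [f1, f2]
    unfold M
    omega
  rw [ex_XN hx']
  unfold rv
  refine Prod.ext ?_ ?_
  · show s.1.stN.r2.rL = s.1.rL.stE.r2
    show s.1.rL.stE.rR.r2.rL = s.1.rL.stE.r2
    rw [FSt.rR_r2, FSt.rL_rL]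
  dsimp only
  rw [f1, f2]
  unfold M
  omega

lemma sc_N' {s : P.FSt × ℕ} (h : A.Va s) (hx : A.XN s) (hf : A.nom s.1.stN.rR)
    (hv : A.A s.1.stN.rR.r2 = -A.B s.1.r2) :
    A.sc s = (s.1.stN.rR, A.ni s.1.stN.rR + A.wi s.1.stN.rR + A.c s.1.stN.rR + A.si s.1.stN.rR +
      (s.2 - A.wo s.1)) := by
  have h0 := XN_pos hx
  obtain ⟨h1, h2⟩ := hx
  have hn := n_rL (A := A) h.1
  have he : A.n s.1.rL = A.no s.1 := by rw [hn]; unfold no; omega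
  have hw : A.ei s.1.stN.rR = A.no s.1 := by unfold ei no; rw [hv]; omega
  obtain ⟨f1, f2, f3, f4⟩ := flip_nums (A := A) s.1.stN.rR
  have hva : A.Va (s.1.stN.rR, A.ni s.1.stN.rR + A.wi s.1.stN.rR + A.c s.1.stN.rR +
      A.si s.1.stN.rR + (s.2 - A.wo s.1)) :=
    ⟨hf, by dsimp only; unfold M; omega⟩
  apply sc_of hva
  rw [ex_XN ⟨h1, h2⟩, io_side (by omega)]
  have hx' : A.XW (A.rv (s.1.stN.rR, A.ni s.1.stN.rR + A.wi s.1.stN.rR + A.c s.1.stN.rR +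
      A.si s.1.stN.rR + (s.2 - A.wo s.1))) := by
    unfold XW rv
    dsimp only
    rw [f1]
    unfold M
    omega
  rw [ex_XW hx']
  unfold rv
  refine Prod.ext ?_ ?_
  · show s.1.stN.rR.r2.r2 = s.1.rL.stE.r2
    show s.1.rL.stE.rR.rR.r2.r2 = s.1.rL.stE.r2
    rw [FSt.r2_r2, FSt.rR_rR]
  dsimp only
  rw [f1]
  unfold M
  omega

lemma sc_W {s : P.FSt × ℕ} (h : A.Va s) (hx : A.XW s) (hf : A.nom s.1.r2.stE)
    (hv : A.A s.1.r2.stE = A.A s.1) :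
    A.sc s = (s.1.r2.stE.r2, A.ni s.1.r2.stE.r2 + A.wi s.1.r2.stE.r2 + A.c s.1.r2.stE.r2 +
      A.si s.1.r2.stE.r2 + s.2) := by
  have h0 := XW_neg hx
  have h1 : s.2 < A.wo s.1 := hx
  have hn := n_nom (A.nom_r2 _ h.1)
  rw [FSt.r2_r2] at hn
  have he : A.n s.1.r2 = A.wo s.1 := by rw [hn]; unfold wo; omega
  have hw : A.ei s.1.r2.stE.r2 = A.wo s.1 := by unfold ei wo; rw [FSt.r2_r2, hv]
  obtain ⟨f1, f2, f3, f4⟩ := flip_nums (A := A) s.1.r2.stE.r2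
  have hf' := A.nom_r2 _ hf
  have hva : A.Va (s.1.r2.stE.r2, A.ni s.1.r2.stE.r2 + A.wi s.1.r2.stE.r2 + A.c s.1.r2.stE.r2 +
      A.si s.1.r2.stE.r2 + s.2) :=
    ⟨hf', by dsimp only; unfold M; omega⟩
  apply sc_of hva
  rw [ex_XW hx, io_side (by omega)]
  have hx' : A.XW (A.rv (s.1.r2.stE.r2, A.ni s.1.r2.stE.r2 + A.wi s.1.r2.stE.r2 +
      A.c s.1.r2.stE.r2 + A.si s.1.r2.stE.r2 + s.2)) := by
    unfold XW rv
    dsimp only
    rw [f1]
    unfold M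
    omega
  rw [ex_XW hx']
  unfold rv
  refine Prod.ext ?_ ?_
  · show s.1.r2.stE.r2.r2.r2 = s.1.r2.stE.r2
    rw [FSt.r2_r2]
  dsimp only
  rw [f1]
  unfold M
  omega

lemma sc_W' {s : P.FSt × ℕ} (h : A.Va s) (hx : A.XW s) (hf : A.nom s.1.r2.stE.rL)
    (hv : A.B s.1.r2.stE.rL.r2 = - A.A s.1) :
    A.sc s = (s.1.r2.stE.rR, A.ni s.1.r2.stE.rR + A.wi s.1.r2.stE.rR + A.c s.1.r2.stE.rR +
      s.2) := by
  have h0 := XW_neg hx
  have h1 : s.2 < A.wo s.1 := hx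
  have hn := n_nom (A.nom_r2 _ h.1)
  rw [FSt.r2_r2] at hn
  have he : A.n s.1.r2 = A.wo s.1 := by rw [hn]; unfold wo; omega
  rw [FSt.rL_r2] at hv
  have hf' := A.nom_r2 _ hf
  rw [FSt.rL_r2] at hf'
  have hw : A.si s.1.r2.stE.rR = A.wo s.1 := by unfold si wo; rw [hv]
  obtain ⟨f1, f2, f3, f4⟩ := flip_nums (A := A) s.1.r2.stE.rR
  have hva : A.Va (s.1.r2.stE.rR, A.ni s.1.r2.stE.rR + A.wi s.1.r2.stE.rR + A.c s.1.r2.stE.rR +
      s.2) :=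
    ⟨hf', by dsimp only; unfold M; omega⟩
  apply sc_of hva
  rw [ex_XW hx, io_side (by omega)]
  have hx' : A.XN (A.rv (s.1.r2.stE.rR, A.ni s.1.r2.stE.rR + A.wi s.1.r2.stE.rR +
      A.c s.1.r2.stE.rR + s.2)) := by
    unfold XN rv
    dsimp only
    rw [f1, f2]
    unfold M
    omega
  rw [ex_XN hx']
  unfold rv
  refine Prod.ext ?_ ?_
  · show s.1.r2.stE.rR.r2.rL = s.1.r2.stE.r2
    rw [FSt.rR_r2, FSt.rL_rL]
  dsimp only
  rw [f1, f2]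
  unfold M
  omega

lemma south_fr (t : P.FSt) : t.rR.stE = t.r2.stN.rL := by
  show t.rR.stE = t.r2.rL.stE.rR.rL
  rw [FSt.r2_rL, FSt.rR_rL]

lemma sc_S {s : P.FSt × ℕ} (h : A.Va s) (hx : A.XS s) (hf : A.nom s.1.r2.stN)
    (hv : A.B s.1.r2.stN = A.B s.1) :
    A.sc s = (s.1.r2.stN.r2, s.2 - (A.wo s.1 + A.no s.1 + A.c s.1.r2 + A.eo s.1)) := by
  have h0 := XS_neg h.1 hx
  obtain ⟨h1, h2⟩ := hx
  have hn := n_rR (A := A) h.1
  have he : A.n s.1.rR = A.so s.1 := by rw [hn]; unfold so; omega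
  have hw : A.ni s.1.r2.stN.r2 = A.so s.1 := by unfold ni so; rw [FSt.r2_r2, hv]
  obtain ⟨f1, f2, f3, f4⟩ := flip_nums (A := A) s.1.r2.stN.r2
  have hf' := A.nom_r2 _ hf
  have hMo := M_out h.1
  have hva : A.Va (s.1.r2.stN.r2, s.2 - (A.wo s.1 + A.no s.1 + A.c s.1.r2 + A.eo s.1)) :=
    ⟨hf', by dsimp only; unfold M; omega⟩
  apply sc_of hva
  rw [ex_XS ⟨h1, h2⟩, io_side (by omega)]
  have hMr := M_r2 hf'
  have hMo' := M_out (A.nom_r2 _ hf')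
  have := hva.2
  dsimp only at this
  have hx' : A.XS (A.rv (s.1.r2.stN.r2,
      s.2 - (A.wo s.1 + A.no s.1 + A.c s.1.r2 + A.eo s.1))) := by
    unfold XS rv
    dsimp only
    omega
  rw [ex_XS hx']
  unfold rv
  refine Prod.ext ?_ ?_
  · show s.1.r2.stN.r2.r2.rR = s.1.rR.stE.r2
    rw [south_fr, FSt.r2_r2, FSt.rL_r2]
  dsimp only
  omega

lemma sc_S' {s : P.FSt × ℕ} (h : A.Va s) (hx : A.XS s) (hf : A.nom s.1.r2.stN.rR)
    (hv : A.A s.1.r2.stN.rR.r2 = - A.B s.1) :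
    A.sc s = (s.1.r2.stN.rL, A.ni s.1.r2.stN.rL +
      (s.2 - (A.wo s.1 + A.no s.1 + A.c s.1.r2 + A.eo s.1))) := by
  have h0 := XS_neg h.1 hx
  obtain ⟨h1, h2⟩ := hx
  have hn := n_rR (A := A) h.1
  have he : A.n s.1.rR = A.so s.1 := by rw [hn]; unfold so; omega
  rw [FSt.rR_r2] at hv
  have hf' := A.nom_r2 _ hf
  rw [FSt.rR_r2] at hf'
  have hw : A.wi s.1.r2.stN.rL = A.so s.1 := by unfold wi so; rw [hv]
  obtain ⟨f1, f2, f3, f4⟩ := flip_nums (A := A) s.1.r2.stN.rL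
  have hMo := M_out h.1
  have hva : A.Va (s.1.r2.stN.rL, A.ni s.1.r2.stN.rL +
      (s.2 - (A.wo s.1 + A.no s.1 + A.c s.1.r2 + A.eo s.1))) :=
    ⟨hf', by dsimp only; unfold M; omega⟩
  apply sc_of hva
  rw [ex_XS ⟨h1, h2⟩, io_side (by omega)]
  have hx' : A.XE (A.rv (s.1.r2.stN.rL, A.ni s.1.r2.stN.rL +
      (s.2 - (A.wo s.1 + A.no s.1 + A.c s.1.r2 + A.eo s.1)))) := by
    unfold XE rv
    dsimp only
    rw [f1, f2, f3, FSt.r2_r2]
    unfold M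
    omega
  rw [ex_XE hx']
  unfold rv
  refine Prod.ext ?_ ?_
  · show s.1.r2.stN.rL.r2 = s.1.rR.stE.r2
    rw [south_fr]
  dsimp only
  rw [f1, f2, f3, FSt.r2_r2]
  have hMv : A.M s.1.r2.stN.rL = A.ni s.1.r2.stN.rL + A.wi s.1.r2.stN.rL + A.c s.1.r2.stN.rL +
    A.si s.1.r2.stN.rL + A.ei s.1.r2.stN.rL := rfl
  omega

lemma sc_P {s : P.FSt × ℕ} (h : A.Va s) (hx : A.XP s) :
    A.sc s = (opq s.1, A.ni (opq s.1) + A.wi (opq s.1) + (s.2 - (A.wo s.1 + A.no s.1))) := by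
  have h1 := XP_one hx
  obtain ⟨x1, x2⟩ := hx
  obtain ⟨h3, h4, h5⟩ := A.pass s.1 h.1 h1
  obtain ⟨f1, f2, f3, f4⟩ := flip_nums (A := A) (opq s.1)
  have hva : A.Va (opq s.1, A.ni (opq s.1) + A.wi (opq s.1) + (s.2 - (A.wo s.1 + A.no s.1))) :=
    ⟨h4, by dsimp only; unfold M; omega⟩
  apply sc_of hva
  rw [ex_XP ⟨x1, x2⟩]
  have hk : A.k s.1 = A.c s.1.r2 := k_nom h.1
  have e1 : A.cur.io (s.1, A.n s.1 + (A.wo s.1 + A.no s.1 + A.c s.1.r2 - 1 - s.2)) =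
      ((opq s.1).r2, A.n (opq s.1).r2 + (A.n s.1 + A.k s.1 - 1 -
        (A.n s.1 + (A.wo s.1 + A.no s.1 + A.c s.1.r2 - 1 - s.2)))) :=
    MCur.io_co (A := A.cur)
      (p := (s.1, A.n s.1 + (A.wo s.1 + A.no s.1 + A.c s.1.r2 - 1 - s.2)))
      (Nat.le_add_right _ _)
  rw [e1]
  have hx' : A.XP (A.rv (opq s.1, A.ni (opq s.1) + A.wi (opq s.1) +
      (s.2 - (A.wo s.1 + A.no s.1)))) := by
    unfold XP rv
    dsimp only
    rw [f1, f2, FSt.r2_r2]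
    unfold M
    omega
  rw [ex_XP hx']
  unfold rv
  refine Prod.ext rfl ?_
  dsimp only
  rw [f1, f2, FSt.r2_r2]
  unfold M
  omega

end MFlow

end Pool.Agent.MP42.NE
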