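import Pool.Agent.MP42.NE.Lane2

/-!
# Flows on facets with passages through vertices

Strands of a family of curves going north and east; a strand may pass a vertex from the northeast
corner of a facet to the southwest corner of the opposite facet.
-/

set_option autoImplicit false

namespace Pool.Agent.MP42.NE

open Pool.Agent.Helper55.UNF Pool.Agent.Helper55.UNF.GridSolid Relation

variable {P : GridSolid}

/-! ## The opposite quarter -/

/-- the facet reached from `t` round its northeast corner with the vertex on the left -/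
def opq (t : P.FSt) : P.FSt := t.stE.rL.stE.stN

/-- the way round the other side ends at the same facet -/
def PassOk (t : P.FSt) : Prop := t.stN.stE.rR.stE = opq t

/-- the next quarter at the northeast corner -/
def rho (s : P.FSt) : P.FSt := s.rL.stE.r2

/-- the previous quarter at the northeast corner -/
def rhoi (s : P.FSt) : P.FSt := s.stE.rL

lemma rhoi_rho (s : P.FSt) : rhoi (rho s) = s := by
  unfold rhoi rho
  rw [FSt.stE_inv, FSt.rL_r2, FSt.rR_rL]

lemma rho_rhoi (s : P.FSt) : rho (rhoi s) = s := by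
  unfold rhoi rho
  rw [FSt.rL_rL, FSt.stE_inv, FSt.r2_r2]

lemma rho_inj {s t : P.FSt} (h : rho s = rho t) : s = t := by
  rw [← rhoi_rho s, h, rhoi_rho]

lemma rho2 (t : P.FSt) : rho (rho t) = t.stN.stE.r2 := by
  show ((t.rL.stE.r2).rL.stE).r2 = ((t.rL.stE.rR).stE).r2
  rw [FSt.r2_rL]

lemma rho1 (t : P.FSt) : rho t = t.stN.rR := by
  show t.rL.stE.r2 = (t.rL.stE.rR).rR
  rw [FSt.rR_rR]

lemma rho3' (u : P.FSt) : rho (rho (rho u)) = (u.stN.stE.rR.stE).r2 := by
  have h1 := rho2 u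
  rw [h1]
  show ((u.stN.stE.r2).rL.stE).r2 = (u.stN.stE.rR.stE).r2
  rw [FSt.r2_rL]

lemma rho3 {t : P.FSt} (h : PassOk t) : rho (rho (rho t)) = (opq t).r2 := by
  rw [rho3' t]
  exact congrArg FSt.r2 h

lemma rhoi1 (t : P.FSt) : rhoi t = t.stE.rL := rfl

lemma rhoi2 (t : P.FSt) : rhoi (rhoi t) = t.stE.rL.stE.rL := rfl

lemma rhoi3 (t : P.FSt) : rhoi (rhoi (rhoi t)) = (opq t).r2 := by
  show (t.stE.rL.stE.rL).stE.rL = (t.stE.rL.stE.rL.stE.rR).r2
  rw [FSt.rR_r2]

lemma rho6 (t : P.FSt) : rho (rho (rho (opq t).r2)) = t := by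
  have h1 := rhoi3 t
  rw [← h1, rho_rhoi, rho_rhoi, rho_rhoi]

/-- the reversed passage -/
lemma opq_opq {t : P.FSt} (h : PassOk t) : opq (opq t).r2 = t.r2 := by
  have h1 := rhoi3 (opq t).r2
  have h2 : rhoi (rhoi (rhoi (opq t).r2)) = t := by
    have h3 := rho3 h
    rw [← h3, rhoi_rho, rhoi_rho, rhoi_rho]
  rw [h2] at h1
  have h4 := congrArg FSt.r2 h1
  rw [FSt.r2_r2] at h4
  exact h4.symm

lemma passOk_rev {t : P.FSt} (h : PassOk t) : PassOk (opq t).r2 := by
  have h1 := rho6 t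
  have h2 := rho3' (opq t).r2
  rw [h1] at h2
  unfold PassOk
  rw [opq_opq h]
  have h4 := congrArg FSt.r2 h2
  rw [FSt.r2_r2] at h4
  exact h4.symm

/-! ## Flows -/

/-- A flow on facets: `a` strands over the west side, `b` over the south side, `c` through the
southwest corner (in nominal frames). -/
structure PFlow (P : GridSolid) where
  nom : P.FSt → Prop
  nom_r2 : ∀ t, nom t → nom t.r2
  nom_ex : ∀ F : P.Facet, ∃ t, nom t ∧ t.facet = F
  nom_two : ∀ s t, nom s → nom t → s.facet = t.facet → s = t ∨ s = t.r2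
  a : P.FSt → ℕ
  b : P.FSt → ℕ
  c : P.FSt → ℕ
  c1 : ∀ t, c t ≤ 1
  bal : ∀ t, nom t → a t + b t + c t = a t.r2 + b t.r2 + c t.r2
  pos : ∀ t, nom t → 0 < a t + b t + c t
  east : ∀ t, nom t → 0 < a t.r2 → nom t.stE ∧ a t.stE = a t.r2
  north : ∀ t, nom t → 0 < b t.r2 → nom t.stN ∧ b t.stN = b t.r2
  pass : ∀ t, nom t → c t.r2 = 1 → PassOk t ∧ nom (opq t) ∧ c (opq t) = 1
  two : ∀ t, nom t → c t.r2 = 1 → rho (rho t) ≠ t ∧ (opq t).r2 ≠ t
  uniq1 : ∀ t, nom t → c t.r2 = 1 → nom (rho t) → c (rho t).r2 ≠ 1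
  uniq2 : ∀ t, nom t → c t.r2 = 1 → nom (rho (rho t)) → c (rho (rho t)).r2 ≠ 1

namespace PFlow

variable (A : PFlow P)

/-- number of strands of a facet -/
def M (t : P.FSt) : ℕ := A.a t + A.b t + A.c t

/-- admissible strands -/
def Va (s : P.FSt × ℕ) : Prop := A.nom s.1 ∧ s.2 < A.M s.1

/-- the next strand -/
def sc (s : P.FSt × ℕ) : P.FSt × ℕ :=
  if s.2 < A.b s.1.r2 then (s.1.stN, A.a s.1.stN + A.c s.1.stN + s.2)
  else if s.2 < A.b s.1.r2 + A.c s.1.r2 then (opq s.1, A.a (opq s.1))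
  else (s.1.stE, s.2 - (A.b s.1.r2 + A.c s.1.r2))

/-- the reversed strand -/
def rv (s : P.FSt × ℕ) : P.FSt × ℕ := (s.1.r2, A.M s.1 - 1 - s.2)

variable {A}

lemma M_r2 {t : P.FSt} (h : A.nom t) : A.M t.r2 = A.M t := (A.bal t h).symm

lemma M_pos {t : P.FSt} (h : A.nom t) : 0 < A.M t := A.pos t h

lemma rv_va {s : P.FSt × ℕ} (h : A.Va s) : A.Va (A.rv s) := by
  refine ⟨A.nom_r2 _ h.1, ?_⟩
  show A.M s.1 - 1 - s.2 < A.M s.1.r2
  rw [M_r2 h.1]
  have := h.2
  omega

lemma rv_rv {s : P.FSt × ℕ} (h : A.Va s) : A.rv (A.rv s) = s := by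
  unfold rv
  simp only
  rw [M_r2 h.1, FSt.r2_r2]
  have := h.2
  ext
  · rfl
  · show A.M s.1 - 1 - (A.M s.1 - 1 - s.2) = s.2
    omega

lemma sc_N {s : P.FSt × ℕ} (h : s.2 < A.b s.1.r2) :
    A.sc s = (s.1.stN, A.a s.1.stN + A.c s.1.stN + s.2) := if_pos h

lemma sc_P {s : P.FSt × ℕ} (h1 : ¬ s.2 < A.b s.1.r2) (h2 : s.2 < A.b s.1.r2 + A.c s.1.r2) :
    A.sc s = (opq s.1, A.a (opq s.1)) := by
  unfold sc; rw [if_neg h1, if_pos h2]

lemma sc_E {s : P.FSt × ℕ} (h1 : ¬ s.2 < A.b s.1.r2) (h2 : ¬ s.2 < A.b s.1.r2 + A.c s.1.r2) :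
    A.sc s = (s.1.stE, s.2 - (A.b s.1.r2 + A.c s.1.r2)) := by
  unfold sc; rw [if_neg h1, if_neg h2]

/-- data of a strand that passes a vertex -/
lemma pass_data {s : P.FSt × ℕ} (h : A.Va s) (h1 : ¬ s.2 < A.b s.1.r2)
    (h2 : s.2 < A.b s.1.r2 + A.c s.1.r2) : A.c s.1.r2 = 1 ∧ s.2 = A.b s.1.r2 ∧ PassOk s.1 ∧
    A.nom (opq s.1) ∧ A.c (opq s.1) = 1 := by
  have h3 := A.c1 s.1.r2
  have h4 : A.c s.1.r2 = 1 := by omega
  obtain ⟨h5, h6, h7⟩ := A.pass s.1 h.1 h4
  exact ⟨h4, by omega, h5, h6, h7⟩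

lemma sc_va {s : P.FSt × ℕ} (h : A.Va s) : A.Va (A.sc s) := by
  by_cases h1 : s.2 < A.b s.1.r2
  · rw [sc_N h1]
    obtain ⟨h2, h3⟩ := A.north s.1 h.1 (by omega)
    refine ⟨h2, ?_⟩
    show A.a s.1.stN + A.c s.1.stN + s.2 < A.a s.1.stN + A.b s.1.stN + A.c s.1.stN
    omega
  · by_cases h2 : s.2 < A.b s.1.r2 + A.c s.1.r2
    · rw [sc_P h1 h2]
      obtain ⟨h3, h4, h5, h6, h7⟩ := pass_data h h1 h2
      refine ⟨h6, ?_⟩
      show A.a (opq s.1) < A.a (opq s.1) + A.b (opq s.1) + A.c (opq s.1)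
      omega
    · rw [sc_E h1 h2]
      have h3 := A.bal s.1 h.1
      have h4 : s.2 < A.a s.1 + A.b s.1 + A.c s.1 := h.2
      obtain ⟨h5, h6⟩ := A.east s.1 h.1 (by omega)
      refine ⟨h5, ?_⟩
      show s.2 - (A.b s.1.r2 + A.c s.1.r2) < A.a s.1.stE + A.b s.1.stE + A.c s.1.stE
      omega

lemma stN_r2_stN (t : P.FSt) : t.stN.r2.stN = t.r2 := FSt.stN_inv t
lemma stE_r2_stE (t : P.FSt) : t.stE.r2.stE = t.r2 := FSt.stE_inv t

/-- going back -/
lemma sc_rv_sc {s : P.FSt × ℕ} (h : A.Va s) : A.sc (A.rv (A.sc s)) = A.rv s := by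
  by_cases h1 : s.2 < A.b s.1.r2
  · rw [sc_N h1]
    obtain ⟨h2, h3⟩ := A.north s.1 h.1 (by omega)
    set u := s.1.stN with hu
    have e1 : A.rv (u, A.a u + A.c u + s.2) = (u.r2, A.b u - 1 - s.2) := by
      unfold rv M
      ext
      · rfl
      · show A.a u + A.b u + A.c u - 1 - (A.a u + A.c u + s.2) = A.b u - 1 - s.2
        omega
    rw [e1, sc_N (by show A.b u - 1 - s.2 < A.b u.r2.r2; rw [FSt.r2_r2]; omega)]
    show (u.r2.stN, A.a u.r2.stN + A.c u.r2.stN + (A.b u - 1 - s.2)) = (s.1.r2, A.M s.1 - 1 - s.2)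
    have e2 : u.r2.stN = s.1.r2 := FSt.stN_inv s.1
    rw [e2, ← M_r2 h.1]
    unfold M
    ext
    · rfl
    · show A.a s.1.r2 + A.c s.1.r2 + (A.b u - 1 - s.2) =
        A.a s.1.r2 + A.b s.1.r2 + A.c s.1.r2 - 1 - s.2
      omega
  · by_cases h2 : s.2 < A.b s.1.r2 + A.c s.1.r2
    · rw [sc_P h1 h2]
      obtain ⟨h3, h4, h5, h6, h7⟩ := pass_data h h1 h2
      set u := opq s.1 with hu
      have e1 : A.rv (u, A.a u) = (u.r2, A.b u) := by
        unfold rv M
        ext
        · rfl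
        · show A.a u + A.b u + A.c u - 1 - A.a u = A.b u
          omega
      rw [e1, sc_P (by show ¬ A.b u < A.b u.r2.r2; rw [FSt.r2_r2]; omega)
        (by show A.b u < A.b u.r2.r2 + A.c u.r2.r2; rw [FSt.r2_r2]; omega)]
      show (opq u.r2, A.a (opq u.r2)) = (s.1.r2, A.M s.1 - 1 - s.2)
      rw [hu, opq_opq h5, ← M_r2 h.1]
      unfold M
      ext
      · rfl
      · show A.a s.1.r2 = A.a s.1.r2 + A.b s.1.r2 + A.c s.1.r2 - 1 - s.2
        omega
    · rw [sc_E h1 h2]
      have h3 := A.bal s.1 h.1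
      have h4 : s.2 < A.a s.1 + A.b s.1 + A.c s.1 := h.2
      obtain ⟨h5, h6⟩ := A.east s.1 h.1 (by omega)
      set u := s.1.stE with hu
      set j := s.2 - (A.b s.1.r2 + A.c s.1.r2) with hj
      have e1 : A.rv (u, j) = (u.r2, A.M u - 1 - j) := rfl
      have e3 : A.M u = A.a u + A.b u + A.c u := rfl
      rw [e1, sc_E (by show ¬ A.M u - 1 - j < A.b u.r2.r2; rw [FSt.r2_r2]; omega)
        (by show ¬ A.M u - 1 - j < A.b u.r2.r2 + A.c u.r2.r2; rw [FSt.r2_r2]; omega)]
      show (u.r2.stE, A.M u - 1 - j - (A.b u.r2.r2 + A.c u.r2.r2)) = (s.1.r2, A.M s.1 - 1 - s.2)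
      have e2 : u.r2.stE = s.1.r2 := FSt.stE_inv s.1
      rw [e2, FSt.r2_r2, ← M_r2 h.1]
      ext
      · rfl
      · show A.M u - 1 - j - (A.b u + A.c u) =
          A.a s.1.r2 + A.b s.1.r2 + A.c s.1.r2 - 1 - s.2
        omega

/-- steps do not turn a strand round -/
lemma sc_ne_rv {s : P.FSt × ℕ} (h : A.Va s) : A.sc s ≠ A.rv s := by
  intro hcon
  have h0 := congrArg Prod.fst hcon
  by_cases h1 : s.2 < A.b s.1.r2
  · rw [sc_N h1] at h0
    have h3 : s.1.stN = s.1.r2 := h0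
    have h4 : s.1.stN.facet = s.1.r2.facet := congrArg FSt.facet h3
    exact FSt.stN_facet_ne s.1 h4
  · by_cases h2 : s.2 < A.b s.1.r2 + A.c s.1.r2
    · rw [sc_P h1 h2] at h0
      obtain ⟨h3, h4, h5, h6, h7⟩ := pass_data h h1 h2
      apply (A.two s.1 h.1 h3).2
      rw [show opq s.1 = s.1.r2 from h0, FSt.r2_r2]
    · rw [sc_E h1 h2] at h0
      have h3 : s.1.stE = s.1.r2 := h0
      have h4 : s.1.stE.facet = s.1.r2.facet := congrArg FSt.facet h3
      exact FSt.stE_facet_ne s.1 h4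

lemma rv_ne (s : P.FSt × ℕ) : A.rv s ≠ s := by
  intro h
  have h0 : s.1.r2 = s.1 := congrArg Prod.fst h
  have h1 : opp s.1.1.e = s.1.1.e := congrArg (fun t : P.FSt => t.1.e) h0
  have h2 := congrArg Prod.snd h1
  revert h2
  show ¬ ((!s.1.1.e.2) = s.1.1.e.2)
  cases s.1.1.e.2 <;> decide

/-! ## The orbit -/

/-- the orbit of a strand -/
def it (A : PFlow P) (s : P.FSt × ℕ) (i : ℕ) : P.FSt × ℕ := A.sc^[i] s

lemma it_zero (s : P.FSt × ℕ) : A.it s 0 = s := rfl

lemma it_succ (s : P.FSt × ℕ) (i : ℕ) : A.it s (i + 1) = A.sc (A.it s i) :=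
  Function.iterate_succ_apply' _ _ _

lemma it_va {s : P.FSt × ℕ} (h : A.Va s) (i : ℕ) : A.Va (A.it s i) := by
  induction i with
  | zero => exact h
  | succ i ih => rw [it_succ]; exact sc_va ih

/-- going back `i` steps -/
lemma it_back {s : P.FSt × ℕ} (h : A.Va s) : ∀ i j, A.it (A.rv (A.it s (i + j))) i =
    A.rv (A.it s j) := by
  intro i
  induction i with
  | zero => intro j; rw [Nat.zero_add]; rfl
  | succ i ih =>
    intro j
    have h1 : i + 1 + j = i + (j + 1) := by omega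
    rw [it_succ, h1, ih (j + 1), it_succ]
    exact sc_rv_sc (it_va h j)

/-- **no strand is met in both directions** -/
lemma no_rev {s : P.FSt × ℕ} (h : A.Va s) : ∀ (d i : ℕ), A.it s (i + d) ≠ A.rv (A.it s i) := by
  intro d
  induction d using Nat.strong_induction_on with
  | _ d ih =>
    intro i hcon
    match d, ih with
    | 0, _ => exact rv_ne _ hcon.symm
    | 1, _ =>
      rw [it_succ] at hcon
      exact sc_ne_rv (it_va h i) hcon
    | d + 2, ih =>
      -- `it (i+1+d) = rv (it (i+1))`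
      apply ih d (by omega) (i + 1)
      have h1 : A.it s (i + (d + 2)) = A.sc (A.it s (i + 1 + d)) := by
        rw [← it_succ]; congr 1; omega
      rw [h1] at hcon
      have h2 := sc_rv_sc (it_va h (i + 1 + d))
      rw [hcon, rv_rv (it_va h i), ← it_succ] at h2
      rw [h2, rv_rv (it_va h _)]

lemma sc_inj {s t : P.FSt × ℕ} (hs : A.Va s) (ht : A.Va t) (h : A.sc s = A.sc t) : s = t := by
  have h1 := sc_rv_sc hs
  have h2 := sc_rv_sc ht
  rw [h, h2] at h1
  rw [← rv_rv hs, ← h1, rv_rv ht]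

lemma it_inj {s : P.FSt × ℕ} (h : A.Va s) : ∀ i j, A.it s (i + j) = A.it s i → A.it s j = s := by
  intro i
  induction i with
  | zero => intro j hj; rw [Nat.zero_add] at hj; exact hj
  | succ i ih =>
    intro j hj
    apply ih j
    rw [show i + 1 + j = i + j + 1 by omega, it_succ, it_succ] at hj
    exact sc_inj (it_va h _) (it_va h _) hj

/-- bound for the numbers -/
lemma fin_va (A : PFlow P) : Set.Finite {s : P.FSt × ℕ | A.Va s} := by
  obtain ⟨k, hk⟩ : ∃ k, ∀ t : P.FSt, A.M t ≤ k := by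
    have : Finite P.FSt := inferInstance
    obtain ⟨k, hk⟩ := (Set.finite_range A.M).bddAbove
    exact ⟨k, fun t => hk ⟨t, rfl⟩⟩
  apply Set.Finite.subset (s := (Set.univ : Set P.FSt) ×ˢ (Set.Iio k))
  · exact Set.Finite.prod (Set.toFinite _) (Set.finite_Iio k)
  · rintro ⟨t, j⟩ h
    exact ⟨trivial, lt_of_lt_of_le h.2 (hk t)⟩

lemma ex_period {s : P.FSt × ℕ} (h : A.Va s) : ∃ j, 0 < j ∧ A.it s j = s := by
  have hfin := fin_va A
  have : ¬ Function.Injective (A.it s) := by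
    intro hinj
    have h1 : Set.Infinite (Set.range (A.it s)) := Set.infinite_range_of_injective hinj
    apply h1
    apply hfin.subset
    rintro _ ⟨i, rfl⟩
    exact it_va h i
  rw [Function.Injective] at this
  push Not at this
  obtain ⟨i, j, hij, hne⟩ := this
  rcases lt_or_gt_of_ne hne with h1 | h1
  · refine ⟨j - i, by omega, it_inj h i (j - i) ?_⟩
    rw [show i + (j - i) = j by omega, hij]
  · refine ⟨i - j, by omega, it_inj h j (i - j) ?_⟩
    rw [show j + (i - j) = i by omega, hij]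

open Classical in
/-- the length of the orbit -/
noncomputable def per (A : PFlow P) (s : P.FSt × ℕ) : ℕ :=
  if h : ∃ j, 0 < j ∧ A.it s j = s then Nat.find h else 1

lemma per_spec {s : P.FSt × ℕ} (h : A.Va s) : 0 < A.per s ∧ A.it s (A.per s) = s := by
  classical
  have h1 := ex_period h
  unfold per
  rw [dif_pos h1]
  exact Nat.find_spec h1

lemma per_min {s : P.FSt × ℕ} (h : A.Va s) {j : ℕ} (h0 : 0 < j) (hj : j < A.per s) :
    A.it s j ≠ s := by
  classical
  have h1 := ex_period h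
  unfold per at hj
  rw [dif_pos h1] at hj
  intro h2
  exact Nat.find_min h1 hj ⟨h0, h2⟩

lemma per_inj {s : P.FSt × ℕ} (h : A.Va s) {i j : ℕ} (hi : i < A.per s) (hj : j < A.per s)
    (hij : A.it s i = A.it s j) : i = j := by
  rcases lt_trichotomy i j with h1 | h1 | h1
  · exact absurd (it_inj h i (j - i) (by rw [show i + (j - i) = j by omega, hij]))
      (per_min h (by omega) (by omega))
  · exact h1
  · exact absurd (it_inj h j (i - j) (by rw [show j + (i - j) = i by omega, hij]))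
      (per_min h (by omega) (by omega))

lemma it_per {s : P.FSt × ℕ} (h : A.Va s) (i : ℕ) : ∃ j < A.per s, A.it s j = A.it s i := by
  induction i with
  | zero => exact ⟨0, (per_spec h).1, rfl⟩
  | succ i ih =>
    obtain ⟨j, hj, h1⟩ := ih
    by_cases h2 : j + 1 < A.per s
    · exact ⟨j + 1, h2, by rw [it_succ, it_succ, h1]⟩
    · refine ⟨0, (per_spec h).1, ?_⟩
      rw [it_succ, ← h1, ← it_succ, show j + 1 = A.per s by omega, (per_spec h).2]
      rfl

/-- no strand is met in both directions -/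
lemma no_rev' {s : P.FSt × ℕ} (h : A.Va s) (i j : ℕ) : A.it s i ≠ A.rv (A.it s j) := by
  intro hcon
  rcases le_total j i with h1 | h1
  · obtain ⟨d, rfl⟩ := Nat.exists_eq_add_of_le h1
    exact no_rev h d j hcon
  · obtain ⟨d, rfl⟩ := Nat.exists_eq_add_of_le h1
    apply no_rev h d i
    rw [hcon, rv_rv (it_va h _)]

/-- the family is one closed curve -/
def Conn (A : PFlow P) : Prop := ∀ T : P.FSt × ℕ → Prop,
  (∀ s, A.Va s → (T (A.sc s) ↔ T s)) → (∀ s, A.Va s → (T (A.rv s) ↔ T s)) →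
  ∀ s s', A.Va s → A.Va s' → (T s ↔ T s')

lemma cover {s : P.FSt × ℕ} (h : A.Va s) (hC : A.Conn) {u : P.FSt × ℕ} (hu : A.Va u) :
    ∃ i < A.per s, A.it s i = u ∨ A.it s i = A.rv u := by
  have key := hC (fun u => ∃ i, A.it s i = u ∨ A.it s i = A.rv u) ?_ ?_ s u h hu
  · obtain ⟨i, hi⟩ := key.1 ⟨0, Or.inl rfl⟩
    obtain ⟨j, hj, h1⟩ := it_per h i
    exact ⟨j, hj, by rw [h1]; exact hi⟩
  · intro t ht
    constructor
    · rintro ⟨i, hi | hi⟩
      · -- it s i = sc t
        obtain ⟨hp, hq⟩ := per_spec h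
        have h1 : A.it s (i + A.per s) = A.it s i := by
          have : ∀ i, A.it s (i + A.per s) = A.it s i := by
            intro i
            induction i with
            | zero => rw [Nat.zero_add, hq]; rfl
            | succ i ih => rw [show i + 1 + A.per s = i + A.per s + 1 by omega, it_succ, ih,
                ← it_succ]
          exact this i
        refine ⟨i + A.per s - 1, Or.inl ?_⟩
        apply sc_inj (it_va h _) ht
        rw [← it_succ, show i + A.per s - 1 + 1 = i + A.per s by omega, h1, hi]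
      · refine ⟨i + 1, Or.inr ?_⟩
        rw [it_succ, hi, sc_rv_sc ht]
    · rintro ⟨i, hi | hi⟩
      · exact ⟨i + 1, Or.inl (by rw [it_succ, hi])⟩
      · obtain ⟨hp, hq⟩ := per_spec h
        have h1 : A.it s (i + A.per s) = A.it s i := by
          have : ∀ i, A.it s (i + A.per s) = A.it s i := by
            intro i
            induction i with
            | zero => rw [Nat.zero_add, hq]; rfl
            | succ i ih => rw [show i + 1 + A.per s = i + A.per s + 1 by omega, it_succ, ih,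
                ← it_succ]
          exact this i
        refine ⟨i + A.per s - 1, Or.inr ?_⟩
        apply sc_inj (it_va h _) (rv_va (sc_va ht))
        rw [← it_succ, show i + A.per s - 1 + 1 = i + A.per s by omega, h1, hi, sc_rv_sc ht]
  · intro t ht
    constructor
    · rintro ⟨i, hi | hi⟩
      · exact ⟨i, Or.inr hi⟩
      · exact ⟨i, Or.inl (by rw [hi, rv_rv ht])⟩
    · rintro ⟨i, hi | hi⟩
      · exact ⟨i, Or.inr (by rw [hi, rv_rv ht])⟩
      · exact ⟨i, Or.inl hi⟩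

end PFlow

end Pool.Agent.MP42.NE
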