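import Pool.Agent.MP42.NE.PFlow

/-!
# Lanes of the strands of a flow
-/

set_option autoImplicit false

namespace Pool.Agent.MP42.NE

open Pool.Agent.Helper55.UNF Pool.Agent.Helper55.UNF.GridSolid Relation

variable {P : GridSolid}

namespace PFlow

variable {A : PFlow P} {Q : ℕ}

/-- the refinement is fine enough -/
def Fine (A : PFlow P) (Q : ℕ) : Prop := ∀ t, A.nom t → 2 * A.M t + 3 ≤ Q

lemma lok (hQ : A.Fine Q) {t : P.FSt} (h : A.nom t) :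
    LOk Q (A.a t) (A.b t) (A.c t) (A.b t.r2) (A.c t.r2) (A.a t.r2) (A.M t) := by
  have h1 := A.bal t h
  have h2 := A.pos t h
  have h3 := hQ t h
  have h4 := A.c1 t
  have h5 := A.c1 t.r2
  have h6 : A.M t = A.a t + A.b t + A.c t := rfl
  constructor <;> omega

/-- the lane in the frame `t` -/
def Ln (A : PFlow P) (Q : ℕ) (t : P.FSt) (j x y : ℕ) : Prop :=
  LD Q (A.a t) (A.b t) (A.c t) (A.b t.r2) (A.c t.r2) (A.M t) j x y

open Classical in
/-- the canonical nominal frame of a facet -/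
noncomputable def cano (A : PFlow P) (F : P.Facet) : P.FSt := choose (A.nom_ex F)

lemma cano_spec (F : P.Facet) : A.nom (A.cano F) ∧ (A.cano F).facet = F :=
  Classical.choose_spec (A.nom_ex F)

lemma cano_or {t : P.FSt} (h : A.nom t) : A.cano t.facet = t ∨ A.cano t.facet = t.r2 :=
  A.nom_two _ _ (cano_spec _).1 h (cano_spec _).2

lemma r2_ne (t : P.FSt) : t.r2 ≠ t := by
  intro h0
  have h1 : opp t.1.e = t.1.e := congrArg (fun t : P.FSt => t.1.e) h0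
  have h2 := congrArg Prod.snd h1
  revert h2
  show ¬ ((!t.1.e.2) = t.1.e.2)
  cases t.1.e.2 <;> decide

variable {hK : 0 < 2 * Q + 1}

open Classical in
/-- the cells of a strand -/
noncomputable def Lane (A : PFlow P) (Q : ℕ) {hK : 0 < 2 * Q + 1} (s : P.FSt × ℕ)
    (f : (P.refine (2 * Q + 1) hK).Facet) : Prop :=
  if A.cano s.1.facet = s.1 then ∃ x y, At s.1 x y f ∧ A.Ln Q s.1 s.2 x y
  else ∃ x y, At s.1.r2 x y f ∧ A.Ln Q s.1.r2 (A.M s.1 - 1 - s.2) x y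

lemma Lane_cano {s : P.FSt × ℕ} (h : A.cano s.1.facet = s.1)
    (f : (P.refine (2 * Q + 1) hK).Facet) :
    A.Lane Q s f ↔ ∃ x y, At s.1 x y f ∧ A.Ln Q s.1 s.2 x y := by
  unfold Lane; rw [if_pos h]

lemma Lane_not {s : P.FSt × ℕ} (h : A.nom s.1) (h' : ¬ A.cano s.1.facet = s.1)
    (f : (P.refine (2 * Q + 1) hK).Facet) :
    A.Lane Q s f ↔ A.Lane Q (A.rv s) f := by
  have h1 : A.cano s.1.facet = s.1.r2 := (cano_or h).resolve_left h'
  have h2 : A.cano (A.rv s).1.facet = (A.rv s).1 := h1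
  rw [Lane_cano h2]
  unfold Lane; rw [if_neg h']
  rfl

lemma Lane_rv {s : P.FSt × ℕ} (h : A.Va s) (f : (P.refine (2 * Q + 1) hK).Facet) :
    A.Lane Q (A.rv s) f ↔ A.Lane Q s f := by
  by_cases h1 : A.cano s.1.facet = s.1
  · have h2 : ¬ A.cano (A.rv s).1.facet = (A.rv s).1 := by
      show ¬ A.cano s.1.facet = s.1.r2
      rw [h1]
      exact fun h => r2_ne _ h.symm
    rw [Lane_not (A.nom_r2 _ h.1) h2, rv_rv h]
  · exact (Lane_not h.1 h1 f).symm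

lemma Lane_facet {s : P.FSt × ℕ} {f : (P.refine (2 * Q + 1) hK).Facet} (h : A.Lane Q s f) :
    co hK f = s.1.facet := by
  unfold Lane at h
  split_ifs at h
  · obtain ⟨x, y, h1, -⟩ := h
    exact h1.1
  · obtain ⟨x, y, h1, -⟩ := h
    exact h1.1

/-- lanes are disjoint -/
lemma Lane_unique {s t : P.FSt × ℕ} (hs : A.Va s) (ht : A.Va t)
    {f : (P.refine (2 * Q + 1) hK).Facet} (h1 : A.Lane Q s f) (h2 : A.Lane Q t f) :
    t = s ∨ t = A.rv s := by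
  have hf : s.1.facet = t.1.facet := (Lane_facet h1).symm.trans (Lane_facet h2)
  -- reduce to canonical frames
  have red : ∀ s : P.FSt × ℕ, A.Va s → A.Lane Q s f → ∃ s', A.Va s' ∧ A.Lane Q s' f ∧
      A.cano s'.1.facet = s'.1 ∧ s'.1.facet = s.1.facet ∧ (s' = s ∨ s' = A.rv s) := by
    intro s hs h
    by_cases hc : A.cano s.1.facet = s.1
    · exact ⟨s, hs, h, hc, rfl, Or.inl rfl⟩
    · refine ⟨A.rv s, rv_va hs, (Lane_rv hs f).2 h, ?_, rfl, Or.inr rfl⟩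
      exact (cano_or hs.1).resolve_left hc
  obtain ⟨s', a1, a2, a3, a4, a5⟩ := red s hs h1
  obtain ⟨t', b1, b2, b3, b4, b5⟩ := red t ht h2
  have e1 : s'.1 = t'.1 := by
    rw [← a3, ← b3, a4, b4, hf]
  have e2 : s' = t' := by
    rw [Lane_cano a3] at a2
    rw [Lane_cano b3] at b2
    obtain ⟨x, y, c1, c2⟩ := a2
    obtain ⟨x', y', d1, d2⟩ := b2
    rw [← e1] at d1 d2
    have ex : x = x' := c1.2.1.symm.trans d1.2.1
    have ey : y = y' := c1.2.2.symm.trans d1.2.2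
    subst ex; subst ey
    exact Prod.ext e1 (LD_unique c2 d2)
  rcases a5 with rfl | rfl <;> rcases b5 with rfl | rfl
  · exact Or.inl e2.symm
  · right; rw [e2, rv_rv ht]
  · right; exact e2.symm
  · left
    rw [← rv_rv ht, ← e2, rv_rv hs]

/-- lanes are connected -/
lemma Lane_conn (hQ : A.Fine Q) {s : P.FSt × ℕ} (hs : A.Va s)
    {f g : (P.refine (2 * Q + 1) hK).Facet} (h1 : A.Lane Q s f) (h2 : A.Lane Q s g) :
    ReflTransGen (fun a b => A.Lane Q s a ∧ A.Lane Q s b ∧ Nb a b) f g := by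
  have red : ∀ s : P.FSt × ℕ, A.Va s → A.cano s.1.facet = s.1 → A.Lane Q s f → A.Lane Q s g →
      ReflTransGen (fun a b => A.Lane Q s a ∧ A.Lane Q s b ∧ Nb a b) f g := by
    intro s hs hc h1 h2
    rw [Lane_cano hc] at h1 h2
    obtain ⟨x, y, a1, a2⟩ := h1
    obtain ⟨x', y', b1, b2⟩ := h2
    have h3 := LD_conn (lok hQ hs.1) a2 b2
    have h4 := gs_cells (t := s.1) (hK := hK) (D := A.Ln Q s.1 s.2)
      (fun x y h => ⟨h.1, h.2.1⟩) h3 a1 b1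
    refine rtg_mono ?_ h4
    rintro a b ⟨u, v, w⟩
    exact ⟨(Lane_cano hc a).2 u, (Lane_cano hc b).2 v, w⟩
  by_cases hc : A.cano s.1.facet = s.1
  · exact red s hs hc h1 h2
  · have h3 := red (A.rv s) (rv_va hs) ((cano_or hs.1).resolve_left hc) ((Lane_rv hs f).2 h1)
      ((Lane_rv hs g).2 h2)
    refine rtg_mono ?_ h3
    rintro a b ⟨u, v, w⟩
    exact ⟨(Lane_rv hs a).1 u, (Lane_rv hs b).1 v, w⟩

/-! ## Places of the boundary -/

/-- a lane contains a cell -/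
lemma Lane_of {s : P.FSt × ℕ} (hs : A.Va s) {f : (P.refine (2 * Q + 1) hK).Facet} {x y : ℕ}
    (hf : At s.1 x y f) (h1 : A.Ln Q s.1 s.2 x y)
    (h2 : A.Ln Q s.1.r2 (A.M s.1 - 1 - s.2) (2 * Q - x) (2 * Q - y)) : A.Lane Q s f := by
  by_cases hc : A.cano s.1.facet = s.1
  · exact (Lane_cano hc f).2 ⟨x, y, hf, h1⟩
  · rw [Lane_not hs.1 hc, Lane_cano (s := A.rv s) ((cano_or hs.1).resolve_left hc)]
    have := hf.r2
    rw [show 2 * Q + 1 - 1 - x = 2 * Q - x by omega,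
      show 2 * Q + 1 - 1 - y = 2 * Q - y by omega] at this
    exact ⟨_, _, this, h2⟩

lemma lok_r2 (hQ : A.Fine Q) {t : P.FSt} (h : A.nom t) :
    LOk Q (A.a t.r2) (A.b t.r2) (A.c t.r2) (A.b t.r2.r2) (A.c t.r2.r2) (A.a t.r2.r2)
      (A.M t.r2) := lok hQ (A.nom_r2 _ h)

/-- west entrance -/
lemma Lane_W (hQ : A.Fine Q) {s : P.FSt × ℕ} (hs : A.Va s) (hj : s.2 < A.a s.1)
    {f : (P.refine (2 * Q + 1) hK).Facet} (hf : At s.1 0 (Q + A.a s.1 - 1 - 2 * s.2) f) :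
    A.Lane Q s f := by
  refine Lane_of hs hf (LD_W (lok hQ hs.1) hj) ?_
  have h3 := hQ s.1 hs.1
  have h4 : A.M s.1 = A.a s.1 + A.b s.1 + A.c s.1 := rfl
  have h5 := LD_E (lok_r2 hQ hs.1) (j := A.a s.1 - 1 - s.2) (by rw [FSt.r2_r2]; omega)
  rw [FSt.r2_r2] at h5
  unfold Ln
  rw [FSt.r2_r2]
  rw [show A.M s.1 - 1 - s.2 = A.b s.1 + A.c s.1 + (A.a s.1 - 1 - s.2) by omega,
    show 2 * Q - 0 = 2 * Q by omega,
    show 2 * Q - (Q + A.a s.1 - 1 - 2 * s.2) = Q + A.a s.1 - 1 - 2 * (A.a s.1 - 1 - s.2) by omega]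
  exact h5

/-- east exit -/
lemma Lane_E (hQ : A.Fine Q) {s : P.FSt × ℕ} (hs : A.Va s)
    (hj : A.b s.1.r2 + A.c s.1.r2 ≤ s.2)
    {f : (P.refine (2 * Q + 1) hK).Facet}
    (hf : At s.1 (2 * Q) (Q + A.a s.1.r2 - 1 - 2 * (s.2 - (A.b s.1.r2 + A.c s.1.r2))) f) :
    A.Lane Q s f := by
  have h3 := hQ s.1 hs.1
  have h4 : A.M s.1 = A.a s.1 + A.b s.1 + A.c s.1 := rfl
  have h6 := A.bal s.1 hs.1
  have h7 := hs.2
  set j := s.2 - (A.b s.1.r2 + A.c s.1.r2) with hjj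
  refine Lane_of hs hf ?_ ?_
  · have h5 := LD_E (lok hQ hs.1) (j := j) (by omega)
    unfold Ln
    rw [show s.2 = A.b s.1.r2 + A.c s.1.r2 + j by omega]
    exact h5
  · have h5 := LD_W (lok_r2 hQ hs.1) (j := A.a s.1.r2 - 1 - j) (by omega)
    unfold Ln
    rw [show A.M s.1 - 1 - s.2 = A.a s.1.r2 - 1 - j by omega,
      show 2 * Q - 2 * Q = 0 by omega,
      show 2 * Q - (Q + A.a s.1.r2 - 1 - 2 * j) =
        Q + A.a s.1.r2 - 1 - 2 * (A.a s.1.r2 - 1 - j) by omega]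
    exact h5

/-- south entrance -/
lemma Lane_S (hQ : A.Fine Q) {s : P.FSt × ℕ} (hs : A.Va s) (hj : A.a s.1 + A.c s.1 ≤ s.2)
    {f : (P.refine (2 * Q + 1) hK).Facet}
    (hf : At s.1 (Q + 1 + 2 * (s.2 - (A.a s.1 + A.c s.1)) - A.b s.1) 0 f) :
    A.Lane Q s f := by
  have h3 := hQ s.1 hs.1
  have h4 : A.M s.1 = A.a s.1 + A.b s.1 + A.c s.1 := rfl
  have h7 := hs.2
  set j := s.2 - (A.a s.1 + A.c s.1) with hjj
  refine Lane_of hs hf ?_ ?_
  · have h5 := LD_S (lok hQ hs.1) (j := j) (by omega)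
    unfold Ln
    rw [show s.2 = A.a s.1 + A.c s.1 + j by omega]
    exact h5
  · have h5 := LD_N (lok_r2 hQ hs.1) (j := A.b s.1 - 1 - j) (by rw [FSt.r2_r2]; omega)
    rw [FSt.r2_r2] at h5
    unfold Ln
    rw [FSt.r2_r2]
    rw [show A.M s.1 - 1 - s.2 = A.b s.1 - 1 - j by omega,
      show 2 * Q - 0 = 2 * Q by omega,
      show 2 * Q - (Q + 1 + 2 * j - A.b s.1) = Q + 1 + 2 * (A.b s.1 - 1 - j) - A.b s.1 by omega]
    exact h5

/-- north exit -/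
lemma Lane_N (hQ : A.Fine Q) {s : P.FSt × ℕ} (hs : A.Va s) (hj : s.2 < A.b s.1.r2)
    {f : (P.refine (2 * Q + 1) hK).Facet}
    (hf : At s.1 (Q + 1 + 2 * s.2 - A.b s.1.r2) (2 * Q) f) :
    A.Lane Q s f := by
  have h3 := hQ s.1 hs.1
  have h4 : A.M s.1 = A.a s.1 + A.b s.1 + A.c s.1 := rfl
  have h6 := A.bal s.1 hs.1
  have h7 := hs.2
  refine Lane_of hs hf (LD_N (lok hQ hs.1) hj) ?_
  have h5 := LD_S (lok_r2 hQ hs.1) (j := A.b s.1.r2 - 1 - s.2) (by omega)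
  unfold Ln
  rw [show A.M s.1 - 1 - s.2 = A.a s.1.r2 + A.c s.1.r2 + (A.b s.1.r2 - 1 - s.2) by omega,
    show 2 * Q - 2 * Q = 0 by omega,
    show 2 * Q - (Q + 1 + 2 * s.2 - A.b s.1.r2) =
      Q + 1 + 2 * (A.b s.1.r2 - 1 - s.2) - A.b s.1.r2 by omega]
  exact h5

/-- entrance through the southwest corner -/
lemma Lane_SW (hQ : A.Fine Q) {s : P.FSt × ℕ} (hs : A.Va s) (hj : s.2 = A.a s.1)
    (hc : A.c s.1 = 1) {f : (P.refine (2 * Q + 1) hK).Facet} (hf : At s.1 0 0 f) :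
    A.Lane Q s f := by
  have h3 := hQ s.1 hs.1
  have h4 : A.M s.1 = A.a s.1 + A.b s.1 + A.c s.1 := rfl
  refine Lane_of hs hf ?_ ?_
  · rw [hj]; exact LD_SW (lok hQ hs.1) hc
  · have h5 := LD_NE (lok_r2 hQ hs.1) (by rw [FSt.r2_r2]; exact hc)
    rw [FSt.r2_r2] at h5
    unfold Ln
    rw [FSt.r2_r2]
    rw [show A.M s.1 - 1 - s.2 = A.b s.1 by omega, show 2 * Q - 0 = 2 * Q by omega]
    exact h5

/-- exit through the northeast corner -/
lemma Lane_NE (hQ : A.Fine Q) {s : P.FSt × ℕ} (hs : A.Va s) (hj : s.2 = A.b s.1.r2)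
    (hc : A.c s.1.r2 = 1) {f : (P.refine (2 * Q + 1) hK).Facet}
    (hf : At s.1 (2 * Q) (2 * Q) f) : A.Lane Q s f := by
  have h3 := hQ s.1 hs.1
  have h4 : A.M s.1 = A.a s.1 + A.b s.1 + A.c s.1 := rfl
  have h6 := A.bal s.1 hs.1
  refine Lane_of hs hf ?_ ?_
  · rw [hj]; exact LD_NE (lok hQ hs.1) hc
  · have h5 := LD_SW (lok_r2 hQ hs.1) hc
    unfold Ln
    rw [show A.M s.1 - 1 - s.2 = A.a s.1.r2 by omega, show 2 * Q - 2 * Q = 0 by omega]
    exact h5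

/-- a corner cell in a lane: the strand passes there -/
lemma Lane_corner {s : P.FSt × ℕ} (hs : A.Va s) {u : P.FSt}
    {f : (P.refine (2 * Q + 1) hK).Facet} (h : A.Lane Q s f) (hu : At u (2 * Q) (2 * Q) f)
    (hQ0 : 0 < Q) :
    ∃ t, A.nom t ∧ A.c t.r2 = 1 ∧ t = u ∧ (t = s.1 ∨ t = s.1.r2) := by
  have red : ∀ s : P.FSt × ℕ, A.Va s → A.cano s.1.facet = s.1 → A.Lane Q s f →
      ∃ t, A.nom t ∧ A.c t.r2 = 1 ∧ t = u ∧ (t = s.1 ∨ t = s.1.r2) := by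
    intro s hs hc h
    rw [Lane_cano hc] at h
    obtain ⟨x, y, h1, h2, h3, h4, h5⟩ := h
    have hfac : u.facet = s.1.facet := hu.1.symm.trans h1.1
    rcases frames hfac with rfl | rfl | rfl | rfl
    · -- u = s.1
      have ex : x = 2 * Q := h1.2.1.symm.trans hu.2.1
      have ey : y = 2 * Q := h1.2.2.symm.trans hu.2.2
      rcases h5 (Or.inr ex) (Or.inr ey) with ⟨h6, -, -⟩ | ⟨-, -, h6⟩
      · omega
      · exact ⟨s.1, hs.1, h6, rfl, Or.inl rfl⟩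
    · -- u = s.1.rL
      obtain ⟨-, a1, a2⟩ := h1.rL
      have ey : y = 2 * Q := a1.symm.trans hu.2.1
      have ex : 2 * Q + 1 - 1 - x = 2 * Q := a2.symm.trans hu.2.2
      rcases h5 (Or.inl (by omega)) (Or.inr ey) with ⟨-, h6, -⟩ | ⟨h6, -, -⟩ <;> omega
    · -- u = s.1.r2
      obtain ⟨-, a1, a2⟩ := h1.r2
      have ex : 2 * Q + 1 - 1 - x = 2 * Q := a1.symm.trans hu.2.1
      have ey : 2 * Q + 1 - 1 - y = 2 * Q := a2.symm.trans hu.2.2
      rcases h5 (Or.inl (by omega)) (Or.inl (by omega)) with ⟨-, -, h6⟩ | ⟨h6, -, -⟩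
      · exact ⟨s.1.r2, A.nom_r2 _ hs.1, by rw [FSt.r2_r2]; exact h6, rfl, Or.inr rfl⟩
      · omega
    · -- u = s.1.rR
      obtain ⟨-, a1, a2⟩ := h1.rR
      have ey : 2 * Q + 1 - 1 - y = 2 * Q := a1.symm.trans hu.2.1
      have ex : x = 2 * Q := a2.symm.trans hu.2.2
      rcases h5 (Or.inr ex) (Or.inl (by omega)) with ⟨h6, -, -⟩ | ⟨-, h6, -⟩ <;> omega
  by_cases hc : A.cano s.1.facet = s.1
  · exact red s hs hc h
  · obtain ⟨t, h1, h2, h3, h4⟩ := red (A.rv s) (rv_va hs) ((cano_or hs.1).resolve_left hc)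
      ((Lane_rv hs f).2 h)
    refine ⟨t, h1, h2, h3, ?_⟩
    rcases h4 with h4 | h4
    · exact Or.inr h4
    · left
      rw [h4]
      show s.1.r2.r2 = s.1
      rw [FSt.r2_r2]

end PFlow

end Pool.Agent.MP42.NE
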