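import Pool.Agent.MP42.NE.Box

/-!
# Walks of boxes with seeds

Only some cells of the refinement need an owner: the others can be given to neighbours.
-/

set_option autoImplicit false

namespace Pool.Agent.MP42.NE

open Pool.Agent.Helper55.UNF Pool.Agent.Helper55.UNF.GridSolid Relation

/-! ## Extension of disjoint connected sets -/

section Extend

lemma rtg_mono {V : Type*} {r p : V → V → Prop} (h : ∀ a b, r a b → p a b) {a b : V}
    (hab : ReflTransGen r a b) : ReflTransGen p a b := by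
  induction hab with
  | refl => exact ReflTransGen.refl
  | tail _ hbc ih => exact ih.tail (h _ _ hbc)

variable {V ι : Type*} (R : V → V → Prop) (S : ι → V → Prop)

/-- owners that extend the seeds -/
def ExtInv (T : V → Option ι) : Prop := (∀ i v, S i v → T v = some i) ∧
  ∀ i v, T v = some i → ∃ u, S i u ∧
    ReflTransGen (fun a b => T a = some i ∧ T b = some i ∧ R a b) u v

variable {R S}

lemma ext_edge {T : V → Option ι} {u v : V} (h : ReflTransGen R u v) (hu : T u ≠ none)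
    (hv : T v = none) : ∃ a b, R a b ∧ T a ≠ none ∧ T b = none := by
  induction h with
  | refl => exact absurd hv hu
  | @tail b c _ hbc ih =>
    by_cases h : T b = none
    · exact ih h
    · exact ⟨b, c, hbc, h, hv⟩

open Classical in
lemma ext_step [Finite V] {T : V → Option ι} (h : ExtInv R S T)
    (hreach : ∀ v, ∃ i u, S i u ∧ ReflTransGen R u v) {v : V} (hv : T v = none) :
    ∃ T', ExtInv R S T' ∧ {v | T' v = none}.ncard < {v | T v = none}.ncard := by
  obtain ⟨i, u, h1, h2⟩ := hreach v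
  have hu : T u ≠ none := by rw [h.1 i u h1]; exact Option.some_ne_none _
  obtain ⟨a, b, hab, ha, hb⟩ := ext_edge h2 hu hv
  obtain ⟨j, hj⟩ := Option.ne_none_iff_exists'.1 ha
  refine ⟨fun x => if x = b then some j else T x, ⟨?_, ?_⟩, ?_⟩
  · intro k x hx
    have hk := h.1 k x hx
    have : x ≠ b := by rintro rfl; rw [hk] at hb; exact absurd hb (Option.some_ne_none _)
    show (if x = b then some j else T x) = some k
    rw [if_neg this, hk]
  · intro k x hx
    have mono : ∀ k y z, ReflTransGen (fun a b => T a = some k ∧ T b = some k ∧ R a b) y z →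
        ReflTransGen (fun a b' => (if a = b then some j else T a) = some k ∧
          (if b' = b then some j else T b') = some k ∧ R a b') y z := by
      intro k y z hyz
      refine rtg_mono ?_ hyz
      rintro p q ⟨hp, hq, hpq⟩
      have e1 : p ≠ b := by rintro rfl; rw [hp] at hb; exact absurd hb (Option.some_ne_none _)
      have e2 : q ≠ b := by rintro rfl; rw [hq] at hb; exact absurd hb (Option.some_ne_none _)
      rw [if_neg e1, if_neg e2]
      exact ⟨hp, hq, hpq⟩
    show ∃ u, S k u ∧ ReflTransGen (fun a b' => (if a = b then some j else T a) = some k ∧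
          (if b' = b then some j else T b') = some k ∧ R a b') u x
    have hx' : (if x = b then some j else T x) = some k := hx
    clear hx
    rename' hx' => hx
    by_cases hxb : x = b
    · rw [if_pos hxb] at hx
      obtain rfl : j = k := Option.some_injective _ hx
      obtain ⟨u', hu', hp⟩ := h.2 j a hj
      refine ⟨u', hu', ?_⟩
      refine (mono j u' a hp).tail ?_
      have e1 : a ≠ b := by rintro rfl; rw [hj] at hb; exact absurd hb (Option.some_ne_none _)
      rw [hxb, if_neg e1, if_pos rfl]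
      exact ⟨hj, rfl, hab⟩
    · rw [if_neg hxb] at hx
      obtain ⟨u', hu', hp⟩ := h.2 k x hx
      exact ⟨u', hu', mono k u' x hp⟩
  · apply Set.ncard_lt_ncard
    · refine ⟨?_, ?_⟩
      · intro x hx
        have hx' : (if x = b then some j else T x) = none := hx
        show T x = none
        by_cases hxb : x = b
        · rw [hxb]; exact hb
        · rw [if_neg hxb] at hx'; exact hx'
      · intro hsub
        have h3 := hsub (show b ∈ {v | T v = none} from hb)
        have h4 : (if b = b then some j else T b) = none := h3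
        rw [if_pos rfl] at h4
        exact absurd h4 (Option.some_ne_none _)
    · exact Set.toFinite _

lemma ext_all [Finite V] (hreach : ∀ v, ∃ i u, S i u ∧ ReflTransGen R u v) :
    ∀ (n : ℕ) (T : V → Option ι), ExtInv R S T → {v | T v = none}.ncard ≤ n →
    ∃ T', ExtInv R S T' ∧ ∀ v, T' v ≠ none := by
  intro n
  induction n with
  | zero =>
    intro T h hn
    refine ⟨T, h, fun v hv => ?_⟩
    have h1 : {v | T v = none}.ncard = 0 := by omega
    rw [Set.ncard_eq_zero (Set.toFinite _)] at h1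
    have : v ∈ {v | T v = none} := hv
    rw [h1] at this
    exact this
  | succ n ih =>
    intro T h hn
    by_cases h2 : ∃ v, T v = none
    · obtain ⟨v, hv⟩ := h2
      obtain ⟨T', h3, h4⟩ := ext_step h hreach hv
      exact ih T' h3 (by omega)
    · exact ⟨T, h, fun v hv => h2 ⟨v, hv⟩⟩

open Classical in
/-- Disjoint connected sets in a finite graph can be enlarged to a partition into connected
sets. -/
theorem extend_seeds [Finite V] (hR : ∀ a b, R a b → R b a)
    (hS : ∀ i j v, S i v → S j v → i = j)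
    (hconn : ∀ i u v, S i u → S i v → ReflTransGen (fun a b => S i a ∧ S i b ∧ R a b) u v)
    (hreach : ∀ v, ∃ i u, S i u ∧ ReflTransGen R u v) :
    ∃ T : V → ι, (∀ i v, S i v → T v = i) ∧ (∀ v, ∃ u, S (T v) u ∧ ReflTransGen R u v) ∧
      ∀ f g, T f = T g → ReflTransGen (fun a b => T a = T f ∧ T b = T f ∧ R a b) f g := by
  have h0 : ExtInv R S (fun v => if h : ∃ i, S i v then some (Classical.choose h) else none) := by
    refine ⟨fun i v hv => ?_, fun i v hv => ?_⟩
    · have h : ∃ i, S i v := ⟨i, hv⟩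
      show (if h : ∃ i, S i v then some (Classical.choose h) else none) = some i
      rw [dif_pos h]
      rw [hS _ _ _ (Classical.choose_spec h) hv]
    · have hv' : (if h : ∃ i, S i v then some (Classical.choose h) else none) = some i := hv
      clear hv
      rename' hv' => hv
      by_cases h : ∃ i, S i v
      · rw [dif_pos h] at hv
        have h1 := Classical.choose_spec h
        rw [Option.some_injective _ hv] at h1
        exact ⟨v, h1, ReflTransGen.refl⟩
      · rw [dif_neg h] at hv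
        exact absurd hv.symm (Option.some_ne_none _)
  obtain ⟨T, hT, hall⟩ := ext_all hreach _ _ h0 le_rfl
  have key : ∀ v, ∃ i, T v = some i := fun v => Option.ne_none_iff_exists'.1 (hall v)
  choose t ht using key
  have mono : ∀ k y z, ReflTransGen (fun a b => T a = some k ∧ T b = some k ∧ R a b) y z →
      ReflTransGen (fun a b => t a = k ∧ t b = k ∧ R a b) y z := by
    intro k y z hyz
    refine rtg_mono ?_ hyz
    rintro p q ⟨hp, hq, hpq⟩
    rw [ht] at hp hq
    exact ⟨Option.some_injective _ hp, Option.some_injective _ hq, hpq⟩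
  have hsym : ∀ k y z, ReflTransGen (fun a b => t a = k ∧ t b = k ∧ R a b) y z →
      ReflTransGen (fun a b => t a = k ∧ t b = k ∧ R a b) z y := by
    intro k y z hyz
    induction hyz with
    | refl => exact ReflTransGen.refl
    | tail _ hbc ih => exact ReflTransGen.head ⟨hbc.2.1, hbc.1, hR _ _ hbc.2.2⟩ ih
  have hseed : ∀ i v, S i v → t v = i := by
    intro i v hv
    have h1 := hT.1 i v hv
    rw [ht] at h1
    exact Option.some_injective _ h1
  refine ⟨t, hseed, ?_, ?_⟩
  · intro v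
    obtain ⟨u, hu, hp⟩ := hT.2 (t v) v (ht v)
    exact ⟨u, hu, rtg_mono (fun a b h => h.2.2) hp⟩
  · intro f g hfg
    obtain ⟨u, hu, hp⟩ := hT.2 (t f) f (ht f)
    obtain ⟨u', hu', hp'⟩ := hT.2 (t f) g (by rw [ht g, hfg])
    refine (hsym _ _ _ (mono _ _ _ hp)).trans (ReflTransGen.trans ?_ (mono _ _ _ hp'))
    refine rtg_mono ?_ (hconn _ _ _ hu hu')
    rintro a b ⟨ha, hb, hab⟩
    exact ⟨hseed _ _ ha, hseed _ _ hb, hab⟩

end Extend

/-! ## Cells of the refinement in a frame -/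

variable {P : GridSolid} {K : ℕ} {hK : 0 < K}

/-- `f` is the cell with coordinates `x`, `y` in the frame `s` -/
def At (s : P.FSt) (x y : ℕ) (f : (P.refine K hK).Facet) : Prop :=
  co hK f = s.facet ∧ ix K s.1.e f.1.1 = x ∧ ix K s.1.n f.1.1 = y

lemma At.lt {s : P.FSt} {x y : ℕ} {f : (P.refine K hK).Facet} (h : At s x y f) :
    x < K ∧ y < K := by
  obtain ⟨-, rfl, rfl⟩ := h
  exact ⟨ix_lt hK _ _, ix_lt hK _ _⟩

lemma ex_at (hK : 0 < K) (s : P.FSt) {x y : ℕ} (hx : x < K) (hy : y < K) :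
    ∃ f : (P.refine K hK).Facet, At s x y f :=
  ⟨(sub hK s x y hx hy).facet, co_sub hK s hx hy, ix_subC_e s.1 s.2.2 hx hy,
    ix_subC_n s.1 s.2.2 hx hy⟩

lemma At.inj {s : P.FSt} {x y : ℕ} {f g : (P.refine K hK).Facet} (h : At s x y f)
    (h' : At s x y g) : f = g := by
  obtain ⟨h1, rfl, rfl⟩ := h
  obtain ⟨h2, h3, h4⟩ := h'
  rw [← sub_ix hK s f h1, ← sub_ix hK s g h2]
  exact congrArg FSt.facet (sub_congr (hk := hK) _ _ rfl h3.symm h4.symm)

lemma ix_opp (hK : 0 < K) (w : Dir) (c : Fin 3 → ℤ) : ix K (opp w) c = K - 1 - ix K w c := by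
  have hk' : (0 : ℤ) < K := by exact_mod_cast hK
  have h4 := Int.emod_nonneg (c w.1) hk'.ne'
  have h5 := Int.emod_lt_of_pos (c w.1) hk'
  rcases w with ⟨a, s⟩
  cases s
  · show (if (true : Bool) then _ else _) = K - 1 - (if (false : Bool) then _ else _)
    simp only [if_true, Bool.false_eq_true, if_false]
    show (c a % (K : ℤ)).toNat = K - 1 - ((K : ℤ) - 1 - c a % (K : ℤ)).toNat
    simp only at h4 h5
    omega
  · show (if (false : Bool) then _ else _) = K - 1 - (if (true : Bool) then _ else _)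
    simp only [if_true, Bool.false_eq_true, if_false]
    show ((K : ℤ) - 1 - c a % (K : ℤ)).toNat = K - 1 - (c a % (K : ℤ)).toNat
    simp only at h4 h5
    omega

lemma r2_nn (s : P.FSt) : s.r2.1.n = opp s.1.n := cross_opp_right _ _ s.2.2

lemma At.r2 {s : P.FSt} {x y : ℕ} {f : (P.refine K hK).Facet} (h : At s x y f) :
    At s.r2 (K - 1 - x) (K - 1 - y) f := by
  obtain ⟨h1, h2, h3⟩ := h
  refine ⟨h1, ?_, ?_⟩
  · rw [← h2]; exact ix_opp hK _ _
  · rw [← h3, r2_nn]; exact ix_opp hK _ _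

lemma At.r2' {s : P.FSt} {x y : ℕ} {f : (P.refine K hK).Facet} (h : At s.r2 x y f) :
    At s (K - 1 - x) (K - 1 - y) f := by
  have := h.r2
  rwa [FSt.r2_r2] at this

lemma rL_nn (s : P.FSt) : s.rL.1.n = opp s.1.e := cross_cross _ _ s.2.2

lemma At.rL {s : P.FSt} {x y : ℕ} {f : (P.refine K hK).Facet} (h : At s x y f) :
    At s.rL y (K - 1 - x) f := by
  obtain ⟨h1, h2, h3⟩ := h
  refine ⟨h1, h3, ?_⟩
  rw [← h2, rL_nn]; exact ix_opp hK _ _

lemma At.rR {s : P.FSt} {x y : ℕ} {f : (P.refine K hK).Facet} (h : At s x y f) :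
    At s.rR (K - 1 - y) x f := by
  have h2 := h.rL.r2
  rw [FSt.rL_r2] at h2
  have := h.lt
  rwa [show K - 1 - (K - 1 - x) = x by omega] at h2

/-- frames of a facet -/
lemma frames {s t : P.FSt} (h : s.facet = t.facet) : s = t ∨ s = t.rL ∨ s = t.r2 ∨ s = t.rR := by
  obtain ⟨⟨c, d, e⟩, hs⟩ := s
  obtain ⟨⟨c', d', e'⟩, ht⟩ := t
  have h1 := congrArg Subtype.val h
  simp only [FSt.facet, Prod.mk.injEq] at h1
  obtain ⟨rfl, rfl⟩ := h1
  have key : ∀ d e e' : Dir, d.1 ≠ e.1 → d.1 ≠ e'.1 →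
    (e = e' ∨ e = cross d e' ∨ e = opp e' ∨ e = opp (cross d e')) := by decide
  rcases key d e e' hs.2 ht.2 with h2 | h2 | h2 | h2
  · left; apply FSt.ext'; show (⟨c, d, e⟩ : St) = ⟨c, d, e'⟩; rw [h2]
  · right; left; apply FSt.ext'; show (⟨c, d, e⟩ : St) = ⟨c, d, cross d e'⟩; rw [h2]
  · right; right; left; apply FSt.ext'; show (⟨c, d, e⟩ : St) = ⟨c, d, opp e'⟩; rw [h2]
  · right; right; right; apply FSt.ext'; show (⟨c, d, e⟩ : St) = ⟨c, d, opp (cross d e')⟩; rw [h2]

/-- neighbours inside a facet -/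
def Nb (f g : (P.refine K hK).Facet) : Prop := ∃ (s : P.FSt) (x y : ℕ), At s x y f ∧ At s (x + 1) y g

lemma Nb.symm {f g : (P.refine K hK).Facet} (h : Nb f g) : Nb g f := by
  obtain ⟨s, x, y, h1, h2⟩ := h
  have := h2.lt
  refine ⟨s.r2, K - 1 - (x + 1), K - 1 - y, h2.r2, ?_⟩
  have h3 := h1.r2
  rwa [show K - 1 - x = K - 1 - (x + 1) + 1 by omega] at h3

lemma Nb.co_eq {f g : (P.refine K hK).Facet} (h : Nb f g) : co hK f = co hK g := by
  obtain ⟨s, x, y, h1, h2⟩ := h
  rw [h1.1, h2.1]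

lemma nb_E {s : P.FSt} {x y : ℕ} {f g : (P.refine K hK).Facet} (h1 : At s x y f)
    (h2 : At s (x + 1) y g) : Nb f g := ⟨s, x, y, h1, h2⟩

lemma nb_N {s : P.FSt} {x y : ℕ} {f g : (P.refine K hK).Facet} (h1 : At s x y f)
    (h2 : At s x (y + 1) g) : Nb f g := ⟨s.rL, y, K - 1 - x, h1.rL, h2.rL⟩

/-- neighbours in an arbitrary frame -/
lemma Nb.cases {f g : (P.refine K hK).Facet} (h : Nb f g) {t : P.FSt} (ht : co hK f = t.facet) :
    (ix K t.1.e g.1.1 = ix K t.1.e f.1.1 + 1 ∧ ix K t.1.n g.1.1 = ix K t.1.n f.1.1) ∨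
    (ix K t.1.e g.1.1 = ix K t.1.e f.1.1 ∧ ix K t.1.n g.1.1 = ix K t.1.n f.1.1 + 1) ∨
    (ix K t.1.e f.1.1 = ix K t.1.e g.1.1 + 1 ∧ ix K t.1.n f.1.1 = ix K t.1.n g.1.1) ∨
    (ix K t.1.e f.1.1 = ix K t.1.e g.1.1 ∧ ix K t.1.n f.1.1 = ix K t.1.n g.1.1 + 1) := by
  obtain ⟨s, x, y, h1, h2⟩ := h
  have hl1 := h1.lt
  have hl2 := h2.lt
  have hst : t.facet = s.facet := ht.symm.trans h1.1
  rcases frames hst with rfl | rfl | rfl | rfl
  · left
    rw [h1.2.1, h1.2.2, h2.2.1, h2.2.2]
    exact ⟨rfl, rfl⟩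
  · right; right; right
    obtain ⟨-, a1, a2⟩ := h1.rL
    obtain ⟨-, b1, b2⟩ := h2.rL
    rw [a1, a2, b1, b2]
    exact ⟨rfl, by omega⟩
  · right; right; left
    obtain ⟨-, a1, a2⟩ := h1.r2
    obtain ⟨-, b1, b2⟩ := h2.r2
    rw [a1, a2, b1, b2]
    exact ⟨by omega, rfl⟩
  · right; left
    obtain ⟨-, a1, a2⟩ := h1.rR
    obtain ⟨-, b1, b2⟩ := h2.rR
    rw [a1, a2, b1, b2]
    exact ⟨rfl, rfl⟩

lemma reach_row {s : P.FSt} {y : ℕ} : ∀ (d x : ℕ) (f g : (P.refine K hK).Facet), At s x y f →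
    At s (x + d) y g → ReflTransGen Nb f g := by
  intro d
  induction d with
  | zero => intro x f g h1 h2; rw [h1.inj h2]
  | succ d ih =>
    intro x f g h1 h2
    have hl := h2.lt
    obtain ⟨u, hu⟩ := ex_at hK s (x := x + d) (y := y) (by omega) hl.2
    exact (ih x f u h1 hu).tail (nb_E hu h2)

lemma reach_col {s : P.FSt} {x : ℕ} : ∀ (d y : ℕ) (f g : (P.refine K hK).Facet), At s x y f →
    At s x (y + d) g → ReflTransGen Nb f g := by
  intro d
  induction d with
  | zero => intro x f g h1 h2; rw [h1.inj h2]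
  | succ d ih =>
    intro y f g h1 h2
    have hl := h2.lt
    obtain ⟨u, hu⟩ := ex_at hK s (x := x) (y := y + d) hl.1 (by omega)
    exact (ih y f u h1 hu).tail (nb_N hu h2)

lemma nb_symm' {f g : (P.refine K hK).Facet} (h : ReflTransGen Nb f g) : ReflTransGen Nb g f := by
  induction h with
  | refl => exact ReflTransGen.refl
  | tail _ hbc ih => exact ReflTransGen.head hbc.symm ih

lemma reach_facet {f g : (P.refine K hK).Facet} (h : co hK f = co hK g) :
    ReflTransGen Nb f g := by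
  obtain ⟨⟨⟨c, d⟩, hf⟩, hcf⟩ : ∃ F : P.Facet, co hK f = F := ⟨_, rfl⟩
  let s : P.FSt := ⟨⟨c, d, (d.1 + 1, true)⟩, hf, by
    have key : ∀ a : Fin 3, a ≠ a + 1 := by decide
    exact key _⟩
  have hs : co hK f = s.facet := hcf
  have hs' : co hK g = s.facet := h.symm.trans hs
  obtain ⟨x, y, h1⟩ : ∃ x y, At s x y f := ⟨_, _, hs, rfl, rfl⟩
  obtain ⟨x', y', h2⟩ : ∃ x y, At s x y g := ⟨_, _, hs', rfl, rfl⟩
  have l1 := h1.lt
  have l2 := h2.lt
  obtain ⟨u, hu⟩ := ex_at hK s (x := 0) (y := y) hK l1.2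
  obtain ⟨v, hv⟩ := ex_at hK s (x := 0) (y := 0) hK hK
  obtain ⟨w, hw⟩ := ex_at hK s (x := 0) (y := y') hK l2.2
  have a1 : ReflTransGen Nb u f := reach_row x 0 u f hu (by rwa [Nat.zero_add])
  have a2 : ReflTransGen Nb v u := reach_col y 0 v u hv (by rwa [Nat.zero_add])
  have a3 : ReflTransGen Nb v w := reach_col y' 0 v w hv (by rwa [Nat.zero_add])
  have a4 : ReflTransGen Nb w g := reach_row x' 0 w g hw (by rwa [Nat.zero_add])
  exact ((nb_symm' a1).trans (nb_symm' a2)).trans (a3.trans a4)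

/-- A walk of boxes with seeds. -/
structure SeedWalk (P : GridSolid) (K : ℕ) (hK : 0 < K) where
  n : ℕ
  pos : 0 < n
  w : ℕ → P.FSt
  m : ℕ → Mv
  step : ∀ i, i + 1 < n → (m i).ap (w i) = w (i + 1)
  turn : ∀ i, i + 2 < n → ¬ (m i = Mv.N ∧ m (i + 1) = Mv.S) ∧ ¬ (m i = Mv.S ∧ m (i + 1) = Mv.N)
  S : ℕ → (P.refine K hK).Facet → Prop
  S_facet : ∀ i < n, ∀ f, S i f → co hK f = (w i).facet
  disj : ∀ i < n, ∀ j < n, ∀ f, S i f → S j f → i = j
  conn : ∀ i < n, ∀ f g, S i f → S i g → ReflTransGen (fun a b => S i a ∧ S i b ∧ Nb a b) f g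
  cover : ∀ F : P.Facet, ∃ i < n, (w i).facet = F
  ne : ∀ i < n, ∃ f, S i f
  glueE : ∀ i, i + 1 < n → m i = Mv.E → ∃ f g y, S i f ∧ S (i + 1) g ∧
    At (w i) (K - 1) y f ∧ At (w (i + 1)) 0 y g
  glueN : ∀ i, i + 1 < n → m i = Mv.N → ∃ f g x, S i f ∧ S (i + 1) g ∧
    At (w i) x (K - 1) f ∧ At (w (i + 1)) x 0 g
  glueS : ∀ i, i + 1 < n → m i = Mv.S → ∃ f g x, S i f ∧ S (i + 1) g ∧
    At (w i) x 0 f ∧ At (w (i + 1)) x (K - 1) g

instance : Finite (P.refine K hK).Facet := inferInstance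

/-- **A walk of boxes with seeds gives an edge unfolding.** -/
theorem SeedWalk.hasEdgeUnfolding (A : SeedWalk P K hK) : (P.refine K hK).HasEdgeUnfolding := by
  obtain ⟨T, hT1, hT2, hT3⟩ := extend_seeds (V := (P.refine K hK).Facet) (ι := Fin A.n)
    (R := Nb) (S := fun i => A.S i.1) (fun a b h => h.symm)
    (fun i j v h1 h2 => Fin.ext (A.disj i.1 i.2 j.1 j.2 v h1 h2))
    (fun i u v h1 h2 => A.conn i.1 i.2 u v h1 h2)
    (fun v => by
      obtain ⟨i, hi, h1⟩ := A.cover (co hK v)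
      obtain ⟨u, hu⟩ := A.ne i hi
      refine ⟨⟨i, hi⟩, u, hu, reach_facet ?_⟩
      rw [A.S_facet i hi u hu, h1])
  have hco : ∀ f g : (P.refine K hK).Facet, ReflTransGen Nb f g → co hK f = co hK g := by
    intro f g h
    induction h with
    | refl => rfl
    | tail _ hbc ih => exact ih.trans hbc.co_eq
  have hfac : ∀ f, co hK f = (A.w (T f).1).facet := by
    intro f
    obtain ⟨u, hu, hp⟩ := hT2 f
    rw [← hco _ _ hp]
    exact A.S_facet _ (T f).2 u hu
  let B : BoxWalk P K hK :=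
    { n := A.n
      pos := A.pos
      w := A.w
      m := A.m
      step := A.step
      turn := A.turn
      ow := fun f => (T f).1
      ow_lt := fun f => (T f).2
      ow_facet := hfac
      conn := fun f g hfg => by
        refine rtg_mono ?_ (hT3 f g (Fin.ext hfg))
        rintro a b ⟨ha, hb, hab⟩
        refine ⟨congrArg Fin.val ha, congrArg Fin.val hb, ?_⟩
        apply hab.cases
        rw [hfac a, ha]
      glueE := fun i hi hm => by
        obtain ⟨f, g, y, h1, h2, h3, h4⟩ := A.glueE i hi hm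
        refine ⟨f, g, congrArg Fin.val (hT1 ⟨i, by omega⟩ f h1),
          congrArg Fin.val (hT1 ⟨i + 1, hi⟩ g h2), h3.2.1, h4.2.1, ?_⟩
        rw [h3.2.2, h4.2.2]
      glueN := fun i hi hm => by
        obtain ⟨f, g, x, h1, h2, h3, h4⟩ := A.glueN i hi hm
        refine ⟨f, g, congrArg Fin.val (hT1 ⟨i, by omega⟩ f h1),
          congrArg Fin.val (hT1 ⟨i + 1, hi⟩ g h2), h3.2.2, h4.2.2, ?_⟩
        rw [h3.2.1, h4.2.1]
      glueS := fun i hi hm => by
        obtain ⟨f, g, x, h1, h2, h3, h4⟩ := A.glueS i hi hm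
        refine ⟨f, g, congrArg Fin.val (hT1 ⟨i, by omega⟩ f h1),
          congrArg Fin.val (hT1 ⟨i + 1, hi⟩ g h2), h3.2.2, h4.2.2, ?_⟩
        rw [h3.2.1, h4.2.1] }
  exact B.hasEdgeUnfolding ⟨(A.w 0).facet⟩

end Pool.Agent.MP42.NE
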