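import Mathlib

/-!
Selection lemma (note 1722 (1) of helper97) in abstract form.

A dual map: darts `D`; `nu` = next side (corner) in the node, `op` = other side of the ribbon,
`F d` = circle at the corner `d` (the side `d` runs from the circle `F d` to the circle `F (nu d)`),
`nu (op d)` = next corner of the same circle.  Nodes have degree one, two or three.  `L` is the level
of a circle (distance from the two root circles).  `thin` = virtual ribbons (540 degree vertices).

Every circle of positive level chooses a corner `b` (in a triangle, `nu b` on its parent), and on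
every thin ribbon the contributions `+1` (side `b`), `-1` (side `nu b`), `+1` (side `nu (nu b)`)
of both sides add up to `-1`, `0` or `1`.
-/

namespace Pool.MP42.Sel

/-- the data and the hypotheses -/
structure SMap (D V : Type*) where
  nu : D → D
  op : D → D
  F : D → V
  L : V → ℕ
  thin : D → Prop
  nuinj : Function.Injective nu
  opop : ∀ d, op (op d) = d
  Fop : ∀ d, F (op d) = F (nu d)
  orb : ∀ a b, F a = F b → ∃ n : ℕ, (fun d => nu (op d))^[n] a = b
  deg : ∀ d, nu d = d ∨ nu (nu d) = d ∨ nu (nu (nu d)) = d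
  step : ∀ d, L (F d) ≤ L (F (nu d)) + 1
  step' : ∀ d, L (F (nu d)) ≤ L (F d) + 1
  thop : ∀ d, thin d → thin (op d)
  sep1 : ∀ d, thin d → nu d ≠ op d
  sep2 : ∀ d, thin d → nu (nu d) ≠ op d
  root : ∀ d, ∃ r, ¬ thin r ∧ L (F r) = L (F (nu r)) ∧
    ∀ S : D → Prop, (∀ x, S x → S (nu x)) → (∀ x, S x → S (op x)) → S d → S r
  down : ∀ d, 0 < L (F d) → ∃ b, F b = F d ∧ L (F (nu b)) + 1 = L (F b)

variable {D V : Type*} (M : SMap D V)

namespace SMap

/-- down dart -/
def Dn (b : D) : Prop := M.L (M.F (M.nu b)) + 1 = M.L (M.F b)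

/-- usable corner: down dart in a triangle -/
def U (b : D) : Prop := M.Dn b ∧ M.nu (M.nu (M.nu b)) = b

/-- partner in a saddle -/
def Par (b b' : D) : Prop :=
  (M.nu b' = M.op (M.nu b) ∧ M.thin (M.nu b) ∧
      M.L (M.F (M.nu (M.nu b))) = M.L (M.F (M.nu b)) ∧ M.U b') ∨
  (M.op (M.nu (M.nu b)) = M.nu (M.nu b') ∧ M.thin (M.nu (M.nu b)) ∧
      M.L (M.F (M.nu (M.nu b))) = M.L (M.F b) ∧ M.U b')

theorem Fnuop (d : D) : M.F (M.nu (M.op d)) = M.F d := by
  have := M.Fop (M.op d)
  rw [M.opop] at this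
  exact this.symm

theorem u_nu {b : D} (h : M.U b) : ¬ M.U (M.nu b) := by
  intro h'
  obtain ⟨h1, h2⟩ := h
  obtain ⟨h3, -⟩ := h'
  unfold Dn at h1 h3
  have h4 := M.step' (M.nu (M.nu b))
  rw [h2] at h4
  omega

theorem u_nu2 {b : D} (h : M.U b) : ¬ M.U (M.nu (M.nu b)) := by
  intro h'
  have h2 := M.u_nu h'
  rw [h.2] at h2
  exact h2 h

theorem par_symm {b b' : D} (hb : M.U b) (h : M.Par b b') : M.Par b' b := by
  rcases h with ⟨h1, h2, h3, h4⟩ | ⟨h1, h2, h3, h4⟩
  · left
    refine ⟨?_, ?_, ?_, hb⟩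
    · rw [h1, M.opop]
    · rw [h1]; exact M.thop _ h2
    · have e1 : M.F (M.nu b') = M.F (M.nu (M.nu b)) := by rw [h1, M.Fop]
      have e2 : M.F (M.nu (M.nu b')) = M.F (M.nu b) := by rw [h1, M.Fnuop]
      rw [e1, e2, h3]
  · right
    refine ⟨?_, ?_, ?_, hb⟩
    · rw [← h1, M.opop]
    · rw [← h1]; exact M.thop _ h2
    · have e1 : M.F (M.nu (M.nu b')) = M.F b := by rw [← h1, M.Fop, hb.2]
      have e2 : M.F b' = M.F (M.nu (M.nu b)) := by
        have := h4.2
        rw [← h1] at this
        rw [← this, M.Fnuop]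
      rw [e1, e2, h3]

/-- distance (in the saddle graph) to a private circle -/
def R : ℕ → V → Prop
  | 0, c => ∃ b, M.F b = c ∧ M.U b ∧ ∀ b', ¬ M.Par b b'
  | n + 1, c => ∃ b b', M.F b = c ∧ M.U b ∧ M.Par b b' ∧ R n (M.F b')

theorem par_inj {b b' b'' : D} (hb : M.U b) (h : M.Par b b') (h' : M.Par b b'') : b' = b'' := by
  have hb1 := hb.1
  unfold Dn at hb1
  rcases h with ⟨h1, h2, h3, h4⟩ | ⟨h1, h2, h3, h4⟩ <;>
    rcases h' with ⟨g1, g2, g3, g4⟩ | ⟨g1, g2, g3, g4⟩
  · exact M.nuinj (h1.trans g1.symm)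
  · exfalso; omega
  · exfalso; omega
  · exact M.nuinj (M.nuinj (h1.symm.trans g1))

/-- circles without a path to a private circle -/
def Bad (c : V) : Prop := 0 < M.L c ∧ ∀ n, ¬ M.R n c

theorem bad_par {b : D} (hb : M.U b) (hc : M.Bad (M.F b)) : ∃ b', M.Par b b' ∧ M.Bad (M.F b') := by
  have h0 := hc.2 0
  simp only [R, not_exists, not_and, not_forall, not_not] at h0
  obtain ⟨b', hb'⟩ := h0 b rfl hb
  refine ⟨b', hb', ?_, ?_⟩
  · have hU : M.U b' := by
      rcases hb' with h | h
      · exact h.2.2.2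
      · exact h.2.2.2
    have := hU.1
    unfold Dn at this
    omega
  · intro n hn
    exact hc.2 (n + 1) ⟨b, b', rfl, hb, hb', hn⟩

/-- invariant at the darts of a bad circle -/
def Inv (d : D) : Prop :=
  M.Dn d ∨ (M.L (M.F (M.nu d)) = M.L (M.F d) ∧ M.nu (M.nu (M.nu d)) = d ∧
    M.L (M.F (M.nu (M.nu d))) + 1 = M.L (M.F d) ∧ M.thin d ∧ M.Bad (M.F (M.nu d)))

theorem inv_back {g : D} (hg : M.Bad (M.F g)) (h : M.Inv (M.nu (M.op g))) : M.Inv g := by
  have hF : M.F (M.nu (M.op g)) = M.F g := M.Fnuop g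
  rcases h with h | ⟨h1, h2, h3, h4, h5⟩
  · -- down dart `d = nu (op g)`
    rcases M.deg (M.nu (M.op g)) with hd | hd | hd
    · exfalso
      unfold Dn at h
      rw [hd] at h
      omega
    · -- digon: `op g = nu d`
      have e : M.op g = M.nu (M.nu (M.op g)) := by
        have := M.nuinj hd
        exact this.symm
      left
      unfold Dn at h ⊢
      rw [← e, M.Fop, hF] at h
      exact h
    · -- triangle
      have hU : M.U (M.nu (M.op g)) := ⟨h, hd⟩
      obtain ⟨b', hb', hbad⟩ := M.bad_par hU (by rw [hF]; exact hg)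
      have e : M.nu (M.nu (M.nu (M.op g))) = M.op g := M.nuinj hd
      unfold Dn at h
      rcases hb' with ⟨h1, h2, h3, h4⟩ | ⟨h1, h2, h3, h4⟩
      · left
        unfold Dn
        rw [e, M.Fop] at h3
        rw [hF] at h
        omega
      · right
        rw [e, M.opop] at h1
        rw [e, M.Fop, hF] at h3
        rw [e] at h2
        have h6 := M.thop _ h2
        rw [M.opop] at h6
        have h7 : M.nu (M.nu (M.nu g)) = g := by
          rw [h1, h4.2]
        have h8 : M.nu g = b' := by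
          rw [h1, h4.2]
        refine ⟨h3, h7, ?_, h6, ?_⟩
        · rw [h8]
          have := h4.1
          unfold Dn at this
          rw [← h8] at this ⊢
          omega
        · rw [h8]; exact hbad
  · -- `d` horizontal
    have e : M.nu (M.nu (M.nu (M.op g))) = M.op g := M.nuinj h2
    left
    unfold Dn
    rw [e, M.Fop, hF] at h3
    exact h3

theorem inv_all {c : V} (hc : M.Bad c) {d : D} (hd : M.F d = c) : M.Inv d := by
  subst hd
  obtain ⟨b, hb1, hb2⟩ := M.down d hc.1
  obtain ⟨n, hn⟩ := M.orb d b hb1.symm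
  have key : ∀ (n : ℕ) (x : D), M.F x = M.F d →
      M.Inv ((fun d => M.nu (M.op d))^[n] x) → M.Inv x := by
    intro n
    induction n with
    | zero => intro x _ h; simpa using h
    | succ n ih =>
      intro x hx h
      rw [Function.iterate_succ_apply] at h
      have h1 : M.F (M.nu (M.op x)) = M.F d := by rw [M.Fnuop, hx]
      have h2 := ih _ h1 h
      exact M.inv_back (by rw [hx]; exact hc) h2
  refine key n d rfl ?_
  rw [hn]
  exact Or.inl hb2

/-- the node of `d` has a corner on a bad circle -/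
def S (d : D) : Prop :=
  M.Bad (M.F d) ∨ M.Bad (M.F (M.nu d)) ∨ (M.nu (M.nu (M.nu d)) = d ∧ M.Bad (M.F (M.nu (M.nu d))))

theorem s_nu {d : D} (h : M.S d) : M.S (M.nu d) := by
  rcases M.deg d with hd | hd | hd
  · rw [hd]; exact h
  · rcases h with h | h | ⟨h1, h2⟩
    · right; left; rw [hd]; exact h
    · left; exact h
    · left
      rw [hd] at h1
      rw [hd] at h2
      rw [h1]; exact h2
  · rcases h with h | h | ⟨h1, h2⟩
    · right; right
      refine ⟨by rw [hd], by rw [hd]; exact h⟩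
    · left; exact h
    · right; left; exact h2

/-- the third case: both ends of `d` are not bad, the opposite corner is -/
theorem third {d : D} (h1 : ¬ M.Bad (M.F d)) (h2 : ¬ M.Bad (M.F (M.nu d)))
    (h3 : M.nu (M.nu (M.nu d)) = d) (h4 : M.Bad (M.F (M.nu (M.nu d)))) :
    M.thin d ∧ M.S (M.op d) := by
  have hi := M.inv_all h4 rfl
  rcases hi with hi | ⟨-, -, -, -, g5⟩
  · have hU : M.U (M.nu (M.nu d)) := ⟨hi, by rw [h3]⟩
    obtain ⟨b', hb', hbad⟩ := M.bad_par hU h4
    rcases hb' with ⟨g1, g2, g3, g4⟩ | ⟨g1, g2, g3, g4⟩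
    · rw [h3] at g1 g2
      refine ⟨g2, ?_⟩
      right; right
      have e : M.nu (M.nu (M.op d)) = b' := by rw [← g1, g4.2]
      rw [e]
      exact ⟨g1, hbad⟩
    · exfalso
      apply h2
      rw [h3] at g1
      have e : M.F b' = M.F (M.nu d) := by
        have := g4.2
        rw [← g1] at this
        rw [← this, M.Fnuop]
      rw [← e]
      exact hbad
  · exfalso
    rw [h3] at g5
    exact h1 g5

theorem s_op {d : D} (h : M.S d) : M.S (M.op d) := by
  by_cases h1 : M.Bad (M.F d)
  · right; left; rw [M.Fnuop]; exact h1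
  · by_cases h2 : M.Bad (M.F (M.nu d))
    · left; rw [M.Fop]; exact h2
    · rcases h with h | h | ⟨h3, h4⟩
      · exact absurd h h1
      · exact absurd h h2
      · exact (M.third h1 h2 h3 h4).2

theorem s_root {r : D} (hr : ¬ M.thin r) (hl : M.L (M.F r) = M.L (M.F (M.nu r))) : ¬ M.S r := by
  intro h
  by_cases h1 : M.Bad (M.F r)
  · rcases M.inv_all h1 rfl with hi | hi
    · unfold Dn at hi; omega
    · exact hr hi.2.2.2.1
  · by_cases h2 : M.Bad (M.F (M.nu r))
    · have e : M.F (M.op r) = M.F (M.nu r) := M.Fop r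
      rcases M.inv_all h2 e with hi | hi
      · unfold Dn at hi
        rw [M.Fnuop, e] at hi
        omega
      · apply hr
        have := M.thop _ hi.2.2.2.1
        rwa [M.opop] at this
    · rcases h with h | h | ⟨h3, h4⟩
      · exact h1 h
      · exact h2 h
      · exact hr (M.third h1 h2 h3 h4).1

theorem reach (d : D) (hd : 0 < M.L (M.F d)) : ∃ n, M.R n (M.F d) := by
  by_contra hcon
  push Not at hcon
  have hbad : M.Bad (M.F d) := ⟨hd, hcon⟩
  obtain ⟨r, hr, hl, hS⟩ := M.root d
  exact M.s_root hr hl (hS M.S (fun x hx => M.s_nu hx) (fun x hx => M.s_op hx) (Or.inl hbad))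

open Classical in
/-- rank of a circle -/
noncomputable def rk (c : V) : ℕ := if h : ∃ n, M.R n c then Nat.find h else 0

theorem rk_le {n : ℕ} {c : V} (h : M.R n c) : M.rk c ≤ n := by
  classical
  unfold rk
  rw [dif_pos ⟨n, h⟩]
  exact Nat.find_min' _ h

theorem choice (d : D) (hd : 0 < M.L (M.F d)) :
    ∃ b, M.F b = M.F d ∧ M.U b ∧ ∀ b', M.Par b b' → M.rk (M.F b') < M.rk (M.F b) := by
  classical
  have h := M.reach d hd
  have e : M.rk (M.F d) = Nat.find h := by
    unfold rk
    rw [dif_pos h]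
  have hs := Nat.find_spec h
  rcases hn : Nat.find h with _ | n
  · rw [hn] at hs
    obtain ⟨b, hb1, hb2, hb3⟩ := hs
    exact ⟨b, hb1, hb2, fun b' hb' => absurd hb' (hb3 b')⟩
  · rw [hn] at hs
    obtain ⟨b, b', hb1, hb2, hb3, hb4⟩ := hs
    refine ⟨b, hb1, hb2, ?_⟩
    intro b'' hb''
    have e2 := M.par_inj hb2 hb3 hb''
    subst e2
    have := M.rk_le hb4
    rw [hb1, e, hn]
    omega

/-- sign of the side `d` when the corners `B` are used -/
noncomputable def sgn (B : D → Prop) (d : D) : ℤ := by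
  classical
  exact if B d then 1 else if B (M.nu (M.nu d)) then -1 else if B (M.nu d) then 1 else 0

/-- **Selection lemma.** -/
theorem select : ∃ B : D → Prop,
    (∀ b, B b → 0 < M.L (M.F b) ∧ M.L (M.F (M.nu b)) + 1 = M.L (M.F b) ∧
      M.nu (M.nu (M.nu b)) = b) ∧
    (∀ d, 0 < M.L (M.F d) → ∃ b, B b ∧ M.F b = M.F d) ∧
    (∀ b b', B b → B b' → M.F b = M.F b' → b = b') ∧
    (∀ d, M.thin d → |M.sgn B d + M.sgn B (M.op d)| ≤ 1) := by
  classical
  have hc : ∀ c : V, ∃ b : D → Prop, (∀ x, b x → M.F x = c ∧ 0 < M.L c ∧ M.U x ∧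
      ∀ b', M.Par x b' → M.rk (M.F b') < M.rk (M.F x)) ∧ (∀ x y, b x → b y → x = y) ∧
      (∀ d, M.F d = c → 0 < M.L c → ∃ x, b x) := by
    intro c
    by_cases h : ∃ d, M.F d = c ∧ 0 < M.L c
    · obtain ⟨d, hd, hl⟩ := h
      subst hd
      obtain ⟨b, hb1, hb2, hb3⟩ := M.choice d hl
      refine ⟨fun x => x = b, ?_, ?_, ?_⟩
      · intro x hx
        subst hx
        exact ⟨hb1, hl, hb2, hb3⟩
      · intro x y hx hy
        exact hx.trans hy.symm
      · intro _ _ _
        exact ⟨b, rfl⟩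
    · refine ⟨fun _ => False, fun x hx => hx.elim, fun x y hx => hx.elim, ?_⟩
      intro d hd hl
      exact absurd ⟨d, hd, hl⟩ h
  choose b hb1 hb2 hb3 using hc
  refine ⟨fun d => b (M.F d) d, ?_, ?_, ?_, ?_⟩
  · intro x hx
    obtain ⟨-, h2, h3, -⟩ := hb1 _ x hx
    exact ⟨h2, h3.1, h3.2⟩
  · intro d hd
    obtain ⟨x, hx⟩ := hb3 (M.F d) d rfl hd
    have := (hb1 _ x hx).1
    refine ⟨x, ?_, this⟩
    show b (M.F x) x
    rw [this]
    exact hx
  · intro x y hx hy hxy
    change b (M.F x) x at hx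
    change b (M.F y) y at hy
    rw [hxy] at hx
    exact hb2 _ _ _ hx hy
  · intro d hd
    set B : D → Prop := fun d => b (M.F d) d with hB
    have BU : ∀ x, B x → M.U x := fun x hx => (hb1 _ x hx).2.2.1
    have Buniq : ∀ x y, B x → B y → M.F x = M.F y → x = y := by
      intro x y hx hy hxy
      change b (M.F x) x at hx
      change b (M.F y) y at hy
      rw [hxy] at hx
      exact hb2 _ _ _ hx hy
    have Bpar : ∀ x y, B x → B y → M.Par x y → False := by
      intro x y hx hy hxy
      have h1 := (hb1 _ x hx).2.2.2 y hxy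
      have h2 := (hb1 _ y hy).2.2.2 x (M.par_symm (BU x hx) hxy)
      omega
    have c1 : ∀ x, M.sgn B x = 1 → B x ∨ B (M.nu x) := by
      intro x hx
      by_cases h1 : B x
      · exact Or.inl h1
      · by_cases h3 : B (M.nu x)
        · exact Or.inr h3
        · exfalso
          unfold sgn at hx
          by_cases h2 : B (M.nu (M.nu x))
          · rw [if_neg h1, if_pos h2] at hx
            norm_num at hx
          · rw [if_neg h1, if_neg h2, if_neg h3] at hx
            norm_num at hx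
    have c2 : ∀ x, M.sgn B x = -1 → B (M.nu (M.nu x)) := by
      intro x hx
      by_contra h2
      unfold sgn at hx
      rw [if_neg h2] at hx
      by_cases h1 : B x
      · rw [if_pos h1] at hx
        norm_num at hx
      · rw [if_neg h1] at hx
        by_cases h3 : B (M.nu x)
        · rw [if_pos h3] at hx
          norm_num at hx
        · rw [if_neg h3] at hx
          norm_num at hx
    have c3 : ∀ x, M.sgn B x = 1 ∨ M.sgn B x = -1 ∨ M.sgn B x = 0 := by
      intro x
      unfold sgn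
      split_ifs <;> simp
    have no1 : ¬ (M.sgn B d = 1 ∧ M.sgn B (M.op d) = 1) := by
      rintro ⟨h1, h2⟩
      rcases c1 _ h1 with h1 | h1 <;> rcases c1 _ h2 with h2 | h2
      · have g1 := (BU _ h1).1
        have g2 := (BU _ h2).1
        unfold Dn at g1 g2
        rw [M.Fnuop, M.Fop] at g2
        omega
      · have := Buniq _ _ h1 h2 (M.Fnuop d).symm
        have h3 := (BU _ h1).2
        have h4 : M.nu (M.nu d) = M.op d := M.nuinj (h3.trans this)
        exact M.sep2 d hd h4
      · have := Buniq _ _ h1 h2 (M.Fop d).symm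
        exact M.sep1 d hd this
      · -- type B saddle
        have g1 := BU _ h1
        have g2 := BU _ h2
        have e1 : M.nu (M.nu (M.nu d)) = d := M.nuinj g1.2
        have e2 : M.nu (M.nu (M.nu (M.op d))) = M.op d := M.nuinj g2.2
        have s1 := M.step (M.nu (M.nu d))
        have s1' := M.step' (M.nu (M.nu d))
        have s2 := M.step (M.nu (M.nu (M.op d)))
        have s2' := M.step' (M.nu (M.nu (M.op d)))
        have k1 := g1.1
        have k2 := g2.1
        unfold Dn at k1 k2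
        rw [e1] at s1 s1'
        rw [e2, M.Fop] at s2 s2'
        rw [M.Fnuop] at k2
        apply Bpar _ _ h1 h2
        right
        rw [e1, e2]
        refine ⟨rfl, hd, ?_, g2⟩
        omega
    have no2 : ¬ (M.sgn B d = -1 ∧ M.sgn B (M.op d) = -1) := by
      rintro ⟨h1, h2⟩
      have h1 := c2 _ h1
      have h2 := c2 _ h2
      have g1 := BU _ h1
      have g2 := BU _ h2
      have e1 : M.nu (M.nu (M.nu d)) = d := M.nuinj (M.nuinj g1.2)
      have e2 : M.nu (M.nu (M.nu (M.op d))) = M.op d := M.nuinj (M.nuinj g2.2)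
      have k1 := g1.1
      have k2 := g2.1
      unfold Dn at k1 k2
      rw [e1] at k1
      rw [e2, M.Fop] at k2
      have s1 := M.step' (M.nu d)
      have s2 := M.step' (M.nu (M.op d))
      rw [M.Fnuop] at s2
      apply Bpar _ _ h1 h2
      left
      rw [e1, e2]
      refine ⟨rfl, hd, ?_, g2⟩
      omega
    rcases c3 d with h1 | h1 | h1 <;> rcases c3 (M.op d) with h2 | h2 | h2
    · exact absurd ⟨h1, h2⟩ no1
    · rw [h1, h2]; norm_num
    · rw [h1, h2]; norm_num
    · rw [h1, h2]; norm_num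
    · exact absurd ⟨h1, h2⟩ no2
    · rw [h1, h2]; norm_num
    · rw [h1, h2]; norm_num
    · rw [h1, h2]; norm_num
    · rw [h1, h2]; norm_num

/-- different circles use different triangles -/
theorem tri_disj {B : D → Prop} (hB : ∀ b, B b → M.L (M.F (M.nu b)) + 1 = M.L (M.F b) ∧
      M.nu (M.nu (M.nu b)) = b) {b : D} (hb : B b) : ¬ B (M.nu b) ∧ ¬ B (M.nu (M.nu b)) :=
  ⟨fun h => M.u_nu (hB b hb) (hB _ h), fun h => M.u_nu2 (hB b hb) (hB _ h)⟩

end SMap

end Pool.MP42.Sel
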