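import Pool.Agent.MP42.NE.Stk

/-!
# The sheared system

A flow with the single letter NE (`0 ≤ v`) on `S` is the same as a signed flow on the sheared
system `S.shear = (N E, N, N r)` (facets = parallelograms between two diagonals), whose rings are
the curves of the family `all lines once`, whose ribbons are the diagonals of the facets
(`ta = r`) and whose corners are the same (`nu`).  The number of strands that cross the diagonal
of `d` is `v d - e (r d)`.
-/

set_option autoImplicit false

namespace Pool.Agent.MP42.NE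

namespace Sys

variable {D : Type*} {S : Sys D} {e : D → ℕ} {v : D → ℤ}

lemma N_rN (x : D) : S.N (S.r (S.N x)) = S.r x := by
  have h := congrArg S.r (S.rN x)
  rw [S.rr] at h
  exact h

lemma E_rE (x : D) : S.E (S.r (S.E x)) = S.r x := S.E_om x

lemma r_N_symm (x : D) : S.r (S.N.symm x) = S.N (S.r x) := by
  have h := S.N_rN (S.N.symm x)
  rw [Equiv.apply_symm_apply] at h
  exact h.symm

/-- the sheared system -/
def shear (S : Sys D) : Sys D where
  E := S.E.trans S.N
  N := S.N
  r := fun x => S.N (S.r x)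
  rr := fun x => by
    show S.N (S.r (S.N (S.r x))) = x
    rw [N_rN, S.rr]
  rE := fun x => by
    show S.N (S.r (S.N (S.E (S.N (S.r (S.N (S.E x))))))) = x
    rw [N_rN, N_rN, E_rE, S.rr]
  rN := fun x => by
    show S.N (S.r (S.N (S.N (S.r (S.N x))))) = x
    rw [N_rN, N_rN, S.rr]

@[simp] lemma shear_E (x : D) : S.shear.E x = S.N (S.E x) := rfl
@[simp] lemma shear_N (x : D) : S.shear.N x = S.N x := rfl
@[simp] lemma shear_r (x : D) : S.shear.r x = S.N (S.r x) := rfl

lemma shear_om (x : D) : S.shear.om x = S.om x := by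
  show S.N (S.r (S.N (S.E x))) = _
  rw [N_rN]; rfl

lemma shear_ta (x : D) : S.shear.ta x = S.r x := by
  show S.N (S.r (S.N x)) = _
  rw [N_rN]

/-- the number of strands across the diagonal -/
def vs (S : Sys D) (e : D → ℕ) (v : D → ℤ) (x : D) : ℤ := v x - e (S.r x)

lemma Fl.vs_r (h : S.Fl e v) (x : D) : S.vs e v (S.r x) = S.vs e v x := by
  have := h.bal x
  unfold vs
  rw [S.rr]
  omega

lemma Fl.shear (h : S.Fl e v) : S.shear.Fl e (S.vs e v) where
  er := fun x => by
    show e (S.shear.om x) = e x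
    rw [shear_om]; exact h.er x
  vr := fun x => by
    show S.vs e v (S.shear.ta x) = _
    rw [shear_ta, h.vs_r]
  bal := fun x => by
    rw [shear_r]
    have h1 : S.vs e v (S.N (S.r x)) = S.vs e v (S.N.symm x) := by
      rw [← r_N_symm, h.vs_r]
    have h2 := h.bal (S.N.symm x)
    have h3 := h.vr (S.N.symm x)
    rw [Equiv.apply_symm_apply] at h3
    have h4 := h.bal x
    rw [h1]
    unfold vs
    rw [r_N_symm] at *
    omega

/-- a signed flow on the sheared system gives a flow -/
lemma Fl.of_shear {w : D → ℤ} (h : S.shear.Fl e w) : S.Fl e (fun x => w x + e (S.r x)) where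
  er := fun x => by
    have := h.er x
    change e (S.shear.om x) = e x at this
    rwa [shear_om] at this
  vr := fun x => by
    show w (S.r (S.N x)) + e (S.r (S.r (S.N x))) = w x + e (S.r x)
    have h1 := h.bal (S.r x)
    rw [shear_r, S.rr] at h1
    have h2 : ∀ y, w (S.r y) = w y := fun y => by
      have := h.vr y
      change w (S.shear.ta y) = w y at this
      rwa [shear_ta] at this
    rw [S.rr, h2 (S.N x)]
    rw [h2 x] at h1
    omega
  bal := fun x => by
    show (e (S.r x) : ℤ) + (w (S.r x) + e (S.r (S.r x))) = e x + (w x + e (S.r x))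
    have h2 : w (S.r x) = w x := by
      have := h.vr x
      change w (S.shear.ta x) = w x at this
      rwa [shear_ta] at this
    rw [S.rr, h2]; ring

lemma vs_add {w : D → ℤ} : S.vs e (fun x => w x + e (S.r x)) = w := by
  funext x
  unfold vs
  ring

lemma symm_shear (x : D) : S.shear.E.symm x = S.E.symm (S.N.symm x) := rfl

lemma cnt_ne (h0 : ∀ x, 0 ≤ v x) (x : D) : (S.cnt e v x : ℤ) = e x + v x := by
  have h1 := h0 x
  have h2 := h0 (S.r x)
  unfold cnt
  omega

theorem FCon.shear_stk (hF : S.Fl e v) (h0 : ∀ x, 0 ≤ v x)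
    (hb : ∀ x, S.vs e v x ≤ e (S.shear.E.symm x))
    {g : D → ℕ → Prop} (hg : S.FCon e v g) : S.shear.Stk e (S.vs e v) (Sys.T v g) where
  st := fun x i h1 h2 => by
    rw [shear_E] at *
    have h3 := h0 x
    have h4 := h0 (S.E x)
    have h5 := h0 (S.N (S.E x))
    have h6 := hF.vr (S.E x)
    have h7 := hF.bal (S.N (S.E x))
    have h8 : S.vs e v (S.N (S.E x)) = v (S.N (S.E x)) - e (S.r (S.N (S.E x))) := rfl
    have c1 := hg.cE x _ h1
    have c2 := hg.cNp (S.E x) ((-v (S.E x)).toNat + ((S.vs e v (S.N (S.E x))).toNat + i))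
      (by omega)
    show g x ((v x).toNat + ((S.vs e v (S.N (S.E x))).toNat + i)) ↔
      g (S.N (S.E x)) ((v (S.N (S.E x))).toNat + ((-S.vs e v (S.N (S.E x))).toNat + i))
    rw [c1, c2, show (-v (S.N (S.E x))).toNat + e (S.r (S.N (S.E x))) +
      ((-v (S.E x)).toNat + ((S.vs e v (S.N (S.E x))).toNat + i)) =
      (v (S.N (S.E x))).toNat + ((-S.vs e v (S.N (S.E x))).toNat + i) by omega]
  rv := fun x j hj => by
    rw [shear_om]
    exact T_bot hF hg (by omega)
  rb := fun x j hj => by
    rw [shear_ta]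
    have hr := hF.vs_r x
    have h1 := h0 x
    have h2 := h0 (S.r x)
    have h3 := hF.bal x
    have h4 : S.vs e v x = v x - e (S.r x) := rfl
    have hc := cnt_ne (S := S) (e := e) h0 x
    by_cases h : 0 ≤ S.vs e v x
    · rw [vw_pos h, vw_pos (by rw [hr]; exact h)]
      have key : ∀ x, 0 ≤ S.vs e v x → ∀ j, j < (S.vs e v x).natAbs →
          (Sys.T v g (S.shear.E.symm x) j ↔ g x (e (S.r x) + j)) := by
        intro x h j hj
        obtain ⟨y, rfl⟩ := S.shear.E.surjective x
        have hb1 := hb (S.shear.E y)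
        rw [Equiv.symm_apply_apply] at hb1 ⊢
        rw [shear_E] at *
        have e1 := h0 y
        have e2 := h0 (S.E y)
        have e3 := h0 (S.N (S.E y))
        have e4 := hF.vr (S.E y)
        have e5 := hF.bal (S.N (S.E y))
        have e6 : S.vs e v (S.N (S.E y)) = v (S.N (S.E y)) - e (S.r (S.N (S.E y))) := rfl
        have c1 := hg.cE y j (by omega)
        have c2 := hg.cNp (S.E y) ((-v (S.E y)).toNat + j) (by omega)
        show g y ((v y).toNat + j) ↔ _
        rw [c1, c2, show (-v (S.N (S.E y))).toNat + e (S.r (S.N (S.E y))) +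
          ((-v (S.E y)).toNat + j) = e (S.r (S.N (S.E y))) + j by omega]
      rw [key x h j hj, key (S.r x) (by rw [hr]; exact h) _ (by rw [hr]; omega), S.rr]
      have c3 := hg.cr x (e x + ((S.vs e v x).natAbs - 1 - j)) (by omega)
      rw [c3, show S.cnt e v x - 1 - (e x + ((S.vs e v x).natAbs - 1 - j)) =
        e (S.r x) + j by omega]
    · rw [vw_neg h, vw_neg (by rw [hr]; exact h)]
      have c3 := hg.cr x ((v (S.r x)).toNat + ((S.vs e v x).natAbs - 1 - j)) (by omega)
      show g x ((v x).toNat + j) ↔ g (S.r x) ((v (S.r x)).toNat + ((S.vs e v x).natAbs - 1 - j))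
      rw [c3, show S.cnt e v x - 1 - ((v (S.r x)).toNat + ((S.vs e v x).natAbs - 1 - j)) =
        (v x).toNat + j by omega]

/-- the strands from the west -/
lemma FCon.west {g : D → ℕ → Prop} (hg : S.FCon e v g) (h0 : ∀ x, 0 ≤ v x) (y : D) {j : ℕ}
    (hj : j < e y) : g (S.E y) j ↔ Sys.T v g y j := by
  have h1 := hg.cE y j hj
  have h2 := h0 (S.E y)
  show _ ↔ g y ((v y).toNat + j)
  rw [h1, show (-v (S.E y)).toNat + j = j by omega]

/-- **a connected flow on the sheared system is a connected flow** -/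
theorem FConn.of_shear (hF : S.Fl e v) (h0 : ∀ x, 0 ≤ v x)
    (hb : ∀ x, S.vs e v x ≤ e (S.shear.E.symm x)) (hc : S.shear.FConn e (S.vs e v)) :
    S.FConn e v := by
  intro g hg
  have hb' : ∀ x, -S.vs e v x ≤ e x := fun x => by
    have h1 := hF.bal x
    have h2 := h0 (S.r x)
    unfold vs
    omega
  have hs := hg.shear_stk hF h0 hb
  obtain ⟨c, hc⟩ := hc _ (hs.fcon hF.shear hb hb')
  have hT : ∀ x j, j < e x → (Sys.T v g x j ↔ c) := by
    intro x j hj
    have h1 := hc x ((S.vs e v x).toNat + j) (by unfold cnt; omega)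
    rw [ofStk_e hj] at h1
    exact h1
  have hW : ∀ x j, j < e (S.r x) → (g x j ↔ c) := by
    intro x j hj
    obtain ⟨y, rfl⟩ := S.E.surjective x
    rw [hF.er] at hj
    rw [hg.west h0 y hj]
    exact hT y j hj
  refine ⟨c, ?_⟩
  intro x t ht
  have hc := cnt_ne (S := S) (e := e) h0 x
  have h1 := h0 x
  by_cases ht1 : (v x).toNat ≤ t
  · have := hT x (t - (v x).toNat) (by omega)
    unfold Sys.T at this
    rwa [show (v x).toNat + (t - (v x).toNat) = t by omega] at this
  by_cases ht2 : t < e (S.r x)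
  · exact hW x t ht2
  -- a strand from the south side to the north side
  obtain ⟨y, rfl⟩ := S.shear.E.surjective x
  have hb1 := hb (S.shear.E y)
  rw [Equiv.symm_apply_apply] at hb1
  rw [shear_E] at *
  have e4 := hF.vr (S.E y)
  have e5 := hF.bal (S.N (S.E y))
  have e6 : S.vs e v (S.N (S.E y)) = v (S.N (S.E y)) - e (S.r (S.N (S.E y))) := rfl
  have c2 := hg.cNp (S.E y) (t - e (S.r (S.N (S.E y)))) (by omega)
  rw [show (-v (S.N (S.E y))).toNat + e (S.r (S.N (S.E y))) +
    (t - e (S.r (S.N (S.E y)))) = t by omega] at c2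
  rw [← c2]
  exact hW (S.E y) _ (by rw [hF.er]; omega)

/-- the form that is used: signed flows on the sheared system -/
theorem FConn.ne_of_shear {w : D → ℤ} (hF : S.shear.Fl e w) (h0 : ∀ x, 0 ≤ w x + e (S.r x))
    (hb : ∀ x, w x ≤ e (S.shear.E.symm x)) (hc : S.shear.FConn e w) :
    S.Fl e (fun x => w x + e (S.r x)) ∧ S.FConn e (fun x => w x + e (S.r x)) := by
  refine ⟨hF.of_shear, FConn.of_shear hF.of_shear h0 ?_ ?_⟩
  · rw [vs_add]; exact hb
  · rw [vs_add]; exact hc

end Sys

end Pool.Agent.MP42.NE
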