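import Pool.Agent.MP42.NE.Flow

/-!
# Flows with two letters: stack equations

The strands over the east side of a dart are a stack (from the north).
-/

set_option autoImplicit false

namespace Pool.Agent.MP42.NE

namespace Sys

variable {D : Type*}

/-- the strand `j` from the top on the east side of `x` -/
def T (v : D → ℤ) (g : D → ℕ → Prop) (x : D) (j : ℕ) : Prop := g x ((v x).toNat + j)

/-- connected after the contraction of the cores: the strands that are not among the first `K` or
the last `K` strands over an east side have the value of the ring -/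
def CC (S : Sys D) (e : D → ℕ) (v : D → ℤ) (K : ℕ) : Prop :=
  ∀ (g : D → ℕ → Prop) (ρ : D → Prop), S.FCon e v g → (∀ x, ρ (S.E x) ↔ ρ x) →
    (∀ x, ρ (S.r x) ↔ ρ x) →
    (∀ x j, K ≤ j → j + K < e x → (g x ((v x).toNat + j) ↔ ρ x)) →
    ∃ c : Prop, ∀ d t, t < S.cnt e v d → (g d t ↔ c)

section

variable {S : Sys D} {e : D → ℕ} {v : D → ℤ} {g : D → ℕ → Prop}

lemma T_pop (hg : S.FCon e v g) {x : D} {j : ℕ} (h0 : 0 ≤ v (S.E x)) (hj : j < e x) :
    g (S.E x) j ↔ T v g x j := by
  have := hg.cE x j hj
  rw [show (-v (S.E x)).toNat + j = j by omega] at this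
  exact this.symm

lemma T_pos (hg : S.FCon e v g) {x : D} {j k : ℕ} (h0 : (k : ℤ) = v (S.E x) + j)
    (h1 : 0 ≤ v (S.E x)) (hk : k < e x) : T v g (S.E x) j ↔ T v g x k := by
  have := T_pop hg h1 hk
  unfold T at this ⊢
  rw [← this, show (v (S.E x)).toNat + j = k by omega]

lemma T_neg (hg : S.FCon e v g) {x : D} {j k : ℕ} (h0 : (k : ℤ) = j - v (S.E x))
    (h1 : v (S.E x) ≤ 0) (hj : j < e x) : T v g (S.E x) k ↔ T v g x j := by
  have := hg.cE x j hj
  unfold T
  rw [this, show (v (S.E x)).toNat + k = (-v (S.E x)).toNat + j by omega]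

lemma T_push {x : D} {j : ℕ} (h1 : v x ≤ 0) : T v g x j ↔ g x j := by
  unfold T
  rw [show (v x).toNat + j = j by omega]

lemma ribbon (hF : S.Fl e v) (hg : S.FCon e v g) {x : D} {j k : ℕ}
    (hj : j + k + 1 = (v x).natAbs) : g x j ↔ g (S.r (S.N x)) k := by
  have hc := hF.bal (S.N x)
  have hv := hF.vr x
  rcases le_total 0 (v x) with h0 | h0
  · have h1 := hg.cNp x j (by omega)
    rw [h1]
    have h2 := hg.cr (S.N x) k (by
      unfold cnt
      rw [hv] at hc ⊢
      omega)
    rw [h2]
    unfold cnt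
    rw [hv] at hc ⊢
    rw [show e (S.N x) + (v (S.N x)).toNat + (-v x).toNat - 1 - k =
      (-v (S.N x)).toNat + e (S.r (S.N x)) + j by omega]
  · have h1 := hg.cNm x j (by omega)
    rw [h1]
    have h2 := hg.cr (S.N x) k (by
      unfold cnt
      rw [hv] at hc ⊢
      omega)
    rw [h2]
    unfold cnt
    rw [hv] at hc ⊢
    rw [show e (S.N x) + (v (S.N x)).toNat + (-v x).toNat - 1 - k =
      (v (S.N x)).toNat + e (S.N x) + j by omega]

lemma T_bot (hF : S.Fl e v) (hg : S.FCon e v g) {x : D} {j k : ℕ} (hj : j + k + 1 = e x) :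
    T v g (S.r (S.E x)) j ↔ T v g x k := by
  have hc := hF.bal (S.E x)
  have he := hF.er x
  have h1 := hg.cr (S.E x) ((v (S.r (S.E x))).toNat + j) (by
    unfold cnt
    omega)
  have h2 := hg.cE x k (by omega)
  unfold T
  rw [h1, h2]
  unfold cnt
  rw [show e (S.E x) + (v (S.E x)).toNat + (-v (S.r (S.E x))).toNat - 1 -
    ((v (S.r (S.E x))).toNat + j) = (-v (S.E x)).toNat + k by omega]

/-- all strands of a dart are strands over the east sides of two darts or over the north side -/
lemma all_const (hF : S.Fl e v) (hg : S.FCon e v g) {c : Prop}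
    (h1 : ∀ x j, j < e x → (T v g x j ↔ c)) (h2 : ∀ x j, j < (v x).natAbs → (g x j ↔ c)) :
    ∀ d t, t < S.cnt e v d → (g d t ↔ c) := by
  intro d t ht
  by_cases ha : t < (v d).toNat
  · exact h2 d t (by omega)
  by_cases hb : t < (v d).toNat + e d
  · have := h1 d (t - (v d).toNat) (by omega)
    unfold T at this
    rwa [Nat.add_sub_cancel' (by omega)] at this
  · have h3 := hg.cr (S.r d) (S.cnt e v d - 1 - t)
    rw [S.rr] at h3
    have hc := hF.bal d
    have hcnt : S.cnt e v (S.r d) = S.cnt e v d := by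
      unfold cnt
      rw [S.rr]
      omega
    rw [hcnt] at h3
    have h4 := h3 (by omega)
    -- the strand of the opposite dart
    have h5 : g (S.r d) (S.cnt e v d - 1 - t) ↔ c := by
      apply h2
      unfold cnt at ht ⊢
      omega
    have h6 := hg.cr d (S.cnt e v d - 1 - t) (by omega)
    rw [show S.cnt e v d - 1 - (S.cnt e v d - 1 - t) = t by omega] at h6
    rw [← h6]
    exact h5

end

end Sys

end Pool.Agent.MP42.NE
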