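import Mathlib

/-!
# Families of monotone curves on an abstract square complex

Darts = oriented `y`-facets; `E` = next dart to the east on the ring, `N` = next dart to the north
on the vertical line, `r` = half turn.  Weights: `s` = number of copies of the ring, `m` = number
of copies of the vertical line.  All crossings are smoothed in the same way (west with north, south
with east).  In the frame of the dart `d` the `s d + m d` strands have the index `t`: west side
from top to bottom, then south side from left to right; this is the same as north side from left to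
right, then east side from top to bottom.
-/

set_option autoImplicit false

namespace Pool.Agent.MP42.NE

/-- an abstract square complex -/
structure Sys (D : Type*) where
  E : Equiv.Perm D
  N : Equiv.Perm D
  r : D → D
  rr : ∀ d, r (r d) = d
  rE : ∀ d, r (E (r (E d))) = d
  rN : ∀ d, r (N (r (N d))) = d

namespace Sys

variable {D : Type*} (S : Sys D)

/-- weights: `s` is constant on the rings, `m` is constant on the vertical lines -/
structure Wt (s m : D → ℕ) : Prop where
  sE : ∀ d, s (S.E d) = s d
  sr : ∀ d, s (S.r d) = s d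
  mN : ∀ d, m (S.N d) = m d
  mr : ∀ d, m (S.r d) = m d

/-- consistent families: predicates on the strands that are constant on the curves -/
structure Con (s m : D → ℕ) (g : D → ℕ → Prop) : Prop where
  cE : ∀ d t, t < s d → (g d (m d + t) ↔ g (S.E d) t)
  cN : ∀ d t, t < m d → (g d t ↔ g (S.N d) (s (S.N d) + t))
  cr : ∀ d t, t < s d + m d → (g (S.r d) t ↔ g d (s d + m d - 1 - t))

/-- the family with the weights `s`, `m` is one closed curve -/
def Conn (s m : D → ℕ) : Prop :=
  ∀ g, S.Con s m g → ∃ c : Prop, ∀ d t, t < s d + m d → (g d t ↔ c)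

/-- the complex with the roles of `E` and `N` exchanged -/
def swap : Sys D where
  E := S.N
  N := S.E
  r := S.r
  rr := S.rr
  rE := S.rN
  rN := S.rE

variable {S}

lemma Wt.swap {s m : D → ℕ} (h : S.Wt s m) : S.swap.Wt m s :=
  ⟨h.mN, h.mr, h.sE, h.sr⟩

lemma Con.swap {s m : D → ℕ} (hW : S.Wt s m) {g : D → ℕ → Prop} (h : S.swap.Con m s g) :
    S.Con s m (fun d t => g d (s d + m d - 1 - t)) where
  cE := fun d t ht => by
    have h1 := h.cN d (s d - 1 - t) (by omega)
    have h2 := hW.sE d
    show g d (s d + m d - 1 - (m d + t)) ↔ g (S.E d) (s (S.E d) + m (S.E d) - 1 - t)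
    rw [show s d + m d - 1 - (m d + t) = s d - 1 - t by omega, h1]
    show g (S.E d) (m (S.E d) + (s d - 1 - t)) ↔ _
    rw [show m (S.E d) + (s d - 1 - t) = s (S.E d) + m (S.E d) - 1 - t by omega]
  cN := fun d t ht => by
    have h1 := h.cE d (m d - 1 - t) (by omega)
    have h2 := hW.mN d
    show g d (s d + m d - 1 - t) ↔ g (S.N d) (s (S.N d) + m (S.N d) - 1 - (s (S.N d) + t))
    rw [show s d + m d - 1 - t = s d + (m d - 1 - t) by omega, h1]
    show g (S.N d) (m d - 1 - t) ↔ _
    rw [show s (S.N d) + m (S.N d) - 1 - (s (S.N d) + t) = m d - 1 - t by omega]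
  cr := fun d t ht => by
    have h1 := h.cr d (s d + m d - 1 - t) (by omega)
    have h2 := hW.sr d
    have h3 := hW.mr d
    show g (S.r d) (s (S.r d) + m (S.r d) - 1 - t) ↔ g d (s d + m d - 1 - (s d + m d - 1 - t))
    rw [h2, h3]
    have h4 : g (S.swap.r d) (s d + m d - 1 - t) = g (S.r d) (s d + m d - 1 - t) := rfl
    rw [← h4, h1]
    rw [show m d + s d - 1 - (s d + m d - 1 - t) = s d + m d - 1 - (s d + m d - 1 - t) by omega]

lemma Conn.swap {s m : D → ℕ} (hW : S.Wt s m) (h : S.Conn s m) : S.swap.Conn m s := by
  intro g hg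
  obtain ⟨c, hc⟩ := h _ (hg.swap hW)
  refine ⟨c, ?_⟩
  intro d t ht
  have h1 := hc d (s d + m d - 1 - t) (by omega)
  rw [← h1]
  show g d t ↔ g d (s d + m d - 1 - (s d + m d - 1 - t))
  rw [show s d + m d - 1 - (s d + m d - 1 - t) = t by omega]

lemma swap_swap : S.swap.swap = S := rfl

end Sys

end Pool.Agent.MP42.NE
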