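import Pool.Agent.MP42.NE.TS

/-!
# Insertion of the faces, with infinite stacks
-/

set_option autoImplicit false

namespace Pool.Agent.MP42.NE

namespace TS

variable {P : Type*}

/-- insertion data: `q` = change of the height of the stack by the neighbouring insertions (`1` at
the third corner, `-1` at the corner of the parent), `ξ` = strands lost, `X` = own corners -/
structure InsT (E : Equiv.Perm P) (τ : P → P) (v : P → ℤ) (q : P → ℤ) (ξ : P → ℕ)
    (X : P → Prop) (rk : P → ℕ) (rr : P → P) : Prop where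
  v_eq : ∀ x, v (E x) = q x - q (E x) + ξ (E x)
  qb : ∀ x, -1 ≤ q x ∧ q x ≤ 1
  qq : ∀ x, q x = 0 ∨ q (E x) = 0
  ξq : ∀ x, 0 < ξ (E x) → q x = 0 ∧ q (E x) = 0
  X3 : ∀ b, X b → τ (E (τ (E (τ (E b))))) = b
  Xb : ∀ b, X b → ξ b = 1 ∧ ξ (E b) = 1
  Xc : ∀ b, X b → q (τ (E b)) = -1
  Xa : ∀ b, X b → q (τ (E (τ (E b)))) = 1
  q_neg : ∀ x, q x = -1 → ∃ b, X b ∧ τ (E b) = x
  q_pos : ∀ x, q x = 1 → ∃ b, X b ∧ τ (E (τ (E b))) = x
  reset : ∀ x, ∃ y, E.SameCycle x y ∧ 0 < ξ y
  rkE : ∀ x, rk (E x) = rk x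
  rkX : ∀ b, X b → rk (τ (E b)) < rk b
  rrE : ∀ x, rr (E x) = rr x
  rrt : ∀ x, rr (τ x) = rr x
  face : ∀ x, (∃ b, E.SameCycle x b ∧ X b) ∨ E.SameCycle x (rr x) ∨ E.SameCycle x (τ (rr x))
  link : ∀ x, v (rr x) = 1 ∧ 0 < ξ (rr x) ∧ 0 < ξ (τ (rr x))

section

variable {E : Equiv.Perm P} {τ : P → P} {v : P → ℤ} {q : P → ℤ} {ξ : P → ℕ} {X : P → Prop}
  {rk : P → ℕ} {rr : P → P} {T : P → ℕ → Prop} {ρ : P → Prop}

lemma cyc_ind [Finite P] {f : Equiv.Perm P} {Q : P → Prop} (h : ∀ x, Q x → Q (f x)) {x y : P}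
    (hxy : f.SameCycle x y) (hx : Q x) : Q y := by
  obtain ⟨n, rfl⟩ := hxy.exists_nat_pow_eq
  induction n with
  | zero => exact hx
  | succ n ih =>
    rw [pow_succ']
    exact h _ (ih ⟨n, by simp⟩)

lemma rho_cyc [Finite P] (hρ : ∀ x, ρ (E x) ↔ ρ x) {x y : P} (hxy : E.SameCycle x y) :
    ρ x ↔ ρ y :=
  cyc_ind (Q := fun z => (ρ x ↔ ρ z)) (fun z hz => hz.trans (hρ z).symm) hxy Iff.rfl

lemma rk_cyc [Finite P] (hI : InsT E τ v q ξ X rk rr) {x y : P} (hxy : E.SameCycle x y) :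
    rk x = rk y :=
  cyc_ind (Q := fun z => rk x = rk z) (fun z hz => hz.trans (hI.rkE z).symm) hxy rfl

variable (hI : InsT E τ v q ξ X rk rr) (hT : TS E τ v T)
  (hρ : ∀ x, ρ (E x) ↔ ρ x) (hK : ∀ x j, 2 ≤ j → (T x j ↔ ρ x))

include hI hT hρ hK in
/-- the second strand -/
lemma J_step (x : P) (h : 0 < ξ (E x) ∨ ∀ j : ℕ, (j : ℤ) = 1 + q x → (T x j ↔ ρ x)) :
    ∀ j : ℕ, (j : ℤ) = 1 + q (E x) → (T (E x) j ↔ ρ (E x)) := by
  intro j hj
  have hv := hI.v_eq x
  have hb := hI.qb x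
  have hb2 := hI.qb (E x)
  have hq := hI.ξq x
  rw [hρ]
  by_cases h0 : 0 < ξ (E x)
  · obtain ⟨h3, h4⟩ := hq h0
    have := hT.st x j (1 + ξ (E x)) (by omega)
    rw [this]
    exact hK _ _ (by omega)
  · have h5 := h.resolve_left h0
    obtain ⟨k, hk⟩ : ∃ k : ℕ, (k : ℤ) = 1 + q x := ⟨(1 + q x).toNat, by omega⟩
    have := hT.st x j k (by omega)
    rw [this]
    exact h5 k hk

include hI hT hρ hK in
lemma J_all [Finite P] (x : P) : ∀ j : ℕ, (j : ℤ) = 1 + q x → (T x j ↔ ρ x) := by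
  obtain ⟨y, hy, hy0⟩ := hI.reset x
  refine cyc_ind (Q := fun x => ∀ j : ℕ, (j : ℤ) = 1 + q x → (T x j ↔ ρ x))
    (fun z hz => J_step hI hT hρ hK z (Or.inr hz)) hy.symm ?_
  have h1 := J_step hI hT hρ hK (E.symm y)
  rw [Equiv.apply_symm_apply] at h1
  exact h1 (Or.inl hy0)

/-- the claim for the first strand -/
def IC (E : Equiv.Perm P) (q : P → ℤ) (T : P → ℕ → Prop) (ρ : P → Prop) (x : P) : Prop :=
  (∀ j : ℕ, (j : ℤ) = q x → (T x j ↔ ρ x)) ∧ (q x = -1 → (T (E.symm x) 0 ↔ ρ x))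

include hI in
lemma v_a {b : P} (hb : X b) :
    v (τ (E (τ (E b)))) = -1 ∧ v (E (τ (E (τ (E b))))) = 1 := by
  have h0 := hI.Xa b hb
  generalize τ (E (τ (E b))) = a at h0 ⊢
  obtain ⟨a', rfl⟩ := E.surjective a
  have h1 := hI.v_eq a'
  have h2 := hI.v_eq (E a')
  have h3 := hI.qq a'
  have h4 := hI.qq (E a')
  have h5 := hI.ξq a'
  have h6 := hI.ξq (E a')
  omega

include hI in
lemma v_c {c : P} (h0 : q c = -1) : v c = 1 ∧ v (E c) = -1 := by
  obtain ⟨a', rfl⟩ := E.surjective c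
  have h1 := hI.v_eq a'
  have h2 := hI.v_eq (E a')
  have h3 := hI.qq a'
  have h4 := hI.qq (E a')
  have h5 := hI.ξq a'
  have h6 := hI.ξq (E a')
  omega

include hI in
lemma v_b {b : P} (hb : X b) : v b = 1 ∧ v (E b) = 1 ∧ q b = 0 ∧ q (E.symm b) = 0 := by
  have h0 := hI.Xb b hb
  obtain ⟨a', rfl⟩ := E.surjective b
  rw [Equiv.symm_apply_apply]
  have h1 := hI.v_eq a'
  have h2 := hI.v_eq (E a')
  have h3 := hI.qq a'
  have h4 := hI.qq (E a')
  have h5 := hI.ξq a'
  have h6 := hI.ξq (E a')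
  omega

include hI hT hρ in
/-- the first strand popped by an inserted face -/
lemma first_pop {b : P} (hb : X b) (hY : ∀ y, E.SameCycle b y → IC E q T ρ y) :
    T (E.symm b) 0 ↔ ρ b := by
  obtain ⟨h1, h2, h3, h4⟩ := v_b hI hb
  have h5 := (hY (E.symm b) ⟨-1, by simp⟩).1 0 (by simp [h4])
  rw [h5, ← hρ, Equiv.apply_symm_apply]

include hI hT hρ in
/-- the second strand popped by an inserted face -/
lemma second_pop {b : P} (hb : X b) (hY : ∀ y, E.SameCycle b y → IC E q T ρ y) :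
    T b 0 ↔ ρ b := by
  obtain ⟨h1, h2, h3, h4⟩ := v_b hI hb
  exact (hY b (Equiv.Perm.SameCycle.refl _ _)).1 0 (by simp [h3])

include hI hT in
/-- the pushed strand of the parent is the first strand popped by the child -/
lemma pushed {b : P} (hb : X b) : T (E (τ (E b))) 0 ↔ T (E.symm b) 0 := by
  obtain ⟨hc1, hc2⟩ := v_c hI (hI.Xc b hb)
  obtain ⟨ha1, ha2⟩ := v_a hI hb
  have h3 := hI.X3 b hb
  have h1 : T (E (τ (E b))) 0 ↔ T (τ (E (τ (E b)))) 0 :=
    hT.push (E (τ (E b))) 0 0 (by push_cast; omega)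
  have h2 := hT.pop (E (τ (E (τ (E b))))) 0 0 (by push_cast; omega)
  rw [h3, Equiv.symm_apply_apply] at h2
  rw [h1, h2]

include hI hT in
/-- the popped strand of the parent is the second strand popped by the child -/
lemma popped {b : P} (hb : X b) : T b 0 ↔ T (E.symm (τ (E b))) 0 := by
  obtain ⟨h1, h2, h3, h4⟩ := v_b hI hb
  have := hT.pop (E b) 0 0 (by push_cast; omega)
  rwa [Equiv.symm_apply_apply] at this

include hI hT hρ hK in
lemma IC_step [Finite P] (x : P)
    (hc : ∀ b, X b → τ (E b) = x → ∀ y, E.SameCycle b y → IC E q T ρ y)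
    (h : 0 < ξ (E x) ∨ IC E q T ρ x) : IC E q T ρ (E x) := by
  have hv := hI.v_eq x
  have hb := hI.qb x
  have hb2 := hI.qb (E x)
  have hq := hI.ξq x
  have hqq := hI.qq x
  by_cases h0 : 0 < ξ (E x)
  · obtain ⟨h3, h4⟩ := hq h0
    refine ⟨?_, fun h5 => by omega⟩
    intro j hj
    rw [hT.st x j (ξ (E x)) (by omega), hρ]
    by_cases h5 : ξ (E x) = 1
    · rw [h5]
      exact J_all hI hT hρ hK x 1 (by omega)
    · exact hK _ _ (by omega)
  · obtain ⟨h5, h7⟩ := h.resolve_left h0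
    refine ⟨?_, ?_⟩
    · intro j hj
      by_cases h8 : q x = -1
      · obtain ⟨b, hXb, hbx⟩ := hI.q_neg x h8
        subst hbx
        have hY := hc b hXb rfl
        have e1 := first_pop hI hT hρ hXb hY
        have e2 := second_pop hI hT hρ hXb hY
        have e3 := pushed hI hT hXb
        have e4 := popped hI hT hXb
        have e5 := h7 h8
        have h9 : j = 0 := by omega
        rw [h9, e3, e1, ← e2, e4, e5, hρ]
      · obtain ⟨k, hk⟩ : ∃ k : ℕ, (k : ℤ) = q x := ⟨(q x).toNat, by omega⟩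
        rw [hT.st x j k (by omega), hρ]
        exact h5 k hk
    · intro h8
      rw [Equiv.symm_apply_apply, hρ]
      exact h5 0 (by push_cast; omega)

include hI hT hρ hK in
lemma IC_all [Finite P] : ∀ x, IC E q T ρ x := by
  classical
  have := Fintype.ofFinite P
  obtain ⟨M, hM⟩ : ∃ M, ∀ x, rk x ≤ M :=
    ⟨∑ x, rk x, fun x => Finset.single_le_sum (f := rk) (fun _ _ => Nat.zero_le _)
      (Finset.mem_univ x)⟩
  have key : ∀ n x, M - rk x = n → IC E q T ρ x := by
    intro n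
    induction n using Nat.strong_induction_on with
    | _ n ih =>
      intro x hx
      obtain ⟨y, hy, hy0⟩ := hI.reset x
      -- the steps inside the face
      have hstep : ∀ z, rk z = rk x → (0 < ξ (E z) ∨ IC E q T ρ z) → IC E q T ρ (E z) := by
        intro z hz h
        refine IC_step hI hT hρ hK z ?_ h
        intro b hb hbz w hw
        have h1 := hI.rkX b hb
        rw [hbz] at h1
        have h2 := rk_cyc hI hw
        have h3 := hM b
        exact ih (M - rk w) (by omega) w rfl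
      have hfin : rk x = rk x ∧ IC E q T ρ x := by
        refine cyc_ind (Q := fun z => rk z = rk x ∧ IC E q T ρ z) ?_ hy.symm ?_
        · rintro z ⟨h1, h2⟩
          exact ⟨(hI.rkE z).trans h1, hstep z h1 (Or.inr h2)⟩
        · have h1 : rk y = rk x := (rk_cyc hI hy).symm
          refine ⟨h1, ?_⟩
          have h2 := hstep (E.symm y)
          rw [Equiv.apply_symm_apply] at h2
          refine h2 ?_ (Or.inl hy0)
          rw [← hI.rkE, Equiv.apply_symm_apply]
          exact h1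
      exact hfin.2
  exact fun x => key _ x rfl

include hI hT hρ hK in
lemma rho_child [Finite P] {b : P} (hb : X b) : ρ b ↔ ρ (τ (E b)) := by
  have hA := IC_all hI hT hρ hK
  rw [← second_pop hI hT hρ hb (fun y _ => hA y), popped hI hT hb]
  exact (hA (τ (E b))).2 (hI.Xc b hb)

include hI hT hρ hK in
/-- the values of the faces of one region -/
theorem rho_root [Finite P] : ∀ x, ρ x ↔ ρ (rr x) := by
  have hA := IC_all hI hT hρ hK
  have hlink : ∀ x, ρ (τ (rr x)) ↔ ρ (rr x) := by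
    intro x
    obtain ⟨h1, h2, h3⟩ := hI.link x
    have e1 := hT.pop (rr x) 0 0 (by push_cast; omega)
    generalize τ (rr x) = s at *
    generalize rr x = t at *
    obtain ⟨s, rfl⟩ := E.surjective s
    obtain ⟨t, rfl⟩ := E.surjective t
    have h4 := (hI.ξq s h3).1
    have h5 := (hI.ξq t h2).1
    rw [Equiv.symm_apply_apply, Equiv.symm_apply_apply] at e1
    rw [hρ, hρ, ← (hA t).1 0 (by simp [h5]), e1]
    exact ((hA s).1 0 (by simp [h4])).symm
  have key : ∀ n x, rk x = n → (ρ x ↔ ρ (rr x)) := by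
    intro n
    induction n using Nat.strong_induction_on with
    | _ n ih =>
      intro x hx
      rcases hI.face x with ⟨b, hb, hXb⟩ | h | h
      · have h1 := hI.rkX b hXb
        have h2 := rk_cyc hI hb
        have h3 : rr b = rr x :=
          cyc_ind (Q := fun z => rr z = rr x) (fun z hz => (hI.rrE z).trans hz) hb rfl
        have h4 : rr (τ (E b)) = rr b := by
          rw [hI.rrt, hI.rrE]
        rw [rho_cyc hρ hb, rho_child hI hT hρ hK hXb, ih _ (by omega) (τ (E b)) rfl, h4, h3]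
      · exact rho_cyc hρ h
      · rw [rho_cyc hρ h]
        exact hlink x
  exact fun x => key _ x rfl

include hI hT hρ hK in
/-- the first two strands -/
theorem top_ok [Finite P] (x : P) {j : ℕ} (hj : j ≤ 1) {c : Prop} (hc : ∀ x, ρ x ↔ c) :
    T x j ↔ c := by
  have hA := IC_all hI hT hρ hK
  have hJ := J_all hI hT hρ hK
  have hb := hI.qb x
  by_cases h0 : q x = 0
  · by_cases h1 : j = 0
    · exact ((hA x).1 j (by omega)).trans (hc x)
    · exact (hJ x j (by omega)).trans (hc x)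
  by_cases h1 : q x = 1
  · by_cases h2 : j = 1
    · exact ((hA x).1 j (by omega)).trans (hc x)
    · have h3 : j = 0 := by omega
      obtain ⟨b, hb, hbx⟩ := hI.q_pos x h1
      obtain ⟨ha1, ha2⟩ := v_a hI hb
      have h4 := hI.X3 b hb
      have e2 := hT.pop (E (τ (E (τ (E b))))) 0 0 (by push_cast; omega)
      rw [h4, Equiv.symm_apply_apply, hbx] at e2
      rw [h3, e2, first_pop hI hT hρ hb (fun y _ => hA y)]
      exact hc b
  · have h2 : q x = -1 := by omega
    by_cases h3 : j = 0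
    · exact (hJ x j (by omega)).trans (hc x)
    · obtain ⟨hv1, hv2⟩ := v_c hI h2
      obtain ⟨x', rfl⟩ := E.surjective x
      rw [hT.st x' j 2 (by omega), hK x' 2 (by omega)]
      exact hc x'

end

end TS

end Pool.Agent.MP42.NE
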