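import Pool.Agent.MP42.NE.Shear
import Pool.Agent.MP42.NE.F2c

/-!
# Thin ribbons

Insertion of thin ribbons between two corners of a node.  In the gap between `d` and `E d` on the
ring there are `la d` thin facets with an event on the north side (`(d, 1), .., (d, la d)`), then
`la (om d)` thin facets with an event on the south side.
-/

set_option autoImplicit false

namespace Pool.Agent.MP42.NE

namespace Sys

variable {D : Type*}

/-- a system from the permutation of the rings and the two involutions -/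
def ofInv (E : Equiv.Perm D) (om ta : D → D) (h1 : ∀ x, om (om x) = x) (h2 : ∀ x, ta (ta x) = x)
    (h3 : ∀ x, E (om (E x)) = om x) : Sys D :=
  have hrr : ∀ x, om (E.symm (om (E.symm x))) = x := fun x => by
    have h := h3 (E.symm x)
    rw [Equiv.apply_symm_apply] at h
    rw [← h, Equiv.symm_apply_apply, h1]
  { E := E
    N := ⟨fun x => om (E.symm (ta x)), fun x => ta (om (E.symm x)),
      fun x => by
        show ta (om (E.symm (om (E.symm (ta x))))) = x
        rw [hrr, h2], fun x => by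
        show om (E.symm (ta (ta (om (E.symm x))))) = x
        rw [h2, hrr]⟩
    r := fun x => om (E.symm x)
    rr := hrr
    rE := fun x => by
      rw [Equiv.symm_apply_apply, Equiv.symm_apply_apply, h1]
    rN := fun x => by
      show om (E.symm (om (E.symm (ta (om (E.symm (om (E.symm (ta x))))))))) = x
      rw [hrr, hrr, h2] }

section ofInv

variable {E : Equiv.Perm D} {om' ta' : D → D} (h1 : ∀ x, om' (om' x) = x)
  (h2 : ∀ x, ta' (ta' x) = x) (h3 : ∀ x, E (om' (E x)) = om' x)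

lemma ofInv_E : (ofInv E om' ta' h1 h2 h3).E = E := rfl

lemma ofInv_om (x : D) : (ofInv E om' ta' h1 h2 h3).om x = om' x := by
  show om' (E.symm (E x)) = om' x
  rw [Equiv.symm_apply_apply]

lemma ofInv_ta (x : D) : (ofInv E om' ta' h1 h2 h3).ta x = ta' x := by
  have h := h3 (E.symm (ta' x))
  rw [Equiv.apply_symm_apply] at h
  show om' (E.symm (om' (E.symm (ta' x)))) = ta' x
  rw [← h, Equiv.symm_apply_apply, h1]

end ofInv

/-- thin ribbons -/
structure Cuts (S : Sys D) where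
  la : D → ℕ
  cp : D × ℕ → D × ℕ
  pos : ∀ p, 0 < p.2 → p.2 ≤ la p.1 → 0 < (cp p).2
  le : ∀ p, 0 < p.2 → p.2 ≤ la p.1 → (cp p).2 ≤ la (cp p).1
  cp_cp : ∀ p, 0 < p.2 → p.2 ≤ la p.1 → cp (cp p) = p
  cp_ne : ∀ p, 0 < p.2 → p.2 ≤ la p.1 → cp p ≠ p

namespace Cuts

variable {S : Sys D} (C : S.Cuts)

/-- number of thin facets in the gap -/
def n (d : D) : ℕ := C.la d + C.la (S.om d)

lemma n_om (d : D) : C.n (S.om d) = C.n d := by
  unfold n; rw [S.om_om]; omega

/-- the darts with the thin facets -/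
def DD : Type _ := {p : D × ℕ // p.2 ≤ C.n p.1}

/-- the permutation of the rings -/
def EE : Equiv.Perm C.DD where
  toFun p := if h : p.1.2 < C.n p.1.1 then ⟨(p.1.1, p.1.2 + 1), h⟩
    else ⟨(S.E p.1.1, 0), Nat.zero_le _⟩
  invFun p := if 0 < p.1.2 then ⟨(p.1.1, p.1.2 - 1), (Nat.sub_le _ _).trans p.2⟩
    else ⟨(S.E.symm p.1.1, C.n (S.E.symm p.1.1)), le_rfl⟩
  left_inv p := by
    obtain ⟨⟨d, i⟩, hi⟩ := p
    by_cases h : i < C.n d
    · simp [h]
    · have hi' : i ≤ C.n d := hi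
      have : i = C.n d := by omega
      subst this
      simp
  right_inv p := by
    obtain ⟨⟨d, i⟩, hi⟩ := p
    have hi' : i ≤ C.n d := hi
    by_cases h : 0 < i
    · have h1 : i - 1 < C.n d := by omega
      have h2 : i - 1 + 1 = i := by omega
      simp [h, h1, h2]
    · have h0 : i = 0 := by omega
      subst h0
      simp

/-- a dart -/
def dd (d : D) (i : ℕ) (h : i ≤ C.n d) : C.DD := ⟨(d, i), h⟩

lemma EE_lt {d : D} {i : ℕ} (h : i < C.n d) : C.EE (C.dd d i h.le) = C.dd d (i + 1) h := by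
  show (if h : i < C.n d then _ else _) = _
  rw [dif_pos h]; rfl

lemma EE_last (d : D) : C.EE (C.dd d (C.n d) le_rfl) = C.dd (S.E d) 0 (Nat.zero_le _) := by
  show (if h : C.n d < C.n d then _ else _) = _
  rw [dif_neg (lt_irrefl _)]; rfl

/-- the other side of an edge of a ring -/
def oo (p : C.DD) : C.DD :=
  ⟨(S.om p.1.1, C.n p.1.1 - p.1.2), by
    show C.n p.1.1 - p.1.2 ≤ C.n (S.om p.1.1)
    rw [C.n_om]; exact Nat.sub_le _ _⟩

lemma oo_dd {d : D} {i : ℕ} (h : i ≤ C.n d) :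
    C.oo (C.dd d i h) = C.dd (S.om d) (C.n d - i) (by rw [C.n_om]; exact Nat.sub_le _ _) := rfl

lemma ext_iff' {p q : C.DD} : p = q ↔ p.1.1 = q.1.1 ∧ p.1.2 = q.1.2 := by
  constructor
  · rintro rfl; exact ⟨rfl, rfl⟩
  · rintro ⟨h1, h2⟩
    exact Subtype.ext (Prod.ext h1 h2)

lemma oo_oo (p : C.DD) : C.oo (C.oo p) = p := by
  rw [ext_iff']
  refine ⟨S.om_om _, ?_⟩
  show C.n (S.om p.1.1) - (C.n p.1.1 - p.1.2) = p.1.2
  have := p.2
  rw [C.n_om]; omega

lemma EE_oo_EE (p : C.DD) : C.EE (C.oo (C.EE p)) = C.oo p := by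
  obtain ⟨⟨d, i⟩, hi⟩ := p
  have hi' : i ≤ C.n d := hi
  change C.EE (C.oo (C.EE (C.dd d i hi'))) = C.oo (C.dd d i hi')
  by_cases h : i < C.n d
  · rw [C.EE_lt h, oo_dd, oo_dd]
    have h1 : C.n d - (i + 1) < C.n (S.om d) := by rw [C.n_om]; omega
    rw [C.EE_lt h1, ext_iff']
    refine ⟨rfl, ?_⟩
    show C.n d - (i + 1) + 1 = C.n d - i
    omega
  · have : i = C.n d := by omega
    subst this
    rw [C.EE_last, oo_dd, oo_dd]
    have h2 : ∀ (m : ℕ) (hm : m ≤ C.n (S.om (S.E d))), m = C.n (S.om (S.E d)) →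
        C.EE (C.dd (S.om (S.E d)) m hm) = C.dd (S.E (S.om (S.E d))) 0 (Nat.zero_le _) := by
      rintro m hm rfl
      exact C.EE_last _
    rw [h2 _ _ (by rw [C.n_om]; omega), ext_iff']
    refine ⟨S.E_om_E d, ?_⟩
    show 0 = C.n d - C.n d
    omega

open Classical in
/-- the other side of a ribbon -/
noncomputable def tt (p : C.DD) : C.DD :=
  if p.1.2 = 0 then C.dd (S.ta p.1.1) 0 (Nat.zero_le _)
  else if h : 0 < p.1.2 ∧ p.1.2 ≤ C.la p.1.1 then
    ⟨C.cp p.1, (C.le p.1 h.1 h.2).trans (Nat.le_add_right _ _)⟩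
  else p

lemma tt_zero (d : D) : C.tt (C.dd d 0 (Nat.zero_le _)) = C.dd (S.ta d) 0 (Nat.zero_le _) :=
  if_pos rfl

lemma tt_thin (p : C.DD) (h1 : 0 < p.1.2) (h2 : p.1.2 ≤ C.la p.1.1) : (C.tt p).1 = C.cp p.1 := by
  unfold tt
  rw [if_neg (by omega), dif_pos ⟨h1, h2⟩]

lemma tt_dummy (p : C.DD) (h2 : C.la p.1.1 < p.1.2) : C.tt p = p := by
  unfold tt
  rw [if_neg (by omega), dif_neg (by omega)]

lemma tt_tt (p : C.DD) : C.tt (C.tt p) = p := by
  obtain ⟨⟨d, i⟩, hi⟩ := p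
  have hi' : i ≤ C.n d := hi
  change C.tt (C.tt (C.dd d i hi')) = C.dd d i hi'
  by_cases h0 : i = 0
  · subst h0
    rw [tt_zero, tt_zero, S.ta_ta]
  by_cases h1 : i ≤ C.la d
  · have h2 := C.tt_thin (C.dd d i hi') (by show 0 < i; omega) h1
    apply Subtype.ext
    have h3 : 0 < (C.tt (C.dd d i hi')).1.2 := by
      rw [h2]; exact C.pos (d, i) (by show 0 < i; omega) h1
    have h4 : (C.tt (C.dd d i hi')).1.2 ≤ C.la (C.tt (C.dd d i hi')).1.1 := by
      rw [h2]; exact C.le (d, i) (by show 0 < i; omega) h1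
    rw [C.tt_thin _ h3 h4, h2]
    exact C.cp_cp (d, i) (by show 0 < i; omega) h1
  · rw [C.tt_dummy (C.dd d i hi') (by show C.la d < i; omega)]
    exact C.tt_dummy (C.dd d i hi') (by show C.la d < i; omega)

/-- the system with the thin ribbons -/
noncomputable def sys : Sys C.DD := ofInv C.EE C.oo C.tt C.oo_oo C.tt_tt C.EE_oo_EE

@[simp] lemma sys_E : C.sys.E = C.EE := rfl

@[simp] lemma sys_om (p : C.DD) : C.sys.om p = C.oo p := ofInv_om _ _ _ p

@[simp] lemma sys_ta (p : C.DD) : C.sys.ta p = C.tt p := ofInv_ta _ _ _ p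

lemma sys_r (p : C.DD) : C.sys.r p = C.oo (C.EE.symm p) := rfl

lemma ho (h : ∀ x, S.om x ≠ x) (p : C.DD) : C.sys.r (C.sys.E p) ≠ p := by
  intro h1
  change C.sys.om p = p at h1
  rw [sys_om, ext_iff'] at h1
  exact h _ h1.1

lemma hr (h : ∀ x, S.om x ≠ x) (h' : ∀ x, S.r x ≠ x) (p : C.DD) : C.sys.r p ≠ p := by
  obtain ⟨q, rfl⟩ := C.EE.surjective p
  rw [sys_r, Equiv.symm_apply_apply]
  obtain ⟨⟨d, i⟩, hi⟩ := q
  have hi' : i ≤ C.n d := hi
  change C.oo (C.dd d i hi') ≠ C.EE (C.dd d i hi')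
  by_cases h1 : i < C.n d
  · rw [C.EE_lt h1]
    intro h2
    rw [ext_iff'] at h2
    exact h _ h2.1
  · have : i = C.n d := by omega
    subst this
    rw [C.EE_last]
    intro h2
    rw [ext_iff'] at h2
    exact h' (S.E d) h2.1

lemma htau (h : ∀ x, S.ta x ≠ x) (p : C.DD) (hp : p.1.2 ≤ C.la p.1.1) : C.sys.ta p ≠ p := by
  rw [sys_ta]
  obtain ⟨⟨d, i⟩, hi⟩ := p
  have hi' : i ≤ C.n d := hi
  have hp' : i ≤ C.la d := hp
  change C.tt (C.dd d i hi') ≠ C.dd d i hi'
  by_cases h0 : i = 0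
  · subst h0
    rw [tt_zero]
    intro h2
    rw [ext_iff'] at h2
    exact h _ h2.1
  · intro h2
    have h3 := C.tt_thin (C.dd d i hi') (by show 0 < i; omega) hp'
    rw [h2] at h3
    exact C.cp_ne (d, i) (by show 0 < i; omega) hp' h3.symm

end Cuts

end Sys

end Pool.Agent.MP42.NE
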