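import Pool.Agent.MP42.NE.Sys

/-!
# Full twists about the rings

Adding `I d` (the number of vertical strands on the ring of `d`) copies of every ring does not
change the connection of the strands.
-/

set_option autoImplicit false

namespace Pool.Agent.MP42.NE

namespace Sys

variable {D : Type*} {S : Sys D}

/-- vertical strands on the next `k` facets of the ring -/
def acc (S : Sys D) (m : D → ℕ) (k : ℕ) (d : D) : ℕ := ∑ j ∈ Finset.range k, m ((S.E ^ j) d)

lemma acc_zero (m : D → ℕ) (d : D) : S.acc m 0 d = 0 := by simp [acc]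

lemma acc_succ (m : D → ℕ) (k : ℕ) (d : D) :
    S.acc m (k + 1) d = S.acc m k d + m ((S.E ^ k) d) := by
  unfold acc; rw [Finset.sum_range_succ]

lemma acc_succ' (m : D → ℕ) (k : ℕ) (d : D) :
    S.acc m (k + 1) d = m d + S.acc m k (S.E d) := by
  unfold acc
  rw [Finset.sum_range_succ']
  simp only [pow_zero, Equiv.Perm.coe_one, id_eq]
  rw [add_comm]
  congr 1

/-- the number of vertical strands on the ring (a multiple of it) -/
noncomputable def tw (S : Sys D) (m : D → ℕ) (d : D) : ℕ := S.acc m (orderOf S.E) d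

lemma pow_ord (S : Sys D) (d : D) : (S.E ^ orderOf S.E) d = d := by
  rw [pow_orderOf_eq_one]; rfl

lemma tw_E (m : D → ℕ) (d : D) : S.tw m (S.E d) = S.tw m d := by
  unfold tw
  have h1 := acc_succ (S := S) m (orderOf S.E) d
  have h2 := acc_succ' (S := S) m (orderOf S.E) d
  rw [S.pow_ord] at h1
  omega

lemma r_pow (S : Sys D) (j : ℕ) (d : D) : (S.E ^ j) (S.r ((S.E ^ j) d)) = S.r d := by
  induction j generalizing d with
  | zero => rfl
  | succ j ih =>
    have h1 : (S.E ^ (j + 1)) d = S.E ((S.E ^ j) d) := by rw [pow_succ']; rfl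
    have h2 : ∀ x, (S.E ^ (j + 1)) x = (S.E ^ j) (S.E x) := fun x => by rw [pow_succ]; rfl
    rw [h2, h1]
    have h3 : S.E (S.r (S.E ((S.E ^ j) d))) = S.r ((S.E ^ j) d) := by
      have := S.rE ((S.E ^ j) d)
      rw [← this, S.rr]
      rw [this]
    rw [h3, ih]

lemma tw_r [Finite D] {s m : D → ℕ} (hW : S.Wt s m) (d : D) : S.tw m (S.r d) = S.tw m d := by
  unfold tw acc
  have hpos : 0 < orderOf S.E := orderOf_pos S.E
  -- `m ((E ^ j) (r d)) = m ((E ^ (n - j)) d)`
  have h1 : ∀ j ≤ orderOf S.E, m ((S.E ^ j) (S.r d)) = m ((S.E ^ (orderOf S.E - j)) d) := by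
    intro j hj
    have h2 : (S.E ^ j) ((S.E ^ (orderOf S.E - j)) d) = d := by
      have : (S.E ^ j * S.E ^ (orderOf S.E - j)) d = d := by
        rw [← pow_add, Nat.add_sub_cancel' hj, pow_orderOf_eq_one]; rfl
      exact this
    have h3 := S.r_pow j ((S.E ^ (orderOf S.E - j)) d)
    rw [h2] at h3
    rw [h3, hW.mr]
  rw [← Finset.sum_range_reflect (fun j => m ((S.E ^ j) (S.r d)))]
  have h4 : ∀ j ∈ Finset.range (orderOf S.E),
      m ((S.E ^ (orderOf S.E - 1 - j)) (S.r d)) = m ((S.E ^ (j + 1)) d) := by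
    intro j hj
    rw [Finset.mem_range] at hj
    rw [h1 _ (by omega), show orderOf S.E - (orderOf S.E - 1 - j) = j + 1 by omega]
  rw [Finset.sum_congr rfl h4]
  have h5 := Finset.sum_range_succ' (fun j => m ((S.E ^ j) d)) (orderOf S.E)
  have h6 := Finset.sum_range_succ (fun j => m ((S.E ^ j) d)) (orderOf S.E)
  have h7 : m ((S.E ^ orderOf S.E) d) = m ((S.E ^ 0) d) := by rw [S.pow_ord]; rfl
  omega

lemma Wt.tw [Finite D] {s m : D → ℕ} (hW : S.Wt s m) : S.Wt (fun d => s d + S.tw m d) m where
  sE := fun d => by show s _ + _ = _; rw [hW.sE, tw_E]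
  sr := fun d => by show s _ + _ = _; rw [hW.sr, tw_r hW]
  mN := hW.mN
  mr := hW.mr

/-- moving to the east -/
lemma Con.shift {s m : D → ℕ} (hW : S.Wt s m) {g : D → ℕ → Prop} (h : S.Con s m g) (k : ℕ) :
    ∀ d u, S.acc m k d + u < s d + m d → (g d (S.acc m k d + u) ↔ g ((S.E ^ k) d) u) := by
  induction k with
  | zero =>
    intro d u hu
    rw [acc_zero, Nat.zero_add]
    exact Iff.rfl
  | succ k ih =>
    intro d u hu
    rw [acc_succ'] at hu ⊢
    rw [Nat.add_assoc, h.cE d _ (by omega), ih (S.E d) u (by have := hW.sE d; omega)]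
    have : (S.E ^ (k + 1)) d = (S.E ^ k) (S.E d) := by rw [pow_succ]; rfl
    rw [this]

/-- **full twists about the rings keep the curve connected** -/
theorem Conn.twist [Finite D] {s m : D → ℕ} (hW : S.Wt s m) (h : S.Conn s m) :
    S.Conn (fun d => s d + S.tw m d) m := by
  intro g hg
  have hW' := hW.tw
  have key := Con.shift hW' hg
  have hper : ∀ d u, u < s d + m d → (g d (u + S.tw m d) ↔ g d u) := by
    intro d u hu
    have := key (orderOf S.E) d u (by
      show S.tw m d + u < s d + S.tw m d + m d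
      omega)
    rw [S.pow_ord] at this
    rw [Nat.add_comm]
    exact this
  have hg' : S.Con s m g := by
    refine ⟨?_, ?_, ?_⟩
    · intro d t ht
      exact hg.cE d t (by show t < s d + S.tw m d; omega)
    · intro d t ht
      rw [hg.cN d t ht]
      show g (S.N d) (s (S.N d) + S.tw m (S.N d) + t) ↔ _
      rw [show s (S.N d) + S.tw m (S.N d) + t = (s (S.N d) + t) + S.tw m (S.N d) by omega]
      exact hper _ _ (by have := hW.mN d; omega)
    · intro d t ht
      rw [hg.cr d t (by show t < s d + S.tw m d + m d; omega)]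
      show g d (s d + S.tw m d + m d - 1 - t) ↔ _
      rw [show s d + S.tw m d + m d - 1 - t = (s d + m d - 1 - t) + S.tw m d by omega]
      exact hper _ _ (by omega)
  obtain ⟨c, hc⟩ := h g hg'
  refine ⟨c, ?_⟩
  intro d t ht
  have ht' : t < s d + S.tw m d + m d := ht
  by_cases h1 : S.tw m d ≤ t
  · have h2 := hper d (t - S.tw m d) (by omega)
    rw [Nat.sub_add_cancel h1] at h2
    rw [h2]
    exact hc d _ (by omega)
  · -- the first facet on the ring whose strands contain the strand
    have hex : ∃ k, t < S.acc m k d := ⟨orderOf S.E, by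
      show t < S.tw m d
      omega⟩
    classical
    obtain ⟨k, hk⟩ : ∃ k, Nat.find hex = k + 1 := by
      refine ⟨Nat.find hex - 1, ?_⟩
      have : Nat.find hex ≠ 0 := by
        intro h0
        have := Nat.find_spec hex
        rw [h0, acc_zero] at this
        omega
      omega
    have h2 : t < S.acc m (k + 1) d := hk ▸ Nat.find_spec hex
    have h3 : S.acc m k d ≤ t := by
      by_contra hcon
      exact Nat.find_min hex (by omega : k < Nat.find hex) (by omega)
    rw [acc_succ] at h2
    have h4 := key k d (t - S.acc m k d) (by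
      show S.acc m k d + (t - S.acc m k d) < s d + S.tw m d + m d
      omega)
    rw [Nat.add_sub_cancel' h3] at h4
    rw [h4]
    exact hc _ _ (by omega)

/-- full twists about the vertical lines -/
theorem Conn.twist' [Finite D] {s m : D → ℕ} (hW : S.Wt s m) (h : S.Conn s m) :
    S.Conn s (fun d => m d + S.swap.tw s d) := by
  have h1 := Conn.twist hW.swap (h.swap hW)
  have h2 := hW.swap.tw
  exact Conn.swap h2 h1

lemma Wt.tw' [Finite D] {s m : D → ℕ} (hW : S.Wt s m) :
    S.Wt s (fun d => m d + S.swap.tw s d) := hW.swap.tw.swap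

end Sys

end Pool.Agent.MP42.NE
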